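import Pool.Agent.H64.STAT.Fam0
import Pool.Agent.H75.STAT.CellW

/-!
# The precisions of the labels of a cell

The labels of the levels `k ≤ M` have the radii `b + k ζ`, one window, and the precisions
`BK.g k i = ⌊(L i b b + σ i (k ζ) - δ) J⌋₊`, where `L i` is affine in the radius up to an error `e`
on the cell, with the slope `σ i`. The numerical conditions on these precisions.
-/

set_option autoImplicit false

namespace Pool.STAT.BK

open Finset Pool.STAT.CDat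

/-- The precisions of the labels of the level `k`. -/
noncomputable def g (L : ℕ → ℝ → ℝ → ℝ) (σ : ℕ → ℝ) (b ζ δ : ℝ) (J k i : ℕ) : ℕ :=
  ⌊(L i b b + σ i * (k * ζ) - δ) * J⌋₊

variable {L : ℕ → ℝ → ℝ → ℝ} {σ : ℕ → ℝ} {b ζ δ : ℝ} {J k i : ℕ}

/-- The precision is at least the number, up to one digit. -/
theorem g_lb : (L i b b + σ i * (k * ζ) - δ) * J - 1 ≤ g L σ b ζ δ J k i := by
  have := Nat.lt_floor_add_one ((L i b b + σ i * (k * ζ) - δ) * J)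
  unfold g
  linarith

/-- The precision is at most the number. -/
theorem g_ub (hL : δ ≤ L i b b) (hσ : 0 ≤ σ i) (hζ : 0 ≤ ζ) :
    (g L σ b ζ δ J k i : ℝ) ≤ (L i b b + σ i * (k * ζ) - δ) * J := by
  refine Nat.floor_le (mul_nonneg ?_ (Nat.cast_nonneg J))
  have : 0 ≤ σ i * (k * ζ) := mul_nonneg hσ (mul_nonneg (Nat.cast_nonneg k) hζ)
  linarith

/-- **The precision is at most the number of the radius `b + k ζ` in the window `w`.** -/
theorem g_le (hL : δ ≤ L i b b) (hσ : 0 ≤ σ i) (hζ : 0 ≤ ζ) {w e δ' : ℝ}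
    (h : |L i (b + k * ζ) w - L i b b - σ i * (k * ζ)| ≤ e) (hδ : δ' + e ≤ δ) :
    (g L σ b ζ δ J k i : ℝ) ≤ (L i (b + k * ζ) w - δ') * J := by
  refine (g_ub hL hσ hζ).trans (mul_le_mul_of_nonneg_right ?_ (Nat.cast_nonneg J))
  have := (abs_le.1 h).1
  linarith

/-- The precision is at least the number of the radius `b + k ζ` in the window `w`, up to the
tolerance. -/
theorem g_ge {w e : ℝ} (h : |L i (b + k * ζ) w - L i b b - σ i * (k * ζ)| ≤ e) :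
    (L i (b + k * ζ) w - δ - e) * J - 1 ≤ g L σ b ζ δ J k i := by
  refine le_trans ?_ g_lb
  have := (abs_le.1 h).2
  have h2 := mul_le_mul_of_nonneg_right
    (by linarith : L i (b + k * ζ) w - δ - e ≤ L i b b + σ i * (k * ζ) - δ) (Nat.cast_nonneg' J)
  linarith

/-- The precisions increase with the level. -/
theorem g_mono (hσ : 0 ≤ σ i) (hζ : 0 ≤ ζ) {k' : ℕ} (hk : k ≤ k') :
    g L σ b ζ δ J k i ≤ g L σ b ζ δ J k' i := by
  refine Nat.floor_le_floor (mul_le_mul_of_nonneg_right ?_ (Nat.cast_nonneg J))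
  have h1 : (k : ℝ) * ζ ≤ k' * ζ := mul_le_mul_of_nonneg_right (by exact_mod_cast hk) hζ
  have h2 := mul_le_mul_of_nonneg_left h1 hσ
  linarith

/-- The differences of the precisions. -/
theorem g_diff (hL : δ ≤ L i b b) (hσ : 0 ≤ σ i) (hζ : 0 ≤ ζ) {z : ℕ} (hz : |(z : ℝ) - ζ * J| ≤ 1)
    (k k' : ℕ) : |(g L σ b ζ δ J k' i : ℝ) - g L σ b ζ δ J k i - σ i * (((k' : ℝ) - k) * z)| ≤
      σ i * |(k' : ℝ) - k| + 1 := by
  have h1 := g_ub (J := J) (k := k) hL hσ hζ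
  have h2 := g_lb (L := L) (σ := σ) (b := b) (ζ := ζ) (δ := δ) (J := J) (k := k) (i := i)
  have h3 := g_ub (J := J) (k := k') hL hσ hζ
  have h4 := g_lb (L := L) (σ := σ) (b := b) (ζ := ζ) (δ := δ) (J := J) (k := k') (i := i)
  have e1 : |σ i * (((k' : ℝ) - k) * z) - σ i * (((k' : ℝ) - k) * (ζ * J))| ≤
      σ i * |(k' : ℝ) - k| := by
    have e2 : σ i * (((k' : ℝ) - k) * z) - σ i * (((k' : ℝ) - k) * (ζ * J)) =
        σ i * (((k' : ℝ) - k) * ((z : ℝ) - ζ * J)) := by ring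
    rw [e2, abs_mul, abs_mul, abs_of_nonneg hσ]
    refine mul_le_mul_of_nonneg_left ?_ hσ
    exact mul_le_of_le_one_right (abs_nonneg _) hz
  have e3 := abs_le.1 e1
  have e4 : (L i b b + σ i * (k' * ζ) - δ) * J - (L i b b + σ i * (k * ζ) - δ) * J =
      σ i * (((k' : ℝ) - k) * (ζ * J)) := by ring
  rw [abs_le]
  constructor <;> linarith [e3.1, e3.2]

/-- **The precisions are numbers of a system.** -/
theorem num {n w₀ z M : ℕ} {C₁ B : ℝ} (hσ0 : σ 0 = 1) (hσ : ∀ i, 1 ≤ σ i) (hζ : 0 ≤ ζ)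
    (hL : ∀ i, 1 ≤ i → i ≤ n → δ ≤ L i b b) (hw : (w₀ : ℝ) ≤ b * J + B)
    (hz : |(z : ℝ) - ζ * J| ≤ 1) (htop : (b + (M + 1) * ζ) * J + B + (M + 1) ≤ J)
    (hC : ∀ i, 1 ≤ i → i ≤ n → σ i * M + 1 ≤ C₁ * z) :
    Num n J w₀ z M (g L σ b ζ δ J) σ C₁ where
  top := by
    have h1 := (abs_le.1 hz).2
    have h2 : (z : ℝ) ≤ ζ * J + 1 := by linarith
    have h3 : ((M : ℝ) + 1) * z ≤ (M + 1) * (ζ * J + 1) :=
      mul_le_mul_of_nonneg_left h2 (by positivity)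
    have h4 : ((w₀ + (M + 1) * z : ℕ) : ℝ) ≤ J := by
      push_cast
      linarith
    exact_mod_cast h4
  σ_zero := hσ0
  σ_ge := hσ
  g_ge := fun k _ i _ _ => g_mono (zero_le_one.trans (hσ i)) hζ (Nat.zero_le k)
  hom := fun k hk i h1 h2 => by
    have h3 := g_diff (hL i h1 h2) (zero_le_one.trans (hσ i)) hζ hz 0 k
    simp only [Nat.cast_zero, sub_zero, Nat.abs_cast] at h3
    refine h3.trans (le_trans ?_ (hC i h1 h2))
    have h4 : (k : ℝ) ≤ M := by exact_mod_cast hk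
    have h5 := mul_le_mul_of_nonneg_left h4 (zero_le_one.trans (hσ i))
    linarith

/-- **Room above the precisions.** -/
theorem hJ (hL : δ ≤ L i b b) (hσ : 1 ≤ σ i) (hζ : 0 ≤ ζ) {z U : ℕ} (hz : (z : ℝ) ≤ ζ * J + 1)
    (htop : (L i b b + σ i * ((k + U) * ζ) - δ) * J + U ≤ J) : g L σ b ζ δ J k i + U * z ≤ J := by
  have h1 := g_ub (J := J) (k := k) hL (zero_le_one.trans hσ) hζ
  have h2 : (U : ℝ) * z ≤ U * (ζ * J + 1) := mul_le_mul_of_nonneg_left hz (Nat.cast_nonneg U)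
  have h3 : (U : ℝ) * (ζ * J) ≤ σ i * (U * (ζ * J)) := by
    have : 0 ≤ (U : ℝ) * (ζ * J) := by positivity
    nlinarith
  have h4 : ((g L σ b ζ δ J k i + U * z : ℕ) : ℝ) ≤ J := by
    push_cast
    have e : (L i b b + σ i * ((k + U) * ζ) - δ) * J =
      (L i b b + σ i * (k * ζ) - δ) * J + σ i * (U * (ζ * J)) := by ring
    rw [e] at htop
    linarith
  exact_mod_cast h4

/-- **The precisions are near the row.** -/
theorem near (hL : δ ≤ L i b b) (hσ : 0 ≤ σ i) (hζ : 0 ≤ ζ) (hδ : 0 ≤ δ) {Q r₁ r₂ ρ : ℝ}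
    (h1 : |L i b b - Q| ≤ r₁) (h2 : σ i * (k * ζ) ≤ r₂) {y : ℕ}
    (h3 : (r₁ + r₂ + δ) * J + y + 1 ≤ ρ * J) :
    (Q - ρ) * J ≤ g L σ b ζ δ J k i ∧ (g L σ b ζ δ J k i : ℝ) + y ≤ (Q + ρ) * J := by
  have a1 := g_ub (J := J) (k := k) hL hσ hζ
  have a2 := g_lb (L := L) (σ := σ) (b := b) (ζ := ζ) (δ := δ) (J := J) (k := k) (i := i)
  have a3 := abs_le.1 h1
  have hJ0 : (0 : ℝ) ≤ J := Nat.cast_nonneg J
  have hy0 : (0 : ℝ) ≤ y := Nat.cast_nonneg y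
  have a4 : 0 ≤ σ i * (k * ζ) := mul_nonneg hσ (mul_nonneg (Nat.cast_nonneg k) hζ)
  constructor
  · have := mul_le_mul_of_nonneg_right
      (by linarith [a3.1] : Q - (r₁ + r₂ + δ) ≤ L i b b + σ i * (k * ζ) - δ) hJ0
    linarith
  · have := mul_le_mul_of_nonneg_right
      (by linarith [a3.2] : L i b b + σ i * (k * ζ) - δ ≤ Q + (r₁ + r₂ + δ)) hJ0
    linarith

/-- **The numbers of exactness** in the window `w` are at most the precisions of level `k` plus a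
tolerance, if `w` is near `b + k ζ`; in the form of `ExW.num`. -/
theorem ex_le (hσ : 0 ≤ σ i) {w e e₃ s : ℝ} (h : |L i w w - L i b b - σ i * (w - b)| ≤ e)
    (hw : w ≤ b + k * ζ + e₃) (hs : σ i ≤ s) (he : 0 ≤ e₃) :
    L i w w * J - ((e + s * e₃ + δ) * J + 1) ≤ g L σ b ζ δ J k i := by
  have a2 := g_lb (L := L) (σ := σ) (b := b) (ζ := ζ) (δ := δ) (J := J) (k := k) (i := i)
  have a3 := (abs_le.1 h).2
  have a4 : σ i * (w - b) ≤ σ i * (k * ζ) + s * e₃ := by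
    have h1 := mul_le_mul_of_nonneg_left (by linarith : w - b ≤ k * ζ + e₃) hσ
    have h2 := mul_le_mul_of_nonneg_right hs he
    linarith
  have a5 := mul_le_mul_of_nonneg_right
    (by linarith : L i w w - (e + s * e₃ + δ) ≤ L i b b + σ i * (k * ζ) - δ) (Nat.cast_nonneg' J)
  linarith

end Pool.STAT.BK

namespace Pool.STAT

open Pool.STAT.BK

/-- **The static coordinates of a cell at the radii of the levels.** -/
theorem CellW.lev {L : ℕ → ℝ → ℝ → ℝ} {n : ℕ} {S : Finset ℕ} {σ : ℕ → ℝ} {s A R : ℕ} {k : ℕ → ℝ}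
    {θ τ γ μ : ℝ} {F : Finset (ℚ × ℚ)} {V : ℚ × ℚ → ℕ} {o b r ε : ℝ}
    (H : CellW L n S σ s A R k θ τ γ μ F V o b r ε) {i : ℕ} (hi : i ∈ S ∨ i = n) {M k' : ℕ}
    {ζ w : ℝ} (hζ : 0 ≤ ζ) (hk : k' ≤ M) (hM : M * ζ ≤ (γ + μ) * r)
    (hw : b - (A * k 0 + μ) * r ≤ w) (hwb : w ≤ b + k' * ζ) :
    |L i (b + k' * ζ) w - L i b b - σ i * (k' * ζ)| ≤ ε * r := by
  have h1 : (k' : ℝ) * ζ ≤ M * ζ := mul_le_mul_of_nonneg_right (by exact_mod_cast hk) hζ
  have h2 := H.stat i hi (b + k' * ζ) w hw hwb (by linarith)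
  rwa [add_sub_cancel_left] at h2

/-- The dynamic coordinates of a cell on the diagonal. -/
theorem CellW.lev_diag {L : ℕ → ℝ → ℝ → ℝ} {n : ℕ} {S : Finset ℕ} {σ : ℕ → ℝ} {s A R : ℕ}
    {k : ℕ → ℝ} {θ τ γ μ : ℝ} {F : Finset (ℚ × ℚ)} {V : ℚ × ℚ → ℕ} {o b r ε : ℝ}
    (H : CellW L n S σ s A R k θ τ γ μ F V o b r ε) {i : ℕ} (hi : i ≤ n) {M k' : ℕ} {ζ : ℝ}
    (hζ : 0 ≤ ζ) (hk : k' ≤ M) (hM : M * ζ ≤ (γ + μ) * r) (hA : 0 ≤ (A * k 0 + μ) * r) :
    |L i (b + k' * ζ) (b + k' * ζ) - L i b b - σ i * (k' * ζ)| ≤ ε * r := by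
  have h1 : (k' : ℝ) * ζ ≤ M * ζ := mul_le_mul_of_nonneg_right (by exact_mod_cast hk) hζ
  have h0 : 0 ≤ (k' : ℝ) * ζ := mul_nonneg (Nat.cast_nonneg k') hζ
  by_cases hS : i ∈ S ∨ i = n
  · exact H.lev hS hζ hk hM (by linarith) le_rfl
  · push Not at hS
    have h2 := H.diag i (lt_of_le_of_ne hi hS.2) hS.1 (b + k' * ζ) (by linarith) (by linarith)
    rwa [add_sub_cancel_left] at h2

end Pool.STAT
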