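import Pool.Agent.H19.STAT.Sys

/-!
# Row 111 JBW: typical samples have ladders
-/

set_option autoImplicit false

namespace Pool.STAT.JBW

open Finset MvPolynomial
open Pool.Agent.H49.Ent Pool.Agent.H32.Dense Pool.STK Pool.KS3
open Pool.BFL (Pl CB Pb P2 MC alt)
open Pool.STAT

/-! ### Points and polynomials -/

theorem eval_congr_range {F : PN} {i : ℕ} (hF : F.vars ⊆ range i) {b b' : ℕ → ℝ}
    (h : ∀ j < i, b j = b' j) : eval b F = eval b' F := by
  refine eval₂Hom_congr' rfl (fun j hj _ => ?_) rfl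
  exact h j (mem_range.mp (hF hj))

theorem ext_point (g : ℕ → ℕ) (Φ : ℕ → PN) (hT : TriN Φ) (i : ℕ) (b : ℕ → ℝ)
    (hb : Bx g Φ i b) (n : ℕ) : ∃ b' : ℕ → ℝ, (∀ j < i, b' j = b j) ∧ Bx g Φ n b' := by
  induction n with
  | zero => exact ⟨b, fun _ _ => rfl, fun j hj => absurd hj (Nat.not_lt_zero _)⟩
  | succ n ih =>
    by_cases hn : n < i
    · exact ⟨b, fun _ _ => rfl, fun j hj => hb j (by omega)⟩
    · obtain ⟨b', h1, h2⟩ := ih
      have hne : ∀ j < n, Function.update b' n (eval b' (Φ n)) j = b' j := fun j hj =>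
        Function.update_of_ne (by omega) _ _
      refine ⟨Function.update b' n (eval b' (Φ n)), fun j hj => ?_, fun j hj => ?_⟩
      · rw [hne j (by omega), h1 j hj]
      · have he : eval (Function.update b' n (eval b' (Φ n))) (Φ j) = eval b' (Φ j) := by
          refine eval_congr_range (hT j) fun l hl => hne l (by omega)
        rw [he]
        rcases Nat.lt_succ_iff_lt_or_eq.mp hj with h | h
        · rw [hne j h]
          exact h2 j h
        · subst h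
          rw [Function.update_self, sub_self, abs_zero]
          positivity

theorem rd_pos (z k : ℕ) : 0 < rd z k := by
  unfold rd
  positivity

theorem rd_le_one (z k : ℕ) : rd z k ≤ 1 := by
  unfold rd
  rw [div_le_one (by positivity)]
  exact one_le_pow₀ (by norm_num)

theorem rd_succ (z k : ℕ) : rd z (k + 1) = rd z k * (1 / 2 ^ z) := by
  unfold rd
  rw [add_mul, one_mul, pow_add]
  field_simp

theorem two_pow_le (z : ℕ) : (2 : ℝ) ^ z ≤ Real.exp z := by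
  have h : (2 : ℝ) ≤ Real.exp 1 := by
    have := Real.add_one_le_exp (1 : ℝ)
    linarith
  calc (2 : ℝ) ^ z ≤ Real.exp 1 ^ z := pow_le_pow_left₀ (by norm_num) h z
    _ = Real.exp z := by rw [← Real.exp_nat_mul, mul_one]

theorem coeff_trw (d : ℕ → ℕ) (r : ℕ) (F : PN) (m : ℕ →₀ ℕ) :
    (trw d r F).coeff m = if Finsupp.weight d m < r then F.coeff m else 0 := by
  classical
  unfold trw
  rw [coeff_sum]
  simp_rw [coeff_weightedHomogeneousComponent]
  rw [Finset.sum_ite_eq (range r) (Finsupp.weight d m) (fun _ => F.coeff m)]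
  simp only [mem_range]

/-- The weight is at most `D` times the total degree. -/
theorem trw_eq_self {d : ℕ → ℕ} {D r : ℕ} {F : PN} (hd : ∀ i ∈ F.vars, d i ≤ D)
    (hr : D * F.totalDegree ≤ r) : trw d (r + 1) F = F := by
  ext m
  rw [coeff_trw]
  by_cases hm : m ∈ F.support
  · have h1 : Finsupp.weight d m ≤ r := by
      rw [Finsupp.weight_apply, Finsupp.sum]
      have h2 : ∀ i ∈ m.support, m i • d i ≤ D * m i := fun i hi => by
        have h3 : d i ≤ D := hd i ((mem_vars_iff_mem_support i).mpr ⟨m, hm, hi⟩)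
        rw [smul_eq_mul, mul_comm]
        exact Nat.mul_le_mul_right _ h3
      refine (Finset.sum_le_sum h2).trans ?_
      rw [← Finset.mul_sum]
      refine le_trans (Nat.mul_le_mul_left _ ?_) hr
      exact le_totalDegree hm
    rw [if_pos (by omega)]
  · rw [notMem_support_iff.mp hm]
    split_ifs <;> rfl

/-! ### Changes of coordinates -/

variable {d : ℕ → ℕ}

theorem bind_adp_adp (hA : AdxStmt) (hd0 : d 0 = 1) (hd : ∀ i, 1 ≤ d i) {Φ Φ' : ℕ → PN}
    (hΦ' : TriN Φ') (F : PN) :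
    bind₁ (fun j => bind₁ (adp d Φ) (tinv (adp d Φ') j)) (bind₁ (adp d Φ') F) =
      bind₁ (adp d Φ) F := by
  obtain ⟨h1, h2, h3, -⟩ := hA.2 d Φ' hd0 hd hΦ'
  obtain ⟨-, h4, -⟩ := h3 (adp d Φ') h2
  rw [bind₁_bind₁]
  congr 1
  congr 1
  funext i
  rw [← bind₁_bind₁, h4 i, bind₁_X_right]

/-- The inverse transition maps of a ladder. -/
theorem inv_trans (hA : AdxStmt) (hN : NrmStmt) (hL : LadStmt) (n K : ℕ) (d : ℕ → ℕ)
    (σ : ℕ → ℝ) (C₂ : ℝ) (hs : Slp d σ n) (hC : 1 ≤ C₂) : ∃ C₃ : ℝ, 1 ≤ C₃ ∧ ∀ N : ℕ,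
    ∃ z₀ : ℕ, ∀ (z : ℕ) (Φ : ℕ → ℕ → PN) (n' : ℕ), z₀ ≤ z → n' ≤ n → LBase K n' N Φ →
      Lad d z σ C₂ N n' Φ → ∀ k < N, ∀ j < n',
      nrm d (rd z k) (bind₁ (adp d (Φ k)) (tinv (adp d (Φ (k + 1))) j)) ≤
        (Real.exp (C₃ * z) * rd z k) ^ d j := by
  obtain ⟨C₃, hC₃, hL⟩ := hL n K d σ C₂ hs hC
  refine ⟨C₃ + 1, by linarith, fun N => ?_⟩
  obtain ⟨z₀, hL⟩ := hL N
  refine ⟨max z₀ 1, fun z Φ n' hz hn hB hLad k hk j => ?_⟩
  have hd := hs.d_pos
  have hz1 : (1 : ℝ) ≤ z := by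
    have : 1 ≤ z := (le_max_right _ _).trans hz
    exact_mod_cast this
  have hr := rd_pos z k
  obtain ⟨n0, nadd, nneg, -, -, nX, -, -, -, nbind, -, -, -⟩ := hN d (rd z k) hd hr
  have hρ' : rd z k ≤ Real.exp ((C₃ + 1) * z) * rd z k := by
    have : 1 ≤ Real.exp ((C₃ + 1) * z) := Real.one_le_exp (by nlinarith)
    nlinarith
  have nts : ∀ r F, nrm d (Real.exp ((C₃ + 1) * z) * rd z k) (trw d (r + 1) F) ≤
      (Real.exp ((C₃ + 1) * z) * rd z k / rd z k) ^ r * nrm d (rd z k) F := fun r F =>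
    (hN d (rd z k) hd hr).2.2.2.2.2.2.2.2.2.2.2.1 r F _ hρ'
  set u' : ℕ → PN := fun j => bind₁ (adp d (Φ k)) (tinv (adp d (Φ (k + 1))) j) with hu'
  induction j using Nat.strong_induction_on with
  | _ j ih =>
    intro hj
    have hjn : j < n := lt_of_lt_of_le hj hn
    obtain ⟨hvars, htr, hbd⟩ := (hL z Φ n' ((le_max_left _ _).trans hz) (by omega) hB hLad).2
      (k + 1) (by omega) k (by omega) j hj
    set δ : PN := bind₁ (adp d (Φ (k + 1))) (tinv (adp d (Φ k)) j) - X j with hδ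
    have hbd1 : nrm d (rd z k) δ ≤ Real.exp (C₃ * z) * rd z k ^ d j := by
      refine (hbd k le_rfl).trans (le_of_eq ?_)
      rw [hs.int j hjn, ← Real.rpow_add hr]
      congr 1
      rw [show (d j : ℝ) - 1 + (d j - d j + 1) = (d j : ℝ) by ring, Real.rpow_natCast]
    -- the identity
    have hid : u' j = X j - bind₁ u' δ := by
      have h1 := bind_adp_adp (Φ := Φ k) hA hs.d_zero hd (hB.tri (k + 1) (by omega))
        (tinv (adp d (Φ k)) j)
      obtain ⟨-, h2, h3, -⟩ := hA.2 d (Φ k) hs.d_zero hd (hB.tri k (by omega))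
      obtain ⟨-, -, h4⟩ := h3 (adp d (Φ k)) h2
      rw [h4 j] at h1
      have h5 : bind₁ (adp d (Φ (k + 1))) (tinv (adp d (Φ k)) j) = X j + δ := by
        rw [hδ]; ring
      rw [h5, map_add, bind₁_X_right] at h1
      rw [← h1]
      ring
    have hv : ∀ l ∈ δ.vars, nrm d (rd z k) (u' l) ≤
        (Real.exp ((C₃ + 1) * z) * rd z k) ^ d l := fun l hl =>
      ih l (mem_range.mp (hvars hl)) (lt_trans (mem_range.mp (hvars hl)) hj)
    have h6 : nrm d (rd z k) (bind₁ u' δ) ≤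
        nrm d (Real.exp ((C₃ + 1) * z) * rd z k) δ := nbind u' δ _ (by positivity) hv
    have h7 : nrm d (Real.exp ((C₃ + 1) * z) * rd z k) δ ≤
        Real.exp ((C₃ + 1) * z) ^ (d j - 1) * (Real.exp (C₃ * z) * rd z k ^ d j) := by
      have h8 : trw d (d j - 1 + 1) δ = δ := by
        rw [Nat.sub_add_cancel (hd j)]
        exact htr
      have h9 := nts (d j - 1) δ
      rw [h8, mul_div_assoc, div_self hr.ne', mul_one] at h9
      exact h9.trans (mul_le_mul_of_nonneg_left hbd1 (by positivity))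
    change nrm d (rd z k) (u' j) ≤ _
    rw [hid, sub_eq_add_neg]
    refine (nadd _ _).trans ?_
    rw [nneg, nX]
    refine (add_le_add_right (h6.trans h7) _).trans ?_
    obtain ⟨e, he⟩ : ∃ e, d j = e + 1 := ⟨d j - 1, by have := hd j; omega⟩
    rw [he, Nat.add_sub_cancel, mul_pow]
    have h10 : Real.exp (C₃ * z) * 2 ≤ Real.exp ((C₃ + 1) * z) := by
      rw [add_mul, one_mul, Real.exp_add]
      refine mul_le_mul_of_nonneg_left ?_ (Real.exp_pos _).le
      have := Real.add_one_le_exp (z : ℝ)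
      linarith
    have h11 : 1 ≤ Real.exp ((C₃ + 1) * z) ^ e * Real.exp (C₃ * z) := by
      refine one_le_mul_of_one_le_of_one_le (one_le_pow₀ (Real.one_le_exp (by nlinarith)))
        (Real.one_le_exp (by nlinarith))
    have hR : 0 ≤ rd z k ^ (e + 1) := by positivity
    calc rd z k ^ (e + 1) + Real.exp ((C₃ + 1) * z) ^ e * (Real.exp (C₃ * z) * rd z k ^ (e + 1))
        = (1 + Real.exp ((C₃ + 1) * z) ^ e * Real.exp (C₃ * z)) * rd z k ^ (e + 1) := by ring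
      _ ≤ (2 * (Real.exp ((C₃ + 1) * z) ^ e * Real.exp (C₃ * z))) * rd z k ^ (e + 1) := by
          refine mul_le_mul_of_nonneg_right (by linarith) hR
      _ = (Real.exp ((C₃ + 1) * z) ^ e * (Real.exp (C₃ * z) * 2)) * rd z k ^ (e + 1) := by ring
      _ ≤ (Real.exp ((C₃ + 1) * z) ^ e * Real.exp ((C₃ + 1) * z)) * rd z k ^ (e + 1) := by
          refine mul_le_mul_of_nonneg_right (mul_le_mul_of_nonneg_left h10 (by positivity)) hR
      _ = Real.exp ((C₃ + 1) * z) ^ (e + 1) * rd z k ^ (e + 1) := by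
          rw [pow_succ (Real.exp ((C₃ + 1) * z)) e]

theorem vars_bind_range {F : PN} {n : ℕ} (hF : F.vars ⊆ range n) {χ : ℕ → PN}
    (hχ : TriN fun i => χ i - X i) : (bind₁ χ F).vars ⊆ range n := by
  classical
  intro l hl
  obtain ⟨i, hi, hl⟩ := mem_vars_bind₁ χ F hl
  have h1 : i < n := mem_range.mp (hF hi)
  have h2 : χ i = (χ i - X i) + X i := by ring
  rw [h2] at hl
  rcases Finset.mem_union.mp (vars_add_subset _ _ hl) with h | h
  · exact mem_range.mpr (lt_trans (mem_range.mp (hχ i h)) h1)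
  · rw [vars_X, Finset.mem_singleton] at h
    subst h
    exact mem_range.mpr h1

theorem totalDegree_bind_le {F : PN} {χ : ℕ → PN} {K K' : ℕ} (hF : F.totalDegree ≤ K)
    (hχ : ∀ i ∈ F.vars, (χ i).totalDegree ≤ K') : (bind₁ χ F).totalDegree ≤ K * K' := by
  have h1 : bind₁ χ F = ∑ m ∈ F.support, C (F.coeff m) * ∏ i ∈ m.support, χ i ^ m i := by
    rw [bind₁, aeval_def, eval₂_eq]
    rfl
  rw [h1]
  refine (totalDegree_finsetSum _ _).trans (Finset.sup_le fun m hm => ?_)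
  refine (totalDegree_mul _ _).trans ?_
  rw [totalDegree_C, zero_add]
  refine (totalDegree_finsetProd _ _).trans ?_
  have h2 : ∀ i ∈ m.support, (χ i ^ m i).totalDegree ≤ m i * K' := fun i hi =>
    (totalDegree_pow _ _).trans (Nat.mul_le_mul_left _
      (hχ i ((mem_vars_iff_mem_support i).mpr ⟨m, hm, hi⟩)))
  refine (Finset.sum_le_sum h2).trans ?_
  rw [← Finset.sum_mul]
  exact Nat.mul_le_mul_right _ ((le_totalDegree hm).trans hF)

/-- A polynomial in adapted coordinates: from one level to the level before. -/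
theorem up (hA : AdxStmt) (hN : NrmStmt) (hL : LadStmt) (hG : DgbStmt) (n K : ℕ) (d : ℕ → ℕ)
    (σ : ℕ → ℝ) (C₂ : ℝ) (hs : Slp d σ n) (hC : 1 ≤ C₂) : ∃ C₃ : ℝ, 1 ≤ C₃ ∧ ∀ N : ℕ,
    ∃ z₀ : ℕ, ∀ (z : ℕ) (Φ : ℕ → ℕ → PN) (n' : ℕ), z₀ ≤ z → n' ≤ n → LBase K n' N Φ →
      Lad d z σ C₂ N n' Φ → ∀ k < N, ∀ F : PN, F.vars ⊆ range n' → F.totalDegree ≤ K →
      nrm d (rd z k) (bind₁ (adp d (Φ k)) F) ≤
        Real.exp (C₃ * z) * nrm d (rd z (k + 1)) (bind₁ (adp d (Φ (k + 1))) F) := by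
  obtain ⟨C₃, hC₃, hI⟩ := inv_trans hA hN hL n K d σ C₂ hs hC
  choose K' hK' using fun n₁ : ℕ => hG n₁ K d hs.d_zero hs.d_pos
  set K₁ : ℕ := (range n).sup K' with hK₁
  set D : ℕ := (range n).sup d with hD
  set r : ℕ := D * (K * K₁) with hr
  refine ⟨(C₃ + 1) * r + 1, ?_, fun N => ?_⟩
  · have : (0 : ℝ) ≤ (C₃ + 1) * r := by positivity
    linarith
  obtain ⟨z₀, hI⟩ := hI N
  refine ⟨z₀, fun z Φ n' hz hn hB hLad k hk F hFv hFd => ?_⟩
  have hd := hs.d_pos
  have hA1 := hA.2 d (Φ (k + 1)) hs.d_zero hd (hB.tri (k + 1) (by omega))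
  set G : PN := bind₁ (adp d (Φ (k + 1))) F with hGd
  have hGv : G.vars ⊆ range n' := vars_bind_range hFv hA1.2.1
  have hGt : G.totalDegree ≤ K * K₁ := by
    refine totalDegree_bind_le hFd fun i hi => ?_
    have hin : i < n' := mem_range.mp (hFv hi)
    have h1 := (hK' (n' - 1) (Φ (k + 1)) 0 (hB.tri (k + 1) (by omega))
      (fun j hj => hB.deg (k + 1) (by omega) j (by omega)) i (by omega)).1
    exact h1.trans (Finset.le_sup (f := K') (mem_range.mpr (by omega)))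
  have hGr : trw d (r + 1) G = G := by
    refine trw_eq_self (D := D) (fun i hi => ?_) (Nat.mul_le_mul_left _ hGt)
    exact Finset.le_sup (f := d) (mem_range.mpr (lt_of_lt_of_le (mem_range.mp (hGv hi)) hn))
  set u' : ℕ → PN := fun j => bind₁ (adp d (Φ k)) (tinv (adp d (Φ (k + 1))) j) with hu'
  have hid : bind₁ u' G = bind₁ (adp d (Φ k)) F :=
    bind_adp_adp (Φ := Φ k) hA hs.d_zero hd (hB.tri (k + 1) (by omega)) F
  have hrk := rd_pos z k
  have hrk1 := rd_pos z (k + 1)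
  set ρ' : ℝ := Real.exp (C₃ * z) * rd z k with hρ'
  have hρpos : 0 < ρ' := by positivity
  have h1 : nrm d (rd z k) (bind₁ u' G) ≤ nrm d ρ' G := by
    obtain ⟨n0, nadd, nneg, -, -, nX, -, -, -, nbind, -, -, -⟩ := hN d (rd z k) hd hrk
    refine nbind u' G ρ' hρpos fun i hi => ?_
    exact hI z Φ n' hz hn hB hLad k hk i (mem_range.mp (hGv hi))
  have hz0 : (0 : ℝ) ≤ z := Nat.cast_nonneg z
  have hrr : rd z k = rd z (k + 1) * 2 ^ z := by
    rw [rd_succ]
    field_simp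
  have h2 : rd z (k + 1) ≤ ρ' := by
    rw [hρ', hrr]
    have h3 : (1 : ℝ) ≤ 2 ^ z := one_le_pow₀ (by norm_num)
    have h4 : 1 ≤ Real.exp (C₃ * z) := Real.one_le_exp (by positivity)
    have h5 : 1 ≤ Real.exp (C₃ * z) * 2 ^ z := one_le_mul_of_one_le_of_one_le h4 h3
    nlinarith
  have h3 : nrm d ρ' G ≤ (ρ' / rd z (k + 1)) ^ r * nrm d (rd z (k + 1)) G := by
    have h4 := (hN d (rd z (k + 1)) hd hrk1).2.2.2.2.2.2.2.2.2.2.2.1 r G ρ' h2
    rwa [hGr] at h4
  have hn0 : 0 ≤ nrm d (rd z (k + 1)) G := (hN d (rd z (k + 1)) hd hrk1).1 G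
  rw [← hid]
  refine (h1.trans h3).trans (mul_le_mul_of_nonneg_right ?_ hn0)
  have h4 : ρ' / rd z (k + 1) ≤ Real.exp ((C₃ + 1) * z) := by
    rw [hρ', hrr, add_mul, one_mul, Real.exp_add, div_le_iff₀ hrk1]
    have := two_pow_le z
    have h5 : Real.exp (C₃ * z) * (rd z (k + 1) * 2 ^ z) =
        (Real.exp (C₃ * z) * 2 ^ z) * rd z (k + 1) := by ring
    rw [h5]
    exact mul_le_mul_of_nonneg_right (mul_le_mul_of_nonneg_left this (Real.exp_pos _).le) hrk1.le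
  have h5 : 0 ≤ ρ' / rd z (k + 1) := by positivity
  refine (pow_le_pow_left₀ h5 h4 r).trans ?_
  rw [← Real.exp_nat_mul]
  refine Real.exp_le_exp.mpr ?_
  nlinarith

theorem lad_mono_N {z : ℕ} {σ : ℕ → ℝ} {C₂ : ℝ} {N N' n : ℕ} {Φ : ℕ → ℕ → PN}
    (h : Lad d z σ C₂ N n Φ) (hN : N' ≤ N) : Lad d z σ C₂ N' n Φ :=
  fun k hk i hi => h k (lt_of_lt_of_le hk hN) i hi

theorem lad_mono_C {z : ℕ} {σ : ℕ → ℝ} {C₂ C₂' : ℝ} {N n : ℕ} {Φ : ℕ → ℕ → PN}
    (h : Lad d z σ C₂ N n Φ) (hC : C₂ ≤ C₂') : Lad d z σ C₂' N n Φ := by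
  intro k hk i hi
  refine (h k hk i hi).trans (mul_le_mul_of_nonneg_right ?_ ?_)
  · exact Real.exp_le_exp.mpr (mul_le_mul_of_nonneg_right hC (Nat.cast_nonneg _))
  · exact Real.rpow_nonneg (rd_pos z k).le _

theorem lbase_mono_N {K n N N' : ℕ} {Φ : ℕ → ℕ → PN} (h : LBase K n N Φ) (hN : N' ≤ N) :
    LBase K n N' Φ :=
  ⟨fun k hk => h.deg k (hk.trans hN), fun k hk => h.tri k (hk.trans hN), h.zero, h.base⟩

/-- One more coordinate. -/
theorem step (hA : AdxStmt) (hN : NrmStmt) (hL : LadStmt) (hG : DgbStmt) (hX : BxnStmt)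
    (n K : ℕ) (d : ℕ → ℕ) (σ : ℕ → ℝ) (C₁ C₁' C₂ : ℝ) (hs : Slp d σ n) (hC₁ : 1 ≤ C₁)
    (hC : 1 ≤ C₂) : ∃ C₂' : ℝ, 1 ≤ C₂' ∧ ∀ M : ℕ, ∃ z₀ : ℕ,
    ∀ (z : ℕ) (Φ : ℕ → ℕ → PN) (g : ℕ → ℕ → ℕ) (i : ℕ), z₀ ≤ z → i ≤ n →
      LBase K i (M + 1) Φ → (∀ k ≤ M + 1, (Φ k i).totalDegree ≤ K) →
      Lad d z σ C₂ (M + 1) i Φ →
      (∀ k ≤ M, ∀ j < i, |(g k j : ℝ) - d j * (k * z)| ≤ C₁ * z) →
      (∀ k < M, ∀ b : ℕ → ℝ, Bx (g (k + 1)) (Φ (k + 1)) i b →
        |eval b (Φ (k + 1) i - Φ k i)| ≤ Real.exp (C₁' * z) * rd z k ^ σ i) →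
      (∀ b : ℕ → ℝ, Bx (g M) (Φ M) i b →
        |eval b (Φ (M + 1) i - Φ M i)| ≤ Real.exp (C₁' * z) * rd z M ^ σ i) →
      Lad d z σ C₂' (M + 1) (i + 1) Φ := by
  obtain ⟨C₃, hC₃, hU⟩ := up hA hN hL hG n K d σ C₂ hs hC
  obtain ⟨C₄, hC₄, hX⟩ := hX n K d σ C₁ C₂ hs hC₁ hC
  choose z₁ hX using hX
  refine ⟨max C₂ (C₃ + C₄ + C₁'), hC.trans (le_max_left _ _), fun M => ?_⟩
  obtain ⟨z₂, hU⟩ := hU (M + 1)
  refine ⟨max z₂ ((range (M + 2)).sup z₁), fun z Φ g i hz hi hB hdeg hLad hg h1 h2 => ?_⟩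
  have hz2 : z₂ ≤ z := (le_max_left _ _).trans hz
  have hz1 : ∀ N ≤ M + 1, z₁ N ≤ z := fun N hN' =>
    (Finset.le_sup (f := z₁) (mem_range.mpr (by omega))).trans ((le_max_right _ _).trans hz)
  intro k hk j hj
  rcases Nat.lt_succ_iff_lt_or_eq.mp hj with hji | hji
  · exact lad_mono_C hLad (le_max_left _ _) k hk j hji
  subst hji
  have hv : (Φ (k + 1) j - Φ k j).vars ⊆ range j := by
    classical
    refine (vars_sub_subset _).trans (Finset.union_subset ?_ ?_)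
    · exact hB.tri (k + 1) (by omega) j
    · exact hB.tri k (by omega) j
  have hdg : (Φ (k + 1) j - Φ k j).totalDegree ≤ K := by
    refine (totalDegree_sub _ _).trans (max_le ?_ ?_)
    · exact hdeg (k + 1) (by omega)
    · exact hdeg k (by omega)
  have hrk : 0 < rd z k := rd_pos z k
  have hR : 0 ≤ rd z k ^ σ j := Real.rpow_nonneg hrk.le _
  have hz0 : (0 : ℝ) ≤ z := Nat.cast_nonneg z
  rcases Nat.lt_succ_iff_lt_or_eq.mp hk with hkM | hkM
  · -- a label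
    have h3 := (hX (k + 1) z Φ j (g (k + 1)) (hz1 _ (by omega)) hi
      (lbase_mono_N hB (by omega)) (lad_mono_N hLad (by omega)) (fun l hl => by
        have := hg (k + 1) (by omega) l hl
        exact_mod_cast this) (Φ (k + 1) j - Φ k j) _ (by positivity) hv hdg).1
      (h1 k hkM)
    have h4 := hU z Φ j hz2 hi hB hLad k hk (Φ (k + 1) j - Φ k j) hv hdg
    have h5 : nrm d (rd z k) (bind₁ (adp d (Φ k)) (Φ (k + 1) j - Φ k j)) ≤
        Real.exp (C₃ * z) * (Real.exp (C₄ * z) * (Real.exp (C₁' * z) * rd z k ^ σ j)) :=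
      h4.trans (mul_le_mul_of_nonneg_left h3 (Real.exp_pos _).le)
    refine h5.trans ?_
    rw [← mul_assoc, ← mul_assoc, ← Real.exp_add, ← Real.exp_add]
    refine mul_le_mul_of_nonneg_right (Real.exp_le_exp.mpr ?_) hR
    have := le_max_right C₂ (C₃ + C₄ + C₁')
    nlinarith
  · subst hkM
    have h3 := (hX k z Φ j (g k) (hz1 _ (by omega)) hi
      (lbase_mono_N hB (by omega)) (lad_mono_N hLad (by omega)) (hg k le_rfl)
      (Φ (k + 1) j - Φ k j) _ (by positivity) hv hdg).1 h2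
    refine h3.trans ?_
    rw [← mul_assoc, ← Real.exp_add]
    refine mul_le_mul_of_nonneg_right (Real.exp_le_exp.mpr ?_) hR
    have := le_max_right C₂ (C₃ + C₄ + C₁')
    nlinarith

/-- All the coordinates. -/
theorem ladder (hA : AdxStmt) (hN : NrmStmt) (hL : LadStmt) (hG : DgbStmt) (hX : BxnStmt)
    (n K : ℕ) (d : ℕ → ℕ) (σ : ℕ → ℝ) (C₁ C₁' : ℝ) (hs : Slp d σ n) (hC₁ : 1 ≤ C₁) (i : ℕ)
    (hi : i ≤ n + 1) : ∃ C₂ : ℝ, 1 ≤ C₂ ∧ ∀ M : ℕ, ∃ z₀ : ℕ,
    ∀ (z : ℕ) (Φ : ℕ → ℕ → PN) (g : ℕ → ℕ → ℕ), z₀ ≤ z → LBase K (n + 1) (M + 1) Φ →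
      (∀ k ≤ M, ∀ j < n, |(g k j : ℝ) - d j * (k * z)| ≤ C₁ * z) →
      (∀ i ≤ n, ∀ k < M, ∀ b : ℕ → ℝ, Bx (g (k + 1)) (Φ (k + 1)) i b →
        |eval b (Φ (k + 1) i - Φ k i)| ≤ Real.exp (C₁' * z) * rd z k ^ σ i) →
      (∀ i ≤ n, ∀ b : ℕ → ℝ, Bx (g M) (Φ M) i b →
        |eval b (Φ (M + 1) i - Φ M i)| ≤ Real.exp (C₁' * z) * rd z M ^ σ i) →
      Lad d z σ C₂ (M + 1) i Φ := by
  induction i with
  | zero => exact ⟨1, le_rfl, fun M => ⟨0, fun z Φ g _ _ _ _ _ k _ j hj =>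
      absurd hj (Nat.not_lt_zero _)⟩⟩
  | succ i ih =>
    obtain ⟨C₂, hC₂, hD⟩ := ih (by omega)
    obtain ⟨C₂', hC₂', hS⟩ := step hA hN hL hG hX n K d σ C₁ C₁' C₂ hs hC₁ hC₂
    refine ⟨C₂', hC₂', fun M => ?_⟩
    obtain ⟨z₁, hD⟩ := hD M
    obtain ⟨z₂, hS⟩ := hS M
    refine ⟨max z₁ z₂, fun z Φ g hz hB hg h1 h2 => ?_⟩
    have hB' : LBase K i (M + 1) Φ :=
      ⟨fun k hk j hj => hB.deg k hk j (by omega), hB.tri,
        fun j h1 h2 => hB.zero j h1 (by omega), hB.base⟩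
    exact hS z Φ g i ((le_max_right _ _).trans hz) (by omega) hB'
      (fun k hk => hB.deg k hk i (by omega))
      (hD z Φ g ((le_max_left _ _).trans hz) hB hg h1 h2)
      (fun k hk j hj => hg k hk j (by omega)) (h1 i (by omega)) (h2 i (by omega))

/-! ### Probabilities -/

theorem Pb_mono {W : Type} [Fintype W] {q : W → ℝ} (hq : ∀ w, 0 ≤ q w) {A B : W → Prop}
    (h : ∀ w, 0 < q w → A w → B w) : Pb q A ≤ Pb q B := by
  classical
  unfold Pb
  refine Finset.sum_le_sum fun w _ => ?_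
  rcases (hq w).lt_or_eq with hw | hw
  · by_cases hA : A w
    · rw [if_pos hA, if_pos (h w hw hA)]
    · rw [if_neg hA]
      split_ifs
      · exact hq w
      · exact le_rfl
  · rw [← hw]
    split_ifs <;> exact le_rfl

theorem Pb_exists_le {W ι : Type} [Fintype W] {q : W → ℝ} (hq : ∀ w, 0 ≤ q w) (s : Finset ι)
    (A : ι → W → Prop) {δ : ℝ} (h : ∀ a ∈ s, Pb q (A a) ≤ δ) :
    Pb q (fun w => ∃ a ∈ s, A a w) ≤ s.card * δ := by
  classical
  have h1 : Pb q (fun w => ∃ a ∈ s, A a w) ≤ ∑ a ∈ s, Pb q (A a) := by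
    unfold Pb
    rw [Finset.sum_comm]
    refine Finset.sum_le_sum fun w _ => ?_
    have h0 : ∀ a ∈ s, (0 : ℝ) ≤ if A a w then q w else 0 := fun a _ => by
      split_ifs
      · exact hq w
      · exact le_rfl
    by_cases hA : ∃ a ∈ s, A a w
    · rw [if_pos hA]
      obtain ⟨a, ha, hAa⟩ := hA
      have h2 := Finset.single_le_sum h0 ha
      rw [if_pos hAa] at h2
      exact h2
    · rw [if_neg hA]
      exact Finset.sum_nonneg h0
  refine h1.trans ?_
  rw [← nsmul_eq_mul]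
  exact Finset.sum_le_card_nsmul s _ _ h

theorem Pb_false {W : Type} [Fintype W] {q : W → ℝ} (hq : ∀ w, 0 ≤ q w) :
    Pb q (fun w => ¬ 0 < q w) = 0 := by
  classical
  unfold Pb
  refine Finset.sum_eq_zero fun w _ => ?_
  split_ifs with h
  · rcases (hq w).lt_or_eq with hw | hw
    · exact absurd hw h
    · exact hw.symm
  · rfl

/-- A natural unit. -/
theorem unit_le {g z k : ℕ} {s C₁ : ℝ} (h : |(g : ℝ) - s * (k * z)| ≤ C₁ * z) (hC : 0 ≤ C₁) :
    1 / (2 : ℝ) ^ g ≤ Real.exp (C₁ * z) * rd z k ^ s := by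
  have h2 : (0 : ℝ) < 2 := by norm_num
  have hl : Real.log 2 ≤ 1 := by
    have := Real.log_two_lt_d9
    linarith
  have hl0 : 0 ≤ Real.log 2 := Real.log_nonneg (by norm_num)
  have h3 : rd z k ^ s = Real.exp (-(s * (k * z)) * Real.log 2) := by
    unfold rd
    rw [one_div, Real.inv_rpow (by positivity), ← Real.rpow_natCast, ← Real.rpow_mul h2.le,
      ← Real.rpow_neg h2.le, Real.rpow_def_of_pos h2]
    congr 1
    push_cast
    ring
  have h4 : 1 / (2 : ℝ) ^ g = Real.exp (-(g : ℝ) * Real.log 2) := by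
    rw [one_div, ← Real.rpow_natCast, ← Real.rpow_neg h2.le, Real.rpow_def_of_pos h2]
    congr 1
    ring
  rw [h3, h4, ← Real.exp_add]
  refine Real.exp_le_exp.mpr ?_
  have h5 := (abs_le.mp h).1
  have h6 : (s * (k * z) - g) * Real.log 2 ≤ C₁ * z * Real.log 2 :=
    mul_le_mul_of_nonneg_right (by linarith) hl0
  have h7 : C₁ * z * Real.log 2 ≤ C₁ * z * 1 :=
    mul_le_mul_of_nonneg_left hl (mul_nonneg hC (Nat.cast_nonneg _))
  linarith

theorem eq_C_of_tri {Φ : ℕ → PN} (h : TriN Φ) : ∃ t : ℝ, Φ 0 = C t := by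
  refine ⟨(Φ 0).coeff 0, vars_eq_empty_iff_eq_C.mp ?_⟩
  have := h 0
  rw [range_zero] at this
  exact Finset.subset_empty.mp this

/-! ### The theorem -/

section

variable {D : NDat} {n K J z M : ℕ} {σ : ℕ → ℝ} {κ C₁ : ℝ} {q : D.Ω → ℝ}

theorem deg_Φs (h : D.Ok n K J z M σ κ C₁ q) (ω : D.Ω) (k i : ℕ) :
    (D.Φs M ω k i).totalDegree ≤ K := by
  unfold NDat.Φs
  split_ifs
  · exact h.P_deg _ _ _
  · unfold NDat.Rt atT
    by_cases hi : i = 0
    · subst hi
      rw [Function.update_self, totalDegree_C]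
      exact Nat.zero_le _
    · rw [Function.update_of_ne hi]
      exact h.R_deg _ _

theorem tri_Φs (h : D.Ok n K J z M σ κ C₁ q) (ω : D.Ω) (k : ℕ) : TriN (D.Φs M ω k) := by
  intro i
  unfold NDat.Φs
  split_ifs
  · exact h.P_tri _ _ _
  · unfold NDat.Rt atT
    by_cases hi : i = 0
    · subst hi
      rw [Function.update_self, vars_C]
      exact Finset.empty_subset _
    · rw [Function.update_of_ne hi]
      exact h.R_tri _ _

theorem eval_sub_label (k : ℕ) (ω : D.Ω) (i : ℕ) :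
    eval (D.X ω) (D.P (k + 1) (D.c (k + 1) ω) i - D.P k (D.c k ω) i) =
      D.rh k ω i - D.rh (k + 1) ω i := by
  unfold NDat.rh
  rw [map_sub]
  ring

theorem base_Φs (h : D.Ok n K J z M σ κ C₁ q) (ω : D.Ω) (hω : 0 < q ω) :
    ∃ t : ℝ, |t| ≤ 2 ∧ D.Φs M ω 0 0 = C t := by
  obtain ⟨t, ht⟩ := eq_C_of_tri (tri_Φs h ω 0)
  refine ⟨t, ?_, ht⟩
  have h0 : D.Φs M ω 0 0 = D.P 0 (D.c 0 ω) 0 := by
    unfold NDat.Φs
    rw [if_pos (Nat.zero_le _)]
  have h1 := h.hgt 0 (Nat.zero_le _) ω hω 0 (Nat.zero_le _)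
  unfold NDat.rh at h1
  rw [← h0, ht, eval_C, h.X_zero] at h1
  have h2 : 1 / (2 : ℝ) ^ D.g 0 0 ≤ 1 := by
    rw [div_le_one (by positivity)]
    exact one_le_pow₀ (by norm_num)
  have h3 : 0 ≤ (D.T ω : ℝ) / 2 ^ J := by positivity
  have h4 : (D.T ω : ℝ) / 2 ^ J ≤ 1 := by
    rw [div_le_one (by positivity)]
    exact_mod_cast (h.T_lt ω).le
  have h5 := abs_le.mp (h1.trans h2)
  exact abs_le.mpr ⟨by linarith [h5.1], by linarith [h5.2]⟩

theorem lbase_Φs (h : D.Ok n K J z M σ κ C₁ q) (ω : D.Ω) (hω : 0 < q ω) :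
    LBase K (n + 1) (M + 1) (D.Φs M ω) :=
  ⟨fun k _ i _ => deg_Φs h ω k i, fun k _ => tri_Φs h ω k, fun i hi _ => by
    unfold NDat.Φs
    rw [if_pos (Nat.zero_le _)]
    exact h.P_zero _ i hi, base_Φs h ω hω⟩

end

/-- Row 111 JBW. -/
theorem jbw_of (hA : AdxStmt) (hN : NrmStmt) (hL : LadStmt) (hG : DgbStmt) (hX : BxnStmt)
    (hC : CmrwStmt) : JbwStmt := by
  intro n K d σ C₁ hn hs hC₁
  obtain ⟨C₂, hC₂, hD⟩ := ladder hA hN hL hG hX n K d σ C₁ (2 * C₁ + 3) hs hC₁ (n + 1) le_rfl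
  refine ⟨C₂, hC₂, fun M η hη => ?_⟩
  obtain ⟨z₁, hD⟩ := hD M
  set cnt : ℝ := ((range M ×ˢ range (n + 1)).card : ℝ) + 1 with hcnt
  have hcnt1 : 0 < cnt := by positivity
  set η' : ℝ := min 1 (η / cnt) with hη'
  have hη'0 : 0 < η' := lt_min one_pos (by positivity)
  obtain ⟨κ₀, hκ₀, z₂, hC⟩ := hC n K K η' hn hη'0 (min_le_left _ _)
  refine ⟨κ₀, hκ₀, max (max z₁ z₂) 1, fun J z κ D q hz hκ hOk => ?_⟩
  have hz1 : z₁ ≤ z := (le_max_left _ _).trans ((le_max_left _ _).trans hz)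
  have hz2 : z₂ ≤ z := (le_max_right _ _).trans ((le_max_left _ _).trans hz)
  have hz3 : 1 ≤ z := (le_max_right _ _).trans hz
  have hzr : (1 : ℝ) ≤ z := by exact_mod_cast hz3
  have hq := hOk.isLaw.nonneg
  have hσ0 : ∀ i, 0 ≤ σ i := fun i => le_trans zero_le_one (hOk.σ_ge i)
  classical
  -- the label of level `k` as a function of the label of level `k + 1`
  have hf : ∀ k, ∃ f : D.Γ → D.Γ, k < M → ∀ ω, 0 < q ω → D.c k ω = f (D.c (k + 1) ω) := by
    intro k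
    refine ⟨fun x => if hx : ∃ ω, 0 < q ω ∧ D.c (k + 1) ω = x then D.c k hx.choose else x, ?_⟩
    intro hk ω hω
    have hx : ∃ ω', 0 < q ω' ∧ D.c (k + 1) ω' = D.c (k + 1) ω := ⟨ω, hω, rfl⟩
    dsimp only
    rw [dif_pos hx]
    exact hOk.c_c k hk ω _ hω hx.choose_spec.1 hx.choose_spec.2.symm
  choose f hf using hf
  set φ : ℕ × ℕ → D.Γ → PN := fun a x => D.P (a.1 + 1) x a.2 - D.P a.1 (f a.1 x) a.2 with hφ
  set S : ℕ × ℕ → ℝ := fun a => 2 * (Real.exp (C₁ * z) * rd z a.1 ^ σ a.2) with hS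
  set A : ℕ × ℕ → D.Ω → Prop := fun a ω => ¬ ∀ b : ℕ → ℝ,
    Bx (D.g (a.1 + 1)) (D.P (a.1 + 1) (D.c (a.1 + 1) ω)) n b →
      |eval b (φ a (D.c (a.1 + 1) ω))| ≤ Real.exp z * S a with hAd
  have hunit : ∀ k ≤ M, ∀ i ≤ n, 1 / (2 : ℝ) ^ D.g k i ≤ Real.exp (C₁ * z) * rd z k ^ σ i :=
    fun k hk i hi => unit_le (hOk.hom k hk i hi) (by linarith)
  have hbad : ∀ a ∈ range M ×ˢ range (n + 1), Pb q (A a) ≤ η' := by
    intro a ha
    have ha1 : a.1 < M := mem_range.mp (Finset.mem_product.mp ha).1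
    have ha2 : a.2 < n + 1 := mem_range.mp (Finset.mem_product.mp ha).2
    refine hC J z M σ κ C₁ D q hz2 hκ hOk (a.1 + 1) (by omega) (φ a) (fun ω => 0 < q ω)
      (fun _ => S a) (fun x => ?_) (fun x => ?_) (fun x => ?_) ?_ (fun ω hω => ?_)
    · exact (totalDegree_sub _ _).trans (max_le (hOk.P_deg _ _ _) (hOk.P_deg _ _ _))
    · refine (vars_sub_subset _).trans (Finset.union_subset ?_ ?_)
      · exact (hOk.P_tri _ _ _).trans (range_subset_range.mpr (by omega))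
      · exact (hOk.P_tri _ _ _).trans (range_subset_range.mpr (by omega))
    · have := Real.rpow_pos_of_pos (rd_pos z a.1) (σ a.2)
      positivity
    · rw [Pb_false hq]
      positivity
    · have h1 : φ a (D.c (a.1 + 1) ω) =
          D.P (a.1 + 1) (D.c (a.1 + 1) ω) a.2 - D.P a.1 (D.c a.1 ω) a.2 := by
        simp only [hφ]
        rw [hf a.1 ha1 ω hω]
      rw [h1, eval_sub_label]
      have h2 := hOk.hgt a.1 (by omega) ω hω a.2 (by omega)
      have h3 := hOk.hgt (a.1 + 1) (by omega) ω hω a.2 (by omega)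
      have h4 := hunit a.1 (by omega) a.2 (by omega)
      have h5 := hunit (a.1 + 1) (by omega) a.2 (by omega)
      have h6 : rd z (a.1 + 1) ^ σ a.2 ≤ rd z a.1 ^ σ a.2 := by
        refine Real.rpow_le_rpow (rd_pos _ _).le ?_ (hσ0 _)
        rw [rd_succ]
        refine mul_le_of_le_one_right (rd_pos _ _).le ?_
        rw [div_le_one (by positivity)]
        exact one_le_pow₀ (by norm_num)
      have h7 : Real.exp (C₁ * z) * rd z (a.1 + 1) ^ σ a.2 ≤
          Real.exp (C₁ * z) * rd z a.1 ^ σ a.2 :=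
        mul_le_mul_of_nonneg_left h6 (Real.exp_pos _).le
      refine (abs_sub _ _).trans ?_
      change _ ≤ 2 * (Real.exp (C₁ * z) * rd z a.1 ^ σ a.2)
      linarith
  have hsum := Pb_exists_le hq (range M ×ˢ range (n + 1)) A hbad
  refine (Pb_mono hq (B := fun ω => ∃ a ∈ range M ×ˢ range (n + 1), A a ω)
    fun ω hω hJ => ?_).trans (hsum.trans ?_)
  · by_contra hno
    refine hJ (hD z (D.Φs M ω) D.g hz1 (lbase_Φs hOk ω hω) (fun k hk j hj => ?_)
      (fun i hi k hk b hb => ?_) fun i hi b hb => ?_)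
    · have := hOk.hom k hk j hj.le
      rwa [hs.int j hj] at this
    · have hΦ1 : D.Φs M ω (k + 1) = D.P (k + 1) (D.c (k + 1) ω) := by
        unfold NDat.Φs
        rw [if_pos (by omega)]
      have hΦ0 : D.Φs M ω k = D.P k (D.c k ω) := by
        unfold NDat.Φs
        rw [if_pos (by omega)]
      rw [hΦ1] at hb
      rw [hΦ1, hΦ0]
      have hgood : ∀ b : ℕ → ℝ, Bx (D.g (k + 1)) (D.P (k + 1) (D.c (k + 1) ω)) n b →
          |eval b (φ (k, i) (D.c (k + 1) ω))| ≤ Real.exp z * S (k, i) := by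
        by_contra hc
        exact hno ⟨(k, i), Finset.mem_product.mpr ⟨mem_range.mpr hk, mem_range.mpr (by
          change i < n + 1
          omega)⟩, hc⟩
      obtain ⟨b', hb1, hb2⟩ := ext_point _ _ (hOk.P_tri (k + 1) _) i b hb n
      have h1 := hgood b' hb2
      have h2 : φ (k, i) (D.c (k + 1) ω) =
          D.P (k + 1) (D.c (k + 1) ω) i - D.P k (D.c k ω) i := by
        simp only [hφ]
        rw [hf k hk ω hω]
      rw [h2] at h1
      have h3 : eval b (D.P (k + 1) (D.c (k + 1) ω) i - D.P k (D.c k ω) i) =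
          eval b' (D.P (k + 1) (D.c (k + 1) ω) i - D.P k (D.c k ω) i) := by
        refine eval_congr_range (i := i) ?_ fun j hj => (hb1 j hj).symm
        exact (vars_sub_subset _).trans
          (Finset.union_subset (hOk.P_tri _ _ _) (hOk.P_tri _ _ _))
      rw [h3]
      refine h1.trans ?_
      have h4 : 0 ≤ rd z k ^ σ i := Real.rpow_nonneg (rd_pos _ _).le _
      have h5 : Real.exp z * S (k, i) = (Real.exp z * 2 * Real.exp (C₁ * z)) * rd z k ^ σ i := by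
        simp only [hS]
        ring
      rw [h5]
      refine mul_le_mul_of_nonneg_right ?_ h4
      have h6 : (2 : ℝ) ≤ Real.exp z := by
        have := Real.add_one_le_exp (z : ℝ)
        linarith
      calc Real.exp z * 2 * Real.exp (C₁ * z)
          ≤ Real.exp z * Real.exp z * Real.exp (C₁ * z) := by
            refine mul_le_mul_of_nonneg_right ?_ (Real.exp_pos _).le
            exact mul_le_mul_of_nonneg_left h6 (Real.exp_pos _).le
        _ = Real.exp (z + z + C₁ * z) := by rw [← Real.exp_add, ← Real.exp_add]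
        _ ≤ Real.exp ((2 * C₁ + 3) * z) := by
            refine Real.exp_le_exp.mpr ?_
            nlinarith
    · have hΦ1 : D.Φs M ω (M + 1) = D.Rt ω := by
        unfold NDat.Φs
        rw [if_neg (by omega)]
      have hΦ0 : D.Φs M ω M = D.P M (D.c M ω) := by
        unfold NDat.Φs
        rw [if_pos le_rfl]
      rw [hΦ0] at hb
      rw [hΦ1, hΦ0]
      have h4 : 0 ≤ rd z M ^ σ i := Real.rpow_nonneg (rd_pos _ _).le _
      have hu := hunit M le_rfl i hi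
      by_cases hi0 : i = 0
      · subst hi0
        obtain ⟨t, ht⟩ := eq_C_of_tri (hOk.P_tri M (D.c M ω))
        have h5 : D.Rt ω 0 = C (D.X ω 0) := by
          unfold NDat.Rt atT
          rw [Function.update_self]
        have h6 := hOk.hgt M le_rfl ω hω 0 (Nat.zero_le _)
        unfold NDat.rh at h6
        rw [ht, eval_C] at h6
        rw [h5, ht, map_sub, eval_C, eval_C]
        refine (h6.trans hu).trans (mul_le_mul_of_nonneg_right ?_ h4)
        refine Real.exp_le_exp.mpr ?_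
        nlinarith
      · have h5 : D.Rt ω i = D.R (D.ln ω) i := by
          unfold NDat.Rt atT
          rw [Function.update_of_ne hi0]
        rw [h5, map_sub]
        refine (hOk.line ω hω i (by omega) hi b hb).trans ?_
        rw [div_eq_mul_one_div]
        refine (mul_le_mul_of_nonneg_left hu (Real.exp_pos _).le).trans ?_
        rw [← mul_assoc, ← Real.exp_add]
        refine mul_le_mul_of_nonneg_right (Real.exp_le_exp.mpr ?_) h4
        nlinarith
  · have h1 : η' ≤ η / cnt := min_le_right _ _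
    have h2 : ((range M ×ˢ range (n + 1)).card : ℝ) ≤ cnt := by
      rw [hcnt]
      linarith
    calc ((range M ×ˢ range (n + 1)).card : ℝ) * η' ≤ cnt * (η / cnt) :=
          mul_le_mul h2 h1 hη'0.le hcnt1.le
      _ = η := by field_simp

end Pool.STAT.JBW
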