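import Pool.Agent.H82.STAT.Grx

/-!
# `LabR` in a class, chains with a further property

`JatEY`: the joint chains with a further property `Y` of the list. `labR_basY`: as `labR_bas`, the
rows may use `Y`.
-/

set_option autoImplicit false

namespace Pool.STAT.GRD

open Finset MvPolynomial
open Pool.Agent.H49.Ent Pool.Agent.H32.Dense Pool.STK Pool.KS3 Pool.KA Pool.KSAT Pool.PB Pool.GEN
open Pool.STAT.CLO Pool.STAT.CDat Pool.TRC Pool.STAT.DPP Pool.K2S Pool.LEV Pool.S6C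
open Pool.CHT (TmH)

/-- A property of a list of charts. -/
def ChP (m : ℕ) : Type 1 := ∀ (J : ℕ) (F : Fam m J), ℕ → (ℕ → ℝ) → (ℕ → ℝ) →
  (ℕ → PtT F → ℕ → MvPolynomial (Option (Fin m)) ℝ) → Prop

/-- **Charts at the same window differ by constants.** -/
def recY (m : ℕ) : ChP m := fun _ _ N _ w G => ∀ p < N, ∀ p' < N, w p = w p' → ∀ y l, ∃ κ : ℝ,
  G p y l = G p' y l + MvPolynomial.C κ

/-- **The joint chains near the point `x`**, with the property `Y` of the charts. -/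
def JatEY {m : ℕ} (S : PCl m) (c : ℕ → Fin m) (r : ℕ) (β : ℕ → ℝ → ℝ → ℝ) (x : ℝ)
    (Att : Set (ℝ × ℝ)) (ρ E e' ρ' : ℝ) (Y : ChP m) : Prop :=
  ∀ (N : ℕ) (a w : ℕ → ℝ),
    (∀ k < N, (a k, w k) ∈ Att ∧ w k ≤ a k ∧ |a k - x| ≤ ρ ∧ |w k - x| ≤ ρ) →
    ∀ φ : ℝ, 0 < φ → ∃ (K : ℕ) (d δ : ℕ → ℝ) (K₁ : ℝ), 0 < K₁ ∧
    (∀ l ≤ r, 0 < d l ∧ d l ≤ φ ∧ 0 ≤ δ l ∧ δ l ≤ φ) ∧
    Bas S (fun J F A => ∃ (B : F.Ω → Prop)
      (G : ℕ → PtT F → ℕ → MvPolynomial (Option (Fin m)) ℝ)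
      (H : ℕ → LnT F → ℕ → MvPolynomial (Option (Fin m)) ℝ), Sub B A ∧
      Pe F.p A ≤ K₁ * Pe F.p B ∧
      Pool.CHT.MCh F c (r + 1) (fun _ => K) N (fun k k' => a k ≤ a k' ∧ w k ≤ w k')
        (fun k => ⌊a k * J⌋₊) (fun k => ⌊w k * J⌋₊) ⌊E * J⌋₊
        (fun k l => ⌊(β l (a k) (w k) - d l) * J⌋₊) (fun l => ⌊δ l * J⌋₊) B G H ∧
      (∀ k < N, |a k - x| ≤ ρ' → |w k - x| ≤ ρ' →
        ChOK F c r (fun _ => K) ⌊a k * J⌋₊ ⌊w k * J⌋₊ ⌊e' * J⌋₊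
          (fun l => ⌊(β l (a k) (w k) - d l) * J⌋₊) B (G k) (H k)) ∧ Y J F N a w G)

/-- **The labels of a cell in a class**, chains with a further property. The list: the `(Rd + 3) (T + M P)` points of the grid, then
`Nx` points `(ax k, wx k)`. -/
theorem labR_basY (n S Rd : ℕ) (hS : 1 ≤ S) : ∃ (c KH : ℕ) (L₀ : ℝ), 1 ≤ c ∧ 1 ≤ L₀ ∧
    ∀ (c₁ c₂ U : ℕ) (T₀ : ℝ), ∃ Λ : ℕ, 16 * c ^ 2 ≤ Λ ∧
    ∀ {m : ℕ} {Sc : PCl m} {ec : ℕ → Fin m} {L : ℕ → ℝ → ℝ → ℝ} {x ρJ E e' ρ' : ℝ}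
      {Att : Set (ℝ × ℝ)} {Y : ChP m}, TmH Sc → Inj (fun l => ec (l + 1)) (n + 1) →
      JatEY Sc (fun l => ec (l + 1)) n (fun l => L (l + 1)) x Att ρJ E e' ρ' Y →
    ∀ {L' : ℕ → ℝ → ℝ → ℝ} {σ : ℕ → ℝ} {p : ℕ → Prop} [DecidablePred p] {M P T Nx : ℕ}
      {W : ℕ → ℝ} {b ρ o c₀ η e θ V δ φ D ζ X₀ y₀ q ε₀ C₁' r₀ ρr a C₂ : ℝ} {ax wx : ℕ → ℝ},
      CelG L (n + 1) p σ Rd M S P W b ρ o c₀ η e θ V →
      Rls Λ L (n + 1) σ M S P T W b ρ o c₀ η e θ V δ φ D E ζ X₀ y₀ q ε₀ e' → 0 < φ → 1 ≤ C₁' →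
      σ 0 = 1 → (∀ i, 1 ≤ σ i) → (∀ i, L' i b b = L i b b) →
      r₀ ≤ ρJ → r₀ ≤ ρ' → x - r₀ ≤ W 0 - ρ → b + o ≤ x + r₀ →
      (∀ j ≤ Rd + 2, ∀ t < T + M * P, (b + xo T η t, W j + xo T η t) ∈ Att) →
      (∀ k < Nx, (ax k, wx k) ∈ Att ∧ wx k ≤ ax k ∧ |ax k - x| ≤ ρJ ∧ |wx k - x| ≤ ρJ) →
      (∀ (K : ℕ) (dl δl : ℕ → ℝ) (Ka Kc : ℝ), 0 < Ka → 0 < Kc →
        (∀ l ≤ n, 0 < dl l ∧ dl l ≤ φ ∧ 0 ≤ δl l ∧ δl l ≤ φ) → ∃ τ Kb : ℝ, 0 < τ ∧ 0 < Kb ∧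
        Bas Sc (fun J F A₀ => ∀ (A : F.Ω → Prop)
          (G : ℕ → PtT F → ℕ → MvPolynomial (Option (Fin m)) ℝ)
          (H : ℕ → LnT F → ℕ → MvPolynomial (Option (Fin m)) ℝ), (∀ ω, A ω → A₀ ω) →
          Pe F.p A₀ ≤ Ka * Pe F.p A →
          ChL F ec n K ((Rd + 2 + 1) * (T + M * P) + Nx) L
            (bga b η T (T + M * P) ((Rd + 2 + 1) * (T + M * P)) ax)
            (bgw W η T (T + M * P) ((Rd + 2 + 1) * (T + M * P)) wx) E e' ρ' x dl δl A G H →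
          Y J F ((Rd + 2 + 1) * (T + M * P) + Nx)
            (bga b η T (T + M * P) ((Rd + 2 + 1) * (T + M * P)) ax)
            (bgw W η T (T + M * P) ((Rd + 2 + 1) * (T + M * P)) wx) G →
          ∃ B : F.Ω → Prop, (∀ ω, B ω → A ω) ∧ Pe F.p A ≤ Kb * Pe F.p B ∧
            RowsF F A₀ B L σ p ec n KH c M P T U W b ρ η δ ζ y₀ Kc L₀ ρr a C₂ τ dl G)) →
      ∃ K₁ τ : ℝ, 0 < K₁ ∧ 0 < τ ∧ Bas Sc (fun _ F A₀ =>
        Pool.STA.LabR F A₀ L' p ec n KH M U σ b ζ δ C₁' C₂ ρr a L₀ T₀ c₁ c₂ K₁ q ε₀ τ) := by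
  obtain ⟨c, KH, L₀, hc, hL₀, hf⟩ := labR_real n S Rd hS
  refine ⟨c, KH, L₀, hc, hL₀, fun c₁ c₂ U T₀ => ?_⟩
  obtain ⟨Λ, hΛ, hf⟩ := hf c₁ c₂ U T₀
  refine ⟨Λ, hΛ, ?_⟩
  intro m Sc ec L x ρJ E e' ρ' Att Y hTm hinj hJat L' σ p _ M P T Nx W b ρ o c₀ η e θ V δ φ D ζ X₀
    y₀ q ε₀ C₁' r₀ ρr a C₂ ax wx CE R hφ hC₁ hσ0 hσ hLL hr1 hr2 hx1 hx2 hAtt hext hrow
  obtain ⟨T₁, hT₁⟩ : ∃ T₁, T₁ = T + M * P := ⟨_, rfl⟩
  obtain ⟨N, hN⟩ : ∃ N, N = (Rd + 2 + 1) * T₁ := ⟨_, rfl⟩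
  have hTp := R.T_pos
  have hT1 : 0 < T₁ := by omega
  have hη := R.η_pos
  have hbig := fun {k : ℕ} (hk : k < N) =>
    (⟨if_pos hk, if_pos hk⟩ : bga b η T T₁ N ax k = gra b η T T₁ k ∧
      bgw W η T T₁ N wx k = grw W η T T₁ k)
  -- the points of the grid
  have hpt : ∀ q' ≤ Rd + 2, ∀ t < T₁, (b + xo T η t, W q' + xo T η t) ∈ Att ∧
      W q' + xo T η t ≤ b + xo T η t ∧ |b + xo T η t - x| ≤ r₀ ∧ |W q' + xo T η t - x| ≤ r₀ := by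
    intro q' hq t ht
    have h1 : -ρ ≤ xo T η t := by
      rw [← R.ρ_eq, ← xo_zero]
      exact xo_mono hη.le (Nat.zero_le t)
    have h2 : xo T η t ≤ o := by
      have h3 : ((t : ℝ) - T) * η ≤ M * P * η := by
        refine mul_le_mul_of_nonneg_right ?_ hη.le
        have : (t : ℝ) ≤ T + M * P := by
          have := ht.le
          rw [hT₁] at this
          exact_mod_cast this
        linarith
      have h4 := R.o_ge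
      rw [R.ζ_eq] at h4
      unfold xo
      linarith
    have h5 := CE.lns.W_le (Nat.zero_le q') hq
    have h6 := CE.lns.Wb hq
    have h7 := CE.lns.Wb (Nat.zero_le (Rd + 2))
    refine ⟨hAtt q' hq t (hT₁ ▸ ht), by linarith, ?_, ?_⟩ <;> rw [abs_le] <;>
      constructor <;> linarith
  have hgr : ∀ k < N, (gra b η T T₁ k, grw W η T T₁ k) ∈ Att ∧ grw W η T T₁ k ≤ gra b η T T₁ k ∧
      |gra b η T T₁ k - x| ≤ r₀ ∧ |grw W η T T₁ k - x| ≤ r₀ := by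
    intro k hk
    have h1 : k / T₁ ≤ Rd + 2 := by
      rw [hN] at hk
      have := (Nat.div_lt_iff_lt_mul hT1).2 hk
      omega
    exact hpt _ h1 _ (Nat.mod_lt _ hT1)
  obtain ⟨K, dl, δl, Ka, hKa, hdl, hch⟩ := hJat (N + Nx) (bga b η T T₁ N ax) (bgw W η T T₁ N wx)
    (fun k hk => by
      rcases Nat.lt_or_ge k N with h | h
      · obtain ⟨e1, e2⟩ := hbig h
        obtain ⟨g1, g2, g3, g4⟩ := hgr k h
        rw [e1, e2]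
        exact ⟨g1, g2, g3.trans hr1, g4.trans hr1⟩
      · have e1 : bga b η T T₁ N ax k = ax (k - N) := if_neg (by omega)
        have e2 : bgw W η T T₁ N wx k = wx (k - N) := if_neg (by omega)
        rw [e1, e2]
        exact hext (k - N) (by omega)) φ hφ
  obtain ⟨Kc, eT, J₀, hKc, heT, hf⟩ := hf K CE R hC₁ hσ0 hσ hLL
  obtain ⟨τ, Kb, hτ, hKb, hrow⟩ := hrow K dl δl Ka Kc hKa hKc hdl
  have hKab : 0 < Ka * Kb := mul_pos hKa hKb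
  refine ⟨Ka * Kb * Kc, τ, mul_pos hKab hKc, hτ, ?_⟩
  have hpos : Bas Sc (fun _ F A => 0 < Pe F.p A) := ⟨1, one_pos, 0, fun J _ F A hA =>
    hTm.1 1 J F A hA⟩
  refine Bas.mono J₀ (((hch.and (NL.Bas.frac (hTm.2 eT heT) (c := 1 / (Ka * Kb))
    (by positivity))).and hrow).and hpos) ?_
  rintro J hJ F A₀ ⟨⟨⟨⟨A', G, H, hAA₀', hPA', hM', hok', hY⟩, htm⟩, hrw⟩, hA₀⟩
  subst hT₁
  subst hN
  have hch' : ChL F ec n K ((Rd + 2 + 1) * (T + M * P) + Nx) L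
      (bga b η T (T + M * P) ((Rd + 2 + 1) * (T + M * P)) ax)
      (bgw W η T (T + M * P) ((Rd + 2 + 1) * (T + M * P)) wx) E e' ρ' x dl δl A' G H :=
    ⟨hM', hok'⟩
  obtain ⟨A, hAA', hPAA, hrF⟩ := hrw A' G H hAA₀' hPA' hch' hY
  have hAA₀ : ∀ ω, A ω → A₀ ω := fun ω h => hAA₀' ω (hAA' ω h)
  have hPA : Pe F.p A₀ ≤ Ka * Kb * Pe F.p A := by
    calc Pe F.p A₀ ≤ Ka * Pe F.p A' := hPA'
      _ ≤ Ka * (Kb * Pe F.p A) := mul_le_mul_of_nonneg_left hPAA hKa.le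
      _ = Ka * Kb * Pe F.p A := by ring
  have hA : 0 < Pe F.p A := by
    rcases (Pe_nonneg F.isLaw A).lt_or_eq with h | h
    · exact h
    · rw [← h, mul_zero] at hPA
      linarith
  have hPAi : 1 / (Ka * Kb) * Pe F.p A₀ ≤ Pe F.p A := by
    rw [one_div, inv_mul_le_iff₀ hKab]
    exact hPA
  have hM := hM'.sub hAA'
  refine hf J hJ hA hAA₀ hPA hKab.le (G := G) (H := H) (dl := dl) (δm := fun l => ⌊δl l * J⌋₊)
    ?_ hinj (fun k hk => ?_) (fun l hl => ?_) (fun l hl => ?_) (htm A hAA₀ hPAi hA) ?_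
  · -- the chains of the grid
    have hlt : ∀ {k : ℕ}, k < (Rd + 2 + 1) * (T + M * P) →
        k < (Rd + 2 + 1) * (T + M * P) + Nx := fun h => by omega
    refine ⟨fun k hk => ?_, fun k' hk' k hk hR l hl ω hω y hy => ?_,
      fun k' hk' k hk hR l hl ω hω y hy => ?_, fun k hk l hl ω hω y hy => ?_⟩
    · have h1 := hM.ok k (hlt hk)
      obtain ⟨e1, e2⟩ := hbig hk
      simp only [e1, e2] at h1
      exact h1
    · have h1 := hM.uni k' (hlt hk') k (hlt hk)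
      obtain ⟨e1, e2⟩ := hbig hk
      obtain ⟨e3, e4⟩ := hbig hk'
      simp only [e1, e2, e3, e4] at h1
      exact h1 hR l hl ω hω y hy
    · have h1 := hM.two k' (hlt hk') k (hlt hk)
      obtain ⟨e1, e2⟩ := hbig hk
      obtain ⟨e3, e4⟩ := hbig hk'
      simp only [e1, e2, e3, e4] at h1
      exact h1 hR l hl ω hω y hy
    · have h1 := hM.siz k (hlt hk)
      obtain ⟨e1, e2⟩ := hbig hk
      simp only [e1, e2] at h1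
      exact h1 l hl ω hω y hy
  · have hTT : T + M * P ≤ (Rd + 2 + 1) * (T + M * P) := Nat.le_mul_of_pos_left _ (by omega)
    have hk' : k < (Rd + 2 + 1) * (T + M * P) := by omega
    obtain ⟨e1, e2⟩ := hbig hk'
    obtain ⟨g1, g2, g3, g4⟩ := hgr k hk'
    have h1 := hok' k (by omega)
    simp only [e1, e2] at h1
    exact (h1 (g3.trans hr2) (g4.trans hr2)).sub hAA'
  · obtain ⟨d1, d2, -⟩ := hdl l (by omega)
    exact ⟨d1.le, d2⟩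
  · obtain ⟨-, -, d3, d4⟩ := hdl l (by omega)
    exact Nat.floor_le_floor (mul_le_mul_of_nonneg_right d4 (Nat.cast_nonneg J))
  · exact hrF

end Pool.STAT.GRD
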