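import Pool.Agent.H77.STAT.StaI
import Pool.Agent.H82.STAT.Grxy

/-!
# The labels of the affine cells, charts which differ by constants

`RowsJ`: as `Pool.STA.RowsI`; the rows may use that the charts of the list at the same window differ
by constants, and the real conditions of the grid. `labJ_of`: the labels `LabI` of the affine cells,
from the joint chains `JatEY .. (recY m)` near `g` and the rows.
-/

set_option autoImplicit false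

namespace Pool.STAT

open Finset Pool.LEV Pool.STAT.GRD Pool.STAT.DPP

/-- The steps of the levels. -/
def om (N M : ℕ) : ℚ := 1 / (64 * (N * (M + 4)))

theorem om_pos {N : ℕ} (hN : 1 ≤ N) (M : ℕ) : (0 : ℝ) < om N M := by
  unfold om
  have : (0 : ℝ) < N := by exact_mod_cast hN
  push_cast
  positivity

/-- The steps are small. -/
theorem om_small (M N₁ : ℕ) {x : ℝ} (hx : 0 < x) : ∃ N : ℕ, 1 ≤ N ∧ N₁ ≤ N ∧ (om N M : ℝ) ≤ x := by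
  obtain ⟨k, hk⟩ := exists_nat_ge (1 / x)
  refine ⟨max (max k N₁) 1, le_max_right _ _, (le_max_right _ _).trans (le_max_left _ _), ?_⟩
  obtain ⟨N, hN⟩ : ∃ N, N = max (max k N₁) 1 := ⟨_, rfl⟩
  rw [← hN]
  have h1 : (k : ℝ) ≤ N := by
    rw [hN]
    exact_mod_cast (le_max_left _ _).trans (le_max_left _ _)
  have h2 : (1 : ℝ) ≤ N := by rw [hN]; exact_mod_cast le_max_right _ _
  have h3 : (0 : ℝ) ≤ M := Nat.cast_nonneg M
  rw [div_le_iff₀ hx] at hk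
  unfold om
  push_cast
  rw [div_le_iff₀ (by positivity)]
  have h4 : k * x ≤ N * x := mul_le_mul_of_nonneg_right h1 hx.le
  have h5 : 0 ≤ N * x := by positivity
  have h6 : x * (64 * (N * (M + 4))) = 256 * (N * x) + 64 * ((N * x) * M) := by ring
  have h7 : 0 ≤ (N * x) * M := mul_nonneg h5 h3
  linarith

/-- The numbers of the grid, for all small steps. -/
theorem rl_all (Λ s S M : ℕ) {gp : ℝ} (hgp : 0 < gp) :
    ∃ ω₁ : ℝ, 0 < ω₁ ∧ ∀ ω : ℚ, (0 : ℝ) < ω → (ω : ℝ) ≤ ω₁ → (M + 2) * (ω : ℝ) ≤ 1 / 8 ∧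
    ∀ κ₁ : ℝ, 0 < κ₁ → ∃ (κ ε φ : ℝ) (P₁ : ℕ), κ ≤ κ₁ ∧ φ ≤ κ ∧ ∀ P : ℕ, P₁ ≤ P → 1 ≤ P →
      Rl Λ s S M gp ω κ (ω / P) ε φ := by
  have hΛ : (0 : ℝ) ≤ Λ := Nat.cast_nonneg _
  have hs : (0 : ℝ) ≤ s := Nat.cast_nonneg _
  have hS : (0 : ℝ) ≤ S := Nat.cast_nonneg _
  have hM : (0 : ℝ) ≤ M := Nat.cast_nonneg _
  refine ⟨min (1 / (8 * ((M : ℝ) + 2))) (gp / (4 * (Λ * (s * (M + 1)) + 1) + 1)),
    lt_min (by positivity) (by positivity), fun ω hω0 hω => ?_⟩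
  have hω1 : (M + 2) * (ω : ℝ) ≤ 1 / 8 := by
    have := hω.trans (min_le_left _ _)
    rw [le_div_iff₀ (by positivity)] at this
    linarith
  have hω2 : 4 * (Λ * (s * ((M + 1) * (ω : ℝ)))) + 4 * ω < gp := by
    have := hω.trans (min_le_right _ _)
    rw [le_div_iff₀ (by positivity)] at this
    linarith
  refine ⟨hω1, fun κ₁ hκ₁ => ?_⟩
  obtain ⟨κ, hκ⟩ : ∃ κ : ℝ, κ = min κ₁ (ω / (2 * (Λ + 1))) := ⟨_, rfl⟩
  have hκ0 : 0 < κ := by rw [hκ]; exact lt_min hκ₁ (by positivity)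
  have hκω : 2 * (Λ * κ) + 2 * κ ≤ ω := by
    have : κ ≤ ω / (2 * (Λ + 1)) := by rw [hκ]; exact min_le_right _ _
    rw [le_div_iff₀ (by positivity)] at this
    linarith
  have hΛκ : 0 ≤ Λ * κ := by positivity
  obtain ⟨ε, hε⟩ : ∃ ε : ℝ, ε = κ / (16 * (Λ + 1)) := ⟨_, rfl⟩
  have hε0 : 0 < ε := by rw [hε]; positivity
  have hεκ : 16 * (Λ * ε) + 16 * ε = κ := by
    rw [hε]
    field_simp
  have hΛε : 0 ≤ Λ * ε := by positivity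
  obtain ⟨P₁, hP₁⟩ := exists_nat_gt (ω * (8 * (Λ + 1) * (s + S + 2)) / κ : ℝ)
  refine ⟨κ, ε, ε, P₁, by rw [hκ]; exact min_le_left _ _, by linarith, fun P hPP hP1 => ?_⟩
  have hP : (ω * (8 * (Λ + 1) * (s + S + 2)) / κ : ℝ) < P :=
    hP₁.trans_le (by exact_mod_cast hPP)
  have hP0 : (0 : ℝ) < P := by exact_mod_cast (by omega : 0 < P)
  rw [div_lt_iff₀ hκ0] at hP
  obtain ⟨η, hη⟩ : ∃ η : ℝ, η = ω / P := ⟨_, rfl⟩
  have hη0 : 0 < η := by rw [hη]; positivity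
  have hηω : η ≤ ω := by
    rw [hη]
    exact div_le_self hω0.le (by exact_mod_cast hP1)
  have hηκ : η * (8 * (Λ + 1) * (s + S + 2)) < κ := by
    rw [hη, div_mul_eq_mul_div, div_lt_iff₀ hP0]
    linarith
  rw [← hη]
  have hx : 8 * (Λ * (s * η + (S + 2) * η)) ≤ η * (8 * (Λ + 1) * (s + S + 2)) := by
    have e1 : η * (8 * (Λ + 1) * (s + S + 2)) =
      8 * (Λ * (s * η + (S + 2) * η)) + 8 * (η * (s + S + 2)) := by ring
    have e2 : 0 ≤ η * ((s : ℝ) + S + 2) := by positivity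
    linarith
  refine
    { ω_pos := hω0
      κ_pos := hκ0
      η_pos := hη0
      ε_pos := hε0
      φ_pos := hε0
      ωM := hω1
      ηω := hηω
      small := ?_
      κω := by linarith
      κω' := by linarith
      gn := ?_ }
  · have e1 : Λ * (2 * ε + s * η + (S + 2) * η + ε) = 3 * (Λ * ε) +
      Λ * (s * η + (S + 2) * η) := by ring
    linarith
  · have e1 : Λ * (s * ((M + 1) * ω) + 2 * ε) = Λ * (s * ((M + 1) * (ω : ℝ))) +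
      2 * (Λ * ε) := by ring
    linarith

end Pool.STAT

namespace Pool.STA

open Finset MvPolynomial
open Pool.Agent.H49.Ent Pool.Agent.H32.Dense Pool.STK Pool.KS3 Pool.KA Pool.KSAT Pool.K2S Pool.PB
open Pool.GEN Pool.S6C Pool.STAT Pool.LEV
open Pool.STAT.DPP (Stc)
open Pool.STAT.GRD
open Pool.CHT (TmH)
open Pool.STAT.CLO (Inj)

/-- **The rows of the target over the fat labels**, in all small affine cells near `g`. The grid of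
the cell: the lines `lnW (Rd + 2) b (lx Rd * r)`, the depth `T η ≈ ρ₀`, the mesh `η = ω r / P`, the
step `ω r`, the loss `κ r`; further points `(ax k, wx k)` may be added to the grid. The grid has the
real conditions `CelG` and `Rls`; the charts at the same window differ by constants. -/
def RowsJ {m : ℕ} (S : PCl m) (e : ℕ → Fin m) (n : ℕ) (Lc : ℕ → ℝ → ℝ → ℝ) (p : ℕ → Prop)
    [DecidablePred p] (σ : ℕ → ℝ) (g : ℝ) (W : Set ℝ) (Att : Set (ℝ × ℝ)) (ρJ E e' ρ' : ℝ) :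
    Prop :=
  ∀ (s Rd c KH Sn : ℕ) (ρ₀ L₀ : ℝ), (∀ i ≤ n + 1, σ i ≤ s) → n ≤ Rd + 1 → 1 ≤ c → 1 ≤ Sn →
    1 ≤ L₀ → 0 < ρ₀ →
    ∃ ρr a C₂ : ℝ, 0 < ρr ∧ ρr ≤ 1 ∧ 0 < a ∧ a ≤ 1 ∧ 0 ≤ C₂ ∧
    ∀ M U : ℕ, 1 ≤ U → ∃ N₁ : ℕ, ∀ N : ℕ, N₁ ≤ N → 1 ≤ N →
    ∀ ω : ℚ, ω = om N M → (0 : ℝ) < ω → (M + 2) * (ω : ℝ) ≤ 1 / 8 →
    ∃ y κ₂ : ℝ, (ω : ℝ) ≤ y ∧ 0 < κ₂ ∧
    ∀ κ : ℝ, 0 < κ → κ ≤ κ₂ → κ ≤ ω → ∃ P₂ : ℕ, ∀ P : ℕ, P₂ ≤ P → 1 ≤ P →
    ∃ (ε₁ r₁ : ℝ) (K₀ : Finset ℝ), 0 < ε₁ ∧ 0 < r₁ ∧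
    ∀ r b : ℝ, 0 < r → r < r₁ → |b - g| ≤ r → CellI Lc n (fun i => σ (i + 1)) s b r ε₁ →
      Gnr W Att K₀ b r →
    ∀ T : ℕ, 1 ≤ T → ρ₀ ≤ T * (ω / P * r) → T * (ω / P * r) ≤ ρ₀ + ω / P * r →
    ∀ (Λ : ℕ) (o c₀ e₀ θ V D X₀ q ε₀ : ℝ), 16 * c ^ 2 ≤ Λ →
      CelG (shL Lc) (n + 1) p σ Rd M Sn P (lnW (Rd + 2) b (lx Rd * r)) b (T * (ω / P * r)) o c₀
        (ω / P * r) e₀ θ V →
      Rls Λ (shL Lc) (n + 1) σ M Sn P T (lnW (Rd + 2) b (lx Rd * r)) b (T * (ω / P * r)) o c₀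
        (ω / P * r) e₀ θ V (κ * r) 0 D E (ω * r) X₀ (y * r) q ε₀ e' →
    ∃ (Nx : ℕ) (ax wx : ℕ → ℝ) (φ₁ : ℝ), 0 < φ₁ ∧
      (∀ k < Nx, (ax k, wx k) ∈ Att ∧ wx k ≤ ax k ∧ |ax k - g| ≤ ρJ ∧ |wx k - g| ≤ ρJ) ∧
    ∀ (K : ℕ) (dl δl : ℕ → ℝ) (Ka Kc : ℝ), 0 < Ka → 0 < Kc →
      (∀ l ≤ n, 0 < dl l ∧ dl l ≤ φ₁ ∧ 0 ≤ δl l ∧ δl l ≤ φ₁) →
    ∃ τ Kb : ℝ, 0 < τ ∧ 0 < Kb ∧ Bas S (fun J F A₀ => ∀ (A : F.Ω → Prop)
        (G : ℕ → PtT F → ℕ → MvPolynomial (Option (Fin m)) ℝ)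
        (H : ℕ → LnT F → ℕ → MvPolynomial (Option (Fin m)) ℝ), (∀ ω, A ω → A₀ ω) →
        Pe F.p A₀ ≤ Ka * Pe F.p A →
        ChL F e n K ((Rd + 2 + 1) * (T + M * P) + Nx) (shL Lc)
          (bga b (ω / P * r) T (T + M * P) ((Rd + 2 + 1) * (T + M * P)) ax)
          (bgw (lnW (Rd + 2) b (lx Rd * r)) (ω / P * r) T (T + M * P)
            ((Rd + 2 + 1) * (T + M * P)) wx) E e' ρ' g dl δl A G H →
        recY m J F ((Rd + 2 + 1) * (T + M * P) + Nx)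
          (bga b (ω / P * r) T (T + M * P) ((Rd + 2 + 1) * (T + M * P)) ax)
          (bgw (lnW (Rd + 2) b (lx Rd * r)) (ω / P * r) T (T + M * P)
            ((Rd + 2 + 1) * (T + M * P)) wx) G →
        ∃ B : F.Ω → Prop, (∀ ω, B ω → A ω) ∧ Pe F.p A ≤ Kb * Pe F.p B ∧
          RowsF F A₀ B (shL Lc) σ p e n KH c M P T U (lnW (Rd + 2) b (lx Rd * r)) b
            (T * (ω / P * r)) (ω / P * r) (κ * r) (ω * r) (y * r) Kc L₀ ρr a C₂ τ dl G)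

theorem RowsJ.mono_W {m : ℕ} {S : PCl m} {e : ℕ → Fin m} {n : ℕ} {Lc : ℕ → ℝ → ℝ → ℝ}
    {p : ℕ → Prop} [DecidablePred p] {σ : ℕ → ℝ} {g : ℝ} {W W' : Set ℝ} {Att : Set (ℝ × ℝ)}
    {ρJ E e' ρ' : ℝ} (h : RowsJ S e n Lc p σ g W Att ρJ E e' ρ') (hW : W' ⊆ W) :
    RowsJ S e n Lc p σ g W' Att ρJ E e' ρ' := by
  intro s Rd c KH Sn ρ₀ L₀ h1 h2 h3 h3' h4 h5
  obtain ⟨ρr, a, C₂, k1, k2, k3, k4, k5, H⟩ := h s Rd c KH Sn ρ₀ L₀ h1 h2 h3 h3' h4 h5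
  refine ⟨ρr, a, C₂, k1, k2, k3, k4, k5, fun M U hU => ?_⟩
  obtain ⟨N₁, H⟩ := H M U hU
  refine ⟨N₁, fun N q0 q0' ω q1 q2 q3 => ?_⟩
  obtain ⟨y, κ₂, q4, q5, H⟩ := H N q0 q0' ω q1 q2 q3
  refine ⟨y, κ₂, q4, q5, fun κ q6 q7 q8 => ?_⟩
  obtain ⟨P₂, H⟩ := H κ q6 q7 q8
  refine ⟨P₂, fun P q9 q10 => ?_⟩
  obtain ⟨ε₁, r₁, K₀, q11, q12, H⟩ := H P q9 q10
  exact ⟨ε₁, r₁, K₀, q11, q12, fun r b j1 j2 j3 j4 j5 =>
    H r b j1 j2 j3 j4 ⟨fun k hk => hW (j5.1 k hk), j5.2⟩⟩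

/-- **The labels of the affine cells**, from the joint chains and the rows. -/
theorem labJ_of {ι : Type*} {m n : ℕ} {S : PCl m} {e : ℕ → Fin m} {L Lc : ℕ → ℝ → ℝ → ℝ}
    {Lx : ι → ℕ → ℝ → ℝ → ℝ} {OK : ι → ℝ → ℝ → Prop} {p : ℕ → Prop} [DecidablePred p]
    {σ : ℕ → ℝ} {g : ℝ} {W : Set ℝ} {Att : Set (ℝ × ℝ)} {ε₀ : ℝ} (hTm : TmH S)
    (hinj : Inj (fun l => e (l + 1)) (n + 1)) (hg0 : 0 < g) (hg1 : g < 1) (hε₀ : 0 < ε₀)
    (hlaw : ∀ i, Law (Lc i)) (hge : ∀ i a w, 0 ≤ w → w ≤ a → a ≤ 1 → a ≤ Lc i a w)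
    (hcell : ∀ (s : ℕ) (ε : ℝ), 0 < ε → ∃ ε' r₀ : ℝ, 0 < ε' ∧ 0 < r₀ ∧ ∀ (x : ι) (r b : ℝ),
      0 < r → r < r₀ → |b - g| ≤ r → b ∈ W → CellI (Lx x) n (fun i => σ (i + 1)) s b r ε' →
      CellI Lc n (fun i => σ (i + 1)) s b r ε) (hbig : ∀ i, n < i → ∀ a w, Lc i a w = a)
    (hzero : ∀ a w, L 0 a w = a) (hbig' : ∀ i, n + 1 < i → ∀ a w, L i a w = a)
    (hdia : ∀ i < n, ∀ a, 0 ≤ a → a ≤ 1 → L (i + 1) a a = Lc i a a)
    (htgt : ∀ b ∈ W, 0 < b → b < 1 → L (n + 1) b b = Lc n b b)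
    (hσ0 : σ 0 = 1) (hσ : ∀ i, 1 ≤ σ i) (hp : Stc p (n + 1))
    (hps : ∀ i ≤ n, p i ↔ σ i = 1) {ρJ E : ℝ} (hρJ : 0 < ρJ) (hE : 0 ≤ E) (hgE : g + E < 1)
    (htop : ∀ i ≤ n, Lc i g g + E < 1) {ρ' : ℝ} (hρ' : 0 < ρ')
    (hJat : JatEY S (fun l => e (l + 1)) n Lc g Att ρJ E (ε₀ / 2) ρ' (recY m))
    (hrow : RowsJ S e n Lc p σ g W Att ρJ E (ε₀ / 2) ρ') :
    LabI S e n L Lx OK p σ g W (fun _ => Att) ε₀ := by
  intro s hs
  -- the dynamic slopes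
  obtain ⟨β, hβ, hpd⟩ : ∃ β : ℝ, 0 < β ∧ ∀ i ≤ n, ¬ p i → 1 + 2 * β ≤ σ i := by
    obtain ⟨x, hx, h1⟩ := PrM.fset_small (range (n + 1))
      (Q := fun i x => ¬ p i → 1 + 2 * x ≤ σ i) fun i hi => by
        have hi' : i ≤ n := Nat.lt_succ_iff.1 (mem_range.1 hi)
        rcases (hσ i).eq_or_lt with h | h
        · exact ⟨1, one_pos, fun _ _ _ h2 => absurd ((hps i hi').2 h.symm) h2⟩
        · exact ⟨(σ i - 1) / 2, by linarith, fun e' _ h2 _ => by linarith⟩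
    exact ⟨x, hx, fun i hi => h1 x hx le_rfl i (mem_range.2 (Nat.lt_succ_of_le hi))⟩
  -- the margin
  obtain ⟨lam, hlam, hlam'⟩ : ∃ lam : ℝ, 0 < lam ∧ ∀ i ≤ n + 1, shL Lc i g g + E + 2 * lam ≤ 1 := by
    obtain ⟨x, hx, h1⟩ := PrM.fset_small (range (n + 2))
      (Q := fun i x => shL Lc i g g + E + 2 * x ≤ 1) fun i hi => by
        have hi' : i ≤ n + 1 := Nat.lt_succ_iff.1 (mem_range.1 hi)
        have h2 : shL Lc i g g + E < 1 := by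
          rcases i with _ | i
          · exact hgE
          · exact htop i (by omega)
        exact ⟨(1 - (shL Lc i g g + E)) / 2, by linarith, fun e' _ h3 => by linarith⟩
    exact ⟨x, hx, fun i hi => h1 x hx le_rfl i (mem_range.2 (Nat.lt_succ_of_le hi))⟩
  -- the depth of the lines
  obtain ⟨r₀, hr₀⟩ : ∃ r₀, r₀ = min ρJ ρ' := ⟨_, rfl⟩
  have hr₀0 : 0 < r₀ := by rw [hr₀]; exact lt_min hρJ hρ'
  obtain ⟨ρ₀, hρ₀⟩ : ∃ ρ₀, ρ₀ = min (r₀ / 2) (g / 8) := ⟨_, rfl⟩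
  have hρ₀0 : 0 < ρ₀ := by rw [hρ₀]; exact lt_min (by linarith) (by linarith)
  have hρ₀1 : ρ₀ ≤ r₀ / 2 := by rw [hρ₀]; exact min_le_left _ _
  have hρ₀2 : ρ₀ ≤ g / 8 := by rw [hρ₀]; exact min_le_right _ _
  obtain ⟨S₀, hS₀⟩ := exists_nat_ge (2 / ρ₀)
  obtain ⟨Sn, hSn⟩ : ∃ Sn : ℕ, Sn = 2 * s + S₀ + 1 := ⟨_, rfl⟩
  have hSρ : 2 ≤ (Sn : ℝ) * ρ₀ := by
    rw [div_le_iff₀ hρ₀0] at hS₀
    have h1 : (S₀ : ℝ) ≤ Sn := by
      rw [hSn]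
      push_cast
      have : (0 : ℝ) ≤ s := Nat.cast_nonneg s
      linarith
    have h2 := mul_le_mul_of_nonneg_right h1 hρ₀0.le
    linarith
  obtain ⟨c, KH, L₀, hc, hL₀, hbas⟩ := labR_basY n Sn n (by omega)
  obtain ⟨ρr, a, C₂, hρr, hρr1, ha, ha1, hC₂, hrow⟩ := hrow s n c KH Sn ρ₀ L₀ hs (by omega) hc
    (by omega) hL₀ hρ₀0
  refine ⟨KH, 1, C₂, ρr, a, le_rfl, hC₂, hρr, hρr1, ha, ha1, fun c₁ c₂ M U T₀ hT₀ hU => ?_⟩
  obtain ⟨Λ, hΛ, hbas⟩ := hbas c₁ c₂ U T₀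
  obtain ⟨N₁, hrow⟩ := hrow M U hU
  obtain ⟨ω₂, hω₂, hrl⟩ := rl_all Λ s Sn M (gp := 2 * β * lx n)
    (mul_pos (by linarith) (lx_pos n))
  obtain ⟨N, hN1, hNN, hω₁⟩ := om_small M N₁ hω₂
  obtain ⟨ω, hωe⟩ : ∃ ω, ω = om N M := ⟨_, rfl⟩
  have hω : (0 : ℝ) < ω := by rw [hωe]; exact om_pos hN1 M
  obtain ⟨hωM, hrl⟩ := hrl ω hω (by rw [hωe]; exact hω₁)
  obtain ⟨y, κ₂, hy, hκ₂, hrow⟩ := hrow N hNN hN1 ω hωe hω hωM
  refine ⟨ω, hω, hωM, fun κ₁ hκ₁ => ?_⟩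
  obtain ⟨κ, ε, φ, P₁, hκκ, hφκ, hrl⟩ := hrl (min κ₁ κ₂) (lt_min hκ₁ hκ₂)
  have hrl₀ := hrl (max P₁ 1) (le_max_left _ _) (le_max_right _ _)
  obtain ⟨P₂, hrow⟩ := hrow κ hrl₀.κ_pos (hκκ.trans (min_le_right _ _)) hrl₀.κω'
  obtain ⟨P, hP⟩ : ∃ P, P = max (max P₁ 1) P₂ := ⟨_, rfl⟩
  have hP1 : 1 ≤ P := by rw [hP]; exact (le_max_right _ _).trans (le_max_left _ _)
  have hPP1 : P₁ ≤ P := by rw [hP]; exact (le_max_left _ _).trans (le_max_left _ _)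
  have hPP2 : P₂ ≤ P := by rw [hP]; exact le_max_right _ _
  have R := hrl P hPP1 hP1
  obtain ⟨ε₁, r₁, K₀, hε₁, hr₁, hrow⟩ := hrow P hPP2 hP1
  have hs0 : (0 : ℝ) ≤ s := Nat.cast_nonneg s
  have hs1 : (1 : ℝ) ≤ s := (hσ 0).trans (hs 0 (Nat.zero_le _))
  have hy0 : 0 < y := lt_of_lt_of_le hω hy
  have hκ0 := R.κ_pos
  have hε0 := R.ε_pos
  have hM0 : (0 : ℝ) ≤ M := Nat.cast_nonneg M
  have hΛ0 : (0 : ℝ) ≤ Λ := Nat.cast_nonneg Λ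
  -- the size
  obtain ⟨Z, hZ⟩ : ∃ Z : ℝ, Z = 2 * s + 2 * ε + y + 4 * κ := ⟨_, rfl⟩
  have hZ0 : 0 < Z := by rw [hZ]; positivity
  obtain ⟨ε₂, rc, hε₂, hrc, hcell⟩ := hcell s (min ε ε₁) (lt_min hε0 hε₁)
  obtain ⟨r₂, hr₂⟩ : ∃ r₂, r₂ = min (min (min r₁ rc) (min (r₀ / 4) (g / 4)))
      (min (min ρ₀ (ε₀ / 2)) (min ((1 - g) / 4) (lam / (2 * Z)))) := ⟨_, rfl⟩
  refine ⟨κ, Λ * (s * ((M + 1) * ω) + 2 * ε) + 1, 1, ε₂, r₂, insert 0 K₀, hκ0,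
    hκκ.trans (min_le_left _ _), by positivity, one_pos, hε₂, ?_,
    fun x r b hr hrr hbg _ C hG => ?_⟩
  · rw [hr₂]
    exact lt_min (lt_min (lt_min hr₁ hrc) (lt_min (by linarith) (by linarith)))
      (lt_min (lt_min hρ₀0 (by linarith)) (lt_min (by linarith) (by positivity)))
  have q0 : r < rc := hrr.trans_le (by
    rw [hr₂]; exact (min_le_left _ _).trans ((min_le_left _ _).trans (min_le_right _ _)))
  have q1 : r < r₁ := hrr.trans_le (by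
    rw [hr₂]; exact (min_le_left _ _).trans ((min_le_left _ _).trans (min_le_left _ _)))
  have q2 : r < r₀ / 4 := hrr.trans_le (by
    rw [hr₂]; exact (min_le_left _ _).trans ((min_le_right _ _).trans (min_le_left _ _)))
  have q3 : r < g / 4 := hrr.trans_le (by
    rw [hr₂]; exact (min_le_left _ _).trans ((min_le_right _ _).trans (min_le_right _ _)))
  have q4 : r < ρ₀ := hrr.trans_le (by
    rw [hr₂]; exact (min_le_right _ _).trans ((min_le_left _ _).trans (min_le_left _ _)))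
  have q5 : r < ε₀ / 2 := hrr.trans_le (by
    rw [hr₂]; exact (min_le_right _ _).trans ((min_le_left _ _).trans (min_le_right _ _)))
  have q6 : r < (1 - g) / 4 := hrr.trans_le (by
    rw [hr₂]; exact (min_le_right _ _).trans ((min_le_right _ _).trans (min_le_left _ _)))
  have q7 : r < lam / (2 * Z) := hrr.trans_le (by
    rw [hr₂]; exact (min_le_right _ _).trans ((min_le_right _ _).trans (min_le_right _ _)))
  rw [lt_div_iff₀ (by positivity)] at q7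
  obtain ⟨hb1, hb2⟩ := abs_le.1 hbg
  have hb : 0 < b := by linarith
  -- the cell
  have hbW : b ∈ W := by
    have h0 := hG.1 0 (mem_insert_self _ _)
    rwa [zero_mul, sub_zero] at h0
  have C₀ : ∀ ε' : ℝ, min ε ε₁ ≤ ε' → CellI Lc n (fun i => σ (i + 1)) s b r ε' := by
    intro ε' hε'
    have hεr : min ε ε₁ * r ≤ ε' * r := mul_le_mul_of_nonneg_right hε' hr.le
    have C' := hcell x r b hr q0 hbg hbW C
    exact ⟨C'.lo, C'.hi, C'.one, fun i hi a' w' h1 h2 h3 => (C'.bas i hi a' w' h1 h2 h3).trans hεr,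
      fun a' w' h1 h2 h3 => (C'.tgt a' w' h1 h2 h3).trans hεr, fun i hi v h1 h2 => by
        have := C'.sl i hi v h1 h2
        linarith⟩
  have hlaw' : ∀ i, Law (shL Lc i) := by
    intro i
    rcases i with _ | i
    · exact ⟨fun _ _ _ _ _ h _ => h, fun _ _ _ _ _ _ _ => le_rfl, fun _ _ _ _ _ _ _ =>
        min_le_right _ _⟩
    · exact hlaw i
  have hge' : ∀ i a w, 0 ≤ w → w ≤ a → a ≤ 1 → a ≤ shL Lc i a w := by
    intro i
    rcases i with _ | i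
    · exact fun _ _ _ _ _ => le_rfl
    · exact hge i
  have CS := (C₀ ε (min_le_left _ _)).shL hσ0 hε0.le hr hs1
  have hωr : 0 < ω * r := mul_pos hω hr
  have hMω : (M : ℝ) * (ω * r) + 2 * (ω * r) ≤ r / 8 := by
    have h1 := mul_le_mul_of_nonneg_right hωM hr.le
    have e1 : (M + 2) * (ω : ℝ) * r = M * (ω * r) + 2 * (ω * r) := by ring
    rw [e1] at h1
    linarith
  have hMω0 : 0 ≤ (M : ℝ) * (ω * r) := by positivity
  have hηr : 0 < (ω : ℝ) / P * r := mul_pos R.η_pos hr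
  have hηω : (ω : ℝ) / P * r ≤ ω * r := mul_le_mul_of_nonneg_right R.ηω hr.le
  have hZr : Z * r = (2 * s + 2 * ε) * r + y * r + 4 * (κ * r) := by rw [hZ]; ring
  have hyr : 0 < y * r := mul_pos hy0 hr
  have hκr : 0 < κ * r := mul_pos hκ0 hr
  have hsr : 0 ≤ (2 * s + 2 * ε) * r := by positivity
  have key := CS.real hlaw' hge' hσ hs hp (β := β)
    (fun i hi => (hps i hi).1) hpd (Rd := n) (M := M) (S := Sn) (P := P) (Λ := Λ) (by omega) hr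
    (X₀ := 1 - E - lam) (y := y) (E := E) (ε₀ := ε₀) (e' := ε₀ / 2) hP1 R hρ₀0 (by linarith)
    hSρ q4.le (by omega) (fun i hi => ?_) hE (by linarith) hy (by linarith) ?_ hφκ
  · obtain ⟨T, hT1, hT2, hT3, CG, RL⟩ := key
    have RL0 : Rls Λ (shL Lc) (n + 1) σ M Sn P T (lnW (n + 2) b (lx n * r)) b (T * (ω / P * r))
        (M * (ω * r)) (b / 2) (ω / P * r) (2 * (ε * r) + s * (ω / P * r))
        (2 * β * lx n * r - 2 * (ε * r)) (s * (M * (P * (ω / P * r))) + 2 * (ε * r)) (κ * r) 0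
        (s * ((M + 1) * (ω * r)) + 2 * (ε * r)) E (ω * r) (1 - E - lam) (y * r)
        ((Λ * (s * ((M + 1) * ω) + 2 * ε) + 1) * r) ε₀ (ε₀ / 2) := by
      have hφr : 0 ≤ φ * r := mul_nonneg R.φ_pos.le hr.le
      refine { RL with φ_nn := le_rfl, c₀_ge := ?_, small := ?_ }
      · have := RL.c₀_ge
        linarith
      · have := RL.small
        have h1 : (Λ : ℝ) * (2 * (ε * r) + s * (ω / P * r) + (Sn + 2) * (ω / P * r) + φ * r) =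
          Λ * (2 * (ε * r) + s * (ω / P * r) + (Sn + 2) * (ω / P * r) + 0) + Λ * (φ * r) := by ring
        rw [h1] at this
        have h2 : 0 ≤ Λ * (φ * r) := by positivity
        linarith
    -- the further points and the rows
    obtain ⟨Nx, ax, wx, φ₁, hφ₁, hpts, hrow⟩ := hrow r b hr q1 hbg (C₀ ε₁ (min_le_right _ _))
      ⟨fun k hk => hG.1 k (mem_insert_of_mem hk), hG.2⟩ T hT1 hT2 hT3 Λ _ _ _ _ _ _ _ _ _ hΛ CG
      RL0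
    -- a smaller loss of the labels
    obtain ⟨φ', hφ'0, hφ'1, RL'⟩ := Rls.phi RL0 hφ₁
    have hWlo : b - r / 8 ≤ lnW (n + 2) b (lx n * r) 0 := by
      rw [lnW_zero, ← mul_assoc, lx_mul]
      linarith
    have key := hbas (L' := L) (σ := σ) (p := p) (M := M) (P := P) (T := T)
      (Nx := Nx) (r₀ := r₀) (ρr := ρr) (a := a) (C₂ := C₂) (ax := ax) (wx := wx) hTm hinj hJat
      CG RL' hφ'0 le_rfl hσ0 hσ (fun i => ?_)
      (by rw [hr₀]; exact min_le_left _ _) (by rw [hr₀]; exact min_le_right _ _) (by linarith)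
      (by linarith) (fun j hj t ht => ?_) hpts (fun K dl δl Ka Kc h1 h2 h3 => ?_)
    · obtain ⟨K₁, τ, hK₁, hτ, hb⟩ := key
      exact ⟨K₁, L₀, τ, hK₁, by linarith, hτ, hb⟩
    · -- the diagonals
      rcases i with _ | i
      · exact hzero b b
      · show L (i + 1) b b = Lc i b b
        rcases Nat.lt_trichotomy i n with h | h | h
        · exact hdia i h b hb.le (by linarith [C.hi])
        · rw [h]
          exact htgt b hbW hb (by linarith)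
        · rw [hbig i h, hbig' (i + 1) (by omega)]
    · -- the points of the grid
      have hTR : (t : ℝ) ≤ T + M * P := by exact_mod_cast ht.le
      have hx2 : xo T (ω / P * r) t ≤ M * (ω * r) := by
        unfold xo
        have h1 : ((t : ℝ) - T) * (ω / P * r) ≤ M * P * (ω / P * r) :=
          mul_le_mul_of_nonneg_right (by linarith) hηr.le
        have hP0 : (0 : ℝ) < P := by exact_mod_cast (by omega : 0 < P)
        have e1 : (M : ℝ) * P * (ω / P * r) = M * (ω * r) := by field_simp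
        rwa [e1] at h1
      have hx1 : -(T * (ω / P * r)) ≤ xo T (ω / P * r) t := by
        rw [← xo_zero]
        exact xo_mono hηr.le (Nat.zero_le t)
      refine grid_att hG.2 ?_ (lnW_le (mul_nonneg (lx_pos n).le hr.le) hj) (by linarith)
      have h3 := lnW_ge (Q := n + 2) (b := b) (mul_nonneg (lx_pos n).le hr.le) j
      rw [← mul_assoc, lx_mul] at h3
      linarith
    · exact hrow K dl δl Ka Kc h1 h2 fun l hl => by
        obtain ⟨d1, d2, d3, d4⟩ := h3 l hl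
        exact ⟨d1, d2.trans hφ'1, d3, d4.trans hφ'1⟩
  · have h1 := CS.le_g hlaw' hs hr hε0.le hg1.le hbg hi (x := M * (ω * r)) hMω0 (by linarith)
    have h2 := hlam' i hi
    linarith
  · have h1 : Λ * (κ * r) = Λ * κ * r := by ring
    have h2 : Λ * κ * r ≤ ω * r := mul_le_mul_of_nonneg_right R.κω.le hr.le
    linarith

end Pool.STA
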