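import Pool.Agent.H78.MIC.IsoF
import Pool.Agent.H82.STAT.LabJ

/-!
# The affine cells near a point as cells of a kit

`IsCJ`: the affine cell `(r, b)` with errors `ε` near the point `g`, all windows `b - k r`, `k` a
rational number of height at most `1 / ε`, are good. `KitJ`: the kit of these cells, the target has
slope one: the centre is the window `b - r / 8` and the depth `r / 8`, the size is `r / 64`.
`kitJ_cel`: the levels; `kitJ_row`: the rows.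
-/

set_option autoImplicit false

namespace Pool.STAT

open Finset MvPolynomial
open Pool.Agent.H49.Ent Pool.Agent.H32.Dense Pool.STK Pool.KS3 Pool.KA Pool.KSAT Pool.PB Pool.GEN
open Pool.K2S Pool.S6C
open Pool.LEV (Law Lv)
open Pool.STR (Affn Nw NfB AffB)
open Pool.STA (Gnr)
open Pool.STAT.GRD
open CLO Pool.MIC6

/-- The cell, the target has slope one. -/
theorem CellI.all {L : ℕ → ℝ → ℝ → ℝ} {n : ℕ} {σ : ℕ → ℝ} {s : ℕ} {b r ε : ℝ}
    (H : CellI L n σ s b r ε) (hσ : σ n = 1) {i : ℕ} (hi : i ≤ n) {a' w' : ℝ} (h1 : b - r ≤ w')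
    (h2 : w' ≤ a') (h3 : a' ≤ b + r) :
    |L i a' w' - L i b b - (a' - b) - (σ i - 1) * (w' - b)| ≤ ε * r := by
  rcases hi.lt_or_eq with h | h
  · exact H.bas i h a' w' h1 h2 h3
  · subst h
    have h4 := H.tgt a' w' h1 h2 h3
    rw [hσ, one_mul] at h4
    rw [hσ, sub_self, zero_mul, sub_zero]
    exact h4

theorem CellI.mono {L : ℕ → ℝ → ℝ → ℝ} {n : ℕ} {σ : ℕ → ℝ} {s : ℕ} {b r ε ε' : ℝ}
    (H : CellI L n σ s b r ε) (h : ε * r ≤ ε' * r) : CellI L n σ s b r ε' :=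
  ⟨H.lo, H.hi, H.one, fun i hi a' w' h1 h2 h3 => (H.bas i hi a' w' h1 h2 h3).trans h,
    fun a' w' h1 h2 h3 => (H.tgt a' w' h1 h2 h3).trans h, fun i hi v h1 h2 => by
      have := H.sl i hi v h1 h2
      linarith⟩

/-- **The affine cell `(r, b)` near `g`** with errors `ε`. -/
structure IsCJ (L : ℕ → ℝ → ℝ → ℝ) (n : ℕ) (σ : ℕ → ℝ) (s : ℕ) (g : ℝ) (W : Set ℝ)
    (Att : Set (ℝ × ℝ)) (ε : ℝ) (p : ℝ × ℝ) : Prop where
  r0 : 0 < p.1
  rε : p.1 ≤ ε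
  near : |p.2 - g| ≤ p.1
  cel : CellI L n (fun i => σ (i + 1)) s p.2 p.1 ε
  win : ∀ k : ℚ, |(k : ℝ)| ≤ 1 / ε → (k.den : ℝ) ≤ 1 / ε → p.2 - k * p.1 ∈ W
  att : ∀ p₁ q₁ p₂ q₂ : ℚ, 0 < p.2 - p₂ - q₂ * p.1 →
    p.2 - p₂ - q₂ * p.1 ≤ p.2 - p₁ - q₁ * p.1 → p.2 - p₁ - q₁ * p.1 < 1 →
    (p.2 - p₁ - q₁ * p.1, p.2 - p₂ - q₂ * p.1) ∈ Att

variable {L : ℕ → ℝ → ℝ → ℝ} {n : ℕ} {σ : ℕ → ℝ} {s : ℕ} {g : ℝ} {W : Set ℝ}
  {Att : Set (ℝ × ℝ)}

theorem isCJ_mono : MonoI (IsCJ L n σ s g W Att) := by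
  refine ⟨fun {ε ε'} {p} hp hε => ?_⟩
  have hε0 : 0 < ε := hp.r0.trans_le hp.rε
  have h1 : 1 / ε' ≤ 1 / ε := one_div_le_one_div_of_le hε0 hε
  exact ⟨hp.r0, hp.rε.trans hε, hp.near, hp.cel.mono (mul_le_mul_of_nonneg_right hε hp.r0.le),
    fun k h2 h3 => hp.win k (h2.trans h1) (h3.trans h1), hp.att⟩

/-- The rational numbers of bounded height. -/
theorem rat_fin (x : ℝ) : ∃ K₀ : Finset ℝ, ∀ k : ℚ, |(k : ℝ)| ≤ x → (k.den : ℝ) ≤ x →
    (k : ℝ) ∈ K₀ := by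
  obtain ⟨N, hN⟩ := exists_nat_ge x
  refine ⟨((Finset.Icc (-(N * N : ℤ)) (N * N)) ×ˢ (Finset.Icc 0 N)).image
    fun z => (z.1 : ℝ) / (z.2 : ℕ), fun k h1 h2 => ?_⟩
  refine Finset.mem_image.2 ⟨(k.num, k.den), ?_, ?_⟩
  · have hd : (0 : ℝ) < k.den := by exact_mod_cast k.den_pos
    have h3 : (k.den : ℝ) ≤ N := h2.trans hN
    have h4 : k.den ≤ N := by exact_mod_cast h3
    have e1 : (k.num : ℝ) = k * k.den := by
      have : (k : ℝ) = (k.num : ℝ) / k.den := by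
        exact_mod_cast (Rat.num_div_den k).symm
      rw [this]
      field_simp
    have h5 : |(k.num : ℝ)| ≤ N * N := by
      rw [e1, abs_mul, abs_of_pos hd]
      exact mul_le_mul (h1.trans hN) h3 hd.le (Nat.cast_nonneg N)
    obtain ⟨h6, h7⟩ := abs_le.1 h5
    rw [Finset.mem_product, Finset.mem_Icc, Finset.mem_Icc]
    refine ⟨⟨?_, ?_⟩, Nat.zero_le _, h4⟩
    · have : ((-(N * N : ℤ) : ℤ) : ℝ) ≤ (k.num : ℝ) := by push_cast; linarith
      exact_mod_cast this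
    · have : (k.num : ℝ) ≤ ((N * N : ℤ) : ℝ) := by push_cast; linarith
      exact_mod_cast this
  · show (k.num : ℝ) / (k.den : ℕ) = k
    exact_mod_cast Rat.num_div_den k

/-- **The cells of the rows are cells.** -/
theorem isCJ_of (ε : ℝ) : ∃ K₀ : Finset ℝ, ∀ r b : ℝ, 0 < r → r ≤ ε → |b - g| ≤ r →
    CellI L n (fun i => σ (i + 1)) s b r ε → Gnr W Att K₀ b r → IsCJ L n σ s g W Att ε (r, b) := by
  obtain ⟨K₀, hK₀⟩ := rat_fin (1 / ε)
  exact ⟨K₀, fun r b h1 h2 h3 h4 h5 => ⟨h1, h2, h3, h4, fun k h6 h7 => h5.1 _ (hK₀ k h6 h7),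
    fun p₁ q₁ p₂ q₂ h6 h7 h8 => h5.2 p₁ q₁ p₂ q₂ h6 h7 h8⟩⟩

variable {m : ℕ}

/-- **The kit of the affine cells.** -/
noncomputable def KitJ (cs : ℕ → Fin m) (n : ℕ) (L : ℕ → ℝ → ℝ → ℝ) (σ : ℕ → ℝ) (K : ℕ)
    (V : ℝ × ℝ → ℕ → ℕ → ℝ → GrdP m) (her : ∀ p N M θ, (V p N M θ).Her) :
    KitP m (ℝ × ℝ) n where
  cs _ := cs
  L _ := L
  y p := (p.2 - p.1 / 8, p.1 / 8)
  X p := p.1 / 64
  la _ l := σ (l + 1)
  ml _ _ := 1
  K := K
  W := V
  her := her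
  RT _ _ _ _ _ _ _ _ _ := Unit
  rc _ _ _ _ _ _ _ _ _ _ := ()

/-- The mesh is a rational multiple of the size of the cell. -/
theorem msh_om {N : ℕ} (hN : 1 ≤ N) (M : ℕ) (r : ℝ) : msh (r / 64) N M = om N M * r := by
  have h1 : (0 : ℝ) < N := by exact_mod_cast hN
  have h2 : (0 : ℝ) ≤ M := Nat.cast_nonneg M
  unfold msh om
  push_cast
  field_simp

variable {cs : ℕ → Fin m} {K : ℕ} {V : ℝ × ℝ → ℕ → ℕ → ℝ → GrdP m}
  {her : ∀ p N M θ, (V p N M θ).Her}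

/-- The levels at the centre. -/
theorem CellI.ctr {b r ε : ℝ} (H : CellI L n (fun i => σ (i + 1)) s b r ε) (hσn : σ (n + 1) = 1)
    (hσ : ∀ i, 1 ≤ σ i) (hs : ∀ i ≤ n + 1, σ i ≤ s) (hr : 0 < r) (hbg : |b - g| ≤ r) {i : ℕ}
    (hi : i ≤ n) : L i b (b - r / 8) ≤ L i g g + (s + 2 * ε) * r := by
  obtain ⟨h1, h2⟩ := abs_le.1 hbg
  have h3 := (abs_le.1 (H.all hσn hi (a' := b) (w' := b - r / 8) (by linarith) (by linarith)
    (by linarith))).2
  have h4 := (abs_le.1 (H.all hσn hi (a' := g) (w' := g) (by linarith) le_rfl (by linarith))).1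
  have h5 := hσ (i + 1)
  have h6 := hs (i + 1) (by omega)
  have e1 : b - r / 8 - b = -(r / 8) := by ring
  have e2 : g - b + (σ (i + 1) - 1) * (g - b) = σ (i + 1) * (g - b) := by ring
  have h7 : 0 ≤ (σ (i + 1) - 1) * (r / 8) := mul_nonneg (by linarith) (by linarith)
  have h8 : σ (i + 1) * -(g - b) ≤ s * r := by
    rcases le_total 0 (-(g - b)) with h | h
    · exact mul_le_mul h6 (by linarith) h (by linarith)
    · have h9 : σ (i + 1) * -(g - b) ≤ 0 := mul_nonpos_of_nonneg_of_nonpos (by linarith) h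
      have h10 : 0 ≤ (s : ℝ) * r := mul_nonneg (Nat.cast_nonneg s) hr.le
      linarith
  rw [e1] at h3
  have e3 : (σ (i + 1) - 1) * -(r / 8) = -((σ (i + 1) - 1) * (r / 8)) := by ring
  have e4 : σ (i + 1) * -(g - b) = -(g - b + (σ (i + 1) - 1) * (g - b)) := by ring
  have e5 : (s + 2 * ε) * r = s * r + 2 * (ε * r) := by ring
  rw [e3] at h3
  rw [e4] at h8
  linarith

/-- **The levels** of the cells. -/
theorem kitJ_cel (hlaw : ∀ i, Law (L i))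
    (hge : ∀ i a w, 0 ≤ w → w ≤ a → a ≤ 1 → a ≤ L i a w) (hσn : σ (n + 1) = 1)
    (hσ : ∀ i, 1 ≤ σ i) (hs : ∀ i ≤ n + 1, σ i ≤ s) (htop : ∀ i ≤ n, L i g g < 1) (ε' : ℝ)
    (hε' : 0 < ε') : EvP (IsCJ L n σ s g W Att) fun p =>
      CellL (n + 1) ((KitJ cs n L σ K V her).L p) ε' s ((KitJ cs n L σ K V her).y p)
        ((KitJ cs n L σ K V her).X p) ((KitJ cs n L σ K V her).la p)
        ((KitJ cs n L σ K V her).ml p) := by
  obtain ⟨lam, hlam, hlam'⟩ : ∃ lam : ℝ, 0 < lam ∧ ∀ i ≤ n, L i g g + lam ≤ 1 := by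
    obtain ⟨x, hx, h1⟩ := PrM.fset_small (range (n + 1))
      (Q := fun i x => L i g g + x ≤ 1) fun i hi => by
        have h2 := htop i (Nat.lt_succ_iff.1 (mem_range.1 hi))
        exact ⟨1 - L i g g, by linarith, fun e' _ h3 => by linarith⟩
    exact ⟨x, hx, fun i hi => h1 x hx le_rfl i (mem_range.2 (Nat.lt_succ_of_le hi))⟩
  have hs0 : (0 : ℝ) ≤ s := Nat.cast_nonneg s
  have hs1 : (1 : ℝ) ≤ s := (hσ 0).trans (hs 0 (Nat.zero_le _))
  refine ⟨min (ε' / 128) (min 1 (lam / (s + 3))), lt_min (by positivity)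
    (lt_min one_pos (by positivity)), fun p hp => ?_⟩
  obtain ⟨ε, hε⟩ : ∃ ε : ℝ, ε = min (ε' / 128) (min 1 (lam / (s + 3))) := ⟨_, rfl⟩
  rw [← hε] at hp
  have he1 : ε ≤ ε' / 128 := by rw [hε]; exact min_le_left _ _
  have he2 : ε ≤ 1 := by rw [hε]; exact (min_le_right _ _).trans (min_le_left _ _)
  have he3 : ε ≤ lam / (s + 3) := by rw [hε]; exact (min_le_right _ _).trans (min_le_right _ _)
  rw [le_div_iff₀ (by positivity)] at he3
  have hr := hp.r0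
  have hrε := hp.rε
  have hlo := hp.cel.lo
  have hhi := hp.cel.hi
  have hεr : ε * p.1 ≤ ε' / 128 * p.1 := mul_le_mul_of_nonneg_right he1 hr.le
  have hεr1 : ε * p.1 ≤ 1 * p.1 := mul_le_mul_of_nonneg_right he2 hr.le
  refine ⟨by show 0 < p.1 / 64; positivity, by show p.1 / 64 ≤ p.1 / 8; linarith,
    by show p.1 / 64 ≤ p.2 - p.1 / 8; linarith,
    by show p.2 - p.1 / 8 + p.1 / 8 + 2 * (p.1 / 64) ≤ 1; linarith, fun l _ => hlaw l,
    fun l _ a w h1 h2 h3 => hge l a w h1 h2 h3, fun l hl z hz => ?_, fun l _ => ?_, fun l hl => ?_,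
    fun _ _ => zero_le_one, fun _ _ => hs1, fun l hl => ?_⟩
  · change dist z (p.2 - p.1 / 8, p.1 / 8) ≤ p.1 / 64 at hz
    rw [Prod.dist_eq, Real.dist_eq, Real.dist_eq] at hz
    have z1 := abs_le.1 ((le_max_left _ _).trans hz)
    have z2 := abs_le.1 ((le_max_right _ _).trans hz)
    simp only at z1 z2
    have h1 := abs_le.1 (hp.cel.all hσn (i := l) (by omega) (a' := z.1 + z.2) (w' := z.1)
      (by linarith) (by linarith) (by linarith))
    have h2 := abs_le.1 (hp.cel.all hσn (i := l) (by omega) (a' := p.2) (w' := p.2 - p.1 / 8)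
      (by linarith) (by linarith) (by linarith))
    show |L l (z.1 + z.2) z.1 - L l (p.2 - p.1 / 8 + p.1 / 8) (p.2 - p.1 / 8) -
      (σ (l + 1) * (z.1 - (p.2 - p.1 / 8)) + 1 * (z.2 - p.1 / 8))| ≤ ε' * (p.1 / 64)
    rw [sub_add_cancel, abs_le]
    constructor <;> nlinarith only [h1, h2, hεr]
  · show 0 ≤ σ (l + 1)
    linarith [hσ (l + 1)]
  · exact hs (l + 1) (by omega)
  · show L l (p.2 - p.1 / 8 + p.1 / 8) (p.2 - p.1 / 8) + 4 * (p.1 / 64) ≤ 1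
    rw [sub_add_cancel]
    have h1 := hp.cel.ctr hσn hσ hs hr hp.near (i := l) (by omega)
    have h2 := hlam' l (by omega)
    have h3 : (s + 2 * ε) * p.1 = s * p.1 + 2 * (ε * p.1) := by ring
    have h4 : p.1 * (s + 3) ≤ ε * (s + 3) := mul_le_mul_of_nonneg_right hrε (by positivity)
    linarith

/-- **The rows** of the cells. -/
theorem kitJ_row (hσn : σ (n + 1) = 1) {rt : ℝ → ℝ} (hd : DifferentiableAt ℝ rt (L n g g))
    {h : ℝ} (hlt : deriv rt (L n g g) < 1) (hh : h ≤ 1 - deriv rt (L n g g)) (ε' : ℝ)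
    (hε' : 0 < ε') : EvP (IsCJ L n σ s g W Att) fun p =>
      NfB rt h (ε' * (KitJ cs n L σ K V her).X p)
      ((KitJ cs n L σ K V her).L p n (((KitJ cs n L σ K V her).y p).1 +
        ((KitJ cs n L σ K V her).y p).2) ((KitJ cs n L σ K V her).y p).1 -
        (KitJ cs n L σ K V her).X p)
      ((KitJ cs n L σ K V her).L p n (((KitJ cs n L σ K V her).y p).1 +
        ((KitJ cs n L σ K V her).y p).2) ((KitJ cs n L σ K V her).y p).1 +
        2 * (KitJ cs n L σ K V her).X p) := by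
  obtain ⟨r₀, hr₀, h1⟩ := Pool.STR.nfB_of hd hlt hh (η := ε' / 64) (M := 4) (by positivity)
    (by norm_num)
  refine ⟨min (r₀ / 2) 1, lt_min (by positivity) one_pos, fun p hp => ?_⟩
  have hr := hp.r0
  have h2 := h1 p.1 hr (by have := hp.rε.trans (min_le_left _ _); linarith)
  obtain ⟨ε, hε⟩ : ∃ ε : ℝ, ε = min (r₀ / 2) 1 := ⟨_, rfl⟩
  rw [← hε] at hp
  have he2 : ε ≤ 1 := by rw [hε]; exact min_le_right _ _
  have hεr1 : ε * p.1 ≤ 1 * p.1 := mul_le_mul_of_nonneg_right he2 hr.le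
  obtain ⟨g1, g2⟩ := abs_le.1 hp.near
  have h3 := abs_le.1 (hp.cel.all hσn (i := n) le_rfl (a' := p.2) (w' := p.2 - p.1 / 8)
      (by linarith) (by linarith) (by linarith))
  have h4 := abs_le.1 (hp.cel.all hσn (i := n) le_rfl (a' := g) (w' := g)
      (by linarith) le_rfl (by linarith))
  rw [hσn, sub_self, sub_self, zero_mul, sub_zero, sub_zero] at h3
  rw [hσn, sub_self, zero_mul, sub_zero] at h4
  intro Q₁ Q₂ k1 k2 k3
  change L n (p.2 - p.1 / 8 + p.1 / 8) (p.2 - p.1 / 8) - p.1 / 64 ≤ Q₁ at k1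
  change Q₂ ≤ L n (p.2 - p.1 / 8 + p.1 / 8) (p.2 - p.1 / 8) + 2 * (p.1 / 64) at k3
  rw [sub_add_cancel] at k1 k3
  have h5 := h2 Q₁ Q₂ (by linarith) k2 (by linarith)
  have e1 : ε' / 64 * p.1 = ε' * (p.1 / 64) := by ring
  rw [e1] at h5
  exact h5

end Pool.STAT
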