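import Pool.Agent.H82.STAT.Kjc

/-!
# The rows of slope one

`rowsJ_of`: the rows `RowsJ` from the facts `FctJ` of the kit `KitJ`.
-/

set_option autoImplicit false

namespace Pool.STAT

open Finset MvPolynomial
open Pool.Agent.H49.Ent Pool.Agent.H32.Dense Pool.STK Pool.KS3 Pool.KA Pool.KSAT Pool.PB Pool.GEN
open Pool.K2S Pool.S6C
open Pool.LEV (Law Lv)
open Pool.STAT.GRD
open Pool.CHT (TmH)
open Pool.STA (RowsJ Gnr)
open Pool.TRC (tus)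
open CLO Pool.MIC6

theorem cloU_mono {m J : ℕ} {F : Fam m J} {π' : Path F} {n j' h h' : ℕ} {gD : ℕ → ℕ} {ω : F.Ω}
    {GD : ℕ → PN} (H : CloU π' n j' h gD ω GD) (hh : h ≤ h') : CloU π' n j' h' gD ω GD := by
  intro l hl1 hl b hb
  refine (H l hl1 hl b hb).trans (div_le_div_of_nonneg_right ?_ (by positivity))
  exact pow_le_pow_right₀ (by norm_num) hh

/-- **The facts at the nodes** of one family. -/
theorem ndF_of {m J : ℕ} {F : Fam m J} {ec : ℕ → Fin m} {n K' s₁ Bn Kr : ℕ} {h C₁ : ℝ}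
    {L : ℕ → ℝ → ℝ → ℝ} {W : ℕ → ℝ} {b ρ η δ ζ α ϖ ζ' th κ' : ℝ} {T M P : ℕ} {dl τ : ℕ → ℝ}
    {sh : ℕ → ℕ} {lam gam : ℕ → ℝ} {e₀ : ℝ}
    {G : ℕ → PtT F → ℕ → MvPolynomial (Option (Fin m)) ℝ} {D : GDat F} {E : F.Ω → Prop}
    (hP : 1 ≤ P) (hα : α = b) (hζ : ζ' = ζ) (hPη : P * η = ζ) (hW : W 0 = ϖ) (hζ0 : 0 ≤ ζ)
    (hb0 : 0 ≤ b)
    (hOk : D.Ok (fun l => ec (l + 1)) (n + 1) Kr K' s₁ sh (up α J) (up ϖ J) (up ζ' J) M
      (fun _ _ => ⌊e₀ * J⌋₊) (BAL.gdS α ϖ ζ' (fun l y => L l y y) τ J) E)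
    (hOk2 : (D.nd (fun l => ec (l + 1)) (n + 1) sh (up ϖ J) (up ζ' J) M
      (BAL.gdS α ϖ ζ' (fun l y => L l y y) τ J) (fun _ _ _ => ())).Ok2 (n + 1) K' J (up α J)
      (up ϖ J) (up ζ' J) M lam gam κ' C₁ (Pool.Agent.H49.Ent.cond F.p E True))
    (hNF : NF0 (D.nd (fun l => ec (l + 1)) (n + 1) sh (up ϖ J) (up ζ' J) M
      (BAL.gdS α ϖ ζ' (fun l y => L l y y) τ J) (fun _ _ _ => ())) (n + 1) (up ζ' J) M Bn h C₁
      (Pool.Agent.H49.Ent.cond F.p E True))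
    (hsh : ∀ l, 1 ≤ l → l ≤ n + 1 → sh l ≤ up ζ' J) (hthδ : th ≤ δ)
    (hlev : ∀ v < M, ∀ l < n + 1, L l (α + v * ζ') (ϖ + v * ζ') =
      L l (ϖ + v * ζ') (ϖ + v * ζ') + (α + v * ζ' - (ϖ + v * ζ')))
    (hdl : ∀ l < n + 1, dl l ≤ τ l ∧ 0 ≤ dl l ∧ 2 * τ l ≤ th) (hδJ : 4 ≤ δ * J)
    (hup : up α J + (M + 1) * up ζ' J ≤ J)
    (hclo : ∀ v < M, ∀ a', ⌊(α + v * ζ') * J⌋₊ ≤ a' → a' ≤ J → ∀ ω, E ω → ∀ l, 1 ≤ l → l ≤ n + 1 →
      ∀ b : ℕ → ℝ,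
      Bx (tus a' (fun l => ⌊(L (l - 1) (α + v * ζ') (ϖ + v * ζ') - dl (l - 1)) * J⌋₊))
        (Gs (fun l => ec (l + 1)) (n + 1) a' (G (T + v * P)) (ptr F J ω)) l b →
      |eval b (Gs (fun l => ec (l + 1)) (n + 1) a' (G (T + v * P)) (ptr F J ω) l) -
        eval b (Gx (fun l => ec (l + 1)) (n + 1) (D.G v v) (ptr F J ω) l)| ≤
        2 ^ ⌊th * J⌋₊ / 2 ^ BAL.gdS α ϖ ζ' (fun l y => L l y y) τ J v v (l - 1)) :
    NdF F ec n K' s₁ Bn h C₁ (shL L) W b ρ η δ ζ T M P dl G E := by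
  subst hα
  subst hζ
  have hJ0 : (0 : ℝ) ≤ J := Nat.cast_nonneg J
  have hPη' : ∀ v : ℕ, (v : ℝ) * (P * η) = v * ζ' := fun v => by rw [hPη]
  refine ⟨D, fun _ _ => Unit, fun _ _ _ => (), Kr, up ϖ J, sh, fun _ _ => ⌊e₀ * J⌋₊,
    BAL.gdS α ϖ ζ' (fun l y => L l y y) τ J, lam, gam, κ', hOk, hOk2, hNF, hsh, fun v hv => ?_⟩
  have hlt : T + v * P < T + M * P := by
    have : v * P < M * P := Nat.mul_lt_mul_of_pos_right hv (by omega)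
    omega
  have hvζ : 0 ≤ (v : ℝ) * ζ' := by positivity
  refine ⟨fun l hl1 hl => ?_, fun ω hω => ?_⟩
  · obtain ⟨h1, h2, h3⟩ := hdl (l - 1) (by omega)
    have e1 : grn (shL L) W α η T (T + M * P) J dl (T + v * P) (l - 1) =
        ⌊(L (l - 1) (α + v * ζ') (ϖ + v * ζ') - dl (l - 1)) * J⌋₊ := by
      unfold grn
      rw [gra_lt hlt, grw_lt hlt, xo_node, hPη', hW]
      rfl
    have e2 : BAL.gdS α ϖ ζ' (fun l y => L l y y) τ J v v (l - 1) =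
        ⌊(L (l - 1) (α + v * ζ') (ϖ + v * ζ') - τ (l - 1)) * J⌋₊ := by
      unfold BAL.gdS
      rw [hlev v hv (l - 1) (by omega)]
    rw [e1, e2]
    have h4 : (L (l - 1) (α + v * ζ') (ϖ + v * ζ') - τ (l - 1)) * (J : ℝ) ≤
        (L (l - 1) (α + v * ζ') (ϖ + v * ζ') - dl (l - 1)) * J :=
      mul_le_mul_of_nonneg_right (by linarith) hJ0
    refine ⟨Nat.floor_le_floor h4, ?_⟩
    refine Nat.floor_le_of_le ?_
    push_cast
    have h5 := Nat.lt_floor_add_one ((L (l - 1) (α + v * ζ') (ϖ + v * ζ') - τ (l - 1)) * (J : ℝ))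
    have h6 := Nat.lt_floor_add_one (δ * J)
    have h7 : 2 * (τ (l - 1) * J) ≤ δ * J := by
      have := mul_le_mul_of_nonneg_right (h3.trans hthδ) hJ0
      linarith
    have h8 : 0 ≤ dl (l - 1) * J := mul_nonneg h2 hJ0
    have h9 : (L (l - 1) (α + v * ζ') (ϖ + v * ζ') - dl (l - 1)) * (J : ℝ) =
      (L (l - 1) (α + v * ζ') (ϖ + v * ζ') - τ (l - 1)) * J + τ (l - 1) * J -
        dl (l - 1) * J := by ring
    linarith
  · refine cloU_mono (BAL.cloU_nod (gD := fun l => BAL.gdS α ϖ ζ' (fun l y => L l y y) τ J v v l)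
      hv hP fun l hl1 hl b' hb => ?_) (Nat.floor_le_floor (mul_le_mul_of_nonneg_right hthδ hJ0))
    rw [hPη', hW] at hb
    refine hclo v hv (up α J + v * up ζ' J) ?_ ?_ ω hω l hl1 hl b' hb
    · refine Nat.floor_le_of_le ?_
      push_cast
      have h1 := up_ge α J
      have h2 := mul_le_mul_of_nonneg_left (up_ge ζ' J) (Nat.cast_nonneg v)
      linarith
    · have h1 : v * up ζ' J ≤ (M + 1) * up ζ' J := Nat.mul_le_mul_right _ (by omega)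
      omega

/-- **The rows of slope one**, from the facts of the kit. -/
theorem rowsJ_of {m n : ℕ} {S : PCl m} {ec : ℕ → Fin m} {L : ℕ → ℝ → ℝ → ℝ} {p : ℕ → Prop}
    [DecidablePred p] {σ : ℕ → ℝ} {g : ℝ} {W : Set ℝ} {Att : Set (ℝ × ℝ)} {ρJ E e' ρ' : ℝ}
    (hTm : TmH S) (hinj : Inj (fun l => ec (l + 1)) (n + 1)) (hlaw : ∀ i, Law (L i))
    (hge : ∀ i a w, 0 ≤ w → w ≤ a → a ≤ 1 → a ≤ L i a w)
    (hiso : ∀ l ≤ n, ∀ a w, 0 ≤ w → w ≤ a → a ≤ 1 → L l a w = min 1 (L l w w + (a - w)))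
    (hσn : σ (n + 1) = 1) (hσ1 : ∀ i, 1 ≤ σ i) (hg0 : 0 < g) (hg1 : g < 1) (hE : 0 ≤ E)
    (hρJ : 0 < ρJ) (htop : ∀ i ≤ n, L i g g + E < 1)
    (hfact : ∀ (s D K' s₁ : ℕ) (sh : ℕ → ℕ), 1 ≤ D → 1 ≤ K' → (∀ i ≤ n + 1, σ i ≤ s) →
      ∃ (Bn : ℕ) (h C₁ : ℝ), 1 ≤ Bn ∧ 0 < h ∧ h ≤ 1 ∧ 1 ≤ C₁ ∧
        FctJ S (IsCJ L n σ s g W Att) (KitJ (fun l => ec (l + 1)) n L σ D
          (vBal (fun l => ec (l + 1)) n L D) (vBal_her _ _ _ _)) K' s₁ sh Bn h C₁) :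
    RowsJ S ec n L p σ g W Att ρJ E e' ρ' := by
  intro s Rd c KH Sn ρ₀ L₀ hs hRd hc hSn hL₀ hρ₀
  have hs0 : (0 : ℝ) ≤ s := Nat.cast_nonneg s
  -- the margin
  obtain ⟨lam, hlam, hlam'⟩ : ∃ lam : ℝ, 0 < lam ∧ ∀ i ≤ n, L i g g + E + 2 * lam ≤ 1 := by
    obtain ⟨x, hx, h1⟩ := PrM.fset_small (range (n + 1))
      (Q := fun i x => L i g g + E + 2 * x ≤ 1) fun i hi => by
        have h2 := htop i (Nat.lt_succ_iff.1 (mem_range.1 hi))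
        exact ⟨(1 - (L i g g + E)) / 2, by linarith, fun e' _ h3 => by linarith⟩
    exact ⟨x, hx, fun i hi => h1 x hx le_rfl i (mem_range.2 (Nat.lt_succ_of_le hi))⟩
  -- the length of the paths
  obtain ⟨κ₀, hκ₀0, hκ₀1⟩ := exists_rat_btwn (show (0 : ℝ) < min (ρJ / 2) (g / 4) from
    lt_min (by positivity) (by positivity))
  have hκ₀ρ : (κ₀ : ℝ) ≤ ρJ / 2 := (hκ₀1.trans_le (min_le_left _ _)).le
  have hκ₀g : (κ₀ : ℝ) ≤ g / 4 := (hκ₀1.trans_le (min_le_right _ _)).le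
  obtain ⟨S₁, hS₁⟩ := exists_nat_ge (1 / (κ₀ : ℝ))
  obtain ⟨S₂, hS₂⟩ : ∃ S₂ : ℕ, S₂ = 2 * s + S₁ + 1 := ⟨_, rfl⟩
  have hS₂κ : (1 : ℝ) ≤ S₂ * κ₀ := by
    rw [div_le_iff₀ hκ₀0] at hS₁
    have h1 : (S₁ : ℝ) ≤ S₂ := by
      rw [hS₂]
      push_cast
      linarith
    exact hS₁.trans (mul_le_mul_of_nonneg_right h1 hκ₀0.le)
  obtain ⟨D, sh, K', s₁, C, hD, hK', hC, hgrd⟩ := BAL.grd_bas m (n + 1) S₂ (by omega) (by omega)
  obtain ⟨Bn, h, C₁, hBn, hh0, hh1, hC₁, hf⟩ := hfact s D K' s₁ sh hD hK' hs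
  obtain ⟨cr, C₃, hcr, hC₃, hrow⟩ := rows_node n KH K' s₁ Bn h C₁ hBn hh0.le hh1 hC₁
  have hBn1 : (1 : ℝ) ≤ Bn := by exact_mod_cast hBn
  refine ⟨1 / (2 * Bn), h, C₃, by positivity, ?_, hh0, hh1, by linarith, fun M U hU => ?_⟩
  · rw [div_le_one (by positivity)]
    linarith
  obtain ⟨N₁, hf⟩ := hf M
  refine ⟨N₁, fun N hN hN1 ω hωe hω0 hωM => ?_⟩
  obtain ⟨θ₀, hθ₀, hf⟩ := hf N hN
  have hcr1 : (1 : ℝ) ≤ cr := by exact_mod_cast hcr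
  have hM0 : (0 : ℝ) ≤ M := Nat.cast_nonneg M
  have hω1 : (ω : ℝ) ≤ 1 := by nlinarith
  refine ⟨1, ω / cr, hω1, by positivity, fun κ hκ0 hκ1 hκω => ?_⟩
  have hcrκ : cr * κ ≤ ω := by
    rw [le_div_iff₀ (by positivity)] at hκ1
    linarith
  obtain ⟨θ, hθ⟩ : ∃ θ : ℝ, θ = min (min θ₀ 1) (κ / ω) := ⟨_, rfl⟩
  have hθ0 : 0 < θ := by rw [hθ]; exact lt_min (lt_min hθ₀ one_pos) (by positivity)
  have hθ1 : θ ≤ θ₀ := by rw [hθ]; exact (min_le_left _ _).trans (min_le_left _ _)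
  have hθ2 : θ ≤ 1 := by rw [hθ]; exact (min_le_left _ _).trans (min_le_right _ _)
  have hθ3 : θ * ω ≤ κ := by
    have : θ ≤ κ / ω := by rw [hθ]; exact min_le_right _ _
    rwa [le_div_iff₀ hω0] at this
  obtain ⟨ε₂, hε₂, hf⟩ := hf θ hθ0 hθ1
  obtain ⟨P₂, hP₂⟩ := exists_nat_ge (2 * s * ω / κ : ℝ)
  refine ⟨P₂, fun P hPP hP1 => ?_⟩
  have hP0 : (0 : ℝ) < P := by exact_mod_cast hP1
  have hsP : s * (ω / P) ≤ κ / 2 := by
    have h1 : (2 * s * ω / κ : ℝ) ≤ P := hP₂.trans (by exact_mod_cast hPP)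
    rw [div_le_iff₀ hκ0] at h1
    rw [mul_div_assoc', div_le_iff₀ hP0]
    linarith
  obtain ⟨ε₁, hε₁⟩ : ∃ ε₁ : ℝ, ε₁ = min (min ε₂ 1) (min (κ / 4) (θ * ω / (4 * C))) := ⟨_, rfl⟩
  have hC0 : 0 < C := one_pos.trans_le hC
  have hε₁0 : 0 < ε₁ := by
    rw [hε₁]
    exact lt_min (lt_min hε₂ one_pos) (lt_min (by positivity) (by positivity))
  have hε₁2 : ε₁ ≤ ε₂ := by rw [hε₁]; exact (min_le_left _ _).trans (min_le_left _ _)
  have hε₁1 : ε₁ ≤ 1 := by rw [hε₁]; exact (min_le_left _ _).trans (min_le_right _ _)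
  have hε₁κ : ε₁ ≤ κ / 4 := by rw [hε₁]; exact (min_le_right _ _).trans (min_le_left _ _)
  have hε₁C : 4 * (C * ε₁) ≤ θ * ω := by
    have : ε₁ ≤ θ * ω / (4 * C) := by rw [hε₁]; exact (min_le_right _ _).trans (min_le_right _ _)
    rw [le_div_iff₀ (by positivity)] at this
    linarith
  obtain ⟨K₀, hK₀⟩ := isCJ_of (L := L) (n := n) (σ := σ) (s := s) (g := g) (W := W) (Att := Att) ε₂
  obtain ⟨r₁, hr₁⟩ : ∃ r₁ : ℝ, r₁ = min (min ε₂ (ρJ / 4)) (min (lam / (2 * s + 4)) (g / 8)) :=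
    ⟨_, rfl⟩
  refine ⟨ε₁, r₁, K₀, hε₁0, ?_, fun r b hr hrr hbg hcel hG T hT1 hT2 hT3 => ?_⟩
  · rw [hr₁]
    exact lt_min (lt_min hε₂ (by positivity)) (lt_min (by positivity) (by positivity))
  intro Λ o c₀ e₀ θ' V Dd X₀ q ε₀ hΛ hCE hRl
  have q1 : r ≤ ε₂ := (hrr.trans_le (by
    rw [hr₁]; exact (min_le_left _ _).trans (min_le_left _ _))).le
  have q2 : r ≤ ρJ / 4 := (hrr.trans_le (by
    rw [hr₁]; exact (min_le_left _ _).trans (min_le_right _ _))).le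
  have q3 : (2 * s + 4) * r ≤ lam := by
    have h1 : r ≤ lam / (2 * s + 4) := (hrr.trans_le (by
      rw [hr₁]; exact (min_le_right _ _).trans (min_le_left _ _))).le
    rw [le_div_iff₀ (by positivity)] at h1
    linarith
  have q4 : 8 * r ≤ g := by
    have h1 : r ≤ g / 8 := (hrr.trans_le (by
      rw [hr₁]; exact (min_le_right _ _).trans (min_le_right _ _))).le
    linarith
  have H : CJ L n σ s g E lam b r ε₁ := ⟨hcel, hlaw, hge, hiso, hσn, hσ1, hs, hr, hbg, hg0, hg1,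
    hE, hlam, hlam', hε₁1, q3, q4⟩
  obtain ⟨ζ, hζ⟩ : ∃ ζ : ℝ, ζ = msh (r / 64) N M := ⟨_, rfl⟩
  have hζω : ζ = ω * r := by rw [hζ, hωe]; exact msh_om hN1 M r
  have hωr : 0 < ω * r := mul_pos hω0 hr
  have hζ0 : 0 < ζ := by rw [hζω]; exact hωr
  have hth0 : 0 < θ * ζ := mul_pos hθ0 hζ0
  have hth1 : θ * ζ ≤ κ * r := by
    rw [hζω, ← mul_assoc]
    exact mul_le_mul_of_nonneg_right hθ3 hr.le
  have hgr := H.grr hω0 hωM (ε' := 2 * ε₁ * r) (th := θ * ζ) (by positivity) hth0 (by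
    rw [hζω]
    exact mul_le_of_le_one_left hωr.le hθ2)
  rw [← hζω] at hgr
  have hCε : C * (2 * ε₁ * r) < θ * ζ := by
    rw [hζω]
    have h1 := mul_le_mul_of_nonneg_right hε₁C hr.le
    have e1 : 4 * (C * ε₁) * r = 2 * (C * (2 * ε₁ * r)) := by ring
    have h2 : 0 < C * (2 * ε₁ * r) := by positivity
    rw [e1] at h1
    linarith
  obtain ⟨φ, μ, e₀', e₁', de, τ, hφ, hμ, hτ, hde, he1, he2, he3, hgrd⟩ := hgrd M hgr hCε
  -- the paths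
  obtain ⟨b1, b2⟩ := abs_le.1 hbg
  have hlo := hcel.lo
  have hhi := hcel.hi
  have hb7 := H.b0
  have hMζ : (M : ℝ) * ζ + 2 * ζ ≤ r / 8 := by
    rw [hζω]
    have h1 := mul_le_mul_of_nonneg_right hωM hr.le
    have e1 : (M + 2) * (ω : ℝ) * r = M * (ω * r) + 2 * (ω * r) := by ring
    rw [e1] at h1
    linarith
  have hMζ0 : 0 ≤ (M : ℝ) * ζ := mul_nonneg hM0 hζ0.le
  have hjζ : ∀ j : ℕ, j ≤ M → 0 ≤ (j : ℝ) * ζ ∧ (j : ℝ) * ζ ≤ M * ζ := fun j hj =>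
    ⟨mul_nonneg (Nat.cast_nonneg j) hζ0.le,
      mul_le_mul_of_nonneg_right (by exact_mod_cast hj) hζ0.le⟩
  obtain ⟨Np, hNp, hpth⟩ := BAL.pth_cell (S := S₂) (v₀ := g / 4) (ϖ := b - r / 8) (ζ := ζ)
    (κ₀ := κ₀) (M := M) hcel (fun i _ => hlaw i)
    (fun i _ z h1 h2 => hge i z z h1 le_rfl (by linarith))
    (fun i hi => H.lt_one hi (by linarith) (by linarith)) hr hμ le_rfl hζ0.le (by linarith)
    (fun i hi => ⟨hσ1 _, hs _ (by omega)⟩) (by omega) (by positivity) hκ₀0 (by linarith) hS₂κ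
  obtain ⟨φ', hφ'0, hφ'1, hRl'⟩ := Rls.phi hRl hφ
  obtain ⟨ax, hax⟩ : ∃ ax : ℕ → ℝ, ax = fun k => b - r / 8 + (k / (Np + 1) : ℕ) * ζ -
    BAL.mshP κ₀ Np (k % (Np + 1)) := ⟨_, rfl⟩
  refine ⟨(M + 1) * (Np + 1), ax, ax, φ', hφ'0, fun k hk => ?_,
    fun K dl δl Ka Kc hKa hKc hdl => ?_⟩
  · have hk1 : k / (Np + 1) ≤ M :=
      Nat.lt_succ_iff.1 ((Nat.div_lt_iff_lt_mul (Nat.succ_pos Np)).2 hk)
    have hk2 : k % (Np + 1) ≤ Np := Nat.lt_succ_iff.1 (Nat.mod_lt _ (Nat.succ_pos Np))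
    obtain ⟨x, hx⟩ := BAL.mshP_rat κ₀ Np (k % (Np + 1))
    obtain ⟨hm1, hm2⟩ := BAL.mshP_mem hκ₀0.le hk2
    obtain ⟨j1, j2⟩ := hjζ _ hk1
    have e1 : ax k = b - (x : ℝ) - ((1 / 8 - (k / (Np + 1) : ℕ) * ω : ℚ) : ℝ) * r := by
      rw [hax]
      show b - r / 8 + (k / (Np + 1) : ℕ) * ζ - BAL.mshP κ₀ Np (k % (Np + 1)) = _
      rw [hx, hζω]
      push_cast
      ring
    have e2 : ax k = b - r / 8 + (k / (Np + 1) : ℕ) * ζ - BAL.mshP κ₀ Np (k % (Np + 1)) := by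
      rw [hax]
    have h1 := hG.2 x (1 / 8 - (k / (Np + 1) : ℕ) * ω) x (1 / 8 - (k / (Np + 1) : ℕ) * ω)
    rw [← e1] at h1
    have h2 : |ax k - g| ≤ ρJ := by
      rw [e2, abs_le]
      constructor <;> linarith
    exact ⟨h1 (by rw [e2]; linarith) le_rfl (by rw [e2]; linarith), le_rfl, h2, h2⟩
  obtain ⟨K₁, hK₁, hgrd⟩ := hgrd (fun _ => Np) (fun _ => BAL.mshP κ₀ Np) hpth K Ka hKa
  have hW0 : lnW (Rd + 2) b (lx Rd * r) 0 = b - r / 8 := by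
    rw [lnW_zero, ← mul_assoc, lx_mul]
    ring
  have hPη : (P : ℝ) * (ω / P * r) = ω * r := by field_simp
  have hη0 : 0 < (ω : ℝ) / P * r := by positivity
  have hηω : (ω : ℝ) / P * r ≤ ω * r := by
    rw [← hPη]
    have h1 : (1 : ℝ) ≤ P := by exact_mod_cast hP1
    exact le_mul_of_one_le_left hη0.le h1
  obtain ⟨J₀, hrow⟩ := hrow K c Λ U Rd Sn hSn hc hΛ hU hCE hRl' (by
      rw [← mul_assoc]
      exact mul_le_mul_of_nonneg_right hcrκ hr.le) (fun i hi1 hi v hv => by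
      obtain ⟨i, rfl⟩ : ∃ i', i = i' + 1 := ⟨i - 1, by omega⟩
      obtain ⟨v1, v2⟩ := hjζ v hv.le
      rw [hζω] at v1 v2
      rw [hW0]
      rw [hζω] at hMζ
      refine H.stp hη0.le (x := xe P (ω / P * r) v) (w := v * (ω * r)) ?_ ?_ ?_ ?_ (by omega)
      · unfold xe
        rw [hPη]
      · unfold xe
        rw [hPη]
        linarith
      · linarith
      · have h1 := mul_le_mul_of_nonneg_right hsP hr.le
        have h2 := mul_le_mul_of_nonneg_right hε₁κ hr.le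
        have e1 : s * ((ω : ℝ) / P * r) = s * (ω / P) * r := by ring
        rw [e1]
        linarith)
  have hnear := H.near hN1 (θ := θ) (e₀ := e₀') (τ := τ) (by rw [← hωe]; exact hωM) hθ2
    (fun l hl => lt_of_lt_of_le hφ (hτ l hl).1)
    (fun l hl => by rw [← hωe, ← hζω]; exact (hτ l hl).2) (he1.trans he2)
    (by rw [← hωe, ← hζω]; exact he3)
  obtain ⟨Cf, τf, hCf, hτf, hfb⟩ := hf (r, b) (hK₀ r b hr q1 hbg
    (hcel.mono (mul_le_mul_of_nonneg_right hε₁2 hr.le)) hG) _ _ hnear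
  have hTT : T + M * P ≤ (Rd + 2 + 1) * (T + M * P) := Nat.le_mul_of_pos_left _ (by omega)
  have hlev : ∀ v < M, ∀ l < n + 1, L l (b - r / 8 + r / 8 + v * ζ) (b - r / 8 + v * ζ) =
      L l (b - r / 8 + v * ζ) (b - r / 8 + v * ζ) + (b - r / 8 + r / 8 + v * ζ -
        (b - r / 8 + v * ζ)) := fun v hv l hl => by
    obtain ⟨v1, v2⟩ := hjζ v hv.le
    exact H.lev (by omega) (by linarith) (by linarith) (by linarith)
  have hgrdB := hgrd (Sc := S) (c := fun l => ec (l + 1))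
    (N := (Rd + 2 + 1) * (T + M * P) + (M + 1) * (Np + 1))
    (a := bga b (ω / P * r) T (T + M * P) ((Rd + 2 + 1) * (T + M * P)) ax)
    (w := bgw (lnW (Rd + 2) b (lx Rd * r)) (ω / P * r) T (T + M * P)
      ((Rd + 2 + 1) * (T + M * P)) ax) (dl := dl) (dsl := δl)
    (idxb := fun j k => (Rd + 2 + 1) * (T + M * P) + ix (Np + 1) j k)
    (idxn := fun v => T + v * P) hTm hinj
    (fun l hl => by
      obtain ⟨d1, d2, d3, d4⟩ := hdl l (by omega)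
      exact ⟨d1.le, d2.trans hφ'1, d4.trans hφ'1⟩)
    (fun j hj k hk => by
      have hk' : k < Np + 1 := by omega
      have h1 : ix (Np + 1) j k < (M + 1) * (Np + 1) := by
        unfold ix
        have h2 : j * (Np + 1) ≤ M * (Np + 1) := Nat.mul_le_mul_right _ hj
        have h3 : (M + 1) * (Np + 1) = M * (Np + 1) + (Np + 1) := by ring
        omega
      have h2 : ax (ix (Np + 1) j k) = b - r / 8 + j * ζ - BAL.mshP κ₀ Np k := by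
        rw [hax]
        show b - r / 8 + (ix (Np + 1) j k / (Np + 1) : ℕ) * ζ -
          BAL.mshP κ₀ Np (ix (Np + 1) j k % (Np + 1)) = _
        rw [ix_div hk', ix_mod hk']
      refine ⟨by omega, ?_, ?_⟩
      · show bga b (ω / P * r) T (T + M * P) ((Rd + 2 + 1) * (T + M * P)) ax
          ((Rd + 2 + 1) * (T + M * P) + ix (Np + 1) j k) = _
        unfold bga
        rw [if_neg (by omega), Nat.add_sub_cancel_left, h2]
      · show bgw (lnW (Rd + 2) b (lx Rd * r)) (ω / P * r) T (T + M * P)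
          ((Rd + 2 + 1) * (T + M * P)) ax ((Rd + 2 + 1) * (T + M * P) + ix (Np + 1) j k) = _
        unfold bgw
        rw [if_neg (by omega), Nat.add_sub_cancel_left, h2])
    (fun v hv => by
      have h1 : v * P < M * P := Nat.mul_lt_mul_of_pos_right hv (by omega)
      refine ⟨by omega, ?_, ?_⟩
      · show bga b (ω / P * r) T (T + M * P) ((Rd + 2 + 1) * (T + M * P)) ax (T + v * P) = _
        unfold bga
        rw [if_pos (by omega), gra_lt (by omega), xo_node, hPη, hζω]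
        ring
      · show bgw (lnW (Rd + 2) b (lx Rd * r)) (ω / P * r) T (T + M * P)
          ((Rd + 2 + 1) * (T + M * P)) ax (T + v * P) = _
        unfold bgw
        rw [if_pos (by omega), grw_lt (by omega), xo_node, hPη, hζω, hW0])
    hlev
  -- large resolutions
  obtain ⟨J₁, hJ₁⟩ := lin_ev (a := 1) one_pos hζ0 (((range (n + 2)).sup sh : ℕ) : ℝ)
  obtain ⟨J₂, hJ₂⟩ := exists_nat_ge (4 / (κ * r))
  have hK₁0 : 0 < K₁ := one_pos.trans_le hK₁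
  have hCf0 : 0 < Cf := one_pos.trans_le hCf
  refine ⟨τf, K₁ * Cf, hτf, by positivity, Bas.mono (max J₀ (max J₁ J₂))
    (hgrdB.and (NL.Bas.frac hfb (c := 1 / (Ka * K₁)) (by positivity))) ?_⟩
  rintro J hJ F A₀ ⟨h1, h2⟩ A G Hh hAA₀ hPA hch hrec
  have hJ₀ : J₀ ≤ J := (le_max_left _ _).trans hJ
  have hJ₁' : J₁ ≤ J := ((le_max_left _ _).trans (le_max_right _ _)).trans hJ
  have hJ₂' : J₂ ≤ J := ((le_max_right _ _).trans (le_max_right _ _)).trans hJ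
  obtain ⟨k1, k2, k3, Dt, B₁, G₀, H₀, hB₁, hPB₁, hOk, hBal, hclo⟩ := h1 A G Hh hAA₀ hPA hch.mch
    hrec
  have hκr : 0 < κ * r := mul_pos hκ0 hr
  have hδJ : 4 ≤ κ * r * J := by
    have h3 : 4 / (κ * r) ≤ (J : ℝ) := hJ₂.trans (by exact_mod_cast hJ₂')
    rw [div_le_iff₀ hκr] at h3
    linarith
  have hsh : ∀ l, 1 ≤ l → l ≤ n + 1 → sh l ≤ up ζ J := by
    intro l hl1 hl
    have h3 : sh l ≤ (range (n + 2)).sup sh := Finset.le_sup (mem_range.2 (by omega))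
    have h4 := hJ₁ J hJ₁'
    rw [one_mul] at h4
    have h5 : (range (n + 2)).sup sh ≤ up ζ J := by exact_mod_cast h4
    omega
  subst hζ
  have hVB : vBal (fun l => ec (l + 1)) n L D (r, b) N M θ J F Dt B₁ := ⟨_, _, G₀, H₀, hBal⟩
  have hfr : 1 / (Ka * K₁) * Pe F.p A₀ ≤ Pe F.p B₁ := by
    rw [one_div, inv_mul_le_iff₀ (by positivity)]
    calc Pe F.p A₀ ≤ Ka * Pe F.p A := hPA
      _ ≤ Ka * (K₁ * Pe F.p B₁) := mul_le_mul_of_nonneg_left hPB₁ hKa.le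
      _ = Ka * K₁ * Pe F.p B₁ := by ring
  have hB₁A₀ : Sub B₁ A₀ := fun ω hω => hAA₀ ω (hB₁ ω hω)
  obtain ⟨B₂, m1, m2, m3⟩ := h2 B₁ hB₁A₀ hfr Dt ⟨hOk, hVB⟩
  refine ⟨B₂, fun ω hω => hB₁ ω (m1 ω hω), ?_, ?_⟩
  · calc Pe F.p A ≤ K₁ * Pe F.p B₁ := hPB₁
      _ ≤ K₁ * (Cf * Pe F.p B₂) := mul_le_mul_of_nonneg_left m2 hK₁0.le
      _ = K₁ * Cf * Pe F.p B₂ := by ring
  refine hrow J hJ₀ (A₀ := A₀) (A := B₂) (dl := dl) (δm := fun l => ⌊δl l * J⌋₊) (H := Hh)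
    ((mch_bg hch.mch).sub fun ω hω => hB₁ ω (m1 ω hω)) hinj (fun l hl => ?_) (fun l hl => ?_)
    (fun E₁ hE₁ hPE => ?_)
  · obtain ⟨d1, d2, -⟩ := hdl l (by omega)
    exact ⟨d1.le, d2⟩
  · obtain ⟨-, -, d3, d4⟩ := hdl l (by omega)
    exact Nat.floor_le_floor (mul_le_mul_of_nonneg_right d4 (Nat.cast_nonneg J))
  have hPE' : Real.exp (-(τf * J)) * Pe F.p B₁ ≤ Pe F.p E₁ :=
    (mul_le_mul_of_nonneg_left (Pe_mono F.isLaw hB₁A₀) (Real.exp_pos _).le).trans hPE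
  obtain ⟨f1, f2⟩ := m3 E₁ hE₁ hPE'
  have hEB₁ : Sub E₁ B₁ := fun ω hω => m1 ω (hE₁ ω hω)
  exact ndF_of (th := θ * msh (r / 64) N M) hP1 (sub_add_cancel _ _) hζω hPη hW0 hωr.le
    (by linarith) (GDat.Ok.sub hOk hEB₁) f1 f2 hsh hth1 hlev
    (fun l hl => by
      obtain ⟨d1, d2, -⟩ := hdl l (by omega)
      exact ⟨(d2.trans hφ'1).trans (hτ l hl).1, d1.le, (hτ l hl).2⟩) hδJ k2
    (fun v hv a' ha1 ha2 ω hω => hclo v hv a' ha1 ha2 ω (hEB₁ ω hω))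

end Pool.STAT
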