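import Pool.Agent.H82.STAT.Gri
import Pool.Agent.H33.TRC.LabF

/-!
# Paths in a finite poset of chains

`PosN`: the numbers of the points. `Pix`: a path of indices. `pth`, `endd`: the path of raw levels
and its ends. `endd_in`, `fnr_pth`: the inputs of `grd_hyp` from chains on several natural boxes.
-/

set_option autoImplicit false

namespace Pool.STAT.GRD

open Finset MvPolynomial
open Pool.Agent.H49.Ent Pool.Agent.H32.Dense Pool.STK Pool.KS3 Pool.KA Pool.KSAT Pool.PB Pool.GEN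
open Pool.STAT.CLO Pool.STAT.CDat Pool.TRC Pool.STAT.DPP Pool.K2S

variable {d J : ℕ}

/-- The raw levels of a list of chains. -/
noncomputable def pth (F : Fam d J) (c : ℕ → Fin d) (n N a₀ : ℕ) (al : ℕ → ℕ) (g : ℕ → ℕ → ℕ)
    (G : ℕ → PtT F → ℕ → MvPolynomial (Option (Fin d)) ℝ) : Path F :=
  ⟨shl a₀ al, jg g, jG F c n N a₀ al G⟩

/-- The end `k` (level `k + 1`) of a list of chains. -/
noncomputable def endd (F : Fam d J) (c : ℕ → Fin d) (n N a₀ wz : ℕ) (al om : ℕ → ℕ)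
    (g : ℕ → ℕ → ℕ) (G : ℕ → PtT F → ℕ → MvPolynomial (Option (Fin d)) ℝ)
    (H : ℕ → LnT F → ℕ → MvPolynomial (Option (Fin d)) ℝ) (k : ℕ) : EndD F where
  π := pth F c n N a₀ al g G
  wp := shl wz om
  HH := jH F c n N H
  mm := N
  j := k + 1
  wk := om k
  Gk := G k
  Hk := H k
  gk := g k

/-- The condition for an end, from `Jat`. -/
theorem endd_in (n K : ℕ) : ∃ s₀ : ℕ, 1 ≤ s₀ ∧ ∀ {d J : ℕ} {F : Fam d J} {c : ℕ → Fin d}
    {N S m : ℕ} {al om : ℕ → ℕ} {ee : ℕ} {g : ℕ → ℕ → ℕ} {u₀ h u a₀ wz : ℕ} {A : F.Ω → Prop}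
    {G : ℕ → PtT F → ℕ → MvPolynomial (Option (Fin d)) ℝ}
    {H : ℕ → LnT F → ℕ → MvPolynomial (Option (Fin d)) ℝ}, Jat F c n K N al om ee g u₀ A G H →
    Inj c n → TRC.Path n N J al om g a₀ wz h u → u₀ + s₀ ≤ u → N ≤ m → ∀ k < N,
    TRC.Slp n S (shl a₀ al) (jg g) u (k + 1) →
    (endd F c n N a₀ wz al om g G H k).In c n S K m h u s₀ ee A := by
  obtain ⟨s₀, hs₀, hlvl⟩ := lvl_of n K
  refine ⟨s₀, hs₀, ?_⟩
  intro d J F c N S m al om ee g u₀ h u a₀ wz A G H hJ hc P hu hm k hk hs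
  exact
    { lvl := hlvl d J N F c al om ee g u₀ h u a₀ wz A G H hJ hc P.alJ P.a0J P.w0 P.oa P.om1
        P.ini P.mesh P.law P.law0 hu
      mm_le := hm
      j_le := hk
      slp := hs
      ok := hJ.ok k hk
      G_eq := jG_succ (a₀ := a₀) hk
      g_eq := fun i _ => by
        show g k i = g k (i + 1 - 1)
        rw [Nat.add_sub_cancel] }

/-- **The numbers of the points** of a finite poset of chains. -/
structure PosN (n Np J : ℕ) (R : ℕ → ℕ → Prop) (a w : ℕ → ℕ) (g : ℕ → ℕ → ℕ) (a₀ wz u : ℕ) :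
    Prop where
  aJ : ∀ k < Np, a k ≤ J
  wa : ∀ k < Np, w k ≤ a k
  ini : ∀ k < Np, a₀ ≤ a k ∧ wz ≤ w k
  a0J : a₀ ≤ J
  w0 : wz ≤ a₀
  le : ∀ k < Np, ∀ k' < Np, R k k' → a k ≤ a k' ∧ w k ≤ w k'
  law : ∀ k < Np, ∀ k' < Np, R k k' → ∀ l < n, g k l + a k' ≤ g k' l + a k + u ∧ g k l ≤ g k' l
  law0 : ∀ k < Np, ∀ l < n, a k ≤ g k l + a₀ + u

/-- **A path of indices** of length `N`, mesh `h`. -/
structure Pix (Np N : ℕ) (R : ℕ → ℕ → Prop) (a : ℕ → ℕ) (a₀ h : ℕ) (idx : ℕ → ℕ) : Prop where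
  lt : ∀ k < N, idx k < Np
  R : ∀ k' < N, ∀ k < k', R (idx k) (idx k')
  ini : 0 < N → a (idx 0) ≤ a₀ + h
  mesh : ∀ k, k + 1 < N → a (idx (k + 1)) ≤ a (idx k) + h

theorem PosN.path {n Np N : ℕ} {R : ℕ → ℕ → Prop} {a w : ℕ → ℕ} {g : ℕ → ℕ → ℕ}
    {a₀ wz u h : ℕ} {idx : ℕ → ℕ} (P : PosN n Np J R a w g a₀ wz u)
    (I : Pix Np N R a a₀ h idx) : TRC.Path n N J (fun k => a (idx k)) (fun k => w (idx k))
      (fun k => g (idx k)) a₀ wz h u where
  alJ k hk := P.aJ _ (I.lt k hk)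
  a0J := P.a0J
  w0 := P.w0
  oa k hk := P.wa _ (I.lt k hk)
  om1 k hk := (P.le _ (I.lt k (by omega)) _ (I.lt (k + 1) hk) (I.R _ hk _ (by omega))).2
  ini hN := ⟨(P.ini _ (I.lt 0 hN)).2, (P.ini _ (I.lt 0 hN)).1, I.ini hN⟩
  mesh k hk := ⟨(P.le _ (I.lt k (by omega)) _ (I.lt (k + 1) hk) (I.R _ hk _ (by omega))).1,
    I.mesh k hk⟩
  law k hk k' hk' l hl := by
    rcases Nat.lt_or_ge k' k with h1 | h1
    · exact P.law _ (I.lt k' (by omega)) _ (I.lt k hk) (I.R k hk k' h1) l hl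
    · obtain rfl : k' = k := by omega
      exact ⟨by omega, le_rfl⟩
  law0 k hk l hl := P.law0 _ (I.lt k hk) l hl

/-- A list with a last element. -/
def con {α : Type*} (j : ℕ) (x : ℕ → α) (y : α) (k : ℕ) : α := if k ≤ j then x k else y

/-- **The natural box of a finer point is finer** than all the levels of a path. -/
theorem fnr_pth (n K : ℕ) : ∃ s₀ : ℕ, 1 ≤ s₀ ∧ ∀ {d J : ℕ} {F : Fam d J} {c : ℕ → Fin d}
    {Np : ℕ} {R : ℕ → ℕ → Prop} {a w : ℕ → ℕ} {ee : ℕ} {g : ℕ → ℕ → ℕ} {δ : ℕ → ℕ}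
    {A : F.Ω → Prop} {G : ℕ → PtT F → ℕ → MvPolynomial (Option (Fin d)) ℝ}
    {H : ℕ → LnT F → ℕ → MvPolynomial (Option (Fin d)) ℝ} {u₀ u a₀ wz : ℕ},
    Pool.CHT.MCh F c n (fun _ => K) Np R a w ee g δ A G H → Inj c n →
    PosN n Np J R a w g a₀ wz u → (∀ l < n, δ l ≤ u₀) → u₀ + s₀ ≤ u →
    ∀ (idx idx' : ℕ → ℕ) (N N' j j' : ℕ), j < N → j' < N' → (∀ k ≤ j, idx k < Np) →
      idx' j' < Np → (∀ k' ≤ j, ∀ k < k', R (idx k) (idx k')) →
      (∀ k ≤ j, R (idx k) (idx' j')) →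
      Fnr (pth F c n N a₀ (fun k => a (idx k)) (fun k => g (idx k)) (fun k => G (idx k)))
        (pth F c n N' a₀ (fun k => a (idx' k)) (fun k => g (idx' k)) (fun k => G (idx' k)))
        n u (j + 1) (j' + 1) A := by
  obtain ⟨s₀, hs₀, hlvl⟩ := lvl_of n K
  refine ⟨s₀, hs₀, ?_⟩
  intro d J F c Np R a w ee g δ A G H u₀ u a₀ wz hM hc P hδ hu idx idx' N N' j j' hj hj' hlt hlt'
    hR hR'
  obtain ⟨ix, hix⟩ : ∃ ix : ℕ → ℕ, ix = con j idx (idx' j') := ⟨_, rfl⟩
  have hi1 : ∀ k ≤ j, ix k = idx k := fun k hk => by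
    rw [hix]
    exact if_pos hk
  have hi2 : ix (j + 1) = idx' j' := by
    rw [hix]
    exact if_neg (by omega)
  have hI : Pix Np (j + 2) R a a₀ J ix :=
    { lt := fun k hk => by
        rcases Nat.lt_or_ge j k with h | h
        · obtain rfl : k = j + 1 := by omega
          rw [hi2]
          exact hlt'
        · rw [hi1 k h]
          exact hlt k h
      R := fun k' hk' k hk => by
        rw [hi1 k (by omega)]
        rcases Nat.lt_or_ge j k' with h | h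
        · obtain rfl : k' = j + 1 := by omega
          rw [hi2]
          exact hR' k (by omega)
        · rw [hi1 k' h]
          exact hR k' h k hk
      ini := fun _ => by
        rw [hi1 0 (Nat.zero_le _)]
        have := P.aJ _ (hlt 0 (Nat.zero_le _))
        omega
      mesh := fun k hk => by
        have h1 : a (ix (k + 1)) ≤ J := by
          rcases Nat.lt_or_ge j (k + 1) with h | h
          · obtain rfl : k = j := by omega
            rw [hi2]
            exact P.aJ _ hlt'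
          · rw [hi1 _ h]
            exact P.aJ _ (hlt _ h)
        omega }
  have hP := P.path hI
  have hJ : Jat F c n K (j + 2) (fun k => a (ix k)) (fun k => w (ix k)) ee (fun k => g (ix k)) u₀
      A (fun k => G (ix k)) (fun k => H (ix k)) := jat_of_mch hM hI.lt hI.R hδ
  have hL := hlvl d J (j + 2) F c _ _ ee _ u₀ J u a₀ wz A _ _ hJ hc hP.alJ hP.a0J hP.w0 hP.oa
    hP.om1 hP.ini hP.mesh hP.law hP.law0 hu
  -- the levels of the three lists
  have e1 : ∀ k ≤ j, ∀ y, jG F c n (j + 2) a₀ (fun k => a (ix k)) (fun k => G (ix k)) (k + 1) y =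
      Gs c n (a (idx k)) (G (idx k)) y := fun k hk y => by
    rw [jG_succ (by omega), hi1 k hk]
  have e2 : ∀ y, jG F c n (j + 2) a₀ (fun k => a (ix k)) (fun k => G (ix k)) (j + 1 + 1) y =
      Gs c n (a (idx' j')) (G (idx' j')) y := fun y => by
    rw [jG_succ (by omega), hi2]
  have e3 : ∀ y, jG F c n N' a₀ (fun k => a (idx' k)) (fun k => G (idx' k)) (j' + 1) y =
      Gs c n (a (idx' j')) (G (idx' j')) y := fun y => by
    rw [jG_succ hj']
  have e4 : ∀ k ≤ j, ∀ y, jG F c n N a₀ (fun k => a (idx k)) (fun k => G (idx k)) (k + 1) y =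
      Gs c n (a (idx k)) (G (idx k)) y := fun k hk y => by
    rw [jG_succ (by omega)]
  refine
    { a_le := ?_
      g_le := fun k hk l hl1 hl => ?_
      uni := fun ω hω k hk l hl1 hl b hb => ?_ }
  · exact (P.le _ (hlt j le_rfl) _ hlt' (hR' j le_rfl)).1
  · rcases k with _ | k
    · exact Nat.zero_le _
    · exact (P.law _ (hlt k (by omega)) _ hlt' (hR' k (by omega)) (l - 1) (by omega)).2
  · have h1 := hL.uni ω hω (j + 1 + 1) le_rfl k (by omega) l hl1 hl b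
    rw [e2] at h1
    have h2 : Bx (tus (shl a₀ (fun k => a (ix k)) (j + 1 + 1)) (jg (fun k => g (ix k)) (j + 1 + 1)))
        (Gs c n (a (idx' j')) (G (idx' j')) (ptr F J ω)) l b := by
      intro x hx
      have h3 := hb x hx
      have h4 : (pth F c n N' a₀ (fun k => a (idx' k)) (fun k => g (idx' k))
          (fun k => G (idx' k))).G (j' + 1) (ptr F J ω) =
          Gs c n (a (idx' j')) (G (idx' j')) (ptr F J ω) := e3 _
      rw [h4] at h3
      refine h3.trans (le_of_eq ?_)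
      rcases Nat.eq_zero_or_pos x with rfl | hx1
      · rw [tus_zero, tus_zero]
        show (1 : ℝ) / 2 ^ a (idx' j') = 1 / 2 ^ a (ix (j + 1))
        rw [hi2]
      · rw [tus_pos _ _ hx1, tus_pos _ _ hx1]
        show (1 : ℝ) / 2 ^ g (idx' j') (x - 1) = 1 / 2 ^ g (ix (j + 1)) (x - 1)
        rw [hi2]
    have h5 := h1 h2
    show |eval b (jG F c n N' a₀ (fun k => a (idx' k)) (fun k => G (idx' k)) (j' + 1)
      (ptr F J ω) l) - eval b (jG F c n N a₀ (fun k => a (idx k)) (fun k => G (idx k)) k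
      (ptr F J ω) l)| ≤ 2 ^ u / 2 ^ jg (fun k => g (idx k)) k l
    rw [e3]
    rcases k with _ | k
    · obtain ⟨l, rfl⟩ : ∃ l', l = l' + 1 := ⟨l - 1, by omega⟩
      rw [jG_zero] at h5 ⊢
      exact h5
    · rw [e4 k (by omega)]
      rw [e1 k (by omega)] at h5
      refine h5.trans (le_of_eq ?_)
      show (2 : ℝ) ^ u / 2 ^ g (ix k) (l - 1) = 2 ^ u / 2 ^ g (idx k) (l - 1)
      rw [hi1 k (by omega)]

end Pool.STAT.GRD
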