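import Pool.Agent.H82.STAT.Dpf
import Pool.Agent.H74.STAT.NLab

/-!
# The drop-out system: new labels

`newlab`: a new label of the drop-out system gives an exactly closed label of the full chain `C`:
a polynomial of the time and of all the coordinates before the static one, which is near the label
of `C` on the natural box of `C`. The conclusion has the form of `NL.nd_core`.
-/

set_option autoImplicit false

namespace Pool.STAT.DPP

open Finset MvPolynomial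
open Pool.Agent.H49.Ent Pool.Agent.H32.Dense Pool.STK Pool.KS3 Pool.KA Pool.KSAT Pool.K2S Pool.PB
  Pool.GEN
open Pool.STAT.CLO Pool.STAT.CDat

/-! ### Natural coordinates over `Φ` -/

/-- Points with small heights over `Ψ` have natural coordinates over `Φ` which are at most a power
of `Q`. -/
theorem ht_nc (n K a : ℕ) : ∃ (c : ℕ) (T₀ : ℝ), 2 ≤ T₀ ∧ ∀ (p : ℕ → Prop) (γ g h : ℕ → ℕ)
    (Φ Ψ B Θ : ℕ → PN) (S Q ε : ℝ), Lev p n K γ g h Φ Ψ B Θ S Q ε → T₀ ≤ Q →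
    ∀ s ≤ n, ∀ b : ℕ → ℝ, (∀ j < s, |b j - eval b (Ψ j)| ≤ Q ^ a / 2 ^ g j) →
    ∀ j < s, |nc γ Φ b j| ≤ Q ^ c := by
  obtain ⟨C, hC1, hC⟩ := dil n K
  obtain ⟨K₁, hK₁⟩ : ∃ K₁, K₁ = K * (K + 1) ^ (n + 1) := ⟨_, rfl⟩
  rw [← hK₁] at hC
  obtain ⟨a', ha'⟩ : ∃ a', a' = a + K₁ := ⟨_, rfl⟩
  refine ⟨eb a' n, C + 2, by linarith, ?_⟩
  intro p γ g h Φ Ψ B Θ S Q ε H hQ s hs b hb
  have hQ2 : 2 ≤ Q := by linarith
  have hQ1 : 1 ≤ Q := by linarith
  have hCQ : C ≤ Q := by linarith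
  have key : ∀ j ≤ s, Bxr (Q ^ eb a' j) γ Φ j b := by
    intro j
    induction j with
    | zero => exact fun _ i hi => absurd hi (Nat.not_lt_zero _)
    | succ j ih =>
      intro hj
      have ih := ih (by omega)
      refine Bxr.succ (ih.mono (pow_up hQ1 (eb_succ a' j)) le_rfl) ?_
      have hγ : (0 : ℝ) < 2 ^ γ j := by positivity
      have hg : (0 : ℝ) < 2 ^ g j := by positivity
      have hgγ : (1 : ℝ) / 2 ^ g j ≤ 1 / 2 ^ γ j :=
        one_div_le_one_div_of_le hγ (pow_le_pow_right₀ (by norm_num) (H.γg j (by omega)))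
      have e1 : |b j - eval b (Ψ j)| ≤ Q ^ a / 2 ^ γ j := by
        refine (hb j (by omega)).trans ?_
        rw [div_eq_mul_one_div, div_eq_mul_one_div (Q ^ a) (2 ^ γ j)]
        exact mul_le_mul_of_nonneg_left hgγ (by positivity)
      have e3 : |eval b (Ψ j) - eval b (Φ j)| ≤ Q ^ (eb a' j * K₁ + 2) / 2 ^ γ j := by
        have h2 := hC Φ γ (Ψ j - Φ j) j (Q / 2 ^ γ j) (Q ^ eb a' j) H.triΦ H.degΦ (by omega)
          (AdxRow.vars_sub_le (H.triΨ j) (H.triΦ j))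
          ((totalDegree_sub _ _).trans (max_le (H.degΨ j) (H.degΦ j))) (one_le_pow₀ hQ1)
          (fun b hb => by
            rw [map_sub]
            exact H.uni j (by omega) b hb) b ih
        rw [map_sub] at h2
        refine h2.trans ?_
        rw [le_div_iff₀ hγ]
        calc C * (Q / 2 ^ γ j) * (Q ^ eb a' j) ^ K₁ * 2 ^ γ j =
              C * (Q * (Q ^ eb a' j) ^ K₁) := by field_simp
          _ ≤ Q * (Q * (Q ^ eb a' j) ^ K₁) := mul_le_mul_of_nonneg_right hCQ (by positivity)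
          _ = Q ^ (eb a' j * K₁ + 2) := by
              rw [← pow_mul]
              ring
      have e4 : |b j - eval b (Φ j)| ≤ |b j - eval b (Ψ j)| + |eval b (Ψ j) - eval b (Φ j)| := by
        have := abs_add_le (b j - eval b (Ψ j)) (eval b (Ψ j) - eval b (Φ j))
        rwa [sub_add_sub_cancel] at this
      refine (e4.trans (add_le_add e1 e3)).trans ?_
      rw [← add_div]
      refine div_le_div_of_nonneg_right ?_ hγ.le
      have e5 : eb a' j * K₁ + 2 ≤ eb a' j * (a' + 1) + a' + 3 := by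
        have h2 : eb a' j * K₁ ≤ eb a' j * (a' + 1) := Nat.mul_le_mul_left _ (by omega)
        omega
      refine (pow_add2 (a := eb a' j * (a' + 1) + a' + 3) hQ2 (pow_up hQ1 (by omega))
        (pow_up hQ1 e5)).trans (le_of_eq ?_)
      rfl
  intro j hj
  rw [nc_le]
  refine (key s le_rfl j hj).trans (div_le_div_of_nonneg_right ?_ (by positivity))
  exact pow_up hQ1 (eb_mono a' hs)

/-- The natural coordinates of the point of the frame with the heights of `b`. -/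
theorem fp_nc (n K a : ℕ) : ∃ c : ℕ, a ≤ c ∧ ∀ (p : ℕ → Prop) [DecidablePred p]
    (γ g h : ℕ → ℕ) (Φ Ψ B Θ : ℕ → PN) (S Q ε : ℝ), Lev p n K γ g h Φ Ψ B Θ S Q ε → 1 ≤ Q →
    ∀ s ≤ n, ∀ b : ℕ → ℝ, (∀ j < s, |nc γ Φ b j| ≤ Q ^ a) →
    ∀ j < s, |nc γ Φ (fp p γ Φ Θ (hx p Φ b)) j| ≤ Q ^ c := by
  refine ⟨a + a * K + 1, by omega, ?_⟩
  intro p _ γ g h Φ Ψ B Θ S Q ε H hQ s hs b hb j hj
  rw [nc_fp H.triΦ]
  by_cases hpj : p j
  · have h1 : eval (hx p Φ b) (yy p γ Φ Θ j) = nc γ Φ b j := by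
      unfold yy
      rw [if_pos hpj]
      exact ys_hx H.stc H.triΦ b hpj
    rw [h1]
    exact (hb j hj).trans (pow_up hQ (by omega))
  · rw [yy_hx H.stc H.triΦ b hpj fun l hl => (H.varsΘ j hpj l hl).1]
    have h8 : (Θ j).vars ⊆ range j := fun l hl => mem_range.2 (H.varsΘ j hpj l hl).2
    refine (eval_le (one_le_pow₀ hQ (n := a)) h8 (H.degΘ j hpj) fun l hl =>
      hb l (by omega)).trans ?_
    calc n1 (Θ j) * (Q ^ a) ^ K ≤ Q * (Q ^ a) ^ K :=
          mul_le_mul_of_nonneg_right (H.nΘ j (by omega) hpj) (by positivity)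
      _ = Q ^ (a * K + 1) := by
          rw [← pow_mul]
          ring
      _ ≤ _ := pow_up hQ (by omega)

/-! ### The label of the full chain -/

section lab

variable {m J : ℕ} {F : Fam m J} {C B : CDat F} {T : TDat F} {p : ℕ → Prop}
  {e : ℕ → Fin m} {n K w₀ z M : ℕ} {g h : ℕ → ℕ → ℕ} {C₁ S Q ε : ℝ} {A : F.Ω → Prop}

/-- The system of the level `0` as a function of the label of the drop-out system. -/
noncomputable def p0 (C B : CDat F) (T : TDat F) (p : ℕ → Prop) [DecidablePred p]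
    (n w₀ z : ℕ) (g : ℕ → ℕ → ℕ)
    (x : ((k' : ℕ) → Option ((dd C B T p n w₀ z g).V k')) × ℕ) : ℕ → PN :=
  cut n fun j => match x.1 0 with
    | some u => Ph0 C w₀ z u.1 j
    | none => 0

variable [DecidablePred p]

theorem p0_lab {v : ℕ} (hJ : w₀ ≤ J) (ω : F.Ω) :
    p0 C B T p n w₀ z g ((dd C B T p n w₀ z g).lab w₀ z v ω) = cut n (C.Ph w₀ z 0 ω) := by
  have h1 : ((dd C B T p n w₀ z g).lab w₀ z v ω).1 0 =
      some ((dd C B T p n w₀ z g).li 0 (slam F (w₀ + 0 * z) ω)) := by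
    exact if_pos (e := none) (Nat.zero_le v)
  unfold p0
  rw [h1]
  have h2 : Ph0 C w₀ z (C.li 0 (co z 0 (slam F (w₀ + 0 * z) ω)),
      (co z 0 (slam F (w₀ + 0 * z) ω)).2.2) = C.Ph w₀ z 0 ω := by
    rw [co_slam (by omega)]
    exact Ph0_slam C w₀ z ω
  show cut n (fun j => Ph0 C w₀ z (C.li 0 (co z 0 (slam F (w₀ + 0 * z) ω)),
      (co z 0 (slam F (w₀ + 0 * z) ω)).2.2) j) = _
  rw [← h2]

theorem p0_tri (H : Hyp C B T p e n K w₀ z M g h C₁ S Q ε A)
    (x : ((k' : ℕ) → Option ((dd C B T p n w₀ z g).V k')) × ℕ) :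
    TriN (p0 C B T p n w₀ z g x) := by
  refine cut_tri fun i hi => ?_
  cases x.1 0 with
  | none =>
    show (0 : PN).vars ⊆ range i
    rw [vars_0]
    exact Finset.empty_subset _
  | some u =>
    show (Ph0 C w₀ z u.1 i).vars ⊆ range i
    unfold Ph0
    split_ifs with h0
    · rw [vars_C]
      exact Finset.empty_subset _
    · exact H.fat.tri 0 (Nat.zero_le M) u.1.1 i (by omega) hi

theorem p0_deg (H : Hyp C B T p e n K w₀ z M g h C₁ S Q ε A)
    (x : ((k' : ℕ) → Option ((dd C B T p n w₀ z g).V k')) × ℕ) (i : ℕ) :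
    (p0 C B T p n w₀ z g x i).totalDegree ≤ K := by
  refine cut_deg (fun i hi => ?_) i
  cases x.1 0 with
  | none =>
    show (0 : PN).totalDegree ≤ K
    rw [totalDegree_zero]
    exact Nat.zero_le K
  | some u =>
    show (Ph0 C w₀ z u.1 i).totalDegree ≤ K
    unfold Ph0
    split_ifs with h0
    · rw [totalDegree_C]
      exact Nat.zero_le K
    · exact H.fat.deg 0 (Nat.zero_le M) u.1.1 i (by omega) hi

/-- The projection of the labels of the drop-out system to the labels of `C`. -/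
def prC (C B : CDat F) (T : TDat F) (p : ℕ → Prop) [DecidablePred p] (n w₀ z : ℕ)
    (g : ℕ → ℕ → ℕ) (x : ((k' : ℕ) → Option ((dd C B T p n w₀ z g).V k')) × ℕ) :
    ((k' : ℕ) → Option (C.V k')) × ℕ :=
  (fun k' => (x.1 k').map fun u => u.2.1, x.2)

theorem prC_lab {v : ℕ} (ω : F.Ω) :
    prC C B T p n w₀ z g ((dd C B T p n w₀ z g).lab w₀ z v ω) = C.lab w₀ z v ω := by
  refine Prod.ext ?_ rfl
  funext k'
  show (((dd C B T p n w₀ z g).lab w₀ z v ω).1 k').map (fun u => u.2.1) = _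
  by_cases hk : k' ≤ v
  · have h1 : ((dd C B T p n w₀ z g).lab w₀ z v ω).1 k' =
        some ((dd C B T p n w₀ z g).li k' (slam F (w₀ + k' * z) ω)) := if_pos hk
    rw [h1]
    exact (if_pos hk).symm
  · have h1 : ((dd C B T p n w₀ z g).lab w₀ z v ω).1 k' = none := if_neg hk
    rw [h1]
    exact (if_neg hk).symm

end lab

/-- The heights over `Φ` as polynomials. -/
noncomputable def chp (p : ℕ → Prop) (Φ : ℕ → PN) (l : ℕ) : PN :=
  if l = 0 then X 0 else X (Nat.nth p l) - Φ (Nat.nth p l)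

theorem eval_chp (p : ℕ → Prop) (Φ : ℕ → PN) (b : ℕ → ℝ) :
    (fun l => eval b (chp p Φ l)) = hx p Φ b := by
  funext l
  unfold chp hx
  split_ifs
  · rw [eval_X]
  · rw [map_sub, eval_X]

theorem chp_deg {p : ℕ → Prop} {K : ℕ} {Φ : ℕ → PN} (hΦ : ∀ j, (Φ j).totalDegree ≤ K) (l : ℕ) :
    (chp p Φ l).totalDegree ≤ K + 1 := by
  unfold chp
  split_ifs
  · rw [totalDegree_X]
    omega
  · refine (totalDegree_sub _ _).trans (max_le ?_ ((hΦ _).trans (Nat.le_succ K)))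
    rw [totalDegree_X]
    omega

theorem chp_vars {p : ℕ → Prop} {n : ℕ} (hp : Stc p n) {Φ : ℕ → PN} (hΦ : TriN Φ) {l i : ℕ}
    (hl : l < i) : (chp p Φ l).vars ⊆ range (Nat.nth p i) := by
  classical
  have h1 := hp.st_mono hl
  unfold chp
  split_ifs with h0
  · subst h0
    exact AdxRow.vars_X_le (by omega)
  · exact AdxRow.vars_sub_le (AdxRow.vars_X_le h1)
      ((hΦ _).trans (Finset.range_mono h1.le))

/-- **A new label of the drop-out system is a closed label of the full chain**, near the label of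
the full chain on its natural box. -/
theorem newlab (p : ℕ → Prop) [DecidablePred p] (n K Kd K' i : ℕ) (hi1 : 1 ≤ i)
    (hin : i ≤ Nat.count p n) : ∃ (Kh c : ℕ) (C₇ T₀ : ℝ), 1 ≤ C₇ ∧ 2 ≤ T₀ ∧
    ∀ {m J : ℕ} {F : Fam m J} (C B : CDat F) (T : TDat F) (e : ℕ → Fin m)
    (w₀ z M v v' A' : ℕ) (g h : ℕ → ℕ → ℕ) (C₁ C₁' S Q ε κ C₆ η' : ℝ) (σ : ℕ → ℝ)
    (A E : F.Ω → Prop) (q : F.Ω → ℝ),
    Hyp C B T p e n K w₀ z M g h C₁ S Q ε A → 0 ≤ S → T₀ ≤ Q →
    (dd C B T p n w₀ z g).CndX (dx C p e n w₀ z) (Nat.count p n) Kd w₀ z M (dg p g) C₁' A →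
    Sub E A → (∀ ω, q ω = Pool.Agent.H49.Ent.cond F.p E True ω) →
    ((dd C B T p n w₀ z g).ndX (dx C p e n w₀ z) (Nat.count p n) w₀ z M (dg p g)).Ok0
      (Nat.count p n) Kd J w₀ z M σ κ C₁' q →
    v ≤ v' → v' ≤ M → 0 ≤ C₆ →
    ((dd C B T p n w₀ z g).ndX (dx C p e n w₀ z) (Nat.count p n) w₀ z M (dg p g)).NewLab0
      J w₀ z i v v' A' K' C₆ η' q →
    ∃ E' : F.Ω → Prop, Sub E' E ∧ η' / 2 * Pe F.p E ≤ Pe F.p E' ∧
      ∃ (V : Type) (y : PtT F → V) (y' : LnT F → V) (G : V → PN)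
        (pr : V → ((k' : ℕ) → Option (C.V k')) × ℕ),
        (∀ v, (G v).totalDegree ≤ Kh) ∧ (∀ v, (G v).vars ⊆ range (Nat.nth p i)) ∧
        (∀ ω, E' ω → y (ptr F J ω) = y' (slam F (w₀ + v * z) ω)) ∧
        (∀ ω, E' ω → pr (y' (slam F (w₀ + v * z) ω)) = C.lab w₀ z v ω) ∧
        (∀ ω, E' ω → |cx F e ω (Nat.nth p i) -
          eval (cx F e ω) (G (y' (slam F (w₀ + v * z) ω)))| ≤
          C₇ / 2 ^ (g v (Nat.nth p i) + A' * z)) ∧
        ∀ ω, E' ω → ∀ b : ℕ → ℝ, Bx (g0 w₀ z g v) (C.Ph w₀ z v ω) (Nat.nth p i) b →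
          |eval b (G (y' (slam F (w₀ + v * z) ω))) -
            eval b (C.Ph w₀ z v ω (Nat.nth p i))| ≤
            C₇ * (Real.exp (C₆ * z) * Q ^ c) / 2 ^ g v (Nat.nth p i) := by
  classical
  obtain ⟨n', hn'⟩ : ∃ n', n' = Nat.count p n := ⟨_, rfl⟩
  obtain ⟨K'', C₇, hC₇, hcore⟩ := NL.nd_core (Nat.count p n) Kd K' i hin
  obtain ⟨a, T₁, hT₁, h1⟩ := ht_nc n K 0
  obtain ⟨a', haa, h2⟩ := fp_nc n K a
  obtain ⟨d, T₂, hT₂, h3⟩ := dif1 n K a'
  obtain ⟨C₀, hC₀, h4⟩ := dil (Nat.count p n) (max Kd K'')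
  obtain ⟨K₁, hK₁⟩ : ∃ K₁, K₁ = max Kd K'' * (max Kd K'' + 1) ^ (Nat.count p n + 1) :=
    ⟨_, rfl⟩
  rw [← hK₁] at h4
  refine ⟨K'' * (K + 1) + K, (d + 3) * K₁ + d + 1, 2 * C₀ * C₇ + 2, T₁ + T₂, by nlinarith,
    by linarith, ?_⟩
  intro m J F C B T e w₀ z M v v' A' g h C₁ C₁' S Q ε κ C₆ η' σ A E q H hS hQ hcnd hEA hq hOk
    hvv hvM hC₆ hNL
  have hvM' : v ≤ M := hvv.trans hvM
  have hQ2 : 2 ≤ Q := by linarith
  have hQ1 : 1 ≤ Q := by linarith
  have hst := H.stc.st_le hin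
  have hst1 := H.stc.st_pos hi1
  have hwv := H.wk hvM'
  obtain ⟨E', hE'E, hPE, V, y, y', G, pr, hdeg, hvars, hcls, hpr, hpos, hbox⟩ :=
    hcore F (dd C B T p n w₀ z g) (dx C p e n w₀ z) w₀ z M v v' A' (dg p g) σ κ C₁' C₆ η' A E q
      hcnd hEA hq hOk hvv hvM hC₆ hNL
  obtain ⟨D, hD⟩ : ∃ D : CDat F, D = dd C B T p n w₀ z g := ⟨_, rfl⟩
  have hcnd2 : D.CndX (dx C p e n w₀ z) (Nat.count p n) Kd w₀ z M (dg p g) C₁' A := by
    rw [hD]
    exact hcnd
  -- the system of the level `0`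
  obtain ⟨P, hP⟩ : ∃ P : V → ℕ → PN, P = fun x => p0 C B T p n w₀ z g (pr x) := ⟨_, rfl⟩
  have hPtri : ∀ x, TriN (P x) := fun x => by rw [hP]; exact p0_tri H _
  have hPdeg : ∀ x j, (P x j).totalDegree ≤ K := fun x j => by rw [hP]; exact p0_deg H _ j
  have hPs : ∀ ω, E' ω → P (y' (slam F (w₀ + v * z) ω)) = cut n (C.Ph w₀ z 0 ω) := by
    intro ω hω
    rw [hP]
    show p0 C B T p n w₀ z g (pr (y' (slam F (w₀ + v * z) ω))) = _
    rw [hpr ω hω]
    exact p0_lab (by omega) ω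
  -- the new polynomials
  obtain ⟨G', hG'⟩ : ∃ G' : V → PN, G' = fun x => bind₁ (chp p (P x)) (G x) +
    P x (Nat.nth p i) := ⟨_, rfl⟩
  have hG'e : ∀ ω, E' ω → ∀ b : ℕ → ℝ, eval b (G' (y' (slam F (w₀ + v * z) ω))) =
      eval (hx p (cut n (C.Ph w₀ z 0 ω)) b) (G (y' (slam F (w₀ + v * z) ω))) +
        eval b (cut n (C.Ph w₀ z 0 ω) (Nat.nth p i)) := by
    intro ω hω b
    rw [hG']
    show eval b (bind₁ (chp p (P (y' (slam F (w₀ + v * z) ω))))
      (G (y' (slam F (w₀ + v * z) ω))) + P (y' (slam F (w₀ + v * z) ω)) (Nat.nth p i)) = _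
    rw [hPs ω hω, map_add, Pool.SYS35.eval_bind, eval_chp]
  have hEA' : ∀ ω, E' ω → A ω := fun ω hω => hEA ω (hE'E ω hω)
  refine ⟨E', hE'E, hPE, V, y, y', G', fun x => prC C B T p n w₀ z g (pr x), fun x => ?_,
    fun x => ?_, hcls, fun ω hω => ?_, fun ω hω => ?_, fun ω hω b hb => ?_⟩
  · rw [hG']
    refine (totalDegree_add _ _).trans (max_le ?_ ?_)
    · refine (Dgb.deg_bind (B := K + 1) fun k _ => chp_deg (hPdeg x) k).trans ?_
      exact (Nat.mul_le_mul_right _ (hdeg x)).trans (Nat.le_add_right _ _)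
    · exact (hPdeg x _).trans (Nat.le_add_left _ _)
  · rw [hG']
    refine AdxRow.vars_add_le ?_ (hPtri x _)
    exact AdxRow.vars_bnd (hvars x) fun l hl => chp_vars H.stc (hPtri x) hl
  · show prC C B T p n w₀ z g (pr (y' (slam F (w₀ + v * z) ω))) = _
    rw [hpr ω hω]
    exact prC_lab ω
  · -- the position
    rw [hG'e ω hω]
    have h5 := hpos ω hω
    have h6 : dx C p e n w₀ z ω i = cx F e ω (Nat.nth p i) -
        eval (cx F e ω) (cut n (C.Ph w₀ z 0 ω) (Nat.nth p i)) := if_neg (by omega)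
    have h7 : cx F e ω (Nat.nth p i) -
        (eval (hx p (cut n (C.Ph w₀ z 0 ω)) (cx F e ω)) (G (y' (slam F (w₀ + v * z) ω))) +
          eval (cx F e ω) (cut n (C.Ph w₀ z 0 ω) (Nat.nth p i))) =
        dx C p e n w₀ z ω i - eval (dx C p e n w₀ z ω)
          (G (y' (slam F (w₀ + v * z) ω))) := by
      rw [h6]
      show _ = _ - eval (hx p (cut n (C.Ph w₀ z 0 ω)) (cx F e ω)) _
      ring
    rw [h7]
    refine h5.trans ?_
    rw [g0_pos hi1]
    unfold dg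
    have h8 := H.g_pos v hvM' _ hst1 hst
    obtain ⟨x, hx⟩ : ∃ x, g v (Nat.nth p i) = x + 1 := ⟨g v (Nat.nth p i) - 1, by omega⟩
    rw [hx, Nat.add_sub_cancel]
    have h9 : (2 : ℝ) ^ (x + 1 + A' * z) = 2 * 2 ^ (x + A' * z) := by
      rw [← pow_succ']
      congr 1
      omega
    rw [h9, div_le_div_iff₀ (by positivity) (by positivity)]
    have h10 : C₇ * 2 ≤ 2 * C₀ * C₇ + 2 := by nlinarith
    calc C₇ * (2 * 2 ^ (x + A' * z)) = C₇ * 2 * 2 ^ (x + A' * z) := by ring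
      _ ≤ (2 * C₀ * C₇ + 2) * 2 ^ (x + A' * z) :=
          mul_le_mul_of_nonneg_right h10 (by positivity)
  · -- the natural box
    have hL := H.lev hS hQ2 (hEA' ω hω) hvM'
    obtain ⟨Φ, hΦ⟩ : ∃ Φ, Φ = cut n (C.Ph w₀ z 0 ω) := ⟨_, rfl⟩
    obtain ⟨Ψ, hΨ⟩ : ∃ Ψ, Ψ = cut n (C.Ph w₀ z v ω) := ⟨_, rfl⟩
    obtain ⟨Θ, hΘ⟩ : ∃ Θ, Θ = T.P (T.li (slam F w₀ ω)) := ⟨_, rfl⟩
    rw [← hΦ, ← hΨ, ← hΘ] at hL
    obtain ⟨u, hu⟩ : ∃ u, u = hx p Φ b := ⟨_, rfl⟩
    obtain ⟨f, hf⟩ : ∃ f, f = fp p (g0 w₀ z g 0) Φ Θ u := ⟨_, rfl⟩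
    have hbΨ : ∀ j < Nat.nth p i, |b j - eval b (Ψ j)| ≤ 1 / 2 ^ g0 w₀ z g v j := by
      intro j hj
      rw [hΨ, cut_of_le (show j ≤ n by omega)]
      exact hb j hj
    have hb0 := h1 p _ _ _ _ _ _ _ S Q ε hL (by linarith) (Nat.nth p i) hst b
      (fun j hj => by
        rw [pow_zero]
        exact hbΨ j hj)
    have hb1 : ∀ j < Nat.nth p i, |nc (g0 w₀ z g 0) Φ b j| ≤ Q ^ a' := fun j hj =>
      (hb0 j hj).trans (pow_up hQ1 haa)
    have hf1 := h2 p _ _ _ _ _ _ _ S Q ε hL hQ1 (Nat.nth p i) hst b hb0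
    rw [← hu, ← hf] at hf1
    have hDb : ∀ j ≤ Nat.nth p i, |eval b (Ψ j - Φ j)| ≤ Q ^ d / 2 ^ g0 w₀ z g 0 j := fun j hj =>
      h3 p _ _ _ _ _ _ _ S Q ε hL (by linarith) j (by omega) b fun l hl => hb1 l (by omega)
    have hDf : ∀ j ≤ Nat.nth p i, |eval f (Ψ j - Φ j)| ≤ Q ^ d / 2 ^ g0 w₀ z g 0 j := fun j hj =>
      h3 p _ _ _ _ _ _ _ S Q ε hL (by linarith) j (by omega) f fun l hl => hf1 l (by omega)
    have hrat : ∀ j ≤ Nat.nth p i, Q ^ d / 2 ^ g0 w₀ z g 0 j ≤ Q ^ (d + 1) / 2 ^ g0 w₀ z g v j := by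
      intro j hj
      rw [div_le_div_iff₀ (by positivity) (by positivity)]
      have h5 := hL.ratio j (by omega)
      calc Q ^ d * 2 ^ g0 w₀ z g v j ≤ Q ^ d * (Q * 2 ^ g0 w₀ z g 0 j) :=
            mul_le_mul_of_nonneg_left h5 (by positivity)
        _ = Q ^ (d + 1) * 2 ^ g0 w₀ z g 0 j := by ring
    -- the heights of the drop-out system
    have hPh : ∀ l, 1 ≤ l → l ≤ Nat.count p n → eval u (D.Ph w₀ z v ω l) =
        eval f (Ψ (Nat.nth p l) - Φ (Nat.nth p l)) := by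
      intro l hl1 hl
      rw [hD, eval_dd_Ph hwv hl1 H.stc hl, hf, hΦ, hΨ, hΘ]
    have hbx : Bxr (Q ^ (d + 3)) (g0 w₀ z (dg p g) v)
        (cut (Nat.count p n) (D.Ph w₀ z v ω)) i u := by
      intro l hl
      rw [cut_of_le (show l ≤ Nat.count p n by omega)]
      rcases Nat.eq_zero_or_pos l with h0 | h0
      · subst h0
        have h5 := hbΨ 0 (by omega)
        have h6 : u 0 = b 0 := by
          rw [hu]
          exact if_pos rfl
        have h7 : D.Ph w₀ z v ω 0 = C.Ph w₀ z v ω 0 := by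
          rw [Ph_zero, Ph_zero]
        rw [hΨ, cut_of_le (Nat.zero_le n)] at h5
        rw [h6, h7, g0_zero, Ph_zero, eval_C]
        rw [g0_zero, Ph_zero, eval_C] at h5
        exact h5.trans (div_le_div_of_nonneg_right (one_le_pow₀ hQ1) (by positivity))
      · have hlt := H.stc.st_mono hl
        have hl1 := H.stc.st_pos h0
        have hln : Nat.nth p l ≤ n := by omega
        rw [hPh l h0 (by omega)]
        have h6 : u l = b (Nat.nth p l) - eval b (Φ (Nat.nth p l)) := by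
          rw [hu]
          exact if_neg (by omega)
        have h7 : u l - eval f (Ψ (Nat.nth p l) - Φ (Nat.nth p l)) =
            (b (Nat.nth p l) - eval b (Ψ (Nat.nth p l))) +
            eval b (Ψ (Nat.nth p l) - Φ (Nat.nth p l)) -
            eval f (Ψ (Nat.nth p l) - Φ (Nat.nth p l)) := by
          rw [h6, map_sub (eval b)]
          ring
        have h8 := hbΨ _ hlt
        have h9 := (hDb _ hlt.le).trans (hrat _ hlt.le)
        have h10 := (hDf _ hlt.le).trans (hrat _ hlt.le)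
        have h11 : |u l - eval f (Ψ (Nat.nth p l) - Φ (Nat.nth p l))| ≤
            (1 + Q ^ (d + 1) + Q ^ (d + 1)) / 2 ^ g0 w₀ z g v (Nat.nth p l) := by
          rw [h7, add_div, add_div]
          exact (abs_sub _ _).trans (add_le_add ((abs_add_le _ _).trans (add_le_add h8 h9)) h10)
        refine h11.trans ?_
        have h12 : 1 + Q ^ (d + 1) + Q ^ (d + 1) ≤ Q ^ (d + 3) :=
          pow_add2 hQ2 (pow_add2 hQ2 (one_le_pow₀ hQ1) le_rfl) (pow_up hQ1 (by omega))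
        refine (div_le_div_of_nonneg_right h12 (by positivity)).trans ?_
        refine div_le_div_of_nonneg_left (by positivity) (by positivity) ?_
        refine pow_le_pow_right₀ (by norm_num) ?_
        rw [g0_pos h0, g0_pos hl1]
        exact Nat.sub_le _ _
    -- the difference on the dilated box
    have hcut := h4 (cut (Nat.count p n) (D.Ph w₀ z v ω)) (g0 w₀ z (dg p g) v)
      (G (y' (slam F (w₀ + v * z) ω)) - D.Ph w₀ z v ω i) i
      (C₇ * Real.exp (C₆ * z) / 2 ^ g0 w₀ z (dg p g) v i) (Q ^ (d + 3))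
      (cut_tri (Ph_vars fun w j a1 a2 => by
        exact hcnd2.tri v hvM' w j a1 a2))
      (fun j => (cut_deg (Ph_deg fun w j a1 a2 => by
        exact hcnd2.deg v hvM' w j a1 a2) j).trans (le_max_left _ _)) hin
      (AdxRow.vars_sub_le (hvars _) (Ph_vars (fun w j a1 a2 => by
        exact hcnd2.tri v hvM' w j a1 a2) i hin))
      ((totalDegree_sub _ _).trans (max_le ((hdeg _).trans (le_max_right _ _))
        ((Ph_deg (fun w j a1 a2 => by
          exact hcnd2.deg v hvM' w j a1 a2) i hin).trans (le_max_left _ _))))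
      (one_le_pow₀ hQ1) (fun b' hb' => by
        rw [map_sub, hD]
        refine hbox ω hω b' ?_
        rw [← hD]
        exact (cut_bx (by omega)).1 (Bxr_one.1 hb')) u hbx
    rw [map_sub, hPh i hi1 hin] at hcut
    rw [hG'e ω hω b, ← hΦ, ← hu]
    have h5 : eval b (C.Ph w₀ z v ω (Nat.nth p i)) = eval b (Ψ (Nat.nth p i)) := by
      rw [hΨ, cut_of_le hst]
    rw [h5]
    have h6 : eval u (G (y' (slam F (w₀ + v * z) ω))) + eval b (Φ (Nat.nth p i)) -
        eval b (Ψ (Nat.nth p i)) =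
        (eval u (G (y' (slam F (w₀ + v * z) ω))) -
          eval f (Ψ (Nat.nth p i) - Φ (Nat.nth p i))) +
        eval f (Ψ (Nat.nth p i) - Φ (Nat.nth p i)) -
        eval b (Ψ (Nat.nth p i) - Φ (Nat.nth p i)) := by
      rw [map_sub (eval b)]
      ring
    have h9 := (hDb _ le_rfl).trans (hrat _ le_rfl)
    have h10 := (hDf _ le_rfl).trans (hrat _ le_rfl)
    have h7 : |eval u (G (y' (slam F (w₀ + v * z) ω))) + eval b (Φ (Nat.nth p i)) -
        eval b (Ψ (Nat.nth p i))| ≤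
        C₀ * (C₇ * Real.exp (C₆ * z) / 2 ^ g0 w₀ z (dg p g) v i) * (Q ^ (d + 3)) ^ K₁ +
        Q ^ (d + 1) / 2 ^ g0 w₀ z g v (Nat.nth p i) +
        Q ^ (d + 1) / 2 ^ g0 w₀ z g v (Nat.nth p i) := by
      rw [h6]
      exact (abs_sub _ _).trans (add_le_add ((abs_add_le _ _).trans (add_le_add hcut h10)) h9)
    refine h7.trans ?_
    rw [g0_pos hi1, g0_pos hst1]
    have h8 : (1 : ℝ) / 2 ^ dg p g v i = 2 / 2 ^ g v (Nat.nth p i) := by
      have h11 := H.g_pos v hvM' _ hst1 hst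
      unfold dg
      obtain ⟨x, hx⟩ : ∃ x, g v (Nat.nth p i) = x + 1 := ⟨g v (Nat.nth p i) - 1, by omega⟩
      rw [hx, Nat.add_sub_cancel, pow_succ]
      field_simp
    have hexp : 1 ≤ Real.exp (C₆ * z) := Real.one_le_exp (by positivity)
    rw [div_eq_mul_one_div (C₇ * Real.exp (C₆ * z)), h8, le_div_iff₀ (by positivity)]
    have h12 : (C₀ * (C₇ * Real.exp (C₆ * z) * (2 / 2 ^ g v (Nat.nth p i))) *
        (Q ^ (d + 3)) ^ K₁ + Q ^ (d + 1) / 2 ^ g v (Nat.nth p i) +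
        Q ^ (d + 1) / 2 ^ g v (Nat.nth p i)) * 2 ^ g v (Nat.nth p i) =
        2 * C₀ * C₇ * (Real.exp (C₆ * z) * (Q ^ (d + 3)) ^ K₁) + 2 * Q ^ (d + 1) := by
      field_simp
      ring
    rw [h12]
    have h13 : (Q ^ (d + 3)) ^ K₁ ≤ Q ^ ((d + 3) * K₁ + d + 1) := by
      rw [← pow_mul]
      exact pow_up hQ1 (by omega)
    have h14 : Q ^ (d + 1) ≤ Real.exp (C₆ * z) * Q ^ ((d + 3) * K₁ + d + 1) := by
      calc Q ^ (d + 1) ≤ Q ^ ((d + 3) * K₁ + d + 1) := pow_up hQ1 (by omega)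
        _ = 1 * Q ^ ((d + 3) * K₁ + d + 1) := (one_mul _).symm
        _ ≤ _ := mul_le_mul_of_nonneg_right hexp (by positivity)
    have h15 : 0 ≤ 2 * C₀ * C₇ := by
      have : 0 ≤ C₀ := by linarith
      have : 0 ≤ C₇ := by linarith
      positivity
    have h16 : Real.exp (C₆ * z) * (Q ^ (d + 3)) ^ K₁ ≤
        Real.exp (C₆ * z) * Q ^ ((d + 3) * K₁ + d + 1) :=
      mul_le_mul_of_nonneg_left h13 (by positivity)
    have h17 := mul_le_mul_of_nonneg_left h16 h15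
    calc _ ≤ 2 * C₀ * C₇ * (Real.exp (C₆ * z) * Q ^ ((d + 3) * K₁ + d + 1)) +
          2 * (Real.exp (C₆ * z) * Q ^ ((d + 3) * K₁ + d + 1)) :=
          add_le_add h17 (mul_le_mul_of_nonneg_left h14 (by norm_num))
      _ = _ := by ring

end Pool.STAT.DPP
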