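import Pool.Agent.H82.STAT.Grh

/-!
# The conditions `DPP.Hyp` of the drop-out system from the labels

`grd_hyp`: everything of `DPP.Hyp`, the numbers are hypotheses.
-/

set_option autoImplicit false

namespace Pool.STAT.GRD

open Finset MvPolynomial
open Pool.Agent.H49.Ent Pool.Agent.H32.Dense Pool.STK Pool.KS3 Pool.KA Pool.KSAT Pool.PB Pool.GEN
open Pool.STAT.CLO Pool.STAT.CDat Pool.TRC Pool.STAT.DPP Pool.K2S
open Pool.TRC31 (BxE)

variable {d J : ℕ}

/-- **The numbers.** `Rr`: the distance of the levels, `v`: the variation of the static numbers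
between the thin windows, `gn`: the growth of the dynamic ones. -/
structure Nms (p : ℕ → Prop) (n w₀ z M R J Rr v gn : ℕ) (U : Finset ℕ) (g hh tn : ℕ → ℕ → ℕ) :
    Prop where
  n_pos : 1 ≤ n
  stc : Stc p n
  top : w₀ + (M + 1) * z ≤ J
  U_iff : ∀ i < n, (i ∈ U ↔ ¬ p i)
  card : U.card ≤ R + 1
  g_pos : ∀ k ≤ M, ∀ i, 1 ≤ i → i ≤ n → 1 ≤ g k i
  g_ge : ∀ k ≤ M, ∀ i, 1 ≤ i → i ≤ n → g 0 i ≤ g k i
  hg : ∀ k ≤ M, ∀ i, 1 ≤ i → i < n → p i → hh k i = g k i
  ratio : ∀ k ≤ M, ∀ i, 1 ≤ i → i ≤ n → g k i ≤ g 0 i + Rr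
  ratio0 : (M + 1) * z ≤ Rr
  st : ∀ j ≤ R, ∀ i, 1 ≤ i → i < n → p i → tt w₀ g tn j i ≤ tt w₀ g tn (j + 1) i + v ∧
    tt w₀ g tn (j + 1) i ≤ tt w₀ g tn j i + v
  dy : ∀ j ≤ R, ∀ i, 1 ≤ i → i < n → ¬ p i → tt w₀ g tn j i + gn ≤ tt w₀ g tn (j + 1) i
  hB : ∀ k ≤ M, ∀ i, 1 ≤ i → i < n → tn (R + 1) i ≤ hh k i

/-- The charts satisfy `Ths`. -/
theorem ths_of {F : Fam d J} {C B : CDat F} {Tc : TChn F} {e : ℕ → Fin d}
    {n K' K w₀ z M R c t Rr v gn : ℕ} {p : ℕ → Prop} {U : Finset ℕ} {g hh tn : ℕ → ℕ → ℕ}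
    {A : F.Ω → Prop} (H : GrOut C B Tc e n K' w₀ z M (R + 1) c t Rr g hh tn A)
    (N : Nms p n w₀ z M R J Rr v gn U g hh tn) (hK' : K' ≤ K)
    (hCd : ∀ v, ∀ i, 1 ≤ i → i ≤ n → (C.G 0 v i).totalDegree ≤ K)
    (hCt : ∀ v, ∀ i, 1 ≤ i → i ≤ n → (C.G 0 v i).vars ⊆ range i) {ω : F.Ω} (hω : A ω) :
    Thin.Ths n K (R + 1) (cha C Tc n w₀ z (chv C Tc w₀ ω))
      (fun j i => (tt w₀ g tn j i : ℝ) * Real.log 2) U (((c * (t + 1) + v : ℕ) : ℝ) * Real.log 2)
      ((gn : ℝ) * Real.log 2) := by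
  have hl : 0 < Real.log 2 := Real.log_pos (by norm_num)
  have hn := N.n_pos
  have hpos : ∀ i < n, i ∈ U → 1 ≤ i := fun i hi hU => by
    rcases Nat.eq_zero_or_pos i with rfl | h
    · exact absurd N.stc.zero ((N.U_iff 0 hi).1 hU)
    · exact h
  have hin : ∀ i ≤ n - 1, ∀ (v : C.V 0 × ℕ), (Ph0 C w₀ z v i).vars ⊆ range i ∧
      (Ph0 C w₀ z v i).totalDegree ≤ K := by
    intro i hi v
    unfold Ph0
    by_cases h0 : i = 0
    · rw [if_pos h0, vars_C, totalDegree_C]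
      exact ⟨Finset.empty_subset _, Nat.zero_le _⟩
    · rw [if_neg h0]
      exact ⟨hCt _ i (by omega) (by omega), hCd _ i (by omega) (by omega)⟩
  have hch : ∀ j ≤ R + 1, ∀ i, (cha C Tc n w₀ z (chv C Tc w₀ ω) j i).vars ⊆ range i ∧
      (cha C Tc n w₀ z (chv C Tc w₀ ω) j i).totalDegree ≤ K := by
    intro j hj i
    unfold cha
    by_cases h1 : i ≤ n - 1
    · rw [cut_of_le h1]
      by_cases h2 : j = 0 ∨ i = 0
      · rw [if_pos h2]
        exact hin i h1 _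
      · rw [if_neg h2]
        exact ⟨H.Ttri _ j (by omega) hj i (by omega) (by omega),
          (H.Tdeg _ j (by omega) hj i (by omega) (by omega)).trans hK'⟩
    · unfold cut
      rw [if_neg h1, vars_0, totalDegree_zero]
      exact ⟨Finset.empty_subset _, Nat.zero_le _⟩
  refine
    { A_nn := by positivity
      γ_nn := by positivity
      card := N.card
      tri := fun j hj i => (hch j hj i).1
      deg := fun j hj i _ => (hch j hj i).2
      lo := fun j hj i hi hU => ?_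
      hi := fun j hj i hi hU => ?_
      dyn := fun j hj i hi hU => ?_
      uni := fun j hj i hi b hb => ?_ }
  · rw [← sub_mul]
    refine mul_le_mul_of_nonneg_right ?_ hl.le
    have h2 : tt w₀ g tn j i ≤ tt w₀ g tn (j + 1) i + (c * (t + 1) + v) := by
      rcases Nat.eq_zero_or_pos i with rfl | h
      · unfold tt
        rw [if_pos rfl, if_pos rfl]
        omega
      · have := (N.st j (by omega) i h hi (by
          by_contra hp
          exact hU ((N.U_iff i hi).2 hp))).1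
        omega
    have h3 : (tt w₀ g tn j i : ℝ) ≤ tt w₀ g tn (j + 1) i + ((c * (t + 1) + v : ℕ) : ℝ) := by
      exact_mod_cast h2
    linarith
  · rw [← add_mul]
    refine mul_le_mul_of_nonneg_right ?_ hl.le
    have h2 : tt w₀ g tn (j + 1) i ≤ tt w₀ g tn j i + (c * (t + 1) + v) := by
      rcases Nat.eq_zero_or_pos i with rfl | h
      · unfold tt
        rw [if_pos rfl, if_pos rfl]
        omega
      · have := (N.st j (by omega) i h hi (by
          by_contra hp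
          exact hU ((N.U_iff i hi).2 hp))).2
        omega
    exact_mod_cast h2
  · rw [← add_mul]
    refine mul_le_mul_of_nonneg_right ?_ hl.le
    have h2 := N.dy j (by omega) i (hpos i hi hU) hi ((N.U_iff i hi).1 hU)
    exact_mod_cast h2
  · rw [map_sub]
    have hbx : ∀ l < n, |b l - eval b (cha C Tc n w₀ z (chv C Tc w₀ ω) (j + 1) l)| ≤
        1 / 2 ^ tt w₀ g tn (j + 1) l := fun l hl => by
      have h1 := hb l hl
      rwa [exp_log2'] at h1
    have e1 : Real.exp (((c * (t + 1) + v : ℕ) : ℝ) * Real.log 2 -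
        (tt w₀ g tn j i : ℝ) * Real.log 2) = 2 ^ (c * (t + 1) + v) / 2 ^ tt w₀ g tn j i := by
      rw [sub_eq_add_neg, Real.exp_add, exp_log2, exp_log2', mul_one_div]
    rw [e1]
    rcases Nat.eq_zero_or_pos i with rfl | h
    · have e2 : ∀ j, cha C Tc n w₀ z (chv C Tc w₀ ω) j 0 = Ph0 C w₀ z (chv C Tc w₀ ω).1 0 :=
        fun j => by
          unfold cha
          rw [cut_of_le (Nat.zero_le _), if_pos (Or.inr rfl)]
      rw [e2, e2, sub_self, abs_zero]
      positivity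
    · have h1 := H.chart j (by omega) ω hω 0 i h hi b fun l hl => by
        rw [pow_zero]
        exact hbx l (hl.trans hi)
      refine h1.trans (div_le_div_of_nonneg_right (pow_le_pow_right₀ (by norm_num) ?_)
        (by positivity))
      rw [Nat.add_zero]
      omega

/-- **The conditions of the drop-out system.** -/
theorem grd_hyp (n S D R : ℕ) (hS : 1 ≤ S) : ∃ (c a K' KH c' : ℕ) (L C₀ T₀ : ℝ), 1 ≤ K' ∧
    1 ≤ L ∧ 1 ≤ c ∧ a ≤ c ∧ 1 ≤ C₀ ∧ 2 ≤ T₀ ∧ ∀ K m s₀ : ℕ, ∃ Cst s₁ : ℕ,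
    ∀ {d J : ℕ} {F : Fam d J} (C : CDat F) (co : ℕ → Fin d) (p : ℕ → Prop)
      (w₀ z M hm u s t Rr ee v gn : ℕ) (U : Finset ℕ)
      (g hh tn : ℕ → ℕ → ℕ) (πF : Path F) (jF : ℕ → ℕ) (xB xT : ℕ → EndD F) (A : F.Ω → Prop)
      (C₁ Sr Q : ℝ),
      GrIn C co n S K m D w₀ z M R a hm u s t Rr s₀ ee g hh tn πF jF xB xT A →
      Nms p n w₀ z M R J Rr v gn U g hh tn →
      C.Cnd (fun i => co (i - 1)) n D w₀ z M g C₁ A →
      (c : ℝ) * (hm + u) + Cst ≤ s → c * (s + 1) ≤ t → T₀ ≤ Sr → 2 ^ (c * (t + 1)) ≤ Sr →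
      2 ^ (c * (t + Rr + 1)) ≤ Q →
      Real.exp (C₀ * (((c * (t + 1) + v : ℕ) : ℝ) * Real.log 2 + 1)) ≤ Q →
      ∃ (B : CDat F) (T : TDat F) (A' : F.Ω → Prop), (∀ ω, A' ω → A ω) ∧
        Pe F.p A ≤ K' ^ (M + R + 2) * Pe F.p A' ∧
        Hyp C B T p (fun i => co (i - 1)) n KH w₀ z M g hh C₁ Sr Q
          (Sr ^ c' * Real.exp (C₀ * (((c * (t + 1) + v : ℕ) : ℝ) * Real.log 2 + 1) -
            (gn : ℝ) * Real.log 2)) A' ∧
        ∀ y : ℕ, ∀ k ≤ M, (∀ i < n, (xB k).gk i + y + 2 * t + (ee + nlp (xB k).gk 0 i) + s₁ ≤ J) →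
          B.Near (fun i => co (i - 1)) n w₀ z hh k y L A' := by
  obtain ⟨c, a, K', L, hK', hL, hc, hac, hfam⟩ := grd_fam n S D hS
  obtain ⟨DΘ, c', C₀, T₀, hC₀, hT₀, hthin⟩ := thin_hyp n (max K' D) (R + 1)
  refine ⟨c, a, K', max (max K' D) DΘ, c', L, C₀, T₀, hK', hL, hc, hac, hC₀, hT₀,
    fun K m s₀ => ?_⟩
  obtain ⟨Cst, s₁, hfam⟩ := hfam K m s₀
  refine ⟨Cst, s₁, ?_⟩
  intro d J F C co p w₀ z M hm u s t Rr ee v gn U g hh tn πF jF xB xT A C₁ Sr Q H N hCn hs hst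
    hTS hcS hcQ hCQ
  obtain ⟨B, Tc, A', hA', hPe, HO, hnear⟩ := hfam C co w₀ z M R hm u s t Rr ee g hh tn πF jF xB
    xT A H hs hst
  have h2 : ∀ {a b : ℕ}, a ≤ b → (2 : ℝ) ^ a ≤ 2 ^ b := fun h =>
    pow_le_pow_right₀ (by norm_num) h
  have hn := N.n_pos
  have hCn' : C.Cnd (fun i => co (i - 1)) n D w₀ z M g C₁ A' :=
    ⟨hCn.deg, hCn.tri, hCn.Rdeg, hCn.Rtri, fun k hk ω hω => hCn.cls k hk ω (hA' ω hω),
      fun k hk ω hω => hCn.pos k hk ω (hA' ω hω), fun ω hω => hCn.line ω (hA' ω hω)⟩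
  have hRQ : (2 : ℝ) ^ Rr ≤ Q := by
    refine le_trans (h2 ?_) hcQ
    calc Rr ≤ 1 * (t + Rr + 1) := by omega
      _ ≤ _ := Nat.mul_le_mul_right _ hc
  obtain ⟨q1, q2, q3, q4, q5⟩ := hthin C B Tc p w₀ z M g hh (tt w₀ g tn) U
    (((c * (t + 1) + v : ℕ) : ℝ) * Real.log 2) ((gn : ℝ) * Real.log 2) Sr A' N.stc
    (by
      have := N.top
      have : M * z ≤ (M + 1) * z := Nat.mul_le_mul_right _ (by omega)
      omega) N.U_iff
    (fun ω hω => by
      have h3 := hCn.cls 0 (Nat.zero_le _) ω (hA' ω hω)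
      rw [Nat.zero_mul, Nat.add_zero] at h3
      exact h3) HO.Tcls
    (fun ω hω => ths_of HO N (le_max_left _ _)
      (fun v i h1 h3 => (hCn.deg 0 (Nat.zero_le _) v i h1 h3).trans (le_max_right _ _))
      (fun v i h1 h3 => hCn.tri 0 (Nat.zero_le _) v i h1 h3) hω)
    (fun i hi => by
      unfold tt g0
      rw [Nat.zero_mul, Nat.add_zero]
      by_cases h0 : i = 0
      · rw [if_pos h0, if_pos h0]
      · rw [if_neg h0, if_pos rfl, if_neg h0]) (if_pos rfl)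
    (fun k hk v i h1 h3 => (HO.Bdeg k hk v i h1 h3.le).trans (le_max_left _ _))
    (fun k hk v i h1 h3 => HO.Btri k hk v i h1 h3.le)
    (fun k hk i h1 h3 => by
      unfold tt
      rw [if_neg (by omega), if_neg (by omega)]
      exact N.hB k hk i h1 h3) hTS
    (fun k hk ω hω i h1 h3 b hb => (HO.chartB k hk ω hω 0 i h1 h3 b (by
        rw [pow_zero]
        exact hb)).trans (div_le_div_of_nonneg_right
          (by rw [Nat.add_zero]; exact hcS) (by positivity)))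
  obtain ⟨T, hT⟩ : ∃ T, T = mkT C Tc n w₀ z (max K' D) (R + 1) DΘ c' C₀ T₀ (tt w₀ g tn) U
    (((c * (t + 1) + v : ℕ) : ℝ) * Real.log 2) ((gn : ℝ) * Real.log 2) := ⟨_, rfl⟩
  rw [← hT] at q1 q2 q3 q4 q5
  refine ⟨B, T, A', hA', hPe, ?_, hnear⟩
  exact
    { n_pos := hn
      stc := N.stc
      top := N.top
      fat := hCn'.monoK ((le_max_right _ _).trans (le_max_left _ _)) le_rfl
      Bdeg := fun k hk v i h1 h3 => (HO.Bdeg k hk v i h1 h3.le).trans
        ((le_max_left _ _).trans (le_max_left _ _))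
      Btri := fun k hk v i h1 h3 => HO.Btri k hk v i h1 h3.le
      Bcls := HO.Bcls
      Bpos := fun k hk ω hω i h1 h3 => HO.Bpos k hk ω hω i h1 h3.le
      Tdeg := fun v i hi => (q1 v i hi).trans (le_max_right _ _)
      Tvars := q2
      Tcls := q3
      Tn1 := fun ω hω i hi hpi => (q4 ω hω i hi hpi).trans hCQ
      g_pos := N.g_pos
      g_ge := N.g_ge
      ratio := fun k hk i h1 h3 => by
        refine le_trans (h2 (N.ratio k hk i h1 h3)) ?_
        rw [pow_add, mul_comm]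
        exact mul_le_mul_of_nonneg_right hRQ (by positivity)
      ratio0 := (h2 N.ratio0).trans hRQ
      hg := N.hg
      uni := fun k hk ω hω i h1 h3 b hb => (HO.uni k hk ω hω 0 i h1 h3 b (by
        rw [pow_zero]
        exact hb)).trans (div_le_div_of_nonneg_right
          (by rw [Nat.add_zero]; exact hcQ) (by positivity))
      uniB := fun k hk ω hω i h1 h3 b hb => (HO.uniB k hk ω hω 0 i h1 h3.le b (by
        rw [pow_zero]
        exact hb)).trans (div_le_div_of_nonneg_right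
          (by rw [Nat.add_zero]; exact hcS) (by positivity))
      thin := q5 }

end Pool.STAT.GRD
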