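import Pool.Agent.H82.STAT.Dpc
import Pool.Agent.H64.STAT.Fam0

/-!
# The drop-out system (row 334, part D'')

`C` is the chain of the labels of all levels, all coordinates `1, …, n` (fat labels), `B` is the
chain of the balls, `T` are the polynomials of the dynamic natural coordinates over the level `0`
of `C`. The coordinates `j` with `p j` are static. `DPP.Hyp` are the conditions.

`DPP.dd` is the drop-out system: the time, and the heights `DPP.dx` of the static coordinates over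
the level `0` of `C`; its values contain the values of `C` and of `B`.

* `Hyp.cnd`: the conditions `CDat.CndX` for the drop-out system;
* `Hyp.rh_near`: its heights are the heights over `C`;
* `Hyp.self`: the dynamic natural coordinates of the samples.
-/

set_option autoImplicit false

namespace Pool.STAT.DPP

open Finset MvPolynomial
open Pool.Agent.H49.Ent Pool.Agent.H32.Dense Pool.STK Pool.KS3 Pool.KA Pool.KSAT Pool.PB Pool.GEN
open Pool.STAT.CLO Pool.STAT.CDat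

variable {m J : ℕ}

/-- The polynomials of the dynamic natural coordinates, a closed value of the window of the
level `0`. -/
structure TDat (F : Fam m J) : Type 1 where
  V : Type
  pt : PtT F → V
  li : LnT F → V
  P : V → ℕ → PN

/-- The system `Φ`, coordinates `≤ N`. -/
noncomputable def cut (N : ℕ) (Φ : ℕ → PN) (i : ℕ) : PN := if i ≤ N then Φ i else 0

theorem cut_of_le {N i : ℕ} {Φ : ℕ → PN} (h : i ≤ N) : cut N Φ i = Φ i := if_pos h

/-- **The conditions for the drop-out system.** `S`: the distance of the labels of `C` and of `B`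
of the same level. `Q`: the distance of the levels, the size of `T`. `ε`: the error of `T`. -/
structure Hyp {F : Fam m J} (C B : CDat F) (T : TDat F) (p : ℕ → Prop) (e : ℕ → Fin m)
    (n K w₀ z M : ℕ) (g h : ℕ → ℕ → ℕ) (C₁ S Q ε : ℝ) (A : F.Ω → Prop) : Prop where
  n_pos : 1 ≤ n
  stc : Stc p n
  top : w₀ + (M + 1) * z ≤ J
  fat : C.Cnd e n K w₀ z M g C₁ A
  Bdeg : ∀ k ≤ M, ∀ v, ∀ i, 1 ≤ i → i < n → (B.G k v i).totalDegree ≤ K
  Btri : ∀ k ≤ M, ∀ v, ∀ i, 1 ≤ i → i < n → (B.G k v i).vars ⊆ range i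
  Bcls : ∀ k ≤ M, ∀ ω, A ω → B.pt k (ptr F J ω) = B.li k (slam F (w₀ + k * z) ω)
  Bpos : ∀ k ≤ M, ∀ ω, A ω → ∀ i, 1 ≤ i → i < n →
    |F.x ω (e i) - eval (cx F e ω) (B.Ph w₀ z k ω i)| ≤ 1 / 2 ^ h k i
  Tdeg : ∀ v i, ¬ p i → (T.P v i).totalDegree ≤ K
  Tvars : ∀ v i, ¬ p i → ∀ l ∈ (T.P v i).vars, p l ∧ l < i
  Tcls : ∀ ω, A ω → T.pt (ptr F J ω) = T.li (slam F w₀ ω)
  Tn1 : ∀ ω, A ω → ∀ i < n, ¬ p i → n1 (T.P (T.li (slam F w₀ ω)) i) ≤ Q
  g_pos : ∀ k ≤ M, ∀ i, 1 ≤ i → i ≤ n → 1 ≤ g k i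
  g_ge : ∀ k ≤ M, ∀ i, 1 ≤ i → i ≤ n → g 0 i ≤ g k i
  ratio : ∀ k ≤ M, ∀ i, 1 ≤ i → i ≤ n → (2 : ℝ) ^ g k i ≤ Q * 2 ^ g 0 i
  ratio0 : (2 : ℝ) ^ ((M + 1) * z) ≤ Q
  hg : ∀ k ≤ M, ∀ i, 1 ≤ i → i < n → p i → h k i = g k i
  uni : ∀ k ≤ M, ∀ ω, A ω → ∀ i, 1 ≤ i → i ≤ n → ∀ b : ℕ → ℝ,
    Bx (g0 w₀ z g 0) (C.Ph w₀ z 0 ω) i b →
    |eval b (C.Ph w₀ z k ω i) - eval b (C.Ph w₀ z 0 ω i)| ≤ Q / 2 ^ g 0 i
  uniB : ∀ k ≤ M, ∀ ω, A ω → ∀ i, 1 ≤ i → i < n → ∀ b : ℕ → ℝ,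
    Bx (g0 w₀ z h k) (B.Ph w₀ z k ω) i b →
    |eval b (C.Ph w₀ z k ω i) - eval b (B.Ph w₀ z k ω i)| ≤ S / 2 ^ g k i
  thin : ∀ k ≤ M, ∀ ω, A ω → ∀ i, 1 ≤ i → i < n → ¬ p i → ∀ b : ℕ → ℝ,
    Bx (g0 w₀ z h k) (B.Ph w₀ z k ω) (i + 1) b →
    |nc (g0 w₀ z g 0) (C.Ph w₀ z 0 ω) b i -
      eval (nc (g0 w₀ z g 0) (C.Ph w₀ z 0 ω) b) (T.P (T.li (slam F w₀ ω)) i)| ≤ ε

/-! ### The drop-out system -/

section defs

variable {F : Fam m J} (C B : CDat F) (T : TDat F) (p : ℕ → Prop) [DecidablePred p]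
  (e : ℕ → Fin m) (n w₀ z : ℕ) (g : ℕ → ℕ → ℕ)

/-- The system of the level `0` as a function of the value and of the cell of the time. -/
noncomputable def Ph0 (v : C.V 0 × ℕ) (i : ℕ) : PN :=
  if i = 0 then MvPolynomial.C ((v.2 : ℝ) / 2 ^ (w₀ + 0 * z)) else C.G 0 v.1 i

/-- The frame of a value of the level `0`. -/
noncomputable def frm (v : C.V 0 × ℕ) (t : T.V) : ℕ → PN :=
  fr p (g0 w₀ z g 0) (cut n (Ph0 C w₀ z v)) (T.P t)

/-- The line in the window of the level `0`. -/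
def co (k : ℕ) (s : LnT F) : LnT F := (s.1, s.2.1, s.2.2 / 2 ^ (k * z))

/-- **The drop-out system.** -/
noncomputable def dd : CDat F where
  V k := (C.V 0 × ℕ) × (C.V k × B.V k × T.V)
  pt k y := ((C.pt 0 y, y.2.1 / 2 ^ (J - w₀)), (C.pt k y, B.pt k y, T.pt y))
  li k s := ((C.li 0 (co z k s), (co z k s).2.2), (C.li k s, B.li k s, T.li (co z k s)))
  G k v i := bind₁ (frm C T p n w₀ z g v.1 v.2.2.2)
    (C.G k v.2.1 (Nat.nth p i) - Ph0 C w₀ z v.1 (Nat.nth p i))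
  R s i := bind₁ (frm C T p n w₀ z g (C.li 0 s, s.2.2) (T.li s))
    (C.R s (Nat.nth p i) - Ph0 C w₀ z (C.li 0 s, s.2.2) (Nat.nth p i))

/-- The time and the heights of the static coordinates. -/
noncomputable def dx (ω : F.Ω) : ℕ → ℝ := hx p (cut n (C.Ph w₀ z 0 ω)) (cx F e ω)

/-- The precisions of the drop-out system. -/
noncomputable def dg (k i : ℕ) : ℕ := g k (Nat.nth p i) - 1

end defs

section thms

variable {F : Fam m J} {C B : CDat F} {T : TDat F} {p : ℕ → Prop}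
  {e : ℕ → Fin m} {n K w₀ z M : ℕ} {g h : ℕ → ℕ → ℕ} {C₁ S Q ε : ℝ} {A : F.Ω → Prop}

/-- The system `C` of level `0`. -/
theorem Ph0_eq (C : CDat F) (w₀ z : ℕ) (ω : F.Ω) :
    Ph0 C w₀ z (C.li 0 (slam F (w₀ + 0 * z) ω), F.T1 (w₀ + 0 * z) ω) = C.Ph w₀ z 0 ω := rfl

/-- The time is near the cell of the time. -/
theorem time_near (F : Fam m J) {w : ℕ} (hw : w ≤ J) (ω : F.Ω) :
    |F.t ω - (F.T1 w ω : ℝ) / 2 ^ w| ≤ 1 / 2 ^ w := by
  unfold Fam.t Fam.T1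
  obtain ⟨s, hs⟩ : ∃ s, J = w + s := ⟨J - w, by omega⟩
  have e1 : J - w = s := by omega
  rw [e1]
  have h4 : (F.T ω : ℝ) / 2 ^ J = (F.T ω : ℝ) / 2 ^ s / 2 ^ w := by
    rw [div_div, ← pow_add]
    congr 2
    omega
  rw [h4, ← sub_div, abs_div, abs_of_pos (by positivity : (0 : ℝ) < 2 ^ w)]
  refine div_le_div_of_nonneg_right ?_ (by positivity)
  have h5 : ((F.T ω / 2 ^ s : ℕ) : ℝ) ≤ (F.T ω : ℝ) / 2 ^ s := by
    have := @Nat.cast_div_le ℝ _ _ _ (F.T ω) (2 ^ s)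
    push_cast at this
    exact this
  have h6 : (F.T ω : ℝ) / 2 ^ s < ((F.T ω / 2 ^ s : ℕ) : ℝ) + 1 := by
    rw [div_lt_iff₀ (by positivity)]
    have h7 := Nat.lt_div_mul_add (a := F.T ω) (b := 2 ^ s) (by positivity)
    have h8 : ((F.T ω : ℕ) : ℝ) < ((F.T ω / 2 ^ s * 2 ^ s + 2 ^ s : ℕ) : ℝ) := by
      exact_mod_cast h7
    push_cast at h8
    linarith
  rw [abs_le]
  constructor <;> linarith

/-- Cut systems are triangular. -/
theorem cut_tri {N : ℕ} {Φ : ℕ → PN} (h : ∀ i ≤ N, (Φ i).vars ⊆ range i) : TriN (cut N Φ) := by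
  intro i
  unfold cut
  split_ifs with hi
  · exact h i hi
  · rw [vars_0]
    exact Finset.empty_subset _

theorem cut_deg {N : ℕ} {Φ : ℕ → PN} (h : ∀ i ≤ N, (Φ i).totalDegree ≤ K) (i : ℕ) :
    (cut N Φ i).totalDegree ≤ K := by
  unfold cut
  split_ifs with hi
  · exact h i hi
  · rw [totalDegree_zero]
    exact Nat.zero_le K

theorem cut_bx {N i : ℕ} {Φ : ℕ → PN} {γ : ℕ → ℕ} {b : ℕ → ℝ} (hi : i ≤ N + 1) :
    Bx γ (cut N Φ) i b ↔ Bx γ Φ i b := by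
  constructor <;> intro hb l hl <;> have h1 := hb l hl
  · rwa [cut_of_le (by omega)] at h1
  · rwa [cut_of_le (by omega)]

theorem cut_nc {N i : ℕ} {Φ : ℕ → PN} {γ : ℕ → ℕ} {b : ℕ → ℝ} (hi : i ≤ N) :
    nc γ (cut N Φ) b i = nc γ Φ b i := by
  unfold nc
  rw [cut_of_le hi]

theorem cut_nc_eval {N : ℕ} {Φ : ℕ → PN} {γ : ℕ → ℕ} {b : ℕ → ℝ} {P : PN}
    (hi : ∀ l ∈ P.vars, l ≤ N) : eval (nc γ (cut N Φ) b) P = eval (nc γ Φ b) P :=
  AdxRow.evl_congr fun l hl => cut_nc (hi l hl)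

theorem Ph_zero (C : CDat F) (w₀ z k : ℕ) (ω : F.Ω) : C.Ph w₀ z k ω 0 =
    MvPolynomial.C ((F.T1 (w₀ + k * z) ω : ℝ) / 2 ^ (w₀ + k * z)) := if_pos rfl

theorem Ph_vars {N : ℕ} {ω : F.Ω} {k : ℕ}
    (h : ∀ v : C.V k, ∀ i, 1 ≤ i → i ≤ N → (C.G k v i).vars ⊆ range i) :
    ∀ i ≤ N, (C.Ph w₀ z k ω i).vars ⊆ range i := by
  intro i hi
  unfold Ph
  split_ifs with h0
  · rw [vars_C]
    exact Finset.empty_subset _
  · exact h _ i (by omega) hi

theorem Ph_deg {N : ℕ} {ω : F.Ω} {k : ℕ}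
    (h : ∀ v : C.V k, ∀ i, 1 ≤ i → i ≤ N → (C.G k v i).totalDegree ≤ K) :
    ∀ i ≤ N, (C.Ph w₀ z k ω i).totalDegree ≤ K := by
  intro i hi
  unfold Ph
  split_ifs with h0
  · rw [totalDegree_C]
    exact Nat.zero_le K
  · exact h _ i (by omega) hi

theorem g0_zero {w₀ z k : ℕ} {g : ℕ → ℕ → ℕ} : g0 w₀ z g k 0 = w₀ + k * z := if_pos rfl

theorem g0_pos {w₀ z k i : ℕ} {g : ℕ → ℕ → ℕ} (hi : 1 ≤ i) : g0 w₀ z g k i = g k i :=
  if_neg (by omega)

namespace Hyp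

theorem Q2 (H : Hyp C B T p e n K w₀ z M g h C₁ S Q ε A) : 1 ≤ Q :=
  (one_le_pow₀ (by norm_num)).trans H.ratio0

/-- **The systems of one level.** -/
theorem lev (H : Hyp C B T p e n K w₀ z M g h C₁ S Q ε A) (hS : 0 ≤ S) (hQ : 2 ≤ Q)
    {ω : F.Ω} (hω : A ω) {k : ℕ} (hk : k ≤ M) :
    Lev p n K (g0 w₀ z g 0) (g0 w₀ z g k) (g0 w₀ z h k) (cut n (C.Ph w₀ z 0 ω))
      (cut n (C.Ph w₀ z k ω)) (cut (n - 1) (B.Ph w₀ z k ω)) (T.P (T.li (slam F w₀ ω)))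
      S Q ε := by
  have hn := H.n_pos
  have hkz : k * z ≤ M * z := Nat.mul_le_mul_right z hk
  have hwJ : w₀ + k * z ≤ J := by
    have h1 := H.top
    have h2 : (M + 1) * z = M * z + z := by ring
    omega
  have hvars : ∀ k ≤ M, ∀ i ≤ n, (C.Ph w₀ z k ω i).vars ⊆ range i :=
    fun k hk => Ph_vars (H.fat.tri k hk)
  have hdeg : ∀ k ≤ M, ∀ i ≤ n, (C.Ph w₀ z k ω i).totalDegree ≤ K :=
    fun k hk => Ph_deg (H.fat.deg k hk)
  have hp0 : ∀ {i : ℕ}, ¬ p i → 1 ≤ i := fun {i} hi => by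
    rcases Nat.eq_zero_or_pos i with h0 | h0
    · subst h0
      exact absurd H.stc.zero hi
    · exact h0
  refine ⟨H.stc, cut_tri (hvars 0 (Nat.zero_le M)), cut_tri (hvars k hk),
    cut_tri (Ph_vars fun v i h1 h2 => H.Btri k hk v i h1 (by omega)),
    cut_deg (hdeg 0 (Nat.zero_le M)), cut_deg (hdeg k hk),
    cut_deg (Ph_deg fun v i h1 h2 => H.Bdeg k hk v i h1 (by omega)),
    fun j hj => H.Tdeg _ j hj, fun j hj => H.Tvars _ j hj, fun j hj hpj => H.Tn1 ω hω j hj hpj,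
    fun j hj hpj => ?_, fun j hj => ?_, fun j hj => ?_, fun j hj b hb => ?_,
    fun j hj b hb => ?_, fun j hj hpj b hb => ?_⟩
  · rcases Nat.eq_zero_or_pos j with h0 | h0
    · rw [h0, g0_zero, g0_zero]
    · rw [g0_pos h0, g0_pos h0]
      exact H.hg k hk j h0 hj hpj
  · rcases Nat.eq_zero_or_pos j with h0 | h0
    · rw [h0, g0_zero, g0_zero]
      omega
    · rw [g0_pos h0, g0_pos h0]
      exact H.g_ge k hk j h0 hj
  · rcases Nat.eq_zero_or_pos j with h0 | h0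
    · rw [h0, g0_zero, g0_zero, Nat.zero_mul, Nat.add_zero, pow_add, mul_comm Q]
      refine mul_le_mul_of_nonneg_left ?_ (by positivity)
      refine (pow_le_pow_right₀ (by norm_num) (hkz.trans ?_)).trans H.ratio0
      exact Nat.mul_le_mul_right z (Nat.le_succ M)
    · rw [g0_pos h0, g0_pos h0]
      exact H.ratio k hk j h0 hj
  · rw [cut_of_le hj, cut_of_le hj]
    rcases Nat.eq_zero_or_pos j with h0 | h0
    · subst h0
      rw [Ph_zero, Ph_zero, eval_C, eval_C, g0_zero]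
      have e1 := time_near F hwJ ω
      have e2 := time_near F (show w₀ + 0 * z ≤ J by omega) ω
      have e3 : (1 : ℝ) / 2 ^ (w₀ + k * z) ≤ 1 / 2 ^ (w₀ + 0 * z) :=
        one_div_le_one_div_of_le (by positivity)
          (pow_le_pow_right₀ (by norm_num) (by omega))
      have e4 : (2 : ℝ) / 2 ^ (w₀ + 0 * z) ≤ Q / 2 ^ (w₀ + 0 * z) :=
        div_le_div_of_nonneg_right hQ (by positivity)
      have e5 : (2 : ℝ) / 2 ^ (w₀ + 0 * z) = 1 / 2 ^ (w₀ + 0 * z) + 1 / 2 ^ (w₀ + 0 * z) := by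
        ring
      rw [abs_le] at e1 e2 ⊢
      constructor <;> linarith [e1.1, e1.2, e2.1, e2.2]
    · have h2 := H.uni k hk ω hω j h0 hj b ((cut_bx (by omega)).1 hb)
      rwa [g0_pos h0]
  · rw [cut_of_le (show j ≤ n by omega), cut_of_le (show j ≤ n - 1 by omega)]
    rcases Nat.eq_zero_or_pos j with h0 | h0
    · subst h0
      rw [Ph_zero, Ph_zero, sub_self, abs_zero]
      positivity
    · have h2 := H.uniB k hk ω hω j h0 hj b ((cut_bx (by omega)).1 hb)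
      rwa [g0_pos h0]
  · have h2 := H.thin k hk ω hω j (hp0 hpj) hj hpj b ((cut_bx (by omega)).1 hb)
    have h3 : ∀ l ∈ (T.P (T.li (slam F w₀ ω)) j).vars, l ≤ n := fun l hl => by
      have h3 := (H.Tvars _ j hpj l hl).2
      omega
    rw [cut_nc (show j ≤ n by omega), cut_nc_eval h3]
    exact h2

end Hyp

/-! ### The polynomials of the drop-out system -/

section fld

variable [DecidablePred p]

/-- The frame of a sample. -/
noncomputable abbrev fw (C : CDat F) (T : TDat F) (p : ℕ → Prop) [DecidablePred p]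
    (n w₀ z : ℕ) (g : ℕ → ℕ → ℕ) (ω : F.Ω) : ℕ → PN :=
  fr p (g0 w₀ z g 0) (cut n (C.Ph w₀ z 0 ω)) (T.P (T.li (slam F w₀ ω)))

theorem co_slam {k : ℕ} (hk : w₀ + k * z ≤ J) (ω : F.Ω) :
    co z k (slam F (w₀ + k * z) ω) = slam F w₀ ω := by
  have h1 := slam_coarse F (Nat.le_add_right w₀ (k * z)) hk ω
  rw [Nat.add_sub_cancel_left] at h1
  exact h1.symm

theorem li_zero (C : CDat F) (w₀ z : ℕ) (ω : F.Ω) :
    C.li 0 (slam F w₀ ω) = C.li 0 (slam F (w₀ + 0 * z) ω) := by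
  rw [Nat.zero_mul, Nat.add_zero]

theorem Ph0_slam (C : CDat F) (w₀ z : ℕ) (ω : F.Ω) :
    Ph0 C w₀ z (C.li 0 (slam F w₀ ω), (slam F w₀ ω).2.2) = C.Ph w₀ z 0 ω := by
  have h1 : (slam F w₀ ω) = slam F (w₀ + 0 * z) ω := by
    rw [Nat.zero_mul, Nat.add_zero]
  rw [h1]
  rfl

/-- **The polynomials of the drop-out system.** -/
theorem dd_Ph {k i : ℕ} (hk : w₀ + k * z ≤ J) (hi : 1 ≤ i) (hp : Stc p n)
    (hin : i ≤ Nat.count p n) (ω : F.Ω) :
    (dd C B T p n w₀ z g).Ph w₀ z k ω i = bind₁ (fw C T p n w₀ z g ω)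
      (cut n (C.Ph w₀ z k ω) (Nat.nth p i) - cut n (C.Ph w₀ z 0 ω) (Nat.nth p i)) := by
  have hst := hp.st_le hin
  have hst1 := hp.st_pos hi
  unfold Ph
  rw [if_neg (by omega)]
  show bind₁ (frm C T p n w₀ z g (C.li 0 (co z k (slam F (w₀ + k * z) ω)),
    (co z k (slam F (w₀ + k * z) ω)).2.2) (T.li (co z k (slam F (w₀ + k * z) ω))))
    (C.G k (C.li k (slam F (w₀ + k * z) ω)) (Nat.nth p i) -
      Ph0 C w₀ z (C.li 0 (co z k (slam F (w₀ + k * z) ω)),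
        (co z k (slam F (w₀ + k * z) ω)).2.2) (Nat.nth p i)) = _
  rw [co_slam hk]
  unfold frm
  rw [Ph0_slam]
  unfold fw
  rw [cut_of_le hst, cut_of_le hst]
  congr 2
  rw [if_neg (by omega)]

/-- The value of the polynomials of the drop-out system. -/
theorem eval_dd_Ph {k i : ℕ} (hk : w₀ + k * z ≤ J) (hi : 1 ≤ i) (hp : Stc p n)
    (hin : i ≤ Nat.count p n) (ω : F.Ω) (u : ℕ → ℝ) :
    eval u ((dd C B T p n w₀ z g).Ph w₀ z k ω i) =
      eval (fp p (g0 w₀ z g 0) (cut n (C.Ph w₀ z 0 ω)) (T.P (T.li (slam F w₀ ω))) u)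
      (cut n (C.Ph w₀ z k ω) (Nat.nth p i) - cut n (C.Ph w₀ z 0 ω) (Nat.nth p i)) := by
  rw [dd_Ph hk hi hp hin, eval_fr]

/-- The polynomials of the line. -/
theorem eval_dd_R {i : ℕ} (hi : i ≤ Nat.count p n) (hp : Stc p n) (ω : F.Ω) (u : ℕ → ℝ) :
    eval u ((dd C B T p n w₀ z g).R (slam F w₀ ω) i) =
      eval (fp p (g0 w₀ z g 0) (cut n (C.Ph w₀ z 0 ω)) (T.P (T.li (slam F w₀ ω))) u)
      (C.R (slam F w₀ ω) (Nat.nth p i) - cut n (C.Ph w₀ z 0 ω) (Nat.nth p i)) := by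
  have hst := hp.st_le hi
  show eval u (bind₁ (frm C T p n w₀ z g (C.li 0 (slam F w₀ ω), (slam F w₀ ω).2.2)
    (T.li (slam F w₀ ω))) (C.R (slam F w₀ ω) (Nat.nth p i) -
      Ph0 C w₀ z (C.li 0 (slam F w₀ ω), (slam F w₀ ω).2.2) (Nat.nth p i))) = _
  unfold frm
  rw [Ph0_slam, eval_fr, cut_of_le hst]

/-- The height over a point of the frame of a static coordinate is the height of the drop-out
system. -/
theorem fp_ht {k i : ℕ} (hk : w₀ + k * z ≤ J) (hi : 1 ≤ i) (hp : Stc p n)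
    (hin : i ≤ Nat.count p n) (ω : F.Ω) (hΦ : TriN (cut n (C.Ph w₀ z 0 ω))) (u : ℕ → ℝ) :
    fp p (g0 w₀ z g 0) (cut n (C.Ph w₀ z 0 ω)) (T.P (T.li (slam F w₀ ω))) u (Nat.nth p i) -
      eval (fp p (g0 w₀ z g 0) (cut n (C.Ph w₀ z 0 ω)) (T.P (T.li (slam F w₀ ω))) u)
        (cut n (C.Ph w₀ z k ω) (Nat.nth p i)) =
      u i - eval u ((dd C B T p n w₀ z g).Ph w₀ z k ω i) := by
  have h1 := fp_st (Θ := T.P (T.li (slam F w₀ ω))) (γ := g0 w₀ z g 0) hp hΦ u (hp.mem i)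
    (hp.st_pos hi)
  rw [hp.ix_st] at h1
  rw [eval_dd_Ph hk hi hp hin, map_sub, ← h1]
  ring

end fld

namespace Hyp

theorem wk (H : Hyp C B T p e n K w₀ z M g h C₁ S Q ε A) {k : ℕ} (hk : k ≤ M) :
    w₀ + k * z ≤ J := by
  have hkz : k * z ≤ M * z := Nat.mul_le_mul_right z hk
  have h1 := H.top
  have h2 : (M + 1) * z = M * z + z := by ring
  omega

theorem cx_zero (F : Fam m J) (e : ℕ → Fin m) (ω : F.Ω) : cx F e ω 0 = F.t ω := if_pos rfl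

theorem cx_pos (F : Fam m J) (e : ℕ → Fin m) (ω : F.Ω) {i : ℕ} (hi : 1 ≤ i) :
    cx F e ω i = F.x ω (e i) := if_neg (by omega)

/-- The sample is in the natural boxes of `C`. -/
theorem boxC (H : Hyp C B T p e n K w₀ z M g h C₁ S Q ε A) {ω : F.Ω} (hω : A ω) {k : ℕ}
    (hk : k ≤ M) : ∀ i ≤ n, |cx F e ω i - eval (cx F e ω) (C.Ph w₀ z k ω i)| ≤
      1 / 2 ^ g0 w₀ z g k i := by
  intro i hi
  rcases Nat.eq_zero_or_pos i with h0 | h0
  · subst h0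
    rw [Ph_zero, eval_C, cx_zero, g0_zero]
    exact time_near F (H.wk hk) ω
  · rw [cx_pos F e ω h0, g0_pos h0]
    exact H.fat.pos k hk ω hω i h0 hi

/-- The sample is in the natural boxes of the balls. -/
theorem boxB (H : Hyp C B T p e n K w₀ z M g h C₁ S Q ε A) {ω : F.Ω} (hω : A ω) {k : ℕ}
    (hk : k ≤ M) : Bx (g0 w₀ z h k) (B.Ph w₀ z k ω) n (cx F e ω) := by
  intro i hi
  rcases Nat.eq_zero_or_pos i with h0 | h0
  · subst h0
    rw [Ph_zero, eval_C, cx_zero, g0_zero]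
    exact time_near F (H.wk hk) ω
  · rw [cx_pos F e ω h0, g0_pos h0]
    exact H.Bpos k hk ω hω i h0 hi

/-- **The dynamic natural coordinates of the samples.** -/
theorem self (H : Hyp C B T p e n K w₀ z M g h C₁ S Q ε A) {ω : F.Ω} (hω : A ω) {i : ℕ}
    (hi : i < n) (hpi : ¬ p i) :
    |nc (g0 w₀ z g 0) (C.Ph w₀ z 0 ω) (cx F e ω) i -
      eval (nc (g0 w₀ z g 0) (C.Ph w₀ z 0 ω) (cx F e ω)) (T.P (T.li (slam F w₀ ω)) i)| ≤ ε := by
  have h1 : 1 ≤ i := by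
    rcases Nat.eq_zero_or_pos i with h0 | h0
    · subst h0
      exact absurd H.stc.zero hpi
    · exact h0
  exact H.thin 0 (Nat.zero_le M) ω hω i h1 hi hpi _ fun l hl =>
    H.boxB hω (Nat.zero_le M) l (by omega)

variable [DecidablePred p]

/-- The natural coordinates of a sample and of its point of the frame. -/
theorem nat_near (H : Hyp C B T p e n K w₀ z M g h C₁ S Q ε A) (hε : 0 ≤ ε) (hε1 : ε ≤ 1)
    {ω : F.Ω} (hω : A ω) {l : ℕ} (hl : l < n) :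
    |nc (g0 w₀ z g 0) (cut n (C.Ph w₀ z 0 ω)) (cx F e ω) l| ≤ 1 ∧
    |nc (g0 w₀ z g 0) (cut n (C.Ph w₀ z 0 ω)) (fp p (g0 w₀ z g 0) (cut n (C.Ph w₀ z 0 ω))
      (T.P (T.li (slam F w₀ ω))) (dx C p e n w₀ z ω)) l| ≤ 2 ∧
    |nc (g0 w₀ z g 0) (cut n (C.Ph w₀ z 0 ω)) (cx F e ω) l -
      nc (g0 w₀ z g 0) (cut n (C.Ph w₀ z 0 ω)) (fp p (g0 w₀ z g 0) (cut n (C.Ph w₀ z 0 ω))
      (T.P (T.li (slam F w₀ ω))) (dx C p e n w₀ z ω)) l| ≤ ε := by
  have hΦ : TriN (cut n (C.Ph w₀ z 0 ω)) :=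
    cut_tri (Ph_vars (H.fat.tri 0 (Nat.zero_le M)))
  have h1 : |nc (g0 w₀ z g 0) (cut n (C.Ph w₀ z 0 ω)) (cx F e ω) l| ≤ 1 := by
    rw [nc_le, cut_of_le hl.le]
    exact H.boxC hω (Nat.zero_le M) l hl.le
  have h2 : |nc (g0 w₀ z g 0) (cut n (C.Ph w₀ z 0 ω)) (cx F e ω) l -
      nc (g0 w₀ z g 0) (cut n (C.Ph w₀ z 0 ω)) (fp p (g0 w₀ z g 0) (cut n (C.Ph w₀ z 0 ω))
      (T.P (T.li (slam F w₀ ω))) (dx C p e n w₀ z ω)) l| ≤ ε := by
    refine near_hx H.stc hΦ hε (fun hpl k hk => (H.Tvars _ l hpl k hk).1) fun hpl => ?_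
    have h3 : ∀ k ∈ (T.P (T.li (slam F w₀ ω)) l).vars, k ≤ n := fun k hk => by
      have h3 := (H.Tvars _ l hpl k hk).2
      omega
    rw [cut_nc hl.le, cut_nc_eval h3]
    exact H.self hω hl hpl
  refine ⟨h1, ?_, h2⟩
  have h3 := abs_sub_abs_le_abs_sub (nc (g0 w₀ z g 0) (cut n (C.Ph w₀ z 0 ω)) (fp p
    (g0 w₀ z g 0) (cut n (C.Ph w₀ z 0 ω)) (T.P (T.li (slam F w₀ ω))) (dx C p e n w₀ z ω)) l)
    (nc (g0 w₀ z g 0) (cut n (C.Ph w₀ z 0 ω)) (cx F e ω) l)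
  rw [abs_sub_comm] at h2
  linarith

end Hyp

end thms

/-! ### The heights -/

/-- **The heights of the drop-out system** are the heights over `C`. -/
theorem rh_near (n K : ℕ) : ∃ (c : ℕ) (T₀ : ℝ), 2 ≤ T₀ ∧ ∀ {m J : ℕ} {F : Fam m J}
    (C B : CDat F) (T : TDat F) (p : ℕ → Prop) [DecidablePred p] (e : ℕ → Fin m)
    (w₀ z M : ℕ) (g h : ℕ → ℕ → ℕ) (C₁ S Q ε : ℝ) (A : F.Ω → Prop),
    Hyp C B T p e n K w₀ z M g h C₁ S Q ε A → 0 ≤ S → T₀ ≤ Q → 0 ≤ ε → ε ≤ 1 →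
    ∀ k ≤ M, ∀ ω, A ω → ∀ i, 1 ≤ i → i ≤ Nat.count p n →
      |(dx C p e n w₀ z ω i - eval (dx C p e n w₀ z ω)
          ((dd C B T p n w₀ z g).Ph w₀ z k ω i)) -
        (cx F e ω (Nat.nth p i) - eval (cx F e ω) (C.Ph w₀ z k ω (Nat.nth p i)))| ≤
      Q ^ c * ε / 2 ^ g 0 (Nat.nth p i) := by
  obtain ⟨d, T₁, hT₁, h1⟩ := dif n K 1
  refine ⟨d, T₁ + 1, by linarith, ?_⟩
  intro m J F C B T p _ e w₀ z M g h C₁ S Q ε A H hS hQ hε hε1 k hk ω hω i hi hin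
  have hst := H.stc.st_le hin
  have hst1 := H.stc.st_pos hi
  have hQ2 : 2 ≤ Q := by linarith
  have hL := H.lev hS hQ2 hω hk
  have h2 := h1 p _ _ _ _ _ _ _ S Q ε hL (by linarith) (Nat.nth p i) hst
    (fp p (g0 w₀ z g 0) (cut n (C.Ph w₀ z 0 ω)) (T.P (T.li (slam F w₀ ω)))
      (dx C p e n w₀ z ω)) (cx F e ω) ε hε
    (fun l hl => by
      rw [pow_one]
      exact ((H.nat_near hε hε1 hω (show l < n by omega)).2.1).trans hQ2)
    (fun l hl => by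
      rw [pow_one]
      exact ((H.nat_near hε hε1 hω (show l < n by omega)).1).trans (by linarith))
    (fun l hl => (H.nat_near hε hε1 hω (show l < n by omega)).2.2)
  rw [g0_pos hst1] at h2
  have h3 : (dx C p e n w₀ z ω i - eval (dx C p e n w₀ z ω)
          ((dd C B T p n w₀ z g).Ph w₀ z k ω i)) -
        (cx F e ω (Nat.nth p i) - eval (cx F e ω) (C.Ph w₀ z k ω (Nat.nth p i))) =
      eval (cx F e ω) (cut n (C.Ph w₀ z k ω) (Nat.nth p i) -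
        cut n (C.Ph w₀ z 0 ω) (Nat.nth p i)) -
      eval (fp p (g0 w₀ z g 0) (cut n (C.Ph w₀ z 0 ω)) (T.P (T.li (slam F w₀ ω)))
      (dx C p e n w₀ z ω)) (cut n (C.Ph w₀ z k ω) (Nat.nth p i) -
        cut n (C.Ph w₀ z 0 ω) (Nat.nth p i)) := by
    rw [eval_dd_Ph (H.wk hk) hi H.stc hin]
    have h4 : dx C p e n w₀ z ω i = cx F e ω (Nat.nth p i) -
        eval (cx F e ω) (cut n (C.Ph w₀ z 0 ω) (Nat.nth p i)) := if_neg (by omega)
    rw [h4, map_sub (eval (cx F e ω)), cut_of_le hst, cut_of_le hst]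
    ring
  rw [h3]
  exact h2

/-! ### The conditions -/

/-- **The conditions for the drop-out system.** -/
theorem cnd (n K : ℕ) : ∃ (K'' c c' : ℕ) (T₀ : ℝ), 2 ≤ T₀ ∧ ∀ {m J : ℕ} {F : Fam m J}
    (C B : CDat F) (T : TDat F) (p : ℕ → Prop) [DecidablePred p] (e : ℕ → Fin m)
    (w₀ z M : ℕ) (g h : ℕ → ℕ → ℕ) (C₁ C₁' S Q ε : ℝ) (A : F.Ω → Prop),
    Hyp C B T p e n K w₀ z M g h C₁ S Q ε A → T₀ ≤ S → S ≤ Q → 0 ≤ ε → Q ^ c * ε ≤ 1 →
    Real.exp (C₁ * z) * S ^ c' ≤ Real.exp (C₁' * z) →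
    (dd C B T p n w₀ z g).CndX (dx C p e n w₀ z) (Nat.count p n) K'' w₀ z M (dg p g) C₁' A := by
  obtain ⟨d, T₁, hT₁, h1⟩ := rh_near n K
  obtain ⟨f, f', T₂, hT₂, h2⟩ := box_incl n K
  obtain ⟨C₀, hC₀, h3⟩ := dil n K
  obtain ⟨K₁, hK₁⟩ : ∃ K₁, K₁ = K * (K + 1) ^ (n + 1) := ⟨_, rfl⟩
  rw [← hK₁] at h3
  refine ⟨K * (K + 1) ^ (n + 1) * (K + 1), d + f + 1, f' * K₁ + 1, T₁ + T₂ + C₀, by linarith,
    ?_⟩
  intro m J F C B T p _ e w₀ z M g h C₁ C₁' S Q ε A H hS hSQ hε hεQ hC₁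
  have hS1 : 1 ≤ S := by linarith
  have hS0 : 0 ≤ S := by linarith
  have hQ2 : 2 ≤ Q := by linarith
  have hQ1 : 1 ≤ Q := by linarith
  have hQ0 : 0 ≤ Q := by linarith
  have hεd : Q ^ (d + 1) * ε ≤ 1 :=
    (mul_le_mul_of_nonneg_right (pow_up hQ1 (by omega)) hε).trans hεQ
  have hεf : Q ^ f * ε ≤ 1 :=
    (mul_le_mul_of_nonneg_right (pow_up hQ1 (by omega)) hε).trans hεQ
  have hε1 : ε ≤ 1 := by
    refine le_trans ?_ hεQ
    have : 1 * ε ≤ Q ^ (d + f + 1) * ε := mul_le_mul_of_nonneg_right (one_le_pow₀ hQ1) hε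
    linarith
  have hM0 : 0 ≤ M := Nat.zero_le M
  have hst : ∀ {i : ℕ}, i ≤ Nat.count p n → Nat.nth p i ≤ n := fun hi => H.stc.st_le hi
  have hst1 : ∀ {i : ℕ}, 1 ≤ i → 1 ≤ Nat.nth p i := fun hi => H.stc.st_pos hi
  -- the systems of the level `0`, all values
  have tri0 : ∀ v : C.V 0 × ℕ, TriN (cut n (Ph0 C w₀ z v)) := fun v => cut_tri fun i hi => by
    unfold Ph0
    split_ifs with h0
    · rw [vars_C]
      exact Finset.empty_subset _
    · exact H.fat.tri 0 hM0 v.1 i (by omega) hi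
  have deg0 : ∀ (v : C.V 0 × ℕ) (i : ℕ), (cut n (Ph0 C w₀ z v) i).totalDegree ≤ K :=
    fun v => cut_deg fun i hi => by
    unfold Ph0
    split_ifs with h0
    · rw [totalDegree_C]
      exact Nat.zero_le K
    · exact H.fat.deg 0 hM0 v.1 i (by omega) hi
  have hfr : ∀ (v : C.V 0 × ℕ) (t : T.V) (i : ℕ) (P : PN), 1 ≤ i → i ≤ Nat.count p n →
      P.vars ⊆ range (Nat.nth p i) → P.totalDegree ≤ K →
      (bind₁ (frm C T p n w₀ z g v t) (P - Ph0 C w₀ z v (Nat.nth p i))).vars ⊆ range i ∧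
      (bind₁ (frm C T p n w₀ z g v t) (P - Ph0 C w₀ z v (Nat.nth p i))).totalDegree ≤
        K * (K + 1) ^ (n + 1) * (K + 1) := by
    intro v t i P hi hin hv hd
    have e1 : Ph0 C w₀ z v (Nat.nth p i) = cut n (Ph0 C w₀ z v) (Nat.nth p i) :=
      (cut_of_le (hst hin)).symm
    rw [e1]
    exact fr_bind (D := K + 1) H.stc (tri0 v) (deg0 v) (by omega) (hst hin)
      (AdxRow.vars_sub_le hv (tri0 v _))
      ((totalDegree_sub _ _).trans (max_le hd (deg0 v _)))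
      (fun j _ hj => H.Tvars t j hj) (fun j _ hj => (H.Tdeg t j hj).trans (Nat.le_succ K))
  refine ⟨fun ω => ?_, fun k hk v i hi hin => ?_, fun k hk v i hi hin => ?_,
    fun l i hi hin => ?_, fun l i hi hin => ?_, fun k hk ω hω => ?_,
    fun k hk ω hω i hi hin => ?_, fun ω hω i hi hin b hb => ?_⟩
  · show hx p _ (cx F e ω) 0 = _
    unfold hx
    rw [if_pos rfl]
    exact Hyp.cx_zero F e ω
  · exact (hfr v.1 v.2.2.2 i (C.G k v.2.1 (Nat.nth p i)) hi hin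
      (H.fat.tri k hk _ _ (hst1 hi) (hst hin)) (H.fat.deg k hk _ _ (hst1 hi) (hst hin))).2
  · exact (hfr v.1 v.2.2.2 i (C.G k v.2.1 (Nat.nth p i)) hi hin
      (H.fat.tri k hk _ _ (hst1 hi) (hst hin)) (H.fat.deg k hk _ _ (hst1 hi) (hst hin))).1
  · exact (hfr (C.li 0 l, l.2.2) (T.li l) i (C.R l (Nat.nth p i)) hi hin
      (H.fat.Rtri _ _ (hst1 hi) (hst hin)) (H.fat.Rdeg _ _ (hst1 hi) (hst hin))).2
  · exact (hfr (C.li 0 l, l.2.2) (T.li l) i (C.R l (Nat.nth p i)) hi hin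
      (H.fat.Rtri _ _ (hst1 hi) (hst hin)) (H.fat.Rdeg _ _ (hst1 hi) (hst hin))).1
  · -- closed
    show ((C.pt 0 (ptr F J ω), (ptr F J ω).2.1 / 2 ^ (J - w₀)),
      (C.pt k (ptr F J ω), B.pt k (ptr F J ω), T.pt (ptr F J ω))) =
      ((C.li 0 (co z k (slam F (w₀ + k * z) ω)), (co z k (slam F (w₀ + k * z) ω)).2.2),
        (C.li k (slam F (w₀ + k * z) ω), B.li k (slam F (w₀ + k * z) ω),
          T.li (co z k (slam F (w₀ + k * z) ω))))
    rw [co_slam (H.wk hk), H.fat.cls k hk ω hω, H.Bcls k hk ω hω, H.Tcls ω hω,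
      H.fat.cls 0 hM0 ω hω, ← li_zero C w₀ z ω]
    rfl
  · -- the heights
    have h4 := h1 C B T p e w₀ z M g h C₁ S Q ε A H hS0 (by linarith) hε hε1 k hk ω hω i hi hin
    have h5 := H.boxC hω hk (Nat.nth p i) (hst hin)
    rw [g0_pos (hst1 hi)] at h5
    obtain ⟨x, hx⟩ : ∃ x, x = dx C p e n w₀ z ω i - eval (dx C p e n w₀ z ω)
      ((dd C B T p n w₀ z g).Ph w₀ z k ω i) := ⟨_, rfl⟩
    obtain ⟨y, hy⟩ : ∃ y, y = cx F e ω (Nat.nth p i) -
      eval (cx F e ω) (C.Ph w₀ z k ω (Nat.nth p i)) := ⟨_, rfl⟩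
    rw [← hx, ← hy] at h4
    rw [← hy] at h5
    rw [← hx]
    have h6 : Q ^ d * ε / 2 ^ g 0 (Nat.nth p i) ≤ 1 / 2 ^ g k (Nat.nth p i) := by
      rw [div_le_div_iff₀ (by positivity) (by positivity), one_mul]
      have h7 := H.ratio k hk _ (hst1 hi) (hst hin)
      calc Q ^ d * ε * 2 ^ g k (Nat.nth p i) ≤ Q ^ d * ε * (Q * 2 ^ g 0 (Nat.nth p i)) :=
            mul_le_mul_of_nonneg_left h7 (by positivity)
        _ = Q ^ (d + 1) * ε * 2 ^ g 0 (Nat.nth p i) := by ring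
        _ ≤ 1 * 2 ^ g 0 (Nat.nth p i) := mul_le_mul_of_nonneg_right hεd (by positivity)
        _ = _ := one_mul _
    have h7 : |x| ≤ |x - y| + |y| := by
      have := abs_add_le (x - y) y
      rwa [sub_add_cancel] at this
    have h8 : (1 : ℝ) / 2 ^ dg p g k i = 1 / 2 ^ g k (Nat.nth p i) +
        1 / 2 ^ g k (Nat.nth p i) := by
      have h9 := H.g_pos k hk _ (hst1 hi) (hst hin)
      unfold dg
      obtain ⟨a, ha⟩ : ∃ a, g k (Nat.nth p i) = a + 1 := ⟨g k (Nat.nth p i) - 1, by omega⟩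
      rw [ha, Nat.add_sub_cancel, pow_succ]
      field_simp
      norm_num
    rw [h8]
    exact h7.trans (add_le_add (h4.trans h6) h5)
  · -- the line
    have hL := H.lev hS0 hQ2 hω le_rfl
    have hΦ : TriN (cut n (C.Ph w₀ z 0 ω)) := hL.triΦ
    have hwM := H.wk (le_refl M)
    obtain ⟨P, hP⟩ : ∃ P, P = fp p (g0 w₀ z g 0) (cut n (C.Ph w₀ z 0 ω))
      (T.P (T.li (slam F w₀ ω))) b := ⟨_, rfl⟩
    have h4 : ∀ j < Nat.nth p i, p j → |P j - eval P (cut n (C.Ph w₀ z M ω) j)| ≤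
        2 / 2 ^ g0 w₀ z g M j := by
      intro j hj hpj
      have h5 := H.stc.ix_of_lt hpj hj
      have h6 := hb (Nat.count p j) h5
      rcases Nat.eq_zero_or_pos j with h0 | h0
      · subst h0
        rw [Nat.count_zero] at h6
        have h7 : P 0 = b 0 := by
          rw [hP]
          exact fp_zero H.stc hΦ b
        rw [cut_of_le (Nat.zero_le n), h7, Ph_zero, eval_C, g0_zero]
        rw [Ph_zero, eval_C, g0_zero] at h6
        refine h6.trans (div_le_div_of_nonneg_right (by norm_num) (by positivity))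
      · have h7 := H.stc.ix_pos h0
        have h8 := fp_ht (C := C) (B := B) (T := T) (g := g) hwM h7 H.stc (by omega) ω hΦ b
        rw [st_ix hpj, ← hP] at h8
        rw [h8]
        refine h6.trans ?_
        rw [g0_pos h7, g0_pos h0]
        unfold dg
        rw [st_ix hpj]
        have h9 := H.g_pos M le_rfl j h0 (by have := hst hin; omega)
        obtain ⟨a, ha⟩ : ∃ a, g M j = a + 1 := ⟨g M j - 1, by omega⟩
        rw [ha, Nat.add_sub_cancel, pow_succ]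
        refine le_of_eq ?_
        field_simp
    have h5 := h2 p _ _ _ _ _ _ _ S Q ε hL (by linarith) hSQ hε hεf (Nat.nth p i) (hst hin) b
      (by rw [← hP]; exact h4)
    rw [← hP] at h5
    -- the difference on the natural box
    have h6 := h3 (cut n (C.Ph w₀ z M ω)) (g0 w₀ z g M)
      (C.R (slam F w₀ ω) (Nat.nth p i) - cut n (C.Ph w₀ z M ω) (Nat.nth p i)) (Nat.nth p i)
      (Real.exp (C₁ * z) / 2 ^ g M (Nat.nth p i)) (S ^ f') hL.triΨ hL.degΨ (hst hin)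
      (AdxRow.vars_sub_le (H.fat.Rtri _ _ (hst1 hi) (hst hin)) (hL.triΨ _))
      ((totalDegree_sub _ _).trans (max_le (H.fat.Rdeg _ _ (hst1 hi) (hst hin)) (hL.degΨ _)))
      (one_le_pow₀ hS1) (fun b hb => by
        rw [map_sub, cut_of_le (hst hin)]
        exact H.fat.line ω hω _ (hst1 hi) (hst hin) b
          ((cut_bx (by have := hst hin; omega)).1 (Bxr_one.1 hb))) P
      (fun j hj => (h5 j hj).1)
    have h7 : eval b ((dd C B T p n w₀ z g).R (slam F w₀ ω) i) -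
        eval b ((dd C B T p n w₀ z g).Ph w₀ z M ω i) =
        eval P (C.R (slam F w₀ ω) (Nat.nth p i) - cut n (C.Ph w₀ z M ω) (Nat.nth p i)) := by
      rw [eval_dd_R hin H.stc, eval_dd_Ph hwM hi H.stc hin, ← hP, map_sub, map_sub, map_sub]
      ring
    rw [h7]
    refine h6.trans ?_
    have h8 : (2 : ℝ) ^ dg p g M i ≤ 2 ^ g M (Nat.nth p i) :=
      pow_le_pow_right₀ (by norm_num) (Nat.sub_le _ _)
    rw [le_div_iff₀ (by positivity)]
    calc C₀ * (Real.exp (C₁ * z) / 2 ^ g M (Nat.nth p i)) * (S ^ f') ^ K₁ * 2 ^ dg p g M i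
        ≤ C₀ * (Real.exp (C₁ * z) / 2 ^ g M (Nat.nth p i)) * (S ^ f') ^ K₁ *
          2 ^ g M (Nat.nth p i) := by
          refine mul_le_mul_of_nonneg_left h8 ?_
          have : 0 ≤ C₀ := by linarith
          positivity
      _ = C₀ * (Real.exp (C₁ * z) * (S ^ f') ^ K₁) := by field_simp
      _ ≤ S * (Real.exp (C₁ * z) * (S ^ f') ^ K₁) := by
          refine mul_le_mul_of_nonneg_right (by linarith) (by positivity)
      _ = Real.exp (C₁ * z) * S ^ (f' * K₁ + 1) := by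
          rw [← pow_mul]
          ring
      _ ≤ Real.exp (C₁' * z) := hC₁

end Pool.STAT.DPP
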