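import Pool.Agent.H82.STAT.Gry
import Pool.Agent.H80.STAT.RowI

/-!
# The rows over the fat labels from the facts at the nodes

`NdF`: the facts at the nodes `(v, v)` of a grid of labels, for an event. `rows_node`: `RowsF` from
these facts for all large events.
-/

set_option autoImplicit false

namespace Pool.STAT.GRD

open Finset MvPolynomial
open Pool.Agent.H49.Ent Pool.Agent.H32.Dense Pool.STK Pool.KS3 Pool.KA Pool.KSAT Pool.PB Pool.GEN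
open Pool.STAT.CLO Pool.STAT.CDat Pool.TRC Pool.STAT.DPP Pool.K2S Pool.LEV
open Pool.STAT.RR (fh)

theorem fh_congr {m J : ℕ} {F : Fam m J} {C : CDat F} {e e' : ℕ → Fin m} {w₀ z : ℕ}
    {g : ℕ → ℕ → ℕ} {v : ℕ} (he : ∀ i, 1 ≤ i → e i = e' i) (ω : F.Ω) {j : ℕ} (hj : 1 ≤ j) :
    fh C e w₀ z g v ω j = fh C e' w₀ z g v ω j := by
  unfold fh
  rw [cx_congr he, he j hj]

theorem rowN_congr {m J : ℕ} {F : Fam m J} {C : CDat F} {e e' : ℕ → Fin m} {N w₀ z U : ℕ}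
    {g : ℕ → ℕ → ℕ} {ρ a C₂ : ℝ} {v : ℕ} {E : F.Ω → Prop} (he : ∀ i, 1 ≤ i → e i = e' i)
    (h : RowN F C e N w₀ z U g ρ a C₂ v E) : RowN F C e' N w₀ z U g ρ a C₂ v E := by
  intro P hP
  have h1 := h P hP
  have e1 : (fun ω => ⌊(2 : ℝ) ^ P * fh C e w₀ z g v ω (N + 1)⌋) =
      fun ω => ⌊(2 : ℝ) ^ P * fh C e' w₀ z g v ω (N + 1)⌋ := by
    funext ω
    rw [fh_congr he ω (by omega)]
  have e2 : (fun ω => (C.lab w₀ z v ω,
      ((fun j : Fin N => ⌊(2 : ℝ) ^ (U * z) * fh C e w₀ z g v ω (j + 1)⌋), F.T ω))) =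
      fun ω => (C.lab w₀ z v ω,
      ((fun j : Fin N => ⌊(2 : ℝ) ^ (U * z) * fh C e' w₀ z g v ω (j + 1)⌋), F.T ω)) := by
    funext ω
    congr 2
    funext j
    rw [fh_congr he ω (by omega)]
  rw [e1, e2] at h1
  exact h1

/-- **The facts at the nodes `(v, v)`**, for the event `E`: a grid of labels of degree `K'` with the
axioms `Ok2` and the rows `NF0`; its raw charts at the nodes are near the charts `G` of the fat
line. -/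
def NdF {m J : ℕ} (F : Fam m J) (ec : ℕ → Fin m) (n K' s₁ Bc : ℕ) (h C₁ : ℝ)
    (L : ℕ → ℝ → ℝ → ℝ) (W : ℕ → ℝ) (b ρ η δ ζ : ℝ) (T M P : ℕ) (dl : ℕ → ℝ)
    (G : ℕ → PtT F → ℕ → MvPolynomial (Option (Fin m)) ℝ) (E : F.Ω → Prop) : Prop :=
  ∃ (D : GDat F) (Rt : ℕ → ℕ → Type) (ρ' : (i j : ℕ) → LnT F → Rt i j) (Kr w₁ : ℕ) (sh : ℕ → ℕ)
    (ee : ℕ → ℕ → ℕ) (gD : ℕ → ℕ → ℕ → ℕ) (lam gam : ℕ → ℝ) (κ : ℝ),
    D.Ok (fun l => ec (l + 1)) (n + 1) Kr K' s₁ sh (up b J) w₁ (up ζ J) M ee gD E ∧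
    (D.nd (fun l => ec (l + 1)) (n + 1) sh w₁ (up ζ J) M gD ρ').Ok2 (n + 1) K' J (up b J) w₁
      (up ζ J) M lam gam κ C₁ (Pool.Agent.H49.Ent.cond F.p E True) ∧
    Pool.MIC6.NF0 (D.nd (fun l => ec (l + 1)) (n + 1) sh w₁ (up ζ J) M gD ρ') (n + 1) (up ζ J) M Bc
      h C₁ (Pool.Agent.H49.Ent.cond F.p E True) ∧
    (∀ l, 1 ≤ l → l ≤ n + 1 → sh l ≤ up ζ J) ∧
    ∀ v < M, (∀ l, 1 ≤ l → l ≤ n + 1 →
        gD v v (l - 1) ≤ grn L W b η T (T + M * P) J dl (T + v * P) (l - 1) ∧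
        grn L W b η T (T + M * P) J dl (T + v * P) (l - 1) ≤ gD v v (l - 1) + ⌊δ * J⌋₊) ∧
      ∀ ω, E ω → CloU (pthN F (fun l => ec (l + 1)) (n + 1) (T + v * P) ⌊(b - ρ) * J⌋₊
          (up b J + v * up ζ J) (fun k => alt b η T P ⌊b * J⌋₊ ⌊ζ * J⌋₊ J k)
          (grn L W b η T (T + M * P) J dl) G) (n + 1) (T + v * P + 1) ⌊δ * J⌋₊
        (fun l => gD v v (l - 1)) ω (Gx (fun l => ec (l + 1)) (n + 1) (D.G v v) (ptr F J ω))

/-- **The rows over the fat labels**, from the facts at the nodes. -/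
theorem rows_node (n KH K' s₁ Bc : ℕ) (h C₁ : ℝ) (hB : 1 ≤ Bc) (hh0 : 0 ≤ h) (hh1 : h ≤ 1)
    (hC₁ : 1 ≤ C₁) : ∃ (cr : ℕ) (C₃ : ℝ), 1 ≤ cr ∧ 1 ≤ C₃ ∧ ∀ (K c Λ U Rd S : ℕ), 1 ≤ S → 1 ≤ c →
    16 * c ^ 2 ≤ Λ → 1 ≤ U → ∀ {L : ℕ → ℝ → ℝ → ℝ} {σ : ℕ → ℝ} {p : ℕ → Prop} [DecidablePred p]
      {M P T : ℕ} {W : ℕ → ℝ} {b ρ o c₀ η e θ V δ φ D E ζ X₀ y₀ q ε₀ e' : ℝ},
      CelG L (n + 1) p σ Rd M S P W b ρ o c₀ η e θ V →
      Rls Λ L (n + 1) σ M S P T W b ρ o c₀ η e θ V δ φ D E ζ X₀ y₀ q ε₀ e' → cr * δ ≤ ζ →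
      (∀ i, 1 ≤ i → i ≤ n + 1 → ∀ v < M,
        L i (b + v * ζ) (W 0 + v * ζ) ≤ L i (b + xe P η v) (W 0 + xe P η v) + δ) →
    ∃ J₀ : ℕ, ∀ J ≥ J₀, ∀ {m : ℕ} {F : Fam m J} {ec : ℕ → Fin m} {dl : ℕ → ℝ} {δm : ℕ → ℕ}
      {A₀ A : F.Ω → Prop} {Kc L₀ τ : ℝ}
      {G : ℕ → PtT F → ℕ → MvPolynomial (Option (Fin m)) ℝ}
      {H : ℕ → LnT F → ℕ → MvPolynomial (Option (Fin m)) ℝ},
      Pool.CHT.MCh F (fun l => ec (l + 1)) (n + 1) (fun _ => K) ((Rd + 2 + 1) * (T + M * P))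
        (fun k k' => gra b η T (T + M * P) k ≤ gra b η T (T + M * P) k' ∧
          grw W η T (T + M * P) k ≤ grw W η T (T + M * P) k')
        (fun k => ⌊gra b η T (T + M * P) k * J⌋₊) (fun k => ⌊grw W η T (T + M * P) k * J⌋₊) ⌊E * J⌋₊
        (grn L W b η T (T + M * P) J dl) δm A G H → Inj (fun l => ec (l + 1)) (n + 1) →
      (∀ l < n + 1, 0 ≤ dl l ∧ dl l ≤ φ) → (∀ l < n + 1, δm l ≤ ⌊φ * J⌋₊) →
      (∀ E : F.Ω → Prop, (∀ ω, E ω → A ω) → Real.exp (-(τ * J)) * Pe F.p A₀ ≤ Pe F.p E →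
        NdF F ec n K' s₁ Bc h C₁ L W b ρ η δ ζ T M P dl G E) →
      RowsF F A₀ A L σ p ec n KH c M P T U W b ρ η δ ζ y₀ Kc L₀ (1 / (2 * Bc)) h C₃ τ dl G := by
  obtain ⟨c₅, C₃, hc₅, hC₃, hrow⟩ := Pool.STAT.RR.rowN_nodeU n K' KH s₁ Bc h C₁ hB hh0 hh1 hC₁
  refine ⟨9 * c₅, C₃, by omega, hC₃, ?_⟩
  intro K c Λ U Rd S hS hc hΛ hU L σ p _ M P T W b ρ o c₀ η e θ V δ φ D E ζ X₀ y₀ q ε₀ e' CE R hcr
    hst
  obtain ⟨s₀, hs₀, hnp⟩ := node_path (n + 1) K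
  obtain ⟨B, hBd⟩ : ∃ B : ℝ, B = (s₀ : ℝ) + c + S + 8 + (M + 1) + (U + 2) := ⟨_, rfl⟩
  have q1 : (0 : ℝ) ≤ s₀ := Nat.cast_nonneg _
  have q2 : (0 : ℝ) ≤ c := Nat.cast_nonneg _
  have q3 : (0 : ℝ) ≤ S := Nat.cast_nonneg _
  have q4 : (0 : ℝ) ≤ M := Nat.cast_nonneg _
  have q5 : (0 : ℝ) ≤ U := Nat.cast_nonneg _
  obtain ⟨J₀, hJ₀⟩ := R.lj B
  have he0 := CE.e_nn
  have hρb := CE.lns.ρb
  have hb0 : 0 ≤ b := CE.lns.ρ_nn.trans hρb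
  refine ⟨J₀, fun J hJJ => ?_⟩
  have hJ := hJ₀ J hJJ
  have Z := R.bs he0 hc hΛ hJ (θ := θ) (q := q)
  have hTp := R.T_pos
  have hPp := R.P_pos
  have hη := R.η_pos
  have hcR : (1 : ℝ) ≤ c := by exact_mod_cast hc
  have hΛ1 : (1 : ℝ) ≤ Λ := by
    have h1 : (16 : ℝ) * (c : ℝ) ^ 2 ≤ Λ := by exact_mod_cast hΛ
    have h2 : (1 : ℝ) ≤ (c : ℝ) ^ 2 := one_le_pow₀ hcR
    linarith
  have hθJ : 1 ≤ θ * J := by
    have h1 := Z.Dθ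
    have h2 := Z.δJ
    have h3 := Z.δD
    have h5 : D * J ≤ Λ * (D * J) := le_mul_of_one_le_left (mul_nonneg Z.D0.le Z.J0) hΛ1
    linarith
  intro m F ec dl δm A₀ A Kc L₀ τ G H hM hinj hdl hδm hfact
  have hd := R.dgs hc Z.δ0.le Z.D0.le hθJ Z.ζ0.le (J := J)
  obtain ⟨GR, EN⟩ := R.grd hρb hJ (by linarith) (n + 1) (Rd + 2)
  have DG := R.dgt (Cst := s₀) he0 hS hb0 hc hΛ hJ (by linarith) hd (eT := 0) le_rfl
    (by rw [mul_zero, mul_zero]; exact Z.δ0.le)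
  have hδ := fun i h1 hi => (DG.δ_le i h1 hi).1
  have hF := CE.fins GR le_rfl hdl DG.φ_le hδ DG.x_le DG.t_ge DG.t_le DG.xt
  have hηJ : 0 ≤ η * J := mul_nonneg hη.le Z.J0
  have hu1 : η * J + 2 ≤ (du c δ J : ℝ) := by
    have h1 := DG.u_ge
    have h3 : 0 ≤ e * J := mul_nonneg CE.e_nn Z.J0
    have h4 : (0 : ℝ) ≤ (S : ℝ) * (η * J) := mul_nonneg (Nat.cast_nonneg _) hηJ
    nlinarith
  have hd' : ∀ l < n + 1, 0 ≤ dl l ∧ dl l ≤ c₀ := fun l hl =>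
    ⟨(hdl l hl).1, (hdl l hl).2.trans DG.φ_le⟩
  intro C A' hA'A hPA' hRw E₁ hE₁ hPE v hv hv2
  have hvM : v < M := by omega
  obtain ⟨Dg, Rt, ρ', Kr, w₁, sh, ee, gD, lam, gam, κ, f1, f2, f3, f4, f5⟩ :=
    hfact E₁ (fun ω hω => hA'A ω (hE₁ ω hω)) hPE
  obtain ⟨f6, f7⟩ := f5 v hvM
  -- the numbers of the node
  have hζJ : 0 ≤ ζ * J := mul_nonneg Z.ζ0.le Z.J0
  have hz1 : ⌊ζ * J⌋₊ ≤ up ζ J := Nat.floor_le_ceil _
  have hz2 : up ζ J ≤ ⌊ζ * J⌋₊ + 1 := Nat.ceil_le_floor_add_one _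
  have hbz : ⌊b * J⌋₊ ≤ up b J := Nat.floor_le_ceil _
  have hvr : (v : ℝ) + 1 ≤ M := by exact_mod_cast hvM
  have hv0 : (0 : ℝ) ≤ v := Nat.cast_nonneg v
  have hND : Nod T P M ⌊b * J⌋₊ ⌊ζ * J⌋₊ J b η v (up b J + v * up ζ J) := by
    refine ⟨hvM, ?_, ?_, ?_⟩
    · rw [← R.ζ_eq]
      push_cast
      have h1 := up_ge b J
      have h2 := mul_le_mul_of_nonneg_left (up_ge ζ J) hv0
      linarith
    · rw [← R.ζ_eq]
      push_cast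
      have h1 := up_le hb0 J
      have h2 := mul_le_mul_of_nonneg_left (up_le Z.ζ0.le J) hv0
      have h3 := Z.ηJ
      nlinarith
    · exact Nat.add_le_add hbz (Nat.mul_le_mul_left _ hz1)
  obtain ⟨p1, p2, p3, -⟩ := hnp GR CE.lns EN hd' hu1 DG.h_ge hM hinj hδm DG.u₀_le hND
  have hvMP : v * P ≤ M * P := Nat.mul_le_mul_right _ hvM.le
  have hv1 : (v + 1) * P ≤ M * P := Nat.mul_le_mul_right _ hvM
  have hvv : (v + 1) * P = v * P + P := by ring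
  have hlt : T + v * P < T + M * P := by omega
  have he : ∀ i, 1 ≤ i → ec i = (fun i => (fun l => ec (l + 1)) (i - 1)) i := fun i hi => by
    show ec i = ec (i - 1 + 1)
    rw [Nat.sub_add_cancel hi]
  -- the losses
  have hδ0 := Z.δ0
  have hJ0 := Z.J0
  have hδJ0 : 0 ≤ δ * J := mul_nonneg Z.δ0.le Z.J0
  have hδfl := Nat.floor_le hδJ0
  have hct : c₅ * (⌊2 * δ * J⌋₊ + ⌈4 * δ * J⌉₊ + ⌊δ * J⌋₊ + ⌊δ * J⌋₊ + 1) ≤ up ζ J := by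
    have h1 : ((⌊2 * δ * J⌋₊ : ℕ) : ℝ) ≤ 2 * δ * J := Nat.floor_le (by positivity)
    have h2 : ((⌈4 * δ * J⌉₊ : ℕ) : ℝ) ≤ 4 * δ * J + 1 :=
      (Nat.ceil_lt_add_one (by positivity)).le
    have h3 := mul_le_mul_of_nonneg_right hcr Z.J0
    push_cast at h3
    have h4 := up_ge ζ J
    have h5 := Z.δJ
    have h6 : ((⌊2 * δ * J⌋₊ + ⌈4 * δ * J⌉₊ + ⌊δ * J⌋₊ + ⌊δ * J⌋₊ + 1 : ℕ) : ℝ) ≤
        9 * (δ * J) := by
      push_cast
      linarith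
    have h7 : (c₅ : ℝ) * ((⌊2 * δ * J⌋₊ + ⌈4 * δ * J⌉₊ + ⌊δ * J⌋₊ + ⌊δ * J⌋₊ + 1 : ℕ) : ℝ) ≤
        c₅ * (9 * (δ * J)) := mul_le_mul_of_nonneg_left h6 (Nat.cast_nonneg _)
    have h8 : ((c₅ * (⌊2 * δ * J⌋₊ + ⌈4 * δ * J⌉₊ + ⌊δ * J⌋₊ + ⌊δ * J⌋₊ + 1) : ℕ) : ℝ) ≤
        (up ζ J : ℕ) := by
      rw [Nat.cast_mul]
      linarith
    exact_mod_cast h8
  have hUz : U ≤ ⌊ζ * J⌋₊ := by
    refine Nat.le_floor ?_
    have h1 := Z.δJ
    have h2 := Z.δζ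
    have h3 : δ * J ≤ Λ * (δ * J) := le_mul_of_one_le_left hδJ0 hΛ1
    linarith
  refine rowN_congr (fun i hi => (he i hi).symm) ?_
  refine hrow (C := C) (co := fun l => ec (l + 1)) (D := Dg) (ρ := ρ') (A := A') (B' := E₁)
    (π := pth0 F ec n L W b ρ η ζ T M P dl G) (jj := T + v * P) (R := ⌈4 * δ * J⌉₊)
    (u := du c δ J)
    hE₁ (fun ω h => h) DG.z_pos hz1 hz2 hUz hvM.le (by omega) hvM.le (cnd_congr he hRw.cnd) f1 f2
    f3 p1 p2 (p3.sub hA'A) (fun ω hω => hRw.er v hvM.le ω hω) ?_ ?_ (fun l l1 l2 => ?_) f7 hct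
  · obtain ⟨x, hx⟩ : ∃ x, T + v * P = x + 1 := ⟨T + v * P - 1, by omega⟩
    have h1 := EN.al GR hvM.le
    have h2 : T + v * P - 1 = x := by omega
    rw [h2] at h1
    rw [hx]
    show alt b η T P ⌊b * J⌋₊ ⌊ζ * J⌋₊ J (ix (T + M * P) 0 x % (T + M * P)) = _
    rw [ix_mod (by omega)]
    exact h1
  · show nal (T + v * P) (up b J + v * up ζ J) _ (T + v * P) = _
    exact nal_eq
  · -- the numbers
    obtain ⟨g1, g2⟩ := f6 l l1 l2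
    have hpg : (pthN F (fun l => ec (l + 1)) (n + 1) (T + v * P) ⌊(b - ρ) * J⌋₊
        (up b J + v * up ζ J) (fun k => alt b η T P ⌊b * J⌋₊ ⌊ζ * J⌋₊ J k)
        (grn L W b η T (T + M * P) J dl) G).g (T + v * P + 1) l =
        grn L W b η T (T + M * P) J dl (T + v * P) (l - 1) := rfl
    rw [hpg]
    have hin := GR.in CE.lns (q := 0) (t := T + v * P) (Nat.zero_le _) hlt
    rw [xo_node, ← R.ζ_eq] at hin
    have hlo := hin.lo l1 l2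
    have e3 : gra b η T (T + M * P) (T + v * P) = b + v * ζ := by
      rw [gra_lt hlt, xo_node, R.ζ_eq]
    have e4 : grw W η T (T + M * P) (T + v * P) = W 0 + v * ζ := by
      rw [grw_lt hlt, xo_node, R.ζ_eq]
    have hup := grn_ub (L := L) (W := W) (b := b) (η := η) (T := T) (T₁ := T + M * P) (J := J)
      (d := dl) (k := T + v * P) (l := l - 1) (by
        rw [Nat.sub_add_cancel l1, e3, e4]
        exact (hd' (l - 1) (by omega)).2.trans hlo)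
    rw [Nat.sub_add_cancel l1, e3, e4] at hup
    have hnum := abs_le.1 (hRw.num v hvM.le l l1 l2)
    have hs := mul_le_mul_of_nonneg_right (hst l l1 l2 v hvM) Z.J0
    have hd0 := mul_le_mul_of_nonneg_right (hdl (l - 1) (by omega)).1 Z.J0
    have g1R : (gD v v (l - 1) : ℝ) ≤
        grn L W b η T (T + M * P) J dl (T + v * P) (l - 1) := by exact_mod_cast g1
    refine ⟨f4 l l1 l2, ?_, ?_, g1, g2⟩
    · have h1 : gF L σ p W b η δ T (T + M * P) P J dl ⌊2 * δ * J⌋₊ v l + c * (ds c δ J + 1) ≤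
          rwN L W b η T (T + M * P) P J dl 0 v l := (hF.F v hvM.le l l1 l2).1
      have h2 : rwN L W b η T (T + M * P) P J dl 0 v l ≤
          grn L W b η T (T + M * P) J dl (T + v * P) (l - 1) := by
        unfold rwN grn
        refine Nat.floor_le_floor (mul_le_mul_of_nonneg_right ?_ Z.J0)
        have hin0 := GR.in CE.lns (q := 0) (t := T + v * P - 1) (Nat.zero_le _) (by omega)
        have eix : ix (T + M * P) 0 (T + v * P - 1) = T + v * P - 1 := by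
          unfold ix
          omega
        have e5 : gra b η T (T + M * P) (T + v * P - 1) = b + xo T η (T + v * P - 1) :=
          gra_lt (by omega)
        have e6 : grw W η T (T + M * P) (T + v * P - 1) = W 0 + xo T η (T + v * P - 1) :=
          grw_lt (by omega)
        have e7 : xo T η (T + v * P - 1) ≤ v * ζ := by
          have h3 := xo_mono (T := T) hη.le (show T + v * P - 1 ≤ T + v * P by omega)
          rw [xo_node, ← R.ζ_eq] at h3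
          exact h3
        rw [eix, Nat.sub_add_cancel l1, e3, e4, e5, e6]
        have h3 := hin0.mono hin (by linarith) (by linarith) l1 l2
        linarith
      omega
    · have h1 : ((gD v v (l - 1) : ℕ) : ℝ) ≤
          ((gF L σ p W b η δ T (T + M * P) P J dl ⌊2 * δ * J⌋₊ v l + ⌈4 * δ * J⌉₊ : ℕ) : ℝ) := by
        push_cast
        have h3 := Nat.le_ceil (4 * δ * (J : ℝ))
        linarith [hnum.1]
      exact_mod_cast h1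

end Pool.STAT.GRD
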