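import Pool.Agent.H82.STAT.Dpp
import Pool.Agent.H90.STAT.FulC
import Pool.Agent.H77.STAT.RowF

/-!
# The drop-out system: the entropy fields

* `full_gen`: digits which determine the cells of the coordinates one after the other, up to few
  values, have a large entropy;
* `labC`, `labB`: the labels of the drop-out system determine the labels of `C` and `B`;
* `full`: the field `full` of the drop-out system from the exactness of all the coordinates;
* `ok0`: **the axioms `Ok0` of the drop-out system**.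
-/

set_option autoImplicit false

namespace Pool.STAT.DPP

open Finset MvPolynomial
open Pool.Agent.H49.Ent Pool.Agent.H32.Dense Pool.STK Pool.KS3 Pool.KA Pool.KSAT Pool.K2S Pool.PB
  Pool.GEN
open Pool.STAT.CLO Pool.STAT.CDat
open Pool.FLF (Fam.sub)

/-- **Digits with a large entropy.** -/
theorem full_gen {Ω U Y : Type} [Fintype Ω] {q : Ω → ℝ} (hq : IsLaw q) {n J : ℕ}
    (X : Ω → ℕ → ℝ) (W : Ω → U) (D : Ω → Y) (γ e : ℕ → ℕ) {δ ε : ℝ} (hδ : 0 ≤ δ)
    (hg : ∀ i < n, γ i ≤ J)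
    (h : ∀ ω ω', 0 < q ω → 0 < q ω' → W ω = W ω' → D ω = D ω' → ∀ i < n,
      (∀ j < i, ⌊(2 : ℝ) ^ J * X ω j⌋ = ⌊(2 : ℝ) ^ J * X ω' j⌋) →
      |X ω i - X ω' i| ≤ δ / 2 ^ γ i)
    (hY : (∑ i ∈ range n, ((J : ℝ) - e i)) * Real.log 2 - ε ≤
      CH q (fun ω (i : Fin n) => ⌊(2 : ℝ) ^ J * X ω i⌋) W) :
    (∑ i ∈ range n, ((γ i : ℝ) - e i)) * Real.log 2 - (ε + n * Real.log (3 + 2 * δ)) ≤
      CH q D W := by
  have hJ : (0 : ℝ) < 2 ^ J := by positivity
  have h1 := CH_le_add hq.nonneg (fun ω (i : Fin n) => ⌊(2 : ℝ) ^ J * X ω i⌋) D W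
  have h2 := Ful.ch_vec hq (fun ω (i : Fin n) => ⌊(2 : ℝ) ^ J * X ω i⌋)
    (fun ω => (D ω, W ω)) (fun i => δ * 2 ^ (J - γ i) + 1) (fun i ω ω' h0 h0' e hj => by
      simp only [Prod.mk.injEq] at e
      have h3 := h ω ω' h0 h0' e.2 e.1 i i.2 fun j hji => hj ⟨j, by omega⟩ hji
      have h6 : |(2 : ℝ) ^ J * X ω i - 2 ^ J * X ω' i| ≤ δ * 2 ^ (J - γ i) := by
        rw [← mul_sub, abs_mul, abs_of_pos hJ]
        have h7 : (2 : ℝ) ^ J * (1 / 2 ^ γ i) = 2 ^ (J - γ i) := by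
          rw [mul_one_div, div_eq_iff (by positivity), ← pow_add]
          congr 1
          have := hg i i.2
          omega
        calc (2 : ℝ) ^ J * |X ω i - X ω' i| ≤ 2 ^ J * (δ / 2 ^ γ i) :=
              mul_le_mul_of_nonneg_left h3 hJ.le
          _ = δ * (2 ^ J * (1 / 2 ^ γ i)) := by ring
          _ = _ := by rw [h7]
      exact Ful.fl_le h6)
  have h3 : ∑ i ∈ range n, Real.log (2 * (δ * 2 ^ (J - γ i) + 1) + 1) ≤
      ∑ i ∈ range n, ((((J : ℝ) - γ i) * Real.log 2) + Real.log (3 + 2 * δ)) := by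
    refine Finset.sum_le_sum fun i hi => ?_
    have hi' := hg i (mem_range.1 hi)
    have h4 : (1 : ℝ) ≤ 2 ^ (J - γ i) := one_le_pow₀ (by norm_num)
    have h5 : 2 * (δ * (2 : ℝ) ^ (J - γ i) + 1) + 1 ≤ 2 ^ (J - γ i) * (3 + 2 * δ) := by
      nlinarith
    refine (Real.log_le_log (by positivity) h5).trans (le_of_eq ?_)
    rw [Real.log_mul (by positivity) (by positivity), Real.log_pow, Nat.cast_sub hi']
  rw [Finset.sum_add_distrib, ← Finset.sum_mul, Finset.sum_const, Finset.card_range,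
    nsmul_eq_mul] at h3
  have h4 : (∑ i ∈ range n, ((γ i : ℝ) - e i)) * Real.log 2 =
      (∑ i ∈ range n, ((J : ℝ) - e i)) * Real.log 2 -
        (∑ i ∈ range n, ((J : ℝ) - γ i)) * Real.log 2 := by
    rw [← sub_mul, ← Finset.sum_sub_distrib]
    congr 1
    exact Finset.sum_congr rfl fun i _ => by ring
  rw [h4]
  linarith

variable {m J : ℕ} {F : Fam m J} {C B : CDat F} {T : TDat F} {p : ℕ → Prop}
  {e : ℕ → Fin m} {n K w₀ z M : ℕ} {g h : ℕ → ℕ → ℕ} {C₁ S Q ε : ℝ} {A : F.Ω → Prop}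

section lab

variable [DecidablePred p]

/-- The labels of the drop-out system determine the labels of `C`. -/
theorem labC {k : ℕ} {ω ω' : F.Ω}
    (hl : (dd C B T p n w₀ z g).lab w₀ z k ω = (dd C B T p n w₀ z g).lab w₀ z k ω') :
    C.lab w₀ z k ω = C.lab w₀ z k ω' := by
  refine Prod.ext ?_ (congrArg (·.2) hl)
  funext k'
  have h1 := congrFun (congrArg (·.1) hl) k'
  simp only [CDat.lab] at h1 ⊢
  by_cases hk : k' ≤ k
  · simp only [if_pos hk] at h1 ⊢
    have h2 := Option.some.inj h1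
    exact congrArg some (Prod.ext_iff.mp (Prod.ext_iff.mp h2).2).1
  · simp only [if_neg hk]

/-- The labels of the drop-out system determine the labels of the balls. -/
theorem labB {k : ℕ} {ω ω' : F.Ω}
    (hl : (dd C B T p n w₀ z g).lab w₀ z k ω = (dd C B T p n w₀ z g).lab w₀ z k ω') :
    B.lab w₀ z k ω = B.lab w₀ z k ω' := by
  refine Prod.ext ?_ (congrArg (·.2) hl)
  funext k'
  have h1 := congrFun (congrArg (·.1) hl) k'
  simp only [CDat.lab] at h1 ⊢
  by_cases hk : k' ≤ k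
  · simp only [if_pos hk] at h1 ⊢
    have h2 := Option.some.inj h1
    exact congrArg some (Prod.ext_iff.mp (Prod.ext_iff.mp (Prod.ext_iff.mp h2).2).2).1
  · simp only [if_neg hk]

/-- The values of the level `k` are equal if the labels are. -/
theorem Ph_lab {C : CDat F} {k : ℕ} {ω ω' : F.Ω} (hl : C.lab w₀ z k ω = C.lab w₀ z k ω')
    (i : ℕ) : C.Ph w₀ z k ω i = C.Ph w₀ z k ω' i := by
  unfold Ph
  rw [C.lab_val (le_refl k) hl]
  have h1 : F.T1 (w₀ + k * z) ω = F.T1 (w₀ + k * z) ω' := congrArg (·.2) hl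
  rw [h1]

/-- The labels of the drop-out system contain the side information if the labels of `C` do. -/
theorem hasZ {k : ℕ} (hZ : C.HasZ w₀ z k) : (dd C B T p n w₀ z g).HasZ w₀ z k :=
  fun _ _ hl => hZ _ _ (labC hl)

end lab

/-- The number of the static coordinates, as a sum. -/
theorem sum_st [DecidablePred p] (a b : ℕ → ℕ) (z : ℕ)
    (h1 : ∀ i < n, p i → a i = b i + z) (h2 : ∀ i < n, ¬ p i → a i = b i) :
    ∑ i ∈ range n, ((a i : ℝ) - b i) = (Nat.count p n : ℝ) * z := by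
  rw [Nat.count_eq_card_filter_range, Finset.card_filter]
  push_cast
  rw [Finset.sum_mul]
  refine Finset.sum_congr rfl fun i hi => ?_
  have hi' := mem_range.1 hi
  by_cases hpi : p i
  · rw [if_pos hpi, h1 i hi' hpi]
    push_cast
    ring
  · rw [if_neg hpi, h2 i hi' hpi]
    ring

/-- **The field `full` of the drop-out system**, from the exactness of all the coordinates given
the labels, `N` coordinates before the last one. -/
theorem full (N K : ℕ) : ∃ (c : ℕ) (T₀ : ℝ), 2 ≤ T₀ ∧ ∀ {m J : ℕ} {F : Fam m J}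
    (C B : CDat F) (T : TDat F) (p : ℕ → Prop) [DecidablePred p] (e : ℕ → Fin m)
    (w₀ z M : ℕ) (g h : ℕ → ℕ → ℕ) (C₁ C₁' S Q ε : ℝ) (K'' : ℕ) (A E : F.Ω → Prop) (L : ℝ),
    Hyp C B T p e (N + 1) K w₀ z M g h C₁ S Q ε A → 0 ≤ S → T₀ ≤ Q → 0 ≤ ε →
    Q ^ c * ε ≤ 1 → 0 ≤ L → ∀ k ≤ M,
    (dd C B T p (N + 1) w₀ z g).CndX (dx C p e (N + 1) w₀ z) (Nat.count p (N + 1)) K'' w₀ z M
      (dg p g) C₁' A →
    C.Near e (N + 1) w₀ z g k z L A → B.Near e N w₀ z h k 0 L A →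
    (∀ i, 1 ≤ i → i ≤ N → p i → g k i + z ≤ J) → (∀ i, 1 ≤ i → i ≤ N → ¬ p i → h k i ≤ J) →
    ∀ hE : 0 < Pe F.p E, (∀ ω, E ω → A ω) → ∀ e₀ ε' : ℝ, (Fam.sub F E hE).Tm e₀ →
    ExW F E (fun j : Fin N => e (j + 1)) (w₀ + k * z)
      ((∑ i ∈ Ico 1 (N + 1), ((J : ℝ) - h k i)) * Real.log 2 - ε') →
    (Nat.count p (N + 1) : ℝ) * (z * Real.log 2) -
      (e₀ + ε' + (N + 1 : ℕ) * Real.log (11 + 2 * L)) ≤
      CH (Pool.Agent.H49.Ent.cond F.p E True) (fun ω (i : Fin (Nat.count p (N + 1))) =>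
        ⌊(2 : ℝ) ^ (g0 w₀ z (dg p g) k i + z) * (dx C p e (N + 1) w₀ z ω i -
          eval (dx C p e (N + 1) w₀ z ω) ((dd C B T p (N + 1) w₀ z g).Ph w₀ z k ω i))⌋)
        ((dd C B T p (N + 1) w₀ z g).lab w₀ z k) := by
  obtain ⟨d, T₁, hT₁, h1⟩ := rh_near (N + 1) K
  refine ⟨d + 2, T₁ + 1, by linarith, ?_⟩
  intro m J F C B T p _ e w₀ z M g h C₁ C₁' S Q ε K'' A E L H hS hQ hε hεQ hL k hk hcnd hnC hnB
    hgJ hhJ hE hEA e₀ ε' ht hex
  have hq := isLaw_cond F.isLaw hE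
  have hQ2 : 2 ≤ Q := by linarith
  have hQ1 : 1 ≤ Q := by linarith
  have hQ0 : 0 ≤ Q := by linarith
  have hwJ := H.wk hk
  have hwz : w₀ + k * z + z ≤ J := by
    have h2 := H.top
    have h3 : k * z + z ≤ (M + 1) * z := by
      have := Nat.mul_le_mul_right z (show k + 1 ≤ M + 1 by omega)
      linarith [this, Nat.succ_mul k z]
    omega
  have hε1 : ε ≤ 1 := by
    refine le_trans ?_ hεQ
    have : 1 * ε ≤ Q ^ (d + 2) * ε := mul_le_mul_of_nonneg_right (one_le_pow₀ hQ1) hε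
    linarith
  obtain ⟨D, hD⟩ : ∃ D : CDat F, D = dd C B T p (N + 1) w₀ z g := ⟨_, rfl⟩
  obtain ⟨X, hX⟩ : ∃ X, X = dx C p e (N + 1) w₀ z := ⟨_, rfl⟩
  rw [← hD, ← hX] at hcnd ⊢
  have hpos : ∀ ω, 0 < Pool.Agent.H49.Ent.cond F.p E True ω → A ω :=
    fun ω hω => hEA ω (cond_supp hω)
  -- the exactness
  have hR : (∑ i ∈ range (N + 1), ((J : ℝ) - g0 w₀ z h k i)) * Real.log 2 - (e₀ + ε') ≤
      CH (Pool.Agent.H49.Ent.cond F.p E True)
        (fun ω (i : Fin (N + 1)) => ⌊(2 : ℝ) ^ J * cx F e ω i⌋) (D.lab w₀ z k) := by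
    have h3 := hex _ (D.labp w₀ z k) (D.labs z k) fun ω hω => by
      rw [← hcnd.lab_pt hk (hEA ω hω), lab_labs D hwJ ω]
    have h4 : (fun ω => (D.labs z k (slam F (w₀ + k * z) ω), F.W ω)) =
        fun ω => (D.lab w₀ z k ω, F.W ω) := by
      funext ω
      rw [lab_labs D hwJ ω]
    rw [h4] at h3
    have h5 : ∑ i ∈ Ico 1 (N + 1), ((J : ℝ) - h k i) =
        ∑ i ∈ Ico 1 (N + 1), ((J : ℝ) - g0 w₀ z h k i) := by
      refine Finset.sum_congr rfl fun i hi => ?_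
      rw [g0_pos (mem_Ico.1 hi).1]
    rw [h5] at h3
    refine Ful.fam_R hq (D.lab w₀ z k) (g0 w₀ z h k) (fun j : Fin N => e (j + 1)) ?_ h3 _ ?_
    · rw [g0_zero]
      exact nd_timek (C := D) hE ht hwJ
    · intro ω ω' _ _ ee
      refine Prod.ext ?_ ?_
      · have h6 : ⌊(2 : ℝ) ^ J * cx F e ω 0⌋ = ⌊(2 : ℝ) ^ J * cx F e ω' 0⌋ :=
          congrFun ee (0 : Fin (N + 1))
        rw [fl_T, fl_T] at h6
        exact_mod_cast h6
      · funext i
        have h6 : ⌊(2 : ℝ) ^ J * cx F e ω (i.succ : Fin (N + 1))⌋ =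
            ⌊(2 : ℝ) ^ J * cx F e ω' (i.succ : Fin (N + 1))⌋ := congrFun ee i.succ
        rw [Fin.val_succ, fl_X F e ω (Nat.succ_pos _), fl_X F e ω' (Nat.succ_pos _)] at h6
        exact h6
  -- the precisions
  obtain ⟨γ, hγ⟩ : ∃ γ : ℕ → ℕ, γ = fun i => if p i then g0 w₀ z g k i + z else h k i :=
    ⟨_, rfl⟩
  have hγs : ∀ i, p i → γ i = g0 w₀ z g k i + z := fun i hi => by rw [hγ]; exact if_pos hi
  have hγd : ∀ i, ¬ p i → γ i = h k i := fun i hi => by rw [hγ]; exact if_neg hi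
  have hp1 : ∀ {i : ℕ}, ¬ p i → 1 ≤ i := fun {i} hi => by
    rcases Nat.eq_zero_or_pos i with h0 | h0
    · subst h0
      exact absurd H.stc.zero hi
    · exact h0
  have hsum := sum_st (p := p) (n := N + 1) γ (g0 w₀ z h k) z
    (fun i hi hpi => by
      rw [hγs i hpi]
      rcases Nat.eq_zero_or_pos i with h0 | h0
      · rw [h0, g0_zero, g0_zero]
      · rw [g0_pos h0, g0_pos h0, H.hg k hk i h0 hi hpi])
    (fun i _ hpi => by
      rw [hγd i hpi, g0_pos (hp1 hpi)])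
  have hmain := full_gen hq (cx F e) (D.lab w₀ z k)
    (fun ω (i : Fin (Nat.count p (N + 1))) => ⌊(2 : ℝ) ^ (g0 w₀ z (dg p g) k i + z) *
      (X ω i - eval (X ω) (D.Ph w₀ z k ω i))⌋) γ (g0 w₀ z h k) (n := N + 1) (J := J)
    (δ := 4 + L) (ε := e₀ + ε') (by linarith) (fun i hi => ?_) ?_ hR
  · rw [hsum] at hmain
    have h3 : (3 : ℝ) + 2 * (4 + L) = 11 + 2 * L := by ring
    rw [h3] at hmain
    refine le_trans (le_of_eq ?_) hmain
    ring
  · by_cases hpi : p i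
    · rw [hγs i hpi]
      rcases Nat.eq_zero_or_pos i with h0 | h0
      · rw [h0, g0_zero]
        exact hwz
      · rw [g0_pos h0]
        exact hgJ i h0 (by omega) hpi
    · rw [hγd i hpi]
      exact hhJ i (hp1 hpi) (by omega) hpi
  · -- the cells
    intro ω ω' h0 h0' hlab hdig i hi hj
    have hω := hpos ω h0
    have hω' := hpos ω' h0'
    have hlC : C.lab w₀ z k ω = C.lab w₀ z k ω' := by
      rw [hD] at hlab
      exact labC hlab
    have hlB : B.lab w₀ z k ω = B.lab w₀ z k ω' := by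
      rw [hD] at hlab
      exact labB hlab
    have hT : 1 ≤ i → F.T ω = F.T ω' := fun h1 => by
      have h6 := hj 0 h1
      rw [fl_T, fl_T] at h6
      exact_mod_cast h6
    have hXj : ∀ j, 1 ≤ j → j < i → F.X J ω (e j) = F.X J ω' (e j) := fun j h1 hji => by
      have h6 := hj j hji
      rwa [fl_X F e ω h1, fl_X F e ω' h1] at h6
    by_cases hpi : p i
    · -- static
      rw [hγs i hpi]
      have hci : Nat.count p i < Nat.count p (N + 1) := Nat.count_strict_mono hpi hi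
      have h3 := congrFun hdig ⟨Nat.count p i, hci⟩
      have h4 := Ful.fl_eq h3
      simp only at h4
      rw [← mul_sub, abs_mul, abs_of_pos (by positivity)] at h4
      rcases Nat.eq_zero_or_pos i with h0i | h0i
      · -- the time
        subst h0i
        rw [Nat.count_zero, g0_zero] at h4
        have e1 : ∀ ω, X ω 0 = cx F e ω 0 := fun ω => by
          rw [hX]
          show hx p _ (cx F e ω) 0 = _
          unfold hx
          rw [if_pos rfl]
        have e2 : D.Ph w₀ z k ω 0 = D.Ph w₀ z k ω' 0 := Ph_lab hlab 0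
        have e3 : eval (X ω) (D.Ph w₀ z k ω 0) = eval (X ω') (D.Ph w₀ z k ω' 0) := by
          rw [← e2, Ph_zero, eval_C, eval_C]
        rw [e1, e1, e3] at h4
        have e4 : cx F e ω 0 - eval (X ω') (D.Ph w₀ z k ω' 0) -
          (cx F e ω' 0 - eval (X ω') (D.Ph w₀ z k ω' 0)) = cx F e ω 0 - cx F e ω' 0 := by ring
        rw [e4] at h4
        rw [g0_zero, le_div_iff₀ (by positivity), mul_comm]
        linarith
      · rw [g0_pos h0i]
        have h1c := H.stc.ix_pos h0i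
        have hcn : Nat.count p i ≤ Nat.count p (N + 1) := hci.le
        have e5 := h1 C B T p e w₀ z M g h C₁ S Q ε A H hS (by linarith) hε hε1 k hk ω hω
          (Nat.count p i) h1c hcn
        have e6 := h1 C B T p e w₀ z M g h C₁ S Q ε A H hS (by linarith) hε hε1 k hk ω' hω'
          (Nat.count p i) h1c hcn
        rw [st_ix hpi, ← hD, ← hX] at e5 e6
        have e7 := hnC ω ω' hω hω' hlC (hT h0i) i h0i hi.le hXj
        have e8 : g0 w₀ z (dg p g) k (Nat.count p i) = g k i - 1 := by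
          rw [g0_pos h1c]
          unfold dg
          rw [st_ix hpi]
        simp only [e8] at h4
        have e9 := H.g_pos k hk i h0i hi.le
        -- the error of the heights
        have e10 : Q ^ d * ε / 2 ^ g 0 i ≤ 1 / 2 ^ (g k i + z) := by
          rw [div_le_div_iff₀ (by positivity) (by positivity), one_mul, pow_add]
          have h7 := H.ratio k hk i h0i hi.le
          have h8 : (2 : ℝ) ^ z ≤ Q := by
            refine (pow_le_pow_right₀ (by norm_num) ?_).trans H.ratio0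
            nlinarith [Nat.zero_le (M * z)]
          calc Q ^ d * ε * (2 ^ g k i * 2 ^ z) ≤ Q ^ d * ε * ((Q * 2 ^ g 0 i) * Q) := by
                refine mul_le_mul_of_nonneg_left ?_ (by positivity)
                exact mul_le_mul h7 h8 (by positivity) (by positivity)
            _ = Q ^ (d + 2) * ε * 2 ^ g 0 i := by ring
            _ ≤ 1 * 2 ^ g 0 i := mul_le_mul_of_nonneg_right hεQ (by positivity)
            _ = _ := one_mul _
        -- the digits
        obtain ⟨x, hx⟩ : ∃ x, x = X ω (Nat.count p i) -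
          eval (X ω) (D.Ph w₀ z k ω (Nat.count p i)) := ⟨_, rfl⟩
        obtain ⟨x', hx'⟩ : ∃ x', x' = X ω' (Nat.count p i) -
          eval (X ω') (D.Ph w₀ z k ω' (Nat.count p i)) := ⟨_, rfl⟩
        rw [← hx, ← hx'] at h4
        rw [← hx] at e5
        rw [← hx'] at e6
        have h5 : |x - x'| ≤ 2 / 2 ^ (g k i + z) := by
          rw [le_div_iff₀ (by positivity)]
          obtain ⟨a, ha⟩ : ∃ a, g k i = a + 1 := ⟨g k i - 1, by omega⟩
          rw [ha, Nat.add_sub_cancel] at h4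
          have h6 : (2 : ℝ) ^ (g k i + z) = 2 * 2 ^ (a + z) := by
            rw [ha, ← pow_succ']
            congr 1
            omega
          rw [h6]
          nlinarith
        have h6 : |x - x'| ≤ 2 / 2 ^ (g k i + z) := h5
        have h7 : cx F e ω i - cx F e ω' i = (x - x') -
            (x - (cx F e ω i - eval (cx F e ω) (C.Ph w₀ z k ω i))) +
            (x' - (cx F e ω' i - eval (cx F e ω') (C.Ph w₀ z k ω' i))) +
            (eval (cx F e ω) (C.Ph w₀ z k ω i) - eval (cx F e ω') (C.Ph w₀ z k ω' i)) := by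
          ring
        rw [← Ph_lab hlC i] at h7 e6
        have h8 := abs_le.1 (e5.trans e10)
        have h9 := abs_le.1 (e6.trans e10)
        have h10 := abs_le.1 e7
        have h11 := abs_le.1 h6
        have h12 : (4 + L) / 2 ^ (g k i + z) = 2 / 2 ^ (g k i + z) + 1 / 2 ^ (g k i + z) +
          1 / 2 ^ (g k i + z) + L / 2 ^ (g k i + z) := by ring
        rw [h12, h7, abs_le]
        constructor <;> linarith [h8.1, h8.2, h9.1, h9.2, h10.1, h10.2, h11.1, h11.2]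
    · -- dynamic
      rw [hγd i hpi]
      have h0i := hp1 hpi
      have e1 := H.Bpos k hk ω hω i h0i hi
      have e2 := H.Bpos k hk ω' hω' i h0i hi
      have e3 := hnB ω ω' hω hω' hlB (hT h0i) i h0i (by omega) hXj
      rw [Nat.add_zero] at e3
      rw [← Ph_lab hlB i] at e2
      rw [Hyp.cx_pos F e ω h0i, Hyp.cx_pos F e ω' h0i]
      have h12 : (4 + L) / 2 ^ h k i = 1 / 2 ^ h k i + 1 / 2 ^ h k i + L / 2 ^ h k i +
        2 / 2 ^ h k i := by ring
      have h13 : (0 : ℝ) ≤ 2 / 2 ^ h k i := by positivity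
      have h8 := abs_le.1 e1
      have h9 := abs_le.1 e2
      have h10 := abs_le.1 e3
      rw [h12, abs_le]
      constructor <;> linarith [h8.1, h8.2, h9.1, h9.2, h10.1, h10.2]

/-- The numbers of the static coordinates. -/
theorem num_st {σ : ℕ → ℝ} {C₁ : ℝ} [DecidablePred p] (hp : Stc p n)
    (top : w₀ + (M + 1) * z ≤ J) (σ0 : σ 0 = 1) (σ1 : ∀ i, 1 ≤ σ i)
    (hg1 : ∀ k ≤ M, ∀ i, 1 ≤ i → i ≤ n → 1 ≤ g k i)
    (hge : ∀ k ≤ M, ∀ i, 1 ≤ i → i ≤ n → g 0 i ≤ g k i)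
    (hom : ∀ k ≤ M, ∀ i, 1 ≤ i → i ≤ n → p i →
      |(g k i : ℝ) - g 0 i - σ i * (k * z)| ≤ C₁ * z) :
    Num (Nat.count p n) J w₀ z M (dg p g) (fun i => σ (Nat.nth p i)) C₁ := by
  refine ⟨top, ?_, fun i => σ1 _, fun k hk i h1 h2 => ?_, fun k hk i h1 h2 => ?_⟩
  · show σ (Nat.nth p 0) = 1
    rw [hp.st_zero, σ0]
  · have h3 := hge k hk _ (hp.st_pos h1) (hp.st_le h2)
    unfold dg
    omega
  · have h3 := hg1 k hk _ (hp.st_pos h1) (hp.st_le h2)
    have h4 := hg1 0 (Nat.zero_le M) _ (hp.st_pos h1) (hp.st_le h2)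
    have h5 := hom k hk _ (hp.st_pos h1) (hp.st_le h2) (hp.mem i)
    unfold dg
    rw [Nat.cast_sub h3, Nat.cast_sub h4]
    refine le_trans (le_of_eq ?_) h5
    congr 1
    push_cast
    ring

/-- **The axioms `Ok0` of the drop-out system**, for the family conditioned on an event `E`. -/
theorem ok0 (N K : ℕ) : ∃ (K'' c c' : ℕ) (T₀ : ℝ), 2 ≤ T₀ ∧ ∀ {m J : ℕ} {F : Fam m J}
    (C B : CDat F) (T : TDat F) (p : ℕ → Prop) [DecidablePred p] (e : ℕ → Fin m)
    (w₀ z M : ℕ) (g h : ℕ → ℕ → ℕ) (C₁ C₁' S Q ε κ : ℝ) (σ : ℕ → ℝ) (A E : F.Ω → Prop)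
    (L e₀ ε' : ℝ),
    Hyp C B T p e (N + 1) K w₀ z M g h C₁ S Q ε A → T₀ ≤ S → S ≤ Q → 0 ≤ ε →
    Q ^ c * ε ≤ 1 → 0 ≤ C₁' → Real.exp (C₁ * z) * S ^ c' ≤ Real.exp (C₁' * z) → 0 ≤ L →
    Num (Nat.count p (N + 1)) J w₀ z M (dg p g) (fun i => σ (Nat.nth p i)) C₁' →
    (∀ k ≤ M, C.Near e (N + 1) w₀ z g k z L A) → (∀ k ≤ M, B.Near e N w₀ z h k 0 L A) →
    (∀ k ≤ M, ∀ i, 1 ≤ i → i ≤ N → p i → g k i + z ≤ J) →
    (∀ k ≤ M, ∀ i, 1 ≤ i → i ≤ N → ¬ p i → h k i ≤ J) →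
    ∀ hE : 0 < Pe F.p E, (∀ ω, E ω → A ω) → (Fam.sub F E hE).Tm e₀ →
    (∀ k ≤ M, ExW F E (fun j : Fin N => e (j + 1)) (w₀ + k * z)
      ((∑ i ∈ Ico 1 (N + 1), ((J : ℝ) - h k i)) * Real.log 2 - ε')) →
    e₀ ≤ κ * z → e₀ + ε' + (N + 1 : ℕ) * Real.log (11 + 2 * L) ≤ κ * z →
    ((dd C B T p (N + 1) w₀ z g).ndX (dx C p e (N + 1) w₀ z) (Nat.count p (N + 1)) w₀ z M
      (dg p g)).Ok0 (Nat.count p (N + 1)) K'' J w₀ z M (fun i => σ (Nat.nth p i)) κ C₁'
      (Pool.Agent.H49.Ent.cond F.p E True) := by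
  obtain ⟨K'', c₁, c', T₁, hT₁, h1⟩ := cnd (N + 1) K
  obtain ⟨c₂, T₂, hT₂, h2⟩ := full N K
  refine ⟨K'', c₁ + c₂, c', T₁ + T₂, by linarith, ?_⟩
  intro m J F C B T p _ e w₀ z M g h C₁ C₁' S Q ε κ σ A E L e₀ ε' H hS hSQ hε hεQ hC₁ hS' hL
    hnum hnC hnB hgJ hhJ hE hEA ht hex hκ₁ hκ₂
  have hQ1 : 1 ≤ Q := by linarith
  have hε1 : Q ^ c₁ * ε ≤ 1 :=
    (mul_le_mul_of_nonneg_right (pow_up hQ1 (by omega)) hε).trans hεQ
  have hε2 : Q ^ c₂ * ε ≤ 1 :=
    (mul_le_mul_of_nonneg_right (pow_up hQ1 (by omega)) hε).trans hεQ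
  have hc := h1 C B T p e w₀ z M g h C₁ C₁' S Q ε A H (by linarith) hSQ hε hε1 hS'
  refine ok0X hc hnum hC₁ (isLaw_cond F.isLaw hE) (fun ω hω => hEA ω (cond_supp hω)) ?_
    fun k hk => ?_
  · refine le_trans ?_ (nd_time hE ht (by have := H.top; omega))
    linarith
  · refine le_trans ?_ (h2 C B T p e w₀ z M g h C₁ C₁' S Q ε K'' A E L H (by linarith)
      (by linarith) hε hε2 hL k hk hc (hnC k hk) (hnB k hk) (hgJ k hk) (hhJ k hk) hE hEA e₀ ε'
      ht (hex k hk))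
    linarith

end Pool.STAT.DPP
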