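import Pool.Agent.H90.STAT.Near

/-!
# The drop-out system: the frame (pure part)

The coordinates `j` with `p j` are static (the time `0` is static, and all `j ≥ n`); `Nat.nth p i`
is the `i`-th static coordinate. The dynamic coordinates are polynomials `Θ j` of the static
natural coordinates over a system `Φ`. `fr γ Φ Θ` are the coordinates as polynomials of the
time and of the heights of the static coordinates over `Φ`.
-/

set_option autoImplicit false

namespace Pool.STAT.DPP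

open Finset MvPolynomial
open Pool.STAT.CLO

/-! ### The numbering of the static coordinates -/

/-- The static coordinates: the time, and all the coordinates from `n` on. -/
structure Stc (p : ℕ → Prop) (n : ℕ) : Prop where
  zero : p 0
  ge : ∀ j, n ≤ j → p j

namespace Stc

variable {p : ℕ → Prop} {n : ℕ} (hp : Stc p n)

include hp

theorem inf : (Set.ofPred p).Infinite := by
  refine Set.infinite_of_not_bddAbove ?_
  rintro ⟨b, hb⟩
  have h1 : b + n + 1 ≤ b := hb (hp.ge (b + n + 1) (by omega))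
  omega

theorem mem (i : ℕ) : p (Nat.nth p i) := Nat.nth_mem_of_infinite hp.inf i

theorem st_mono : StrictMono (Nat.nth p) := Nat.nth_strictMono hp.inf

variable [DecidablePred p]

theorem ix_st (i : ℕ) : Nat.count p (Nat.nth p i) = i := Nat.count_nth_of_infinite hp.inf i

theorem st_zero : Nat.nth p 0 = 0 := by
  have h1 := Nat.nth_count hp.zero
  rwa [Nat.count_zero] at h1

theorem ix_pos {j : ℕ} (hj : 1 ≤ j) : 1 ≤ Nat.count p j := by
  refine le_trans ?_ (Nat.count_monotone p hj)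
  rw [Nat.count_succ, if_pos hp.zero, Nat.count_zero]

theorem st_last : Nat.nth p (Nat.count p n) = n := Nat.nth_count (hp.ge n le_rfl)

omit [DecidablePred p] in
theorem st_pos {i : ℕ} (hi : 1 ≤ i) : 1 ≤ Nat.nth p i := by
  have h1 := hp.st_mono (show 0 < i by omega)
  omega

theorem ix_of_lt {j i : ℕ} (h : p j) (hj : j < Nat.nth p i) : Nat.count p j < i := by
  have h1 := Nat.count_strict_mono h hj
  rwa [hp.ix_st i] at h1

theorem st_le {i : ℕ} (hi : i ≤ Nat.count p n) : Nat.nth p i ≤ n := by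
  have h1 := hp.st_mono.monotone hi
  rwa [hp.st_last] at h1

theorem st_lt {i : ℕ} (hi : i < Nat.count p n) : Nat.nth p i < n := by
  have h1 := hp.st_mono hi
  rwa [hp.st_last] at h1

end Stc

theorem st_ix {p : ℕ → Prop} [DecidablePred p] {j : ℕ} (h : p j) :
    Nat.nth p (Nat.count p j) = j := Nat.nth_count h

/-! ### The frame -/

section frame

variable (p : ℕ → Prop) [DecidablePred p] (γ : ℕ → ℕ) (Φ Θ : ℕ → PN)

/-- The static natural coordinates, as polynomials of the time and of the heights. -/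
noncomputable def ys (j : ℕ) : PN :=
  C ((2 : ℝ) ^ γ j) * (X (Nat.count p j) - if j = 0 then Φ 0 else 0)

/-- All the natural coordinates. -/
noncomputable def yy (j : ℕ) : PN := if p j then ys p γ Φ j else bind₁ (ys p γ Φ) (Θ j)

/-- **The frame.** -/
noncomputable def fr (j : ℕ) : PN := bind₁ (yy p γ Φ Θ) (nuc γ Φ j)

omit [DecidablePred p] in
/-- The time and the heights of the static coordinates of a point. -/
noncomputable def hx (b : ℕ → ℝ) (i : ℕ) : ℝ :=
  if i = 0 then b 0 else b (Nat.nth p i) - eval b (Φ (Nat.nth p i))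

/-- The point of the frame with the heights `u`. -/
noncomputable def fp (u : ℕ → ℝ) (j : ℕ) : ℝ := eval u (fr p γ Φ Θ j)

end frame

section

variable {p : ℕ → Prop} [DecidablePred p] {n : ℕ} {γ : ℕ → ℕ} {Φ Θ : ℕ → PN}

/-- A constant polynomial. -/
theorem eval_cst (hΦ : TriN Φ) (b b' : ℕ → ℝ) : eval b (Φ 0) = eval b' (Φ 0) :=
  Pool.SYS35.eval_congr (n := 0) (hΦ 0) fun _ hi => absurd hi (Nat.not_lt_zero _)

/-- The natural coordinates of the point of the frame. -/
theorem nc_fp (hΦ : TriN Φ) (u : ℕ → ℝ) (j : ℕ) :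
    nc γ Φ (fp p γ Φ Θ u) j = eval u (yy p γ Φ Θ j) := by
  have h1 := congrFun (nc_nuc hΦ γ fun j => eval u (yy p γ Φ Θ j)) j
  rw [← h1]
  congr 1
  funext k
  unfold fp fr
  rw [Pool.SYS35.eval_bind]

/-- The value of a polynomial at the point of the frame. -/
theorem eval_fr (F : PN) (u : ℕ → ℝ) : eval u (bind₁ (fr p γ Φ Θ) F) =
    eval (fp p γ Φ Θ u) F := by
  rw [Pool.SYS35.eval_bind]
  rfl

/-- The static natural coordinates of a point. -/
theorem ys_hx (hp : Stc p n) (hΦ : TriN Φ) (b : ℕ → ℝ) {j : ℕ} (hj : p j) :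
    eval (hx p Φ b) (ys p γ Φ j) = nc γ Φ b j := by
  unfold ys nc
  rw [map_mul, eval_C, map_sub, eval_X]
  congr 1
  unfold hx
  by_cases h0 : j = 0
  · subst h0
    rw [Nat.count_zero, if_pos rfl, if_pos rfl, eval_cst hΦ _ b]
  · have h1 := hp.ix_pos (show 1 ≤ j by omega)
    rw [if_neg (by omega), if_neg h0, map_zero, sub_zero, st_ix hj]

/-- The dynamic natural coordinates of the point of the frame. -/
theorem yy_hx (hp : Stc p n) (hΦ : TriN Φ) (b : ℕ → ℝ) {j : ℕ} (hj : ¬ p j)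
    (hΘ : ∀ l ∈ (Θ j).vars, p l) :
    eval (hx p Φ b) (yy p γ Φ Θ j) = eval (nc γ Φ b) (Θ j) := by
  unfold yy
  rw [if_neg hj, Pool.SYS35.eval_bind]
  exact AdxRow.evl_congr fun l hl => ys_hx hp hΦ b (hΘ l hl)

/-- The height of a static coordinate of the point of the frame. -/
theorem fp_st (hp : Stc p n) (hΦ : TriN Φ) (u : ℕ → ℝ) {j : ℕ} (hj : p j) (h1 : 1 ≤ j) :
    fp p γ Φ Θ u j - eval (fp p γ Φ Θ u) (Φ j) = u (Nat.count p j) := by
  have h2 := nc_fp (p := p) (γ := γ) (Θ := Θ) hΦ u j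
  unfold nc at h2
  unfold yy at h2
  rw [if_pos hj] at h2
  unfold ys at h2
  rw [map_mul, eval_C, map_sub, eval_X, if_neg (by omega), map_zero, sub_zero] at h2
  exact mul_left_cancel₀ (by positivity) h2

/-- The time of the point of the frame. -/
theorem fp_zero (hp : Stc p n) (hΦ : TriN Φ) (u : ℕ → ℝ) : fp p γ Φ Θ u 0 = u 0 := by
  have h2 := nc_fp (p := p) (γ := γ) (Θ := Θ) hΦ u 0
  unfold nc at h2
  unfold yy at h2
  rw [if_pos hp.zero] at h2
  unfold ys at h2
  rw [map_mul, eval_C, map_sub, eval_X, if_pos rfl, Nat.count_zero,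
    eval_cst hΦ u (fp p γ Φ Θ u)] at h2
  have h3 := mul_left_cancel₀ (by positivity : ((2 : ℝ) ^ γ 0) ≠ 0) h2
  linarith

/-- The heights of the point of the frame. -/
theorem hx_fp (hp : Stc p n) (hΦ : TriN Φ) (u : ℕ → ℝ) (i : ℕ) :
    hx p Φ (fp p γ Φ Θ u) i = u i := by
  unfold hx
  by_cases h0 : i = 0
  · subst h0
    rw [if_pos rfl, fp_zero hp hΦ]
  · rw [if_neg h0, fp_st hp hΦ u (hp.mem i) (hp.st_pos (by omega)), hp.ix_st]

/-- **The sample and the point of the frame** are near in natural coordinates. -/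
theorem near_hx (hp : Stc p n) (hΦ : TriN Φ) {b : ℕ → ℝ} {ε : ℝ} (hε : 0 ≤ ε) {j : ℕ}
    (hΘ : ¬ p j → ∀ l ∈ (Θ j).vars, p l)
    (h : ¬ p j → |nc γ Φ b j - eval (nc γ Φ b) (Θ j)| ≤ ε) :
    |nc γ Φ b j - nc γ Φ (fp p γ Φ Θ (hx p Φ b)) j| ≤ ε := by
  rw [nc_fp hΦ]
  by_cases hj : p j
  · have h1 : eval (hx p Φ b) (yy p γ Φ Θ j) = nc γ Φ b j := by
      unfold yy
      rw [if_pos hj]
      exact ys_hx hp hΦ b hj
    rw [h1, sub_self, abs_zero]
    exact hε
  · rw [yy_hx hp hΦ b hj (hΘ hj)]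
    exact h hj

/-! ### Degrees and variables -/

theorem ys_deg (hΦ : TriN Φ) (j : ℕ) : (ys p γ Φ j).totalDegree ≤ 1 := by
  unfold ys
  have h0 : (Φ 0).totalDegree = 0 := by
    rw [totalDegree_eq_zero_iff]
    intro k hk i
    by_contra h
    have h1 := hΦ 0 ((mem_vars_iff_mem_support i).2 ⟨k, hk, Finsupp.mem_support_iff.2 h⟩)
    rw [range_zero] at h1
    exact absurd h1 (notMem_empty _)
  refine (totalDegree_mul _ _).trans ?_
  rw [totalDegree_C, zero_add]
  refine (totalDegree_sub _ _).trans (max_le ?_ ?_)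
  · rw [totalDegree_X]
  · split_ifs
    · rw [h0]
      exact Nat.zero_le 1
    · rw [totalDegree_zero]
      exact Nat.zero_le 1

theorem ys_vars (hp : Stc p n) (hΦ : TriN Φ) {j i : ℕ} (hj : p j) (hi : j < Nat.nth p i) :
    (ys p γ Φ j).vars ⊆ range i := by
  unfold ys
  refine AdxRow.vars_mul_le (AdxRow.vars_C_le _) (AdxRow.vars_sub_le
    (AdxRow.vars_X_le (hp.ix_of_lt hj hi)) ?_)
  split_ifs
  · exact (hΦ 0).trans (Finset.range_mono (Nat.zero_le i))
  · rw [vars_0]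
    exact Finset.empty_subset _

theorem yy_vars (hp : Stc p n) (hΦ : TriN Φ) {j i : ℕ} (hi : j < Nat.nth p i)
    (hΘ : ¬ p j → ∀ l ∈ (Θ j).vars, p l ∧ l < j) : (yy p γ Φ Θ j).vars ⊆ range i := by
  unfold yy
  split_ifs with hj
  · exact ys_vars hp hΦ hj hi
  · intro k hk
    obtain ⟨l, hl, hkl⟩ := mem_vars_bind₁ _ _ hk
    obtain ⟨h1, h2⟩ := hΘ hj l hl
    exact ys_vars hp hΦ h1 (h2.trans hi) hkl

theorem yy_deg (hΦ : TriN Φ) {D : ℕ} (hD : 1 ≤ D) {j : ℕ}
    (hΘ : ¬ p j → (Θ j).totalDegree ≤ D) : (yy p γ Φ Θ j).totalDegree ≤ D := by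
  unfold yy
  split_ifs with hj
  · exact (ys_deg hΦ j).trans hD
  · refine (Dgb.deg_bind (B := 1) fun k _ => ys_deg hΦ k).trans ?_
    rw [mul_one]
    exact hΘ hj

/-- Polynomials on the frame. -/
theorem fr_bind (hp : Stc p n) (hΦ : TriN Φ) {K D N i : ℕ} (hK : ∀ j, (Φ j).totalDegree ≤ K)
    (hD : 1 ≤ D) {F : PN} (hi : Nat.nth p i ≤ N) (hv : F.vars ⊆ range (Nat.nth p i))
    (hF : F.totalDegree ≤ K)
    (hΘv : ∀ j < Nat.nth p i, ¬ p j → ∀ l ∈ (Θ j).vars, p l ∧ l < j)
    (hΘd : ∀ j < Nat.nth p i, ¬ p j → (Θ j).totalDegree ≤ D) :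
    (bind₁ (fr p γ Φ Θ) F).vars ⊆ range i ∧
      (bind₁ (fr p γ Φ Θ) F).totalDegree ≤ K * (K + 1) ^ (N + 1) * D := by
  have e : bind₁ (fr p γ Φ Θ) F = bind₁ (yy p γ Φ Θ) (bind₁ (nuc γ Φ) F) := by
    rw [bind₁_bind₁]
    rfl
  obtain ⟨h1, h2⟩ := nat_deg hΦ hK γ hi hv hF
  rw [e]
  constructor
  · intro k hk
    obtain ⟨l, hl, hkl⟩ := mem_vars_bind₁ _ _ hk
    have hl' := mem_range.1 (h1 hl)
    exact yy_vars hp hΦ hl' (hΘv l hl') hkl
  · refine (Dgb.deg_bind (B := D) fun k hk => ?_).trans (Nat.mul_le_mul_right D h2)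
    have hk' := mem_range.1 (h1 hk)
    exact yy_deg hΦ hD (hΘd k hk')

end

end Pool.STAT.DPP
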