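import Pool.Agent.H82.STAT.Dpa

/-!
# The drop-out system: the boxes (pure part)

`Lev`: the systems of one level. `Φ` is the fat system of level `0`, `Ψ` the fat system of the
level, `B` the system of the balls, `Θ` the polynomials of the dynamic natural coordinates, which
are good up to `ε` in the boxes of the balls.

* `dif`: the difference `Ψ j - Φ j` at two points with near natural coordinates;
* `box_incl`: the points of the frame whose static heights over `Ψ` are small are in the dilated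
  natural box of `Ψ`, also in the dynamic coordinates.
-/

set_option autoImplicit false

namespace Pool.STAT.DPP

open Finset MvPolynomial
open Pool.STAT.CLO

/-- **The systems of one level.** -/
structure Lev (p : ℕ → Prop) (n K : ℕ) (γ g h : ℕ → ℕ) (Φ Ψ B Θ : ℕ → PN) (S Q ε : ℝ) :
    Prop where
  stc : Stc p n
  triΦ : TriN Φ
  triΨ : TriN Ψ
  triB : TriN B
  degΦ : ∀ j, (Φ j).totalDegree ≤ K
  degΨ : ∀ j, (Ψ j).totalDegree ≤ K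
  degB : ∀ j, (B j).totalDegree ≤ K
  degΘ : ∀ j, ¬ p j → (Θ j).totalDegree ≤ K
  varsΘ : ∀ j, ¬ p j → ∀ l ∈ (Θ j).vars, p l ∧ l < j
  nΘ : ∀ j < n, ¬ p j → n1 (Θ j) ≤ Q
  hg : ∀ j < n, p j → h j = g j
  γg : ∀ j ≤ n, γ j ≤ g j
  ratio : ∀ j ≤ n, (2 : ℝ) ^ g j ≤ Q * 2 ^ γ j
  uni : ∀ j ≤ n, ∀ b, Bx γ Φ j b → |eval b (Ψ j) - eval b (Φ j)| ≤ Q / 2 ^ γ j
  uniB : ∀ j < n, ∀ b, Bx h B j b → |eval b (Ψ j) - eval b (B j)| ≤ S / 2 ^ g j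
  thin : ∀ j < n, ¬ p j → ∀ b, Bx h B (j + 1) b →
    |nc γ Φ b j - eval (nc γ Φ b) (Θ j)| ≤ ε

variable {p : ℕ → Prop} {n K : ℕ} {γ g h : ℕ → ℕ} {Φ Ψ B Θ : ℕ → PN} {S Q ε : ℝ}

/-! ### Powers -/

/-- Powers absorb constants. -/
theorem pow_abs {C T : ℝ} {a : ℕ} (hC : C ≤ T) (hT : 1 ≤ T) : C * T ^ a ≤ T ^ (a + 1) := by
  rw [pow_succ, mul_comm (T ^ a) T]
  exact mul_le_mul_of_nonneg_right hC (by positivity)

theorem pow_up {T : ℝ} {a b : ℕ} (hT : 1 ≤ T) (h : a ≤ b) : T ^ a ≤ T ^ b :=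
  pow_le_pow_right₀ hT h

theorem pow_add2 {T x y : ℝ} {a : ℕ} (hT : 2 ≤ T) (hx : x ≤ T ^ a) (hy : y ≤ T ^ a) :
    x + y ≤ T ^ (a + 1) := by
  have h1 : (0 : ℝ) ≤ T ^ a := by positivity
  rw [pow_succ]
  nlinarith

/-! ### The differences -/

/-- The natural polynomial of the difference `Ψ j - Φ j`. -/
theorem Lev.n1_dif {C : ℝ} (hC : ∀ (Φ : ℕ → PN) (g : ℕ → ℕ) (F : PN) (i : ℕ)
    (S : ℝ), TriN Φ → (∀ j, (Φ j).totalDegree ≤ K) → i ≤ n → F.vars ⊆ range i →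
    F.totalDegree ≤ K → (∀ b : ℕ → ℝ, Bxr 1 g Φ i b → |eval b F| ≤ S) →
    n1 (bind₁ (nuc g Φ) F) ≤ C * S) (H : Lev p n K γ g h Φ Ψ B Θ S Q ε) {j : ℕ} (hj : j ≤ n) :
    n1 (bind₁ (nuc γ Φ) (Ψ j - Φ j)) ≤ C * (Q / 2 ^ γ j) := by
  refine hC Φ γ _ j _ H.triΦ H.degΦ hj (AdxRow.vars_sub_le (H.triΨ j) (H.triΦ j))
    ((totalDegree_sub _ _).trans (max_le (H.degΨ j) (H.degΦ j))) fun b hb => ?_
  rw [map_sub]
  exact H.uni j hj b hb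

/-- **The difference at two points** whose natural coordinates over `Φ` are at most `Q ^ a` and
near. -/
theorem dif (n K a : ℕ) : ∃ (c : ℕ) (T₀ : ℝ), 1 ≤ T₀ ∧ ∀ (p : ℕ → Prop) (γ g h : ℕ → ℕ)
    (Φ Ψ B Θ : ℕ → PN) (S Q ε : ℝ), Lev p n K γ g h Φ Ψ B Θ S Q ε → T₀ ≤ Q →
    ∀ j ≤ n, ∀ (b b' : ℕ → ℝ) (δ : ℝ), 0 ≤ δ → (∀ l < j, |nc γ Φ b l| ≤ Q ^ a) →
      (∀ l < j, |nc γ Φ b' l| ≤ Q ^ a) → (∀ l < j, |nc γ Φ b' l - nc γ Φ b l| ≤ δ) →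
      |eval b' (Ψ j - Φ j) - eval b (Ψ j - Φ j)| ≤ Q ^ c * δ / 2 ^ γ j := by
  obtain ⟨C, hC1, hC⟩ := n1_of_box n K
  obtain ⟨K₁, hK₁⟩ : ∃ K₁, K₁ = K * (K + 1) ^ (n + 1) := ⟨_, rfl⟩
  refine ⟨a * K₁ + 2, C * n * K₁ + 2, ?_, ?_⟩
  · have : (0 : ℝ) ≤ C * n * K₁ := by positivity
    linarith
  intro p γ g h Φ Ψ B Θ S Q ε H hQ j hj b b' δ hδ hb hb' hd
  have hC0 : (0 : ℝ) ≤ C := by linarith
  have hT : (0 : ℝ) ≤ C * n * K₁ := by positivity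
  have hQ1 : 1 ≤ Q := by linarith
  have hQ0 : 0 ≤ Q := by linarith
  obtain ⟨h2, h3⟩ := nat_deg H.triΦ H.degΦ γ hj
    (AdxRow.vars_sub_le (H.triΨ j) (H.triΦ j))
    ((totalDegree_sub _ _).trans (max_le (H.degΨ j) (H.degΦ j)))
  rw [← hK₁] at h3
  rw [eval_nat H.triΦ γ b, eval_nat H.triΦ γ b']
  refine (NEAR.var_le (one_le_pow₀ hQ1) h2 h3 hb hb' hd).trans ?_
  have h4 := H.n1_dif hC hj
  have h5 : (0 : ℝ) < 2 ^ γ j := by positivity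
  rw [le_div_iff₀ h5]
  have h6 : n1 (bind₁ (nuc γ Φ) (Ψ j - Φ j)) * 2 ^ γ j ≤ C * Q := by
    have h7 := mul_le_mul_of_nonneg_right h4 h5.le
    have h8 : C * (Q / 2 ^ γ j) * 2 ^ γ j = C * Q := by field_simp
    linarith
  have h9 : (j : ℝ) ≤ n := by exact_mod_cast hj
  have h10 : 0 ≤ n1 (bind₁ (nuc γ Φ) (Ψ j - Φ j)) * 2 ^ γ j :=
    mul_nonneg (n1_nonneg _) h5.le
  have h11 : (0 : ℝ) ≤ (Q ^ a) ^ K₁ := by positivity
  calc (j : ℝ) * (K₁ * n1 (bind₁ (nuc γ Φ) (Ψ j - Φ j)) * (Q ^ a) ^ K₁ * δ) * 2 ^ γ j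
      = j * (K₁ * (n1 (bind₁ (nuc γ Φ) (Ψ j - Φ j)) * 2 ^ γ j) * (Q ^ a) ^ K₁ * δ) := by ring
    _ ≤ n * (K₁ * (C * Q) * (Q ^ a) ^ K₁ * δ) := by
        refine mul_le_mul h9 ?_ (by positivity) (Nat.cast_nonneg n)
        refine mul_le_mul_of_nonneg_right (mul_le_mul_of_nonneg_right
          (mul_le_mul_of_nonneg_left h6 (Nat.cast_nonneg K₁)) h11) hδ
    _ = (C * n * K₁) * (Q * (Q ^ a) ^ K₁ * δ) := by ring
    _ ≤ Q * (Q * (Q ^ a) ^ K₁ * δ) := by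
        refine mul_le_mul_of_nonneg_right (by linarith) (by positivity)
    _ = Q ^ (a * K₁ + 2) * δ := by
        rw [← pow_mul]
        ring

/-- The difference at a point whose natural coordinates over `Φ` are at most `Q ^ a`. -/
theorem dif1 (n K a : ℕ) : ∃ (c : ℕ) (T₀ : ℝ), 1 ≤ T₀ ∧ ∀ (p : ℕ → Prop) (γ g h : ℕ → ℕ)
    (Φ Ψ B Θ : ℕ → PN) (S Q ε : ℝ), Lev p n K γ g h Φ Ψ B Θ S Q ε → T₀ ≤ Q →
    ∀ j ≤ n, ∀ (b : ℕ → ℝ), (∀ l < j, |nc γ Φ b l| ≤ Q ^ a) →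
      |eval b (Ψ j - Φ j)| ≤ Q ^ c / 2 ^ γ j := by
  obtain ⟨C, hC1, hC⟩ := dil n K
  obtain ⟨K₁, hK₁⟩ : ∃ K₁, K₁ = K * (K + 1) ^ (n + 1) := ⟨_, rfl⟩
  rw [← hK₁] at hC
  refine ⟨a * K₁ + 2, C, hC1, ?_⟩
  intro p γ g h Φ Ψ B Θ S Q ε H hQ j hj b hb
  have hQ1 : 1 ≤ Q := by linarith
  have h1 := hC Φ γ (Ψ j - Φ j) j (Q / 2 ^ γ j) (Q ^ a) H.triΦ H.degΦ hj
    (AdxRow.vars_sub_le (H.triΨ j) (H.triΦ j))
    ((totalDegree_sub _ _).trans (max_le (H.degΨ j) (H.degΦ j))) (one_le_pow₀ hQ1)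
    (fun b hb => by
      rw [map_sub]
      exact H.uni j hj b hb) b fun l hl => nc_le.1 (hb l hl)
  refine h1.trans ?_
  have h5 : (0 : ℝ) < 2 ^ γ j := by positivity
  rw [le_div_iff₀ h5]
  calc C * (Q / 2 ^ γ j) * (Q ^ a) ^ K₁ * 2 ^ γ j = C * (Q * (Q ^ a) ^ K₁) := by field_simp
    _ ≤ Q * (Q * (Q ^ a) ^ K₁) := mul_le_mul_of_nonneg_right hQ (by positivity)
    _ = Q ^ (a * K₁ + 2) := by
        rw [← pow_mul]
        ring

/-! ### The comparison point -/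

/-- The exponents. -/
def ea (K₁ : ℕ) : ℕ → ℕ
  | 0 => 0
  | j + 1 => ea K₁ j * (K₁ + 1) + 3

theorem ea_succ (K₁ j : ℕ) : ea K₁ j ≤ ea K₁ (j + 1) := by
  show ea K₁ j ≤ ea K₁ j * (K₁ + 1) + 3
  nlinarith [Nat.zero_le (ea K₁ j * K₁)]

theorem ea_mono (K₁ : ℕ) : Monotone (ea K₁) := monotone_nat_of_le_succ (ea_succ K₁)

theorem Bxr.succ {ρ : ℝ} {g : ℕ → ℕ} {Φ : ℕ → PN} {j : ℕ} {b : ℕ → ℝ} (h : Bxr ρ g Φ j b)
    (h1 : |b j - eval b (Φ j)| ≤ ρ / 2 ^ g j) : Bxr ρ g Φ (j + 1) b := fun l hl => by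
  rcases Nat.lt_succ_iff_lt_or_eq.1 hl with h2 | rfl
  · exact h l h2
  · exact h1

/-- The point `b` has small static heights over `Ψ`, and it is a centre of `B` in the dynamic
coordinates. -/
def Cen (p : ℕ → Prop) (g : ℕ → ℕ) (Ψ B : ℕ → PN) (s : ℕ) (b : ℕ → ℝ) : Prop :=
  (∀ j < s, p j → |b j - eval b (Ψ j)| ≤ 2 / 2 ^ g j) ∧ ∀ j < s, ¬ p j → b j = eval b (B j)

/-- **The comparison point is in the box of the balls.** -/
theorem cen_box (n K : ℕ) : ∃ T₀ : ℝ, 2 ≤ T₀ ∧ ∀ (p : ℕ → Prop) (γ g h : ℕ → ℕ)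
    (Φ Ψ B Θ : ℕ → PN) (S Q ε : ℝ), Lev p n K γ g h Φ Ψ B Θ S Q ε → T₀ ≤ S →
    ∀ s ≤ n, ∀ b : ℕ → ℝ, Cen p g Ψ B s b → ∀ j ≤ s,
      Bxr (S ^ ea (K * (K + 1) ^ (n + 1)) j) h B j b ∧
      (j < s → |eval b (Ψ j) - eval b (B j)| ≤
        S ^ (ea (K * (K + 1) ^ (n + 1)) j * (K * (K + 1) ^ (n + 1) + 1) + 2) / 2 ^ g j) := by
  obtain ⟨C, hC1, hC⟩ := dil n K
  obtain ⟨K₁, hK₁⟩ : ∃ K₁, K₁ = K * (K + 1) ^ (n + 1) := ⟨_, rfl⟩
  rw [← hK₁] at hC ⊢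
  refine ⟨C + 2, by linarith, ?_⟩
  intro p γ g h Φ Ψ B Θ S Q ε H hS s hs b hb
  have hS2 : 2 ≤ S := by linarith
  have hS1 : 1 ≤ S := by linarith
  have hdif : ∀ j < s, Bxr (S ^ ea K₁ j) h B j b → |eval b (Ψ j) - eval b (B j)| ≤
      S ^ (ea K₁ j * (K₁ + 1) + 2) / 2 ^ g j := by
    intro j hj hbx
    have h1 := hC B h (Ψ j - B j) j (S / 2 ^ g j) (S ^ ea K₁ j) H.triB H.degB (by omega)
      (AdxRow.vars_sub_le (H.triΨ j) (H.triB j))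
      ((totalDegree_sub _ _).trans (max_le (H.degΨ j) (H.degB j))) (one_le_pow₀ hS1)
      (fun b hb => by
        rw [map_sub]
        exact H.uniB j (by omega) b hb) b hbx
    rw [map_sub] at h1
    refine h1.trans ?_
    have h5 : (0 : ℝ) < 2 ^ g j := by positivity
    rw [le_div_iff₀ h5]
    calc C * (S / 2 ^ g j) * (S ^ ea K₁ j) ^ K₁ * 2 ^ g j = C * (S * (S ^ ea K₁ j) ^ K₁) := by
          field_simp
      _ ≤ S * (S * (S ^ ea K₁ j) ^ K₁) :=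
          mul_le_mul_of_nonneg_right (by linarith) (by positivity)
      _ = S ^ (ea K₁ j * K₁ + 2) := by
          rw [← pow_mul]
          ring
      _ ≤ S ^ (ea K₁ j * (K₁ + 1) + 2) := by
          refine pow_up hS1 ?_
          nlinarith [Nat.zero_le (ea K₁ j)]
  have hbox : ∀ j ≤ s, Bxr (S ^ ea K₁ j) h B j b := by
    intro j
    induction j with
    | zero => exact fun _ i hi => absurd hi (Nat.not_lt_zero _)
    | succ j ih =>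
      intro hj
      have ih := ih (by omega)
      refine Bxr.succ (ih.mono (pow_up hS1 (ea_succ K₁ j)) le_rfl) ?_
      by_cases hpj : p j
      · have h1 := hb.1 j (by omega) hpj
        have h2 := hdif j (by omega) ih
        rw [H.hg j (by omega) hpj]
        have h3 : |b j - eval b (B j)| ≤ |b j - eval b (Ψ j)| +
            |eval b (Ψ j) - eval b (B j)| := by
          have := abs_add_le (b j - eval b (Ψ j)) (eval b (Ψ j) - eval b (B j))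
          rwa [sub_add_sub_cancel] at this
        refine (h3.trans (add_le_add h1 h2)).trans ?_
        rw [← add_div]
        refine div_le_div_of_nonneg_right ?_ (by positivity)
        show _ ≤ S ^ (ea K₁ j * (K₁ + 1) + 3)
        refine pow_add2 hS2 ?_ le_rfl
        calc (2 : ℝ) ≤ S ^ 1 := by rw [pow_one]; exact hS2
          _ ≤ _ := pow_up hS1 (by omega)
      · rw [hb.2 j (by omega) hpj, sub_self, abs_zero]
        positivity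
  exact fun j hj => ⟨hbox j hj, fun hj' => hdif j hj' (hbox j hj)⟩

end Pool.STAT.DPP
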