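import Pool.Agent.H82.STAT.Dpb

/-!
# The drop-out system: the box inclusion (pure part)
-/

set_option autoImplicit false

namespace Pool.STAT.DPP

open Finset MvPolynomial
open Pool.STAT.CLO

variable {p : ℕ → Prop} {n K : ℕ} {γ g h : ℕ → ℕ} {Φ Ψ B Θ : ℕ → PN} {S Q ε : ℝ}

/-- The exponents of the second step. -/
def eb (a : ℕ) : ℕ → ℕ
  | 0 => 0
  | j + 1 => eb a j * (a + 1) + a + 4

theorem eb_succ (a j : ℕ) : eb a j ≤ eb a (j + 1) := by
  show eb a j ≤ eb a j * (a + 1) + a + 4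
  nlinarith [Nat.zero_le (eb a j * a)]

theorem eb_mono (a : ℕ) : Monotone (eb a) := monotone_nat_of_le_succ (eb_succ a)

/-- **The comparison point in natural coordinates over `Φ`** is at most a power of `Q`. -/
theorem cen_nc (n K : ℕ) : ∃ (c : ℕ) (T₀ : ℝ), 2 ≤ T₀ ∧ ∀ (p : ℕ → Prop) (γ g h : ℕ → ℕ)
    (Φ Ψ B Θ : ℕ → PN) (S Q ε : ℝ), Lev p n K γ g h Φ Ψ B Θ S Q ε → T₀ ≤ S → S ≤ Q →
    ∀ s ≤ n, ∀ b : ℕ → ℝ, Cen p g Ψ B s b → ∀ j < s, |nc γ Φ b j| ≤ Q ^ c := by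
  obtain ⟨T₁, hT₁, h1⟩ := cen_box n K
  obtain ⟨C, hC1, hC⟩ := dil n K
  obtain ⟨K₁, hK₁⟩ : ∃ K₁, K₁ = K * (K + 1) ^ (n + 1) := ⟨_, rfl⟩
  rw [← hK₁] at hC h1
  obtain ⟨a, ha⟩ : ∃ a, a = ea K₁ n * (K₁ + 1) + 2 + K₁ := ⟨_, rfl⟩
  refine ⟨eb a n, C + T₁, by linarith, ?_⟩
  intro p γ g h Φ Ψ B Θ S Q ε H hS hSQ s hs b hb
  have hS2 : 2 ≤ S := by linarith
  have hS1 : 1 ≤ S := by linarith
  have hQ2 : 2 ≤ Q := by linarith
  have hQ1 : 1 ≤ Q := by linarith
  have hCQ : C ≤ Q := by linarith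
  have hbox := h1 p γ g h Φ Ψ B Θ S Q ε H (by linarith) s hs b hb
  have key : ∀ j ≤ s, Bxr (Q ^ eb a j) γ Φ j b := by
    intro j
    induction j with
    | zero => exact fun _ i hi => absurd hi (Nat.not_lt_zero _)
    | succ j ih =>
      intro hj
      have ih := ih (by omega)
      refine Bxr.succ (ih.mono (pow_up hQ1 (eb_succ a j)) le_rfl) ?_
      have hγ : (0 : ℝ) < 2 ^ γ j := by positivity
      have hg : (0 : ℝ) < 2 ^ g j := by positivity
      have hgγ : (1 : ℝ) / 2 ^ g j ≤ 1 / 2 ^ γ j :=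
        one_div_le_one_div_of_le hγ (pow_le_pow_right₀ (by norm_num) (H.γg j (by omega)))
      -- the height over `Ψ`
      have e1 : |b j - eval b (Ψ j)| ≤ Q ^ a / 2 ^ γ j := by
        have e2 : |b j - eval b (Ψ j)| ≤ Q ^ a / 2 ^ g j := by
          by_cases hpj : p j
          · refine (hb.1 j (by omega) hpj).trans (div_le_div_of_nonneg_right ?_ hg.le)
            calc (2 : ℝ) ≤ Q ^ 1 := by rw [pow_one]; exact hQ2
              _ ≤ _ := pow_up hQ1 (by omega)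
          · rw [hb.2 j (by omega) hpj, abs_sub_comm]
            refine ((hbox j (by omega)).2 (by omega)).trans
              (div_le_div_of_nonneg_right ?_ hg.le)
            refine (pow_le_pow_left₀ (by linarith) hSQ _).trans (pow_up hQ1 ?_)
            rw [ha]
            have h2 := ea_mono K₁ (show j ≤ n by omega)
            have h3 := Nat.mul_le_mul_right (K₁ + 1) h2
            omega
        refine e2.trans ?_
        rw [div_eq_mul_one_div, div_eq_mul_one_div (Q ^ a) (2 ^ γ j)]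
        exact mul_le_mul_of_nonneg_left hgγ (by positivity)
      -- the difference
      have e3 : |eval b (Ψ j) - eval b (Φ j)| ≤ Q ^ (eb a j * K₁ + 2) / 2 ^ γ j := by
        have h2 := hC Φ γ (Ψ j - Φ j) j (Q / 2 ^ γ j) (Q ^ eb a j) H.triΦ H.degΦ (by omega)
          (AdxRow.vars_sub_le (H.triΨ j) (H.triΦ j))
          ((totalDegree_sub _ _).trans (max_le (H.degΨ j) (H.degΦ j))) (one_le_pow₀ hQ1)
          (fun b hb => by
            rw [map_sub]
            exact H.uni j (by omega) b hb) b ih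
        rw [map_sub] at h2
        refine h2.trans ?_
        rw [le_div_iff₀ hγ]
        calc C * (Q / 2 ^ γ j) * (Q ^ eb a j) ^ K₁ * 2 ^ γ j =
              C * (Q * (Q ^ eb a j) ^ K₁) := by field_simp
          _ ≤ Q * (Q * (Q ^ eb a j) ^ K₁) := mul_le_mul_of_nonneg_right hCQ (by positivity)
          _ = Q ^ (eb a j * K₁ + 2) := by
              rw [← pow_mul]
              ring
      have e4 : |b j - eval b (Φ j)| ≤ |b j - eval b (Ψ j)| + |eval b (Ψ j) - eval b (Φ j)| := by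
        have := abs_add_le (b j - eval b (Ψ j)) (eval b (Ψ j) - eval b (Φ j))
        rwa [sub_add_sub_cancel] at this
      refine (e4.trans (add_le_add e1 e3)).trans ?_
      rw [← add_div]
      refine div_le_div_of_nonneg_right ?_ hγ.le
      have hK₁a : K₁ ≤ a := by omega
      have e5 : eb a j * K₁ + 2 ≤ eb a j * (a + 1) + a + 3 := by
        have h2 : eb a j * K₁ ≤ eb a j * (a + 1) := Nat.mul_le_mul_left _ (by omega)
        omega
      refine (pow_add2 (a := eb a j * (a + 1) + a + 3) hQ2 (pow_up hQ1 (by omega))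
        (pow_up hQ1 e5)).trans (le_of_eq ?_)
      rfl
  intro j hj
  rw [nc_le]
  refine (key s le_rfl j hj).trans (div_le_div_of_nonneg_right ?_ (by positivity))
  exact pow_up hQ1 (eb_mono a hs)

/-! ### The dynamic coordinates of the comparison point -/

/-- The defect of `Θ j` as a polynomial. -/
noncomputable def dfp (γ : ℕ → ℕ) (Φ Θ : ℕ → PN) (j : ℕ) : PN :=
  C ((2 : ℝ) ^ γ j) * (X j - Φ j) - bind₁ (fun l => C ((2 : ℝ) ^ γ l) * (X l - Φ l)) (Θ j)

theorem eval_dfp (γ : ℕ → ℕ) (Φ Θ : ℕ → PN) (j : ℕ) (b : ℕ → ℝ) :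
    eval b (dfp γ Φ Θ j) = nc γ Φ b j - eval (nc γ Φ b) (Θ j) := by
  have h1 : (fun l => eval b (C ((2 : ℝ) ^ γ l) * (X l - Φ l) : PN)) = nc γ Φ b := by
    funext l
    unfold nc
    rw [map_mul, eval_C, map_sub, eval_X]
  unfold dfp
  rw [map_sub, Pool.SYS35.eval_bind, h1, map_mul, eval_C, map_sub, eval_X]
  rfl

theorem dfp_deg (γ : ℕ → ℕ) {Φ Θ : ℕ → PN} (hΦ : ∀ j, (Φ j).totalDegree ≤ K) {j : ℕ}
    (hΘ : (Θ j).totalDegree ≤ K) : (dfp γ Φ Θ j).totalDegree ≤ (K + 1) * (K + 1) := by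
  have h1 : ∀ l, (C ((2 : ℝ) ^ γ l) * (X l - Φ l) : PN).totalDegree ≤ K + 1 := by
    intro l
    refine (totalDegree_mul _ _).trans ?_
    rw [totalDegree_C, zero_add]
    refine (totalDegree_sub _ _).trans (max_le ?_ ((hΦ l).trans (Nat.le_succ K)))
    rw [totalDegree_X]
    omega
  unfold dfp
  refine (totalDegree_sub _ _).trans (max_le ((h1 j).trans ?_) ?_)
  · nlinarith
  · refine (Dgb.deg_bind (B := K + 1) fun k _ => h1 k).trans ?_
    exact Nat.mul_le_mul_right (K + 1) (hΘ.trans (Nat.le_succ K))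

theorem dfp_vars (γ : ℕ → ℕ) {Φ Θ : ℕ → PN} (hΦ : TriN Φ) {j : ℕ}
    (hΘ : ∀ l ∈ (Θ j).vars, l < j) : (dfp γ Φ Θ j).vars ⊆ range (j + 1) := by
  have h1 : ∀ l < j + 1, (C ((2 : ℝ) ^ γ l) * (X l - Φ l) : PN).vars ⊆ range (j + 1) :=
    fun l hl => AdxRow.vars_mul_le (AdxRow.vars_C_le _) (AdxRow.vars_sub_le
      (AdxRow.vars_X_le hl) ((hΦ l).trans (Finset.range_mono (by omega))))
  unfold dfp
  refine AdxRow.vars_sub_le (h1 j (by omega)) ?_
  exact AdxRow.vars_bnd (m := j + 1) (fun l hl => mem_range.2 (by have := hΘ l hl; omega)) h1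

/-- **`Θ` at the points of the dilated boxes of the balls.** -/
theorem thin_dil (n K a : ℕ) : ∃ (c : ℕ) (T₀ : ℝ), 1 ≤ T₀ ∧ ∀ (p : ℕ → Prop) (γ g h : ℕ → ℕ)
    (Φ Ψ B Θ : ℕ → PN) (S Q ε : ℝ), Lev p n K γ g h Φ Ψ B Θ S Q ε → T₀ ≤ Q → 0 ≤ ε →
    ∀ j < n, ¬ p j → ∀ b : ℕ → ℝ, Bxr (Q ^ a) h B (j + 1) b →
      |nc γ Φ b j - eval (nc γ Φ b) (Θ j)| ≤ Q ^ c * ε := by
  obtain ⟨K', hK'⟩ : ∃ K', K' = (K + 1) * (K + 1) := ⟨_, rfl⟩
  obtain ⟨C, hC1, hC⟩ := dil n K'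
  obtain ⟨K₁, hK₁⟩ : ∃ K₁, K₁ = K' * (K' + 1) ^ (n + 1) := ⟨_, rfl⟩
  rw [← hK₁] at hC
  have hKK : K ≤ K' := by
    rw [hK']
    nlinarith
  refine ⟨a * K₁ + 1, C, hC1, ?_⟩
  intro p γ g h Φ Ψ B Θ S Q ε H hQ hε j hj hpj b hb
  have hQ1 : 1 ≤ Q := by linarith
  have h1 := hC B h (dfp γ Φ Θ j) (j + 1) ε (Q ^ a) H.triB (fun l => (H.degB l).trans hKK)
    hj (dfp_vars γ H.triΦ fun l hl => (H.varsΘ j hpj l hl).2)
    (by
      rw [hK']
      exact dfp_deg γ H.degΦ (H.degΘ j hpj)) (one_le_pow₀ hQ1)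
    (fun b hb => by
      rw [eval_dfp]
      exact H.thin j hj hpj b hb) b hb
  rw [eval_dfp] at h1
  refine h1.trans ?_
  calc C * ε * (Q ^ a) ^ K₁ ≤ Q * ε * (Q ^ a) ^ K₁ := by
        refine mul_le_mul_of_nonneg_right (mul_le_mul_of_nonneg_right hQ hε) (by positivity)
    _ = Q ^ (a * K₁ + 1) * ε := by
        rw [← pow_mul]
        ring

/-! ### The frame and the comparison point -/

section frm

variable [DecidablePred p]

/-- The values of the static natural coordinates. -/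
theorem ev_yy (hΦ : TriN Φ) (u : ℕ → ℝ) {j : ℕ} (hpj : ¬ p j) (hΘ : ∀ l ∈ (Θ j).vars, p l) :
    nc γ Φ (fp p γ Φ Θ u) j = eval (nc γ Φ (fp p γ Φ Θ u)) (Θ j) := by
  rw [nc_fp hΦ u j]
  have h1 : eval u (yy p γ Φ Θ j) = eval (fun l => eval u (ys p γ Φ l)) (Θ j) := by
    unfold yy
    rw [if_neg hpj, Pool.SYS35.eval_bind]
  rw [h1]
  refine AdxRow.evl_congr fun l hl => ?_
  rw [nc_fp hΦ u l]
  unfold yy
  rw [if_pos (hΘ l hl)]

end frm

/-- The exponents of the third step. -/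
def ec (a : ℕ) : ℕ → ℕ
  | 0 => 0
  | j + 1 => ec a j + a + 1

theorem ec_succ (a j : ℕ) : ec a j ≤ ec a (j + 1) := by
  show ec a j ≤ ec a j + a + 1
  omega

theorem ec_mono (a : ℕ) : Monotone (ec a) := monotone_nat_of_le_succ (ec_succ a)

/-- **The comparison point is near the point of the frame**, in natural coordinates over `Φ`. -/
theorem cen_near (n K : ℕ) : ∃ (c c' : ℕ) (T₀ : ℝ), 2 ≤ T₀ ∧ ∀ (p : ℕ → Prop)
    [DecidablePred p] (γ g h : ℕ → ℕ) (Φ Ψ B Θ : ℕ → PN) (S Q ε : ℝ),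
    Lev p n K γ g h Φ Ψ B Θ S Q ε → T₀ ≤ S → S ≤ Q → 0 ≤ ε → Q ^ c * ε ≤ 1 →
    ∀ s ≤ n, ∀ b u : ℕ → ℝ, Cen p g Ψ B s b →
    (∀ j < s, p j → b j - eval b (Ψ j) = fp p γ Φ Θ u j - eval (fp p γ Φ Θ u) (Ψ j)) →
    ∀ j < s, |nc γ Φ b j| ≤ Q ^ c' ∧ |nc γ Φ (fp p γ Φ Θ u) j| ≤ Q ^ c' ∧
      |nc γ Φ (fp p γ Φ Θ u) j - nc γ Φ b j| ≤ Q ^ c * ε := by
  obtain ⟨a, T₁, hT₁, h1⟩ := cen_nc n K
  obtain ⟨T₂, hT₂, h2⟩ := cen_box n K
  obtain ⟨K₁, hK₁⟩ : ∃ K₁, K₁ = K * (K + 1) ^ (n + 1) := ⟨_, rfl⟩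
  rw [← hK₁] at h2
  obtain ⟨d, T₃, hT₃, h3⟩ := dif n K (a + 1)
  obtain ⟨f, T₄, hT₄, h4⟩ := thin_dil n K (ea K₁ n)
  obtain ⟨A, hA⟩ : ∃ A, A = d + f + (a + 1) * K + 2 := ⟨_, rfl⟩
  refine ⟨ec A n, a + 1, T₁ + T₂ + T₃ + T₄ + n * K, ?_, ?_⟩
  · have : (0 : ℝ) ≤ n * K := by positivity
    linarith
  intro p _ γ g h Φ Ψ B Θ S Q ε H hS hSQ hε hεQ s hs b u hb hbu
  have hnK : (0 : ℝ) ≤ n * K := by positivity
  have hQ2 : 2 ≤ Q := by linarith
  have hQ1 : 1 ≤ Q := by linarith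
  have hQ0 : 0 ≤ Q := by linarith
  obtain ⟨F, hF⟩ : ∃ F, F = fp p γ Φ Θ u := ⟨_, rfl⟩
  rw [← hF] at hbu ⊢
  have hb1 := h1 p γ g h Φ Ψ B Θ S Q ε H (by linarith) hSQ s hs b hb
  have hb2 := h2 p γ g h Φ Ψ B Θ S Q ε H (by linarith) s hs b hb
  have hba : ∀ l < s, |nc γ Φ b l| ≤ Q ^ (a + 1) := fun l hl =>
    (hb1 l hl).trans (pow_up hQ1 (Nat.le_succ a))
  -- the induction
  have key : ∀ j ≤ s, ∀ l < j, |nc γ Φ F l - nc γ Φ b l| ≤ Q ^ ec A j * ε := by
    intro j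
    induction j with
    | zero => exact fun _ i hi => absurd hi (Nat.not_lt_zero _)
    | succ j ih =>
      intro hj l hl
      have ih := ih (by omega)
      have hup : Q ^ ec A j * ε ≤ Q ^ ec A (j + 1) * ε :=
        mul_le_mul_of_nonneg_right (pow_up hQ1 (ec_succ A j)) hε
      rcases Nat.lt_succ_iff_lt_or_eq.1 hl with h5 | h5
      · exact (ih l h5).trans hup
      rw [h5]
      have hsm : Q ^ ec A j * ε ≤ 1 := (mul_le_mul_of_nonneg_right
        (pow_up hQ1 (ec_mono A (show j ≤ n by omega))) hε).trans hεQ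
      -- the coordinates of `F` are bounded
      have hFb : ∀ i < j, |nc γ Φ F i| ≤ Q ^ (a + 1) := by
        intro i hi
        have h6 := ih i hi
        have h7 := hb1 i (by omega)
        have h8 : |nc γ Φ F i| ≤ |nc γ Φ F i - nc γ Φ b i| + |nc γ Φ b i| := by
          have := abs_add_le (nc γ Φ F i - nc γ Φ b i) (nc γ Φ b i)
          rwa [sub_add_cancel] at this
        refine h8.trans (pow_add2 hQ2 ((h6.trans hsm).trans (one_le_pow₀ hQ1)) h7)
      have hδ : 0 ≤ Q ^ ec A j * ε := by positivity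
      by_cases hpj : p j
      · -- static
        have h6 := h3 p γ g h Φ Ψ B Θ S Q ε H (by linarith) j (by omega) b F
          (Q ^ ec A j * ε) hδ (fun i hi => hba i (by omega)) hFb ih
        have h7 : nc γ Φ F j - nc γ Φ b j =
            2 ^ γ j * (eval F (Ψ j - Φ j) - eval b (Ψ j - Φ j)) := by
          have h8 := hbu j (by omega) hpj
          unfold nc
          rw [map_sub, map_sub]
          linear_combination (-(2 : ℝ) ^ γ j) * h8
        rw [h7, abs_mul, abs_of_pos (by positivity)]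
        have h9 : (0 : ℝ) < 2 ^ γ j := by positivity
        calc 2 ^ γ j * |eval F (Ψ j - Φ j) - eval b (Ψ j - Φ j)| ≤
              2 ^ γ j * (Q ^ d * (Q ^ ec A j * ε) / 2 ^ γ j) :=
              mul_le_mul_of_nonneg_left h6 h9.le
          _ = Q ^ (ec A j + d) * ε := by
              rw [pow_add]
              field_simp
          _ ≤ Q ^ ec A (j + 1) * ε := by
              refine mul_le_mul_of_nonneg_right (pow_up hQ1 ?_) hε
              show _ ≤ ec A j + A + 1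
              omega
      · -- dynamic
        have h6 : nc γ Φ F j = eval (nc γ Φ F) (Θ j) := by
          rw [hF]
          exact ev_yy H.triΦ u hpj fun l hl => (H.varsΘ j hpj l hl).1
        have h7 : |nc γ Φ b j - eval (nc γ Φ b) (Θ j)| ≤ Q ^ f * ε := by
          refine h4 p γ g h Φ Ψ B Θ S Q ε H (by linarith) hε j (by omega) hpj b ?_
          refine ((hb2 (j + 1) hj).1).mono ?_ le_rfl
          have hS0 : 0 ≤ S := by linarith
          exact (pow_le_pow_left₀ hS0 hSQ _).trans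
            (pow_up hQ1 (ea_mono K₁ (show j + 1 ≤ n by omega)))
        have h8 : (Θ j).vars ⊆ range j := fun l hl =>
          mem_range.2 (H.varsΘ j hpj l hl).2
        have h9 := NEAR.var_le (one_le_pow₀ hQ1 (n := a + 1)) h8 (H.degΘ j hpj)
          (y := nc γ Φ b) (y' := nc γ Φ F) (δ := Q ^ ec A j * ε)
          (fun i hi => hba i (by omega)) hFb ih
        have h10 : |eval (nc γ Φ F) (Θ j) - eval (nc γ Φ b) (Θ j)| ≤
            Q ^ (ec A j + ((a + 1) * K + 2)) * ε := by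
          refine h9.trans ?_
          have h11 := H.nΘ j (by omega) hpj
          have h12 : (j : ℝ) ≤ n := by exact_mod_cast (show j ≤ n by omega)
          have hn1 := n1_nonneg (Θ j)
          calc (j : ℝ) * (K * n1 (Θ j) * (Q ^ (a + 1)) ^ K * (Q ^ ec A j * ε))
              ≤ n * (K * Q * (Q ^ (a + 1)) ^ K * (Q ^ ec A j * ε)) := by
                refine mul_le_mul h12 ?_ (by positivity) (Nat.cast_nonneg n)
                refine mul_le_mul_of_nonneg_right (mul_le_mul_of_nonneg_right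
                  (mul_le_mul_of_nonneg_left h11 (Nat.cast_nonneg K)) (by positivity)) hδ
            _ = (n * K) * (Q * (Q ^ (a + 1)) ^ K * (Q ^ ec A j * ε)) := by ring
            _ ≤ Q * (Q * (Q ^ (a + 1)) ^ K * (Q ^ ec A j * ε)) := by
                refine mul_le_mul_of_nonneg_right ?_ (by positivity)
                linarith
            _ = Q ^ (ec A j + ((a + 1) * K + 2)) * ε := by
                rw [← pow_mul]
                ring
        rw [h6]
        have h11 : |eval (nc γ Φ F) (Θ j) - nc γ Φ b j| ≤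
            |eval (nc γ Φ F) (Θ j) - eval (nc γ Φ b) (Θ j)| +
              |nc γ Φ b j - eval (nc γ Φ b) (Θ j)| := by
          have := abs_add_le (eval (nc γ Φ F) (Θ j) - eval (nc γ Φ b) (Θ j))
            (-(nc γ Φ b j - eval (nc γ Φ b) (Θ j)))
          rw [abs_neg] at this
          refine le_trans (le_of_eq ?_) this
          congr 1
          ring
        refine (h11.trans (add_le_add h10 h7)).trans ?_
        rw [← add_mul]
        refine mul_le_mul_of_nonneg_right ?_ hε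
        refine (pow_add2 (a := ec A j + A) hQ2 (pow_up hQ1 (by omega))
          (pow_up hQ1 (by omega))).trans (le_of_eq rfl)
  intro j hj
  have h5 := key s le_rfl j hj
  have h6 : Q ^ ec A s * ε ≤ Q ^ ec A n * ε :=
    mul_le_mul_of_nonneg_right (pow_up hQ1 (ec_mono A hs)) hε
  refine ⟨hba j hj, ?_, h5.trans h6⟩
  have h8 : |nc γ Φ F j| ≤ |nc γ Φ F j - nc γ Φ b j| + |nc γ Φ b j| := by
    have := abs_add_le (nc γ Φ F j - nc γ Φ b j) (nc γ Φ b j)
    rwa [sub_add_cancel] at this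
  exact h8.trans (pow_add2 hQ2 (((h5.trans h6).trans hεQ).trans (one_le_pow₀ hQ1)) (hb1 j hj))

/-! ### The box inclusion -/

/-- The hybrid system of the comparison point. -/
noncomputable def hyb (p : ℕ → Prop) [DecidablePred p] (Ψ B : ℕ → PN) (t : ℕ → ℝ) (j : ℕ) :
    PN := if p j then Ψ j + C (t j) else B j

theorem hyb_tri [DecidablePred p] (hΨ : TriN Ψ) (hB : TriN B) (t : ℕ → ℝ) :
    TriN (hyb p Ψ B t) := by
  intro j
  unfold hyb
  split_ifs
  · exact AdxRow.vars_add_le (hΨ j) (AdxRow.vars_C_le _)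
  · exact hB j

/-- The centre of a system. -/
theorem cen_eq (hΨ : TriN Ψ) (g : ℕ → ℕ) : ∃ b : ℕ → ℝ, ∀ j, b j = eval b (Ψ j) := by
  refine ⟨fun j => eval (fun _ => (0 : ℝ)) (nuc g Ψ j), fun j => ?_⟩
  have h1 := congrFun (nc_nuc hΨ g fun _ => (0 : ℝ)) j
  unfold nc at h1
  have h2 : (0 : ℝ) < 2 ^ g j := by positivity
  rcases mul_eq_zero.1 h1 with h3 | h3
  · exact absurd h3 h2.ne'
  · linarith

/-- **The box inclusion.** If the static heights over `Ψ` of a point of the frame are small then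
the point is in the dilated natural box of `Ψ`. -/
theorem box_incl (n K : ℕ) : ∃ (c c' : ℕ) (T₀ : ℝ), 2 ≤ T₀ ∧ ∀ (p : ℕ → Prop)
    [DecidablePred p] (γ g h : ℕ → ℕ) (Φ Ψ B Θ : ℕ → PN) (S Q ε : ℝ),
    Lev p n K γ g h Φ Ψ B Θ S Q ε → T₀ ≤ S → S ≤ Q → 0 ≤ ε → Q ^ c * ε ≤ 1 →
    ∀ s ≤ n, ∀ u : ℕ → ℝ, (∀ j < s, p j →
      |fp p γ Φ Θ u j - eval (fp p γ Φ Θ u) (Ψ j)| ≤ 2 / 2 ^ g j) →
    ∀ j < s, |fp p γ Φ Θ u j - eval (fp p γ Φ Θ u) (Ψ j)| ≤ S ^ c' / 2 ^ g j ∧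
      |nc γ Φ (fp p γ Φ Θ u) j| ≤ Q ^ c' := by
  obtain ⟨a, a', T₁, hT₁, h1⟩ := cen_near n K
  obtain ⟨T₂, hT₂, h2⟩ := cen_box n K
  obtain ⟨K₁, hK₁⟩ : ∃ K₁, K₁ = K * (K + 1) ^ (n + 1) := ⟨_, rfl⟩
  rw [← hK₁] at h2
  obtain ⟨d, T₃, hT₃, h3⟩ := dif n K a'
  obtain ⟨E, hE⟩ : ∃ E, E = ea K₁ n * (K₁ + 1) + 2 := ⟨_, rfl⟩
  refine ⟨a + d + 2, E + a' + 1, T₁ + T₂ + T₃, by linarith, ?_⟩
  intro p _ γ g h Φ Ψ B Θ S Q ε H hS hSQ hε hεQ s hs u hu
  have hS2 : 2 ≤ S := by linarith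
  have hS1 : 1 ≤ S := by linarith
  have hQ2 : 2 ≤ Q := by linarith
  have hQ1 : 1 ≤ Q := by linarith
  have hQ0 : 0 ≤ Q := by linarith
  obtain ⟨F, hF⟩ : ∃ F, F = fp p γ Φ Θ u := ⟨_, rfl⟩
  rw [← hF] at hu
  -- the comparison point
  obtain ⟨b, hb⟩ := cen_eq (hyb_tri (p := p) H.triΨ H.triB
    fun j => F j - eval F (Ψ j)) g
  have hb1 : ∀ j, p j → b j - eval b (Ψ j) = F j - eval F (Ψ j) := by
    intro j hpj
    have h4 := hb j
    unfold hyb at h4
    rw [if_pos hpj, map_add, eval_C] at h4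
    linarith
  have hcen : Cen p g Ψ B s b := by
    refine ⟨fun j hj hpj => ?_, fun j _ hpj => ?_⟩
    · rw [hb1 j hpj]
      exact hu j hj hpj
    · have h4 := hb j
      unfold hyb at h4
      rwa [if_neg hpj] at h4
  have hεa : Q ^ a * ε ≤ 1 := (mul_le_mul_of_nonneg_right (pow_up hQ1 (by omega)) hε).trans hεQ
  have hnear := h1 p γ g h Φ Ψ B Θ S Q ε H (by linarith) hSQ hε hεa s hs b u hcen
    (fun j _ hpj => by rw [← hF]; exact hb1 j hpj)
  rw [← hF] at hnear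
  have hbox := h2 p γ g h Φ Ψ B Θ S Q ε H (by linarith) s hs b hcen
  rw [← hF]
  intro j hj
  refine ⟨?_, (hnear j hj).2.1.trans (pow_up hQ1 (by omega))⟩
  have hg0 : (0 : ℝ) < 2 ^ g j := by positivity
  by_cases hpj : p j
  · refine (hu j hj hpj).trans (div_le_div_of_nonneg_right ?_ hg0.le)
    calc (2 : ℝ) ≤ S ^ 1 := by rw [pow_one]; exact hS2
      _ ≤ _ := pow_up hS1 (by omega)
  · have h4 := (hbox j hj.le).2 hj
    rw [← hcen.2 j hj hpj, abs_sub_comm] at h4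
    have h5 : |b j - eval b (Ψ j)| ≤ S ^ E / 2 ^ g j := by
      refine h4.trans (div_le_div_of_nonneg_right (pow_up hS1 ?_) hg0.le)
      rw [hE]
      have h6 := ea_mono K₁ (show j ≤ n by omega)
      have h7 := Nat.mul_le_mul_right (K₁ + 1) h6
      omega
    have hδ : 0 ≤ Q ^ a * ε := by positivity
    have h6 := h3 p γ g h Φ Ψ B Θ S Q ε H (by linarith) j (by omega) b F (Q ^ a * ε) hδ
      (fun l hl => (hnear l (by omega)).1) (fun l hl => (hnear l (by omega)).2.1)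
      (fun l hl => (hnear l (by omega)).2.2)
    have h7 := (hnear j hj).2.2
    have hγ0 : (0 : ℝ) < 2 ^ γ j := by positivity
    -- the difference of the heights over `Ψ`
    have h8 : (F j - eval F (Ψ j)) - (b j - eval b (Ψ j)) =
        (nc γ Φ F j - nc γ Φ b j) / 2 ^ γ j -
          (eval F (Ψ j - Φ j) - eval b (Ψ j - Φ j)) := by
      unfold nc
      rw [map_sub, map_sub]
      field_simp
      ring
    have h9 : |(F j - eval F (Ψ j)) - (b j - eval b (Ψ j))| ≤ 1 / 2 ^ g j := by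
      rw [h8]
      have h10 : |(nc γ Φ F j - nc γ Φ b j) / 2 ^ γ j -
          (eval F (Ψ j - Φ j) - eval b (Ψ j - Φ j))| ≤
          Q ^ a * ε / 2 ^ γ j + Q ^ d * (Q ^ a * ε) / 2 ^ γ j := by
        refine (abs_sub _ _).trans (add_le_add ?_ h6)
        rw [abs_div, abs_of_pos hγ0]
        exact div_le_div_of_nonneg_right h7 hγ0.le
      refine h10.trans ?_
      rw [← add_div, div_le_div_iff₀ hγ0 hg0, one_mul]
      have h11 := H.ratio j (by omega)
      have h12 : Q ^ a * ε + Q ^ d * (Q ^ a * ε) ≤ Q ^ (a + d + 1) * ε := by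
        have h13 : Q ^ a + Q ^ d * Q ^ a ≤ Q ^ (a + d + 1) := by
          refine pow_add2 hQ2 (pow_up hQ1 (by omega)) ?_
          rw [← pow_add]
          exact pow_up hQ1 (by omega)
        calc Q ^ a * ε + Q ^ d * (Q ^ a * ε) = (Q ^ a + Q ^ d * Q ^ a) * ε := by ring
          _ ≤ _ := mul_le_mul_of_nonneg_right h13 hε
      calc (Q ^ a * ε + Q ^ d * (Q ^ a * ε)) * 2 ^ g j ≤
            (Q ^ (a + d + 1) * ε) * (Q * 2 ^ γ j) :=
            mul_le_mul h12 h11 (by positivity) (by positivity)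
        _ = (Q ^ (a + d + 2) * ε) * 2 ^ γ j := by ring
        _ ≤ 1 * 2 ^ γ j := mul_le_mul_of_nonneg_right hεQ hγ0.le
        _ = 2 ^ γ j := one_mul _
    have h10 : |F j - eval F (Ψ j)| ≤
        |(F j - eval F (Ψ j)) - (b j - eval b (Ψ j))| + |b j - eval b (Ψ j)| := by
      have := abs_add_le ((F j - eval F (Ψ j)) - (b j - eval b (Ψ j))) (b j - eval b (Ψ j))
      rwa [sub_add_cancel] at this
    refine (h10.trans (add_le_add h9 h5)).trans ?_
    rw [← add_div]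
    refine div_le_div_of_nonneg_right ?_ hg0.le
    refine (pow_add2 hS2 (one_le_pow₀ hS1) le_rfl).trans (pow_up hS1 (by omega))

end Pool.STAT.DPP
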