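import Pool.Agent.H82.STAT.Dpp
import Pool.Agent.H75.STAT.Thin

/-!
# The drop-out system: the polynomials of the dynamic coordinates from thin charts

* `thin_ball`: from the thinnest box to the boxes of the balls;
* `mkT`: the polynomials `Θ` as a closed value, from closed thin charts;
* `thin_hyp`: the fields `Tdeg`, `Tvars`, `Tcls`, `Tn1`, `thin` of `Hyp`.
-/

set_option autoImplicit false

namespace Pool.STAT.DPP

open Finset MvPolynomial
open Pool.Agent.H49.Ent Pool.Agent.H32.Dense Pool.STK Pool.KS3 Pool.KA Pool.KSAT Pool.PB Pool.GEN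
open Pool.STAT.CLO Pool.STAT.CDat
open Pool.TRC31 (BxE d1)

theorem exp_log2 (k : ℕ) : Real.exp ((k : ℝ) * Real.log 2) = 2 ^ k := by
  rw [mul_comm, Real.exp_mul, Real.exp_log (by norm_num), Real.rpow_natCast]

theorem exp_log2' (k : ℕ) : Real.exp (-((k : ℝ) * Real.log 2)) = 1 / 2 ^ k := by
  rw [Real.exp_neg, exp_log2, one_div]

theorem zt_eq (t : ℕ → ℕ) (Φ : ℕ → PN) (b : ℕ → ℝ) (i : ℕ) :
    Thin.zt (fun i => (t i : ℝ) * Real.log 2) Φ b i = nc t Φ b i := by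
  unfold Thin.zt nc
  rw [exp_log2]

/-- The coordinates before `i` determine the natural coordinates up to `i`. -/
theorem nc_congr {t : ℕ → ℕ} {Φ : ℕ → PN} (hΦ : TriN Φ) {b b' : ℕ → ℝ} {i : ℕ}
    (h : ∀ j ≤ i, b j = b' j) : ∀ j ≤ i, nc t Φ b j = nc t Φ b' j := by
  intro j hj
  unfold nc
  rw [h j hj, Pool.SYS35.eval_congr (hΦ j) fun l hl => h l (by omega)]

/-- The properties of the polynomials `Θ`. -/
def Gd (n K r D c : ℕ) (C₀ T₀ : ℝ) (Φ : ℕ → ℕ → PN) (t : ℕ → ℕ → ℕ) (U : Finset ℕ)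
    (A γ : ℝ) (Θ : ℕ → PN) : Prop :=
  (∀ i ∈ U, ∀ l ∈ (Θ i).vars, l < i ∧ l ∉ U) ∧ (∀ i, (Θ i).totalDegree ≤ D) ∧
  (∀ i, n1 (Θ i) ≤ Real.exp (C₀ * (A + 1))) ∧
  ∀ (B : ℕ → PN) (h : ℕ → ℕ) (S : ℝ), TriN B → (∀ j, (B j).totalDegree ≤ K) → T₀ ≤ S →
    (∀ i < n, t r i ≤ h i) →
    (∀ i < n, ∀ b, Bx h B i b → |eval b (B i) - eval b (Φ r i)| ≤ S / 2 ^ t r i) →
    ∀ i < n, ∀ b, Bx h B (i + 1) b →
      |nc (t 0) (Φ 0) b i - eval (nc (t 0) (Φ 0) b) (Θ i)| ≤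
        S ^ c * Real.exp (C₀ * (A + 1) - γ)

/-- **From the thinnest box to the boxes of the balls.** -/
theorem thin_ball (n K r : ℕ) : ∃ (D c : ℕ) (C₀ T₀ : ℝ), 1 ≤ C₀ ∧ 2 ≤ T₀ ∧
    ∀ (Φ : ℕ → ℕ → PN) (t : ℕ → ℕ → ℕ) (U : Finset ℕ) (A γ : ℝ),
      Thin.Ths n K r Φ (fun j i => (t j i : ℝ) * Real.log 2) U A γ →
      ∃ Θ : ℕ → PN, Gd n K r D c C₀ T₀ Φ t U A γ Θ := by
  obtain ⟨C, D, hC, hth⟩ := thin n K r
  obtain ⟨K', hK'⟩ : ∃ K', K' = (max K D + 1) * (max K D + 1) := ⟨_, rfl⟩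
  obtain ⟨C₁, hC₁, hdil⟩ := dil n K'
  obtain ⟨K₁, hK₁⟩ : ∃ K₁, K₁ = K' * (K' + 1) ^ (n + 1) := ⟨_, rfl⟩
  rw [← hK₁] at hdil
  have hKK : K ≤ K' := by
    rw [hK']
    have : K ≤ max K D := le_max_left _ _
    nlinarith
  refine ⟨D, 2 * K₁ + 1, C, C₁ + 2, hC, by linarith, ?_⟩
  intro Φ t U A γ H
  obtain ⟨Θ, h1, h2, h3, h4, h5⟩ := hth Φ _ U A γ H
  refine ⟨Θ, h2, h3, h4, ?_⟩
  intro B h S hB hBK hS hth' huni i hi b hb
  have hS1 : 1 ≤ S := by linarith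
  have hS2 : 2 ≤ S := by linarith
  have hΦ0 : TriN (Φ 0) := H.tri 0 (Nat.zero_le r)
  have hΦr : TriN (Φ r) := H.tri r le_rfl
  have hΘv : ∀ l ∈ (Θ i).vars, l ≤ i := by
    intro l hl
    by_cases hiU : i ∈ U
    · exact (h2 i hiU l hl).1.le
    · rw [h1 i hiU, vars_X, mem_singleton] at hl
      omega
  have hcn : ∀ l ≤ i, l ≤ n - 1 := fun l hl => by omega
  -- the thinnest box
  have hthin : ∀ b' : ℕ → ℝ, Bx (t r) (Φ r) (i + 1) b' →
      |nc (t 0) (Φ 0) b' i - eval (nc (t 0) (Φ 0) b') (Θ i)| ≤ Real.exp (C * (A + 1) - γ) := by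
    intro b' hb'
    obtain ⟨c, hc⟩ := cen_eq (Ψ := fun j => if j ≤ i then MvPolynomial.C (b' j) else Φ r j) (fun j => by
      dsimp only
      split_ifs
      · exact AdxRow.vars_C_le _
      · exact hΦr j) (fun _ => 0)
    have hc1 : ∀ j ≤ i, c j = b' j := fun j hj => by
      rw [hc j, if_pos hj, eval_C]
    have hc2 : BxE ((fun j i => (t j i : ℝ) * Real.log 2) r) (Φ r) n c := by
      intro j hj
      show |c j - eval c (Φ r j)| ≤ Real.exp (-((t r j : ℝ) * Real.log 2))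
      rw [exp_log2']
      by_cases hji : j ≤ i
      · rw [hc1 j hji, Pool.SYS35.eval_congr (hΦr j) fun l hl => hc1 l (by omega)]
        exact hb' j (by omega)
      · have h6 := hc j
        rw [if_neg hji] at h6
        rw [← h6, sub_self, abs_zero]
        positivity
    have h6 := h5 c hc2 i hi
    have h7 : ∀ j ≤ i, Thin.zt ((fun j i => (t j i : ℝ) * Real.log 2) 0) (Φ 0) c j =
        nc (t 0) (Φ 0) b' j := fun j hj => by
      show Thin.zt (fun i => (t 0 i : ℝ) * Real.log 2) (Φ 0) c j = _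
      rw [zt_eq]
      exact nc_congr hΦ0 hc1 j hj
    rw [h7 i le_rfl, AdxRow.evl_congr fun l hl => h7 l (hΘv l hl)] at h6
    exact h6
  -- the box of the balls
  have hbx : Bxr (S ^ 2) (t r) (cut (n - 1) (Φ r)) (i + 1) b := by
    intro j hj
    rw [cut_of_le (hcn j (by omega))]
    have h6 := hb j hj
    have h7 := huni j (by omega) b fun l hl => hb l (by omega)
    have h8 : |b j - eval b (Φ r j)| ≤ 1 / 2 ^ h j + S / 2 ^ t r j := by
      have := abs_add_le (b j - eval b (B j)) (eval b (B j) - eval b (Φ r j))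
      rw [sub_add_sub_cancel] at this
      exact this.trans (add_le_add h6 h7)
    have h9 : (1 : ℝ) / 2 ^ h j ≤ 1 / 2 ^ t r j :=
      one_div_le_one_div_of_le (by positivity)
        (pow_le_pow_right₀ (by norm_num) (hth' j (by omega)))
    refine (h8.trans (add_le_add_left h9 _)).trans ?_
    rw [← add_div]
    refine div_le_div_of_nonneg_right ?_ (by positivity)
    nlinarith
  have hdeg0 : ∀ j, (cut (n - 1) (Φ 0) j).totalDegree ≤ max K D := fun j =>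
    (cut_deg (fun l hl => H.deg 0 (Nat.zero_le r) l (by omega)) j).trans (le_max_left _ _)
  have hdegr : ∀ j, (cut (n - 1) (Φ r) j).totalDegree ≤ K' := fun j =>
    (cut_deg (fun l hl => H.deg r le_rfl l (by omega)) j).trans hKK
  have htri0 : TriN (cut (n - 1) (Φ 0)) := cut_tri fun j _ => hΦ0 j
  have htrir : TriN (cut (n - 1) (Φ r)) := cut_tri fun j _ => hΦr j
  have hnc : ∀ b : ℕ → ℝ, ∀ j ≤ i, nc (t 0) (cut (n - 1) (Φ 0)) b j = nc (t 0) (Φ 0) b j :=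
    fun b j hj => cut_nc (hcn j hj)
  have hev : ∀ b : ℕ → ℝ, eval b (dfp (t 0) (cut (n - 1) (Φ 0)) Θ i) =
      nc (t 0) (Φ 0) b i - eval (nc (t 0) (Φ 0) b) (Θ i) := by
    intro b
    rw [eval_dfp, hnc b i le_rfl, AdxRow.evl_congr fun l hl => hnc b l (hΘv l hl)]
  have hvars : (dfp (t 0) (cut (n - 1) (Φ 0)) Θ i).vars ⊆ range (i + 1) := by
    have h6 : ∀ l < i + 1, (MvPolynomial.C ((2 : ℝ) ^ t 0 l) *
        (X l - cut (n - 1) (Φ 0) l) : PN).vars ⊆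
        range (i + 1) :=
      fun l hl => AdxRow.vars_mul_le (AdxRow.vars_C_le _) (AdxRow.vars_sub_le
        (AdxRow.vars_X_le hl) ((htri0 l).trans (Finset.range_mono (by omega))))
    unfold dfp
    refine AdxRow.vars_sub_le (h6 i (by omega)) ?_
    exact AdxRow.vars_bnd (m := i + 1) (fun l hl => mem_range.2 (by have := hΘv l hl; omega)) h6
  have h6 := hdil (cut (n - 1) (Φ r)) (t r) (dfp (t 0) (cut (n - 1) (Φ 0)) Θ i) (i + 1)
    (Real.exp (C * (A + 1) - γ)) (S ^ 2) htrir hdegr hi hvars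
    (by
      rw [hK']
      exact dfp_deg (t 0) hdeg0 ((h3 i).trans (le_max_right _ _))) (one_le_pow₀ hS1)
    (fun b' hb' => by
      rw [hev]
      exact hthin b' ((cut_bx (by omega)).1 (Bxr_one.1 hb'))) b hbx
  rw [hev] at h6
  refine h6.trans ?_
  have hexp := Real.exp_pos (C * (A + 1) - γ)
  calc C₁ * Real.exp (C * (A + 1) - γ) * (S ^ 2) ^ K₁ ≤
        S * Real.exp (C * (A + 1) - γ) * (S ^ 2) ^ K₁ := by
        refine mul_le_mul_of_nonneg_right (mul_le_mul_of_nonneg_right (by linarith) hexp.le)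
          (by positivity)
    _ = S ^ (2 * K₁ + 1) * Real.exp (C * (A + 1) - γ) := by
        rw [← pow_mul]
        ring

/-! ### Closed charts -/

variable {m J : ℕ}

/-- **Closed thin charts** of the window of the level `0`: `G v j i` is the coordinate `i` of the
chart `j ≥ 1`. -/
structure TChn (F : Fam m J) : Type 1 where
  V : Type
  pt : PtT F → V
  li : LnT F → V
  G : V → ℕ → ℕ → PN

section defs

variable {F : Fam m J} (C : CDat F) (Tc : TChn F) (n w₀ z : ℕ)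

/-- The charts of a value: the chart `0` is the level `0` of `C`. -/
noncomputable def cha (x : (C.V 0 × ℕ) × Tc.V) (j : ℕ) : ℕ → PN :=
  cut (n - 1) fun i => if j = 0 ∨ i = 0 then Ph0 C w₀ z x.1 i else Tc.G x.2 j i

open Classical in
/-- The polynomials `Θ` as a closed value. -/
noncomputable def mkT (K r D c : ℕ) (C₀ T₀ : ℝ) (t : ℕ → ℕ → ℕ) (U : Finset ℕ) (A γ : ℝ) :
    TDat F where
  V := (C.V 0 × ℕ) × Tc.V
  pt y := ((C.pt 0 y, y.2.1 / 2 ^ (J - w₀)), Tc.pt y)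
  li s := ((C.li 0 s, s.2.2), Tc.li s)
  P x i := if h : ∃ Θ : ℕ → PN, Gd n K r D c C₀ T₀ (cha C Tc n w₀ z x) t U A γ Θ then
    Classical.choose h i else 0

end defs

/-- **The fields of `Hyp`** for the polynomials `Θ`. -/
theorem thin_hyp (n K r : ℕ) : ∃ (D c : ℕ) (C₀ T₀ : ℝ), 1 ≤ C₀ ∧ 2 ≤ T₀ ∧
    ∀ {m J : ℕ} {F : Fam m J} (C B : CDat F) (Tc : TChn F) (p : ℕ → Prop)
    (w₀ z M : ℕ) (g h : ℕ → ℕ → ℕ) (t : ℕ → ℕ → ℕ) (U : Finset ℕ) (At γ S : ℝ)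
    (A : F.Ω → Prop), Stc p n → w₀ + M * z ≤ J → (∀ i < n, (i ∈ U ↔ ¬ p i)) →
    (∀ ω, A ω → C.pt 0 (ptr F J ω) = C.li 0 (slam F w₀ ω)) →
    (∀ ω, A ω → Tc.pt (ptr F J ω) = Tc.li (slam F w₀ ω)) →
    (∀ ω, A ω → Thin.Ths n K r
      (cha C Tc n w₀ z ((C.li 0 (slam F w₀ ω), (slam F w₀ ω).2.2), Tc.li (slam F w₀ ω)))
      (fun j i => (t j i : ℝ) * Real.log 2) U At γ) →
    (∀ i < n, t 0 i = g0 w₀ z g 0 i) → t r 0 = w₀ →
    (∀ k ≤ M, ∀ v : B.V k, ∀ i, 1 ≤ i → i < n → (B.G k v i).totalDegree ≤ K) →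
    (∀ k ≤ M, ∀ v : B.V k, ∀ i, 1 ≤ i → i < n → (B.G k v i).vars ⊆ range i) →
    (∀ k ≤ M, ∀ i, 1 ≤ i → i < n → t r i ≤ h k i) → T₀ ≤ S →
    (∀ k ≤ M, ∀ ω, A ω → ∀ i, 1 ≤ i → i < n → ∀ b : ℕ → ℝ,
      Bx (g0 w₀ z h k) (B.Ph w₀ z k ω) i b → |eval b (B.Ph w₀ z k ω i) -
        eval b (cha C Tc n w₀ z ((C.li 0 (slam F w₀ ω), (slam F w₀ ω).2.2),
          Tc.li (slam F w₀ ω)) r i)| ≤ S / 2 ^ t r i) →
    (∀ v i, ¬ p i → ((mkT C Tc n w₀ z K r D c C₀ T₀ t U At γ).P v i).totalDegree ≤ D) ∧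
    (∀ v i, ¬ p i → ∀ l ∈ ((mkT C Tc n w₀ z K r D c C₀ T₀ t U At γ).P v i).vars, p l ∧ l < i) ∧
    (∀ ω, A ω → (mkT C Tc n w₀ z K r D c C₀ T₀ t U At γ).pt (ptr F J ω) =
      (mkT C Tc n w₀ z K r D c C₀ T₀ t U At γ).li (slam F w₀ ω)) ∧
    (∀ ω, A ω → ∀ i < n, ¬ p i → n1 ((mkT C Tc n w₀ z K r D c C₀ T₀ t U At γ).P
      ((mkT C Tc n w₀ z K r D c C₀ T₀ t U At γ).li (slam F w₀ ω)) i) ≤
      Real.exp (C₀ * (At + 1))) ∧
    (∀ k ≤ M, ∀ ω, A ω → ∀ i, 1 ≤ i → i < n → ¬ p i → ∀ b : ℕ → ℝ,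
      Bx (g0 w₀ z h k) (B.Ph w₀ z k ω) (i + 1) b →
      |nc (g0 w₀ z g 0) (C.Ph w₀ z 0 ω) b i -
        eval (nc (g0 w₀ z g 0) (C.Ph w₀ z 0 ω) b)
          ((mkT C Tc n w₀ z K r D c C₀ T₀ t U At γ).P
            ((mkT C Tc n w₀ z K r D c C₀ T₀ t U At γ).li (slam F w₀ ω)) i)| ≤
        S ^ c * Real.exp (C₀ * (At + 1) - γ)) := by
  classical
  obtain ⟨D, c, C₀, T₀, hC₀, hT₀, hth⟩ := thin_ball n K r
  refine ⟨D, c, C₀, T₀, hC₀, hT₀, ?_⟩
  intro m J F C B Tc p w₀ z M g h t U At γ S A hp hJ hU hCc hTc hThs ht0 htr hBd hBv htrh hS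
    huni
  have hlt : ∀ {i : ℕ}, ¬ p i → i < n := fun {i} hi => by
    by_contra hcon
    exact hi (hp.ge i (by omega))
  have hGd : ∀ ω, A ω → Gd n K r D c C₀ T₀
      (cha C Tc n w₀ z ((C.li 0 (slam F w₀ ω), (slam F w₀ ω).2.2), Tc.li (slam F w₀ ω)))
      t U At γ ((mkT C Tc n w₀ z K r D c C₀ T₀ t U At γ).P
        ((mkT C Tc n w₀ z K r D c C₀ T₀ t U At γ).li (slam F w₀ ω))) := by
    intro ω hω
    have h1 := hth _ t U At γ (hThs ω hω)
    have h2 : (mkT C Tc n w₀ z K r D c C₀ T₀ t U At γ).P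
        ((mkT C Tc n w₀ z K r D c C₀ T₀ t U At γ).li (slam F w₀ ω)) = Classical.choose h1 := by
      funext i
      exact dif_pos h1
    rw [h2]
    exact Classical.choose_spec h1
  refine ⟨fun v i hi => ?_, fun v i hi l hl => ?_, fun ω hω => ?_, fun ω hω i _ _ =>
    (hGd ω hω).2.2.1 i, fun k hk ω hω i h1 hi hpi b hb => ?_⟩
  · show (if h : ∃ Θ : ℕ → PN, Gd n K r D c C₀ T₀ (cha C Tc n w₀ z v) t U At γ Θ then
      Classical.choose h i else 0 : PN).totalDegree ≤ D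
    split_ifs with h1
    · exact (Classical.choose_spec h1).2.1 i
    · rw [totalDegree_zero]
      exact Nat.zero_le D
  · have hin := hlt hi
    change l ∈ (if h : ∃ Θ : ℕ → PN, Gd n K r D c C₀ T₀ (cha C Tc n w₀ z v) t U At γ Θ then
      Classical.choose h i else 0 : PN).vars at hl
    split_ifs at hl with h1
    · obtain ⟨h2, h3⟩ := (Classical.choose_spec h1).1 i ((hU i hin).2 hi) l hl
      refine ⟨?_, h2⟩
      by_contra hcon
      exact h3 ((hU l (by omega)).2 hcon)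
    · rw [vars_0] at hl
      exact absurd hl (notMem_empty _)
  · show ((C.pt 0 (ptr F J ω), (ptr F J ω).2.1 / 2 ^ (J - w₀)), Tc.pt (ptr F J ω)) =
      ((C.li 0 (slam F w₀ ω), (slam F w₀ ω).2.2), Tc.li (slam F w₀ ω))
    rw [hCc ω hω, hTc ω hω]
    rfl
  · -- the boxes of the balls
    obtain ⟨P, hP⟩ : ∃ P, P = (mkT C Tc n w₀ z K r D c C₀ T₀ t U At γ).P
      ((mkT C Tc n w₀ z K r D c C₀ T₀ t U At γ).li (slam F w₀ ω)) := ⟨_, rfl⟩
    obtain ⟨Φ, hΦ⟩ : ∃ Φ, Φ = cha C Tc n w₀ z ((C.li 0 (slam F w₀ ω), (slam F w₀ ω).2.2),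
      Tc.li (slam F w₀ ω)) := ⟨_, rfl⟩
    have h2 := hGd ω hω
    rw [← hP, ← hΦ] at h2
    rw [← hP]
    have hkz : k * z ≤ M * z := Nat.mul_le_mul_right z hk
    have hΦ0 : ∀ i < n, Φ 0 i = C.Ph w₀ z 0 ω i := by
      intro i hi
      rw [hΦ]
      show cut (n - 1) (fun i => if (0 : ℕ) = 0 ∨ i = 0 then Ph0 C w₀ z (C.li 0 (slam F w₀ ω),
        (slam F w₀ ω).2.2) i else Tc.G (Tc.li (slam F w₀ ω)) 0 i) i = _
      rw [cut_of_le (show i ≤ n - 1 by omega), if_pos (Or.inl rfl)]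
      exact congrFun (Ph0_slam C w₀ z ω) i
    have hr0 : Φ r 0 = MvPolynomial.C ((F.T1 (w₀ + 0 * z) ω : ℝ) / 2 ^ (w₀ + 0 * z)) := by
      rw [hΦ]
      show cut (n - 1) (fun i => if r = 0 ∨ i = 0 then Ph0 C w₀ z (C.li 0 (slam F w₀ ω),
        (slam F w₀ ω).2.2) i else Tc.G (Tc.li (slam F w₀ ω)) r i) 0 = _
      rw [cut_of_le (Nat.zero_le _), if_pos (Or.inr rfl)]
      exact congrFun (Ph0_slam C w₀ z ω) 0
    have hncc : ∀ j < n, nc (t 0) (Φ 0) b j = nc (g0 w₀ z g 0) (C.Ph w₀ z 0 ω) b j := by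
      intro j hj
      unfold nc
      rw [ht0 j hj, hΦ0 j hj]
    have hv : ∀ l ∈ (P i).vars, l < n := fun l hl => by
      have := (h2.1 i ((hU i hi).2 hpi) l hl).1
      omega
    have h3 := h2.2.2.2 (cut (n - 1) (B.Ph w₀ z k ω)) (g0 w₀ z h k) S
      (cut_tri (Ph_vars fun v i h1 h2 => hBv k hk v i h1 (by omega)))
      (cut_deg (Ph_deg fun v i h1 h2 => hBd k hk v i h1 (by omega))) hS
      (fun j hj => by
        rcases Nat.eq_zero_or_pos j with h0 | h0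
        · rw [h0, htr, g0_zero]
          omega
        · rw [g0_pos h0]
          exact htrh k hk j h0 hj)
      (fun j hj b hb => by
        rw [cut_of_le (show j ≤ n - 1 by omega)]
        rcases Nat.eq_zero_or_pos j with h0 | h0
        · subst h0
          rw [hr0, Ph_zero, eval_C, eval_C, htr]
          have e1 := time_near F (show w₀ + k * z ≤ J by omega) ω
          have e2 := time_near F (show w₀ + 0 * z ≤ J by omega) ω
          have e3 : (1 : ℝ) / 2 ^ (w₀ + k * z) ≤ 1 / 2 ^ w₀ :=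
            one_div_le_one_div_of_le (by positivity)
              (pow_le_pow_right₀ (by norm_num) (by omega))
          have e6 : (1 : ℝ) / 2 ^ (w₀ + 0 * z) ≤ 1 / 2 ^ w₀ :=
            one_div_le_one_div_of_le (by positivity)
              (pow_le_pow_right₀ (by norm_num) (by omega))
          have e4 : (2 : ℝ) / 2 ^ w₀ ≤ S / 2 ^ w₀ :=
            div_le_div_of_nonneg_right (by linarith) (by positivity)
          have e5 : (2 : ℝ) / 2 ^ w₀ = 1 / 2 ^ w₀ + 1 / 2 ^ w₀ := by ring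
          rw [abs_le] at e1 e2 ⊢
          constructor <;> linarith [e1.1, e1.2, e2.1, e2.2]
        · rw [hΦ]
          exact huni k hk ω hω j h0 hj b ((cut_bx (by omega)).1 hb))
      i hi b ((cut_bx (by omega)).2 hb)
    rw [hncc i hi, AdxRow.evl_congr fun l hl => hncc l (hv l hl)] at h3
    exact h3

end Pool.STAT.DPP

namespace Pool.STAT.CDat

open Pool.Agent.H49.Ent Pool.Agent.H32.Dense Pool.STK Pool.KS3 Pool.KA Pool.KSAT Pool.PB Pool.GEN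

/-- Larger degrees, larger constants. -/
theorem Cnd.monoK {m J : ℕ} {F : Fam m J} {C : CDat F} {e : ℕ → Fin m} {n K K' w₀ z M : ℕ}
    {g : ℕ → ℕ → ℕ} {C₁ C₁' : ℝ} {A : F.Ω → Prop} (h : C.Cnd e n K w₀ z M g C₁ A)
    (hK : K ≤ K') (hC : C₁ ≤ C₁') : C.Cnd e n K' w₀ z M g C₁' A :=
  ⟨fun k hk v i h1 h2 => (h.deg k hk v i h1 h2).trans hK, h.tri,
    fun l i h1 h2 => (h.Rdeg l i h1 h2).trans hK, h.Rtri, h.cls, h.pos,
    fun ω hω i h1 h2 b hb => (h.line ω hω i h1 h2 b hb).trans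
      (div_le_div_of_nonneg_right (Real.exp_le_exp.2
        (mul_le_mul_of_nonneg_right hC (Nat.cast_nonneg z))) (by positivity))⟩

end Pool.STAT.CDat
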