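import Pool.Agent.H33.TRC.TrcF
import Pool.Agent.H82.STAT.Dpt
import Pool.Agent.H90.STAT.CloT

/-!
# Comparison of closed labels of different paths: pure part

* `cross`: two systems of universal degree which are near a raw system on its natural boxes are near
  on the wide boxes of the finer one;
* `uni_up`: then they are near on the wide boxes of the coarser one, with a loss which is a power of
  the distance of the levels;
* `Er`: the strong form of the error of a truncated label; `er_near`, `er_clo`.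
-/

set_option autoImplicit false

namespace Pool.STAT.GRD

open Finset MvPolynomial
open Pool.Agent.H49.Ent Pool.Agent.H32.Dense Pool.STK Pool.KS3 Pool.KA Pool.KSAT Pool.PB Pool.GEN
open Pool.STAT.CLO Pool.STAT.CDat Pool.TRC Pool.STAT.DPP

/-- **Two systems near a raw system are near on the wide boxes of the finer one.** -/
theorem cross (n D : ℕ) : ∃ c : ℕ, 1 ≤ c ∧ ∀ (Φ Ψ G' : ℕ → PN) (g g' : ℕ → ℕ) (s : ℕ),
    TriN Φ → TriN Ψ → TriN G' → (∀ j, (Φ j).totalDegree ≤ D) → (∀ j, (Ψ j).totalDegree ≤ D) →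
    Ψ 0 = G' 0 → (∀ j, 1 ≤ j → j ≤ n → g j ≤ g' j) →
    (∀ j, 1 ≤ j → j ≤ n → ∀ b : ℕ → ℝ, Bx g' G' j b →
      |eval b (G' j) - eval b (Ψ j)| ≤ 2 ^ s / 2 ^ g' j) →
    (∀ j, 1 ≤ j → j ≤ n → ∀ b : ℕ → ℝ, Bx g' G' j b →
      |eval b (G' j) - eval b (Φ j)| ≤ 2 ^ s / 2 ^ g j) →
    ∀ q i, 1 ≤ i → i ≤ n → ∀ b : ℕ → ℝ, Bxr (2 ^ q) g' Ψ i b →
      |eval b (Ψ i) - eval b (Φ i)| ≤ 2 ^ (c * (s + q + 1)) / 2 ^ g i := by
  obtain ⟨c₀, hc₀, hw⟩ := widb n D
  refine ⟨c₀ * c₀ + c₀ + 1, by omega, ?_⟩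
  intro Φ Ψ G' g g' s hΦ hΨ hG hΦd hΨd h0 hg hΨG hΦG q i hi1 hi b hb
  have h2 : ∀ {a b : ℕ}, a ≤ b → (2 : ℝ) ^ a ≤ 2 ^ b := fun h =>
    pow_le_pow_right₀ (by norm_num) h
  have hs1 : (1 : ℝ) ≤ 2 ^ (s + q) := one_le_pow₀ (by norm_num)
  have h1 := hw Ψ G' g' (Ψ i - Φ i) i (2 ^ (s + q)) (2 ^ (s + 1) / 2 ^ g i) hΨ hG hΨd hi
    ((vars_sub_subset _).trans (Finset.union_subset (hΨ i) (hΦ i)))
    ((totalDegree_sub _ _).trans (max_le (hΨd i) (hΦd i))) hs1 (by positivity) h0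
    (fun j hj1 hj b' hb' => by
      rw [abs_sub_comm]
      exact (hΨG j hj1 (by omega) b' hb').trans
        (div_le_div_of_nonneg_right (h2 (by omega)) (by positivity)))
    (fun b' hb' => by
      have e1 := hΨG i hi1 hi b' hb'
      have e2 := hΦG i hi1 hi b' hb'
      have e3 : (2 : ℝ) ^ s / 2 ^ g' i ≤ 2 ^ s / 2 ^ g i :=
        div_le_div_of_nonneg_left (by positivity) (by positivity) (h2 (hg i hi1 hi))
      have e4 : (2 : ℝ) ^ (s + 1) / 2 ^ g i = 2 ^ s / 2 ^ g i + 2 ^ s / 2 ^ g i := by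
        rw [pow_succ]
        ring
      rw [map_sub, e4]
      rw [abs_le] at e1 e2 ⊢
      constructor <;> linarith [e1.1, e1.2, e2.1, e2.2])
    b (fun j hj => (hb j hj).trans
      (div_le_div_of_nonneg_right (h2 (by omega)) (by positivity)))
  rw [map_sub] at h1
  refine h1.trans ?_
  rw [← mul_div_assoc]
  refine div_le_div_of_nonneg_right ?_ (by positivity)
  have e5 : ((c₀ : ℝ) * 2 ^ (s + q)) ^ c₀ ≤ 2 ^ (c₀ * (c₀ + (s + q))) := by
    rw [mul_comm c₀ (c₀ + (s + q)), pow_mul, pow_add 2 c₀]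
    refine pow_le_pow_left₀ (by positivity) (mul_le_mul_of_nonneg_right ?_ (by positivity)) _
    exact_mod_cast (Nat.lt_two_pow_self (n := c₀)).le
  calc ((c₀ : ℝ) * 2 ^ (s + q)) ^ c₀ * 2 ^ (s + 1) ≤
        2 ^ (c₀ * (c₀ + (s + q))) * 2 ^ (s + 1) :=
        mul_le_mul_of_nonneg_right e5 (by positivity)
    _ = 2 ^ (c₀ * (c₀ + (s + q)) + (s + 1)) := (pow_add _ _ _).symm
    _ ≤ _ := h2 (by nlinarith)

/-- **From the wide boxes of the finer system to those of the coarser one.** -/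
theorem uni_up (n c : ℕ) : ∃ c' : ℕ, 1 ≤ c' ∧ ∀ (Φ Ψ : ℕ → PN) (g g' : ℕ → ℕ)
    (s r : ℕ),
    (∀ q i, 1 ≤ i → i ≤ n → ∀ b : ℕ → ℝ, Bxr (2 ^ q) g' Ψ i b →
      |eval b (Ψ i) - eval b (Φ i)| ≤ 2 ^ (c * (s + q + 1)) / 2 ^ g i) →
    (∀ j, 1 ≤ j → j ≤ n → g' j ≤ g j + r) →
    (∀ (q : ℕ) (b : ℕ → ℝ), |b 0 - eval b (Φ 0)| ≤ 2 ^ q / 2 ^ g 0 →
      |b 0 - eval b (Ψ 0)| ≤ 2 ^ (q + r + 2) / 2 ^ g' 0) →
    ∀ q i, 1 ≤ i → i ≤ n → ∀ b : ℕ → ℝ, Bxr (2 ^ q) g Φ i b →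
      |eval b (Ψ i) - eval b (Φ i)| ≤ 2 ^ (c' * (s + r + q + 1)) / 2 ^ g i := by
  have h2 : ∀ {a b : ℕ}, a ≤ b → (2 : ℝ) ^ a ≤ 2 ^ b := fun h =>
    pow_le_pow_right₀ (by norm_num) h
  have key : ∀ i, 1 ≤ i → i ≤ n → ∃ c' : ℕ, 1 ≤ c' ∧ ∀ j, 1 ≤ j → j ≤ i →
      ∀ (Φ Ψ : ℕ → PN) (g g' : ℕ → ℕ) (s r : ℕ),
      (∀ q i, 1 ≤ i → i ≤ n → ∀ b : ℕ → ℝ, Bxr (2 ^ q) g' Ψ i b →
        |eval b (Ψ i) - eval b (Φ i)| ≤ 2 ^ (c * (s + q + 1)) / 2 ^ g i) →
      (∀ j, 1 ≤ j → j ≤ n → g' j ≤ g j + r) →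
      (∀ (q : ℕ) (b : ℕ → ℝ), |b 0 - eval b (Φ 0)| ≤ 2 ^ q / 2 ^ g 0 →
        |b 0 - eval b (Ψ 0)| ≤ 2 ^ (q + r + 2) / 2 ^ g' 0) →
      ∀ (q : ℕ) (b : ℕ → ℝ), Bxr (2 ^ q) g Φ j b →
        |eval b (Ψ j) - eval b (Φ j)| ≤ 2 ^ (c' * (s + r + q + 1)) / 2 ^ g j := by
    intro i
    induction i with
    | zero =>
      intro h
      omega
    | succ i ih =>
      intro _ hin
      -- the constant for the coordinates before
      obtain ⟨c₁, hc₁, h1⟩ : ∃ c' : ℕ, 1 ≤ c' ∧ ∀ j, 1 ≤ j → j ≤ i →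
          ∀ (Φ Ψ : ℕ → PN) (g g' : ℕ → ℕ) (s r : ℕ),
          (∀ q i, 1 ≤ i → i ≤ n → ∀ b : ℕ → ℝ, Bxr (2 ^ q) g' Ψ i b →
            |eval b (Ψ i) - eval b (Φ i)| ≤ 2 ^ (c * (s + q + 1)) / 2 ^ g i) →
          (∀ j, 1 ≤ j → j ≤ n → g' j ≤ g j + r) →
          (∀ (q : ℕ) (b : ℕ → ℝ), |b 0 - eval b (Φ 0)| ≤ 2 ^ q / 2 ^ g 0 →
            |b 0 - eval b (Ψ 0)| ≤ 2 ^ (q + r + 2) / 2 ^ g' 0) →
          ∀ (q : ℕ) (b : ℕ → ℝ), Bxr (2 ^ q) g Φ j b →
            |eval b (Ψ j) - eval b (Φ j)| ≤ 2 ^ (c' * (s + r + q + 1)) / 2 ^ g j := by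
        rcases Nat.eq_zero_or_pos i with rfl | hi0
        · exact ⟨1, le_rfl, fun j h1 h2 => absurd h2 (by omega)⟩
        · exact ih hi0 (by omega)
      refine ⟨c * (c₁ + 4) + c₁, by omega, ?_⟩
      intro j hj1 hj Φ Ψ g g' s r H hgg ht q b hb
      have hle : c₁ * (s + r + q + 1) ≤ (c * (c₁ + 4) + c₁) * (s + r + q + 1) :=
        Nat.mul_le_mul_right _ (by omega)
      rcases Nat.lt_or_ge i j with hij | hij
      · -- the new coordinate
        have hb' : Bxr (2 ^ ((c₁ + 3) * (s + r + q + 1))) g' Ψ j b := by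
          intro l hl
          rcases Nat.eq_zero_or_pos l with rfl | hl1
          · refine (ht q b (hb 0 hl)).trans (div_le_div_of_nonneg_right (h2 ?_) (by positivity))
            nlinarith
          · have e1 := hb l hl
            have e2 := h1 l hl1 (by omega) Φ Ψ g g' s r H hgg ht q b
              fun l' hl' => hb l' (by omega)
            have e3 : |b l - eval b (Ψ l)| ≤
                (2 ^ q + 2 ^ (c₁ * (s + r + q + 1))) / 2 ^ g l := by
              rw [add_div]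
              rw [abs_le] at e1 e2 ⊢
              constructor <;> linarith [e1.1, e1.2, e2.1, e2.2]
            refine e3.trans ?_
            rw [div_le_div_iff₀ (by positivity) (by positivity)]
            have e4 : (2 : ℝ) ^ q + 2 ^ (c₁ * (s + r + q + 1)) ≤
                2 ^ ((c₁ + 1) * (s + r + q + 1)) * 2 := by
              have f1 : (2 : ℝ) ^ q ≤ 2 ^ ((c₁ + 1) * (s + r + q + 1)) := h2 (by nlinarith)
              have f2 : (2 : ℝ) ^ (c₁ * (s + r + q + 1)) ≤ 2 ^ ((c₁ + 1) * (s + r + q + 1)) :=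
                h2 (Nat.mul_le_mul_right _ (by omega))
              linarith
            have e5 : (2 : ℝ) ^ g' l ≤ 2 ^ r * 2 ^ g l := by
              rw [← pow_add]
              exact h2 (by have := hgg l hl1 (by omega); omega)
            calc ((2 : ℝ) ^ q + 2 ^ (c₁ * (s + r + q + 1))) * 2 ^ g' l ≤
                  2 ^ ((c₁ + 1) * (s + r + q + 1)) * 2 * (2 ^ r * 2 ^ g l) :=
                  mul_le_mul e4 e5 (by positivity) (by positivity)
              _ = 2 ^ ((c₁ + 1) * (s + r + q + 1) + 1 + r) * 2 ^ g l := by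
                  rw [pow_add, pow_add, pow_one]
                  ring
              _ ≤ _ := by
                  refine mul_le_mul_of_nonneg_right (h2 ?_) (by positivity)
                  nlinarith
        have e6 := H ((c₁ + 3) * (s + r + q + 1)) j hj1 (by omega) b hb'
        refine e6.trans (div_le_div_of_nonneg_right (h2 ?_) (by positivity))
        have e7 : s + (c₁ + 3) * (s + r + q + 1) + 1 ≤ (c₁ + 4) * (s + r + q + 1) := by nlinarith
        calc c * (s + (c₁ + 3) * (s + r + q + 1) + 1) ≤ c * ((c₁ + 4) * (s + r + q + 1)) :=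
              Nat.mul_le_mul_left _ e7
          _ = c * (c₁ + 4) * (s + r + q + 1) := by ring
          _ ≤ _ := Nat.mul_le_mul_right _ (by omega)
      · refine (h1 j hj1 hij Φ Ψ g g' s r H hgg ht q b hb).trans
          (div_le_div_of_nonneg_right (h2 hle) (by positivity))
  rcases Nat.eq_zero_or_pos n with rfl | hn
  · exact ⟨1, le_rfl, fun Φ Ψ g g' s r _ _ _ q i h1 h2 => by omega⟩
  · obtain ⟨c', hc', h⟩ := key n hn le_rfl
    exact ⟨c', hc', fun Φ Ψ g g' s r H hgg ht q i h1 h2 b hb =>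
      h i h1 h2 Φ Ψ g g' s r H hgg ht q b hb⟩

end Pool.STAT.GRD
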