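import Pool.Agent.H82.STAT.Gra

/-!
# Closed end labels of a path, without the line side of the window

* `Er`: the strong form of the error: all points near all raw levels of the path;
* `er_near`: on the natural boxes of a finer raw system;
* `er_clo`: for the closed label;
* `end_fam`: exact closed labels of several levels, one event.
-/

set_option autoImplicit false

namespace Pool.STAT.GRD

open Finset MvPolynomial
open Pool.Agent.H49.Ent Pool.Agent.H32.Dense Pool.STK Pool.KS3 Pool.KA Pool.KSAT Pool.PB Pool.GEN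
open Pool.STAT.CLO Pool.STAT.CDat Pool.TRC Pool.STAT.DPP

/-- **The strong form of the error** of `P` as the truncated level `j` of the path `a`, `g`, `G`:
`g₁` are the precisions of `P`, `T` is the centre of the time. -/
def Er (n j : ℕ) (a : ℕ → ℕ) (g : ℕ → ℕ → ℕ) (u t : ℕ) (G : ℕ → ℕ → PN) (T : ℝ) (g₁ : ℕ → ℕ)
    (P : ℕ → PN) : Prop :=
  ∀ i, 1 ≤ i → i ≤ n → ∀ b : ℕ → ℝ, |b 0 - T| ≤ 1 / 2 ^ a j →
    (∀ k ≤ j, ∀ l, 1 ≤ l → l ≤ i → |b l - eval b (G k l)| ≤ 2 ^ (u + 1) / 2 ^ g k l) →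
    |b i - eval b (P i)| ≤ 2 ^ t / 2 ^ g₁ i

theorem eval_upd {P : PN} {i : ℕ} (hP : P.vars ⊆ range i) (b : ℕ → ℝ) (x : ℝ) {l : ℕ}
    (hl : i ≤ l) : eval (Function.update b l x) P = eval b P :=
  Pool.SYS35.eval_congr hP fun j hj => Function.update_of_ne (by omega) _ _

/-- **On the natural boxes of a finer raw system** `G'`. -/
theorem er_near {n j : ℕ} {a : ℕ → ℕ} {g : ℕ → ℕ → ℕ} {u t : ℕ} {G : ℕ → ℕ → PN} {T : ℝ}
    {g₁ : ℕ → ℕ} {P : ℕ → PN} (h : Er n j a g u t G T g₁ P) (hP : TriN P)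
    (hG : ∀ k ≤ j, TriN (G k)) {G' : ℕ → PN} {a' : ℕ} {g' : ℕ → ℕ} (hG' : TriN G')
    (ht : ∀ b : ℕ → ℝ, |b 0 - eval b (G' 0)| ≤ 1 / 2 ^ a' → |b 0 - T| ≤ 1 / 2 ^ a j)
    (hg : ∀ k ≤ j, ∀ l, 1 ≤ l → l ≤ n → g k l ≤ g' l)
    (hu : ∀ k ≤ j, ∀ l, 1 ≤ l → l ≤ n → ∀ b : ℕ → ℝ, Bx (tus a' g') G' l b →
      |eval b (G' l) - eval b (G k l)| ≤ 2 ^ u / 2 ^ g k l) :
    ∀ i, 1 ≤ i → i ≤ n → ∀ b : ℕ → ℝ, Bx (tus a' g') G' i b →
      |eval b (G' i) - eval b (P i)| ≤ 2 ^ t / 2 ^ g₁ i := by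
  intro i hi1 hi b hb
  obtain ⟨b', hb'⟩ : ∃ b' : ℕ → ℝ, b' = Function.update b i (eval b (G' i)) := ⟨_, rfl⟩
  have hbl : ∀ l < i, b' l = b l := fun l hl => by
    rw [hb', Function.update_of_ne (by omega)]
  have hbi : b' i = eval b (G' i) := by rw [hb', Function.update_self]
  have hev : ∀ {Φ : ℕ → PN}, TriN Φ → ∀ l ≤ i, eval b' (Φ l) = eval b (Φ l) := fun {Φ} hΦ l hl => by
    rw [hb', eval_upd (hΦ l) b _ hl]
  have h0 : |b' 0 - T| ≤ 1 / 2 ^ a j := by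
    rw [hbl 0 hi1]
    refine ht b ?_
    have := hb 0 hi1
    rwa [tus_zero] at this
  have h1 := h i hi1 hi b' h0 fun k hk l hl1 hl => by
    have e0 : Bx (tus a' g') G' l b := fun x hx => hb x (by omega)
    have e1 : |b' l - eval b' (G' l)| ≤ 1 / 2 ^ g' l := by
      rw [hev hG' l hl]
      rcases Nat.lt_or_ge l i with h2 | h2
      · rw [hbl l h2]
        have := hb l h2
        rwa [tus_pos _ _ hl1] at this
      · have : l = i := by omega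
        subst this
        rw [hbi, sub_self, abs_zero]
        positivity
    have e2 := hu k hk l hl1 (by omega) b e0
    rw [hev hG' l hl] at e1
    rw [hev (hG k hk) l hl]
    have e3 : (1 : ℝ) / 2 ^ g' l ≤ 1 / 2 ^ g k l :=
      one_div_le_one_div_of_le (by positivity)
        (pow_le_pow_right₀ (by norm_num) (hg k hk l hl1 (by omega)))
    have e4 : (1 : ℝ) ≤ 2 ^ u := one_le_pow₀ (by norm_num)
    have e5 : (1 : ℝ) / 2 ^ g k l ≤ 2 ^ u / 2 ^ g k l :=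
      div_le_div_of_nonneg_right e4 (by positivity)
    have e6 : (2 : ℝ) ^ (u + 1) / 2 ^ g k l = 2 ^ u / 2 ^ g k l + 2 ^ u / 2 ^ g k l := by
      rw [pow_succ]
      ring
    rw [e6]
    rw [abs_le] at e1 e2 ⊢
    constructor <;> linarith [e1.1, e1.2, e2.1, e2.2]
  rw [hbi, hev hP i le_rfl] at h1
  exact h1

/-- **The strong form of the error** for the closed label. -/
theorem er_clo (n c : ℕ) : ∃ c' : ℕ, ∀ {j : ℕ} {a : ℕ → ℕ} {g : ℕ → ℕ → ℕ} {u s : ℕ}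
    {G : ℕ → ℕ → PN} {T : ℝ} {g₁ : ℕ → ℕ} {P Q : ℕ → PN} {γ : ℕ → ℕ},
    Er n j a g u s G T g₁ Q → Nr c (2 ^ s) γ P Q (n + 1) →
    (∀ l, 1 ≤ l → l ≤ n → γ l = g₁ l) → γ 0 = a j → (∀ b : ℕ → ℝ, eval b (Q 0) = T) →
    Er n j a g u (c' * (s + 1)) G T g₁ P := by
  refine ⟨c * (c + 2) + 2, ?_⟩
  intro j a g u s G T g₁ P Q γ h hN hγ hγ0 hT i hi1 hi b hb0 hb
  have h2 : ∀ {a b : ℕ}, a ≤ b → (2 : ℝ) ^ a ≤ 2 ^ b := fun h =>
    pow_le_pow_right₀ (by norm_num) h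
  have hs1 : (1 : ℝ) ≤ 2 ^ s := one_le_pow₀ (by norm_num)
  have hQ : ∀ l, 1 ≤ l → l ≤ i → |b l - eval b (Q l)| ≤ 2 ^ s / 2 ^ g₁ l := fun l hl1 hl =>
    h l hl1 (by omega) b hb0 fun k hk l' hl1' hl' => hb k hk l' hl1' (by omega)
  have hbx : Bxr (2 ^ s) γ Q i b := by
    intro l hl
    rcases Nat.eq_zero_or_pos l with rfl | hl1
    · rw [hT, hγ0]
      exact hb0.trans (div_le_div_of_nonneg_right hs1 (by positivity))
    · rw [hγ l hl1 (by omega)]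
      exact hQ l hl1 (by omega)
  have h3 := hN.2 i hi1 (by omega) (2 ^ s) hs1 b hbx
  rw [hγ i hi1 hi] at h3
  have h4 := hQ i hi1 le_rfl
  have h5 : ((c : ℝ) * 2 ^ s * 2 ^ s) ^ c ≤ 2 ^ (c * (c + 2 * s)) := by
    have e1 : (c : ℝ) * 2 ^ s * 2 ^ s ≤ 2 ^ (c + 2 * s) := by
      have e2 : (c : ℝ) ≤ 2 ^ c := by exact_mod_cast (Nat.lt_two_pow_self (n := c)).le
      have e3 : (2 : ℝ) ^ (c + 2 * s) = 2 ^ c * (2 ^ s * 2 ^ s) := by
        rw [pow_add, two_mul, pow_add]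
      rw [e3, mul_assoc]
      exact mul_le_mul_of_nonneg_right e2 (by positivity)
    rw [mul_comm c (c + 2 * s), pow_mul]
    exact pow_le_pow_left₀ (by positivity) e1 _
  have h6 : |b i - eval b (P i)| ≤ (2 ^ (c * (c + 2 * s)) + 2 ^ s) / 2 ^ g₁ i := by
    have e1 := h3.trans (div_le_div_of_nonneg_right h5 (by positivity))
    rw [add_div]
    rw [abs_le] at e1 h4 ⊢
    constructor <;> linarith [e1.1, e1.2, h4.1, h4.2]
  refine h6.trans (div_le_div_of_nonneg_right ?_ (by positivity))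
  have e0 : c + 2 * s ≤ (c + 2) * (s + 1) := by nlinarith
  have e1 : (2 : ℝ) ^ (c * (c + 2 * s)) ≤ 2 ^ ((c * (c + 2) + 1) * (s + 1)) := by
    refine h2 ?_
    calc c * (c + 2 * s) ≤ c * ((c + 2) * (s + 1)) := Nat.mul_le_mul_left _ e0
      _ = c * (c + 2) * (s + 1) := by ring
      _ ≤ _ := Nat.mul_le_mul_right _ (by omega)
  have e2 : (2 : ℝ) ^ s ≤ 2 ^ ((c * (c + 2) + 1) * (s + 1)) := by
    refine h2 ?_
    calc s ≤ 1 * (s + 1) := by omega
      _ ≤ _ := Nat.mul_le_mul_right _ (by omega)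
  have e3 : (2 : ℝ) ^ ((c * (c + 2) + 2) * (s + 1)) ≥ 2 ^ ((c * (c + 2) + 1) * (s + 1) + 1) :=
    h2 (by nlinarith)
  have e4 : (2 : ℝ) ^ ((c * (c + 2) + 1) * (s + 1) + 1) =
      2 ^ ((c * (c + 2) + 1) * (s + 1)) * 2 := pow_succ _ _
  linarith

variable {m J : ℕ}

/-- The data of a sequence of data with one level. -/
noncomputable def glu {F : Fam m J} (f : ℕ → CDat F) : CDat F where
  V k := (f k).V 0
  pt k := (f k).pt 0
  li k := (f k).li 0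
  G k := (f k).G 0
  R _ _ := 0

theorem glu_Ph {F : Fam m J} (f : ℕ → CDat F) (w₀ z k : ℕ) (ω : F.Ω) :
    (glu f).Ph w₀ z k ω = (f k).Ph (w₀ + k * z) 1 0 ω := rfl

theorem glu_near {F : Fam m J} {f : ℕ → CDat F} {e : ℕ → Fin m} {n w₀ z k y : ℕ}
    {g : ℕ → ℕ → ℕ} {L : ℝ} {A : F.Ω → Prop}
    (h : (f k).Near e n (w₀ + k * z) 1 (fun _ => g k) 0 y L A) :
    (glu f).Near e n w₀ z g k y L A := by
  intro ω ω' hω hω' hl hT i hi1 hi hX
  refine h ω ω' hω hω' ?_ hT i hi1 hi hX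
  obtain ⟨h1, h2⟩ := Prod.mk.inj hl
  have h3 := congrFun h1 k
  rw [if_pos le_rfl, if_pos le_rfl] at h3
  have h4 := Option.some.inj h3
  refine Prod.ext (funext fun k' => ?_) h2
  show (if k' ≤ 0 then some ((f k).li k' (slam F (w₀ + k * z + k' * 1) ω)) else none) =
    (if k' ≤ 0 then some ((f k).li k' (slam F (w₀ + k * z + k' * 1) ω')) else none)
  rcases Nat.eq_zero_or_pos k' with rfl | hk'
  · rw [if_pos le_rfl, if_pos le_rfl]
    exact congrArg some h4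
  · rw [if_neg (by omega), if_neg (by omega)]

end Pool.STAT.GRD
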