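import Pool.Agent.H82.STAT.Grb

/-!
# Exact closed labels of several levels, without the line side of the window

`many_lv`: from raw systems of universal degree in several windows.
-/

set_option autoImplicit false

namespace Pool.STAT.GRD

open Finset MvPolynomial
open Pool.Agent.H49.Ent Pool.Agent.H32.Dense Pool.STK Pool.KS3 Pool.KA Pool.KSAT Pool.PB Pool.GEN
open Pool.STAT.CLO Pool.STAT.CDat Pool.TRC Pool.STAT.DPP Pool.K2S

variable {m J : ℕ}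

/-- The properties of a closed label with one level. -/
structure Lv1 {F : Fam m J} (C : CDat F) (e : ℕ → Fin m) (n K' c a s w : ℕ) (L : ℝ) (g : ℕ → ℕ)
    (A : F.Ω → Prop) (G : PtT F → ℕ → PN) (B : F.Ω → Prop) : Prop where
  deg : ∀ v, ∀ i, 1 ≤ i → i ≤ n → (C.G 0 v i).totalDegree ≤ K'
  tri : ∀ v, ∀ i, 1 ≤ i → i ≤ n → (C.G 0 v i).vars ⊆ range i
  cls : ∀ ω, B ω → C.pt 0 (ptr F J ω) = C.li 0 (slam F w ω)
  pos : ∀ ω, B ω → ∀ i, 1 ≤ i → i ≤ n →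
    |F.x ω (e i) - eval (cx F e ω) (C.Ph w 1 0 ω i)| ≤ 1 / 2 ^ (g i - a * (s + 1))
  near : ∀ y : ℕ, (∀ ω, A ω → ∀ i, 1 ≤ i → i ≤ n → ∀ b : ℕ → ℝ, b 0 = F.t ω →
      (∀ j, 1 ≤ j → j < i → |b j - cx F e ω j| ≤ 1 / 2 ^ J) →
      |eval b (G (ptr F J ω) i) - eval (cx F e ω) (G (ptr F J ω) i)| ≤
        1 / 2 ^ (g i + (y + c * (s + 1)))) →
    (∀ i, 1 ≤ i → i ≤ n → g i + (y + c * (s + 1)) ≤ J) →
    C.Near e n w 1 (fun _ i => g i - a * (s + 1)) 0 y L B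
  nr : ∀ ω, B ω → Nr c (2 ^ s) (CDat.g0 w 1 (fun _ => g) 0) (C.Ph w 1 0 ω)
    (G (ptr F J ω)) (n + 1)

theorem Lv1.sub {F : Fam m J} {C : CDat F} {e : ℕ → Fin m} {n K' c a s w : ℕ} {L : ℝ}
    {g : ℕ → ℕ} {A : F.Ω → Prop} {G : PtT F → ℕ → PN} {B B' : F.Ω → Prop}
    (h : Lv1 C e n K' c a s w L g A G B) (hB : ∀ ω, B' ω → B ω) :
    Lv1 C e n K' c a s w L g A G B' :=
  ⟨h.deg, h.tri, fun ω hω => h.cls ω (hB ω hω), fun ω hω => h.pos ω (hB ω hω),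
    fun y h1 h2 => (h.near y h1 h2).sub hB, fun ω hω => h.nr ω (hB ω hω)⟩

/-- One level. -/
theorem one_lv (n D : ℕ) : ∃ (a K' c : ℕ) (L : ℝ), 1 ≤ K' ∧ 1 ≤ L ∧ ∀ (m J w s : ℕ)
    (F : Fam m J) (e : ℕ → Fin m) (g : ℕ → ℕ) (A A' : F.Ω → Prop) (G : PtT F → ℕ → PN)
    (H : LnT F → ℕ → PN), w ≤ J → (∀ ω, A ω → A' ω) →
    (∀ i, 1 ≤ i → i ≤ n → a * (s + 1) ≤ g i) →
    Raw n D (2 ^ s) A' (ptr F J) (slam F w) (tp w) (tl w) (CDat.g0 w 1 (fun _ => g) 0) G H →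
    (∀ ω, A' ω → ∀ i, 1 ≤ i → i ≤ n →
      |F.x ω (e i) - eval (cx F e ω) (G (ptr F J ω) i)| ≤ 2 ^ s / 2 ^ g i) →
    ∃ (C : CDat F) (B : F.Ω → Prop), (∀ ω, B ω → A ω) ∧ Pe F.p A ≤ K' * Pe F.p B ∧
      Lv1 C e n K' c a s w L g A' G B := by
  obtain ⟨a, K', c, L, hK', hL, h⟩ := clo_trc n D
  refine ⟨a, K', c, L, hK', hL, ?_⟩
  intro m J w s F e g A A' G H hw hA hg hraw hpos
  obtain ⟨C, B, h1, h2, -, h3, h4, h5⟩ := h m J 0 w 1 s F e (fun _ => g) A (fun _ => G)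
    (fun _ => H) H (by omega) (fun _ _ => hg) (fun k hk => by
      obtain rfl : k = 0 := by omega
      exact hraw.sub hA)
    (fun k hk ω hω => hpos ω (hA ω hω)) hraw.R_tri hraw.R_deg
    (fun ω hω i hi1 hi b hb => by
      have h6 := hraw.near ω (hA ω hω) i hi1 hi b hb
      have h7 : CDat.g0 w 1 (fun _ => g) 0 i = g i := if_neg (by omega)
      rw [h7] at h6
      rw [abs_sub_comm]
      exact h6)
  refine ⟨C, B, h1, by rwa [zero_add, pow_one] at h2, ?_⟩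
  obtain ⟨C₁, hC₁⟩ : ∃ C₁ : ℝ, (2 : ℝ) ^ (c * (s + 1)) ≤ Real.exp (C₁ * (1 : ℕ)) :=
    ⟨(c * (s + 1) : ℕ), by
      rw [Nat.cast_one, mul_one, ← exp_nlog]
      refine Real.exp_le_exp.2 ?_
      have h6 : Real.log 2 ≤ 1 := by
        have := Real.log_two_lt_d9
        linarith
      have h7 : (0 : ℝ) ≤ (c * (s + 1) : ℕ) := Nat.cast_nonneg _
      nlinarith⟩
  have h6 := h3 C₁ hC₁
  exact ⟨h6.deg 0 le_rfl, h6.tri 0 le_rfl, h6.cls 0 le_rfl, h6.pos 0 le_rfl,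
    fun y h7 h8 => h4 0 le_rfl y (fun ω hω => h7 ω (hA ω hω)) h8, h5 0 le_rfl⟩

/-- **Exact closed labels of several levels**, arbitrary windows. -/
theorem many_lv (n D : ℕ) : ∃ (a K' c : ℕ) (L : ℝ), 1 ≤ K' ∧ 1 ≤ L ∧ ∀ (M m J s : ℕ)
    (w : ℕ → ℕ) (F : Fam m J) (e : ℕ → Fin m) (g : ℕ → ℕ → ℕ) (A : F.Ω → Prop)
    (G : ℕ → PtT F → ℕ → PN) (H : ℕ → LnT F → ℕ → PN), (∀ k ≤ M, w k ≤ J) →
    (∀ k ≤ M, ∀ i, 1 ≤ i → i ≤ n → a * (s + 1) ≤ g k i) →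
    (∀ k ≤ M, Raw n D (2 ^ s) A (ptr F J) (slam F (w k)) (tp (w k))
      (tl (w k)) (CDat.g0 (w k) 1 (fun _ => g k) 0) (G k) (H k)) →
    (∀ k ≤ M, ∀ ω, A ω → ∀ i, 1 ≤ i → i ≤ n →
      |F.x ω (e i) - eval (cx F e ω) (G k (ptr F J ω) i)| ≤ 2 ^ s / 2 ^ g k i) →
    ∃ (f : ℕ → CDat F) (B : F.Ω → Prop), (∀ ω, B ω → A ω) ∧
      Pe F.p A ≤ K' ^ (M + 1) * Pe F.p B ∧
      ∀ k ≤ M, Lv1 (f k) e n K' c a s (w k) L (g k) A (G k) B := by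
  obtain ⟨a, K', c, L, hK', hL, h⟩ := one_lv n D
  refine ⟨a, K', c, L, hK', hL, ?_⟩
  intro M m J s w F e g A G H hM hg hraw hpos
  have key : ∀ M' ≤ M, ∃ (f : ℕ → CDat F) (B : F.Ω → Prop), (∀ ω, B ω → A ω) ∧
      Pe F.p A ≤ K' ^ (M' + 1) * Pe F.p B ∧
      ∀ k ≤ M', Lv1 (f k) e n K' c a s (w k) L (g k) A (G k) B := by
    intro M'
    induction M' with
    | zero =>
      intro _
      obtain ⟨C, B, h1, h2, h3⟩ := h m J (w 0) s F e (g 0) A A (G 0) (H 0)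
        (hM 0 (Nat.zero_le _)) (fun _ h => h) (hg 0 (Nat.zero_le _)) (hraw 0 (Nat.zero_le _))
        (hpos 0 (Nat.zero_le _))
      refine ⟨fun _ => C, B, h1, by rwa [zero_add, pow_one], fun k hk => ?_⟩
      obtain rfl : k = 0 := by omega
      exact h3
    | succ M' ih =>
      intro hM'
      obtain ⟨f, B, h1, h2, h3⟩ := ih (by omega)
      obtain ⟨C, B', h4, h5, h6⟩ := h m J (w (M' + 1)) s F e (g (M' + 1)) B A
        (G (M' + 1)) (H (M' + 1)) (hM _ hM') h1 (hg _ hM') (hraw _ hM') (hpos _ hM')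
      refine ⟨fun k => if k = M' + 1 then C else f k, B', fun ω hω => h1 ω (h4 ω hω), ?_,
        fun k hk => ?_⟩
      · refine h2.trans ?_
        rw [pow_succ (K' : ℝ) (M' + 1), mul_assoc]
        exact mul_le_mul_of_nonneg_left h5 (pow_nonneg (Nat.cast_nonneg K') _)
      · by_cases hk' : k = M' + 1
        · subst hk'
          simp only [if_true]
          exact h6
        · simp only [if_neg hk']
          exact (h3 k (by omega)).sub h4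
  exact key M le_rfl

end Pool.STAT.GRD
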