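import Pool.Agent.H82.STAT.Grc

/-!
# Comparison of closed labels of different paths

* `cross_er`: two closed labels with the strong form of the error, if the natural boxes of the
  second one are finer than all levels of the path of the first one.
-/

set_option autoImplicit false

namespace Pool.STAT.GRD

open Finset MvPolynomial
open Pool.Agent.H49.Ent Pool.Agent.H32.Dense Pool.STK Pool.KS3 Pool.KA Pool.KSAT Pool.PB Pool.GEN
open Pool.STAT.CLO Pool.STAT.CDat Pool.TRC Pool.STAT.DPP Pool.K2S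

theorem Er.congr {n j : ℕ} {a : ℕ → ℕ} {g : ℕ → ℕ → ℕ} {u t : ℕ} {G : ℕ → ℕ → PN} {T : ℝ}
    {g₁ : ℕ → ℕ} {P Q : ℕ → PN} (h : Er n j a g u t G T g₁ P) (hPQ : ∀ i ≤ n, P i = Q i) :
    Er n j a g u t G T g₁ Q := fun i hi1 hi b hb0 hb => by
  rw [← hPQ i hi]
  exact h i hi1 hi b hb0 hb

theorem Er.mono {n j : ℕ} {a : ℕ → ℕ} {g : ℕ → ℕ → ℕ} {u t t' : ℕ} {G : ℕ → ℕ → PN} {T : ℝ}
    {g₁ g₁' : ℕ → ℕ} {P : ℕ → PN} (h : Er n j a g u t G T g₁ P) (ht : t ≤ t')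
    (hg : ∀ i, 1 ≤ i → i ≤ n → g₁' i ≤ g₁ i) :
    Er n j a g u t' G T g₁' P := fun i hi1 hi b hb0 hb =>
  (h i hi1 hi b hb0 hb).trans (div_le_div₀ (by positivity)
    (pow_le_pow_right₀ (by norm_num) ht) (by positivity)
    (pow_le_pow_right₀ (by norm_num) (hg i hi1 hi)))

/-- **Two closed labels with the strong form of the error.** -/
theorem cross_er (n D : ℕ) : ∃ c : ℕ, 1 ≤ c ∧ ∀ (j j' : ℕ) (a a' : ℕ → ℕ) (g g' : ℕ → ℕ → ℕ)
    (u t r : ℕ) (G G' : ℕ → ℕ → PN) (T T' : ℝ) (g₁ g₁' : ℕ → ℕ) (Φ Ψ : ℕ → PN),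
    Er n j a g u t G T g₁ Φ → Er n j' a' g' u t G' T' g₁' Ψ →
    (∀ i ≤ n, (Φ i).vars ⊆ range i) → (∀ i ≤ n, (Ψ i).vars ⊆ range i) →
    (∀ i ≤ n, (Φ i).totalDegree ≤ D) → (∀ i ≤ n, (Ψ i).totalDegree ≤ D) →
    (∀ k ≤ j, TriN (G k)) → (∀ k ≤ j', TriN (G' k)) → G' j' 0 = MvPolynomial.C T' →
    Ψ 0 = MvPolynomial.C T' →
    (∀ x : ℝ, |x - T'| ≤ 1 / 2 ^ a' j' → |x - T| ≤ 1 / 2 ^ a j) →
    (∀ k ≤ j, ∀ l, 1 ≤ l → l ≤ n → g k l ≤ g' j' l) →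
    (∀ k ≤ j', ∀ l, 1 ≤ l → l ≤ n → g' k l ≤ g' j' l) →
    (∀ k ≤ j, ∀ l, 1 ≤ l → l ≤ n → ∀ b : ℕ → ℝ, Bx (tus (a' j') (g' j')) (G' j') l b →
      |eval b (G' j' l) - eval b (G k l)| ≤ 2 ^ u / 2 ^ g k l) →
    (∀ k < j', ∀ l, 1 ≤ l → l ≤ n → ∀ b : ℕ → ℝ, Bx (tus (a' j') (g' j')) (G' j') l b →
      |eval b (G' j' l) - eval b (G' k l)| ≤ 2 ^ u / 2 ^ g' k l) →
    (∀ l, 1 ≤ l → l ≤ n → g₁ l ≤ g' j' l) → (∀ l, 1 ≤ l → l ≤ n → g' j' l ≤ g₁' l + r) →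
    ∀ q i, 1 ≤ i → i ≤ n → ∀ b : ℕ → ℝ, Bxr (2 ^ q) (tus (a' j') g₁') Ψ i b →
      |eval b (Ψ i) - eval b (Φ i)| ≤ 2 ^ (c * (t + r + q + 1)) / 2 ^ g₁ i := by
  obtain ⟨c, hc, h⟩ := cross n D
  refine ⟨2 * c, by omega, ?_⟩
  intro j j' a a' g g' u t r G G' T T' g₁ g₁' Φ Ψ hΦ hΨ hΦv hΨv hΦd hΨd hG hG' hG0 hΨ0 hnest
    hgg hgg' hu hu' hg₁ hg₁' q i hi1 hi b hb
  have h2 : ∀ {a b : ℕ}, a ≤ b → (2 : ℝ) ^ a ≤ 2 ^ b := fun h =>
    pow_le_pow_right₀ (by norm_num) h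
  have hcΦ : ∀ i ≤ n, Φ i = cut n Φ i := fun i hi => (cut_of_le hi).symm
  have hcΨ : ∀ i ≤ n, Ψ i = cut n Ψ i := fun i hi => (cut_of_le hi).symm
  have e1 := er_near (hΦ.congr hcΦ) (cut_tri hΦv) hG (G' := G' j') (a' := a' j') (g' := g' j')
    (hG' j' le_rfl) (fun b hb => hnest _ (by rwa [hG0, eval_C] at hb)) hgg hu
  have e2 := er_near (hΨ.congr hcΨ) (cut_tri hΨv) hG' (G' := G' j') (a' := a' j') (g' := g' j')
    (hG' j' le_rfl) (fun b hb => by rwa [hG0, eval_C] at hb) hgg' (fun k hk l hl1 hl b hb => by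
      rcases Nat.lt_or_ge k j' with hk' | hk'
      · exact hu' k hk' l hl1 hl b hb
      · obtain rfl : k = j' := by omega
        rw [sub_self, abs_zero]
        positivity)
  have e3 := h (cut n Φ) (cut n Ψ) (G' j') (tus 0 g₁) (tus (a' j') (g' j')) (t + r)
    (cut_tri hΦv) (cut_tri hΨv) (hG' j' le_rfl) (fun l => cut_deg hΦd l)
    (fun l => cut_deg hΨd l) (by rw [← hcΨ 0 (Nat.zero_le _), hΨ0, hG0])
    (fun l hl1 hl => by
      rw [tus_pos _ _ hl1, tus_pos _ _ hl1]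
      exact hg₁ l hl1 hl)
    (fun l hl1 hl b' hb' => by
      rw [tus_pos _ _ hl1]
      refine (e2 l hl1 hl b' hb').trans ?_
      rw [div_le_div_iff₀ (by positivity) (by positivity), ← pow_add, ← pow_add]
      exact h2 (by have := hg₁' l hl1 hl; omega))
    (fun l hl1 hl b' hb' => by
      rw [tus_pos _ _ hl1]
      exact (e1 l hl1 hl b' hb').trans
        (div_le_div_of_nonneg_right (h2 (by omega)) (by positivity)))
    (q + r) i hi1 hi b (fun l hl => by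
      have h3 := hb l hl
      rw [← hcΨ l (by omega)]
      refine h3.trans ?_
      rcases Nat.eq_zero_or_pos l with rfl | hl1
      · rw [tus_zero, tus_zero]
        exact div_le_div_of_nonneg_right (h2 (by omega)) (by positivity)
      · rw [tus_pos _ _ hl1, tus_pos _ _ hl1,
          div_le_div_iff₀ (by positivity) (by positivity), ← pow_add, ← pow_add]
        exact h2 (by have := hg₁' l hl1 (by omega); omega))
  rw [← hcΨ i hi, ← hcΦ i hi, tus_pos _ _ hi1] at e3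
  refine e3.trans (div_le_div_of_nonneg_right (h2 ?_) (by positivity))
  nlinarith

end Pool.STAT.GRD
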