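import Pool.Agent.H82.STAT.Grd

/-!
# Paths of raw levels

`Path`: the raw levels of a path. `Path.Er`: the strong form of the error for a closed label at a
level of the path. `Fnr`: the natural box of a level of another path is finer.

`pcross`: closed labels on the wide boxes of a finer closed label. `puni`: on the wide boxes of a
coarser one.
-/

set_option autoImplicit false

namespace Pool.STAT.GRD

open Finset MvPolynomial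
open Pool.Agent.H49.Ent Pool.Agent.H32.Dense Pool.STK Pool.KS3 Pool.KA Pool.KSAT Pool.PB Pool.GEN
open Pool.STAT.CLO Pool.STAT.CDat Pool.TRC Pool.STAT.DPP Pool.K2S

variable {m J : ℕ}

/-- **A path of raw levels**: radii, precisions, systems. -/
structure Path (F : Fam m J) : Type where
  a : ℕ → ℕ
  g : ℕ → ℕ → ℕ
  G : ℕ → PtT F → ℕ → PN

/-- The systems are triangular, the coordinate `0` is the centre of the time. -/
structure Path.Ok {F : Fam m J} (π : Path F) : Prop where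
  tri : ∀ k y, TriN (π.G k y)
  zero : ∀ k y, π.G k y 0 = MvPolynomial.C (tp (π.a k) y)

/-- **The strong form of the error** for `P` at the level `j` of the path. -/
def Path.Er {F : Fam m J} (π : Path F) (n j u t : ℕ) (g₁ : ℕ → ℕ) (ω : F.Ω) (P : ℕ → PN) : Prop :=
  GRD.Er n j π.a π.g u t (fun k => π.G k (ptr F J ω))
    ((F.T1 (π.a j) ω : ℝ) / 2 ^ π.a j) g₁ P

/-- **The natural box of the level `j'` of `π'` is finer** than all levels `≤ j` of `π`. -/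
structure Fnr {F : Fam m J} (π π' : Path F) (n u j j' : ℕ) (A : F.Ω → Prop) : Prop where
  a_le : π.a j ≤ π'.a j'
  g_le : ∀ k ≤ j, ∀ l, 1 ≤ l → l ≤ n → π.g k l ≤ π'.g j' l
  uni : ∀ ω, A ω → ∀ k ≤ j, ∀ l, 1 ≤ l → l ≤ n → ∀ b : ℕ → ℝ,
    Bx (tus (π'.a j') (π'.g j')) (π'.G j' (ptr F J ω)) l b →
    |eval b (π'.G j' (ptr F J ω) l) - eval b (π.G k (ptr F J ω) l)| ≤ 2 ^ u / 2 ^ π.g k l

theorem Fnr.sub {F : Fam m J} {π π' : Path F} {n u j j' : ℕ} {A B : F.Ω → Prop}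
    (h : Fnr π π' n u j j' A) (hB : ∀ ω, B ω → A ω) : Fnr π π' n u j j' B :=
  ⟨h.a_le, h.g_le, fun ω hω => h.uni ω (hB ω hω)⟩

theorem Fnr.mono {F : Fam m J} {π π' : Path F} {n n' u u' j j' : ℕ} {A : F.Ω → Prop}
    (h : Fnr π π' n u j j' A) (hn : n' ≤ n) (hu : u ≤ u') : Fnr π π' n' u' j j' A :=
  ⟨h.a_le, fun k hk l h1 h2 => h.g_le k hk l h1 (by omega),
    fun ω hω k hk l h1 h2 b hb => (h.uni ω hω k hk l h1 (by omega) b hb).trans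
      (div_le_div_of_nonneg_right (pow_le_pow_right₀ (by norm_num) hu) (by positivity))⟩

theorem Path.Er.restr {F : Fam m J} {π : Path F} {n n' j u t : ℕ} {g₁ : ℕ → ℕ} {ω : F.Ω}
    {P : ℕ → PN} (h : π.Er n j u t g₁ ω P) (hn : n' ≤ n) : π.Er n' j u t g₁ ω P :=
  fun i h1 h2 b hb0 hb => h i h1 (by omega) b hb0 hb

/-- Nested cells of the time. -/
theorem nest_t (F : Fam m J) {w w' : ℕ} (hw : w ≤ w') (hw' : w' ≤ J) (ω : F.Ω) (x : ℝ)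
    (hx : |x - (F.T1 w' ω : ℝ) / 2 ^ w'| ≤ 1 / 2 ^ w') :
    |x - (F.T1 w ω : ℝ) / 2 ^ w| ≤ 1 / 2 ^ w := nest F hw hw' ω hx

/-- **On the wide boxes of a finer closed label.** -/
theorem pcross (n D : ℕ) : ∃ c : ℕ, 1 ≤ c ∧ ∀ {m J : ℕ} {F : Fam m J} (π π' : Path F)
    (j j' u t r : ℕ) (A : F.Ω → Prop) (ω : F.Ω) (g₁ g₁' : ℕ → ℕ) (Φ Ψ : ℕ → PN),
    π.Ok → π'.Ok → Fnr π π' n u j j' A → Fnr π' π' n u j' j' A → A ω → π'.a j' ≤ J →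
    π.Er n j u t g₁ ω Φ → π'.Er n j' u t g₁' ω Ψ →
    (∀ i ≤ n, (Φ i).vars ⊆ range i) → (∀ i ≤ n, (Ψ i).vars ⊆ range i) →
    (∀ i ≤ n, (Φ i).totalDegree ≤ D) → (∀ i ≤ n, (Ψ i).totalDegree ≤ D) →
    Ψ 0 = MvPolynomial.C ((F.T1 (π'.a j') ω : ℝ) / 2 ^ π'.a j') →
    (∀ l, 1 ≤ l → l ≤ n → g₁ l ≤ π'.g j' l) → (∀ l, 1 ≤ l → l ≤ n → π'.g j' l ≤ g₁' l + r) →
    ∀ q i, 1 ≤ i → i ≤ n → ∀ b : ℕ → ℝ, Bxr (2 ^ q) (tus (π'.a j') g₁') Ψ i b →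
      |eval b (Ψ i) - eval b (Φ i)| ≤ 2 ^ (c * (t + r + q + 1)) / 2 ^ g₁ i := by
  obtain ⟨c, hc, h⟩ := cross_er n D
  refine ⟨c, hc, ?_⟩
  intro m J F π π' j j' u t r A ω g₁ g₁' Φ Ψ ho ho' hf hf' hω haJ hΦ hΨ hΦv hΨv hΦd hΨd hΨ0 hg hg'
  exact h j j' π.a π'.a π.g π'.g u t r (fun k => π.G k (ptr F J ω))
    (fun k => π'.G k (ptr F J ω)) _ ((F.T1 (π'.a j') ω : ℝ) / 2 ^ π'.a j') g₁ g₁' Φ Ψ hΦ hΨ hΦv
    hΨv hΦd hΨd (fun k _ => ho.tri k _) (fun k _ => ho'.tri k _)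
    (by rw [ho'.zero, tp_eq]) hΨ0 (nest_t F hf.a_le haJ ω) hf.g_le hf'.g_le
    (hf.uni ω hω) (fun k hk => hf'.uni ω hω k hk.le) hg hg'

/-- **On the wide boxes of a coarser closed label.** -/
theorem puni (n D : ℕ) : ∃ c : ℕ, 1 ≤ c ∧ ∀ {m J : ℕ} {F : Fam m J} (π π' : Path F)
    (j j' u t r R : ℕ) (A : F.Ω → Prop) (ω : F.Ω) (g₁ g₁' : ℕ → ℕ) (Φ Ψ : ℕ → PN),
    π.Ok → π'.Ok → Fnr π π' n u j j' A → Fnr π' π' n u j' j' A → A ω → π'.a j' ≤ J →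
    π.Er n j u t g₁ ω Φ → π'.Er n j' u t g₁' ω Ψ →
    (∀ i ≤ n, (Φ i).vars ⊆ range i) → (∀ i ≤ n, (Ψ i).vars ⊆ range i) →
    (∀ i ≤ n, (Φ i).totalDegree ≤ D) → (∀ i ≤ n, (Ψ i).totalDegree ≤ D) →
    Φ 0 = MvPolynomial.C ((F.T1 (π.a j) ω : ℝ) / 2 ^ π.a j) →
    Ψ 0 = MvPolynomial.C ((F.T1 (π'.a j') ω : ℝ) / 2 ^ π'.a j') →
    (∀ l, 1 ≤ l → l ≤ n → g₁ l ≤ π'.g j' l) → (∀ l, 1 ≤ l → l ≤ n → π'.g j' l ≤ g₁' l + r) →
    (∀ l, 1 ≤ l → l ≤ n → g₁' l ≤ g₁ l + R) → π'.a j' ≤ π.a j + R →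
    ∀ q i, 1 ≤ i → i ≤ n → ∀ b : ℕ → ℝ, Bxr (2 ^ q) (tus (π.a j) g₁) Φ i b →
      |eval b (Ψ i) - eval b (Φ i)| ≤ 2 ^ (c * (t + r + R + q + 1)) / 2 ^ g₁ i := by
  obtain ⟨c₁, hc₁, h1⟩ := pcross n D
  obtain ⟨c₂, hc₂, h3⟩ := uni_up n c₁
  refine ⟨c₂, hc₂, ?_⟩
  intro m J F π π' j j' u t r R A ω g₁ g₁' Φ Ψ ho ho' hf hf' hω haJ hΦ hΨ hΦv hΨv hΦd hΨd hΦ0 hΨ0
    hg hg' hR haR q i hi1 hi b hb
  have h2 : ∀ {a b : ℕ}, a ≤ b → (2 : ℝ) ^ a ≤ 2 ^ b := fun h =>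
    pow_le_pow_right₀ (by norm_num) h
  have h4 := h3 Φ Ψ (tus (π.a j) g₁) (tus (π'.a j') g₁') (t + r) R
    (fun q i hi1 hi b hb => by
      rw [tus_pos _ _ hi1]
      exact h1 π π' j j' u t r A ω g₁ g₁' Φ Ψ ho ho' hf hf' hω haJ hΦ hΨ hΦv hΨv hΦd hΨd hΨ0
        hg hg' q i hi1 hi b hb)
    (fun l hl1 hl => by
      rw [tus_pos _ _ hl1, tus_pos _ _ hl1]
      exact hR l hl1 hl)
    (fun q b hb => by
      rw [hΦ0, eval_C, tus_zero] at hb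
      rw [hΨ0, eval_C, tus_zero]
      have e1 := time_near F haJ ω
      have e2 := time_near F (hf.a_le.trans haJ) ω
      have e3 : (1 : ℝ) / 2 ^ π'.a j' ≤ 1 / 2 ^ π.a j :=
        one_div_le_one_div_of_le (by positivity) (h2 hf.a_le)
      have e4 : (1 : ℝ) / 2 ^ π.a j ≤ 2 ^ q / 2 ^ π.a j :=
        div_le_div_of_nonneg_right (one_le_pow₀ (by norm_num)) (by positivity)
      have e5 : |b 0 - (F.T1 (π'.a j') ω : ℝ) / 2 ^ π'.a j'| ≤ 4 * (2 ^ q / 2 ^ π.a j) := by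
        have e6 : (0 : ℝ) ≤ 2 ^ q / 2 ^ π.a j := by positivity
        rw [abs_le] at hb e1 e2 ⊢
        constructor <;> linarith [hb.1, hb.2, e1.1, e1.2, e2.1, e2.2]
      refine e5.trans ?_
      rw [← mul_div_assoc, div_le_div_iff₀ (by positivity) (by positivity)]
      have e6 : (4 : ℝ) * 2 ^ q = 2 ^ (q + 2) := by
        rw [pow_add]
        ring
      rw [e6, ← pow_add, ← pow_add]
      exact h2 (by omega))
    q i hi1 hi b hb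
  rw [tus_pos _ _ hi1] at h4
  exact h4

end Pool.STAT.GRD
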