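import Pool.Agent.H82.STAT.Gre
import Pool.Agent.H33.TRC.TrcJ

/-!
# Exact closed labels of universal degree at several ends of paths

`EndIn`: the raw data of an end of a path. `lv_er`: exact closed labels of universal degree at
several ends, with the strong form of the error and with small variation in the cells.
-/

set_option autoImplicit false

namespace Pool.STAT.GRD

open Finset MvPolynomial
open Pool.Agent.H49.Ent Pool.Agent.H32.Dense Pool.STK Pool.KS3 Pool.KA Pool.KSAT Pool.PB Pool.GEN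
open Pool.STAT.CLO Pool.STAT.CDat Pool.TRC Pool.STAT.DPP Pool.K2S

/-- **The raw data of the end `j` of a path.** -/
structure EndIn {d J : ℕ} {F : Fam d J} (c : ℕ → Fin d) (n S K m h u s₀ : ℕ) (A : F.Ω → Prop)
    (π : Path F) (wp : ℕ → ℕ) (HH : ℕ → LnT F → ℕ → PN) (mm j wk ee : ℕ)
    (Gk : PtT F → ℕ → MvPolynomial (Option (Fin d)) ℝ)
    (Hk : LnT F → ℕ → MvPolynomial (Option (Fin d)) ℝ) (gk : ℕ → ℕ) : Prop where
  lvl : Lvl F (fun i => c (i - 1)) n K mm π.a wp π.g h u s₀ A π.G HH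
  mm_le : mm ≤ m
  j_le : j ≤ mm
  slp : TRC.Slp n S π.a π.g u j
  ok : ChOK F c n (fun _ => K) (π.a j) wk ee gk A Gk Hk
  G_eq : π.G j = Gs c n (π.a j) Gk
  g_eq : ∀ i < n, gk i = π.g j (i + 1)

/-- **The properties of an exact closed label at an end of a path**: `f` are its precisions. -/
structure EndOut {d J : ℕ} {F : Fam d J} (C : CDat F) (c : ℕ → Fin d) (n K' t u : ℕ) (L : ℝ)
    (π : Path F) (j ee s₁ : ℕ) (gk f : ℕ → ℕ) (B : F.Ω → Prop) : Prop where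
  deg : ∀ v, ∀ i, 1 ≤ i → i ≤ n → (C.G 0 v i).totalDegree ≤ K'
  tri : ∀ v, ∀ i, 1 ≤ i → i ≤ n → (C.G 0 v i).vars ⊆ range i
  cls : ∀ ω, B ω → C.pt 0 (ptr F J ω) = C.li 0 (slam F (π.a j) ω)
  pos : ∀ ω, B ω → ∀ i, 1 ≤ i → i ≤ n →
    |F.x ω (c (i - 1)) - eval (cx F (fun i => c (i - 1)) ω) (C.Ph (π.a j) 1 0 ω i)| ≤
      1 / 2 ^ f i
  near : ∀ y : ℕ, (∀ i < n, gk i + y + 2 * t + (ee + nlp gk 0 i) + s₁ ≤ J) →
    C.Near (fun i => c (i - 1)) n (π.a j) 1 (fun _ => f) 0 y L B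
  er : ∀ ω, B ω → π.Er n j u t f ω (C.Ph (π.a j) 1 0 ω)

/-- **Exact closed labels of universal degree** at several ends of paths. -/
theorem lv_er (n S : ℕ) (hS : 1 ≤ S) : ∃ (c a K' : ℕ) (L : ℝ), 1 ≤ K' ∧ 1 ≤ L ∧ 1 ≤ c ∧
    a ≤ c ∧ ∀ K m s₀ : ℕ, ∃ C s₁ : ℕ,
    ∀ {d J : ℕ} {F : Fam d J} (co : ℕ → Fin d) (M h u s : ℕ) (A : F.Ω → Prop)
      (π : ℕ → Path F) (wp : ℕ → ℕ → ℕ) (HH : ℕ → ℕ → LnT F → ℕ → PN) (mm j wk : ℕ → ℕ)
      (ee : ℕ) (Gk : ℕ → PtT F → ℕ → MvPolynomial (Option (Fin d)) ℝ)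
      (Hk : ℕ → LnT F → ℕ → MvPolynomial (Option (Fin d)) ℝ) (gk f : ℕ → ℕ → ℕ), Inj co n →
      (∀ k ≤ M, EndIn co n S K m h u s₀ A (π k) (wp k) (HH k) (mm k) (j k) (wk k) ee (Gk k)
        (Hk k) (gk k)) →
      (∀ k ≤ M, ∀ i, 1 ≤ i → i ≤ n → f k i + a * (s + 1) ≤ (π k).g (j k) i) →
      (c : ℝ) * (h + u) + C ≤ s →
      ∃ (D : ℕ → CDat F) (B : F.Ω → Prop), (∀ ω, B ω → A ω) ∧
        Pe F.p A ≤ K' ^ (M + 1) * Pe F.p B ∧ ∀ k ≤ M,
          EndOut (D k) co n K' (c * (s + 1)) u L (π k) (j k) ee s₁ (gk k) (f k) B := by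
  classical
  obtain ⟨c₁, htrc⟩ := trc_two n S hS
  obtain ⟨D₀, hD₀⟩ : ∃ D₀, D₀ = (S + 1) ^ (n + 1) ^ 2 := ⟨_, rfl⟩
  obtain ⟨a, K', c₂, L, hK', hL, hmany⟩ := many_lv n D₀
  obtain ⟨c₃, herc⟩ := er_clo n c₂
  refine ⟨c₁ + a + c₂ + c₃ + 1, a, K', L, hK', hL, by omega, by omega, fun K m s₀ => ?_⟩
  choose Cf hCf using fun m' => htrc K m' s₀
  obtain ⟨s₁, hvar⟩ := var_trc n (max K D₀)
  refine ⟨∑ i ∈ range (m + 1), Cf i, s₁, ?_⟩
  intro d J F co M h u s A π wp HH mm j wk ee Gk Hk gk f hco hE hf hs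
  obtain ⟨C, hC⟩ : ∃ C, C = c₁ + a + c₂ + c₃ + 1 := ⟨_, rfl⟩
  rw [← hC] at hs ⊢
  have hCf' : ∀ k ≤ M, (c₁ : ℝ) * (h + u + (0 : ℕ)) + Cf (mm k) ≤ s := by
    intro k hk
    refine le_trans (add_le_add ?_ ?_) hs
    · rw [Nat.cast_zero, add_zero]
      refine mul_le_mul_of_nonneg_right ?_ (by positivity)
      exact_mod_cast (show c₁ ≤ C by omega)
    · exact_mod_cast Finset.single_le_sum (f := Cf) (fun _ _ => Nat.zero_le _)
        (mem_range.2 (show mm k < m + 1 by have := (hE k hk).mm_le; omega))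
  have haJ : ∀ k ≤ M, (π k).a (j k) ≤ J := fun k hk => (hE k hk).lvl.aJ _ (hE k hk).j_le
  -- the truncated sides
  have hside : ∀ k, ∃ (G' : PtT F → ℕ → PN) (H' : LnT F → ℕ → PN), k ≤ M →
      Raw n D₀ (2 ^ s) A (ptr F J) (slam F ((π k).a (j k))) (tp ((π k).a (j k)))
        (tl ((π k).a (j k))) (CDat.g0 ((π k).a (j k)) 1 (fun _ => (π k).g (j k)) 0)
        G' H' ∧
      (∀ ω, A ω → ∀ i, 1 ≤ i → i ≤ n →
        |F.x ω (co (i - 1)) - eval (cx F (fun i => co (i - 1)) ω) (G' (ptr F J ω) i)| ≤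
          2 ^ s / 2 ^ (π k).g (j k) i) ∧
      (∀ ω, A ω → ∀ i, 1 ≤ i → i ≤ n → ∀ b : ℕ → ℝ,
        Bx (tus ((π k).a (j k)) ((π k).g (j k))) ((π k).G (j k) (ptr F J ω)) i b →
        |eval b ((π k).G (j k) (ptr F J ω) i) - eval b (G' (ptr F J ω) i)| ≤
          2 ^ s / 2 ^ (π k).g (j k) i) ∧
      (∀ ω, A ω → (π k).Er n (j k) u s ((π k).g (j k)) ω (G' (ptr F J ω))) := by
    intro k
    by_cases hk : k ≤ M
    · have h1 := hE k hk
      obtain ⟨G', H', o1, o2, o3, o4, -⟩ := hCf (mm k) d J F (fun i => co (i - 1))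
        ((π k).a (j k)) 1 0 (π k).a (wp k) (π k).g (fun _ => (π k).g (j k)) h u 0 s
        (fun _ => j k) A (π k).G (HH k) h1.lvl (fun k' hk' => ⟨h1.j_le, h1.slp, by omega⟩)
        (by have := haJ k hk; omega) (fun k' _ i hi1 hi => ⟨le_rfl, le_rfl⟩) (hCf' k hk)
      rw [← hD₀] at o1
      refine ⟨G' 0, H' 0, fun _ => ⟨o1 0 le_rfl, o2 0 le_rfl, o3 0 le_rfl, ?_⟩⟩
      intro ω hω i hi1 hi b hb0 hb
      exact o4 0 le_rfl ω hω i hi1 hi b ⟨hb0, hb⟩
    · exact ⟨fun _ _ => 0, fun _ _ => 0, fun h => absurd h hk⟩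
  choose G' H' hside using hside
  obtain ⟨D, B, hBA, hPe, hD⟩ := hmany M d J s (fun k => (π k).a (j k)) F
    (fun i => co (i - 1)) (fun k => (π k).g (j k)) A G' H' haJ
    (fun k hk i hi1 hi => by have := hf k hk i hi1 hi; omega) (fun k hk => (hside k hk).1)
    (fun k hk => (hside k hk).2.1)
  refine ⟨D, B, hBA, hPe, fun k hk => ?_⟩
  have h1 := hE k hk
  have h2 := hD k hk
  obtain ⟨o1, o2, o3, o4⟩ := hside k hk
  have hc2 : c₂ * (s + 1) ≤ C * (s + 1) := Nat.mul_le_mul_right _ (by omega)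
  have hsC : s ≤ C * (s + 1) := by
    have : 1 * (s + 1) ≤ C * (s + 1) := Nat.mul_le_mul_right _ (by omega)
    omega
  refine
    { deg := h2.deg
      tri := h2.tri
      cls := h2.cls
      pos := fun ω hω i hi1 hi => ?_
      near := fun y hy => ?_
      er := fun ω hω => ?_ }
  · have h3 := h2.pos ω hω i hi1 hi
    refine h3.trans (one_div_le_one_div_of_le (by positivity)
      (pow_le_pow_right₀ (by norm_num) ?_))
    have := hf k hk i hi1 hi
    omega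
  · have h3 := h2.near y (fun ω hω i hi1 hi b hb0 hb => ?_) (fun i hi1 hi => ?_)
    · intro ω ω' hω hω' hl hT i hi1 hi hX
      refine (h3 ω ω' hω hω' hl hT i hi1 hi hX).trans ?_
      refine div_le_div_of_nonneg_left (by linarith) (by positivity)
        (pow_le_pow_right₀ (by norm_num) ?_)
      have := hf k hk i hi1 hi
      show f k i + y ≤ (π k).g (j k) i - a * (s + 1) + y
      omega
    · have h4 := hvar d J F co (fun _ => K) ((π k).a (j k)) (wk k) ee (gk k) A (Gk k) (Hk k)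
        (haJ k hk) hco (fun _ _ => le_max_left _ _) h1.ok (G' k) s (y + c₂ * (s + 1)) o1.G_tri
        (fun v i => (o1.G_deg v i).trans (le_max_right _ _))
        (fun ω hω i hi1 hi b hb => by
          have h5 := o3 ω hω i hi1 hi b (by
            rw [h1.G_eq]
            refine fun l hl => ?_
            have h6 := hb l hl
            rcases Nat.eq_zero_or_pos l with rfl | hl1
            · rw [tus_zero]
              rw [gg_tus, tus_zero] at h6
              exact h6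
            · rw [tus_pos _ _ hl1]
              rw [gg_tus, tus_pos _ _ hl1, h1.g_eq _ (by omega), Nat.sub_add_cancel hl1] at h6
              exact h6)
          rw [h1.G_eq] at h5
          rw [h1.g_eq _ (by omega), Nat.sub_add_cancel hi1]
          exact h5)
        (fun i hi => by
          have := hy i hi
          omega) ω hω i hi1 hi b hb0 hb
      rw [h1.g_eq _ (by omega), Nat.sub_add_cancel hi1] at h4
      exact h4
    · have h6 := hy (i - 1) (by omega)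
      rw [h1.g_eq _ (by omega), Nat.sub_add_cancel hi1] at h6
      omega
  · have h3 := h2.nr ω hω
    have h4 := herc (γ := CDat.g0 ((π k).a (j k)) 1 (fun _ => (π k).g (j k)) 0)
      (g₁ := (π k).g (j k)) (o4 ω (hBA ω hω)) h3 (fun l hl1 hl => if_neg (by omega)) ?_ ?_
    · refine Er.mono h4 ?_ fun i hi1 hi => by
        have := hf k hk i hi1 hi
        omega
      exact Nat.mul_le_mul_right _ (by omega)
    · rfl
    · intro b
      rw [o1.G_zero, eval_C, tp_eq]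

end Pool.STAT.GRD
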