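import Pool.Agent.H82.STAT.Grf

/-!
# The labels of the drop-out system

Given the chain `C` of the fat labels with the strong form of the error along a path, the path of
the balls and the paths of the thin windows: `grd_fam` gives the chain `B` of the balls, the thin
charts `Tc`, one event, and all comparisons.
-/

set_option autoImplicit false

namespace Pool.STAT.GRD

open Finset MvPolynomial
open Pool.Agent.H49.Ent Pool.Agent.H32.Dense Pool.STK Pool.KS3 Pool.KA Pool.KSAT Pool.PB Pool.GEN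
open Pool.STAT.CLO Pool.STAT.CDat Pool.TRC Pool.STAT.DPP Pool.K2S

/-- Two families in one. -/
def cas {α : Type*} (M : ℕ) (x y : ℕ → α) (k : ℕ) : α := if k ≤ M then x k else y (k - (M + 1))

theorem cas_le {α : Type*} {M k : ℕ} {x y : ℕ → α} (hk : k ≤ M) : cas M x y k = x k := if_pos hk

theorem cas_gt {α : Type*} {M j : ℕ} {x y : ℕ → α} : cas M x y (M + 1 + j) = y j := by
  unfold cas
  rw [if_neg (by omega), Nat.add_sub_cancel_left]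

variable {d J : ℕ}

/-- The thin charts of a sequence of data. -/
noncomputable def tch {F : Fam d J} (f : ℕ → CDat F) : TChn F where
  V := (j : ℕ) → (f j).V 0
  pt y j := (f j).pt 0 y
  li s j := (f j).li 0 s
  G v j i := (f (j - 1)).G 0 (v (j - 1)) i

/-- The value of the charts at a sample. -/
noncomputable def chv {F : Fam d J} (C : CDat F) (Tc : TChn F) (w₀ : ℕ) (ω : F.Ω) :
    (C.V 0 × ℕ) × Tc.V :=
  ((C.li 0 (slam F w₀ ω), (slam F w₀ ω).2.2), Tc.li (slam F w₀ ω))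

/-- The precisions of the charts: the chart `0` is the level `0` of `C`. -/
def tt (w₀ : ℕ) (g : ℕ → ℕ → ℕ) (t : ℕ → ℕ → ℕ) (j i : ℕ) : ℕ :=
  if i = 0 then w₀ else if j = 0 then g 0 i else t j i

theorem cha_zero {F : Fam d J} (C : CDat F) (Tc : TChn F) {n : ℕ} (w₀ z : ℕ) (ω : F.Ω) {i : ℕ}
    (hi : i < n) : cha C Tc n w₀ z (chv C Tc w₀ ω) 0 i = C.Ph w₀ z 0 ω i := by
  unfold cha
  rw [cut_of_le (by omega), if_pos (Or.inl rfl)]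
  exact congrFun (Ph0_slam C w₀ z ω) i

theorem cha_pos {F : Fam d J} (C : CDat F) (f : ℕ → CDat F) {n : ℕ} (w₀ z : ℕ) (ω : F.Ω)
    {i j : ℕ} (hi : i < n) : cha C (tch f) n w₀ z (chv C (tch f) w₀ ω) (j + 1) i =
      (f j).Ph w₀ 1 0 ω i := by
  unfold cha
  rw [cut_of_le (by omega)]
  by_cases h0 : i = 0
  · rw [if_pos (Or.inr h0)]
    subst h0
    refine (congrFun (Ph0_slam C w₀ z ω) 0).trans ?_
    rw [Ph_zero, Ph_zero, Nat.zero_mul, Nat.zero_mul]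
  · rw [if_neg (by omega)]
    show (f j).G 0 ((f j).li 0 (slam F w₀ ω)) i = _
    unfold CDat.Ph
    rw [if_neg h0]
    rfl

/-- **The outcome.** `t` is the exponent of the errors. -/
structure GrOut {F : Fam d J} (C B : CDat F) (Tc : TChn F) (e : ℕ → Fin d)
    (n K' w₀ z M r c t Rr : ℕ) (g h tn : ℕ → ℕ → ℕ) (A : F.Ω → Prop) : Prop where
  Bdeg : ∀ k ≤ M, ∀ v, ∀ i, 1 ≤ i → i ≤ n → (B.G k v i).totalDegree ≤ K'
  Btri : ∀ k ≤ M, ∀ v, ∀ i, 1 ≤ i → i ≤ n → (B.G k v i).vars ⊆ range i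
  Bcls : ∀ k ≤ M, ∀ ω, A ω → B.pt k (ptr F J ω) = B.li k (slam F (w₀ + k * z) ω)
  Bpos : ∀ k ≤ M, ∀ ω, A ω → ∀ i, 1 ≤ i → i ≤ n →
    |F.x ω (e i) - eval (cx F e ω) (B.Ph w₀ z k ω i)| ≤ 1 / 2 ^ h k i
  Tcls : ∀ ω, A ω → Tc.pt (ptr F J ω) = Tc.li (slam F w₀ ω)
  Tdeg : ∀ v, ∀ j, 1 ≤ j → j ≤ r → ∀ i, 1 ≤ i → i ≤ n → (Tc.G v j i).totalDegree ≤ K'
  Ttri : ∀ v, ∀ j, 1 ≤ j → j ≤ r → ∀ i, 1 ≤ i → i ≤ n → (Tc.G v j i).vars ⊆ range i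
  uni : ∀ k ≤ M, ∀ ω, A ω → ∀ q i, 1 ≤ i → i ≤ n → ∀ b : ℕ → ℝ,
    Bxr (2 ^ q) (g0 w₀ z g 0) (C.Ph w₀ z 0 ω) i b →
    |eval b (C.Ph w₀ z k ω i) - eval b (C.Ph w₀ z 0 ω i)| ≤
      2 ^ (c * (t + Rr + q + 1)) / 2 ^ g 0 i
  uniB : ∀ k ≤ M, ∀ ω, A ω → ∀ q i, 1 ≤ i → i ≤ n → ∀ b : ℕ → ℝ,
    Bxr (2 ^ q) (g0 w₀ z h k) (B.Ph w₀ z k ω) i b →
    |eval b (C.Ph w₀ z k ω i) - eval b (B.Ph w₀ z k ω i)| ≤ 2 ^ (c * (t + q + 1)) / 2 ^ g k i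
  chart : ∀ j < r, ∀ ω, A ω → ∀ q i, 1 ≤ i → i < n → ∀ b : ℕ → ℝ,
    Bxr (2 ^ q) (tt w₀ g tn (j + 1)) (cha C Tc n w₀ z (chv C Tc w₀ ω) (j + 1)) i b →
    |eval b (cha C Tc n w₀ z (chv C Tc w₀ ω) (j + 1) i) -
      eval b (cha C Tc n w₀ z (chv C Tc w₀ ω) j i)| ≤
      2 ^ (c * (t + q + 1)) / 2 ^ tt w₀ g tn j i
  chartB : ∀ k ≤ M, ∀ ω, A ω → ∀ q i, 1 ≤ i → i < n → ∀ b : ℕ → ℝ,
    Bxr (2 ^ q) (g0 w₀ z h k) (B.Ph w₀ z k ω) i b →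
    |eval b (B.Ph w₀ z k ω i) - eval b (cha C Tc n w₀ z (chv C Tc w₀ ω) r i)| ≤
      2 ^ (c * (t + q + 1)) / 2 ^ tt w₀ g tn r i

/-- The raw data of an end of a path. -/
structure EndD (F : Fam d J) : Type where
  π : Path F
  wp : ℕ → ℕ
  HH : ℕ → LnT F → ℕ → PN
  mm : ℕ
  j : ℕ
  wk : ℕ
  Gk : PtT F → ℕ → MvPolynomial (Option (Fin d)) ℝ
  Hk : LnT F → ℕ → MvPolynomial (Option (Fin d)) ℝ
  gk : ℕ → ℕ

/-- The conditions for an end of a path. -/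
abbrev EndD.In {F : Fam d J} (x : EndD F) (co : ℕ → Fin d) (n S K m hm u s₀ ee : ℕ)
    (A : F.Ω → Prop) : Prop :=
  EndIn co n S K m hm u s₀ A x.π x.wp x.HH x.mm x.j x.wk ee x.Gk x.Hk x.gk

theorem EndD.In.okk {F : Fam d J} {x : EndD F} {co : ℕ → Fin d} {n S K m hm u s₀ ee : ℕ}
    {A : F.Ω → Prop} (h : x.In co n S K m hm u s₀ ee A) : x.π.Ok :=
  ⟨h.lvl.triG, h.lvl.G_zero⟩

/-- **The input.** `xB k` are the balls, `xT j` the thin windows (chart `j + 1`). -/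
structure GrIn {F : Fam d J} (C : CDat F) (co : ℕ → Fin d) (n S K m D w₀ z M R a hm u s t Rr s₀
    ee : ℕ) (g hh tn : ℕ → ℕ → ℕ) (πF : Path F) (jF : ℕ → ℕ) (xB xT : ℕ → EndD F)
    (A : F.Ω → Prop) : Prop where
  inj : Inj co n
  top : w₀ + M * z ≤ J
  fdeg : ∀ k ≤ M, ∀ v, ∀ i, 1 ≤ i → i ≤ n → (C.G k v i).totalDegree ≤ D
  ftri : ∀ k ≤ M, ∀ v, ∀ i, 1 ≤ i → i ≤ n → (C.G k v i).vars ⊆ range i
  fok : πF.Ok
  fer : ∀ k ≤ M, ∀ ω, A ω → πF.Er n (jF k) u t (g k) ω (C.Ph w₀ z k ω)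
  fa : ∀ k ≤ M, πF.a (jF k) = w₀ + k * z
  fg : ∀ k ≤ M, ∀ i, 1 ≤ i → i ≤ n → g k i ≤ πF.g (jF k) i ∧ πF.g (jF k) i ≤ g k i + t
  ball : ∀ k ≤ M, (xB k).In co n S K m hm u s₀ ee A
  balla : ∀ k ≤ M, (xB k).π.a (xB k).j = w₀ + k * z
  ballg : ∀ k ≤ M, ∀ i, 1 ≤ i → i ≤ n → hh k i + a * (s + 1) ≤ (xB k).π.g (xB k).j i ∧
    (xB k).π.g (xB k).j i ≤ hh k i + t
  thin : ∀ j ≤ R, (xT j).In co n S K m hm u s₀ ee A
  thina : ∀ j ≤ R, (xT j).π.a (xT j).j = w₀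
  thing : ∀ j ≤ R, ∀ i, 1 ≤ i → i ≤ n → tn (j + 1) i + a * (s + 1) ≤ (xT j).π.g (xT j).j i ∧
    (xT j).π.g (xT j).j i ≤ tn (j + 1) i + t
  FF : ∀ k ≤ M, Fnr πF πF n u (jF 0) (jF k) A ∧ Fnr πF πF n u (jF k) (jF k) A
  FB : ∀ k ≤ M, Fnr πF (xB k).π n u (jF k) (xB k).j A
  BB : ∀ k ≤ M, Fnr (xB k).π (xB k).π n u (xB k).j (xB k).j A
  FT : Fnr πF (xT 0).π n u (jF 0) (xT 0).j A
  TT : ∀ j < R, Fnr (xT j).π (xT (j + 1)).π n u (xT j).j (xT (j + 1)).j A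
  TS : ∀ j ≤ R, Fnr (xT j).π (xT j).π n u (xT j).j (xT j).j A
  TB : ∀ k ≤ M, Fnr (xT R).π (xB k).π n u (xT R).j (xB k).j A
  ratio : ∀ k ≤ M, ∀ i, 1 ≤ i → i ≤ n → g k i ≤ g 0 i + Rr
  ratio0 : M * z ≤ Rr

theorem g0_tus (w₀ z : ℕ) (g : ℕ → ℕ → ℕ) (k : ℕ) : g0 w₀ z g k = tus (w₀ + k * z) (g k) := by
  funext i
  rcases Nat.eq_zero_or_pos i with rfl | hi
  · rw [tus_zero]
    exact if_pos rfl
  · rw [tus_pos _ _ hi]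
    exact if_neg (by omega)

/-- **A closed label at the end `j` of a path**, window `w`, precisions `f`. -/
structure Cl {F : Fam d J} (π : Path F) (n D j w u t : ℕ) (f : ℕ → ℕ) (Φ : F.Ω → ℕ → PN)
    (A : F.Ω → Prop) : Prop where
  a_eq : π.a j = w
  ok : π.Ok
  wJ : w ≤ J
  self : Fnr π π n u j j A
  vars : ∀ ω, ∀ i ≤ n, (Φ ω i).vars ⊆ range i
  deg : ∀ ω, ∀ i ≤ n, (Φ ω i).totalDegree ≤ D
  zero : ∀ ω, Φ ω 0 = MvPolynomial.C ((F.T1 w ω : ℝ) / 2 ^ w)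
  er : ∀ ω, A ω → π.Er n j u t f ω (Φ ω)
  lo : ∀ l, 1 ≤ l → l ≤ n → f l ≤ π.g j l
  hi : ∀ l, 1 ≤ l → l ≤ n → π.g j l ≤ f l + t

theorem Cl.cross (n D : ℕ) : ∃ c : ℕ, 1 ≤ c ∧ ∀ {d J : ℕ} {F : Fam d J} {π π' : Path F}
    {j j' w w' u t : ℕ} {f f' : ℕ → ℕ} {Φ Ψ : F.Ω → ℕ → PN} {A : F.Ω → Prop},
    Cl π n D j w u t f Φ A → Cl π' n D j' w' u t f' Ψ A → Fnr π π' n u j j' A → ∀ ω, A ω →
    ∀ q i, 1 ≤ i → i ≤ n → ∀ b : ℕ → ℝ, Bxr (2 ^ q) (tus w' f') (Ψ ω) i b →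
      |eval b (Ψ ω i) - eval b (Φ ω i)| ≤ 2 ^ (c * (t + q + 1)) / 2 ^ f i := by
  obtain ⟨c, hc, h⟩ := pcross n D
  refine ⟨2 * c, by omega, ?_⟩
  intro d J F π π' j j' w w' u t f f' Φ Ψ A h1 h2 hf ω hω q i hi1 hi b hb
  have h3 := h π π' j j' u t t A ω f f' (Φ ω) (Ψ ω) h1.ok h2.ok hf h2.self hω
    (by rw [h2.a_eq]; exact h2.wJ) (h1.er ω hω) (h2.er ω hω) (h1.vars ω) (h2.vars ω) (h1.deg ω)
    (h2.deg ω) (by rw [h2.a_eq]; exact h2.zero ω)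
    (fun l hl1 hl => (h1.lo l hl1 hl).trans (hf.g_le j le_rfl l hl1 hl)) h2.hi q i hi1 hi b
    (by rw [h2.a_eq]; exact hb)
  refine h3.trans (div_le_div_of_nonneg_right (pow_le_pow_right₀ (by norm_num) ?_)
    (by positivity))
  have e1 : c * (t + t + q + 1) ≤ c * (2 * (t + q + 1)) := Nat.mul_le_mul_left _ (by omega)
  have e3 : c * (2 * (t + q + 1)) = 2 * c * (t + q + 1) := by ring
  omega

theorem Cl.uni (n D : ℕ) : ∃ c : ℕ, 1 ≤ c ∧ ∀ {d J : ℕ} {F : Fam d J} {π π' : Path F}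
    {j j' w w' u t R : ℕ} {f f' : ℕ → ℕ} {Φ Ψ : F.Ω → ℕ → PN} {A : F.Ω → Prop},
    Cl π n D j w u t f Φ A → Cl π' n D j' w' u t f' Ψ A → Fnr π π' n u j j' A →
    (∀ l, 1 ≤ l → l ≤ n → f' l ≤ f l + R) → w' ≤ w + R → ∀ ω, A ω →
    ∀ q i, 1 ≤ i → i ≤ n → ∀ b : ℕ → ℝ, Bxr (2 ^ q) (tus w f) (Φ ω) i b →
      |eval b (Ψ ω i) - eval b (Φ ω i)| ≤ 2 ^ (c * (t + R + q + 1)) / 2 ^ f i := by
  obtain ⟨c, hc, h⟩ := puni n D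
  refine ⟨2 * c, by omega, ?_⟩
  intro d J F π π' j j' w w' u t R f f' Φ Ψ A h1 h2 hf hR hw ω hω q i hi1 hi b hb
  have h3 := h π π' j j' u t t R A ω f f' (Φ ω) (Ψ ω) h1.ok h2.ok hf h2.self hω
    (by rw [h2.a_eq]; exact h2.wJ) (h1.er ω hω) (h2.er ω hω) (h1.vars ω) (h2.vars ω) (h1.deg ω)
    (h2.deg ω) (by rw [h1.a_eq]; exact h1.zero ω) (by rw [h2.a_eq]; exact h2.zero ω)
    (fun l hl1 hl => (h1.lo l hl1 hl).trans (hf.g_le j le_rfl l hl1 hl)) h2.hi hR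
    (by rw [h2.a_eq, h1.a_eq]; exact hw) q i hi1 hi b (by rw [h1.a_eq]; exact hb)
  refine h3.trans (div_le_div_of_nonneg_right (pow_le_pow_right₀ (by norm_num) ?_)
    (by positivity))
  have e1 : c * (t + t + R + q + 1) ≤ c * (2 * (t + R + q + 1)) :=
    Nat.mul_le_mul_left _ (by omega)
  have e3 : c * (2 * (t + R + q + 1)) = 2 * c * (t + R + q + 1) := by ring
  omega

/-- From the exact closed label at an end. -/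
theorem EndOut.cl {F : Fam d J} {C : CDat F} {co : ℕ → Fin d} {n K' D t t' u : ℕ} {L : ℝ}
    {x : EndD F} {ee s₁ w : ℕ} {f : ℕ → ℕ} {B : F.Ω → Prop}
    (h : EndOut C co n K' t u L x.π x.j ee s₁ x.gk f B) (hok : x.π.Ok) (hw : x.π.a x.j = w)
    (hwJ : w ≤ J) (hself : Fnr x.π x.π n u x.j x.j B) (hD : K' ≤ D) (ht : t ≤ t')
    (hf : ∀ l, 1 ≤ l → l ≤ n → f l ≤ x.π.g x.j l ∧ x.π.g x.j l ≤ f l + t') :
    Cl x.π n D x.j w u t' f (fun ω => C.Ph w 1 0 ω) B where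
  a_eq := hw
  ok := hok
  wJ := hwJ
  self := hself
  vars ω := Ph_vars fun v i h1 h2 => h.tri v i h1 h2
  deg ω i hi := (Ph_deg (fun v i h1 h2 => h.deg v i h1 h2) i hi).trans hD
  zero ω := Ph_zero C w 1 0 ω
  er ω hω := by
    have h1 := h.er ω hω
    rw [hw] at h1
    exact Er.mono h1 ht fun _ _ _ => le_rfl
  lo l h1 h2 := (hf l h1 h2).1
  hi l h1 h2 := (hf l h1 h2).2

end Pool.STAT.GRD
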