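import Pool.Agent.H82.STAT.Grg

/-!
# The labels of the drop-out system: the theorem

`grd_fam`.
-/

set_option autoImplicit false

namespace Pool.STAT.GRD

open Finset MvPolynomial
open Pool.Agent.H49.Ent Pool.Agent.H32.Dense Pool.STK Pool.KS3 Pool.KA Pool.KSAT Pool.PB Pool.GEN
open Pool.STAT.CLO Pool.STAT.CDat Pool.TRC Pool.STAT.DPP Pool.K2S

variable {d J : ℕ}

/-- **The closed labels of the balls and of the thin windows**, one event. -/
theorem grd_ends (n S : ℕ) (hS : 1 ≤ S) : ∃ (c a K' : ℕ) (L : ℝ), 1 ≤ K' ∧ 1 ≤ L ∧ 1 ≤ c ∧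
    a ≤ c ∧ ∀ K m s₀ : ℕ, ∃ Cst s₁ : ℕ,
    ∀ {d J : ℕ} {F : Fam d J} (co : ℕ → Fin d) (M R hm u s ee : ℕ)
      (hh tn : ℕ → ℕ → ℕ) (xB xT : ℕ → EndD F) (A : F.Ω → Prop), Inj co n →
      (∀ k ≤ M, (xB k).In co n S K m hm u s₀ ee A) →
      (∀ k ≤ M, ∀ i, 1 ≤ i → i ≤ n → hh k i + a * (s + 1) ≤ (xB k).π.g (xB k).j i) →
      (∀ j ≤ R, (xT j).In co n S K m hm u s₀ ee A) →
      (∀ j ≤ R, ∀ i, 1 ≤ i → i ≤ n → tn (j + 1) i + a * (s + 1) ≤ (xT j).π.g (xT j).j i) →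
      (c : ℝ) * (hm + u) + Cst ≤ s →
      ∃ (DB DT : ℕ → CDat F) (A' : F.Ω → Prop), (∀ ω, A' ω → A ω) ∧
        Pe F.p A ≤ K' ^ (M + R + 2) * Pe F.p A' ∧
        (∀ k ≤ M, EndOut (DB k) co n K' (c * (s + 1)) u L (xB k).π (xB k).j ee s₁
          (xB k).gk (hh k) A') ∧
        ∀ j ≤ R, EndOut (DT j) co n K' (c * (s + 1)) u L (xT j).π (xT j).j ee s₁
          (xT j).gk (tn (j + 1)) A' := by
  obtain ⟨c, a, K', L, hK', hL, hc, hac, hlv⟩ := lv_er n S hS
  refine ⟨c, a, K', L, hK', hL, hc, hac, fun K m s₀ => ?_⟩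
  obtain ⟨Cst, s₁, hlv⟩ := hlv K m s₀
  refine ⟨Cst, s₁, ?_⟩
  intro d J F co M R hm u s ee hh tn xB xT A hinj hB hBg hT hTg hs
  obtain ⟨x, hx⟩ : ∃ x : ℕ → EndD F, x = cas M xB xT := ⟨_, rfl⟩
  obtain ⟨f, hf⟩ : ∃ f : ℕ → ℕ → ℕ, f = cas M hh fun j => tn (j + 1) := ⟨_, rfl⟩
  have hxB : ∀ k ≤ M, x k = xB k := fun k hk => by rw [hx, cas_le hk]
  have hxT : ∀ j, x (M + 1 + j) = xT j := fun j => by rw [hx, cas_gt]
  have hfB : ∀ k ≤ M, f k = hh k := fun k hk => by rw [hf, cas_le hk]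
  have hfT : ∀ j, f (M + 1 + j) = tn (j + 1) := fun j => by rw [hf, cas_gt]
  clear hx hf
  have hsp : ∀ k ≤ M + 1 + R, k ≤ M ∨ ∃ j ≤ R, k = M + 1 + j := fun k hk => by
    rcases Nat.lt_or_ge M k with h | h
    · exact Or.inr ⟨k - (M + 1), by omega, by omega⟩
    · exact Or.inl h
  obtain ⟨D', A', hA', hPe, hD'⟩ := hlv co (M + 1 + R) hm u s A (fun k => (x k).π)
    (fun k => (x k).wp) (fun k => (x k).HH) (fun k => (x k).mm) (fun k => (x k).j)
    (fun k => (x k).wk) ee (fun k => (x k).Gk) (fun k => (x k).Hk) (fun k => (x k).gk) f hinj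
    (fun k hk => by
      rcases hsp k hk with h | ⟨j, hj, rfl⟩
      · show (x k).In co n S K m hm u s₀ ee A
        rw [hxB k h]
        exact hB k h
      · show (x (M + 1 + j)).In co n S K m hm u s₀ ee A
        rw [hxT j]
        exact hT j hj)
    (fun k hk i hi1 hi => by
      rcases hsp k hk with h | ⟨j, hj, rfl⟩
      · show f k i + a * (s + 1) ≤ (x k).π.g (x k).j i
        rw [hxB k h, hfB k h]
        exact hBg k h i hi1 hi
      · show f (M + 1 + j) i + a * (s + 1) ≤ (x (M + 1 + j)).π.g (x (M + 1 + j)).j i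
        rw [hxT j, hfT j]
        exact hTg j hj i hi1 hi) hs
  refine ⟨D', fun j => D' (M + 1 + j), A', hA', ?_, fun k hk => ?_, fun j hj => ?_⟩
  · have e1 : M + 1 + R + 1 = M + R + 2 := by omega
    rw [e1] at hPe
    exact hPe
  · have h1 := hD' k (by omega)
    have h2 : EndOut (D' k) co n K' (c * (s + 1)) u L (x k).π (x k).j ee s₁ (x k).gk (f k) A' := h1
    rw [hxB k hk, hfB k hk] at h2
    exact h2
  · have h1 := hD' (M + 1 + j) (by omega)
    have h2 : EndOut (D' (M + 1 + j)) co n K' (c * (s + 1)) u L (x (M + 1 + j)).π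
      (x (M + 1 + j)).j ee s₁ (x (M + 1 + j)).gk (f (M + 1 + j)) A' := h1
    rw [hxT j, hfT j] at h2
    exact h2

/-- The comparisons of the charts, for closed labels `T j` of the thin windows. -/
theorem chart_out {F : Fam d J} {C : CDat F} {f : ℕ → CDat F} {n w₀ z c t j : ℕ}
    {g tn : ℕ → ℕ → ℕ} {Φ : F.Ω → ℕ → PN} {fc : ℕ → ℕ} {ω : F.Ω}
    (h : ∀ q i, 1 ≤ i → i ≤ n → ∀ b : ℕ → ℝ,
      Bxr (2 ^ q) (tus w₀ (tn (j + 1))) ((f j).Ph w₀ 1 0 ω) i b →
      |eval b ((f j).Ph w₀ 1 0 ω i) - eval b (Φ ω i)| ≤ 2 ^ (c * (t + q + 1)) / 2 ^ fc i)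
    (hΦ : ∀ i < n, cha C (tch f) n w₀ z (chv C (tch f) w₀ ω) j i = Φ ω i)
    (hfc : ∀ i, 1 ≤ i → i < n → tt w₀ g tn j i = fc i) :
    ∀ q i, 1 ≤ i → i < n → ∀ b : ℕ → ℝ,
    Bxr (2 ^ q) (tt w₀ g tn (j + 1)) (cha C (tch f) n w₀ z (chv C (tch f) w₀ ω) (j + 1)) i b →
    |eval b (cha C (tch f) n w₀ z (chv C (tch f) w₀ ω) (j + 1) i) -
      eval b (cha C (tch f) n w₀ z (chv C (tch f) w₀ ω) j i)| ≤
      2 ^ (c * (t + q + 1)) / 2 ^ tt w₀ g tn j i := by
  intro q i hi1 hi b hb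
  rw [cha_pos C f w₀ z ω hi, hΦ i hi, hfc i hi1 hi]
  refine h q i hi1 hi.le b fun l hl => ?_
  have h1 := hb l hl
  rw [cha_pos C f w₀ z ω (hl.trans hi)] at h1
  rcases Nat.eq_zero_or_pos l with rfl | hl1
  · rw [tus_zero]
    exact h1
  · rw [tus_pos _ _ hl1]
    have h2 : tt w₀ g tn (j + 1) l = tn (j + 1) l := by
      unfold tt
      rw [if_neg (by omega), if_neg (by omega)]
    rw [h2] at h1
    exact h1

/-- **The labels of the drop-out system.** -/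
theorem grd_fam (n S D : ℕ) (hS : 1 ≤ S) : ∃ (c a K' : ℕ) (L : ℝ), 1 ≤ K' ∧ 1 ≤ L ∧ 1 ≤ c ∧
    a ≤ c ∧ ∀ K m s₀ : ℕ, ∃ Cst s₁ : ℕ,
    ∀ {d J : ℕ} {F : Fam d J} (C : CDat F) (co : ℕ → Fin d) (w₀ z M R hm u s t Rr ee : ℕ)
      (g hh tn : ℕ → ℕ → ℕ) (πF : Path F) (jF : ℕ → ℕ) (xB xT : ℕ → EndD F) (A : F.Ω → Prop),
      GrIn C co n S K m D w₀ z M R a hm u s t Rr s₀ ee g hh tn πF jF xB xT A →
      (c : ℝ) * (hm + u) + Cst ≤ s → c * (s + 1) ≤ t →
      ∃ (B : CDat F) (Tc : TChn F) (A' : F.Ω → Prop), (∀ ω, A' ω → A ω) ∧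
        Pe F.p A ≤ K' ^ (M + R + 2) * Pe F.p A' ∧
        GrOut C B Tc (fun i => co (i - 1)) n K' w₀ z M (R + 1) c t Rr g hh tn A' ∧
        ∀ y : ℕ, ∀ k ≤ M, (∀ i < n, (xB k).gk i + y + 2 * t + (ee + nlp (xB k).gk 0 i) + s₁ ≤ J) →
          B.Near (fun i => co (i - 1)) n w₀ z hh k y L A' := by
  obtain ⟨c₁, a, K', L, hK', hL, hc₁, hac, hends⟩ := grd_ends n S hS
  obtain ⟨c₂, hc₂, hcr⟩ := Cl.cross n (max K' D)
  obtain ⟨c₃, hc₃, hun⟩ := Cl.uni n (max K' D)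
  refine ⟨c₁ + c₂ + c₃ + 1, a, K', L, hK', hL, by omega, by omega, fun K m s₀ => ?_⟩
  obtain ⟨Cst, s₁, hends⟩ := hends K m s₀
  refine ⟨Cst, s₁, ?_⟩
  intro d J F C co w₀ z M R hm u s t Rr ee g hh tn πF jF xB xT A H hs hst
  obtain ⟨c, hc⟩ : ∃ c, c = c₁ + c₂ + c₃ + 1 := ⟨_, rfl⟩
  rw [← hc] at hs hst ⊢
  obtain ⟨DB, DT, A', hA', hPe, hB, hT⟩ := hends co M R hm u s ee hh tn xB xT A H.inj H.ball
    (fun k hk i h1 h2 => (H.ballg k hk i h1 h2).1) H.thin
    (fun j hj i h1 h2 => (H.thing j hj i h1 h2).1) (by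
      refine le_trans (add_le_add_left (mul_le_mul_of_nonneg_right ?_ (by positivity)) _) hs
      exact_mod_cast (show c₁ ≤ c by omega))
  have hwk : ∀ k ≤ M, w₀ + k * z ≤ J := fun k hk => by
    have := H.top
    have : k * z ≤ M * z := Nat.mul_le_mul_right _ hk
    omega
  have hw0 : w₀ ≤ J := by have := H.top; omega
  have htt : c₁ * (s + 1) ≤ t := (Nat.mul_le_mul_right _ (by omega)).trans hst
  -- the closed labels
  have clF : ∀ k ≤ M, Cl πF n (max K' D) (jF k) (w₀ + k * z) u t (g k)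
      (fun ω => C.Ph w₀ z k ω) A' := fun k hk =>
    { a_eq := H.fa k hk
      ok := H.fok
      wJ := hwk k hk
      self := (H.FF k hk).2.sub hA'
      vars := fun ω => Ph_vars fun v i h1 h2 => H.ftri k hk v i h1 h2
      deg := fun ω i hi => (Ph_deg (fun v i h1 h2 => H.fdeg k hk v i h1 h2) i hi).trans
        (le_max_right _ _)
      zero := fun ω => Ph_zero C w₀ z k ω
      er := fun ω hω => H.fer k hk ω (hA' ω hω)
      lo := fun l h1 h2 => (H.fg k hk l h1 h2).1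
      hi := fun l h1 h2 => (H.fg k hk l h1 h2).2 }
  have clB : ∀ k ≤ M, Cl (xB k).π n (max K' D) (xB k).j (w₀ + k * z) u t (hh k)
      (fun ω => (glu DB).Ph w₀ z k ω) A' := fun k hk =>
    (hB k hk).cl (H.ball k hk).okk (H.balla k hk) (hwk k hk) ((H.BB k hk).sub hA')
      (le_max_left _ _) htt fun l h1 h2 => by
        have := H.ballg k hk l h1 h2
        omega
  obtain ⟨DT', hDT'⟩ : ∃ DT' : ℕ → CDat F, DT' = fun j => DT (min j R) := ⟨_, rfl⟩
  have hT' : ∀ j ≤ R, DT' j = DT j := fun j hj => by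
    rw [hDT']
    exact congrArg DT (min_eq_left hj)
  have clT : ∀ j ≤ R, Cl (xT j).π n (max K' D) (xT j).j w₀ u t (tn (j + 1))
      (fun ω => (DT' j).Ph w₀ 1 0 ω) A' := fun j hj => by
    rw [hT' j hj]
    exact (hT j hj).cl (H.thin j hj).okk (H.thina j hj) hw0 ((H.TS j hj).sub hA')
      (le_max_left _ _) htt fun l h1 h2 => by
        have := H.thing j hj l h1 h2
        omega
  have hc2 : ∀ q v, (2 : ℝ) ^ (c₂ * (t + q + 1)) / 2 ^ (v : ℕ) ≤
      2 ^ (c * (t + q + 1)) / 2 ^ v := fun q v =>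
    div_le_div_of_nonneg_right (pow_le_pow_right₀ (by norm_num)
      (Nat.mul_le_mul_right _ (by omega))) (by positivity)
  have hc3 : ∀ q v, (2 : ℝ) ^ (c₃ * (t + Rr + q + 1)) / 2 ^ (v : ℕ) ≤
      2 ^ (c * (t + Rr + q + 1)) / 2 ^ v := fun q v =>
    div_le_div_of_nonneg_right (pow_le_pow_right₀ (by norm_num)
      (Nat.mul_le_mul_right _ (by omega))) (by positivity)
  refine ⟨glu DB, tch DT', A', hA', hPe, ?_, fun y k hk hy => ?_⟩
  · refine
      { Bdeg := fun k hk v i h1 h2 => (hB k hk).deg v i h1 h2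
        Btri := fun k hk v i h1 h2 => (hB k hk).tri v i h1 h2
        Bcls := fun k hk ω hω => ?_
        Bpos := fun k hk ω hω i h1 h2 => ?_
        Tcls := fun ω hω => ?_
        Tdeg := fun v j h1 hj i hi1 hi => ?_
        Ttri := fun v j h1 hj i hi1 hi => ?_
        uni := fun k hk ω hω q i hi1 hi b hb => ?_
        uniB := fun k hk ω hω q i hi1 hi b hb => ?_
        chart := fun j hj ω hω => ?_
        chartB := fun k hk ω hω q i hi1 hi b hb => ?_ }
    · have h1 := (hB k hk).cls ω hω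
      rw [H.balla k hk] at h1
      exact h1
    · have h3 := (hB k hk).pos ω hω i h1 h2
      rw [H.balla k hk] at h3
      exact h3
    · funext j
      have h1 : ∀ j ≤ R, (DT j).pt 0 (ptr F J ω) = (DT j).li 0 (slam F w₀ ω) := fun j hj => by
        have h1 := (hT j hj).cls ω hω
        rw [H.thina j hj] at h1
        exact h1
      show (DT' j).pt 0 (ptr F J ω) = (DT' j).li 0 (slam F w₀ ω)
      rw [hDT']
      exact h1 _ (min_le_right _ _)
    · show ((DT' (j - 1)).G 0 (v (j - 1)) i).totalDegree ≤ K'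
      have h3 : ∀ w : (DT' (j - 1)).V 0, ((DT' (j - 1)).G 0 w i).totalDegree ≤ K' := by
        rw [hT' _ (by omega)]
        exact fun w => (hT (j - 1) (by omega)).deg w i hi1 hi
      exact h3 _
    · show ((DT' (j - 1)).G 0 (v (j - 1)) i).vars ⊆ range i
      have h3 : ∀ w : (DT' (j - 1)).V 0, ((DT' (j - 1)).G 0 w i).vars ⊆ range i := by
        rw [hT' _ (by omega)]
        exact fun w => (hT (j - 1) (by omega)).tri w i hi1 hi
      exact h3 _
    · rw [g0_tus] at hb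
      exact (hun (clF 0 (Nat.zero_le _)) (clF k hk) ((H.FF k hk).1.sub hA')
        (fun l h1 h2 => H.ratio k hk l h1 h2) (by
          have := H.ratio0
          have : k * z ≤ M * z := Nat.mul_le_mul_right _ hk
          omega) ω hω q i hi1 hi b hb).trans (hc3 q _)
    · rw [g0_tus] at hb
      rw [abs_sub_comm]
      exact (hcr (clF k hk) (clB k hk) ((H.FB k hk).sub hA') ω hω q i hi1 hi b hb).trans
        (hc2 q _)
    · rcases Nat.eq_zero_or_pos j with rfl | hj1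
      · refine chart_out (Φ := fun ω => C.Ph w₀ z 0 ω) (fc := g 0)
          (fun q i hi1 hi b hb => ?_) (fun i hi => cha_zero C _ w₀ z ω hi)
          (fun i hi1 _ => by unfold tt; rw [if_neg (by omega), if_pos rfl])
        exact (hcr (clF 0 (Nat.zero_le _)) (clT 0 (Nat.zero_le _)) (H.FT.sub hA') ω hω q i hi1
          hi b hb).trans (hc2 q _)
      · obtain ⟨j, rfl⟩ : ∃ j', j = j' + 1 := ⟨j - 1, by omega⟩
        refine chart_out (Φ := fun ω => (DT' j).Ph w₀ 1 0 ω) (fc := tn (j + 1))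
          (fun q i hi1 hi b hb => ?_) (fun i hi => cha_pos C DT' w₀ z ω hi)
          (fun i hi1 _ => by unfold tt; rw [if_neg (by omega), if_neg (by omega)])
        exact (hcr (clT j (by omega)) (clT (j + 1) (by omega)) ((H.TT j (by omega)).sub hA') ω hω
          q i hi1 hi b hb).trans (hc2 q _)
    · rw [g0_tus] at hb
      have h1 : tt w₀ g tn (R + 1) i = tn (R + 1) i := by
        unfold tt
        rw [if_neg (by omega), if_neg (by omega)]
      rw [cha_pos C DT' w₀ z ω hi, h1]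
      exact (hcr (clT R le_rfl) (clB k hk) ((H.TB k hk).sub hA') ω hω q i hi1 hi.le b hb).trans
        (hc2 q _)
  · have h3 := (hB k hk).near y fun i hi => by
      have := hy i hi
      omega
    rw [H.balla k hk] at h3
    exact glu_near h3

end Pool.STAT.GRD
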