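import Pool.Agent.H82.STAT.Grj

/-!
# The drop-out system from one poset of chains

`Idx`: the index paths (fat, balls, thin windows) in a finite poset of levels. `grin_mch`: the input
of `grd_hyp`. `grd_mch`: everything of `DPP.Hyp` from one poset of chains, the fat labels included.
-/

set_option autoImplicit false

namespace Pool.STAT.GRD

open Finset MvPolynomial
open Pool.Agent.H49.Ent Pool.Agent.H32.Dense Pool.STK Pool.KS3 Pool.KA Pool.KSAT Pool.PB Pool.GEN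
open Pool.STAT.CLO Pool.STAT.CDat Pool.TRC Pool.STAT.DPP Pool.K2S

/-- **The index paths**: fat labels `idF` (levels `0..NF`, ends `jk k`), balls `idB` (levels `0..NB`,
ends `jb k`), thin windows `idT j` (levels `0..NT j`, the last one is the end). -/
structure Idx : Type where
  NF : ℕ
  NB : ℕ
  NT : ℕ → ℕ
  jk : ℕ → ℕ
  jb : ℕ → ℕ
  idF : ℕ → ℕ
  idB : ℕ → ℕ
  idT : ℕ → ℕ → ℕ

/-- The conditions for the index paths. -/
structure Idx.Ok (I : Idx) (Np : ℕ) (R : ℕ → ℕ → Prop) (al : ℕ → ℕ) (a₀ h w₀ z M Rd : ℕ) :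
    Prop where
  refl : ∀ k < Np, R k k
  trans : ∀ k < Np, ∀ k' < Np, ∀ k'' < Np, R k k' → R k' k'' → R k k''
  F : Pix Np (I.NF + 1) R al a₀ h I.idF
  B : Pix Np (I.NB + 1) R al a₀ h I.idB
  T : ∀ j ≤ Rd, Pix Np (I.NT j + 1) R al a₀ h (I.idT j)
  jk_le : ∀ k ≤ M, I.jk 0 ≤ I.jk k ∧ I.jk k ≤ I.NF
  jk_M : I.jk M = I.NF
  jb_le : ∀ k ≤ M, I.jb k ≤ I.NB
  aF : ∀ k ≤ M, al (I.idF (I.jk k)) = w₀ + k * z
  aB : ∀ k ≤ M, al (I.idB (I.jb k)) = w₀ + k * z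
  aT : ∀ j ≤ Rd, al (I.idT j (I.NT j)) = w₀
  FB : ∀ k ≤ M, R (I.idF (I.jk k)) (I.idB (I.jb k))
  FT : R (I.idF (I.jk 0)) (I.idT 0 (I.NT 0))
  TT : ∀ j < Rd, R (I.idT j (I.NT j)) (I.idT (j + 1) (I.NT (j + 1)))
  TB : ∀ k ≤ M, R (I.idT Rd (I.NT Rd)) (I.idB (I.jb k))

/-- The levels of a path are below its end. -/
theorem Idx.Ok.up {I : Idx} {Np : ℕ} {R : ℕ → ℕ → Prop} {al : ℕ → ℕ} {a₀ h w₀ z M Rd : ℕ}
    (hI : I.Ok Np R al a₀ h w₀ z M Rd) {N : ℕ} {idx : ℕ → ℕ} (P : Pix Np N R al a₀ h idx) {k j : ℕ}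
    (hk : k ≤ j) (hj : j < N) : R (idx k) (idx j) := by
  rcases Nat.lt_or_ge k j with h1 | h1
  · exact P.R j hj k h1
  · obtain rfl : k = j := by omega
    exact hI.refl _ (P.lt _ hj)

theorem Idx.Ok.up' {I : Idx} {Np : ℕ} {R : ℕ → ℕ → Prop} {al : ℕ → ℕ} {a₀ h w₀ z M Rd : ℕ}
    (hI : I.Ok Np R al a₀ h w₀ z M Rd) {N : ℕ} {idx : ℕ → ℕ} (P : Pix Np N R al a₀ h idx) {j x : ℕ}
    (hj : j < N) (hx : x < Np) (hR : R (idx j) x) : ∀ k ≤ j, R (idx k) x := fun k hk =>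
  hI.trans _ (P.lt _ (by omega)) _ (P.lt _ hj) _ hx (hI.up P hk hj) hR

/-- **The slopes** at the closing levels. -/
structure Idx.Slps (I : Idx) (n S u a₀ M Rd : ℕ) (al : ℕ → ℕ) (gr : ℕ → ℕ → ℕ) : Prop where
  F : ∀ k ≤ M, TRC.Slp n S (shl a₀ fun k => al (I.idF k)) (jg fun k => gr (I.idF k)) u (I.jk k + 1)
  B : ∀ k ≤ M, TRC.Slp n S (shl a₀ fun k => al (I.idB k)) (jg fun k => gr (I.idB k)) u (I.jb k + 1)
  T : ∀ j ≤ Rd, TRC.Slp n S (shl a₀ fun k => al (I.idT j k)) (jg fun k => gr (I.idT j k)) u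
    (I.NT j + 1)

/-- **The final numbers** against the raw ones. -/
structure Idx.Fins (I : Idx) (n M Rd x t : ℕ) (gr g hh tn : ℕ → ℕ → ℕ) : Prop where
  F : ∀ k ≤ M, ∀ i, 1 ≤ i → i ≤ n → g k i + x ≤ gr (I.idF (I.jk k)) (i - 1) ∧
    gr (I.idF (I.jk k)) (i - 1) ≤ g k i + t
  B : ∀ k ≤ M, ∀ i, 1 ≤ i → i ≤ n → hh k i + x ≤ gr (I.idB (I.jb k)) (i - 1) ∧
    gr (I.idB (I.jb k)) (i - 1) ≤ hh k i + t
  T : ∀ j ≤ Rd, ∀ i, 1 ≤ i → i ≤ n → tn (j + 1) i + x ≤ gr (I.idT j (I.NT j)) (i - 1) ∧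
    gr (I.idT j (I.NT j)) (i - 1) ≤ tn (j + 1) i + t

variable {d J : ℕ}

/-- The path of a path of indices. -/
noncomputable abbrev pthI (F : Fam d J) (co : ℕ → Fin d) (n N a₀ : ℕ) (al : ℕ → ℕ)
    (gr : ℕ → ℕ → ℕ) (G : ℕ → PtT F → ℕ → MvPolynomial (Option (Fin d)) ℝ) (id : ℕ → ℕ) : Path F :=
  pth F co n N a₀ (fun k => al (id k)) (fun k => gr (id k)) (fun k => G (id k))

/-- The end `k` of a path of indices. -/
noncomputable abbrev enddI (F : Fam d J) (co : ℕ → Fin d) (n N a₀ wz : ℕ) (al om : ℕ → ℕ)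
    (gr : ℕ → ℕ → ℕ) (G : ℕ → PtT F → ℕ → MvPolynomial (Option (Fin d)) ℝ)
    (H : ℕ → LnT F → ℕ → MvPolynomial (Option (Fin d)) ℝ) (id : ℕ → ℕ) (k : ℕ) : EndD F :=
  endd F co n N a₀ wz (fun k => al (id k)) (fun k => om (id k)) (fun k => gr (id k))
    (fun k => G (id k)) (fun k => H (id k)) k

/-- **The input of `grd_hyp`** from one poset of chains and the fat labels. -/
theorem grin_mch (n K : ℕ) : ∃ s₀ s₁ : ℕ, 1 ≤ s₀ ∧ ∀ {d J : ℕ} {F : Fam d J} {co : ℕ → Fin d}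
    {Np : ℕ} {R : ℕ → ℕ → Prop} {al om : ℕ → ℕ} {ee : ℕ} {gr : ℕ → ℕ → ℕ} {δ : ℕ → ℕ}
    {A : F.Ω → Prop} {G : ℕ → PtT F → ℕ → MvPolynomial (Option (Fin d)) ℝ}
    {H : ℕ → LnT F → ℕ → MvPolynomial (Option (Fin d)) ℝ} {u₀ u a₀ wz h : ℕ} {C : CDat F}
    {I : Idx} {S m D w₀ z M Rd a s t x Rr : ℕ} {g hh tn : ℕ → ℕ → ℕ},
    Pool.CHT.MCh F co n (fun _ => K) Np R al om ee gr δ A G H → Inj co n →
    PosN n Np J R al om gr a₀ wz u → (∀ l < n, δ l ≤ u₀) → u₀ + s₁ ≤ u →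
    I.Ok Np R al a₀ h w₀ z M Rd → I.Slps n S u a₀ M Rd al gr → I.NB + 1 ≤ m →
    (∀ j ≤ Rd, I.NT j + 1 ≤ m) → w₀ + M * z ≤ J →
    (∀ k ≤ M, ∀ v, ∀ i, 1 ≤ i → i ≤ n → (C.G k v i).totalDegree ≤ D) →
    (∀ k ≤ M, ∀ v, ∀ i, 1 ≤ i → i ≤ n → (C.G k v i).vars ⊆ range i) →
    (∀ k ≤ M, ∀ ω, A ω → (pthI F co n (I.NF + 1) a₀ al gr G I.idF).Er n (I.jk k + 1) u t (g k) ω
      (C.Ph w₀ z k ω)) →
    I.Fins n M Rd x t gr g hh tn → a * (s + 1) ≤ x →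
    (∀ k ≤ M, ∀ i, 1 ≤ i → i ≤ n → g k i ≤ g 0 i + Rr) → M * z ≤ Rr →
    GrIn C co n S K m D w₀ z M Rd a h u s t Rr s₀ ee g hh tn
      (pthI F co n (I.NF + 1) a₀ al gr G I.idF) (fun k => I.jk k + 1)
      (fun k => enddI F co n (I.NB + 1) a₀ wz al om gr G H I.idB (I.jb k))
      (fun j => enddI F co n (I.NT j + 1) a₀ wz al om gr G H (I.idT j) (I.NT j)) A := by
  obtain ⟨s₀, hs₀, hend⟩ := endd_in n K
  obtain ⟨s₂, hs₂, hfnr⟩ := fnr_pth n K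
  refine ⟨s₀, max s₀ s₂, hs₀, ?_⟩
  intro d J F co Np R al om ee gr δ A G H u₀ u a₀ wz h C I S m D w₀ z M Rd a s t x Rr g hh tn hM
    hinj P hδ hu hI hS hNB hNT hMJ hdeg htri her hf hax hRr hRr0
  have hu1 : u₀ + s₀ ≤ u := (Nat.add_le_add_left (le_max_left _ _) _).trans hu
  have hu2 : u₀ + s₂ ≤ u := (Nat.add_le_add_left (le_max_right _ _) _).trans hu
  -- the comparisons
  have hF : ∀ {N N' j j' : ℕ} {idx idx' : ℕ → ℕ}, Pix Np N R al a₀ h idx →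
      Pix Np N' R al a₀ h idx' → j < N → j' < N' → R (idx j) (idx' j') →
      Fnr (pthI F co n N a₀ al gr G idx) (pthI F co n N' a₀ al gr G idx') n u (j + 1) (j' + 1)
        A := fun {N N' j j' idx idx'} p1 p2 hj hj' hR =>
    hfnr hM hinj P hδ hu2 idx idx' N N' j j' hj hj' (fun k hk => p1.lt k (by omega))
      (p2.lt j' hj') (fun k' hk' k hk => p1.R k' (by omega) k hk)
      (hI.up' p1 hj (p2.lt j' hj') hR)
  -- the ends
  have hE : ∀ {N j : ℕ} {idx : ℕ → ℕ}, Pix Np N R al a₀ h idx → N ≤ m → j < N →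
      TRC.Slp n S (shl a₀ fun k => al (idx k)) (jg fun k => gr (idx k)) u (j + 1) →
      (enddI F co n N a₀ wz al om gr G H idx j).In co n S K m h u s₀ ee A :=
    fun {N j idx} p1 hN hj hs =>
      hend (jat_of_mch hM p1.lt p1.R hδ) hinj (P.path p1) hu1 hN j hj hs
  have jgs : ∀ (idx : ℕ → ℕ) (k i : ℕ), 1 ≤ i →
      jg (fun k => gr (idx k)) (k + 1) i = gr (idx k) (i - 1) := fun idx k i hi => by
    show gr (idx k) (i - 1) = _
    rfl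
  exact
    { inj := hinj
      top := hMJ
      fdeg := hdeg
      ftri := htri
      fok := by
        obtain ⟨h1, h2⟩ := hI.jk_le 0 (Nat.zero_le _)
        exact (hend (jat_of_mch hM hI.F.lt hI.F.R hδ) hinj (P.path hI.F) hu1
          (le_refl (I.NF + 1)) (I.jk 0) (by omega) (hS.F 0 (Nat.zero_le _))).okk
      fer := her
      fa := fun k hk => hI.aF k hk
      fg := fun k hk i h1 h2 => by
        have := hf.F k hk i h1 h2
        show g k i ≤ jg (fun k => gr (I.idF k)) (I.jk k + 1) i ∧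
          jg (fun k => gr (I.idF k)) (I.jk k + 1) i ≤ g k i + t
        rw [jgs _ _ _ h1]
        omega
      ball := fun k hk => hE hI.B hNB (by have := hI.jb_le k hk; omega) (hS.B k hk)
      balla := fun k hk => hI.aB k hk
      ballg := fun k hk i h1 h2 => by
        have := hf.B k hk i h1 h2
        show hh k i + a * (s + 1) ≤ jg (fun k => gr (I.idB k)) (I.jb k + 1) i ∧
          jg (fun k => gr (I.idB k)) (I.jb k + 1) i ≤ hh k i + t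
        rw [jgs _ _ _ h1]
        omega
      thin := fun j hj => hE (hI.T j hj) (hNT j hj) (by omega) (hS.T j hj)
      thina := fun j hj => hI.aT j hj
      thing := fun j hj i h1 h2 => by
        have := hf.T j hj i h1 h2
        show tn (j + 1) i + a * (s + 1) ≤ jg (fun k => gr (I.idT j k)) (I.NT j + 1) i ∧
          jg (fun k => gr (I.idT j k)) (I.NT j + 1) i ≤ tn (j + 1) i + t
        rw [jgs _ _ _ h1]
        omega
      FF := fun k hk => by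
        obtain ⟨h1, h2⟩ := hI.jk_le k hk
        exact ⟨hF hI.F hI.F (by omega) (by omega) (hI.up hI.F h1 (by omega)),
          hF hI.F hI.F (by omega) (by omega) (hI.up hI.F le_rfl (by omega))⟩
      FB := fun k hk => by
        obtain ⟨h1, h2⟩ := hI.jk_le k hk
        have h3 := hI.jb_le k hk
        exact hF hI.F hI.B (by omega) (by omega) (hI.FB k hk)
      BB := fun k hk => by
        have h3 := hI.jb_le k hk
        exact hF hI.B hI.B (by omega) (by omega) (hI.up hI.B le_rfl (by omega))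
      FT := by
        obtain ⟨h1, h2⟩ := hI.jk_le 0 (Nat.zero_le _)
        exact hF hI.F (hI.T 0 (Nat.zero_le _)) (by omega) (by omega) hI.FT
      TT := fun j hj => hF (hI.T j (by omega)) (hI.T (j + 1) (by omega)) (by omega) (by omega)
        (hI.TT j hj)
      TS := fun j hj => hF (hI.T j hj) (hI.T j hj) (by omega) (by omega)
        (hI.up (hI.T j hj) le_rfl (by omega))
      TB := fun k hk => by
        have h3 := hI.jb_le k hk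
        exact hF (hI.T Rd le_rfl) hI.B (by omega) (by omega) (hI.TB k hk)
      ratio := hRr
      ratio0 := hRr0 }

/-- The strong form of the error, from the error for all points near the path. -/
theorem er_of_inb {F : Fam d J} {co : ℕ → Fin d} {n N a₀ : ℕ} {al : ℕ → ℕ} {gr : ℕ → ℕ → ℕ}
    {G : ℕ → PtT F → ℕ → MvPolynomial (Option (Fin d)) ℝ} {idx : ℕ → ℕ} {u s t x k w₀ z jk : ℕ}
    {g : ℕ → ℕ} {ω : F.Ω} {Φ : ℕ → PN} (ha : al (idx jk) = w₀ + k * z)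
    (hg : ∀ i, 1 ≤ i → i ≤ n → g i ≤ gr (idx jk) (i - 1)) (hx : x ≤ t)
    (h : ∀ i, 1 ≤ i → i ≤ n → ∀ b : ℕ → ℝ,
      InB F (shl a₀ fun k => al (idx k)) (jg fun k => gr (idx k)) u (jk + 1) ω
        (fun k' => jG F co n N a₀ (fun k => al (idx k)) (fun k => G (idx k)) k' (ptr F J ω)) i b →
      |b 0 - (F.T1 (w₀ + k * z) ω : ℝ) / 2 ^ (w₀ + k * z)| ≤ 2 ^ s / 2 ^ (w₀ + k * z) →
      |b i - eval b (Φ i)| ≤ 2 ^ x / 2 ^ gr (idx jk) (i - 1)) :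
    (pthI F co n N a₀ al gr G idx).Er n (jk + 1) u t g ω Φ := by
  intro i h1 h2 b hb0 hb
  have hb0' : |b 0 - (F.T1 (al (idx jk)) ω : ℝ) / 2 ^ al (idx jk)| ≤ 1 / 2 ^ al (idx jk) := hb0
  have h3 := h i h1 h2 b ⟨hb0, hb⟩ (by
    rw [ha] at hb0'
    exact hb0'.trans (div_le_div_of_nonneg_right (one_le_pow₀ (by norm_num)) (by positivity)))
  refine h3.trans (div_le_div₀ (by positivity) (pow_le_pow_right₀ (by norm_num) hx)
    (by positivity) (pow_le_pow_right₀ (by norm_num) (hg i h1 h2)))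

/-- **The drop-out system from one poset of chains.** -/
theorem grd_mch (n S Rd : ℕ) (hS : 1 ≤ S) : ∃ (c Kst K' KH c' : ℕ) (L C₀ T₀ : ℝ), 1 ≤ Kst ∧
    1 ≤ K' ∧ 1 ≤ L ∧ 1 ≤ c ∧ 1 ≤ C₀ ∧ 2 ≤ T₀ ∧ ∀ K NF m : ℕ, ∃ Cst : ℕ,
    ∀ {d J : ℕ} {F : Fam d J} {co : ℕ → Fin d} {p : ℕ → Prop} {Np : ℕ} {R : ℕ → ℕ → Prop}
      {al om bb : ℕ → ℕ} {ee : ℕ} {gr : ℕ → ℕ → ℕ} {δ : ℕ → ℕ} {A : F.Ω → Prop}
      {G : ℕ → PtT F → ℕ → MvPolynomial (Option (Fin d)) ℝ}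
      {H : ℕ → LnT F → ℕ → MvPolynomial (Option (Fin d)) ℝ} {u₀ u a₀ wz h w₀ z M s t Rr v gn : ℕ}
      {U : Finset ℕ} {I : Idx} {g hh tn : ℕ → ℕ → ℕ} {e₀ C₁ Sr Q : ℝ} (hA : 0 < Pe F.p A),
      Pool.CHT.MCh F co n (fun _ => K) Np R al om ee gr δ A G H → Inj co n →
      PosN n Np J R al om gr a₀ wz u → (∀ l < n, δ l ≤ u₀) → u₀ + Cst ≤ u →
      I.Ok Np R al a₀ h w₀ z M Rd → I.Slps n S u a₀ M Rd al gr → I.NF = NF → I.NB + 1 ≤ m →
      (∀ j ≤ Rd, I.NT j + 1 ≤ m) → 1 ≤ z →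
      Tms n S (NF + 1) bb (wtop (NF + 1) w₀ (shl wz fun k => om (I.idF k)))
        (jg fun k => gr (I.idF k)) h u → om (I.idF NF) ≤ w₀ →
      (∀ k ≤ NF, ∀ l < n, Cst ≤ gr (I.idF k) l) → 0 ≤ e₀ → (Pool.FLF.Fam.sub F A hA).Tm e₀ →
      Cst * (e₀ + 1) ≤ (J - om (I.idF NF) : ℕ) → (c : ℝ) * (h + u) + Cst * (e₀ + 1) ≤ s →
      I.Fins n M Rd (c * (s + 1)) t gr g hh tn → c * (s + 1) ≤ t →
      Nms p n w₀ z M Rd J Rr v gn U g hh tn →
      2 ^ (c * (s + t + 1)) ≤ Real.exp (C₁ * z) → T₀ ≤ Sr → 2 ^ (c * (t + 1)) ≤ Sr →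
      2 ^ (c * (t + Rr + 1)) ≤ Q →
      Real.exp (C₀ * (((c * (t + 1) + v : ℕ) : ℝ) * Real.log 2 + 1)) ≤ Q →
      ∃ (C B : CDat F) (T : TDat F) (A' : F.Ω → Prop), (∀ ω, A' ω → A ω) ∧
        Pe F.p A ≤ 2 * Kst ^ (M + 1) * K' ^ (M + Rd + 2) * Pe F.p A' ∧
        (∀ k, C.HasZ w₀ z k) ∧
        Hyp C B T p (fun i => co (i - 1)) n KH w₀ z M g hh C₁ Sr Q
          (Sr ^ c' * Real.exp (C₀ * (((c * (t + 1) + v : ℕ) : ℝ) * Real.log 2 + 1) -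
            (gn : ℝ) * Real.log 2)) A' ∧
        (∀ k ≤ M, ∀ y : ℕ, (∀ i < n, gr (I.idF (I.jk k)) i + y + c * (s + 1) +
            (ee + nlp (gr (I.idF (I.jk k))) 0 i) + Cst ≤ J) →
          C.Near (fun i => co (i - 1)) n w₀ z g k y L A') ∧
        (∀ k ≤ M, ∀ y : ℕ, (∀ i < n, gr (I.idB (I.jb k)) i + y + 2 * t +
            (ee + nlp (gr (I.idB (I.jb k))) 0 i) + Cst ≤ J) →
          B.Near (fun i => co (i - 1)) n w₀ z hh k y L A') ∧
        ∀ k ≤ M, ∀ ω, A' ω → (pthI F co n (I.NF + 1) a₀ al gr G I.idF).Er n (I.jk k + 1) u t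
          (g k) ω (C.Ph w₀ z k ω) := by
  obtain ⟨Kst, c₁, L₁, hKst, hL₁, hlab⟩ := lab_jat n S hS
  obtain ⟨c₂, a, K', KH, c', L₂, C₀, T₀, hK', hL₂, hc₂, hac, hC₀, hT₀, hgrd⟩ :=
    grd_hyp n S Kst Rd hS
  refine ⟨c₁ + c₂, Kst, K', KH, c', max L₁ L₂, C₀, T₀, hKst, hK', hL₁.trans (le_max_left _ _),
    by omega, hC₀, hT₀, fun K NF m => ?_⟩
  obtain ⟨Ca, hlab⟩ := hlab K NF
  obtain ⟨s₀, s₁, hs₀, hgrin⟩ := grin_mch n K
  obtain ⟨Cb, s₂, hgrd⟩ := hgrd K m s₀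
  refine ⟨Ca + s₁ + Cb + s₂, ?_⟩
  intro d J F co p Np R al om bb ee gr δ A G H u₀ u a₀ wz h w₀ z M s t Rr v gn U I g hh tn e₀ C₁ Sr
    Q hA hM hinj P hδ hu hI hSl hNF hNB hNT hz hTms hom hg he₀ hTm hJ hs hf hst hN hC₁ hT₀S hcS
    hcQ hCQ
  obtain ⟨NF', NB, NT, jk, jb, idF, idB, idT⟩ := I
  obtain rfl : NF' = NF := hNF
  obtain ⟨Cst, hCst⟩ : ∃ Cst, Cst = Ca + s₁ + Cb + s₂ := ⟨_, rfl⟩
  rw [← hCst] at hu hg hJ hs ⊢
  have h2 : ∀ {a b : ℕ}, a ≤ b → (2 : ℝ) ^ a ≤ 2 ^ b := fun h =>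
    pow_le_pow_right₀ (by norm_num) h
  have hMJ : w₀ + M * z ≤ J := by
    have := hN.top
    have : M * z ≤ (M + 1) * z := Nat.mul_le_mul_right _ (by omega)
    omega
  have he1 : (0 : ℝ) ≤ e₀ + 1 := by linarith
  have hCa : (Ca : ℝ) * (e₀ + 1) ≤ Cst * (e₀ + 1) := mul_le_mul_of_nonneg_right
    (by rw [hCst]; exact_mod_cast (show Ca ≤ Ca + s₁ + Cb + s₂ by omega)) he1
  have hCb : (Cb : ℝ) ≤ Cst * (e₀ + 1) := by
    have e1 : (Cb : ℝ) ≤ Cst := by rw [hCst]; exact_mod_cast (show Cb ≤ Ca + s₁ + Cb + s₂ by omega)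
    have e2 : (0 : ℝ) ≤ Cst := Nat.cast_nonneg _
    nlinarith
  have hhu : (0 : ℝ) ≤ h + u := by positivity
  have hcc : ((c₁ + c₂ : ℕ) : ℝ) * (h + u) = c₁ * (h + u) + c₂ * (h + u) := by
    push_cast
    ring
  rw [hcc] at hs
  have hs1 : (c₁ : ℝ) * (h + u) + Ca * (e₀ + 1) ≤ s := by
    have : (0 : ℝ) ≤ c₂ * (h + u) := by positivity
    linarith
  have hs2 : (c₂ : ℝ) * (h + u) + Cb ≤ s := by
    have : (0 : ℝ) ≤ c₁ * (h + u) := by positivity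
    linarith
  -- the fat labels
  obtain ⟨Cd, Bv, hBA, hPe1, hHZ, hCnd, hNear, her⟩ := hlab d J F co w₀ z M
    (fun k => al (idF k)) (fun k => om (idF k)) bb ee (fun k => gr (idF k)) g u₀ h u a₀ wz t s jk A
    (fun k => G (idF k)) (fun k => H (idF k)) e₀ hA (jat_of_mch hM hI.F.lt hI.F.R hδ) hinj
    (P.path hI.F) (by omega) (fun k hk => ⟨(hI.jk_le k hk).2, (hI.aF k hk).le, hSl.F k hk⟩)
    hI.jk_M hMJ hz hTms hom (by
      have h3 := hI.aF M le_rfl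
      have h4 : jk M = NF' := hI.jk_M
      have h5 : al (idF (jk M)) = w₀ + M * z := h3
      rw [h4] at h5
      show w₀ ≤ al (idF NF')
      omega) (fun k hk l hl => le_trans (by omega) (hg k hk l hl)) he₀ hTm (hCa.trans hJ) hs1
    (fun k hk i h3 h4 => by
      have h5 := hf.F k hk i h3 h4
      have h6 : c₁ * (s + 1) ≤ (c₁ + c₂) * (s + 1) := Nat.mul_le_mul_right _ (by omega)
      have h7 : g k i + (c₁ + c₂) * (s + 1) ≤ gr (idF (jk k)) (i - 1) ∧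
        gr (idF (jk k)) (i - 1) ≤ g k i + t := h5
      show g k i + c₁ * (s + 1) ≤ gr (idF (jk k)) (i - 1) ∧ gr (idF (jk k)) (i - 1) ≤ g k i + t
      omega)
  have hCd : Cd.Cnd (fun i => co (i - 1)) n Kst w₀ z M g C₁ Bv := hCnd C₁ (by
    refine le_trans (h2 ?_) hC₁
    exact Nat.mul_le_mul_right _ (by omega))
  have hM' := hM.sub (B' := Bv) hBA
  have hEr : ∀ k ≤ M, ∀ ω, Bv ω → (pthI F co n (NF' + 1) a₀ al gr G idF).Er n (jk k + 1) u t (g k)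
      ω (Cd.Ph w₀ z k ω) := fun k hk ω hω =>
    er_of_inb (hI.aF k hk) (fun i h3 h4 => by
      have h5 : g k i + (c₁ + c₂) * (s + 1) ≤ gr (idF (jk k)) (i - 1) := (hf.F k hk i h3 h4).1
      omega) (x := c₁ * (s + 1)) (by
      have h6 : c₁ * (s + 1) ≤ (c₁ + c₂) * (s + 1) := Nat.mul_le_mul_right _ (by omega)
      omega) (her k hk ω hω)
  have hGI := hgrin (C := Cd) (a := a) (s := s) (t := t) (D := Kst) (S := S) (m := m) (Rr := Rr)
    hM' hinj P hδ (by omega) hI hSl hNB hNT hMJ hCd.deg hCd.tri hEr hf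
    (Nat.mul_le_mul_right _ (by omega)) hN.ratio (by
      have := hN.ratio0
      have : M * z ≤ (M + 1) * z := Nat.mul_le_mul_right _ (by omega)
      omega)
  have hN' : Nms p n w₀ z M Rd J Rr (v + c₁ * (t + 1)) gn U g hh tn :=
    { hN with
      st := fun j hj i h3 h4 hp => by
        have := hN.st j hj i h3 h4 hp
        omega }
  have hev : c₂ * (t + 1) + (v + c₁ * (t + 1)) = (c₁ + c₂) * (t + 1) + v := by ring
  obtain ⟨B, T, A', hA', hPe2, hH, hNB'⟩ := hgrd Cd co p w₀ z M h u s t Rr ee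
    (v + c₁ * (t + 1)) gn U g hh tn _ _ _ _ Bv C₁ Sr Q hGI hN' hCd hs2
    (le_trans (Nat.mul_le_mul_right _ (by omega)) hst) hT₀S
    (le_trans (h2 (Nat.mul_le_mul_right _ (by omega))) hcS)
    (le_trans (h2 (Nat.mul_le_mul_right _ (by omega))) hcQ) (by rw [hev]; exact hCQ)
  rw [hev] at hH
  refine ⟨Cd, B, T, A', fun ω hω => hBA ω (hA' ω hω), ?_, hHZ, hH, fun k hk y hy => ?_,
    fun k hk y hy => ?_, fun k hk ω hω => hEr k hk ω (hA' ω hω)⟩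
  · refine hPe1.trans ?_
    have h3 : 2 * (Kst : ℝ) ^ (M + 1) * Pe F.p Bv ≤
        2 * (Kst : ℝ) ^ (M + 1) * (K' ^ (M + Rd + 2) * Pe F.p A') :=
      mul_le_mul_of_nonneg_left hPe2 (by positivity)
    rw [mul_assoc (2 * (Kst : ℝ) ^ (M + 1))]
    exact h3
  · refine ((hNear k hk y fun i hi => ?_).mono le_rfl le_rfl
      (by linarith [le_max_left L₁ L₂]) (le_max_left _ _)).sub hA'
    have h3 := hy i hi
    have h6 : c₁ * (s + 1) ≤ (c₁ + c₂) * (s + 1) := Nat.mul_le_mul_right _ (by omega)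
    show gr (idF (jk k)) i + y + c₁ * (s + 1) + (ee + nlp (gr (idF (jk k))) 0 i) + Ca ≤ J
    have h7 : gr (idF (jk k)) i + y + (c₁ + c₂) * (s + 1) + (ee + nlp (gr (idF (jk k))) 0 i) +
      Cst ≤ J := h3
    omega
  · refine (hNB' y k hk fun i hi => ?_).mono le_rfl le_rfl
      (by linarith [le_max_left L₁ L₂]) (le_max_right _ _)
    have h3 : gr (idB (jb k)) i + y + 2 * t + (ee + nlp (gr (idB (jb k))) 0 i) + Cst ≤ J := hy i hi
    show gr (idB (jb k)) i + y + 2 * t + (ee + nlp (gr (idB (jb k))) 0 i) + s₂ ≤ J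
    omega

end Pool.STAT.GRD
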