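import Pool.Agent.H82.STAT.Grk
import Pool.Agent.H82.STAT.Bk

/-!
# The grid of levels

The points `(b + (t - T) η, W q + (t - T) η)`, `q ≤ Q`, `t < T₁`, of a finite number of lines of
direction `(1, 1)`. `alt`: the radii in digits; at the closing levels `t = T + k P - 1` they are
`w₀ + k z`. `MCh.up`: a chain has larger radii too.
-/

set_option autoImplicit false

namespace Pool.STAT.GRD

open Finset MvPolynomial
open Pool.Agent.H49.Ent Pool.Agent.H32.Dense Pool.STK Pool.KS3 Pool.KA Pool.KSAT Pool.PB Pool.GEN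
open Pool.STAT.CLO Pool.STAT.CDat Pool.TRC Pool.STAT.DPP Pool.K2S Pool.LEV

theorem nbx_up {m : ℕ} {c : ℕ → Fin m} {G : ℕ → MvPolynomial (Option (Fin m)) ℝ} {g : ℕ → ℕ}
    {a a' : ℕ} {t : ℝ} {i : ℕ} {b : Option (Fin m) → ℝ} (h : NBx c G g a' t i b) (ha : a ≤ a') :
    NBx c G g a t i b :=
  ⟨h.1.trans (one_div_le_one_div_of_le (by positivity) (pow_le_pow_right₀ (by norm_num) ha)), h.2⟩

theorem chok_up {m J : ℕ} {F : Fam m J} {c : ℕ → Fin m} {r : ℕ} {K : ℕ → ℕ} {a a' w e : ℕ}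
    {g : ℕ → ℕ} {A : F.Ω → Prop} {G : PtT F → ℕ → MvPolynomial (Option (Fin m)) ℝ}
    {H : LnT F → ℕ → MvPolynomial (Option (Fin m)) ℝ} (h : ChOK F c r K a w e g A G H)
    (ha : a ≤ a') : ChOK F c r K a' w e g A G H where
  degG := h.degG
  degH := h.degH
  depG := h.depG
  depH := h.depH
  pos := h.pos
  agr ω hω i hi b hb := h.agr ω hω i hi b (nbx_up hb ha)
  lip ω hω i hi b hb := h.lip ω hω i hi b (nbx_up hb ha)

/-- **A poset of chains has larger radii too.** -/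
theorem mch_up {m J : ℕ} {F : Fam m J} {c : ℕ → Fin m} {i : ℕ} {K : ℕ → ℕ} {N : ℕ}
    {R : ℕ → ℕ → Prop} {a a' w : ℕ → ℕ} {e : ℕ} {g : ℕ → ℕ → ℕ} {δ : ℕ → ℕ} {B : F.Ω → Prop}
    {G : ℕ → PtT F → ℕ → MvPolynomial (Option (Fin m)) ℝ}
    {H : ℕ → LnT F → ℕ → MvPolynomial (Option (Fin m)) ℝ}
    (h : Pool.CHT.MCh F c i K N R a w e g δ B G H) (ha : ∀ k < N, a k ≤ a' k) :
    Pool.CHT.MCh F c i K N R a' w e g δ B G H where
  ok k hk := chok_up (h.ok k hk) (ha k hk)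
  uni k' hk' k hk hR l hl ω hω b hb := h.uni k' hk' k hk hR l hl ω hω b (nbx_up hb (ha k' hk'))
  two k' hk' k hk hR l hl ω hω b hb := h.two k' hk' k hk hR l hl ω hω b (nbx_up hb (ha k' hk'))
  siz k hk l hl ω hω b hb := h.siz k hk l hl ω hω b (nbx_up hb (ha k hk))

/-- The offset of the level `t`. -/
noncomputable def xo (T : ℕ) (η : ℝ) (t : ℕ) : ℝ := ((t : ℝ) - T) * η

/-- The radii of the grid. -/
noncomputable def gra (b η : ℝ) (T T₁ k : ℕ) : ℝ := b + xo T η (k % T₁)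

/-- The windows of the grid. -/
noncomputable def grw (W : ℕ → ℝ) (η : ℝ) (T T₁ k : ℕ) : ℝ := W (k / T₁) + xo T η (k % T₁)

/-- The radii in digits. -/
noncomputable def alt (b η : ℝ) (T P w₀ z J t : ℕ) : ℕ :=
  if t + 1 < T then ⌊(b + xo T η t) * J⌋₊
  else max ⌊(b + xo T η t) * J⌋₊ (w₀ + z * ((t + 1 - T) / P))

/-- The point `t` of the line `q`. -/
def ix (T₁ q t : ℕ) : ℕ := q * T₁ + t

theorem ix_div {T₁ q t : ℕ} (ht : t < T₁) : ix T₁ q t / T₁ = q := by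
  unfold ix
  rw [Nat.mul_comm, Nat.mul_add_div (by omega), Nat.div_eq_of_lt ht, Nat.add_zero]

theorem ix_mod {T₁ q t : ℕ} (ht : t < T₁) : ix T₁ q t % T₁ = t := by
  unfold ix
  rw [Nat.mul_comm, Nat.mul_add_mod, Nat.mod_eq_of_lt ht]

theorem ix_lt {T₁ q t Q : ℕ} (ht : t < T₁) (hq : q ≤ Q) : ix T₁ q t < (Q + 1) * T₁ := by
  unfold ix
  have h1 : q * T₁ ≤ Q * T₁ := Nat.mul_le_mul_right _ hq
  have h2 : (Q + 1) * T₁ = Q * T₁ + T₁ := by ring
  omega

theorem xo_mono {T : ℕ} {η : ℝ} (hη : 0 ≤ η) {t t' : ℕ} (h : t ≤ t') : xo T η t ≤ xo T η t' := by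
  unfold xo
  have : (t : ℝ) ≤ t' := by exact_mod_cast h
  exact mul_le_mul_of_nonneg_right (by linarith) hη

theorem xo_inj {T : ℕ} {η : ℝ} (hη : 0 < η) {t t' : ℕ} (h : xo T η t ≤ xo T η t') : t ≤ t' := by
  unfold xo at h
  have h1 := le_of_mul_le_mul_right h hη
  have h2 : (t : ℝ) ≤ t' := by linarith
  exact_mod_cast h2

theorem xo_succ {T : ℕ} {η : ℝ} {t : ℕ} : xo T η (t + 1) = xo T η t + η := by
  unfold xo
  push_cast
  ring

theorem xo_zero {T : ℕ} {η : ℝ} : xo T η 0 = -(T * η) := by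
  unfold xo
  push_cast
  ring

/-- The offset of the closing level `k`. -/
theorem xo_end {T P : ℕ} {η : ℝ} (k : ℕ) (hT : 1 ≤ T) :
    xo T η (T + k * P - 1) = k * (P * η) - η := by
  unfold xo
  rw [Nat.cast_sub (by omega)]
  push_cast
  ring

variable {b η : ℝ} {T P w₀ z J : ℕ}

/-- The radius in digits is at least the one of the point. -/
theorem alt_ge (t : ℕ) : ⌊(b + xo T η t) * J⌋₊ ≤ alt b η T P w₀ z J t := by
  unfold alt
  split_ifs
  · exact le_rfl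
  · exact le_max_left _ _

theorem alt_lb (t : ℕ) : (b + xo T η t) * J - 1 ≤ alt b η T P w₀ z J t := by
  have h1 := Nat.lt_floor_add_one ((b + xo T η t) * J)
  have h2 : ((⌊(b + xo T η t) * J⌋₊ : ℕ) : ℝ) ≤ alt b η T P w₀ z J t := by
    exact_mod_cast alt_ge t
  linarith

/-- The radius in digits is at most the one of the next point. -/
theorem alt_ub (hη : 0 ≤ η) (hb : ∀ t, 0 ≤ b + xo T η t)
    (hw : (w₀ : ℝ) ≤ b * J) (hz : (z : ℝ) ≤ P * η * J) (t : ℕ) :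
    (alt b η T P w₀ z J t : ℝ) ≤ (b + xo T η t + η) * J := by
  have hJ : (0 : ℝ) ≤ J := Nat.cast_nonneg J
  have h1 : ((⌊(b + xo T η t) * J⌋₊ : ℕ) : ℝ) ≤ (b + xo T η t + η) * J :=
    (Nat.floor_le (mul_nonneg (hb t) hJ)).trans (mul_le_mul_of_nonneg_right (by linarith) hJ)
  unfold alt
  split_ifs with h
  · exact h1
  · rw [Nat.cast_max]
    refine max_le h1 ?_
    obtain ⟨q, hq⟩ : ∃ q, q = (t + 1 - T) / P := ⟨_, rfl⟩
    have h2 : q * P ≤ t + 1 - T := by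
      rw [hq]
      exact Nat.div_mul_le_self _ _
    have h3 : (q : ℝ) * P + T ≤ t + 1 := by exact_mod_cast (show q * P + T ≤ t + 1 by omega)
    rw [← hq]
    push_cast
    have h4 : (z : ℝ) * q ≤ P * η * J * q := mul_le_mul_of_nonneg_right hz (Nat.cast_nonneg _)
    have h5 : ((q : ℝ) * P) * (η * J) ≤ (t + 1 - T) * (η * J) :=
      mul_le_mul_of_nonneg_right (by linarith) (mul_nonneg hη hJ)
    unfold xo
    nlinarith

/-- **The radii of the closing levels.** -/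
theorem alt_end (hT : 1 ≤ T) (hP : 1 ≤ P) {k : ℕ} (hk : (b + (k * (P * η) - η)) * J < w₀ + k * z + 1)
    (h0 : 0 ≤ b + (k * (P * η) - η)) :
    alt b η T P w₀ z J (T + k * P - 1) = w₀ + k * z := by
  have h1 : T + k * P - 1 + 1 - T = k * P := by omega
  unfold alt
  rw [if_neg (by omega), h1, Nat.mul_div_cancel _ (by omega), xo_end k hT, Nat.mul_comm z k]
  refine max_eq_right ?_
  have h2 : ⌊(b + (k * (P * η) - η)) * J⌋₊ < w₀ + k * z + 1 := by
    rw [Nat.floor_lt (mul_nonneg h0 (Nat.cast_nonneg J))]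
    push_cast
    exact hk
  omega

theorem alt_mono (hη : 0 ≤ η) {t t' : ℕ} (h : t ≤ t') :
    alt b η T P w₀ z J t ≤ alt b η T P w₀ z J t' := by
  have h1 : ⌊(b + xo T η t) * J⌋₊ ≤ ⌊(b + xo T η t') * J⌋₊ :=
    Nat.floor_le_floor (mul_le_mul_of_nonneg_right (by linarith [xo_mono (T := T) hη h])
      (Nat.cast_nonneg J))
  unfold alt
  split_ifs with h2 h3
  · exact h1
  · exact h1.trans (le_max_left _ _)
  · omega
  · refine max_le_max h1 ?_
    exact Nat.add_le_add_left (Nat.mul_le_mul_left _ (Nat.div_le_div_right (by omega))) _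

end Pool.STAT.GRD
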