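import Pool.Agent.H82.STAT.Grl

/-!
# The numbers of the grid

`CelG`: the real conditions of a cell with fat lines, thin lines and balls. The numbers of the grid
satisfy `PosN`, the paths `Pix`, the slopes `Slp`.
-/

set_option autoImplicit false

namespace Pool.STAT.GRD

open Finset MvPolynomial
open Pool.Agent.H49.Ent Pool.Agent.H32.Dense Pool.STK Pool.KS3 Pool.KA Pool.KSAT Pool.PB Pool.GEN
open Pool.STAT.CLO Pool.STAT.CDat Pool.TRC Pool.STAT.DPP Pool.K2S Pool.LEV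

/-- **The lines of the cell**: windows `W 0 ≤ … ≤ W Q = b` at the lowest radius `b`; the levels of
the line `q` are `(b + x, W q + x)`, `-ρ ≤ x ≤ o`. -/
structure Lns (L : ℕ → ℝ → ℝ → ℝ) (n Q : ℕ) (W : ℕ → ℝ) (b ρ o c₀ : ℝ) : Prop where
  law : ∀ i, 1 ≤ i → i ≤ n → Law (L i)
  ρ_nn : 0 ≤ ρ
  o_nn : 0 ≤ o
  c_nn : 0 ≤ c₀
  W0 : ρ ≤ W 0
  win : ∀ j < Q, W j ≤ W (j + 1)
  WQ : W Q = b
  top : b + o ≤ 1
  lo : ∀ i, 1 ≤ i → i ≤ n → c₀ ≤ L i (b - ρ) (W 0 - ρ)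
  lt : ∀ i, 1 ≤ i → i ≤ n → L i (b + o) (b + o) < 1

variable {L : ℕ → ℝ → ℝ → ℝ} {n Q : ℕ} {W : ℕ → ℝ} {b ρ o c₀ : ℝ}

theorem Lns.W_le (H : Lns L n Q W b ρ o c₀) {i j : ℕ} (hij : i ≤ j) (hj : j ≤ Q) : W i ≤ W j := by
  induction j, hij using Nat.le_induction with
  | base => exact le_rfl
  | succ j _ ih => exact (ih (by omega)).trans (H.win j (by omega))

theorem Lns.Wb (H : Lns L n Q W b ρ o c₀) {j : ℕ} (hj : j ≤ Q) : W j ≤ b := by
  rw [← H.WQ]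
  exact H.W_le hj le_rfl

theorem Lns.ρb (H : Lns L n Q W b ρ o c₀) : ρ ≤ b := H.W0.trans (H.Wb (Nat.zero_le _))

/-- A point of the region. -/
structure Lns.In (_ : Lns L n Q W b ρ o c₀) (a w : ℝ) : Prop where
  w0 : W 0 - ρ ≤ w
  a0 : b - ρ ≤ a
  wa : w ≤ a
  aT : a ≤ b + o

theorem Lns.In.w_nn {H : Lns L n Q W b ρ o c₀} {a w : ℝ} (h : H.In a w) : 0 ≤ w := by
  have := h.w0
  have := H.W0
  linarith

theorem Lns.In.a1 {H : Lns L n Q W b ρ o c₀} {a w : ℝ} (h : H.In a w) : a ≤ 1 := h.aT.trans H.top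

theorem Lns.mk_in (H : Lns L n Q W b ρ o c₀) {q : ℕ} (hq : q ≤ Q) {x : ℝ} (h1 : -ρ ≤ x)
    (h2 : x ≤ o) : H.In (b + x) (W q + x) := by
  have := H.W_le (Nat.zero_le q) hq
  have := H.Wb hq
  exact ⟨by linarith, by linarith, by linarith, by linarith⟩

theorem Lns.In.lt_one {H : Lns L n Q W b ρ o c₀} {a w : ℝ} (h : H.In a w) {i : ℕ} (h1 : 1 ≤ i)
    (hi : i ≤ n) : L i a w < 1 :=
  lt_of_le_of_lt ((H.law i h1 hi).mono h.w_nn h.wa h.aT (h.wa.trans h.aT) le_rfl H.top)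
    (H.lt i h1 hi)

theorem Lns.In.lo {H : Lns L n Q W b ρ o c₀} {a w : ℝ} (h : H.In a w) {i : ℕ} (h1 : 1 ≤ i)
    (hi : i ≤ n) : c₀ ≤ L i a w := by
  refine (H.lo i h1 hi).trans ((H.law i h1 hi).mono ?_ ?_ h.a0 h.w0 h.wa h.a1)
  · have := H.W0
    linarith
  · have := H.Wb (Nat.zero_le _)
    linarith

theorem Lns.In.mono {H : Lns L n Q W b ρ o c₀} {a w a' w' : ℝ} (h : H.In a w) (h' : H.In a' w')
    (ha : a ≤ a') (hw : w ≤ w') {i : ℕ} (h1 : 1 ≤ i) (hi : i ≤ n) : L i a w ≤ L i a' w' :=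
  (H.law i h1 hi).mono h.w_nn h.wa ha hw h'.wa h'.a1

/-- **The growth with the radius.** -/
theorem Lns.In.grow {H : Lns L n Q W b ρ o c₀} {a w a' w' : ℝ} (h : H.In a w) (h' : H.In a' w')
    (ha : a ≤ a') (hw : w ≤ w') {i : ℕ} (h1 : 1 ≤ i) (hi : i ≤ n) :
    L i a w + (a' - a) ≤ L i a' w' := by
  have e1 : a + (a' - a) = a' := by ring
  have h2 := (H.law i h1 hi).slope a w (a' - a) h.w_nn h.wa (by linarith) (by rw [e1]; exact h'.a1)
  rw [e1] at h2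
  have h3 : L i a' w ≤ L i a' w' := (H.law i h1 hi).mono_w a' w w' h.w_nn hw h'.wa h'.a1
  have h4 := h'.lt_one h1 hi
  rcases le_total 1 (L i a w + (a' - a)) with h5 | h5
  · rw [min_eq_left h5] at h2
    linarith
  · rw [min_eq_right h5] at h2
    linarith

/-! ### The grid -/

section Grid

variable {η : ℝ} {T T₁ P w₀ z J : ℕ}

/-- The numbers of the grid. -/
structure Grd (n Q T T₁ P w₀ z J : ℕ) (b ρ o η : ℝ) : Prop where
  η_pos : 0 < η
  ρ_eq : T * η = ρ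
  T_pos : 1 ≤ T
  P_pos : 1 ≤ P
  top : ∀ t < T₁, xo T η t + η ≤ o
  w₀_le : (w₀ : ℝ) ≤ b * J
  z_le : (z : ℝ) ≤ P * η * J

theorem Grd.xlo (G : Grd n Q T T₁ P w₀ z J b ρ o η) (t : ℕ) : -ρ ≤ xo T η t := by
  rw [← G.ρ_eq, ← xo_zero]
  exact xo_mono G.η_pos.le (Nat.zero_le t)

theorem Grd.in (G : Grd n Q T T₁ P w₀ z J b ρ o η) (H : Lns L n Q W b ρ o c₀) {q t : ℕ}
    (hq : q ≤ Q) (ht : t < T₁) : H.In (b + xo T η t) (W q + xo T η t) :=
  H.mk_in hq (G.xlo t) (by linarith [G.top t ht, G.η_pos])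

/-- The points of the grid. -/
theorem Grd.pt (G : Grd n Q T T₁ P w₀ z J b ρ o η) (H : Lns L n Q W b ρ o c₀) {k : ℕ}
    (hk : k < (Q + 1) * T₁) : k / T₁ ≤ Q ∧ k % T₁ < T₁ ∧ H.In (gra b η T T₁ k) (grw W η T T₁ k) := by
  have hT : 0 < T₁ := by
    rcases Nat.eq_zero_or_pos T₁ with h | h
    · rw [h, Nat.mul_zero] at hk
      omega
    · exact h
  have h1 : k / T₁ ≤ Q := by
    have := (Nat.div_lt_iff_lt_mul hT).2 hk
    omega
  have h2 := Nat.mod_lt k hT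
  exact ⟨h1, h2, G.in H h1 h2⟩

/-- The order of the points. -/
theorem Grd.ord (G : Grd n Q T T₁ P w₀ z J b ρ o η) {k k' : ℕ}
    (h : gra b η T T₁ k ≤ gra b η T T₁ k') : k % T₁ ≤ k' % T₁ := by
  unfold gra at h
  exact xo_inj G.η_pos (by linarith)

/-- The precisions of the grid. -/
noncomputable def grn (L : ℕ → ℝ → ℝ → ℝ) (W : ℕ → ℝ) (b η : ℝ) (T T₁ J : ℕ) (d : ℕ → ℝ)
    (k l : ℕ) : ℕ := ⌊(L (l + 1) (gra b η T T₁ k) (grw W η T T₁ k) - d l) * J⌋₊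

theorem grn_lb (d : ℕ → ℝ) (k l : ℕ) :
    (L (l + 1) (gra b η T T₁ k) (grw W η T T₁ k) - d l) * J - 1 ≤ grn L W b η T T₁ J d k l := by
  have := Nat.lt_floor_add_one ((L (l + 1) (gra b η T T₁ k) (grw W η T T₁ k) - d l) * J)
  unfold grn
  linarith

theorem grn_ub {d : ℕ → ℝ} {k l : ℕ} (h : d l ≤ L (l + 1) (gra b η T T₁ k) (grw W η T T₁ k)) :
    (grn L W b η T T₁ J d k l : ℝ) ≤
      (L (l + 1) (gra b η T T₁ k) (grw W η T T₁ k) - d l) * J :=
  Nat.floor_le (mul_nonneg (by linarith) (Nat.cast_nonneg J))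

/-- **The numbers of the points.** -/
theorem Grd.posN (G : Grd n Q T T₁ P w₀ z J b ρ o η) (H : Lns L n Q W b ρ o c₀) {d : ℕ → ℝ}
    (hd : ∀ l < n, 0 ≤ d l ∧ d l ≤ c₀) {u : ℕ} (hu : η * J + 2 ≤ u) :
    PosN n ((Q + 1) * T₁) J (fun k k' => gra b η T T₁ k ≤ gra b η T T₁ k' ∧
        grw W η T T₁ k ≤ grw W η T T₁ k')
      (fun k => alt b η T P w₀ z J (k % T₁)) (fun k => ⌊grw W η T T₁ k * J⌋₊)
      (grn L W b η T T₁ J d) ⌊(b - ρ) * J⌋₊ ⌊(W 0 - ρ) * J⌋₊ u := by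
  have hJ : (0 : ℝ) ≤ J := Nat.cast_nonneg J
  have hη := G.η_pos
  have hbx : ∀ t, 0 ≤ b + xo T η t := fun t => by linarith [G.xlo t, H.ρb]
  have hub := alt_ub (P := P) (w₀ := w₀) (z := z) hη.le hbx G.w₀_le G.z_le
  have hlb := alt_lb (b := b) (η := η) (T := T) (P := P) (w₀ := w₀) (z := z) (J := J)
  have fm : ∀ {x y : ℝ}, x ≤ y → ⌊x * J⌋₊ ≤ ⌊y * J⌋₊ := fun h =>
    Nat.floor_le_floor (mul_le_mul_of_nonneg_right h hJ)
  refine
    { aJ := fun k hk => ?_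
      wa := fun k hk => ?_
      ini := fun k hk => ?_
      a0J := ?_
      w0 := fm (by linarith [H.Wb (Nat.zero_le Q)])
      le := fun k hk k' hk' hR => ⟨alt_mono hη.le (G.ord hR.1), fm hR.2⟩
      law := fun k hk k' hk' hR l hl => ?_
      law0 := fun k hk l hl => ?_ }
  · obtain ⟨h1, h2, h3⟩ := G.pt H hk
    have h4 := hub (k % T₁)
    have h5 : (b + xo T η (k % T₁) + η) * J ≤ 1 * J :=
      mul_le_mul_of_nonneg_right (by linarith [G.top _ h2, H.top]) hJ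
    exact_mod_cast (show (alt b η T P w₀ z J (k % T₁) : ℝ) ≤ J by linarith)
  · obtain ⟨h1, h2, h3⟩ := G.pt H hk
    exact (fm h3.wa).trans (alt_ge _)
  · obtain ⟨h1, h2, h3⟩ := G.pt H hk
    exact ⟨(fm h3.a0).trans (alt_ge _), fm h3.w0⟩
  · have h1 : ((⌊(b - ρ) * J⌋₊ : ℕ) : ℝ) ≤ (b - ρ) * J :=
      Nat.floor_le (mul_nonneg (by linarith [H.ρb]) hJ)
    have h2 : (b - ρ) * J ≤ 1 * J :=
      mul_le_mul_of_nonneg_right (by linarith [H.top, H.o_nn, H.ρ_nn]) hJ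
    exact_mod_cast (show ((⌊(b - ρ) * J⌋₊ : ℕ) : ℝ) ≤ J by linarith)
  · obtain ⟨-, h2, h3⟩ := G.pt H hk
    obtain ⟨-, h2', h3'⟩ := G.pt H hk'
    have h4 := h3.grow h3' hR.1 hR.2 (i := l + 1) (by omega) (by omega)
    have h5 := h3.lo (i := l + 1) (by omega) (by omega)
    constructor
    · have h6 := grn_ub (J := J) (k := k) ((hd l hl).2.trans h5)
      have h7 := grn_lb (L := L) (W := W) (b := b) (η := η) (T := T) (T₁ := T₁) (J := J) d k' l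
      have h8 := hub (k' % T₁)
      have h9 := hlb (k % T₁)
      have h10 := mul_le_mul_of_nonneg_right h4 hJ
      have e1 : gra b η T T₁ k = b + xo T η (k % T₁) := rfl
      have e2 : gra b η T T₁ k' = b + xo T η (k' % T₁) := rfl
      have : ((grn L W b η T T₁ J d k l + alt b η T P w₀ z J (k' % T₁) : ℕ) : ℝ) ≤
          ((grn L W b η T T₁ J d k' l + alt b η T P w₀ z J (k % T₁) + u : ℕ) : ℝ) := by
        push_cast
        rw [← e1] at h9
        rw [← e2] at h8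
        nlinarith
      exact_mod_cast this
    · refine Nat.floor_le_floor (mul_le_mul_of_nonneg_right ?_ hJ)
      have := h3.mono h3' hR.1 hR.2 (i := l + 1) (by omega) (by omega)
      linarith
  · obtain ⟨h1, h2, h3⟩ := G.pt H hk
    have h0 : H.In (b - ρ) (W 0 - ρ) := ⟨le_rfl, le_rfl, by linarith [H.Wb (Nat.zero_le Q)],
      by linarith [H.ρ_nn, H.o_nn]⟩
    have h4 := h0.grow h3 h3.a0 h3.w0 (i := l + 1) (by omega) (by omega)
    have h5 := h0.lo (i := l + 1) (by omega) (by omega)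
    have h7 := grn_lb (L := L) (W := W) (b := b) (η := η) (T := T) (T₁ := T₁) (J := J) d k l
    have h8 := hub (k % T₁)
    have h9 := Nat.lt_floor_add_one ((b - ρ) * J)
    have h10 := mul_le_mul_of_nonneg_right h4 hJ
    have h11 := mul_le_mul_of_nonneg_right ((hd l hl).2.trans h5) hJ
    have e1 : gra b η T T₁ k = b + xo T η (k % T₁) := rfl
    have : ((alt b η T P w₀ z J (k % T₁) : ℕ) : ℝ) ≤
        ((grn L W b η T T₁ J d k l + ⌊(b - ρ) * J⌋₊ + u : ℕ) : ℝ) := by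
      push_cast
      rw [← e1] at h8
      nlinarith
    exact_mod_cast this

/-- **The paths.** -/
theorem Grd.pix (G : Grd n Q T T₁ P w₀ z J b ρ o η) (H : Lns L n Q W b ρ o c₀) {q N h : ℕ}
    (hq : q ≤ Q) (hN : N ≤ T₁) (hh : 2 * η * J + 2 ≤ h) :
    Pix ((Q + 1) * T₁) N (fun k k' => gra b η T T₁ k ≤ gra b η T T₁ k' ∧
        grw W η T T₁ k ≤ grw W η T T₁ k')
      (fun k => alt b η T P w₀ z J (k % T₁)) ⌊(b - ρ) * J⌋₊ h (ix T₁ q) := by
  have hJ : (0 : ℝ) ≤ J := Nat.cast_nonneg J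
  have hη := G.η_pos
  have hbx : ∀ t, 0 ≤ b + xo T η t := fun t => by linarith [G.xlo t, H.ρb]
  have hub := alt_ub (P := P) (w₀ := w₀) (z := z) hη.le hbx G.w₀_le G.z_le
  have hlb := alt_lb (b := b) (η := η) (T := T) (P := P) (w₀ := w₀) (z := z) (J := J)
  refine
    { lt := fun k hk => ix_lt (by omega) hq
      R := fun k' hk' k hk => ?_
      ini := fun h0 => ?_
      mesh := fun k hk => ?_ }
  · have h1 := xo_mono (T := T) hη.le hk.le
    unfold gra grw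
    rw [ix_mod (by omega), ix_mod (by omega), ix_div (by omega), ix_div (by omega)]
    exact ⟨by linarith, by linarith⟩
  · rw [ix_mod (by omega)]
    have h1 := hub 0
    have h2 := Nat.lt_floor_add_one ((b - ρ) * J)
    have h3 : xo T η 0 = -ρ := by rw [xo_zero, G.ρ_eq]
    have h4 : (0 : ℝ) ≤ η * J := mul_nonneg hη.le hJ
    have : ((alt b η T P w₀ z J 0 : ℕ) : ℝ) ≤ ((⌊(b - ρ) * J⌋₊ + h : ℕ) : ℝ) := by
      push_cast
      rw [h3] at h1
      nlinarith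
    exact_mod_cast this
  · rw [ix_mod (by omega), ix_mod (by omega)]
    have h1 := hub (k + 1)
    have h2 := hlb k
    rw [xo_succ] at h1
    have : ((alt b η T P w₀ z J (k + 1) : ℕ) : ℝ) ≤ ((alt b η T P w₀ z J k + h : ℕ) : ℝ) := by
      push_cast
      nlinarith
    exact_mod_cast this

end Grid

end Pool.STAT.GRD
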