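import Pool.Agent.H82.STAT.Grm

/-!
# Index data, slopes and the line side for the grid

Lines: `0` fat, `1, …, Rd + 1` thin, `Rd + 2` balls. The closing levels are one step below the
radii `b + k ζ`, `ζ = P η`.
-/

set_option autoImplicit false

namespace Pool.STAT.GRD

open Finset MvPolynomial
open Pool.Agent.H49.Ent Pool.Agent.H32.Dense Pool.STK Pool.KS3 Pool.KA Pool.KSAT Pool.PB Pool.GEN
open Pool.STAT.CLO Pool.STAT.CDat Pool.TRC Pool.STAT.DPP Pool.K2S Pool.LEV

variable {L : ℕ → ℝ → ℝ → ℝ} {n Q : ℕ} {W : ℕ → ℝ} {b ρ o c₀ : ℝ} {η : ℝ}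
  {T T₁ P w₀ z J : ℕ}

/-- **The index paths of the grid.** -/
def gI (T T₁ P M Rd : ℕ) : Idx where
  NF := T + M * P - 1
  NB := T + M * P - 1
  NT _ := T - 1
  jk k := T + k * P - 1
  jb k := T + k * P - 1
  idF := ix T₁ 0
  idB := ix T₁ (Rd + 2)
  idT j := ix T₁ (j + 1)

/-- The radii of the closing levels. -/
structure Ends (b η : ℝ) (T P w₀ z J M : ℕ) : Prop where
  pos : 0 ≤ b - η
  eq : ∀ k ≤ M, (b + (k * (P * η) - η)) * J < w₀ + k * z + 1

theorem Ends.al {M : ℕ} (E : Ends b η T P w₀ z J M) (G : Grd n Q T T₁ P w₀ z J b ρ o η) {k : ℕ}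
    (hk : k ≤ M) : alt b η T P w₀ z J (T + k * P - 1) = w₀ + k * z :=
  alt_end G.T_pos G.P_pos (E.eq k hk) (by
    have h1 := E.pos
    have h2 : 0 ≤ (k : ℝ) * (P * η) := by have := G.η_pos; positivity
    linarith)

/-- **The index paths are paths of the grid.** -/
theorem gI_ok {M Rd h : ℕ} (G : Grd n (Rd + 2) T T₁ P w₀ z J b ρ o η)
    (H : Lns L n (Rd + 2) W b ρ o c₀) (E : Ends b η T P w₀ z J M) (hT : T + M * P ≤ T₁)
    (hh : 2 * η * J + 2 ≤ h) :
    (gI T T₁ P M Rd).Ok ((Rd + 2 + 1) * T₁) (fun k k' => gra b η T T₁ k ≤ gra b η T T₁ k' ∧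
        grw W η T T₁ k ≤ grw W η T T₁ k')
      (fun k => alt b η T P w₀ z J (k % T₁)) ⌊(b - ρ) * J⌋₊ h w₀ z M Rd := by
  have hTp := G.T_pos
  have hPp := G.P_pos
  have hkM : ∀ k ≤ M, k * P ≤ M * P := fun k hk => Nat.mul_le_mul_right _ hk
  have hle : ∀ {q q' t t' : ℕ}, q ≤ q' → q' ≤ Rd + 2 → t ≤ t' → t' < T₁ →
      gra b η T T₁ (ix T₁ q t) ≤ gra b η T T₁ (ix T₁ q' t') ∧
        grw W η T T₁ (ix T₁ q t) ≤ grw W η T T₁ (ix T₁ q' t') := by
    intro q q' t t' h1 h2 h3 h4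
    have h5 := xo_mono (T := T) G.η_pos.le h3
    have h6 := H.W_le h1 h2
    unfold gra grw
    rw [ix_mod (by omega), ix_mod h4, ix_div (by omega), ix_div h4]
    exact ⟨by linarith, by linarith⟩
  refine
    { refl := fun k _ => ⟨le_rfl, le_rfl⟩
      trans := fun k _ k' _ k'' _ h1 h2 => ⟨h1.1.trans h2.1, h1.2.trans h2.2⟩
      F := G.pix H (Nat.zero_le _) (by show T + M * P - 1 + 1 ≤ T₁; omega) hh
      B := G.pix H le_rfl (by show T + M * P - 1 + 1 ≤ T₁; omega) hh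
      T := fun j hj => G.pix H (by omega) (by show T - 1 + 1 ≤ T₁; omega) hh
      jk_le := fun k hk => by
        have := hkM k hk
        show T + 0 * P - 1 ≤ T + k * P - 1 ∧ T + k * P - 1 ≤ T + M * P - 1
        omega
      jk_M := rfl
      jb_le := fun k hk => by
        have := hkM k hk
        show T + k * P - 1 ≤ T + M * P - 1
        omega
      aF := fun k hk => ?_
      aB := fun k hk => ?_
      aT := fun j hj => ?_
      FB := fun k hk => ?_
      FT := ?_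
      TT := fun j hj => ?_
      TB := fun k hk => ?_ }
  · have := hkM k hk
    show alt b η T P w₀ z J (ix T₁ 0 (T + k * P - 1) % T₁) = _
    rw [ix_mod (by omega)]
    exact E.al G hk
  · have := hkM k hk
    show alt b η T P w₀ z J (ix T₁ (Rd + 2) (T + k * P - 1) % T₁) = _
    rw [ix_mod (by omega)]
    exact E.al G hk
  · show alt b η T P w₀ z J (ix T₁ (j + 1) (T - 1) % T₁) = _
    rw [ix_mod (by omega)]
    have := E.al G (Nat.zero_le M)
    rw [Nat.zero_mul, Nat.zero_mul, Nat.add_zero, Nat.add_zero] at this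
    exact this
  · have := hkM k hk
    exact hle (q := 0) (q' := Rd + 2) (t := T + k * P - 1) (t' := T + k * P - 1)
      (Nat.zero_le _) le_rfl le_rfl (by omega)
  · exact hle (q := 0) (q' := 1) (t := T + 0 * P - 1) (t' := T - 1) (by omega) (by omega)
      (by omega) (by omega)
  · exact hle (q := j + 1) (q' := j + 1 + 1) (t := T - 1) (t' := T - 1) (by omega) (by omega)
      le_rfl (by omega)
  · have := hkM k hk
    exact hle (q := Rd + 1) (q' := Rd + 2) (t := T - 1) (t' := T + k * P - 1) (by omega) le_rfl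
      (by omega) (by omega)

/-- **The slope of one line** at the level `t`, from the slopes of the numbers. -/
theorem Grd.slp (G : Grd n Q T T₁ P w₀ z J b ρ o η) (H : Lns L n Q W b ρ o c₀) {d : ℕ → ℝ}
    (hd : ∀ l < n, 0 ≤ d l ∧ d l ≤ c₀) {q t S u : ℕ} {e : ℝ} (hq : q ≤ Q) (ht : t < T₁)
    (hs : ∀ i, 1 ≤ i → i ≤ n → ∀ x, -ρ ≤ x → x ≤ xo T η t →
      L i (b + xo T η t) (W q + xo T η t) - L i (b + x) (W q + x) ≤ S * (xo T η t - x) + e)
    (h1 : 1 ≤ S * (xo T η t + ρ)) (he : 0 ≤ e) (hu : (e + S * η) * J + (S + 2) ≤ u) :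
    TRC.Slp n S (shl ⌊(b - ρ) * J⌋₊ fun k => alt b η T P w₀ z J (ix T₁ q k % T₁))
      (jg fun k => grn L W b η T T₁ J d (ix T₁ q k)) u (t + 1) := by
  have hJ : (0 : ℝ) ≤ J := Nat.cast_nonneg J
  have hη := G.η_pos
  have hS : (0 : ℝ) ≤ S := Nat.cast_nonneg S
  have hbx : ∀ t, 0 ≤ b + xo T η t := fun t => by linarith [G.xlo t, H.ρb]
  have hub := alt_ub (P := P) (w₀ := w₀) (z := z) hη.le hbx G.w₀_le G.z_le
  have hlb := alt_lb (b := b) (η := η) (T := T) (P := P) (w₀ := w₀) (z := z) (J := J)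
  intro k hk l hl1 hl
  obtain ⟨l, rfl⟩ : ∃ l', l = l' + 1 := ⟨l - 1, by omega⟩
  have hin := G.in H hq ht
  have hlo := hin.lo (i := l + 1) (by omega) hl
  have e1 : gra b η T T₁ (ix T₁ q t) = b + xo T η t := by
    unfold gra
    rw [ix_mod ht]
  have e2 : grw W η T T₁ (ix T₁ q t) = W q + xo T η t := by
    unfold grw
    rw [ix_mod ht, ix_div ht]
  have g1 := grn_ub (L := L) (W := W) (b := b) (η := η) (T := T) (T₁ := T₁) (J := J) (d := d)
    (k := ix T₁ q t) (l := l) (by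
      rw [e1, e2]
      exact (hd l (by omega)).2.trans hlo)
  rw [e1, e2] at g1
  have a1 := hlb t
  have hd0 := (hd l (by omega)).1
  show jg (fun k => grn L W b η T T₁ J d (ix T₁ q k)) (t + 1) (l + 1) + S * shl ⌊(b - ρ) * J⌋₊
      (fun k => alt b η T P w₀ z J (ix T₁ q k % T₁)) k ≤
    jg (fun k => grn L W b η T T₁ J d (ix T₁ q k)) k (l + 1) + S * shl ⌊(b - ρ) * J⌋₊
      (fun k => alt b η T P w₀ z J (ix T₁ q k % T₁)) (t + 1) + u
  rcases k with _ | k
  · show grn L W b η T T₁ J d (ix T₁ q t) l + S * ⌊(b - ρ) * J⌋₊ ≤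
      0 + S * alt b η T P w₀ z J (ix T₁ q t % T₁) + u
    rw [ix_mod ht]
    have f1 : ((⌊(b - ρ) * J⌋₊ : ℕ) : ℝ) ≤ (b - ρ) * J :=
      Nat.floor_le (mul_nonneg (by linarith [H.ρb]) hJ)
    have f2 := mul_le_mul_of_nonneg_left f1 hS
    have f3 := mul_le_mul_of_nonneg_left a1 hS
    have f4 := hin.lt_one (i := l + 1) (by omega) hl
    have f5 : (L (l + 1) (b + xo T η t) (W q + xo T η t) - d l) * J ≤ 1 * J :=
      mul_le_mul_of_nonneg_right (by linarith) hJ
    have f6 := mul_le_mul_of_nonneg_right h1 hJ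
    have f7 : 0 ≤ (e + S * η) * J := by positivity
    have : ((grn L W b η T T₁ J d (ix T₁ q t) l + S * ⌊(b - ρ) * J⌋₊ : ℕ) : ℝ) ≤
        ((0 + S * alt b η T P w₀ z J t + u : ℕ) : ℝ) := by
      push_cast
      nlinarith
    exact_mod_cast this
  · have hk' : k ≤ t := by omega
    show grn L W b η T T₁ J d (ix T₁ q t) l + S * alt b η T P w₀ z J (ix T₁ q k % T₁) ≤
      grn L W b η T T₁ J d (ix T₁ q k) l + S * alt b η T P w₀ z J (ix T₁ q t % T₁) + u
    rw [ix_mod ht, ix_mod (by omega)]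
    have e3 : gra b η T T₁ (ix T₁ q k) = b + xo T η k := by
      unfold gra
      rw [ix_mod (by omega)]
    have e4 : grw W η T T₁ (ix T₁ q k) = W q + xo T η k := by
      unfold grw
      rw [ix_mod (by omega), ix_div (by omega)]
    have g2 := grn_lb (L := L) (W := W) (b := b) (η := η) (T := T) (T₁ := T₁) (J := J) d
      (ix T₁ q k) l
    rw [e3, e4] at g2
    have f1 := hs (l + 1) (by omega) hl (xo T η k) (G.xlo k) (xo_mono hη.le hk')
    have f2 := mul_le_mul_of_nonneg_right f1 hJ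
    have f3 := mul_le_mul_of_nonneg_left a1 hS
    have f4 := mul_le_mul_of_nonneg_left (hub k) hS
    have : ((grn L W b η T T₁ J d (ix T₁ q t) l + S * alt b η T P w₀ z J k : ℕ) : ℝ) ≤
        ((grn L W b η T T₁ J d (ix T₁ q k) l + S * alt b η T P w₀ z J t + u : ℕ) : ℝ) := by
      push_cast
      nlinarith
    exact_mod_cast this

end Pool.STAT.GRD
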