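import Pool.Agent.H82.STAT.Grn

/-!
# The final numbers of the grid

`CelG`: the real conditions of the cell. The slopes, the conditions of the line side, the final
numbers `gF`, `tnG` (the balls have the numbers `BK.g`): `Slps`, `Tms`, `Fins`, `Nms`.
-/

set_option autoImplicit false

namespace Pool.STAT.GRD

open Finset MvPolynomial
open Pool.Agent.H49.Ent Pool.Agent.H32.Dense Pool.STK Pool.KS3 Pool.KA Pool.KSAT Pool.PB Pool.GEN
open Pool.STAT.CLO Pool.STAT.CDat Pool.TRC Pool.STAT.DPP Pool.K2S Pool.LEV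

/-- The offset of the closing level `k`. -/
noncomputable def xe (P : ℕ) (η : ℝ) (k : ℕ) : ℝ := k * (P * η) - η

/-- **The real conditions of the cell.** -/
structure CelG (L : ℕ → ℝ → ℝ → ℝ) (n : ℕ) (p : ℕ → Prop) (σ : ℕ → ℝ) (Rd M S P : ℕ) (W : ℕ → ℝ)
    (b ρ o c₀ η e θ V : ℝ) : Prop where
  lns : Lns L n (Rd + 2) W b ρ o c₀
  n_pos : 1 ≤ n
  stc : Stc p n
  card : ∀ U : Finset ℕ, (∀ i ∈ U, i < n ∧ ¬ p i) → U.card ≤ Rd + 1
  σ_nn : ∀ i, 1 ≤ i → i ≤ n → 0 ≤ σ i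
  e_nn : 0 ≤ e
  far : 1 ≤ S * (ρ - η)
  slope : ∀ q ≤ Rd + 2, ∀ k ≤ M, (q = 0 ∨ q = Rd + 2 ∨ k = 0) → ∀ i, 1 ≤ i → i ≤ n →
    ∀ x, -ρ ≤ x → x ≤ xe P η k →
    L i (b + xe P η k) (W q + xe P η k) - L i (b + x) (W q + x) ≤ S * (xe P η k - x) + e
  stat : ∀ i, p i → 1 ≤ i → i ≤ n → ∀ q ≤ Rd + 2, ∀ k ≤ M, (q = 0 ∨ q = Rd + 2 ∨ k = 0) →
    |L i (b + xe P η k) (W q + xe P η k) - L i b b - σ i * (k * (P * η))| ≤ e
  diag : ∀ i, 1 ≤ i → i ≤ n → ∀ k ≤ M,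
    |L i (b + xe P η k) (b + xe P η k) - L i b b - σ i * (k * (P * η))| ≤ e
  gap : ∀ i, ¬ p i → 1 ≤ i → i < n → ∀ j ≤ Rd,
    L i (b - η) (W j - η) + θ ≤ L i (b - η) (W (j + 1) - η)
  grow : ∀ i, ¬ p i → 1 ≤ i → i < n → ∀ k ≤ M,
    L i (b + xe P η k) (W 0 + xe P η k) ≤ L i (b - η) (W 0 - η) + V

variable {L : ℕ → ℝ → ℝ → ℝ} {n : ℕ} {p : ℕ → Prop} {σ : ℕ → ℝ} {Rd M S P : ℕ} {W : ℕ → ℝ}
  {b ρ o c₀ η e θ V : ℝ} {T T₁ w₀ z J : ℕ}

theorem xo_xe {T P : ℕ} {η : ℝ} (k : ℕ) (hT : 1 ≤ T) : xo T η (T + k * P - 1) = xe P η k :=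
  xo_end k hT

theorem xe_zero : xe P η 0 = -η := by
  unfold xe
  push_cast
  ring

theorem xe_ge (hη : 0 ≤ η) (k : ℕ) : -η ≤ xe P η k := by
  unfold xe
  have : 0 ≤ (k : ℝ) * (P * η) := by positivity
  linarith

/-- The slopes at the ends. -/
theorem CelG.slps (C : CelG L n p σ Rd M S P W b ρ o c₀ η e θ V)
    (G : Grd n (Rd + 2) T T₁ P w₀ z J b ρ o η) (hT : T + M * P ≤ T₁) {d : ℕ → ℝ}
    (hd : ∀ l < n, 0 ≤ d l ∧ d l ≤ c₀) {u : ℕ} (hu : (e + S * η) * J + (S + 2) ≤ u) :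
    (gI T T₁ P M Rd).Slps n S u ⌊(b - ρ) * J⌋₊ M Rd (fun k => alt b η T P w₀ z J (k % T₁))
      (grn L W b η T T₁ J d) := by
  have hTp := G.T_pos
  have hPp := G.P_pos
  have hkM : ∀ k ≤ M, k * P ≤ M * P := fun k hk => Nat.mul_le_mul_right _ hk
  have key : ∀ q ≤ Rd + 2, ∀ k ≤ M, (q = 0 ∨ q = Rd + 2 ∨ k = 0) →
      TRC.Slp n S (shl ⌊(b - ρ) * J⌋₊ fun k => alt b η T P w₀ z J (ix T₁ q k % T₁))
        (jg fun k => grn L W b η T T₁ J d (ix T₁ q k)) u (T + k * P - 1 + 1) := by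
    intro q hq k hk hqk
    have := hkM k hk
    refine G.slp C.lns hd (S := S) (e := e) hq (by omega) (fun i h1 hi x hx1 hx2 => ?_) ?_
      C.e_nn hu
    · rw [xo_xe k hTp] at hx2 ⊢
      exact C.slope q hq k hk hqk i h1 hi x hx1 hx2
    · rw [xo_xe k hTp]
      refine C.far.trans (mul_le_mul_of_nonneg_left ?_ (Nat.cast_nonneg S))
      linarith [xe_ge (P := P) G.η_pos.le k]
  refine ⟨fun k hk => key 0 (by omega) k hk (Or.inl rfl), fun k hk => key (Rd + 2) le_rfl k hk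
    (Or.inr (Or.inl rfl)), fun j hj => ?_⟩
  have := key (j + 1) (by omega) 0 (Nat.zero_le _) (Or.inr (Or.inr rfl))
  rw [Nat.zero_mul, Nat.add_zero] at this
  exact this

/-- **The conditions of the line side**, from a path. -/
theorem tms_path {n S N J a₀ wz h u w₀ : ℕ} {al om : ℕ → ℕ} {g : ℕ → ℕ → ℕ}
    (P : TRC.Path n (N + 1) J al om g a₀ wz h u) (hs : TRC.Slp n S (shl a₀ al) (jg g) u (N + 1))
    (h0 : al N + wz ≤ a₀ + w₀) (ht : ∀ k ≤ N, al N + om k ≤ al k + w₀) :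
    Tms n S (N + 1) (shl a₀ al) (wtop (N + 1) w₀ (shl wz om)) (jg g) h u where
  mesh k hk := by
    rcases k with _ | k
    · exact (P.ini (by omega)).2
    · exact P.mesh k (by omega)
  law k hk k' hk' l h1 hl := by
    obtain ⟨l, rfl⟩ : ∃ l', l = l' + 1 := ⟨l - 1, by omega⟩
    rcases k with _ | k
    · obtain rfl : k' = 0 := by omega
      exact Nat.le_add_right _ _
    · rcases k' with _ | k'
      · have := P.law0 k (by omega) l (by omega)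
        show 0 + al k ≤ g k l + a₀ + u
        omega
      · exact (P.law k (by omega) k' (by omega) l (by omega)).1
  slope k hk l h1 hl := hs k hk l h1 hl
  time k hk := by
    unfold wtop
    rw [if_pos rfl]
    rcases k with _ | k
    · rw [if_neg (by omega)]
      exact h0
    · by_cases h1 : k + 1 = N + 1
      · rw [if_pos h1]
        obtain rfl : k = N := by omega
        exact le_rfl
      · rw [if_neg h1]
        exact ht k (by omega)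

/-- The conditions of the line side of the grid. -/
theorem CelG.tms (C : CelG L n p σ Rd M S P W b ρ o c₀ η e θ V)
    (G : Grd n (Rd + 2) T T₁ P w₀ z J b ρ o η) (E : Ends b η T P w₀ z J M)
    (hT : T + M * P ≤ T₁) {d : ℕ → ℝ} (hd : ∀ l < n, 0 ≤ d l ∧ d l ≤ c₀) {h u : ℕ}
    (hu : (e + S * η) * J + (S + 2) ≤ u) (hu' : η * J + 2 ≤ u) (hh : 2 * η * J + 2 ≤ h)
    (hf : (W 0 + M * (P * η)) * J + 1 ≤ b * J) :
    Tms n S ((gI T T₁ P M Rd).NF + 1)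
      (shl ⌊(b - ρ) * J⌋₊ fun k => alt b η T P w₀ z J ((gI T T₁ P M Rd).idF k % T₁))
      (wtop ((gI T T₁ P M Rd).NF + 1) w₀
        (shl ⌊(W 0 - ρ) * J⌋₊ fun k => ⌊grw W η T T₁ ((gI T T₁ P M Rd).idF k) * J⌋₊))
      (jg fun k => grn L W b η T T₁ J d ((gI T T₁ P M Rd).idF k)) h u := by
  have hJ : (0 : ℝ) ≤ J := Nat.cast_nonneg J
  have hTp := G.T_pos
  have hPp := G.P_pos
  have hI := gI_ok G C.lns E hT hh
  have hS := C.slps G hT hd hu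
  have hN : T + M * P - 1 < T₁ := by omega
  have haN : alt b η T P w₀ z J (ix T₁ 0 (T + M * P - 1) % T₁) = w₀ + M * z := by
    rw [ix_mod hN]
    exact E.al G le_rfl
  have hMz : ((M * z : ℕ) : ℝ) ≤ M * (P * η) * J := by
    push_cast
    have := mul_le_mul_of_nonneg_left G.z_le (Nat.cast_nonneg (α := ℝ) M)
    linarith
  refine tms_path ((G.posN C.lns hd hu').path hI.F) (hS.F M le_rfl) ?_ fun k hk => ?_
  · show alt b η T P w₀ z J (ix T₁ 0 (T + M * P - 1) % T₁) + _ ≤ _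
    rw [haN]
    have h1 : ((⌊(W 0 - ρ) * J⌋₊ : ℕ) : ℝ) ≤ (W 0 - ρ) * J :=
      Nat.floor_le (mul_nonneg (by linarith [C.lns.W0]) hJ)
    have h2 := Nat.lt_floor_add_one ((b - ρ) * J)
    have : ((w₀ + M * z + ⌊(W 0 - ρ) * J⌋₊ : ℕ) : ℝ) < ((⌊(b - ρ) * J⌋₊ + w₀ + 1 : ℕ) : ℝ) := by
      push_cast at hMz ⊢
      nlinarith
    have : w₀ + M * z + ⌊(W 0 - ρ) * J⌋₊ < ⌊(b - ρ) * J⌋₊ + w₀ + 1 := by exact_mod_cast this
    omega
  · show alt b η T P w₀ z J (ix T₁ 0 (T + M * P - 1) % T₁) + ⌊grw W η T T₁ (ix T₁ 0 k) * J⌋₊ ≤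
      alt b η T P w₀ z J (ix T₁ 0 k % T₁) + w₀
    have hk' : k ≤ T + M * P - 1 := hk
    rw [haN, ix_mod (by omega)]
    have e2 : grw W η T T₁ (ix T₁ 0 k) = W 0 + xo T η k := by
      unfold grw
      rw [ix_mod (by omega), ix_div (by omega)]
    rw [e2]
    have hin := G.in C.lns (q := 0) (t := k) (Nat.zero_le _) (by omega)
    have h1 : ((⌊(W 0 + xo T η k) * J⌋₊ : ℕ) : ℝ) ≤ (W 0 + xo T η k) * J :=
      Nat.floor_le (mul_nonneg hin.w_nn hJ)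
    have h2 := alt_lb (b := b) (η := η) (T := T) (P := P) (w₀ := w₀) (z := z) (J := J) k
    have : ((w₀ + M * z + ⌊(W 0 + xo T η k) * J⌋₊ : ℕ) : ℝ) ≤
        ((alt b η T P w₀ z J k + w₀ : ℕ) : ℝ) := by
      push_cast at hMz ⊢
      nlinarith
    exact_mod_cast this

end Pool.STAT.GRD
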