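import Pool.Agent.H82.STAT.Gro

/-!
# The final numbers of the grid

`gF`: the fat labels, `gT`: the thin windows; the balls have the numbers `BK.g`. `CelG.fins`,
`CelG.nms`.
-/

set_option autoImplicit false

namespace Pool.STAT.GRD

open Finset MvPolynomial
open Pool.Agent.H49.Ent Pool.Agent.H32.Dense Pool.STK Pool.KS3 Pool.KA Pool.KSAT Pool.PB Pool.GEN
open Pool.STAT.CLO Pool.STAT.CDat Pool.TRC Pool.STAT.DPP Pool.K2S Pool.LEV

/-- The raw number of the coordinate `i` at the closing level `k` of the line `q`. -/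
noncomputable def rwN (L : ℕ → ℝ → ℝ → ℝ) (W : ℕ → ℝ) (b η : ℝ) (T T₁ P J : ℕ) (d : ℕ → ℝ)
    (q k i : ℕ) : ℕ := grn L W b η T T₁ J d (ix T₁ q (T + k * P - 1)) (i - 1)

/-- The numbers of the fat labels. -/
noncomputable def gF (L : ℕ → ℝ → ℝ → ℝ) (σ : ℕ → ℝ) (p : ℕ → Prop) [DecidablePred p]
    (W : ℕ → ℝ) (b η δ : ℝ) (T T₁ P J : ℕ) (d : ℕ → ℝ) (t k i : ℕ) : ℕ :=
  if p i then BK.g L σ b (P * η) δ J k i else rwN L W b η T T₁ P J d 0 k i - t

/-- The numbers of the thin windows. -/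
noncomputable def gT (L : ℕ → ℝ → ℝ → ℝ) (σ : ℕ → ℝ) (p : ℕ → Prop) [DecidablePred p]
    (W : ℕ → ℝ) (b η δ : ℝ) (T T₁ P J : ℕ) (d : ℕ → ℝ) (t j i : ℕ) : ℕ :=
  if p i then BK.g L σ b (P * η) δ J 0 i else rwN L W b η T T₁ P J d j 0 i - t

variable {L : ℕ → ℝ → ℝ → ℝ} {n : ℕ} {p : ℕ → Prop} {σ : ℕ → ℝ} {Rd M S P : ℕ} {W : ℕ → ℝ}
  {b ρ o c₀ η e θ V δ : ℝ} {T T₁ w₀ z J : ℕ} {d : ℕ → ℝ}

/-- The raw number is the number of the point, up to the loss. -/
theorem CelG.rw_bd (C : CelG L n p σ Rd M S P W b ρ o c₀ η e θ V)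
    (G : Grd n (Rd + 2) T T₁ P w₀ z J b ρ o η) (hT : T + M * P ≤ T₁)
    (hd : ∀ l < n, 0 ≤ d l ∧ d l ≤ c₀) {q k i : ℕ} (hq : q ≤ Rd + 2) (hk : k ≤ M) (h1 : 1 ≤ i)
    (hi : i ≤ n) :
    (L i (b + xe P η k) (W q + xe P η k) - d (i - 1)) * J - 1 ≤ rwN L W b η T T₁ P J d q k i ∧
    (rwN L W b η T T₁ P J d q k i : ℝ) ≤
      (L i (b + xe P η k) (W q + xe P η k) - d (i - 1)) * J ∧
    C.lns.In (b + xe P η k) (W q + xe P η k) := by
  have hTp := G.T_pos
  have hPp := G.P_pos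
  have hkM : k * P ≤ M * P := Nat.mul_le_mul_right _ hk
  have ht : T + k * P - 1 < T₁ := by omega
  obtain ⟨l, rfl⟩ : ∃ l, i = l + 1 := ⟨i - 1, by omega⟩
  have e1 : gra b η T T₁ (ix T₁ q (T + k * P - 1)) = b + xe P η k := by
    unfold gra
    rw [ix_mod ht, xo_xe k hTp]
  have e2 : grw W η T T₁ (ix T₁ q (T + k * P - 1)) = W q + xe P η k := by
    unfold grw
    rw [ix_mod ht, ix_div ht, xo_xe k hTp]
  have hin := G.in C.lns hq ht
  rw [xo_xe k hTp] at hin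
  have hlo := hin.lo (i := l + 1) (by omega) hi
  have g1 := grn_lb (L := L) (W := W) (b := b) (η := η) (T := T) (T₁ := T₁) (J := J) d
    (ix T₁ q (T + k * P - 1)) l
  have g2 := grn_ub (L := L) (W := W) (b := b) (η := η) (T := T) (T₁ := T₁) (J := J) (d := d)
    (k := ix T₁ q (T + k * P - 1)) (l := l) (by
      rw [e1, e2]
      exact (hd l (by omega)).2.trans hlo)
  rw [e1, e2] at g1 g2
  exact ⟨g1, g2, hin⟩

section
variable [DecidablePred p]

/-- **The final numbers against the raw ones.** -/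
theorem CelG.fins (C : CelG L n p σ Rd M S P W b ρ o c₀ η e θ V)
    (G : Grd n (Rd + 2) T T₁ P w₀ z J b ρ o η) (hT : T + M * P ≤ T₁) {φ : ℝ}
    (hd : ∀ l < n, 0 ≤ d l ∧ d l ≤ φ) (hφ : φ ≤ c₀) (hδ : ∀ i, 1 ≤ i → i ≤ n → δ ≤ L i b b)
    {x t : ℕ} (hx : (x : ℝ) + 1 ≤ (δ - e - φ) * J) (ht : (δ + e) * J + 1 ≤ t)
    (hct : (t : ℝ) + 2 ≤ (c₀ - φ) * J) (hxt : x ≤ t) :
    (gI T T₁ P M Rd).Fins n M Rd x t (grn L W b η T T₁ J d) (gF L σ p W b η δ T T₁ P J d t)
      (BK.g L σ b (P * η) δ J) (gT L σ p W b η δ T T₁ P J d t) := by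
  have hJ : (0 : ℝ) ≤ J := Nat.cast_nonneg J
  have hPη : 0 ≤ (P : ℝ) * η := by have := G.η_pos; positivity
  have hd' : ∀ l < n, 0 ≤ d l ∧ d l ≤ c₀ := fun l hl => ⟨(hd l hl).1, (hd l hl).2.trans hφ⟩
  -- static
  have key : ∀ q ≤ Rd + 2, ∀ k ≤ M, ∀ i, 1 ≤ i → i ≤ n →
      |L i (b + xe P η k) (W q + xe P η k) - L i b b - σ i * (k * (P * η))| ≤ e →
      BK.g L σ b (P * η) δ J k i + x ≤ rwN L W b η T T₁ P J d q k i ∧
      rwN L W b η T T₁ P J d q k i ≤ BK.g L σ b (P * η) δ J k i + t := by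
    intro q hq k hk i h1 hi hs
    obtain ⟨r1, r2, r3⟩ := C.rw_bd G hT hd' hq hk h1 hi
    have b1 := BK.g_ub (J := J) (k := k) (hδ i h1 hi) (C.σ_nn i h1 hi) hPη
    have b2 := BK.g_lb (L := L) (σ := σ) (b := b) (ζ := P * η) (δ := δ) (J := J) (k := k) (i := i)
    obtain ⟨s1, s2⟩ := abs_le.1 hs
    obtain ⟨d1, d2⟩ := hd (i - 1) (by omega)
    constructor
    · have f1 : (L i b b + σ i * (k * (P * η)) - e - φ) * J ≤
          (L i (b + xe P η k) (W q + xe P η k) - d (i - 1)) * J :=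
        mul_le_mul_of_nonneg_right (by linarith) hJ
      have : ((BK.g L σ b (P * η) δ J k i + x : ℕ) : ℝ) ≤
          ((rwN L W b η T T₁ P J d q k i : ℕ) : ℝ) := by
        push_cast
        nlinarith
      exact_mod_cast this
    · have f1 : (L i (b + xe P η k) (W q + xe P η k) - d (i - 1)) * J ≤
          (L i b b + σ i * (k * (P * η)) + e) * J := mul_le_mul_of_nonneg_right (by linarith) hJ
      have : ((rwN L W b η T T₁ P J d q k i : ℕ) : ℝ) ≤
          ((BK.g L σ b (P * η) δ J k i + t : ℕ) : ℝ) := by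
        push_cast
        nlinarith
      exact_mod_cast this
  -- dynamic
  have key2 : ∀ q ≤ Rd + 2, ∀ k ≤ M, ∀ i, 1 ≤ i → i ≤ n →
      rwN L W b η T T₁ P J d q k i - t + x ≤ rwN L W b η T T₁ P J d q k i ∧
      rwN L W b η T T₁ P J d q k i ≤ rwN L W b η T T₁ P J d q k i - t + t := by
    intro q hq k hk i h1 hi
    obtain ⟨r1, r2, r3⟩ := C.rw_bd G hT hd' hq hk h1 hi
    obtain ⟨d1, d2⟩ := hd (i - 1) (by omega)
    have f1 : (c₀ - φ) * J ≤ (L i (b + xe P η k) (W q + xe P η k) - d (i - 1)) * J :=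
      mul_le_mul_of_nonneg_right (by linarith [r3.lo h1 hi]) hJ
    have : ((t : ℕ) : ℝ) ≤ ((rwN L W b η T T₁ P J d q k i : ℕ) : ℝ) := by linarith
    have : t ≤ rwN L W b η T T₁ P J d q k i := by exact_mod_cast this
    omega
  refine ⟨fun k hk i h1 hi => ?_, fun k hk i h1 hi => ?_, fun j hj i h1 hi => ?_⟩
  · show gF L σ p W b η δ T T₁ P J d t k i + x ≤ rwN L W b η T T₁ P J d 0 k i ∧
      rwN L W b η T T₁ P J d 0 k i ≤ gF L σ p W b η δ T T₁ P J d t k i + t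
    unfold gF
    by_cases hp : p i
    · rw [if_pos hp]
      exact key 0 (by omega) k hk i h1 hi (C.stat i hp h1 hi 0 (by omega) k hk (Or.inl rfl))
    · rw [if_neg hp]
      exact key2 0 (by omega) k hk i h1 hi
  · refine key (Rd + 2) le_rfl k hk i h1 hi ?_
    rw [C.lns.WQ]
    exact C.diag i h1 hi k hk
  · have e1 : rwN L W b η T T₁ P J d (j + 1) 0 i =
        grn L W b η T T₁ J d (ix T₁ (j + 1) (T - 1)) (i - 1) := by
      have h0 : T + 0 * P - 1 = T - 1 := by omega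
      unfold rwN
      rw [h0]
    show gT L σ p W b η δ T T₁ P J d t (j + 1) i + x ≤
        grn L W b η T T₁ J d (ix T₁ (j + 1) (T - 1)) (i - 1) ∧
      grn L W b η T T₁ J d (ix T₁ (j + 1) (T - 1)) (i - 1) ≤
        gT L σ p W b η δ T T₁ P J d t (j + 1) i + t
    rw [← e1]
    unfold gT
    by_cases hp : p i
    · rw [if_pos hp]
      exact key (j + 1) (by omega) 0 (Nat.zero_le _) i h1 hi
        (C.stat i hp h1 hi (j + 1) (by omega) 0 (Nat.zero_le _) (Or.inr (Or.inr rfl)))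
    · rw [if_neg hp]
      exact key2 (j + 1) (by omega) 0 (Nat.zero_le _) i h1 hi

/-- **The numerical conditions.** -/
theorem CelG.nms (C : CelG L n p σ Rd M S P W b ρ o c₀ η e θ V)
    (G : Grd n (Rd + 2) T T₁ P w₀ z J b ρ o η) (hT : T + M * P ≤ T₁) {φ : ℝ}
    (hd : ∀ l < n, 0 ≤ d l ∧ d l ≤ φ) (hφ : φ ≤ c₀) (hδ : ∀ i, 1 ≤ i → i ≤ n → δ ≤ L i b b)
    (hδc : ∀ i, 1 ≤ i → i ≤ n → δ + c₀ ≤ L i b b + φ)
    {t gn Rr : ℕ} (ht : (δ + e) * J + 1 ≤ t) (hct : (t : ℝ) + 2 ≤ (c₀ - φ) * J)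
    (hgn : (gn : ℝ) ≤ θ * J - 1) {D : ℝ} (hDσ : ∀ i, 1 ≤ i → i ≤ n → σ i * (M * (P * η)) ≤ D)
    (hDV : V ≤ D) (hDM : (M + 1) * (P * η) ≤ D) (hRr : D * J + 1 ≤ Rr)
    (htop : w₀ + (M + 1) * z ≤ J) :
    Nms p n w₀ z M Rd J Rr 0 gn ((range n).filter fun i => ¬ p i)
      (gF L σ p W b η δ T T₁ P J d t) (BK.g L σ b (P * η) δ J)
      (gT L σ p W b η δ T T₁ P J d t) := by
  classical
  have hJ : (0 : ℝ) ≤ J := Nat.cast_nonneg J
  have hPη : 0 ≤ (P : ℝ) * η := by have := G.η_pos; positivity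
  have hd' : ∀ l < n, 0 ≤ d l ∧ d l ≤ c₀ := fun l hl => ⟨(hd l hl).1, (hd l hl).2.trans hφ⟩
  have hin : ∀ i, i ≤ n → ¬ p i → i < n := fun i hi hp => by
    rcases Nat.lt_or_ge i n with h | h
    · exact h
    · obtain rfl : i = n := by omega
      exact absurd (C.stc.ge i le_rfl) hp
  have hb1 : ∀ k i, 1 ≤ i → i ≤ n → 1 ≤ BK.g L σ b (P * η) δ J k i := fun k i h1 hi => by
    have b2 := BK.g_lb (L := L) (σ := σ) (b := b) (ζ := P * η) (δ := δ) (J := J) (k := k) (i := i)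
    have b3 : 0 ≤ σ i * (k * (P * η)) :=
      mul_nonneg (C.σ_nn i h1 hi) (mul_nonneg (Nat.cast_nonneg _) hPη)
    have b4 : (c₀ - φ) * J ≤ (L i b b + σ i * (k * (P * η)) - δ) * J :=
      mul_le_mul_of_nonneg_right (by linarith [hδc i h1 hi]) hJ
    have b5 : (0 : ℝ) ≤ t := Nat.cast_nonneg _
    have : (1 : ℝ) ≤ BK.g L σ b (P * η) δ J k i := by linarith
    exact_mod_cast this
  have hraw : ∀ q ≤ Rd + 2, ∀ k ≤ M, ∀ i, 1 ≤ i → i ≤ n →
      t + 1 ≤ rwN L W b η T T₁ P J d q k i := by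
    intro q hq k hk i h1 hi
    obtain ⟨r1, r2, r3⟩ := C.rw_bd G hT hd' hq hk h1 hi
    obtain ⟨d1, d2⟩ := hd (i - 1) (by omega)
    have f1 : (c₀ - φ) * J ≤ (L i (b + xe P η k) (W q + xe P η k) - d (i - 1)) * J :=
      mul_le_mul_of_nonneg_right (by linarith [r3.lo h1 hi]) hJ
    have : ((t + 1 : ℕ) : ℝ) ≤ ((rwN L W b η T T₁ P J d q k i : ℕ) : ℝ) := by
      push_cast
      linarith
    exact_mod_cast this
  have hmono : ∀ k ≤ M, ∀ i, 1 ≤ i → i ≤ n →
      rwN L W b η T T₁ P J d 0 0 i ≤ rwN L W b η T T₁ P J d 0 k i := by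
    intro k hk i h1 hi
    have hTp := G.T_pos
    have hPp := G.P_pos
    have hkM : k * P ≤ M * P := Nat.mul_le_mul_right _ hk
    obtain ⟨-, -, r3⟩ := C.rw_bd G hT hd' (q := 0) (k := 0) (by omega) (Nat.zero_le _) h1 hi
    obtain ⟨-, -, r3'⟩ := C.rw_bd G hT hd' (q := 0) (k := k) (by omega) hk h1 hi
    have hx : xe P η 0 ≤ xe P η k := by
      rw [xe_zero]
      exact xe_ge G.η_pos.le k
    have h3 := r3.mono r3' (by linarith) (by linarith) h1 hi
    obtain ⟨l, rfl⟩ : ∃ l, i = l + 1 := ⟨i - 1, by omega⟩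
    have e1 : ∀ k ≤ M, gra b η T T₁ (ix T₁ 0 (T + k * P - 1)) = b + xe P η k := fun k hk => by
      have : k * P ≤ M * P := Nat.mul_le_mul_right _ hk
      unfold gra
      rw [ix_mod (by omega), xo_xe k hTp]
    have e2 : ∀ k ≤ M, grw W η T T₁ (ix T₁ 0 (T + k * P - 1)) = W 0 + xe P η k := fun k hk => by
      have : k * P ≤ M * P := Nat.mul_le_mul_right _ hk
      unfold grw
      rw [ix_mod (by omega), ix_div (by omega), xo_xe k hTp]
    refine Nat.floor_le_floor (mul_le_mul_of_nonneg_right ?_ hJ)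
    rw [e1 0 (Nat.zero_le _), e2 0 (Nat.zero_le _), e1 k hk, e2 k hk]
    show L (l + 1) (b + xe P η 0) (W 0 + xe P η 0) - _ ≤ L (l + 1) (b + xe P η k) (W 0 + xe P η k) - _
    have h4 : l + 1 - 1 = l := by omega
    rw [h4]
    linarith
  have htt0 : ∀ j, ∀ i, 1 ≤ i → ¬ p i → tt w₀ (gF L σ p W b η δ T T₁ P J d t)
      (gT L σ p W b η δ T T₁ P J d t) j i = rwN L W b η T T₁ P J d j 0 i - t := by
    intro j i h1 hp
    unfold tt
    rw [if_neg (by omega)]
    split_ifs with h0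
    · rw [h0]
      exact if_neg hp
    · exact if_neg hp
  have htt1 : ∀ j, ∀ i, 1 ≤ i → p i → tt w₀ (gF L σ p W b η δ T T₁ P J d t)
      (gT L σ p W b η δ T T₁ P J d t) j i = BK.g L σ b (P * η) δ J 0 i := by
    intro j i h1 hp
    unfold tt
    rw [if_neg (by omega)]
    split_ifs with h0
    · exact if_pos hp
    · exact if_pos hp
  have hM0 : (0 : ℝ) ≤ (M : ℝ) * (P * η) := mul_nonneg (Nat.cast_nonneg _) hPη
  refine
    { n_pos := C.n_pos
      stc := C.stc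
      top := htop
      U_iff := fun i hi => by
        rw [mem_filter, mem_range]
        exact ⟨fun h => h.2, fun h => ⟨hi, h⟩⟩
      card := C.card _ fun i hi => by
        rw [mem_filter, mem_range] at hi
        exact hi
      g_pos := fun k hk i h1 hi => ?_
      g_ge := fun k hk i h1 hi => ?_
      hg := fun k hk i h1 hi hp => (if_pos hp).symm
      ratio := fun k hk i h1 hi => ?_
      ratio0 := ?_
      st := fun j hj i h1 hi hp => by
        rw [htt1 j i h1 hp, htt1 (j + 1) i h1 hp]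
        omega
      dy := fun j hj i h1 hi hp => ?_
      hB := fun k hk i h1 hi => ?_ }
  · unfold gF
    split_ifs with hp
    · exact hb1 k i h1 hi
    · have := hraw 0 (by omega) k hk i h1 hi
      omega
  · unfold gF
    split_ifs with hp
    · exact BK.g_mono (C.σ_nn i h1 hi) hPη (Nat.zero_le k)
    · exact Nat.sub_le_sub_right (hmono k hk i h1 hi) t
  · unfold gF
    split_ifs with hp
    · have b1 := BK.g_ub (J := J) (k := k) (hδ i h1 hi) (C.σ_nn i h1 hi) hPη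
      have b2 := BK.g_lb (L := L) (σ := σ) (b := b) (ζ := P * η) (δ := δ) (J := J) (k := 0)
        (i := i)
      have b3 : (k : ℝ) * (P * η) ≤ M * (P * η) :=
        mul_le_mul_of_nonneg_right (by exact_mod_cast hk) hPη
      have b4 := (mul_le_mul_of_nonneg_left b3 (C.σ_nn i h1 hi)).trans (hDσ i h1 hi)
      have b5 := mul_le_mul_of_nonneg_right b4 hJ
      have : ((BK.g L σ b (P * η) δ J k i : ℕ) : ℝ) ≤
          ((BK.g L σ b (P * η) δ J 0 i + Rr : ℕ) : ℝ) := by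
        push_cast at b2 ⊢
        nlinarith
      exact_mod_cast this
    · obtain ⟨r1, r2, r3⟩ := C.rw_bd G hT hd' (q := 0) (k := 0) (by omega) (Nat.zero_le _) h1 hi
      obtain ⟨r1', r2', r3'⟩ := C.rw_bd G hT hd' (q := 0) (k := k) (by omega) hk h1 hi
      have h3 := C.grow i hp h1 (hin i hi hp) k hk
      rw [xe_zero] at r1
      have h4 := mul_le_mul_of_nonneg_right (h3.trans (add_le_add_right hDV _)) hJ
      have h5 : ((rwN L W b η T T₁ P J d 0 k i : ℕ) : ℝ) ≤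
          ((rwN L W b η T T₁ P J d 0 0 i + Rr : ℕ) : ℝ) := by
        push_cast
        have e1 : b + -η = b - η := by ring
        have e2 : W 0 + -η = W 0 - η := by ring
        rw [e1, e2] at r1
        nlinarith
      have h6 : rwN L W b η T T₁ P J d 0 k i ≤ rwN L W b η T T₁ P J d 0 0 i + Rr := by
        exact_mod_cast h5
      have h7 := hraw 0 (by omega) 0 (Nat.zero_le _) i h1 hi
      omega
  · have h3 := mul_le_mul_of_nonneg_left G.z_le (by positivity : (0 : ℝ) ≤ (M : ℝ) + 1)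
    have h4 := mul_le_mul_of_nonneg_right hDM hJ
    have : (((M + 1) * z : ℕ) : ℝ) ≤ (Rr : ℝ) := by
      push_cast
      nlinarith
    exact_mod_cast this
  · rw [htt0 j i h1 hp, htt0 (j + 1) i h1 hp]
    obtain ⟨r1, r2, r3⟩ := C.rw_bd G hT hd' (q := j) (k := 0) (by omega) (Nat.zero_le _) h1 hi.le
    obtain ⟨r1', r2', r3'⟩ := C.rw_bd G hT hd' (q := j + 1) (k := 0) (by omega) (Nat.zero_le _) h1
      hi.le
    have h3 := C.gap i hp h1 hi j hj
    have e1 : b + xe P η 0 = b - η := by rw [xe_zero]; ring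
    have e2 : ∀ q, W q + xe P η 0 = W q - η := fun q => by rw [xe_zero]; ring
    rw [e1, e2] at r2 r1'
    have h4 := mul_le_mul_of_nonneg_right h3 hJ
    have h5 : ((rwN L W b η T T₁ P J d j 0 i + gn : ℕ) : ℝ) ≤
        ((rwN L W b η T T₁ P J d (j + 1) 0 i : ℕ) : ℝ) := by
      push_cast
      nlinarith
    have h6 : rwN L W b η T T₁ P J d j 0 i + gn ≤ rwN L W b η T T₁ P J d (j + 1) 0 i := by
      exact_mod_cast h5
    have h7 := hraw j (by omega) 0 (Nat.zero_le _) i h1 hi.le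
    omega
  · unfold gT
    split_ifs with hp
    · exact BK.g_mono (C.σ_nn i h1 hi.le) hPη (Nat.zero_le k)
    · obtain ⟨r1, r2, r3⟩ := C.rw_bd G hT hd' (q := Rd + 1) (k := 0) (by omega) (Nat.zero_le _) h1
        hi.le
      obtain ⟨d1, d2⟩ := hd (i - 1) (by omega)
      have hbb : C.lns.In b b := ⟨by linarith [C.lns.Wb (Nat.zero_le (Rd + 2)), C.lns.ρ_nn],
        by linarith [C.lns.ρ_nn], le_rfl, by linarith [C.lns.o_nn]⟩
      have hη := G.η_pos
      have e1 : b + xe P η 0 = b - η := by rw [xe_zero]; ring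
      have e2 : W (Rd + 1) + xe P η 0 = W (Rd + 1) - η := by rw [xe_zero]; ring
      have h3 := r3.mono hbb (by rw [e1]; linarith)
        (by rw [e2]; linarith [C.lns.Wb (show Rd + 1 ≤ Rd + 2 by omega)]) h1 hi.le
      have b2 := BK.g_lb (L := L) (σ := σ) (b := b) (ζ := P * η) (δ := δ) (J := J) (k := k)
        (i := i)
      have b3 : 0 ≤ σ i * (k * (P * η)) :=
        mul_nonneg (C.σ_nn i h1 hi.le) (mul_nonneg (Nat.cast_nonneg _) hPη)
      have f1 : (L i (b + xe P η 0) (W (Rd + 1) + xe P η 0) - d (i - 1)) * J ≤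
          (L i b b + σ i * (k * (P * η))) * J := mul_le_mul_of_nonneg_right (by linarith) hJ
      have f2 : 0 ≤ e * J := mul_nonneg C.e_nn hJ
      have h5 : ((rwN L W b η T T₁ P J d (Rd + 1) 0 i : ℕ) : ℝ) ≤
          ((BK.g L σ b (P * η) δ J k i + t : ℕ) : ℝ) := by
        push_cast
        nlinarith
      have h6 : rwN L W b η T T₁ P J d (Rd + 1) 0 i ≤ BK.g L σ b (P * η) δ J k i + t := by
        exact_mod_cast h5
      omega

end

end Pool.STAT.GRD
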