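import Pool.Agent.H82.STAT.Grp

/-!
# The drop-out system of a cell from the chains at a grid of points

`grd_grid`: one `J`, all numbers explicit.
-/

set_option autoImplicit false

namespace Pool.STAT.GRD

open Finset MvPolynomial
open Pool.Agent.H49.Ent Pool.Agent.H32.Dense Pool.STK Pool.KS3 Pool.KA Pool.KSAT Pool.PB Pool.GEN
open Pool.STAT.CLO Pool.STAT.CDat Pool.TRC Pool.STAT.DPP Pool.K2S Pool.LEV

/-- The precision and the natural exponent. -/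
theorem add_nlp_le {g : ℕ → ℕ} {i X : ℕ} (h : ∀ l ≤ i, g l ≤ X) : g i + nlp g 0 i ≤ X := by
  unfold nlp
  have h1 : (Finset.Icc 0 i).sup g ≤ X := Finset.sup_le fun l hl => h l (Finset.mem_Icc.1 hl).2
  have h2 : g i ≤ (Finset.Icc 0 i).sup g :=
    Finset.le_sup (f := g) (Finset.mem_Icc.2 ⟨Nat.zero_le _, le_rfl⟩)
  omega

/-- **The numbers in digits.** `h`: mesh, `u`: defects, `s`: losses, `t`: tolerance, `Rr`: the
distance of the levels, `gn`: the gain in a thin window, `X`: the largest precision. -/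
structure Dgt (L : ℕ → ℝ → ℝ → ℝ) (n : ℕ) (σ : ℕ → ℝ) (M S P : ℕ) (W : ℕ → ℝ)
    (b o c₀ η e θ V δ φ D E : ℝ) (c Cst w₀ z J h u₀ u s t Rr gn X ee : ℕ) (e₀ : ℝ) : Prop where
  φ_le : φ ≤ c₀
  δ_le : ∀ i, 1 ≤ i → i ≤ n → δ ≤ L i b b ∧ δ + c₀ ≤ L i b b + φ
  Dσ : ∀ i, 1 ≤ i → i ≤ n → σ i * (M * (P * η)) ≤ D
  DV : V ≤ D
  DM : (M + 1) * (P * η) ≤ D
  w₀_eq : w₀ = ⌊b * J⌋₊
  z_pos : 1 ≤ z
  fat : (W 0 + M * (P * η)) * J + 1 ≤ b * J
  top : w₀ + (M + 1) * z ≤ J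
  u₀_le : u₀ + Cst ≤ u
  u_ge : (e + (S + 1) * η) * J + (S + 2) ≤ u
  h_ge : 2 * η * J + 2 ≤ h
  c_ge : (Cst : ℝ) + 1 ≤ (c₀ - φ) * J
  e₀_nn : 0 ≤ e₀
  tm : Cst * (e₀ + 1) ≤ (J : ℝ) - w₀
  s_ge : (c : ℝ) * (h + u) + Cst * (e₀ + 1) ≤ s
  x_le : ((c * (s + 1) : ℕ) : ℝ) + 1 ≤ (δ - e - φ) * J
  t_ge : (δ + e) * J + 1 ≤ t
  t_le : (t : ℝ) + 2 ≤ (c₀ - φ) * J
  xt : c * (s + 1) ≤ t
  gn_le : (gn : ℝ) ≤ θ * J - 1
  Rr_ge : D * J + 1 ≤ Rr
  X_ge : ∀ i, 1 ≤ i → i ≤ n → L i (b + o) (b + o) * J ≤ X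
  ee_eq : ee = ⌊E * J⌋₊

/-- **The drop-out system of a cell.** -/
theorem grd_grid (n S Rd : ℕ) (hS : 1 ≤ S) : ∃ (c Kst K' KH c' : ℕ) (L₀ C₀ T₀ : ℝ), 1 ≤ Kst ∧
    1 ≤ K' ∧ 1 ≤ L₀ ∧ 1 ≤ c ∧ 1 ≤ C₀ ∧ 2 ≤ T₀ ∧ ∀ K NF : ℕ, ∃ Cst : ℕ,
    ∀ {d J : ℕ} {F : Fam d J} {co : ℕ → Fin d} {p : ℕ → Prop} [DecidablePred p]
      {L : ℕ → ℝ → ℝ → ℝ} {σ : ℕ → ℝ} {M P T T₁ : ℕ} {W : ℕ → ℝ}
      {b ρ o c₀ η e θ V δ φ D E : ℝ} {w₀ z h u₀ u s t Rr gn X ee : ℕ} {e₀ C₁ Sr Q : ℝ}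
      {dl : ℕ → ℝ} {δm : ℕ → ℕ} {A : F.Ω → Prop}
      {G : ℕ → PtT F → ℕ → MvPolynomial (Option (Fin d)) ℝ}
      {H : ℕ → LnT F → ℕ → MvPolynomial (Option (Fin d)) ℝ} (hA : 0 < Pe F.p A),
      CelG L n p σ Rd M S P W b ρ o c₀ η e θ V →
      Grd n (Rd + 2) T T₁ P w₀ z J b ρ o η → Ends b η T P w₀ z J M → T + M * P ≤ T₁ →
      T + M * P - 1 = NF →
      Dgt L n σ M S P W b o c₀ η e θ V δ φ D E c Cst w₀ z J h u₀ u s t Rr gn X ee e₀ →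
      Pool.CHT.MCh F co n (fun _ => K) ((Rd + 2 + 1) * T₁)
        (fun k k' => gra b η T T₁ k ≤ gra b η T T₁ k' ∧ grw W η T T₁ k ≤ grw W η T T₁ k')
        (fun k => ⌊gra b η T T₁ k * J⌋₊) (fun k => ⌊grw W η T T₁ k * J⌋₊) ee
        (grn L W b η T T₁ J dl) δm A G H → Inj co n →
      (∀ l < n, 0 ≤ dl l ∧ dl l ≤ φ) → (∀ l < n, δm l ≤ u₀) →
      (Pool.FLF.Fam.sub F A hA).Tm e₀ →
      2 ^ (c * (s + t + 1)) ≤ Real.exp (C₁ * z) → T₀ ≤ Sr → 2 ^ (c * (t + 1)) ≤ Sr →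
      2 ^ (c * (t + Rr + 1)) ≤ Q →
      Real.exp (C₀ * (((c * (t + 1) : ℕ) : ℝ) * Real.log 2 + 1)) ≤ Q →
      ∃ (C B : CDat F) (T' : TDat F) (A' : F.Ω → Prop), (∀ ω, A' ω → A ω) ∧
        Pe F.p A ≤ 2 * Kst ^ (M + 1) * K' ^ (M + Rd + 2) * Pe F.p A' ∧
        (∀ k, C.HasZ w₀ z k) ∧
        Hyp C B T' p (fun i => co (i - 1)) n KH w₀ z M (gF L σ p W b η δ T T₁ P J dl t)
          (BK.g L σ b (P * η) δ J) C₁ Sr Q
          (Sr ^ c' * Real.exp (C₀ * (((c * (t + 1) : ℕ) : ℝ) * Real.log 2 + 1) -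
            (gn : ℝ) * Real.log 2)) A' ∧
        (∀ k ≤ M, ∀ y : ℕ, X + y + c * (s + 1) + ee + Cst ≤ J →
          C.Near (fun i => co (i - 1)) n w₀ z (gF L σ p W b η δ T T₁ P J dl t) k y L₀ A') ∧
        (∀ k ≤ M, ∀ y : ℕ, X + y + 2 * t + ee + Cst ≤ J →
          B.Near (fun i => co (i - 1)) n w₀ z (BK.g L σ b (P * η) δ J) k y L₀ A') ∧
        ∀ k ≤ M, ∀ ω, A' ω → (pthI F co n (NF + 1) ⌊(b - ρ) * J⌋₊
          (fun k => alt b η T P w₀ z J (k % T₁)) (grn L W b η T T₁ J dl) G (ix T₁ 0)).Er n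
          (T + k * P) u t (gF L σ p W b η δ T T₁ P J dl t k) ω (C.Ph w₀ z k ω) := by
  obtain ⟨c, Kst, K', KH, c', L₀, C₀, T₀, hKst, hK', hL₀, hc, hC₀, hT₀, hg⟩ := grd_mch n S Rd hS
  refine ⟨c, Kst, K', KH, c', L₀, C₀, T₀, hKst, hK', hL₀, hc, hC₀, hT₀, fun K NF => ?_⟩
  obtain ⟨Cst, hg⟩ := hg K NF (NF + 1)
  refine ⟨Cst, ?_⟩
  intro dm J F co p _ L σ M P T T₁ W b ρ o c₀ η e θ V δ φ D E w₀ z h u₀ u s t Rr gn X ee e₀ C₁ Sr
    Q dl δm A G H hA CE GR EN hT hNF DG hM hinj hd hδm hTm hC₁ hT₀S hcS hcQ hCQ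
  have hJ : (0 : ℝ) ≤ J := Nat.cast_nonneg J
  have hTp := GR.T_pos
  have hPp := GR.P_pos
  have hη := GR.η_pos
  have hd' : ∀ l < n, 0 ≤ dl l ∧ dl l ≤ c₀ := fun l hl => ⟨(hd l hl).1, (hd l hl).2.trans DG.φ_le⟩
  have hηJ : 0 ≤ η * J := mul_nonneg hη.le hJ
  have hSη : (0 : ℝ) ≤ (S : ℝ) * (η * J) := mul_nonneg (Nat.cast_nonneg _) hηJ
  have hS0 : (0 : ℝ) ≤ S := Nat.cast_nonneg _
  have hu1 : η * J + 2 ≤ (u : ℝ) := by
    have h1 := DG.u_ge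
    have h2 : 0 ≤ e * J := mul_nonneg CE.e_nn hJ
    nlinarith
  have hu2 : (e + S * η) * J + (S + 2) ≤ (u : ℝ) := by
    have h1 := DG.u_ge
    nlinarith
  have hI := gI_ok GR CE.lns EN hT DG.h_ge
  have hMP : M * P ≤ T₁ := by omega
  -- all raw numbers are at most `X`
  have hX : ∀ q ≤ Rd + 2, ∀ k ≤ M, ∀ l < n,
      grn L W b η T T₁ J dl (ix T₁ q (T + k * P - 1)) l ≤ X := by
    intro q hq k hk l hl
    obtain ⟨r1, r2, r3⟩ := CE.rw_bd GR hT hd' hq hk (i := l + 1) (by omega) (by omega)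
    have h1 : CE.lns.In (b + o) (b + o) := ⟨by
        linarith [CE.lns.Wb (Nat.zero_le (Rd + 2)), CE.lns.ρ_nn, CE.lns.o_nn],
      by linarith [CE.lns.ρ_nn, CE.lns.o_nn], le_rfl, le_rfl⟩
    have h2 := r3.mono h1 r3.aT (r3.wa.trans r3.aT) (i := l + 1) (by omega) (by omega)
    have h3 : (L (l + 1) (b + xe P η k) (W q + xe P η k) - dl l) * J ≤
        L (l + 1) (b + o) (b + o) * J :=
      mul_le_mul_of_nonneg_right (by linarith [(hd l hl).1]) hJ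
    have h4 : ((rwN L W b η T T₁ P J dl q k (l + 1) : ℕ) : ℝ) ≤ X :=
      (r2.trans h3).trans (DG.X_ge (l + 1) (by omega) (by omega))
    exact_mod_cast h4
  have hM' := mch_up (a' := fun k => alt b η T P w₀ z J (k % T₁)) hM fun k _ => alt_ge _
  obtain ⟨C, B, T', A', o1, o2, o3, o4, o5, o6, o7⟩ := hg (C₁ := C₁) (Sr := Sr) (Q := Q)
    (p := p) (t := t) (v := 0) (gn := gn) (Rr := Rr) (s := s) (w₀ := w₀) (z := z) (M := M)
    (I := gI T T₁ P M Rd) hA hM' hinj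
    (GR.posN CE.lns hd' hu1) hδm DG.u₀_le hI (CE.slps GR hT hd' hu2) hNF
    (by show T + M * P - 1 + 1 ≤ NF + 1; omega)
    (fun j _ => by show T - 1 + 1 ≤ NF + 1; have : T - 1 ≤ T + M * P - 1 := by omega
                   omega) DG.z_pos
    (by
      have h1 := CE.tms GR EN hT hd' hu2 hu1 DG.h_ge DG.fat
      have h2 : (gI T T₁ P M Rd).NF = NF := hNF
      rw [h2] at h1
      exact h1)
    (by
      show ⌊grw W η T T₁ (ix T₁ 0 NF) * J⌋₊ ≤ w₀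
      rw [DG.w₀_eq]
      refine Nat.floor_le_floor (mul_le_mul_of_nonneg_right ?_ hJ)
      unfold grw
      rw [ix_mod (by omega), ix_div (by omega), ← hNF, xo_xe M hTp]
      have h1 := DG.fat
      have h2 : (W 0 + M * (P * η)) * J ≤ b * J := by linarith
      unfold xe
      rcases hJ.lt_or_eq with h3 | h3
      · have := le_of_mul_le_mul_right h2 h3
        linarith
      · rw [← h3] at h1
        norm_num at h1)
    (fun k hk l hl => by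
      have hk' : k < T₁ := by omega
      have h1 := GR.in CE.lns (q := 0) (t := k) (Nat.zero_le _) hk'
      have h2 := h1.lo (i := l + 1) (by omega) (by omega)
      have h3 := grn_lb (L := L) (W := W) (b := b) (η := η) (T := T) (T₁ := T₁) (J := J) dl
        (ix T₁ 0 k) l
      have e1 : gra b η T T₁ (ix T₁ 0 k) = b + xo T η k := by
        unfold gra
        rw [ix_mod hk']
      have e2 : grw W η T T₁ (ix T₁ 0 k) = W 0 + xo T η k := by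
        unfold grw
        rw [ix_mod hk', ix_div hk']
      rw [e1, e2] at h3
      have h4 : (c₀ - φ) * J ≤ (L (l + 1) (b + xo T η k) (W 0 + xo T η k) - dl l) * J :=
        mul_le_mul_of_nonneg_right (by linarith [(hd l hl).2]) hJ
      have h5 := DG.c_ge
      show Cst ≤ grn L W b η T T₁ J dl (ix T₁ 0 k) l
      have : ((Cst : ℕ) : ℝ) ≤ ((grn L W b η T T₁ J dl (ix T₁ 0 k) l : ℕ) : ℝ) := by linarith
      exact_mod_cast this)
    DG.e₀_nn hTm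
    (by
      have h1 : ⌊grw W η T T₁ (ix T₁ 0 NF) * J⌋₊ ≤ w₀ := by
        rw [DG.w₀_eq]
        refine Nat.floor_le_floor (mul_le_mul_of_nonneg_right ?_ hJ)
        unfold grw
        rw [ix_mod (by omega), ix_div (by omega), ← hNF, xo_xe M hTp]
        have h1 := DG.fat
        have h2 : (W 0 + M * (P * η)) * J ≤ b * J := by linarith
        unfold xe
        rcases hJ.lt_or_eq with h3 | h3
        · have := le_of_mul_le_mul_right h2 h3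
          linarith
        · rw [← h3] at h1
          norm_num at h1
      have h2 : w₀ ≤ J := by have := DG.top; omega
      have h3 : J - w₀ ≤ J - ⌊grw W η T T₁ (ix T₁ 0 NF) * J⌋₊ := by omega
      have h4 : ((J - w₀ : ℕ) : ℝ) ≤ ((J - ⌊grw W η T T₁ (ix T₁ 0 NF) * J⌋₊ : ℕ) : ℝ) := by
        exact_mod_cast h3
      rw [Nat.cast_sub h2] at h4
      exact DG.tm.trans h4)
    DG.s_ge
    (CE.fins GR hT hd DG.φ_le (fun i h1 hi => (DG.δ_le i h1 hi).1) DG.x_le DG.t_ge DG.t_le DG.xt)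
    DG.xt
    (CE.nms GR hT hd DG.φ_le (fun i h1 hi => (DG.δ_le i h1 hi).1)
      (fun i h1 hi => (DG.δ_le i h1 hi).2) DG.t_ge DG.t_le DG.gn_le DG.Dσ DG.DV DG.DM DG.Rr_ge
      DG.top)
    hC₁ hT₀S hcS hcQ (by rw [Nat.add_zero]; exact hCQ)
  rw [Nat.add_zero] at o4
  refine ⟨C, B, T', A', o1, o2, o3, o4, fun k hk y hy => o5 k hk y fun i hi => ?_,
    fun k hk y hy => o6 k hk y fun i hi => ?_, fun k hk ω hω => ?_⟩
  · have h1 : grn L W b η T T₁ J dl (ix T₁ 0 (T + k * P - 1)) i +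
        nlp (grn L W b η T T₁ J dl (ix T₁ 0 (T + k * P - 1))) 0 i ≤ X :=
      add_nlp_le fun l hl => hX 0 (by omega) k hk l (by omega)
    show grn L W b η T T₁ J dl (ix T₁ 0 (T + k * P - 1)) i + y + c * (s + 1) +
      (ee + nlp (grn L W b η T T₁ J dl (ix T₁ 0 (T + k * P - 1))) 0 i) + Cst ≤ J
    omega
  · have h1 : grn L W b η T T₁ J dl (ix T₁ (Rd + 2) (T + k * P - 1)) i +
        nlp (grn L W b η T T₁ J dl (ix T₁ (Rd + 2) (T + k * P - 1))) 0 i ≤ X :=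
      add_nlp_le fun l hl => hX (Rd + 2) le_rfl k hk l (by omega)
    show grn L W b η T T₁ J dl (ix T₁ (Rd + 2) (T + k * P - 1)) i + y + 2 * t +
      (ee + nlp (grn L W b η T T₁ J dl (ix T₁ (Rd + 2) (T + k * P - 1))) 0 i) + Cst ≤ J
    omega
  · have h1 := o7 k hk ω hω
    have e1 : (gI T T₁ P M Rd).NF = NF := hNF
    have e2 : (gI T T₁ P M Rd).jk k + 1 = T + k * P := by
      show T + k * P - 1 + 1 = T + k * P
      omega
    rw [e1, e2] at h1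
    exact h1

end Pool.STAT.GRD
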