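import Pool.Agent.H82.STAT.Grq
import Pool.Agent.H75.STAT.StaR

/-!
# The input of the static theorem for the drop-out system

`stIn_of`: `DPP.StIn` from the output of `grd_grid`, all numbers explicit.
-/

set_option autoImplicit false

namespace Pool.STAT.GRD

open Finset MvPolynomial
open Pool.Agent.H49.Ent Pool.Agent.H32.Dense Pool.STK Pool.KS3 Pool.KA Pool.KSAT Pool.PB Pool.GEN
open Pool.STAT.CLO Pool.STAT.CDat Pool.TRC Pool.STAT.DPP Pool.K2S Pool.LEV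

variable {m J : ℕ}

theorem cx_congr {F : Fam m J} {e e' : ℕ → Fin m} (he : ∀ i, 1 ≤ i → e i = e' i) (ω : F.Ω) :
    cx F e ω = cx F e' ω := by
  funext i
  unfold cx
  by_cases hi : i = 0
  · rw [if_pos hi, if_pos hi]
  · rw [if_neg hi, if_neg hi, he i (by omega)]

theorem cnd_congr {F : Fam m J} {C : CDat F} {e e' : ℕ → Fin m} {n K w₀ z M : ℕ}
    {g : ℕ → ℕ → ℕ} {C₁ : ℝ} {A : F.Ω → Prop} (he : ∀ i, 1 ≤ i → e i = e' i)
    (h : C.Cnd e n K w₀ z M g C₁ A) : C.Cnd e' n K w₀ z M g C₁ A :=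
  { h with
    pos := fun k hk ω hω i h1 hi => by
      rw [← cx_congr he, ← he i h1]
      exact h.pos k hk ω hω i h1 hi }

theorem near_congr {F : Fam m J} {C : CDat F} {e e' : ℕ → Fin m} {n w₀ z k y : ℕ}
    {g : ℕ → ℕ → ℕ} {L : ℝ} {A : F.Ω → Prop} (he : ∀ i, 1 ≤ i → e i = e' i)
    (h : C.Near e n w₀ z g k y L A) : C.Near e' n w₀ z g k y L A := by
  intro ω ω' a b hl hT i h1 hi hX
  rw [← cx_congr he, ← cx_congr he]
  exact h ω ω' a b hl hT i h1 hi fun j h2 h3 => by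
    rw [he j h2]
    exact hX j h2 h3

theorem hyp_congr {F : Fam m J} {C B : CDat F} {T : TDat F} {p : ℕ → Prop} {e e' : ℕ → Fin m}
    {n K w₀ z M : ℕ} {g h : ℕ → ℕ → ℕ} {C₁ S Q ε : ℝ} {A : F.Ω → Prop}
    (he : ∀ i, 1 ≤ i → e i = e' i) (H : Hyp C B T p e n K w₀ z M g h C₁ S Q ε A) :
    Hyp C B T p e' n K w₀ z M g h C₁ S Q ε A :=
  { H with
    fat := cnd_congr he H.fat
    Bpos := fun k hk ω hω i h1 hi => by
      rw [← cx_congr he, ← he i h1]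
      exact H.Bpos k hk ω hω i h1 hi }

/-- A larger error. -/
theorem hyp_mono {F : Fam m J} {C B : CDat F} {T : TDat F} {p : ℕ → Prop} {e : ℕ → Fin m}
    {n K w₀ z M : ℕ} {g h : ℕ → ℕ → ℕ} {C₁ S Q ε ε' : ℝ} {A : F.Ω → Prop}
    (H : Hyp C B T p e n K w₀ z M g h C₁ S Q ε A) (hε : ε ≤ ε') :
    Hyp C B T p e n K w₀ z M g h C₁ S Q ε' A :=
  { H with
    thin := fun k hk ω hω i h1 hi hp b hb => (H.thin k hk ω hω i h1 hi hp b hb).trans hε }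

section
variable {L : ℕ → ℝ → ℝ → ℝ} {n : ℕ} {p : ℕ → Prop} [DecidablePred p] {σ : ℕ → ℝ}
  {M P : ℕ} {W : ℕ → ℝ} {b η δ : ℝ} {T T₁ w₀ z : ℕ} {d : ℕ → ℝ} {t : ℕ}

/-- The numbers of the drop-out system. -/
theorem dg_gF (hp : Stc p n) : dg p (gF L σ p W b η δ T T₁ P J d t) = fun k i =>
    BK.g (fun i => L (Nat.nth p i)) (fun i => σ (Nat.nth p i)) b (P * η) δ J k i - 1 := by
  funext k i
  unfold dg gF
  rw [if_pos (hp.mem i)]
  rfl

/-- **`Num` for the drop-out system.** -/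
theorem num_gF (hp : Stc p n) {C₁ : ℝ} (hσ0 : σ 0 = 1) (hσ : ∀ i, 1 ≤ σ i) (hη : 0 ≤ η)
    (hL : ∀ i, 1 ≤ i → i ≤ n → δ ≤ L i b b) (hz : |(z : ℝ) - P * η * J| ≤ 1)
    (htop : w₀ + (M + 1) * z ≤ J)
    (hpos : ∀ k i, 1 ≤ i → i ≤ n → 1 ≤ BK.g L σ b (P * η) δ J k i)
    (hC : ∀ i, 1 ≤ i → i ≤ n → σ i * M + 1 ≤ C₁ * z) :
    Num (Nat.count p n) J w₀ z M (dg p (gF L σ p W b η δ T T₁ P J d t))
      (fun i => σ (Nat.nth p i)) C₁ where
  top := htop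
  σ_zero := by
    show σ (Nat.nth p 0) = 1
    rw [hp.st_zero, hσ0]
  σ_ge i := hσ _
  g_ge k hk i h1 hi := by
    rw [dg_gF hp]
    refine Nat.sub_le_sub_right (BK.g_mono (i := i) (L := fun i => L (Nat.nth p i))
      (σ := fun i => σ (Nat.nth p i)) ?_ (by positivity) (Nat.zero_le k)) 1
    show 0 ≤ σ (Nat.nth p i)
    linarith [hσ (Nat.nth p i)]
  hom k hk i h1 hi := by
    rw [dg_gF hp]
    have hs1 := hp.st_pos h1
    have hs2 := hp.st_le hi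
    have h2 := BK.g_diff (L := L) (σ := σ) (i := Nat.nth p i) (b := b) (ζ := P * η) (δ := δ)
      (J := J) (hL _ hs1 hs2) (by linarith [hσ (Nat.nth p i)]) (by positivity) hz 0 k
    have h3 := hpos k (Nat.nth p i) hs1 hs2
    have h4 := hpos 0 (Nat.nth p i) hs1 hs2
    have e1 : ((BK.g (fun i => L (Nat.nth p i)) (fun i => σ (Nat.nth p i)) b (P * η) δ J k i - 1 :
        ℕ) : ℝ) = (BK.g L σ b (P * η) δ J k (Nat.nth p i) : ℝ) - 1 := by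
      rw [← Nat.cast_one (R := ℝ), ← Nat.cast_sub h3]
      rfl
    have e2 : ((BK.g (fun i => L (Nat.nth p i)) (fun i => σ (Nat.nth p i)) b (P * η) δ J 0 i - 1 :
        ℕ) : ℝ) = (BK.g L σ b (P * η) δ J 0 (Nat.nth p i) : ℝ) - 1 := by
      rw [← Nat.cast_one (R := ℝ), ← Nat.cast_sub h4]
      rfl
    rw [e1, e2]
    have e0 : |(k : ℝ) - (0 : ℕ)| = k := by
      rw [Nat.cast_zero, sub_zero, abs_of_nonneg (Nat.cast_nonneg k)]
    rw [e0, Nat.cast_zero, sub_zero] at h2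
    have h5 := hC _ hs1 hs2
    have h6 : σ (Nat.nth p i) * (k : ℝ) ≤ σ (Nat.nth p i) * M :=
      mul_le_mul_of_nonneg_left (by exact_mod_cast hk) (by linarith [hσ (Nat.nth p i)])
    have e3 : (BK.g L σ b (P * η) δ J k (Nat.nth p i) : ℝ) - 1 -
        ((BK.g L σ b (P * η) δ J 0 (Nat.nth p i) : ℝ) - 1) =
        (BK.g L σ b (P * η) δ J k (Nat.nth p i) : ℝ) - BK.g L σ b (P * η) δ J 0 (Nat.nth p i) := by
      ring
    rw [e3]
    exact h2.trans (by linarith)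

end

/-- The exponent of `exp (C₀ (…))`. -/
theorem exp_le_two {C₀ : ℝ} {N x : ℕ} (hN : 2 * C₀ ≤ N) :
    Real.exp (C₀ * ((x : ℝ) * Real.log 2 + 1)) ≤ 2 ^ (N * (x + 1)) := by
  have hl : 0 < Real.log 2 := Real.log_pos (by norm_num)
  have hl2 : 1 / 2 ≤ Real.log 2 := by
    have := Real.log_two_gt_d9
    linarith
  have hx : (0 : ℝ) ≤ x := Nat.cast_nonneg x
  have e1 : (2 : ℝ) ^ (N * (x + 1)) = Real.exp (((N * (x + 1) : ℕ) : ℝ) * Real.log 2) := by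
    rw [exp_nlog]
  rw [e1, Real.exp_le_exp]
  push_cast
  have h1 : C₀ ≤ N / 2 := by linarith
  have h2 : C₀ * ((x : ℝ) * Real.log 2) ≤ N / 2 * ((x : ℝ) * Real.log 2) :=
    mul_le_mul_of_nonneg_right h1 (by positivity)
  have h3 : C₀ * 1 ≤ N * Real.log 2 := by nlinarith
  have h4 : (N : ℝ) / 2 * ((x : ℝ) * Real.log 2) ≤ N * ((x : ℝ) * Real.log 2) :=
    mul_le_mul_of_nonneg_right (by linarith) (by positivity)
  nlinarith

/-- **The powers of `2`** of the static theorem: `Sr = 2 ^ a`, `Q = 2 ^ q`, the error is at most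
`2 ^ (-r)`. -/
structure Pw (c cg c' c₁ c₂ N₀ U z s t Rr gn : ℕ) (C₀ T₀ C₁' : ℝ) : Prop where
  cg_pos : 1 ≤ cg
  C₀_nn : 0 ≤ C₀
  N₀_ge : 2 * C₀ ≤ N₀
  T₀_le : T₀ ≤ 2 ^ t
  c_le : c ≤ cg
  half : (((cg * (s + t + 1) : ℕ) : ℝ)) ≤ z / 2
  hC : (((c₂ * (cg * (t + 1)) : ℕ) : ℝ)) ≤ z / 2
  C₁_ge : 1 ≤ C₁'
  eps : (c₁ + 1) * ((N₀ + 1) * (cg * (t + Rr + 1) + 1)) + c' * (cg * (t + 1)) + U * z ≤ gn

end Pool.STAT.GRD
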