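import Pool.Agent.H82.STAT.Grr

/-!
# `StIn` from the chains at a grid of points, one `J`
-/

set_option autoImplicit false

namespace Pool.STAT.GRD

open Finset MvPolynomial
open Pool.Agent.H49.Ent Pool.Agent.H32.Dense Pool.STK Pool.KS3 Pool.KA Pool.KSAT Pool.PB Pool.GEN
open Pool.STAT.CLO Pool.STAT.CDat Pool.TRC Pool.STAT.DPP Pool.K2S Pool.LEV

/-- The final numbers are at most the largest precision. -/
theorem gF_le {L : ℕ → ℝ → ℝ → ℝ} {n : ℕ} {p : ℕ → Prop} [DecidablePred p] {σ : ℕ → ℝ}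
    {Rd M S P : ℕ} {W : ℕ → ℝ} {b ρ o c₀ η e θ V δ φ : ℝ} {T T₁ w₀ z J : ℕ} {d : ℕ → ℝ}
    (C : CelG L n p σ Rd M S P W b ρ o c₀ η e θ V)
    (G : Grd n (Rd + 2) T T₁ P w₀ z J b ρ o η) (hT : T + M * P ≤ T₁)
    (hd : ∀ l < n, 0 ≤ d l ∧ d l ≤ φ) (hφ : φ ≤ c₀) (hδ : ∀ i, 1 ≤ i → i ≤ n → δ ≤ L i b b)
    {x t X : ℕ} (hx : (x : ℝ) + 1 ≤ (δ - e - φ) * J) (ht : (δ + e) * J + 1 ≤ t)
    (hct : (t : ℝ) + 2 ≤ (c₀ - φ) * J) (hxt : x ≤ t)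
    (hX : ∀ i, 1 ≤ i → i ≤ n → L i (b + o) (b + o) * J ≤ X) :
    (∀ k ≤ M, ∀ i, 1 ≤ i → i ≤ n → gF L σ p W b η δ T T₁ P J d t k i ≤ X) ∧
      ∀ k ≤ M, ∀ i, 1 ≤ i → i ≤ n → BK.g L σ b (P * η) δ J k i ≤ X := by
  have hJ : (0 : ℝ) ≤ J := Nat.cast_nonneg J
  have hd' : ∀ l < n, 0 ≤ d l ∧ d l ≤ c₀ := fun l hl => ⟨(hd l hl).1, (hd l hl).2.trans hφ⟩
  have hF := C.fins G hT hd hφ hδ hx ht hct hxt
  have hraw : ∀ q ≤ Rd + 2, ∀ k ≤ M, ∀ i, 1 ≤ i → i ≤ n →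
      rwN L W b η T T₁ P J d q k i ≤ X := by
    intro q hq k hk i h1 hi
    obtain ⟨r1, r2, r3⟩ := C.rw_bd G hT hd' hq hk h1 hi
    have h1' : C.lns.In (b + o) (b + o) := ⟨by
        linarith [C.lns.Wb (Nat.zero_le (Rd + 2)), C.lns.ρ_nn, C.lns.o_nn],
      by linarith [C.lns.ρ_nn, C.lns.o_nn], le_rfl, le_rfl⟩
    have h2 := r3.mono h1' r3.aT (r3.wa.trans r3.aT) h1 hi
    have h3 : (L i (b + xe P η k) (W q + xe P η k) - d (i - 1)) * J ≤ L i (b + o) (b + o) * J :=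
      mul_le_mul_of_nonneg_right (by linarith [(hd (i - 1) (by omega)).1]) hJ
    have h4 : ((rwN L W b η T T₁ P J d q k i : ℕ) : ℝ) ≤ X := (r2.trans h3).trans (hX i h1 hi)
    exact_mod_cast h4
  refine ⟨fun k hk i h1 hi => ?_, fun k hk i h1 hi => ?_⟩
  · have h2 : gF L σ p W b η δ T T₁ P J d t k i + x ≤ rwN L W b η T T₁ P J d 0 k i :=
      (hF.F k hk i h1 hi).1
    have := hraw 0 (by omega) k hk i h1 hi
    omega
  · have h2 : BK.g L σ b (P * η) δ J k i + x ≤ rwN L W b η T T₁ P J d (Rd + 2) k i :=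
      (hF.B k hk i h1 hi).1
    have := hraw (Rd + 2) le_rfl k hk i h1 hi
    omega

/-- **`StIn`** from the chains at a grid of points. -/
theorem stIn_grid (n S Rd : ℕ) (hS : 1 ≤ S) : ∃ (cg Kst K' KH c' : ℕ) (L₀ C₀ T₀' : ℝ), 1 ≤ Kst ∧
    1 ≤ K' ∧ 1 ≤ L₀ ∧ 1 ≤ cg ∧ 1 ≤ C₀ ∧ 2 ≤ T₀' ∧ ∀ K NF : ℕ, ∃ Cst : ℕ,
    ∀ {d J : ℕ} {F : Fam d J} {ec : ℕ → Fin d} {p : ℕ → Prop} [DecidablePred p]
      {L : ℕ → ℝ → ℝ → ℝ} {σ : ℕ → ℝ} {M P T T₁ : ℕ} {W : ℕ → ℝ}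
      {b ρ o c₀ η e θ V δ φ D E : ℝ} {w₀ z h u₀ u s t Rr gn X ee : ℕ} {e₀ C₁' T₀ : ℝ}
      {dl : ℕ → ℝ} {δm : ℕ → ℕ} {A : F.Ω → Prop} {c₁ c₂ N₀ U : ℕ}
      {G : ℕ → PtT F → ℕ → MvPolynomial (Option (Fin d)) ℝ}
      {H : ℕ → LnT F → ℕ → MvPolynomial (Option (Fin d)) ℝ} (hA : 0 < Pe F.p A),
      CelG L (n + 1) p σ Rd M S P W b ρ o c₀ η e θ V →
      Grd (n + 1) (Rd + 2) T T₁ P w₀ z J b ρ o η → Ends b η T P w₀ z J M → T + M * P ≤ T₁ →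
      T + M * P - 1 = NF →
      Dgt L (n + 1) σ M S P W b o c₀ η e θ V δ φ D E cg Cst w₀ z J h u₀ u s t Rr gn X ee e₀ →
      Pool.CHT.MCh F (fun l => ec (l + 1)) (n + 1) (fun _ => K) ((Rd + 2 + 1) * T₁)
        (fun k k' => gra b η T T₁ k ≤ gra b η T T₁ k' ∧ grw W η T T₁ k ≤ grw W η T T₁ k')
        (fun k => ⌊gra b η T T₁ k * J⌋₊) (fun k => ⌊grw W η T T₁ k * J⌋₊) ee
        (grn L W b η T T₁ J dl) δm A G H → Inj (fun l => ec (l + 1)) (n + 1) →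
      (∀ l < n + 1, 0 ≤ dl l ∧ dl l ≤ φ) → (∀ l < n + 1, δm l ≤ u₀) →
      (Pool.FLF.Fam.sub F A hA).Tm e₀ →
      Pw cg cg c' c₁ c₂ N₀ U z s t Rr gn C₀ (max T₀ T₀') C₁' → σ 0 = 1 → (∀ i, 1 ≤ σ i) →
      |(z : ℝ) - P * η * J| ≤ 1 → (∀ i, 1 ≤ i → i ≤ n + 1 → σ i * M + 1 ≤ C₁' * z) →
      X + z + cg * (s + 1) + ee + Cst ≤ J → X + 2 * t + ee + Cst ≤ J →
      ∃ (C B : CDat F) (T' : TDat F) (A' : F.Ω → Prop) (ε : ℝ), (∀ ω, A' ω → A ω) ∧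
        Pe F.p A ≤ 2 * Kst ^ (M + 1) * K' ^ (M + Rd + 2) * Pe F.p A' ∧
        StIn C B T' p ec n KH w₀ z M U (gF L σ p W b η δ T T₁ P J dl t)
          (BK.g L σ b (P * η) δ J) σ (1 / 2) C₁' (2 ^ (cg * (t + 1)))
          (2 ^ ((N₀ + 1) * (cg * (t + Rr + 1) + 1))) ε L₀ T₀ c₁ c₂ A' ∧
        (∀ k ≤ M, ∀ y : ℕ, X + y + cg * (s + 1) + ee + Cst ≤ J →
          C.Near ec (n + 1) w₀ z (gF L σ p W b η δ T T₁ P J dl t) k y L₀ A') ∧
        (∀ k, C.HasZ w₀ z k) ∧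
        ∀ k ≤ M, ∀ ω, A' ω → (pthI F (fun l => ec (l + 1)) (n + 1) (NF + 1) ⌊(b - ρ) * J⌋₊
          (fun k => alt b η T P w₀ z J (k % T₁)) (grn L W b η T T₁ J dl) G (ix T₁ 0)).Er (n + 1)
          (T + k * P) u t (gF L σ p W b η δ T T₁ P J dl t k) ω (C.Ph w₀ z k ω) := by
  obtain ⟨cg, Kst, K', KH, c', L₀, C₀, T₀', hKst, hK', hL₀, hcg, hC₀, hT₀', hg⟩ :=
    grd_grid (n + 1) S Rd hS
  refine ⟨cg, Kst, K', KH, c', L₀, C₀, T₀', hKst, hK', hL₀, hcg, hC₀, hT₀', fun K NF => ?_⟩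
  obtain ⟨Cst, hg⟩ := hg K NF
  refine ⟨Cst, ?_⟩
  intro dm J F ec p _ L σ M P T T₁ W b ρ o c₀ η e θ V δ φ D E w₀ z h u₀ u s t Rr gn X ee e₀ C₁'
    T₀ dl δm A c₁ c₂ N₀ U G H hA CE GR EN hT hNF DG hM hinj hd hδm hTm PW hσ0 hσ hz hC₁' hX1 hX2
  have h2 : ∀ {a b : ℕ}, a ≤ b → (2 : ℝ) ^ a ≤ 2 ^ b := fun h =>
    pow_le_pow_right₀ (by norm_num) h
  have hl1 : Real.log 2 ≤ 1 := by
    have := Real.log_two_lt_d9
    linarith
  have hpe : ∀ {x : ℕ} {y : ℝ}, (x : ℝ) ≤ y → (2 : ℝ) ^ x ≤ Real.exp y := fun {x y} h => by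
    rw [← exp_nlog, Real.exp_le_exp]
    have : (0 : ℝ) ≤ x := Nat.cast_nonneg x
    nlinarith
  have hcc : (1 : ℝ) / 2 * (z : ℝ) = z / 2 := by ring
  have ht1 : t ≤ cg * (t + 1) := by nlinarith
  have hTSr : max T₀ T₀' ≤ (2 : ℝ) ^ (cg * (t + 1)) := PW.T₀_le.trans (h2 ht1)
  obtain ⟨qq, hqq⟩ : ∃ qq, qq = (N₀ + 1) * (cg * (t + Rr + 1) + 1) := ⟨_, rfl⟩
  have hx1 : cg * (t + 1) ≤ cg * (t + Rr + 1) := Nat.mul_le_mul_left _ (by omega)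
  have hq1 : cg * (t + Rr + 1) ≤ qq := by
    rw [hqq]
    nlinarith
  have hq2 : N₀ * (cg * (t + 1) + 1) ≤ qq := by
    rw [hqq]
    calc N₀ * (cg * (t + 1) + 1) ≤ (N₀ + 1) * (cg * (t + 1) + 1) :=
          Nat.mul_le_mul_right _ (by omega)
      _ ≤ _ := Nat.mul_le_mul_left _ (by omega)
  have hCQ : Real.exp (C₀ * (((cg * (t + 1) : ℕ) : ℝ) * Real.log 2 + 1)) ≤ 2 ^ qq :=
    (exp_le_two PW.N₀_ge).trans (h2 hq2)
  obtain ⟨C, B, T', A', o1, o2, o3, o4, o5, o6, o7⟩ := hg (C₁ := 1 / 2)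
    (Sr := 2 ^ (cg * (t + 1))) (Q := 2 ^ qq) hA CE GR EN hT hNF DG hM hinj hd hδm hTm
    (by
      rw [hcc]
      exact hpe PW.half)
    ((le_max_right _ _).trans hTSr) le_rfl (h2 hq1) hCQ
  have hδ := fun i h1 hi => (DG.δ_le i h1 hi).1
  obtain ⟨hgX, hbX⟩ := gF_le CE GR hT hd DG.φ_le hδ DG.x_le DG.t_ge DG.t_le DG.xt DG.X_ge
  have he : ∀ i, 1 ≤ i → (fun i => (fun l => ec (l + 1)) (i - 1)) i = ec i := fun i hi => by
    show ec (i - 1 + 1) = ec i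
    rw [Nat.sub_add_cancel hi]
  have hη := GR.η_pos
  have hbp : ∀ k i, 1 ≤ i → i ≤ n + 1 → 1 ≤ BK.g L σ b (P * η) δ J k i := fun k i h1 hi => by
    have b2 := BK.g_lb (L := L) (σ := σ) (b := b) (ζ := P * η) (δ := δ) (J := J) (k := k) (i := i)
    have b3 : 0 ≤ σ i * (k * (P * η)) := mul_nonneg (by linarith [hσ i]) (by positivity)
    have b4 : (c₀ - φ) * J ≤ (L i b b + σ i * (k * (P * η)) - δ) * J :=
      mul_le_mul_of_nonneg_right (by linarith [(DG.δ_le i h1 hi).2]) (Nat.cast_nonneg J)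
    have b5 : (0 : ℝ) ≤ t := Nat.cast_nonneg _
    have b6 := DG.t_le
    have : (1 : ℝ) ≤ BK.g L σ b (P * η) δ J k i := by linarith
    exact_mod_cast this
  refine ⟨C, B, T', A', ((2 : ℝ) ^ (cg * (t + 1))) ^ c' *
    Real.exp (C₀ * (((cg * (t + 1) : ℕ) : ℝ) * Real.log 2 + 1) - (gn : ℝ) * Real.log 2), o1, o2,
    ?_, fun k hk y hy => near_congr he (o5 k hk y hy), o3, o7⟩
  exact
    { hyp := by
        rw [← hqq]
        exact hyp_congr he o4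
      hS := (le_max_left _ _).trans hTSr
      hSQ := by
        rw [← hqq]
        exact h2 (hx1.trans hq1)
      hε := by positivity
      hQε := by
        rw [← hqq, sub_eq_add_neg, Real.exp_add, exp_neg_nlog, ← pow_mul, ← pow_mul]
        have e1 : Real.exp (C₀ * (((cg * (t + 1) : ℕ) : ℝ) * Real.log 2 + 1)) ≤ 2 ^ qq := hCQ
        have e2 : (2 : ℝ) ^ (qq * c₁) * (2 ^ (cg * (t + 1) * c') *
            (Real.exp (C₀ * (((cg * (t + 1) : ℕ) : ℝ) * Real.log 2 + 1)) * (1 / 2 ^ gn))) ≤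
            2 ^ (qq * c₁) * (2 ^ (cg * (t + 1) * c') * (2 ^ qq * (1 / 2 ^ gn))) := by
          refine mul_le_mul_of_nonneg_left (mul_le_mul_of_nonneg_left
            (mul_le_mul_of_nonneg_right e1 (by positivity)) (by positivity)) (by positivity)
        refine e2.trans ?_
        have e3 : (2 : ℝ) ^ (qq * c₁) * (2 ^ (cg * (t + 1) * c') * (2 ^ qq * (1 / 2 ^ gn))) =
            2 ^ (qq * c₁ + cg * (t + 1) * c' + qq) / 2 ^ gn := by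
          rw [pow_add, pow_add]
          ring
        rw [e3, div_le_div_iff₀ (by positivity) (by positivity), one_mul, ← pow_add]
        refine h2 ?_
        have h3 := PW.eps
        rw [← hqq] at h3
        nlinarith
      hC := by
        rw [hcc, ← pow_mul]
        have e1 : (2 : ℝ) ^ (cg * (t + 1) * c₂) ≤ Real.exp ((z : ℝ) / 2) := hpe (by
          have := PW.hC
          rw [Nat.mul_comm] at this
          exact this)
        calc Real.exp ((z : ℝ) / 2) * 2 ^ (cg * (t + 1) * c₂) ≤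
              Real.exp ((z : ℝ) / 2) * Real.exp ((z : ℝ) / 2) :=
                mul_le_mul_of_nonneg_left e1 (Real.exp_pos _).le
          _ = Real.exp (1 * z) := by rw [← Real.exp_add]; congr 1; ring
          _ ≤ Real.exp (C₁' * z) := Real.exp_le_exp.2
              (mul_le_mul_of_nonneg_right PW.C₁_ge (Nat.cast_nonneg z))
      hL := by linarith
      num := num_gF CE.stc hσ0 hσ hη.le hδ hz DG.top hbp hC₁'
      nearC := fun k hk => near_congr he (o5 k hk z (by omega))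
      nearB := fun k hk => (near_congr he (o6 k hk 0 (by omega))).mono (by omega) le_rfl
        (by linarith) le_rfl
      gJ := fun k hk i h1 hi _ => by
        have := hgX k hk i h1 (by omega)
        omega
      hJ := fun k hk i h1 hi _ => by
        have := hbX k hk i h1 (by omega)
        omega }

end Pool.STAT.GRD
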