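import Pool.Agent.H82.STAT.Grs
import Pool.Agent.H75.STAT.StaRE

/-!
# The labels of a cell: `LabR` for one family

`LipJ`: the form of the theorem on the gradients of the closed labels (helper69, `lip_jat`).
`labR_fam`: `Pool.STA.LabR` from the chains at a grid of points and the rows.
-/

set_option autoImplicit false

namespace Pool.STAT.GRD

open Finset MvPolynomial
open Pool.Agent.H49.Ent Pool.Agent.H32.Dense Pool.STK Pool.KS3 Pool.KA Pool.KSAT Pool.PB Pool.GEN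
open Pool.STAT.CLO Pool.STAT.CDat Pool.TRC Pool.STAT.DPP Pool.K2S Pool.LEV

/-- **The gradients of closed labels near a path** (the statement of `lip_jat`). -/
def LipJ (n D : ℕ) : Prop := ∃ c : ℕ, ∀ K N : ℕ, ∃ C : ℕ, ∀ (d J : ℕ) (F : Fam d J)
  (ch : ℕ → Fin d) (Cd : CDat F) (w₀ z k j r : ℕ) (al om : ℕ → ℕ) (e ee : ℕ) (g gf : ℕ → ℕ → ℕ)
  (u₀ h u a₀ wz s sg t : ℕ) (A B : F.Ω → Prop)
  (G : ℕ → PtT F → ℕ → MvPolynomial (Option (Fin d)) ℝ)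
  (H : ℕ → LnT F → ℕ → MvPolynomial (Option (Fin d)) ℝ),
  Jat F ch n K (N + 1) al om ee g u₀ A G H → Inj ch n →
  TRC.Path n (N + 1) J al om g a₀ wz h u → u₀ + C ≤ u → j ≤ N → al j ≤ w₀ + k * z →
  w₀ + k * z ≤ J → w₀ + k * z + 2 ≤ al j + s → r ≤ n →
  ChOK F ch r (fun _ => K) (al j) (om j) e (g j) A (G j) (H j) → (∀ ω, B ω → A ω) →
  (∀ v i, 1 ≤ i → i ≤ r → (Cd.G k v i).totalDegree ≤ D) →
  (∀ v i, 1 ≤ i → i ≤ r → (Cd.G k v i).vars ⊆ range i) →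
  (∀ ω, B ω → ∀ i, 1 ≤ i → i ≤ n → ∀ b : ℕ → ℝ,
    InB F (shl a₀ al) (jg g) u (j + 1) ω
      (fun k' => jG F ch n (N + 1) a₀ al G k' (ptr F J ω)) i b →
    |b 0 - (F.T1 (w₀ + k * z) ω : ℝ) / 2 ^ (w₀ + k * z)| ≤ 2 ^ s / 2 ^ (w₀ + k * z) →
    |b i - eval b (Cd.Ph w₀ z k ω i)| ≤ 2 ^ sg / 2 ^ g j (i - 1)) →
  (∀ i, 1 ≤ i → i ≤ r → gf k i ≤ g j (i - 1) ∧ g j (i - 1) ≤ gf k i + t) →
  NL.LipC F Cd w₀ z k r (e + c * (sg + t + 1) + C) gf B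

/-- Larger exponents. -/
theorem lipC_mono {m J : ℕ} {F : Fam m J} {C : CDat F} {w₀ z v n e e' : ℕ} {g : ℕ → ℕ → ℕ}
    {A : F.Ω → Prop} (h : NL.LipC F C w₀ z v n e g A) (he : e ≤ e') :
    NL.LipC F C w₀ z v n e' g A := fun ω hω j h1 hj b hb l h2 hl =>
  (h ω hω j h1 hj b hb l h2 hl).trans (pow_le_pow_right₀ (by norm_num) (by omega))

/-- **The points of a sublist.** -/
theorem mch_idx {m J : ℕ} {F : Fam m J} {c : ℕ → Fin m} {i : ℕ} {K : ℕ → ℕ} {N N' : ℕ}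
    {R R' : ℕ → ℕ → Prop} {a w : ℕ → ℕ} {e : ℕ} {g : ℕ → ℕ → ℕ} {δ : ℕ → ℕ} {B : F.Ω → Prop}
    {G : ℕ → PtT F → ℕ → MvPolynomial (Option (Fin m)) ℝ}
    {H : ℕ → LnT F → ℕ → MvPolynomial (Option (Fin m)) ℝ}
    (h : Pool.CHT.MCh F c i K N R a w e g δ B G H) (idx : ℕ → ℕ) (hi : ∀ k < N', idx k < N)
    (hR : ∀ k < N', ∀ k' < N', R' k k' → R (idx k) (idx k')) :
    Pool.CHT.MCh F c i K N' R' (fun k => a (idx k)) (fun k => w (idx k)) e (fun k => g (idx k)) δ B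
      (fun k => G (idx k)) (fun k => H (idx k)) where
  ok k hk := h.ok _ (hi k hk)
  uni k' hk' k hk h' l hl ω hω b hb := h.uni _ (hi k' hk') _ (hi k hk) (hR k hk k' hk' h') l hl ω
    hω b hb
  two k' hk' k hk h' l hl ω hω b hb := h.two _ (hi k' hk') _ (hi k hk) (hR k hk k' hk' h') l hl ω
    hω b hb
  siz k hk l hl ω hω b hb := h.siz _ (hi k hk) l hl ω hω b hb

/-- **The gradients of the fat labels of a grid.** -/
theorem lip_grid (n Rd D : ℕ) (hL : LipJ n D) : ∃ c : ℕ, ∀ K NF : ℕ, ∃ C : ℕ,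
    ∀ {d J : ℕ} {F : Fam d J} {co : ℕ → Fin d} {L : ℕ → ℝ → ℝ → ℝ} {W : ℕ → ℝ}
      {b ρ o c₀ η φ : ℝ} {T T₁ P w₀ z M h u₀ u t ee e : ℕ} {dl : ℕ → ℝ} {δm : ℕ → ℕ}
      {A B : F.Ω → Prop} {G : ℕ → PtT F → ℕ → MvPolynomial (Option (Fin d)) ℝ}
      {H : ℕ → LnT F → ℕ → MvPolynomial (Option (Fin d)) ℝ} {Cd : CDat F} {gf : ℕ → ℕ → ℕ}
      {r k : ℕ}, Lns L n (Rd + 2) W b ρ o c₀ →
      Grd n (Rd + 2) T T₁ P w₀ z J b ρ o η → Ends b η T P w₀ z J M → T + M * P ≤ T₁ →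
      T + M * P - 1 = NF → w₀ + M * z ≤ J →
      Pool.CHT.MCh F co n (fun _ => K) ((Rd + 2 + 1) * T₁)
        (fun k k' => gra b η T T₁ k ≤ gra b η T T₁ k' ∧ grw W η T T₁ k ≤ grw W η T T₁ k')
        (fun k => ⌊gra b η T T₁ k * J⌋₊) (fun k => ⌊grw W η T T₁ k * J⌋₊) ee
        (grn L W b η T T₁ J dl) δm A G H → Inj co n →
      (∀ l < n, 0 ≤ dl l ∧ dl l ≤ φ) → φ ≤ c₀ → (∀ l < n, δm l ≤ u₀) → u₀ + C ≤ u →
      η * J + 2 ≤ u → 2 * η * J + 2 ≤ h → k ≤ M → r ≤ n →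
      ChOK F co r (fun _ => K) ⌊gra b η T T₁ (ix T₁ 0 (T + k * P - 1)) * J⌋₊
        ⌊grw W η T T₁ (ix T₁ 0 (T + k * P - 1)) * J⌋₊ e
        (grn L W b η T T₁ J dl (ix T₁ 0 (T + k * P - 1))) A (G (ix T₁ 0 (T + k * P - 1)))
        (H (ix T₁ 0 (T + k * P - 1))) → (∀ ω, B ω → A ω) →
      (∀ v i, 1 ≤ i → i ≤ r → (Cd.G k v i).totalDegree ≤ D) →
      (∀ v i, 1 ≤ i → i ≤ r → (Cd.G k v i).vars ⊆ range i) →
      (∀ ω, B ω → (pthI F co n (NF + 1) ⌊(b - ρ) * J⌋₊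
        (fun k => alt b η T P w₀ z J (k % T₁)) (grn L W b η T T₁ J dl) G (ix T₁ 0)).Er n
        (T + k * P) u t (gf k) ω (Cd.Ph w₀ z k ω)) →
      (∀ i, 1 ≤ i → i ≤ n → gf k i ≤ rwN L W b η T T₁ P J dl 0 k i ∧
        rwN L W b η T T₁ P J dl 0 k i ≤ gf k i + t) →
      NL.LipC F Cd w₀ z k r (e + c * (2 * t + t + 1) + C) gf B := by
  obtain ⟨c, hL⟩ := hL
  refine ⟨c, fun K NF => ?_⟩
  obtain ⟨C, hL⟩ := hL K NF
  refine ⟨C, ?_⟩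
  intro dm J F co L W b ρ o c₀ η φ T T₁ P w₀ z M h u₀ u t ee e dl δm A B G H Cd gf r k LN GR EN hT
    hNF hMJ hM hinj hd hφ hδm hu hu1 hh hk hr hok hBA hdeg htri her hg
  have hTp := GR.T_pos
  have hPp := GR.P_pos
  have hkM : k * P ≤ M * P := Nat.mul_le_mul_right _ hk
  have hkz : k * z ≤ M * z := Nat.mul_le_mul_right _ hk
  have hd' : ∀ l < n, 0 ≤ dl l ∧ dl l ≤ c₀ := fun l hl => ⟨(hd l hl).1, (hd l hl).2.trans hφ⟩
  have hM' := mch_up (a' := fun k => alt b η T P w₀ z J (k % T₁)) hM fun k _ => alt_ge _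
  have hI := gI_ok GR LN EN hT hh
  have hP := (GR.posN LN hd' hu1).path hI.F
  have hNF' : (gI T T₁ P M Rd).NF = NF := hNF
  rw [hNF'] at hP
  have haj : alt b η T P w₀ z J (ix T₁ 0 (T + k * P - 1) % T₁) = w₀ + k * z := by
    rw [ix_mod (by omega)]
    exact EN.al GR hk
  have hJat := jat_of_mch hM' hI.F.lt hI.F.R hδm
  rw [hNF'] at hJat
  refine hL dm J F co Cd w₀ z k (T + k * P - 1) r
    (fun k => alt b η T P w₀ z J (ix T₁ 0 k % T₁)) (fun k => ⌊grw W η T T₁ (ix T₁ 0 k) * J⌋₊) e ee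
    (fun k => grn L W b η T T₁ J dl (ix T₁ 0 k)) gf u₀ h u ⌊(b - ρ) * J⌋₊ ⌊(W 0 - ρ) * J⌋₊ 2
    (2 * t) t A B (fun k => G (ix T₁ 0 k)) (fun k => H (ix T₁ 0 k)) hJat hinj hP hu (by omega)
    haj.le (by omega) (by rw [haj]) hr ?_ hBA hdeg htri ?_ fun i h1 hi => hg i h1 (hi.trans hr)
  · exact chok_up hok (by
      have h1 := alt_ge (b := b) (η := η) (T := T) (P := P) (w₀ := w₀) (z := z) (J := J)
        (ix T₁ 0 (T + k * P - 1) % T₁)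
      exact h1)
  · intro ω hω i h1 hi b' hb' _
    have h3 := her ω hω i h1 hi b' (by
      have h4 := hb'.1
      have e1 : T + k * P = T + k * P - 1 + 1 := by omega
      rw [e1]
      exact h4) (by
      have h4 := hb'.2
      have e1 : T + k * P = T + k * P - 1 + 1 := by omega
      rw [e1]
      exact h4)
    refine h3.trans ?_
    rw [div_le_div_iff₀ (by positivity) (by positivity), ← pow_add, ← pow_add]
    refine pow_le_pow_right₀ (by norm_num) ?_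
    have h5 : grn L W b η T T₁ J dl (ix T₁ 0 (T + k * P - 1)) (i - 1) ≤ gf k i + t :=
      (hg i h1 hi).2
    show t + grn L W b η T T₁ J dl (ix T₁ 0 (T + k * P - 1)) (i - 1) ≤ 2 * t + gf k i
    omega

end Pool.STAT.GRD
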