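import Pool.Agent.H82.STAT.Grt

/-!
# `LabR` for one family
-/

set_option autoImplicit false

namespace Pool.STAT.GRD

open Finset MvPolynomial
open Pool.Agent.H49.Ent Pool.Agent.H32.Dense Pool.STK Pool.KS3 Pool.KA Pool.KSAT Pool.PB Pool.GEN
open Pool.STAT.CLO Pool.STAT.CDat Pool.TRC Pool.STAT.DPP Pool.K2S Pool.LEV

/-- **The data of the rows**: the fat labels `C` on `A'`, with the precisions `g k i`, which are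
`β k i J` up to `x`. -/
structure RwIn {m J : ℕ} {F : Fam m J} (C : CDat F) (ec : ℕ → Fin m) (n KH w₀ z M y u t : ℕ)
    (g : ℕ → ℕ → ℕ) (β : ℕ → ℕ → ℝ) (x L₀ : ℝ) (π : Path F) (jF : ℕ → ℕ) (A' : F.Ω → Prop) :
    Prop where
  cnd : C.Cnd ec (n + 1) KH w₀ z M g (1 / 2) A'
  near : ∀ k ≤ M, C.Near ec (n + 1) w₀ z g k y L₀ A'
  hasZ : ∀ k, C.HasZ w₀ z k
  er : ∀ k ≤ M, ∀ ω, A' ω → π.Er (n + 1) (jF k) u t (g k) ω (C.Ph w₀ z k ω)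
  num : ∀ k ≤ M, ∀ i, 1 ≤ i → i ≤ n + 1 → |(g k i : ℝ) - β k i * J| ≤ x

/-- **The labels of a cell, one family.** `A₀` is the event of the class, `A` the event of the
chains. -/
theorem labR_fam (n S Rd : ℕ) (hS : 1 ≤ S) (hLip : ∀ D, LipJ (n + 1) D) :
    ∃ (cg cL Kst K' KH c' : ℕ) (L₀ C₀ T₀' : ℝ), 1 ≤ Kst ∧ 1 ≤ K' ∧ 1 ≤ L₀ ∧ 1 ≤ cg ∧ 1 ≤ C₀ ∧
    2 ≤ T₀' ∧ ∀ K NF : ℕ, ∃ Cst : ℕ,
    ∀ {d J : ℕ} {F : Fam d J} {ec : ℕ → Fin d} {p : ℕ → Prop} [DecidablePred p]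
      {L L' : ℕ → ℝ → ℝ → ℝ} {σ : ℕ → ℝ} {M P T T₁ : ℕ} {W : ℕ → ℝ}
      {b ρ o c₀ η e θ V δ φ D E ζ : ℝ} {h u₀ u s t Rr gn X ee y e' : ℕ} {e₀ C₁' C₂ T₀ : ℝ}
      {dl : ℕ → ℝ} {δm : ℕ → ℕ} {A₀ A : F.Ω → Prop} {c₁ c₂ N₀ U : ℕ} {ρr a Ka K₁ q ε₀ τ : ℝ}
      {G : ℕ → PtT F → ℕ → MvPolynomial (Option (Fin d)) ℝ}
      {H : ℕ → LnT F → ℕ → MvPolynomial (Option (Fin d)) ℝ} (hA : 0 < Pe F.p A),
      (∀ ω, A ω → A₀ ω) → Pe F.p A₀ ≤ Ka * Pe F.p A → 0 ≤ Ka → ζ = P * η →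
      (∀ i, L' i b b = L i b b) →
      CelG L (n + 1) p σ Rd M S P W b ρ o c₀ η e θ V →
      Grd (n + 1) (Rd + 2) T T₁ P ⌊b * J⌋₊ ⌊ζ * J⌋₊ J b ρ o η →
      Ends b η T P ⌊b * J⌋₊ ⌊ζ * J⌋₊ J M → T + M * P ≤ T₁ → T + M * P - 1 = NF →
      Dgt L (n + 1) σ M S P W b o c₀ η e θ V δ φ D E cg Cst ⌊b * J⌋₊ ⌊ζ * J⌋₊ J h u₀ u s t Rr gn
        X ee e₀ →
      Pool.CHT.MCh F (fun l => ec (l + 1)) (n + 1) (fun _ => K) ((Rd + 2 + 1) * T₁)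
        (fun k k' => gra b η T T₁ k ≤ gra b η T T₁ k' ∧ grw W η T T₁ k ≤ grw W η T T₁ k')
        (fun k => ⌊gra b η T T₁ k * J⌋₊) (fun k => ⌊grw W η T T₁ k * J⌋₊) ee
        (grn L W b η T T₁ J dl) δm A G H → Inj (fun l => ec (l + 1)) (n + 1) →
      (∀ k ≤ M, ChOK F (fun l => ec (l + 1)) n (fun _ => K)
        ⌊gra b η T T₁ (ix T₁ 0 (T + k * P - 1)) * J⌋₊
        ⌊grw W η T T₁ (ix T₁ 0 (T + k * P - 1)) * J⌋₊ e'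
        (grn L W b η T T₁ J dl (ix T₁ 0 (T + k * P - 1))) A (G (ix T₁ 0 (T + k * P - 1)))
        (H (ix T₁ 0 (T + k * P - 1)))) →
      (∀ l < n + 1, 0 ≤ dl l ∧ dl l ≤ φ) → (∀ l < n + 1, δm l ≤ u₀) →
      (Pool.FLF.Fam.sub F A hA).Tm e₀ →
      Pw cg cg c' c₁ c₂ N₀ U ⌊ζ * J⌋₊ s t Rr gn C₀ (max T₀ T₀') C₁' → σ 0 = 1 → (∀ i, 1 ≤ σ i) →
      (∀ i, 1 ≤ i → i ≤ n + 1 → σ i * M + 1 ≤ C₁' * (⌊ζ * J⌋₊ : ℕ)) →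
      ⌊ζ * J⌋₊ ≤ y → X + y + cg * (s + 1) + ee + Cst ≤ J → X + 2 * t + ee + Cst ≤ J →
      Ka * (2 * Kst ^ (M + 1) * K' ^ (M + Rd + 2)) ≤ K₁ →
      (N₀ + 1) * (cg * (t + Rr + 1) + 1) ≤ ⌊q * J⌋₊ →
      e' + cL * (2 * t + t + 1) + Cst ≤ ⌊ε₀ * J⌋₊ →
      (∀ (C : CDat F) (A' : F.Ω → Prop), (∀ ω, A' ω → A ω) →
        Pe F.p A ≤ 2 * Kst ^ (M + 1) * K' ^ (M + Rd + 2) * Pe F.p A' →
        RwIn C ec n KH ⌊b * J⌋₊ ⌊ζ * J⌋₊ M y u t (gF L σ p W b η δ T T₁ P J dl t)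
          (fun k i => L i (b + xe P η k) (W 0 + xe P η k)) (t + φ * J + 1) L₀
          (pthI F (fun l => ec (l + 1)) (n + 1) (NF + 1) ⌊(b - ρ) * J⌋₊
            (fun k => alt b η T P ⌊b * J⌋₊ ⌊ζ * J⌋₊ J (k % T₁)) (grn L W b η T T₁ J dl) G
            (ix T₁ 0)) (fun k => T + k * P) A' →
        ∀ E : F.Ω → Prop, (∀ ω, E ω → A' ω) → Real.exp (-(τ * J)) * Pe F.p A₀ ≤ Pe F.p E →
        ∀ v, U ≤ v → v + 2 * U ≤ M → RowN F C ec n ⌊b * J⌋₊ ⌊ζ * J⌋₊ U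
          (gF L σ p W b η δ T T₁ P J dl t) ρr a C₂ v E) →
      Pool.STA.LabR F A₀ L' p ec n KH M U σ b ζ δ C₁' C₂ ρr a L₀ T₀ c₁ c₂ K₁ q ε₀ τ := by
  obtain ⟨cg, Kst, K', KH, c', L₀, C₀, T₀', hKst, hK', hL₀, hcg, hC₀, hT₀', hg⟩ :=
    stIn_grid n S Rd hS
  obtain ⟨cL, hl⟩ := lip_grid (n + 1) Rd KH (hLip KH)
  refine ⟨cg, cL, Kst, K', KH, c', L₀, C₀, T₀', hKst, hK', hL₀, hcg, hC₀, hT₀', fun K NF => ?_⟩
  obtain ⟨Ca, hg⟩ := hg K NF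
  obtain ⟨Cb, hl⟩ := hl K NF
  refine ⟨Ca + Cb, ?_⟩
  intro dm J F ec p _ L L' σ M P T T₁ W b ρ o c₀ η e θ V δ φ D E ζ h u₀ u s t Rr gn X ee y e' e₀
    C₁' C₂ T₀ dl δm A₀ A c₁ c₂ N₀ U ρr a Ka K₁ q ε₀ τ G H hA hAA₀ hKa hKa0 hζ hLL CE GR EN hT hNF
    DG hM hinj hok hd hδm hTm PW hσ0 hσ hC₁' hzy hX1 hX2 hK₁ hq hε₀ hrow
  have hJ : (0 : ℝ) ≤ J := Nat.cast_nonneg J
  have hη := GR.η_pos
  have hζ0 : 0 ≤ ζ := by rw [hζ]; positivity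
  have h2 : ∀ {a b : ℕ}, a ≤ b → (2 : ℝ) ^ a ≤ 2 ^ b := fun h =>
    pow_le_pow_right₀ (by norm_num) h
  have hBK : BK.g L' σ b ζ δ J = BK.g L σ b ζ δ J := by
    funext k i
    unfold BK.g
    rw [hLL]
  have hz1 : |((⌊ζ * J⌋₊ : ℕ) : ℝ) - P * η * J| ≤ 1 := by
    rw [← hζ]
    have h3 := Nat.floor_le (mul_nonneg hζ0 hJ)
    have h4 := Nat.lt_floor_add_one (ζ * J)
    rw [abs_le]
    constructor <;> linarith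
  have he1 : (0 : ℝ) ≤ e₀ + 1 := by linarith [DG.e₀_nn]
  have hCaR : (Ca : ℝ) ≤ ((Ca + Cb : ℕ) : ℝ) := by exact_mod_cast Nat.le_add_right _ _
  have hCa : (Ca : ℝ) * (e₀ + 1) ≤ ((Ca + Cb : ℕ) : ℝ) * (e₀ + 1) :=
    mul_le_mul_of_nonneg_right hCaR he1
  have DG' : Dgt L (n + 1) σ M S P W b o c₀ η e θ V δ φ D E cg Ca ⌊b * J⌋₊ ⌊ζ * J⌋₊ J h u₀ u s t
      Rr gn X ee e₀ :=
    { DG with
      u₀_le := by have := DG.u₀_le; omega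
      c_ge := by have := DG.c_ge; linarith
      tm := by have := DG.tm; linarith
      s_ge := by have := DG.s_ge; linarith }
  obtain ⟨C, B, T', A', ε, o1, o2, o3, o4, o5, o6⟩ := hg hA CE GR EN hT hNF DG' hM hinj hd hδm hTm
    PW hσ0 hσ hz1 hC₁' (by omega) (by omega)
  have hδ := fun i h1 hi => (DG.δ_le i h1 hi).1
  obtain ⟨hgX, hbX⟩ := gF_le CE GR hT hd DG.φ_le hδ DG.x_le DG.t_ge DG.t_le DG.xt DG.X_ge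
  have hF := CE.fins GR hT hd DG.φ_le hδ DG.x_le DG.t_ge DG.t_le DG.xt
  have hfin : ∀ k ≤ M, ∀ i, 1 ≤ i → i ≤ n + 1 →
      gF L σ p W b η δ T T₁ P J dl t k i ≤ rwN L W b η T T₁ P J dl 0 k i ∧
      rwN L W b η T T₁ P J dl 0 k i ≤ gF L σ p W b η δ T T₁ P J dl t k i + t := fun k hk i h1 hi => by
    have h3 : gF L σ p W b η δ T T₁ P J dl t k i + cg * (s + 1) ≤
        rwN L W b η T T₁ P J dl 0 k i ∧
      rwN L W b η T T₁ P J dl 0 k i ≤ gF L σ p W b η δ T T₁ P J dl t k i + t := hF.F k hk i h1 hi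
    omega
  have hpn : p (n + 1) := CE.stc.ge (n + 1) le_rfl
  have hηJ : 0 ≤ η * J := mul_nonneg hη.le hJ
  have hu1 : η * J + 2 ≤ (u : ℝ) := by
    have h1 := DG.u_ge
    have h3 : 0 ≤ e * J := mul_nonneg CE.e_nn hJ
    have h4 : (0 : ℝ) ≤ (S : ℝ) * (η * J) := mul_nonneg (Nat.cast_nonneg _) hηJ
    have h5 : (0 : ℝ) ≤ S := Nat.cast_nonneg _
    nlinarith
  have hcnd := o3.hyp.fat
  have hMz : ⌊b * J⌋₊ + M * ⌊ζ * J⌋₊ ≤ J := by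
    have h3 := DG.top
    have h4 : (M + 1) * ⌊ζ * J⌋₊ = M * ⌊ζ * J⌋₊ + ⌊ζ * J⌋₊ := by ring
    omega
  have hlip : ∀ k ≤ M, ∀ r ≤ n + 1, ∀ e₂ : ℕ, ChOK F (fun l => ec (l + 1)) r (fun _ => K)
        ⌊gra b η T T₁ (ix T₁ 0 (T + k * P - 1)) * J⌋₊
        ⌊grw W η T T₁ (ix T₁ 0 (T + k * P - 1)) * J⌋₊ e₂
        (grn L W b η T T₁ J dl (ix T₁ 0 (T + k * P - 1))) A (G (ix T₁ 0 (T + k * P - 1)))
        (H (ix T₁ 0 (T + k * P - 1))) →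
      NL.LipC F C ⌊b * J⌋₊ ⌊ζ * J⌋₊ k r (e₂ + cL * (2 * t + t + 1) + Cb)
        (gF L σ p W b η δ T T₁ P J dl t) A' := fun k hk r hr e₂ hk2 =>
    hl CE.lns GR EN hT hNF hMz hM hinj hd DG.φ_le hδm (by have := DG.u₀_le; omega) hu1 DG.h_ge hk
      hr hk2 o1 (fun v i h1 hi => hcnd.deg k hk v i h1 (hi.trans hr))
      (fun v i h1 hi => hcnd.tri k hk v i h1 (hi.trans hr)) (fun ω hω => o6 k hk ω hω)
      (hfin k hk)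
  refine ⟨C, B, T', A', gF L σ p W b η δ T T₁ P J dl t, 1 / 2, 2 ^ (cg * (t + 1)),
    2 ^ ((N₀ + 1) * (cg * (t + Rr + 1) + 1)), ε, fun ω hω => hAA₀ ω (o1 ω hω), ?_, ?_, ?_,
    fun k hk => ?_, fun k hk i h1 hi => ?_, fun k hk => ⟨?_, ?_⟩, ?_⟩
  · have h3 := mul_le_mul_of_nonneg_left o2 hKa0
    have h4 : 0 ≤ Pe F.p A' := Pe_nonneg F.isLaw A'
    have h5 := mul_le_mul_of_nonneg_right hK₁ h4
    calc Pe F.p A₀ ≤ Ka * Pe F.p A := hKa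
      _ ≤ Ka * (2 * Kst ^ (M + 1) * K' ^ (M + Rd + 2) * Pe F.p A') := h3
      _ = Ka * (2 * Kst ^ (M + 1) * K' ^ (M + Rd + 2)) * Pe F.p A' := by ring
      _ ≤ K₁ * Pe F.p A' := h5
  · rw [hBK, hζ]
    rw [hζ] at o3
    exact o3
  · exact h2 hq
  · rw [hBK, hζ]
    exact if_pos hpn
  · have h3 := hgX k hk i h1 hi
    omega
  · refine lipC_mono (hlip k hk n (by omega) e' (hok k hk)) (by omega)
  · have hkM : k * P ≤ M * P := Nat.mul_le_mul_right _ hk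
    have hTp := GR.T_pos
    have hPp := GR.P_pos
    exact ⟨_, hlip k hk (n + 1) le_rfl ee (hM.ok _ (ix_lt (by omega) (Nat.zero_le _)))⟩
  · refine fun E hE hE2 v hv hv2 => hrow C A' o1 o2
      ⟨hcnd, fun k hk => o4 k hk y (by omega), o5, o6, fun k hk i h1 hi => ?_⟩ E hE hE2 v hv hv2
    obtain ⟨r1, r2, -⟩ := CE.rw_bd GR hT (fun l hl => ⟨(hd l hl).1, (hd l hl).2.trans DG.φ_le⟩)
      (Nat.zero_le (Rd + 2)) hk h1 hi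
    obtain ⟨f1, f2⟩ := hfin k hk i h1 hi
    have f1' : (gF L σ p W b η δ T T₁ P J dl t k i : ℝ) ≤ rwN L W b η T T₁ P J dl 0 k i := by
      exact_mod_cast f1
    have f2' : (rwN L W b η T T₁ P J dl 0 k i : ℝ) ≤ gF L σ p W b η δ T T₁ P J dl t k i + t := by
      exact_mod_cast f2
    obtain ⟨d1, d2⟩ := hd (i - 1) (by omega)
    have d3 := mul_le_mul_of_nonneg_right d1 hJ
    have d4 := mul_le_mul_of_nonneg_right d2 hJ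
    have ht0 : (0 : ℝ) ≤ t := Nat.cast_nonneg t
    rw [abs_le]
    constructor <;> linarith

end Pool.STAT.GRD
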