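import Pool.Agent.H82.STAT.Gru

/-!
# The digits from real inequalities

`Rls`: the real inequalities of a cell. `Rls.dgt`, `Rls.pw`, `Rls.grd`: the numbers in digits.
-/

set_option autoImplicit false

namespace Pool.STAT.GRD

open Finset MvPolynomial
open Pool.Agent.H49.Ent Pool.Agent.H32.Dense Pool.STK Pool.KS3 Pool.KA Pool.KSAT Pool.PB Pool.GEN
open Pool.STAT.CLO Pool.STAT.CDat Pool.TRC Pool.STAT.DPP Pool.K2S Pool.LEV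

/-- **The real inequalities of a cell.** `Λ`: a constant of the labels; `δ`: the loss of precision
of the balls, `ζ = P η`: the step of the levels, `D`: the distance of the levels, `θ`: the gain in
a thin window, `q`: the size of `Q`, `ε₀`: the gradients, `y₀`: the additional precision. -/
structure Rls (Λ : ℕ) (L : ℕ → ℝ → ℝ → ℝ) (n : ℕ) (σ : ℕ → ℝ) (M S P T : ℕ) (W : ℕ → ℝ)
    (b ρ o c₀ η e θ V δ φ D E ζ X₀ y₀ q ε₀ e' : ℝ) : Prop where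
  η_pos : 0 < η
  T_pos : 1 ≤ T
  P_pos : 1 ≤ P
  ρ_eq : T * η = ρ
  ζ_eq : ζ = P * η
  o_ge : M * ζ ≤ o
  φ_nn : 0 ≤ φ
  δ_le : ∀ i, 1 ≤ i → i ≤ n → δ + c₀ ≤ L i b b
  c₀_ge : 2 * δ + φ < c₀
  Dσ : ∀ i, 1 ≤ i → i ≤ n → σ i * (M * ζ) ≤ D
  DV : V ≤ D
  DM : (M + 1) * ζ ≤ D
  fat : W 0 + M * ζ < b
  top : b + (M + 1) * ζ ≤ 1
  small : Λ * (e + (S + 2) * η + φ) < δ
  δζ : Λ * δ < ζ
  Dθ : Λ * D < θ
  Dq : Λ * D < q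
  δε : Λ * δ + e' < ε₀
  e'_nn : 0 ≤ e'
  E_nn : 0 ≤ E
  X_nn : 0 ≤ X₀
  X_ge : ∀ i, 1 ≤ i → i ≤ n → L i (b + o) (b + o) ≤ X₀
  y_ge : ζ ≤ y₀
  one : X₀ + y₀ + 4 * δ + E < 1

/-- **Large `J`.** -/
structure LJ (B : ℝ) (M : ℕ) (W : ℕ → ℝ) (b c₀ η δ φ E ζ X₀ y₀ : ℝ) (J : ℕ) : Prop where
  η_ge : B ≤ η * J
  c_ge : B ≤ (c₀ - (2 * δ + φ)) * J
  b_ge : B ≤ (b - (W 0 + M * ζ)) * J
  one_ge : B ≤ (1 - (X₀ + y₀ + 4 * δ + E)) * J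

variable {Λ : ℕ} {L : ℕ → ℝ → ℝ → ℝ} {n : ℕ} {σ : ℕ → ℝ} {M S P T : ℕ} {W : ℕ → ℝ}
  {b ρ o c₀ η e θ V δ φ D E ζ X₀ y₀ q ε₀ e' : ℝ}

theorem Rls.lj (R : Rls Λ L n σ M S P T W b ρ o c₀ η e θ V δ φ D E ζ X₀ y₀ q ε₀ e') (B : ℝ) :
    ∃ J₀ : ℕ, ∀ J ≥ J₀, LJ B M W b c₀ η δ φ E ζ X₀ y₀ J := by
  obtain ⟨χ, hχ⟩ : ∃ χ : ℝ, χ = min (min η (c₀ - (2 * δ + φ)))
    (min (b - (W 0 + M * ζ)) (1 - (X₀ + y₀ + 4 * δ + E))) := ⟨_, rfl⟩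
  have h1 := R.η_pos
  have h2 := R.c₀_ge
  have h3 := R.fat
  have h4 := R.one
  have hχ0 : 0 < χ := by
    rw [hχ]
    exact lt_min (lt_min h1 (by linarith)) (lt_min (by linarith) (by linarith))
  have e1 : χ ≤ η := by rw [hχ]; exact (min_le_left _ _).trans (min_le_left _ _)
  have e2 : χ ≤ c₀ - (2 * δ + φ) := by rw [hχ]; exact (min_le_left _ _).trans (min_le_right _ _)
  have e3 : χ ≤ b - (W 0 + M * ζ) := by rw [hχ]; exact (min_le_right _ _).trans (min_le_left _ _)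
  have e4 : χ ≤ 1 - (X₀ + y₀ + 4 * δ + E) := by
    rw [hχ]; exact (min_le_right _ _).trans (min_le_right _ _)
  obtain ⟨J₀, hJ₀⟩ := exists_nat_ge (B / χ)
  refine ⟨J₀, fun J hJ => ?_⟩
  have h5 : (J₀ : ℝ) ≤ J := by exact_mod_cast hJ
  have hB : B ≤ χ * J := by
    have h6 : B / χ ≤ J := hJ₀.trans h5
    rw [div_le_iff₀ hχ0] at h6
    linarith
  have hJ0 : (0 : ℝ) ≤ J := Nat.cast_nonneg J
  exact ⟨hB.trans (mul_le_mul_of_nonneg_right e1 hJ0), hB.trans (mul_le_mul_of_nonneg_right e2 hJ0),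
    hB.trans (mul_le_mul_of_nonneg_right e3 hJ0), hB.trans (mul_le_mul_of_nonneg_right e4 hJ0)⟩

/-- **The levels of the grid.** -/
theorem Rls.grd (R : Rls Λ L n σ M S P T W b ρ o c₀ η e θ V δ φ D E ζ X₀ y₀ q ε₀ e')
    (hρb : ρ ≤ b) {J : ℕ} {B : ℝ} (hJ : LJ B M W b c₀ η δ φ E ζ X₀ y₀ J) (hB : (M : ℝ) + 1 ≤ B)
    (m Q : ℕ) : Grd m Q T (T + M * P) P ⌊b * J⌋₊ ⌊ζ * J⌋₊ J b ρ o η ∧
      Ends b η T P ⌊b * J⌋₊ ⌊ζ * J⌋₊ J M := by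
  have hη := R.η_pos
  have hJ0 : (0 : ℝ) ≤ J := Nat.cast_nonneg J
  have hTr : (1 : ℝ) ≤ T := by exact_mod_cast R.T_pos
  have hPr : (1 : ℝ) ≤ P := by exact_mod_cast R.P_pos
  have hηρ : η ≤ ρ := by
    rw [← R.ρ_eq]
    nlinarith
  have hζ0 : 0 < ζ := by rw [R.ζ_eq]; positivity
  have hM0 : (0 : ℝ) ≤ M := Nat.cast_nonneg M
  refine ⟨⟨hη, R.ρ_eq, R.T_pos, R.P_pos, fun t ht => ?_,
    Nat.floor_le (mul_nonneg (by linarith) hJ0), ?_⟩, ⟨by linarith, fun k hk => ?_⟩⟩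
  · have h1 : (t : ℝ) + 1 ≤ T + M * P := by exact_mod_cast ht
    have h2 : ((t : ℝ) + 1 - T) * η ≤ M * P * η :=
      mul_le_mul_of_nonneg_right (by linarith) hη.le
    have h3 := R.o_ge
    rw [R.ζ_eq] at h3
    unfold xo
    linarith
  · rw [← R.ζ_eq]
    exact Nat.floor_le (mul_nonneg hζ0.le hJ0)
  · have h1 := Nat.lt_floor_add_one (b * J)
    have h2 := Nat.lt_floor_add_one (ζ * J)
    have hkr : (k : ℝ) ≤ M := by exact_mod_cast hk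
    have hk0 : (0 : ℝ) ≤ k := Nat.cast_nonneg k
    have h3 : (k : ℝ) * (ζ * J) ≤ k * ((⌊ζ * J⌋₊ : ℕ) + 1) :=
      mul_le_mul_of_nonneg_left h2.le hk0
    have h4 := hJ.η_ge
    have e1 : (b + (k * (P * η) - η)) * J = b * J + k * (ζ * J) - η * J := by
      rw [R.ζ_eq]; ring
    rw [e1]
    linarith

/-- **The digits.** `κs = δ / (4 c)`, `κu = δ / (16 c ^ 2)`. -/
structure Dgs (c : ℕ) (b δ D E θ ζ φ X₀ y₀ q ε₀ e' : ℝ) (J u s t Rr gn X y : ℕ) : Prop where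
  u_le : 16 * (c : ℝ) ^ 2 * u ≤ δ * J
  u_ge : δ * J ≤ 16 * (c : ℝ) ^ 2 * (u + 1)
  s_le : 4 * (c : ℝ) * s ≤ δ * J
  s_ge : δ * J ≤ 4 * (c : ℝ) * (s + 1)
  t_le : (t : ℝ) ≤ 2 * δ * J
  t_ge : 2 * δ * J ≤ t + 1
  R_le : (Rr : ℝ) ≤ D * J + 2
  R_ge : D * J + 1 ≤ Rr
  g_le : (gn : ℝ) ≤ θ * J - 1
  g_ge : θ * J ≤ gn + 2
  X_le : (X : ℝ) ≤ X₀ * J + 1
  X_ge : X₀ * J ≤ X
  y_le : (y : ℝ) ≤ y₀ * J
  y_ge : ⌊ζ * J⌋₊ ≤ y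

/-- The number of digits of the boxes. -/
noncomputable def du (c : ℕ) (δ : ℝ) (J : ℕ) : ℕ := ⌊δ * J / (16 * (c : ℝ) ^ 2)⌋₊

/-- The losses. -/
noncomputable def ds (c : ℕ) (δ : ℝ) (J : ℕ) : ℕ := ⌊δ * J / (4 * (c : ℝ))⌋₊

theorem Rls.dgs (R : Rls Λ L n σ M S P T W b ρ o c₀ η e θ V δ φ D E ζ X₀ y₀ q ε₀ e') {c : ℕ}
    (hc : 1 ≤ c) (hδ : 0 ≤ δ) (hD : 0 ≤ D) {J : ℕ} (hθ : 1 ≤ θ * J) (hζ : 0 ≤ ζ) :
    Dgs c b δ D E θ ζ φ X₀ y₀ q ε₀ e' J (du c δ J) (ds c δ J) ⌊2 * δ * J⌋₊ (⌊D * J⌋₊ + 2)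
      ⌊θ * J - 1⌋₊ ⌈X₀ * J⌉₊ ⌊y₀ * J⌋₊ := by
  have hJ0 : (0 : ℝ) ≤ J := Nat.cast_nonneg J
  have hcr : (1 : ℝ) ≤ c := by exact_mod_cast hc
  have hc2 : (0 : ℝ) < 16 * (c : ℝ) ^ 2 := by positivity
  have hc4 : (0 : ℝ) < 4 * (c : ℝ) := by positivity
  have hδJ : 0 ≤ δ * J := mul_nonneg hδ hJ0
  have hX := mul_nonneg R.X_nn hJ0
  refine ⟨?_, ?_, ?_, ?_, ?_, ?_, ?_, ?_, ?_, ?_, ?_, ?_, ?_, ?_⟩
  · have h1 := Nat.floor_le (div_nonneg hδJ hc2.le)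
    rw [le_div_iff₀ hc2] at h1
    unfold du
    linarith
  · have h1 := (Nat.lt_floor_add_one (δ * J / (16 * (c : ℝ) ^ 2))).le
    rw [div_le_iff₀ hc2] at h1
    unfold du
    linarith
  · have h1 := Nat.floor_le (div_nonneg hδJ hc4.le)
    rw [le_div_iff₀ hc4] at h1
    unfold ds
    linarith
  · have h1 := (Nat.lt_floor_add_one (δ * J / (4 * (c : ℝ)))).le
    rw [div_le_iff₀ hc4] at h1
    unfold ds
    linarith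
  · exact Nat.floor_le (by positivity)
  · exact (Nat.lt_floor_add_one _).le
  · push_cast
    linarith [Nat.floor_le (mul_nonneg hD hJ0)]
  · push_cast
    linarith [Nat.lt_floor_add_one (D * J)]
  · exact Nat.floor_le (by linarith)
  · linarith [Nat.lt_floor_add_one (θ * J - 1)]
  · exact (Nat.ceil_lt_add_one hX).le
  · exact Nat.le_ceil _
  · exact Nat.floor_le (mul_nonneg (hζ.trans R.y_ge) hJ0)
  · exact Nat.floor_le_floor (mul_le_mul_of_nonneg_right R.y_ge hJ0)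

/-- The basic consequences. -/
structure Rls.Bs (Λ c M S : ℕ) (b c₀ η e θ δ φ D ζ q : ℝ) (J : ℕ) (B : ℝ) : Prop where
  δ0 : 0 < δ
  ζ0 : 0 < ζ
  D0 : 0 < D
  J0 : (0 : ℝ) ≤ J
  ηJ : B ≤ η * J
  ηδ : 16 * (c : ℝ) ^ 2 * (η * J) ≤ δ * J
  δJ : B ≤ δ * J
  sm : 16 * (c : ℝ) ^ 2 * ((e + (S + 2) * η + φ) * J) ≤ δ * J
  δζ : Λ * (δ * J) ≤ ζ * J
  ζD : ζ * J ≤ D * J
  δD : δ * J ≤ D * J
  Dθ : Λ * (D * J) ≤ θ * J
  Dq : Λ * (D * J) ≤ q * J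

theorem Rls.bs (R : Rls Λ L n σ M S P T W b ρ o c₀ η e θ V δ φ D E ζ X₀ y₀ q ε₀ e') {c : ℕ}
    (he : 0 ≤ e) (hc : 1 ≤ c) (hΛ : 16 * c ^ 2 ≤ Λ) {J : ℕ} {B : ℝ}
    (hJ : LJ B M W b c₀ η δ φ E ζ X₀ y₀ J) :
    Rls.Bs Λ c M S b c₀ η e θ δ φ D ζ q J B := by
  have hη := R.η_pos
  have hφ := R.φ_nn
  have hJ0 : (0 : ℝ) ≤ J := Nat.cast_nonneg J
  have hcr : (1 : ℝ) ≤ c := by exact_mod_cast hc
  have hc1 : (1 : ℝ) ≤ (c : ℝ) ^ 2 := one_le_pow₀ hcr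
  have hΛr : 16 * (c : ℝ) ^ 2 ≤ Λ := by exact_mod_cast hΛ
  have hΛ1 : (1 : ℝ) ≤ Λ := by linarith
  have hS0 : (0 : ℝ) ≤ S := Nat.cast_nonneg S
  have hx0 : 0 ≤ e + (S + 2) * η + φ := by positivity
  have hx1 : η ≤ e + (S + 2) * η + φ := by nlinarith
  have h1 : 16 * (c : ℝ) ^ 2 * (e + (S + 2) * η + φ) ≤ δ :=
    (mul_le_mul_of_nonneg_right hΛr hx0).trans R.small.le
  have h2 : 16 * (c : ℝ) ^ 2 * η ≤ δ := (mul_le_mul_of_nonneg_left hx1 (by positivity)).trans h1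
  have hηδ : η ≤ δ := by nlinarith
  have hδ0 : 0 < δ := lt_of_lt_of_le hη hηδ
  have hδζ := R.δζ
  have hζ0 : 0 < ζ := lt_of_le_of_lt (by positivity) hδζ
  have hδζ' : δ ≤ ζ := by nlinarith
  have hM0 : (0 : ℝ) ≤ M := Nat.cast_nonneg M
  have hζD : ζ ≤ D := by have := R.DM; nlinarith
  refine ⟨hδ0, hζ0, by linarith, hJ0, hJ.η_ge, ?_, ?_, ?_, ?_, mul_le_mul_of_nonneg_right hζD hJ0,
    mul_le_mul_of_nonneg_right (by linarith) hJ0, ?_, ?_⟩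
  · rw [← mul_assoc]
    exact mul_le_mul_of_nonneg_right h2 hJ0
  · exact hJ.η_ge.trans (mul_le_mul_of_nonneg_right hηδ hJ0)
  · rw [← mul_assoc]
    exact mul_le_mul_of_nonneg_right h1 hJ0
  · rw [← mul_assoc]
    exact mul_le_mul_of_nonneg_right hδζ.le hJ0
  · rw [← mul_assoc]
    exact mul_le_mul_of_nonneg_right R.Dθ.le hJ0
  · rw [← mul_assoc]
    exact mul_le_mul_of_nonneg_right R.Dq.le hJ0

/-- **The numbers of the labels.** -/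
theorem Rls.dgt (R : Rls Λ L n σ M S P T W b ρ o c₀ η e θ V δ φ D E ζ X₀ y₀ q ε₀ e') {c : ℕ}
    (he : 0 ≤ e) (hS : 1 ≤ S) (hb : 0 ≤ b) (hc : 1 ≤ c) (hΛ : 16 * c ^ 2 ≤ Λ) {J Cst : ℕ} {B : ℝ}
    (hJ : LJ B M W b c₀ η δ φ E ζ X₀ y₀ J)
    (hB : (Cst : ℝ) + c + S + 8 ≤ B) {u s t Rr gn X y : ℕ}
    (hd : Dgs c b δ D E θ ζ φ X₀ y₀ q ε₀ e' J u s t Rr gn X y) {eT : ℝ} (heT : 0 ≤ eT)
    (heT' : 16 * (c : ℝ) * (Cst * eT) ≤ δ) :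
    Dgt L n σ M S P W b o c₀ η e θ V δ φ D E c Cst ⌊b * J⌋₊ ⌊ζ * J⌋₊ J u ⌊φ * J⌋₊ u s t Rr gn X
      ⌊E * J⌋₊ (eT * J) := by
  have Z := R.bs he hc hΛ hJ (θ := θ) (q := q)
  obtain ⟨hδ0, hζ0, hD0, hJ0, hηJ, hηδ, hδJ, hsm, hδζ, hζD, hδD, hDθ, hDq⟩ := Z
  have hcr : (1 : ℝ) ≤ c := by exact_mod_cast hc
  have hc1 : (1 : ℝ) ≤ (c : ℝ) ^ 2 := one_le_pow₀ hcr
  have hcc : (c : ℝ) ≤ (c : ℝ) ^ 2 := by nlinarith
  have hη := R.η_pos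
  have hφ := R.φ_nn
  have hS1 : (1 : ℝ) ≤ S := by exact_mod_cast hS
  have hC0 : (0 : ℝ) ≤ Cst := Nat.cast_nonneg Cst
  have hM0 : (0 : ℝ) ≤ M := Nat.cast_nonneg M
  have hΛr : 16 * (c : ℝ) ^ 2 ≤ Λ := by exact_mod_cast hΛ
  have hφJ := Nat.floor_le (mul_nonneg hφ hJ0)
  have hzu := Nat.floor_le (mul_nonneg hζ0.le hJ0)
  have hzl := Nat.lt_floor_add_one (ζ * J)
  have hbu := Nat.floor_le (mul_nonneg hb hJ0)
  have hηJ0 : 0 ≤ η * J := mul_nonneg hη.le hJ0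
  have hδJ0 : 0 ≤ δ * J := mul_nonneg hδ0.le hJ0
  have heJ0 : 0 ≤ e * J := mul_nonneg he hJ0
  have hφJ0 : 0 ≤ φ * J := mul_nonneg hφ hJ0
  -- the boxes
  have hu1 : (e + (S + 2) * η + φ) * J ≤ u + 1 := by
    have h1 := hd.u_ge
    have h2 := hsm.trans h1
    exact le_of_mul_le_mul_left h2 (by positivity)
  have e1 : (e + (S + 2) * η + φ) * J = e * J + S * (η * J) + 2 * (η * J) + φ * J := by ring
  rw [e1] at hu1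
  have hSη : η * J ≤ S * (η * J) := le_mul_of_one_le_left hηJ0 hS1
  have hsm' : e * J + φ * J + 3 * (η * J) ≤ δ * J / 16 := by
    have h1 : 16 * ((e + (S + 2) * η + φ) * J) ≤ 16 * (c : ℝ) ^ 2 * ((e + (S + 2) * η + φ) * J) := by
      have h2 : 0 ≤ (e + (S + 2) * η + φ) * J := by rw [e1]; linarith
      nlinarith
    have h3 := h1.trans hsm
    rw [e1] at h3
    linarith
  have hδζ1 : 16 * (δ * J) ≤ ζ * J := by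
    refine le_trans (mul_le_mul_of_nonneg_right ?_ hδJ0) hδζ
    linarith
  have hMζ : (M : ℝ) * (P * η) = M * ζ := by rw [R.ζ_eq]
  -- the losses
  have hκs : 4 * (η * J) ≤ δ * J / (4 * c) := by
    rw [le_div_iff₀ (by positivity)]
    have h1 : (c : ℝ) * (η * J) ≤ (c : ℝ) ^ 2 * (η * J) := mul_le_mul_of_nonneg_right hcc hηJ0
    linarith
  have hs1 : δ * J / (4 * c) ≤ s + 1 := by
    rw [div_le_iff₀ (by positivity)]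
    linarith [hd.s_ge]
  have hu2 : 2 * (c * u) ≤ δ * J / (4 * c) / 2 := by
    rw [div_div, le_div_iff₀ (by positivity)]
    linarith [hd.u_le]
  have hCe : Cst * eT * J ≤ δ * J / (4 * c) / 4 := by
    rw [div_div, le_div_iff₀ (by positivity)]
    have h1 := mul_le_mul_of_nonneg_right heT' hJ0
    linarith
  have hcs : (c : ℝ) * s ≤ δ * J / 4 := by linarith [hd.s_le]
  refine
    { φ_le := by linarith [R.c₀_ge]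
      δ_le := fun i h1 hi => ?_
      Dσ := fun i h1 hi => ?_
      DV := R.DV
      DM := ?_
      w₀_eq := rfl
      z_pos := ?_
      fat := ?_
      top := ?_
      u₀_le := ?_
      u_ge := ?_
      h_ge := ?_
      c_ge := ?_
      e₀_nn := mul_nonneg heT hJ0
      tm := ?_
      s_ge := ?_
      x_le := ?_
      t_ge := ?_
      t_le := ?_
      xt := ?_
      gn_le := hd.g_le
      Rr_ge := hd.R_ge
      X_ge := fun i h1 hi => ?_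
      ee_eq := rfl }
  · have h2 := R.δ_le i h1 hi
    have h3 := R.c₀_ge
    exact ⟨by linarith, by linarith⟩
  · rw [hMζ]
    exact R.Dσ i h1 hi
  · have := R.DM
    rw [R.ζ_eq] at this
    linarith
  · rw [Nat.one_le_iff_ne_zero]
    intro h
    rw [h] at hzl
    push_cast at hzl
    linarith
  · rw [hMζ]
    have := hJ.b_ge
    linarith
  · have h1 := mul_le_mul_of_nonneg_right R.top hJ0
    have h2 : (M + 1 : ℝ) * (⌊ζ * J⌋₊ : ℕ) ≤ (M + 1) * (ζ * J) :=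
      mul_le_mul_of_nonneg_left hzu (by positivity)
    have h3 : ((⌊b * J⌋₊ + (M + 1) * ⌊ζ * J⌋₊ : ℕ) : ℝ) ≤ J := by
      push_cast
      linarith
    exact_mod_cast h3
  · have h1 : ((⌊φ * J⌋₊ + Cst : ℕ) : ℝ) ≤ u := by
      push_cast
      linarith
    exact_mod_cast h1
  · linarith
  · linarith
  · have := hJ.c_ge
    linarith
  · have h1 : (1 - b) * J ≥ ζ * J := by
      have := mul_le_mul_of_nonneg_right R.top hJ0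
      have h2 : 0 ≤ (M : ℝ) * (ζ * J) := by positivity
      linarith
    have h3 : δ * J / (4 * c) ≤ δ * J := div_le_self hδJ0 (by linarith)
    linarith
  · linarith
  · push_cast
    linarith
  · linarith [hd.t_ge]
  · linarith [hd.t_le, hJ.c_ge]
  · have h1 : ((c * (s + 1) : ℕ) : ℝ) ≤ t := by
      push_cast
      linarith [hd.t_ge]
    exact_mod_cast h1
  · exact (mul_le_mul_of_nonneg_right (R.X_ge i h1 hi) hJ0).trans hd.X_ge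

/-- **The powers of `2`.** -/
theorem Rls.pw (R : Rls Λ L n σ M S P T W b ρ o c₀ η e θ V δ φ D E ζ X₀ y₀ q ε₀ e') {c : ℕ}
    (he : 0 ≤ e) (hc : 1 ≤ c) {c' c₁ c₂ N₀ U : ℕ} {C₀ T₀ C₁' : ℝ} (hC₀ : 0 ≤ C₀)
    (hN₀ : 2 * C₀ ≤ N₀) (hC₁ : 1 ≤ C₁')
    (hΛ : 16 * c ^ 2 + 4 * (c₂ * c) + 3 * ((c₁ + 1) * ((N₀ + 1) * c)) + 2 * (c' * c) + U + 1 ≤ Λ)
    {J : ℕ} {B : ℝ} (hJ : LJ B M W b c₀ η δ φ E ζ X₀ y₀ J)
    (hB : ((2 * (c₂ * c) + 3 * ((c₁ + 1) * ((N₀ + 1) * (c + 1))) + c' * c + 2 * c + 4 : ℕ) : ℝ) ≤ B)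
    (hBT : T₀ ≤ B) {u s t Rr gn X y : ℕ}
    (hd : Dgs c b δ D E θ ζ φ X₀ y₀ q ε₀ e' J u s t Rr gn X y) :
    Pw c c c' c₁ c₂ N₀ U ⌊ζ * J⌋₊ s t Rr gn C₀ T₀ C₁' := by
  have hΛ1 : 16 * c ^ 2 ≤ Λ := by
    refine le_trans ?_ hΛ
    omega
  have Z := R.bs he hc hΛ1 hJ (θ := θ) (q := q)
  obtain ⟨hδ0, hζ0, hD0, hJ0, hηJ, hηδ, hδJ, hsm, hδζ, hζD, hδD, hDθ, hDq⟩ := Z
  have hcr : (1 : ℝ) ≤ c := by exact_mod_cast hc
  have hc1 : (1 : ℝ) ≤ (c : ℝ) ^ 2 := one_le_pow₀ hcr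
  have hcc : (c : ℝ) ≤ (c : ℝ) ^ 2 := by nlinarith
  have hzu := Nat.floor_le (mul_nonneg hζ0.le hJ0)
  have hzl := Nat.lt_floor_add_one (ζ * J)
  have hδJ0 : 0 ≤ δ * J := mul_nonneg hδ0.le hJ0
  have hDJ0 : 0 ≤ D * J := mul_nonneg hD0.le hJ0
  have hcs : 4 * ((c : ℝ) * s) ≤ δ * J := by linarith [hd.s_le]
  have hct : (c : ℝ) * t ≤ 2 * (c * (δ * J)) := by
    have := mul_le_mul_of_nonneg_left hd.t_le (by linarith : (0 : ℝ) ≤ c)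
    linarith
  obtain ⟨A₁, hA₁⟩ : ∃ A₁, A₁ = (c₁ + 1) * (N₀ + 1) := ⟨_, rfl⟩
  have hΛr : (((16 * c ^ 2 + 4 * (c₂ * c) + 3 * (A₁ * c) + 2 * (c' * c) + U + 1 : ℕ)) : ℝ) ≤ Λ := by
    have e1 : A₁ * c = (c₁ + 1) * ((N₀ + 1) * c) := by rw [hA₁, Nat.mul_assoc]
    rw [e1]
    exact_mod_cast hΛ
  have hBr : ((2 * (c₂ * c) + 3 * (A₁ * (c + 1)) + c' * c + 2 * c + 4 : ℕ) : ℝ) ≤ B := by
    have e1 : A₁ * (c + 1) = (c₁ + 1) * ((N₀ + 1) * (c + 1)) := by rw [hA₁, Nat.mul_assoc]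
    rw [e1]
    exact hB
  push_cast at hΛr hBr
  have n1 : (0 : ℝ) ≤ (c₂ : ℝ) * c := by positivity
  have n2 : (0 : ℝ) ≤ (A₁ : ℝ) * c := by positivity
  have n3 : (0 : ℝ) ≤ (c' : ℝ) * c := by positivity
  have n4 : (0 : ℝ) ≤ (U : ℝ) := by positivity
  have n5 : (0 : ℝ) ≤ (A₁ : ℝ) := by positivity
  refine ⟨hc, hC₀, hN₀, ?_, le_rfl, ?_, ?_, hC₁, ?_⟩
  · have h1 : t < 2 ^ t := Nat.lt_two_pow_self
    have h2 : (t : ℝ) ≤ 2 ^ t := by exact_mod_cast h1.le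
    linarith [hd.t_ge]
  · push_cast
    have h1 : (6 * (c : ℝ) + 1) * (δ * J) ≤ ζ * J := by
      refine le_trans (mul_le_mul_of_nonneg_right ?_ hδJ0) hδζ
      linarith
    have h2 : (c : ℝ) * (s + t + 1) = c * s + c * t + c := by ring
    have h3 : (δ * J) / 4 ≤ (c : ℝ) * (δ * J) := by nlinarith
    rw [h2]
    linarith
  · push_cast
    have h1 : (4 * ((c₂ : ℝ) * c) + 1) * (δ * J) ≤ ζ * J := by
      refine le_trans (mul_le_mul_of_nonneg_right ?_ hδJ0) hδζ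
      linarith
    have h2 : (c₂ : ℝ) * (c * (t + 1)) ≤ c₂ * c * (2 * (δ * J) + 1) := by
      rw [← mul_assoc]
      exact mul_le_mul_of_nonneg_left (by linarith [hd.t_le]) n1
    linarith
  · have h1 : (3 * ((A₁ : ℝ) * c) + 2 * (c' * c) + U + 1) * (D * J) ≤ θ * J := by
      refine le_trans (mul_le_mul_of_nonneg_right ?_ hDJ0) hDθ
      linarith
    have h2 : (A₁ : ℝ) * c * (t + Rr + 1) ≤ A₁ * c * (3 * (D * J) + 3) :=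
      mul_le_mul_of_nonneg_left (by linarith [hd.t_le, hd.R_le]) n2
    have h3 : (c' : ℝ) * c * (t + 1) ≤ c' * c * (2 * (D * J) + 1) :=
      mul_le_mul_of_nonneg_left (by linarith [hd.t_le]) n3
    have h4 : (U : ℝ) * (⌊ζ * J⌋₊ : ℕ) ≤ U * (D * J) :=
      mul_le_mul_of_nonneg_left (by linarith) n4
    have h5 : (((c₁ + 1) * ((N₀ + 1) * (c * (t + Rr + 1) + 1)) + c' * (c * (t + 1)) +
        U * ⌊ζ * J⌋₊ : ℕ) : ℝ) ≤ gn := by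
      have e1 : (c₁ + 1) * ((N₀ + 1) * (c * (t + Rr + 1) + 1)) = A₁ * (c * (t + Rr + 1) + 1) := by
        rw [hA₁, Nat.mul_assoc]
      rw [e1]
      push_cast
      linarith [hd.g_ge]
    exact_mod_cast h5

/-- **The other inequalities.** -/
theorem Rls.rest (R : Rls Λ L n σ M S P T W b ρ o c₀ η e θ V δ φ D E ζ X₀ y₀ q ε₀ e') {c : ℕ}
    (he : 0 ≤ e) (hc : 1 ≤ c) {cL N₀ Cst : ℕ} {C₁' : ℝ} (hC₁ : 1 ≤ C₁')
    (hΛ : 16 * c ^ 2 + 3 * ((N₀ + 1) * c) + 6 * cL + 1 ≤ Λ)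
    {J : ℕ} {B : ℝ} (hJ : LJ B M W b c₀ η δ φ E ζ X₀ y₀ J)
    (hB : ((3 * ((N₀ + 1) * (c + 1)) + c + cL + Cst + 4 : ℕ) : ℝ) ≤ B)
    (hσ : ∀ i, 1 ≤ i → i ≤ n → σ i * M + 2 ≤ B) {u s t Rr gn X y : ℕ}
    (hd : Dgs c b δ D E θ ζ φ X₀ y₀ q ε₀ e' J u s t Rr gn X y) :
    (∀ i, 1 ≤ i → i ≤ n → σ i * M + 1 ≤ C₁' * (⌊ζ * J⌋₊ : ℕ)) ∧
      X + y + c * (s + 1) + ⌊E * J⌋₊ + Cst ≤ J ∧ X + 2 * t + ⌊E * J⌋₊ + Cst ≤ J ∧
      (N₀ + 1) * (c * (t + Rr + 1) + 1) ≤ ⌊q * J⌋₊ ∧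
      ⌊e' * J⌋₊ + cL * (2 * t + t + 1) + Cst ≤ ⌊ε₀ * J⌋₊ := by
  have hΛ1 : 16 * c ^ 2 ≤ Λ := by
    refine le_trans ?_ hΛ
    omega
  have Z := R.bs he hc hΛ1 hJ (θ := θ) (q := q)
  obtain ⟨hδ0, hζ0, hD0, hJ0, hηJ, hηδ, hδJ, hsm, hδζ, hζD, hδD, hDθ, hDq⟩ := Z
  have hcr : (1 : ℝ) ≤ c := by exact_mod_cast hc
  have hc1 : (1 : ℝ) ≤ (c : ℝ) ^ 2 := one_le_pow₀ hcr
  have hzl := Nat.lt_floor_add_one (ζ * J)
  have hδJ0 : 0 ≤ δ * J := mul_nonneg hδ0.le hJ0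
  have hDJ0 : 0 ≤ D * J := mul_nonneg hD0.le hJ0
  have hcs : 4 * ((c : ℝ) * s) ≤ δ * J := by linarith [hd.s_le]
  have hEJ := Nat.floor_le (mul_nonneg R.E_nn hJ0)
  have heJ := Nat.floor_le (mul_nonneg R.e'_nn hJ0)
  have hΛr : (((16 * c ^ 2 + 3 * ((N₀ + 1) * c) + 6 * cL + 1 : ℕ)) : ℝ) ≤ Λ := by exact_mod_cast hΛ
  push_cast at hΛr hB
  have n1 : (0 : ℝ) ≤ ((N₀ : ℝ) + 1) * c := by positivity
  have n2 : (0 : ℝ) ≤ (cL : ℝ) := by positivity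
  have n3 : (0 : ℝ) ≤ (Cst : ℝ) := by positivity
  have n4 : (0 : ℝ) ≤ (N₀ : ℝ) := by positivity
  have n5 : (0 : ℝ) ≤ X₀ * J := mul_nonneg R.X_nn hJ0
  have n6 : ζ * J ≤ y₀ * J := mul_le_mul_of_nonneg_right R.y_ge hJ0
  have hζ1 : δ * J ≤ ζ * J := by
    refine le_trans ?_ hδζ
    exact le_mul_of_one_le_left hδJ0 (by linarith)
  refine ⟨fun i h1 hi => ?_, ?_, ?_, ?_, ?_⟩
  · have h2 := hσ i h1 hi
    have h3 : (⌊ζ * J⌋₊ : ℝ) ≤ C₁' * (⌊ζ * J⌋₊ : ℕ) := le_mul_of_one_le_left (Nat.cast_nonneg _) hC₁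
    linarith
  · have h1 : ((X + y + c * (s + 1) + ⌊E * J⌋₊ + Cst : ℕ) : ℝ) ≤ J := by
      push_cast
      linarith [hd.X_le, hd.y_le, hJ.one_ge]
    exact_mod_cast h1
  · have h1 : ((X + 2 * t + ⌊E * J⌋₊ + Cst : ℕ) : ℝ) ≤ J := by
      push_cast
      linarith [hd.X_le, hd.t_le, hJ.one_ge]
    exact_mod_cast h1
  · refine Nat.le_floor ?_
    have h1 : (3 * (((N₀ : ℝ) + 1) * c) + 1) * (D * J) ≤ q * J := by
      refine le_trans (mul_le_mul_of_nonneg_right ?_ hDJ0) hDq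
      linarith
    have h2 : ((N₀ : ℝ) + 1) * c * (t + Rr + 1) ≤ (N₀ + 1) * c * (3 * (D * J) + 3) :=
      mul_le_mul_of_nonneg_left (by linarith [hd.t_le, hd.R_le]) n1
    push_cast
    linarith
  · refine Nat.le_floor ?_
    have h1 : (6 * (cL : ℝ) + 1) * (δ * J) ≤ Λ * (δ * J) :=
      mul_le_mul_of_nonneg_right (by linarith) hδJ0
    have h2 : (Λ * (δ * J) + e' * J) ≤ ε₀ * J := by
      rw [← mul_assoc, ← add_mul]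
      exact mul_le_mul_of_nonneg_right R.δε.le hJ0
    have h3 : (cL : ℝ) * (2 * t + t + 1) ≤ cL * (6 * (δ * J) + 1) :=
      mul_le_mul_of_nonneg_left (by linarith [hd.t_le]) n2
    push_cast
    linarith

end Pool.STAT.GRD
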