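import Pool.Agent.H82.STAT.Grv
import Pool.Agent.H69.STAT.LipJ

/-!
# `LabR` for one family, real inequalities
-/

set_option autoImplicit false

namespace Pool.STAT.GRD

open Finset MvPolynomial
open Pool.Agent.H49.Ent Pool.Agent.H32.Dense Pool.STK Pool.KS3 Pool.KA Pool.KSAT Pool.PB Pool.GEN
open Pool.STAT.CLO Pool.STAT.CDat Pool.TRC Pool.STAT.DPP Pool.K2S Pool.LEV

theorem lipJ_of (n D : ℕ) : LipJ n D := lip_jat n D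

/-- The path of the fat end. -/
noncomputable def pth0 {m J : ℕ} (F : Fam m J) (ec : ℕ → Fin m) (n : ℕ) (L : ℕ → ℝ → ℝ → ℝ)
    (W : ℕ → ℝ) (b ρ η ζ : ℝ) (T M P : ℕ) (dl : ℕ → ℝ)
    (G : ℕ → PtT F → ℕ → MvPolynomial (Option (Fin m)) ℝ) : Path F :=
  pthI F (fun l => ec (l + 1)) (n + 1) (T + M * P - 1 + 1) ⌊(b - ρ) * J⌋₊
    (fun k => alt b η T P ⌊b * J⌋₊ ⌊ζ * J⌋₊ J (k % (T + M * P)))
    (grn L W b η T (T + M * P) J dl) G (ix (T + M * P) 0)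

/-- **The rows over the fat labels** of a family. `A₀`: the event of the class, `A`: the event of
the chains `G`, `H`. -/
def RowsF {m J : ℕ} (F : Fam m J) (A₀ A : F.Ω → Prop) (L : ℕ → ℝ → ℝ → ℝ) (σ : ℕ → ℝ) (p : ℕ → Prop)
    [DecidablePred p] (ec : ℕ → Fin m) (n KH c M P T U : ℕ) (W : ℕ → ℝ)
    (b ρ η δ ζ y₀ Kc L₀ ρr a C₂ τ : ℝ) (dl : ℕ → ℝ)
    (G : ℕ → PtT F → ℕ → MvPolynomial (Option (Fin m)) ℝ) : Prop :=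
  ∀ (C : CDat F) (A' : F.Ω → Prop), (∀ ω, A' ω → A ω) → Pe F.p A ≤ Kc * Pe F.p A' →
    RwIn C ec n KH ⌊b * J⌋₊ ⌊ζ * J⌋₊ M ⌊y₀ * J⌋₊ (du c δ J) ⌊2 * δ * J⌋₊
      (gF L σ p W b η δ T (T + M * P) P J dl ⌊2 * δ * J⌋₊)
      (fun k i => L i (b + xe P η k) (W 0 + xe P η k)) (3 * δ * J) L₀
      (pth0 F ec n L W b ρ η ζ T M P dl G) (fun k => T + k * P) A' →
    ∀ E : F.Ω → Prop, (∀ ω, E ω → A' ω) → Real.exp (-(τ * J)) * Pe F.p A₀ ≤ Pe F.p E →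
    ∀ v, U ≤ v → v + 2 * U ≤ M → RowN F C ec n ⌊b * J⌋₊ ⌊ζ * J⌋₊ U
      (gF L σ p W b η δ T (T + M * P) P J dl ⌊2 * δ * J⌋₊) ρr a C₂ v E

/-- **The labels of a cell, one family**, from real inequalities. -/
theorem labR_real (n S Rd : ℕ) (hS : 1 ≤ S) : ∃ (c KH : ℕ) (L₀ : ℝ), 1 ≤ c ∧ 1 ≤ L₀ ∧
    ∀ (c₁ c₂ U : ℕ) (T₀ : ℝ), ∃ Λ : ℕ, 16 * c ^ 2 ≤ Λ ∧
    ∀ (K : ℕ) {L L' : ℕ → ℝ → ℝ → ℝ} {σ : ℕ → ℝ} {p : ℕ → Prop} [DecidablePred p] {M P T : ℕ}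
      {W : ℕ → ℝ} {b ρ o c₀ η e θ V δ φ D E ζ X₀ y₀ q ε₀ e' C₁' : ℝ},
      CelG L (n + 1) p σ Rd M S P W b ρ o c₀ η e θ V →
      Rls Λ L (n + 1) σ M S P T W b ρ o c₀ η e θ V δ φ D E ζ X₀ y₀ q ε₀ e' → 1 ≤ C₁' →
      σ 0 = 1 → (∀ i, 1 ≤ σ i) → (∀ i, L' i b b = L i b b) →
    ∃ (Kc eT : ℝ) (J₀ : ℕ), 0 < Kc ∧ 0 < eT ∧ ∀ J ≥ J₀, ∀ {m : ℕ} {F : Fam m J} {ec : ℕ → Fin m}
      {dl : ℕ → ℝ} {δm : ℕ → ℕ} {A₀ A : F.Ω → Prop} {ρr a C₂ Ka τ : ℝ}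
      {G : ℕ → PtT F → ℕ → MvPolynomial (Option (Fin m)) ℝ}
      {H : ℕ → LnT F → ℕ → MvPolynomial (Option (Fin m)) ℝ} (hA : 0 < Pe F.p A),
      (∀ ω, A ω → A₀ ω) → Pe F.p A₀ ≤ Ka * Pe F.p A → 0 ≤ Ka →
      Pool.CHT.MCh F (fun l => ec (l + 1)) (n + 1) (fun _ => K) ((Rd + 2 + 1) * (T + M * P))
        (fun k k' => gra b η T (T + M * P) k ≤ gra b η T (T + M * P) k' ∧
          grw W η T (T + M * P) k ≤ grw W η T (T + M * P) k')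
        (fun k => ⌊gra b η T (T + M * P) k * J⌋₊) (fun k => ⌊grw W η T (T + M * P) k * J⌋₊) ⌊E * J⌋₊
        (grn L W b η T (T + M * P) J dl) δm A G H → Inj (fun l => ec (l + 1)) (n + 1) →
      (∀ k < T + M * P, ChOK F (fun l => ec (l + 1)) n (fun _ => K)
        ⌊gra b η T (T + M * P) k * J⌋₊ ⌊grw W η T (T + M * P) k * J⌋₊ ⌊e' * J⌋₊
        (grn L W b η T (T + M * P) J dl k) A (G k) (H k)) →
      (∀ l < n + 1, 0 ≤ dl l ∧ dl l ≤ φ) → (∀ l < n + 1, δm l ≤ ⌊φ * J⌋₊) →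
      (Pool.FLF.Fam.sub F A hA).Tm (eT * J) →
      RowsF F A₀ A L σ p ec n KH c M P T U W b ρ η δ ζ y₀ Kc L₀ ρr a C₂ τ dl G →
      Pool.STA.LabR F A₀ L' p ec n KH M U σ b ζ δ C₁' C₂ ρr a L₀ T₀ c₁ c₂ (Ka * Kc) q ε₀ τ := by
  obtain ⟨c, cL, Kst, K', KH, c', L₀, C₀, T₀', hKst, hK', hL₀, hc, hC₀, hT₀', hf⟩ :=
    labR_fam n S Rd hS (fun D => lipJ_of (n + 1) D)
  refine ⟨c, KH, L₀, hc, hL₀, fun c₁ c₂ U T₀ => ?_⟩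
  obtain ⟨N₀, hN₀⟩ := exists_nat_ge (2 * C₀)
  refine ⟨16 * c ^ 2 + 4 * (c₂ * c) + 3 * ((c₁ + 1) * ((N₀ + 1) * c)) + 2 * (c' * c) + U + 1 +
    (3 * ((N₀ + 1) * c) + 6 * cL + 1), by omega, ?_⟩
  intro K L L' σ p _ M P T W b ρ o c₀ η e θ V δ φ D E ζ X₀ y₀ q ε₀ e' C₁' CE R hC₁ hσ0 hσ hLL
  obtain ⟨Cst, hf⟩ := hf K (T + M * P - 1)
  have hM0 : (0 : ℝ) ≤ M := Nat.cast_nonneg M
  -- the constant
  obtain ⟨sg₀, hsg₀⟩ : ∃ sg₀ : ℝ, sg₀ = ∑ i ∈ range (n + 2), σ i * M := ⟨_, rfl⟩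
  have hsg : ∀ i, i ≤ n + 1 → σ i * M ≤ sg₀ := fun i hi => by
    rw [hsg₀]
    exact Finset.single_le_sum (f := fun i => σ i * M)
      (fun i _ => mul_nonneg (zero_le_one.trans (hσ i)) hM0) (mem_range.2 (by omega))
  have hsg0 : 0 ≤ sg₀ := (mul_nonneg (zero_le_one.trans (hσ 0)) hM0).trans (hsg 0 (Nat.zero_le _))
  obtain ⟨b₁, hb₁⟩ : ∃ b₁ : ℕ, b₁ = 2 * (c₂ * c) + 3 * ((c₁ + 1) * ((N₀ + 1) * (c + 1))) + c' * c +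
    2 * c + 4 := ⟨_, rfl⟩
  obtain ⟨b₂, hb₂⟩ : ∃ b₂ : ℕ, b₂ = 3 * ((N₀ + 1) * (c + 1)) + c + cL + Cst + 4 := ⟨_, rfl⟩
  obtain ⟨B, hB⟩ : ∃ B : ℝ, B = ((Cst : ℝ) + c + S + 8) + b₁ + b₂ + |max T₀ T₀'| + (M + 1) +
    (sg₀ + 2) := ⟨_, rfl⟩
  have q1 : (0 : ℝ) ≤ Cst := Nat.cast_nonneg _
  have q2 : (0 : ℝ) ≤ c := Nat.cast_nonneg _
  have q3 : (0 : ℝ) ≤ S := Nat.cast_nonneg _
  have q4 : (0 : ℝ) ≤ b₁ := Nat.cast_nonneg _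
  have q5 : (0 : ℝ) ≤ b₂ := Nat.cast_nonneg _
  have q6 := abs_nonneg (max T₀ T₀')
  have hB1 : (Cst : ℝ) + c + S + 8 ≤ B := by linarith
  have hB2 : (b₁ : ℝ) ≤ B := by linarith
  have hB3 : (b₂ : ℝ) ≤ B := by linarith
  have hB4 : max T₀ T₀' ≤ B := (le_abs_self _).trans (by linarith)
  have hB5 : (M : ℝ) + 1 ≤ B := by linarith
  have hB6 : ∀ i, 1 ≤ i → i ≤ n + 1 → σ i * M + 2 ≤ B := fun i _ hi => by linarith [hsg i hi]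
  rw [hb₁] at hB2
  rw [hb₂] at hB3
  obtain ⟨J₀, hJ₀⟩ := R.lj B
  have hcr : (1 : ℝ) ≤ c := by exact_mod_cast hc
  have he0 := CE.e_nn
  have hρb := CE.lns.ρb
  have hb0 : 0 ≤ b := CE.lns.ρ_nn.trans hρb
  have hδ0 : 0 < δ := (R.bs he0 hc (by omega) (hJ₀ J₀ le_rfl) (θ := θ) (q := q)).δ0
  obtain ⟨eT, heT⟩ : ∃ eT : ℝ, eT = δ / (16 * c * (Cst + 1)) := ⟨_, rfl⟩
  have heT0 : 0 < eT := by rw [heT]; positivity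
  have heT1 : 16 * (c : ℝ) * (Cst * eT) ≤ δ := by
    have h1 : eT * (16 * c * (Cst + 1)) = δ := by
      rw [heT]
      field_simp
    have h2 : 0 ≤ 16 * (c : ℝ) * eT := by positivity
    linarith
  refine ⟨2 * Kst ^ (M + 1) * K' ^ (M + Rd + 2), eT, J₀, ?_, heT0, ?_⟩
  · have h1 : (0 : ℝ) < Kst := by exact_mod_cast (by omega : 0 < Kst)
    have h2 : (0 : ℝ) < K' := by exact_mod_cast (by omega : 0 < K')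
    positivity
  intro J hJJ m F ec dl δm A₀ A ρr a C₂ Ka τ G H hA hAA₀ hKa hKa0 hM hinj hok hdl hδm hTm hrow
  have hJ := hJ₀ J hJJ
  have Z := R.bs he0 hc (by omega) hJ (θ := θ) (q := q)
  have hTp := R.T_pos
  have hPp := R.P_pos
  have hθJ : 1 ≤ θ * J := by
    have h1 := Z.Dθ
    have h2 := Z.δJ
    have h3 := Z.δD
    have h4 : (1 : ℝ) ≤ ((16 * c ^ 2 + 4 * (c₂ * c) + 3 * ((c₁ + 1) * ((N₀ + 1) * c)) +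
        2 * (c' * c) + U + 1 + (3 * ((N₀ + 1) * c) + 6 * cL + 1) : ℕ) : ℝ) := by
      exact_mod_cast (by omega)
    have h5 : D * J ≤ ((16 * c ^ 2 + 4 * (c₂ * c) + 3 * ((c₁ + 1) * ((N₀ + 1) * c)) +
        2 * (c' * c) + U + 1 + (3 * ((N₀ + 1) * c) + 6 * cL + 1) : ℕ) : ℝ) * (D * J) :=
      le_mul_of_one_le_left (mul_nonneg Z.D0.le Z.J0) h4
    linarith
  have hd := R.dgs hc hδ0.le Z.D0.le hθJ Z.ζ0.le (J := J)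
  obtain ⟨GR, EN⟩ := R.grd hρb hJ hB5 (n + 1) (Rd + 2)
  have DG := R.dgt he0 hS hb0 hc (by omega) hJ hB1 hd heT0.le heT1
  have PW := R.pw (U := U) he0 hc (by linarith) hN₀ hC₁ (by omega) hJ hB2 hB4 hd
  obtain ⟨r1, r2, r3, r4, r5⟩ := R.rest (cL := cL) (N₀ := N₀) (Cst := Cst) he0 hc hC₁
    (by omega) hJ hB3 hB6 hd
  refine hf hA hAA₀ hKa hKa0 R.ζ_eq hLL CE GR EN le_rfl rfl DG hM hinj (fun k hk => ?_) hdl hδm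
    hTm PW hσ0 hσ r1 hd.y_ge r2 r3 le_rfl r4 r5 ?_
  · have hkM : k * P ≤ M * P := Nat.mul_le_mul_right _ hk
    have e1 : ix (T + M * P) 0 (T + k * P - 1) = T + k * P - 1 := by
      unfold ix
      omega
    rw [e1]
    exact hok _ (by omega)
  · intro C A' hA' hPA' hRw
    refine hrow C A' hA' hPA' ⟨hRw.cnd, hRw.near, hRw.hasZ, hRw.er, fun k hk i h1 hi =>
      (hRw.num k hk i h1 hi).trans ?_⟩
    have s1 := hd.t_le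
    have s2 := Z.sm
    have s3 : φ * J + (η * J) ≤ (e + (S + 2) * η + φ) * J := by
      have h1 : 0 ≤ e * J := mul_nonneg he0 Z.J0
      have h2 : 0 ≤ η * J := mul_nonneg R.η_pos.le Z.J0
      have h3 : 0 ≤ (S : ℝ) * (η * J) := by positivity
      nlinarith
    have s4 : (1 : ℝ) ≤ (c : ℝ) ^ 2 := one_le_pow₀ hcr
    have s5 : 0 ≤ φ * J := mul_nonneg R.φ_nn Z.J0
    have s6 := Z.ηJ
    have s7 : 0 ≤ (e + (S + 2) * η + φ) * J := by linarith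
    have s8 : 1 * ((e + (S + 2) * η + φ) * J) ≤ 16 * (c : ℝ) ^ 2 * ((e + (S + 2) * η + φ) * J) :=
      mul_le_mul_of_nonneg_right (by linarith) s7
    linarith

end Pool.STAT.GRD
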