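import Pool.Agent.H82.STAT.Grx

/-!
# The path to a node of the fat line

The node `v`: the point `(b + v ζ, W 0 + v ζ)`, it is the point `T + v P` of the fat line. `pthN`:
the path of the fat line up to the node. `node_path`: its natural box is finer than the levels of
the fat path.
-/

set_option autoImplicit false

namespace Pool.STAT.GRD

open Finset MvPolynomial
open Pool.Agent.H49.Ent Pool.Agent.H32.Dense Pool.STK Pool.KS3 Pool.KA Pool.KSAT Pool.PB Pool.GEN
open Pool.STAT.CLO Pool.STAT.CDat Pool.TRC Pool.STAT.DPP Pool.K2S Pool.LEV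

/-- `Fnr` depends on the levels only. -/
theorem Fnr.congr {m J : ℕ} {F : Fam m J} {π₁ π₂ π₁' π₂' : Path F} {n u j j' : ℕ}
    {A : F.Ω → Prop} (h : Fnr π₁ π₁' n u j j' A) (ha : π₂.a j = π₁.a j)
    (hg : ∀ k ≤ j, π₂.g k = π₁.g k) (hG : ∀ k ≤ j, π₂.G k = π₁.G k) (ha' : π₂'.a j' = π₁'.a j')
    (hg' : π₂'.g j' = π₁'.g j') (hG' : π₂'.G j' = π₁'.G j') : Fnr π₂ π₂' n u j j' A where
  a_le := by
    rw [ha, ha']
    exact h.a_le
  g_le k hk l h1 h2 := by
    rw [hg k hk, hg']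
    exact h.g_le k hk l h1 h2
  uni ω hω k hk l h1 h2 b hb := by
    rw [hg k hk, hG k hk, hG']
    rw [ha', hg', hG'] at hb
    exact h.uni ω hω k hk l h1 h2 b hb

/-- The radii of the path to a node. -/
def nal (N₁ aN : ℕ) (al : ℕ → ℕ) (k : ℕ) : ℕ := if k < N₁ then al k else aN

theorem nal_lt {N₁ aN : ℕ} {al : ℕ → ℕ} {k : ℕ} (h : k < N₁) : nal N₁ aN al k = al k := if_pos h

theorem nal_eq {N₁ aN : ℕ} {al : ℕ → ℕ} : nal N₁ aN al N₁ = aN := if_neg (lt_irrefl _)

/-- **The path to the node** `N₁` of a list. -/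
noncomputable def pthN {d J : ℕ} (F : Fam d J) (co : ℕ → Fin d) (n N₁ a₀ aN : ℕ) (al : ℕ → ℕ)
    (g : ℕ → ℕ → ℕ) (G : ℕ → PtT F → ℕ → MvPolynomial (Option (Fin d)) ℝ) : Path F :=
  pth F co n (N₁ + 1) a₀ (nal N₁ aN al) g G

section Grid

variable {L : ℕ → ℝ → ℝ → ℝ} {n Q : ℕ} {W : ℕ → ℝ} {b ρ o c₀ : ℝ} {η : ℝ}
  {T T₁ P w₀ z J : ℕ}

theorem gra_lt {k : ℕ} (h : k < T₁) : gra b η T T₁ k = b + xo T η k := by
  unfold gra
  rw [Nat.mod_eq_of_lt h]

theorem grw_lt {k : ℕ} (h : k < T₁) : grw W η T T₁ k = W 0 + xo T η k := by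
  unfold grw
  rw [Nat.mod_eq_of_lt h, Nat.div_eq_of_lt h]

/-- The numbers of the node. -/
structure Nod (T P M w₀ z J : ℕ) (b η : ℝ) (v aN : ℕ) : Prop where
  lt : v < M
  lo : (b + v * (P * η)) * J ≤ aN
  hi : (aN : ℝ) ≤ (b + v * (P * η) + η) * J
  w : w₀ + v * z ≤ aN

theorem xo_node {v : ℕ} : xo T η (T + v * P) = v * (P * η) := by
  unfold xo
  push_cast
  ring

/-- **The numbers of the list up to the node.** -/
theorem Grd.posN_node (G : Grd n Q T T₁ P w₀ z J b ρ o η) (H : Lns L n Q W b ρ o c₀) {M : ℕ}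
    (E : Ends b η T P w₀ z J M) (hT : T + M * P ≤ T₁) {d : ℕ → ℝ}
    (hd : ∀ l < n, 0 ≤ d l ∧ d l ≤ c₀) {u : ℕ} (hu : η * J + 2 ≤ u) {v aN : ℕ}
    (N : Nod T P M w₀ z J b η v aN) :
    PosN n (T + v * P + 1) J (fun k k' => k ≤ k')
      (nal (T + v * P) aN fun k => alt b η T P w₀ z J k) (fun k => ⌊grw W η T T₁ k * J⌋₊)
      (grn L W b η T T₁ J d) ⌊(b - ρ) * J⌋₊ ⌊(W 0 - ρ) * J⌋₊ u := by
  have hJ : (0 : ℝ) ≤ J := Nat.cast_nonneg J
  have hη := G.η_pos
  have hTp := G.T_pos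
  have hPp := G.P_pos
  have hvP : (v + 1) * P ≤ M * P := Nat.mul_le_mul_right _ N.lt
  have hv1 : (v + 1) * P = v * P + P := by ring
  have hlt : ∀ {k : ℕ}, k < T + v * P + 1 → k < T₁ := fun h => by omega
  have hbx : ∀ t, 0 ≤ b + xo T η t := fun t => by linarith [G.xlo t, H.ρb]
  have hub := alt_ub (P := P) (w₀ := w₀) (z := z) hη.le hbx G.w₀_le G.z_le
  have hlb := alt_lb (b := b) (η := η) (T := T) (P := P) (w₀ := w₀) (z := z) (J := J)
  have fm : ∀ {x y : ℝ}, x ≤ y → ⌊x * J⌋₊ ≤ ⌊y * J⌋₊ := fun h =>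
    Nat.floor_le_floor (mul_le_mul_of_nonneg_right h hJ)
  have hin : ∀ {k : ℕ}, k < T + v * P + 1 →
      H.In (gra b η T T₁ k) (grw W η T T₁ k) := fun {k} h => by
    rw [gra_lt (hlt h), grw_lt (hlt h)]
    exact G.in H (Nat.zero_le _) (hlt h)
  -- the radii
  obtain ⟨α, hα⟩ : ∃ α : ℕ → ℕ, α = nal (T + v * P) aN fun k => alt b η T P w₀ z J k := ⟨_, rfl⟩
  have hα1 : ∀ {k : ℕ}, k < T + v * P → α k = alt b η T P w₀ z J k := fun h => by
    rw [hα]; exact nal_lt h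
  have hα2 : α (T + v * P) = aN := by rw [hα]; exact nal_eq
  have hαlo : ∀ {k : ℕ}, k < T + v * P + 1 → gra b η T T₁ k * J - 1 ≤ α k := fun {k} h => by
    rw [gra_lt (hlt h)]
    rcases Nat.lt_or_ge k (T + v * P) with h1 | h1
    · rw [hα1 h1]
      exact hlb k
    · obtain rfl : k = T + v * P := by omega
      rw [hα2, xo_node]
      linarith [N.lo]
  have hαhi : ∀ {k : ℕ}, k < T + v * P + 1 → (α k : ℝ) ≤ (gra b η T T₁ k + η) * J :=
    fun {k} h => by
    rw [gra_lt (hlt h)]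
    rcases Nat.lt_or_ge k (T + v * P) with h1 | h1
    · rw [hα1 h1]
      exact hub k
    · obtain rfl : k = T + v * P := by omega
      rw [hα2, xo_node]
      exact N.hi
  have hαm : ∀ {k k' : ℕ}, k' < T + v * P + 1 → k ≤ k' → α k ≤ α k' := fun {k k'} h h' => by
    rcases Nat.lt_or_ge k' (T + v * P) with h1 | h1
    · rw [hα1 h1, hα1 (by omega)]
      exact alt_mono hη.le h'
    · obtain rfl : k' = T + v * P := by omega
      rcases Nat.lt_or_ge k (T + v * P) with h2 | h2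
      · rw [hα1 h2, hα2]
        have h3 : alt b η T P w₀ z J k ≤ alt b η T P w₀ z J (T + v * P - 1) :=
          alt_mono hη.le (by omega)
        rw [E.al G N.lt.le] at h3
        exact h3.trans N.w
      · obtain rfl : k = T + v * P := by omega
        exact le_rfl
  have hxx : ∀ {k k' : ℕ}, k' < T + v * P + 1 → k ≤ k' →
      gra b η T T₁ k ≤ gra b η T T₁ k' ∧ grw W η T T₁ k ≤ grw W η T T₁ k' := fun {k k'} h h' => by
    have h1 := xo_mono (T := T) hη.le h'
    rw [gra_lt (hlt h), gra_lt (hlt (by omega)), grw_lt (hlt h), grw_lt (hlt (by omega))]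
    exact ⟨by linarith, by linarith⟩
  rw [← hα]
  refine
    { aJ := fun k hk => ?_
      wa := fun k hk => ?_
      ini := fun k hk => ?_
      a0J := ?_
      w0 := fm (by linarith [H.Wb (Nat.zero_le Q)])
      le := fun k hk k' hk' hR => ⟨hαm hk' hR, fm (hxx hk' hR).2⟩
      law := fun k hk k' hk' hR l hl => ?_
      law0 := fun k hk l hl => ?_ }
  · have h4 := hαhi hk
    have h5 : (gra b η T T₁ k + η) * J ≤ 1 * J := by
      refine mul_le_mul_of_nonneg_right ?_ hJ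
      rw [gra_lt (hlt hk)]
      linarith [G.top _ (hlt hk), H.top]
    exact_mod_cast (show (α k : ℝ) ≤ J by linarith)
  · have h1 := hin hk
    have h2 : ⌊grw W η T T₁ k * J⌋₊ ≤ ⌊gra b η T T₁ k * J⌋₊ := fm h1.wa
    refine h2.trans ?_
    rcases Nat.lt_or_ge k (T + v * P) with h3 | h3
    · rw [hα1 h3, gra_lt (hlt hk)]
      exact alt_ge k
    · obtain rfl : k = T + v * P := by omega
      rw [hα2, gra_lt (hlt hk), xo_node]
      exact Nat.floor_le_of_le N.lo
  · have h1 := hin hk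
    refine ⟨(fm h1.a0).trans ?_, fm h1.w0⟩
    rcases Nat.lt_or_ge k (T + v * P) with h3 | h3
    · rw [hα1 h3, gra_lt (hlt hk)]
      exact alt_ge k
    · obtain rfl : k = T + v * P := by omega
      rw [hα2, gra_lt (hlt hk), xo_node]
      exact Nat.floor_le_of_le N.lo
  · have h1 : ((⌊(b - ρ) * J⌋₊ : ℕ) : ℝ) ≤ (b - ρ) * J :=
      Nat.floor_le (mul_nonneg (by linarith [H.ρb]) hJ)
    have h2 : (b - ρ) * J ≤ 1 * J :=
      mul_le_mul_of_nonneg_right (by linarith [H.top, H.o_nn, H.ρ_nn]) hJ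
    exact_mod_cast (show ((⌊(b - ρ) * J⌋₊ : ℕ) : ℝ) ≤ J by linarith)
  · have h3 := hin hk
    have h3' := hin hk'
    obtain ⟨x1, x2⟩ := hxx hk' hR
    have h4 := h3.grow h3' x1 x2 (i := l + 1) (by omega) (by omega)
    have h5 := h3.lo (i := l + 1) (by omega) (by omega)
    constructor
    · have h6 := grn_ub (J := J) (k := k) ((hd l hl).2.trans h5)
      have h7 := grn_lb (L := L) (W := W) (b := b) (η := η) (T := T) (T₁ := T₁) (J := J) d k' l
      have h8 := hαhi hk'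
      have h9 := hαlo hk
      have h10 := mul_le_mul_of_nonneg_right h4 hJ
      have : ((grn L W b η T T₁ J d k l + α k' : ℕ) : ℝ) ≤
          ((grn L W b η T T₁ J d k' l + α k + u : ℕ) : ℝ) := by
        push_cast
        nlinarith
      exact_mod_cast this
    · refine Nat.floor_le_floor (mul_le_mul_of_nonneg_right ?_ hJ)
      have := h3.mono h3' x1 x2 (i := l + 1) (by omega) (by omega)
      linarith
  · have h3 := hin hk
    have h0 : H.In (b - ρ) (W 0 - ρ) := ⟨le_rfl, le_rfl, by linarith [H.Wb (Nat.zero_le Q)],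
      by linarith [H.ρ_nn, H.o_nn]⟩
    have h4 := h0.grow h3 h3.a0 h3.w0 (i := l + 1) (by omega) (by omega)
    have h5 := h0.lo (i := l + 1) (by omega) (by omega)
    have h7 := grn_lb (L := L) (W := W) (b := b) (η := η) (T := T) (T₁ := T₁) (J := J) d k l
    have h8 := hαhi hk
    have h9 := Nat.lt_floor_add_one ((b - ρ) * J)
    have h10 := mul_le_mul_of_nonneg_right h4 hJ
    have h11 := mul_le_mul_of_nonneg_right ((hd l hl).2.trans h5) hJ
    have : ((α k : ℕ) : ℝ) ≤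
        ((grn L W b η T T₁ J d k l + ⌊(b - ρ) * J⌋₊ + u : ℕ) : ℝ) := by
      push_cast
      nlinarith
    exact_mod_cast this

/-- **The path to the node.** -/
theorem node_path (n K : ℕ) : ∃ s₀ : ℕ, 1 ≤ s₀ ∧ ∀ {d J : ℕ} {F : Fam d J} {co : ℕ → Fin d}
    {L : ℕ → ℝ → ℝ → ℝ} {Rd : ℕ} {W : ℕ → ℝ} {b ρ o c₀ η : ℝ} {T P M w₀ z : ℕ} {d' : ℕ → ℝ}
    {ee h u₀ u v aN : ℕ} {δm : ℕ → ℕ} {A : F.Ω → Prop}
    {G : ℕ → PtT F → ℕ → MvPolynomial (Option (Fin d)) ℝ}
    {H : ℕ → LnT F → ℕ → MvPolynomial (Option (Fin d)) ℝ},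
    Grd n (Rd + 2) T (T + M * P) P w₀ z J b ρ o η → Lns L n (Rd + 2) W b ρ o c₀ →
    Ends b η T P w₀ z J M →
    (∀ l < n, 0 ≤ d' l ∧ d' l ≤ c₀) → η * J + 2 ≤ u → 2 * η * J + 2 ≤ h →
    Pool.CHT.MCh F co n (fun _ => K) ((Rd + 2 + 1) * (T + M * P))
      (fun k k' => gra b η T (T + M * P) k ≤ gra b η T (T + M * P) k' ∧
        grw W η T (T + M * P) k ≤ grw W η T (T + M * P) k')
      (fun k => ⌊gra b η T (T + M * P) k * J⌋₊) (fun k => ⌊grw W η T (T + M * P) k * J⌋₊) ee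
      (grn L W b η T (T + M * P) J d') δm A G H → Inj co n → (∀ l < n, δm l ≤ u₀) →
    u₀ + s₀ ≤ u → Nod T P M w₀ z J b η v aN →
    (pthI F co n (T + M * P - 1 + 1) ⌊(b - ρ) * J⌋₊
      (fun k => alt b η T P w₀ z J (k % (T + M * P))) (grn L W b η T (T + M * P) J d') G
      (ix (T + M * P) 0)).Ok ∧
    (pthN F co n (T + v * P) ⌊(b - ρ) * J⌋₊ aN (fun k => alt b η T P w₀ z J k)
      (grn L W b η T (T + M * P) J d') G).Ok ∧
    Fnr (pthI F co n (T + M * P - 1 + 1) ⌊(b - ρ) * J⌋₊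
        (fun k => alt b η T P w₀ z J (k % (T + M * P))) (grn L W b η T (T + M * P) J d') G
        (ix (T + M * P) 0))
      (pthN F co n (T + v * P) ⌊(b - ρ) * J⌋₊ aN (fun k => alt b η T P w₀ z J k)
        (grn L W b η T (T + M * P) J d') G) n u (T + v * P) (T + v * P + 1) A ∧
    Fnr (pthN F co n (T + v * P) ⌊(b - ρ) * J⌋₊ aN (fun k => alt b η T P w₀ z J k)
        (grn L W b η T (T + M * P) J d') G)
      (pthN F co n (T + v * P) ⌊(b - ρ) * J⌋₊ aN (fun k => alt b η T P w₀ z J k)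
        (grn L W b η T (T + M * P) J d') G) n u (T + v * P + 1) (T + v * P + 1) A := by
  obtain ⟨s₁, hs₁, hlvl⟩ := lvl_of n K
  obtain ⟨s₂, hs₂, hfnr⟩ := fnr_pth n K
  refine ⟨s₁ + s₂, by omega, ?_⟩
  intro d J F co L Rd W b ρ o c₀ η T P M w₀ z d' ee h u₀ u v aN δm A G H GR LN EN hd hu hh hM hinj
    hδ hus N
  obtain ⟨T₁, hT₁⟩ : ∃ T₁, T₁ = T + M * P := ⟨_, rfl⟩
  rw [← hT₁] at GR hM ⊢
  have hTp := GR.T_pos
  have hPp := GR.P_pos
  have hη := GR.η_pos
  have hvP : (v + 1) * P ≤ M * P := Nat.mul_le_mul_right _ N.lt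
  have hv1 : (v + 1) * P = v * P + P := by ring
  have hT1 : T₁ ≤ (Rd + 2 + 1) * T₁ := Nat.le_mul_of_pos_left _ (by omega)
  have hlt : ∀ {k : ℕ}, k < T + v * P + 1 → k < T₁ := fun h => by omega
  -- the fat path
  have hM' := mch_up (a' := fun k => alt b η T P w₀ z J (k % T₁)) hM fun k _ => alt_ge _
  have hI := gI_ok (M := M) GR LN EN (by omega) hh
  have hPf := (GR.posN LN hd hu).path hI.F
  have hok1 := hlvl d J _ F co _ _ ee _ u₀ h u _ _ A _ _ (jat_of_mch hM' hI.F.lt hI.F.R hδ) hinj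
    hPf.alJ hPf.a0J hPf.w0 hPf.oa hPf.om1 hPf.ini hPf.mesh hPf.law hPf.law0 (by omega)
  -- the list up to the node
  have hPN := GR.posN_node LN EN hT₁.ge hd hu N
  have hxx : ∀ {k k' : ℕ}, k' < T + v * P + 1 → k ≤ k' →
      gra b η T T₁ k ≤ gra b η T T₁ k' ∧ grw W η T T₁ k ≤ grw W η T T₁ k' := fun {k k'} h h' => by
    have h1 := xo_mono (T := T) hη.le h'
    rw [gra_lt (hlt h), gra_lt (hlt (by omega)), grw_lt (hlt h), grw_lt (hlt (by omega))]
    exact ⟨by linarith, by linarith⟩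
  have hMN' := mch_idx (N' := T + v * P + 1) (R' := fun k k' => k ≤ k') hM (fun k => k)
    (fun k hk => by have := hlt hk; omega) (fun k _ k' hk' hR => hxx hk' hR)
  have hMN := mch_up (a' := nal (T + v * P) aN fun k => alt b η T P w₀ z J k) hMN'
    (fun k hk => by
      rcases Nat.lt_or_ge k (T + v * P) with h3 | h3
      · rw [nal_lt h3]
        show ⌊gra b η T T₁ k * J⌋₊ ≤ _
        rw [gra_lt (hlt hk)]
        exact alt_ge k
      · obtain rfl : k = T + v * P := by omega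
        rw [nal_eq]
        show ⌊gra b η T T₁ (T + v * P) * J⌋₊ ≤ _
        rw [gra_lt (hlt hk), xo_node]
        exact Nat.floor_le_of_le N.lo)
  have hPix : Pix (T + v * P + 1) (T + v * P + 1) (fun k k' => k ≤ k')
      (nal (T + v * P) aN fun k => alt b η T P w₀ z J k) ⌊(b - ρ) * J⌋₊ J (fun k => k) :=
    { lt := fun k hk => hk
      R := fun k' _ k hk => hk.le
      ini := fun h0 => by
        have := hPN.aJ 0 h0
        omega
      mesh := fun k hk => by
        have := hPN.aJ (k + 1) hk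
        omega }
  have hPn := hPN.path hPix
  have hok2 := hlvl d J _ F co _ _ ee _ u₀ J u _ _ A _ _
    (jat_of_mch hMN hPix.lt hPix.R hδ) hinj
    hPn.alJ hPn.a0J hPn.w0 hPn.oa hPn.om1 hPn.ini hPn.mesh hPn.law hPn.law0 (by omega)
  have hf1 := hfnr hMN hinj hPN hδ (by omega) (fun k => k) (fun k => k) (T + v * P + 1)
    (T + v * P + 1) (T + v * P - 1) (T + v * P) (by omega) (by omega) (fun k hk => by omega)
    (by show T + v * P < T + v * P + 1; omega) (fun k' hk' k hk => hk.le)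
    (fun k hk => by show k ≤ T + v * P; omega)
  have hf2 := hfnr hMN hinj hPN hδ (by omega) (fun k => k) (fun k => k) (T + v * P + 1)
    (T + v * P + 1) (T + v * P) (T + v * P) (by omega) (by omega) (fun k hk => by omega)
    (by show T + v * P < T + v * P + 1; omega) (fun k' hk' k hk => hk.le)
    (fun k hk => hk)
  have hNF : (gI T T₁ P M Rd).NF = T₁ - 1 := by
    show T + M * P - 1 = T₁ - 1
    rw [hT₁]
  rw [hNF] at hok1
  refine ⟨⟨hok1.triG, hok1.G_zero⟩, ⟨hok2.triG, hok2.G_zero⟩, ?_, hf2⟩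
  have e0 : T + v * P - 1 + 1 = T + v * P := by omega
  rw [e0] at hf1
  have eix : ∀ k, ix T₁ 0 k = k := fun k => by unfold ix; omega
  refine hf1.congr ?_ (fun k hk => ?_) (fun k hk => ?_) rfl rfl rfl
  · obtain ⟨x, hx⟩ : ∃ x, T + v * P = x + 1 := ⟨T + v * P - 1, by omega⟩
    rw [hx]
    show alt b η T P w₀ z J (ix T₁ 0 x % T₁) = nal (x + 1) aN _ x
    rw [nal_lt (by omega), ix_mod (by omega)]
  · rcases k with _ | k
    · rfl
    · funext l
      show grn L W b η T T₁ J d' (ix T₁ 0 k) (l - 1) = grn L W b η T T₁ J d' k (l - 1)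
      rw [eix]
  · rcases k with _ | k
    · rfl
    · have e1 := jG_succ (F := F) (c := co) (n := n) (N := T₁ - 1 + 1) (a₀ := ⌊(b - ρ) * J⌋₊)
        (al := fun k => alt b η T P w₀ z J (ix T₁ 0 k % T₁)) (G := fun k => G (ix T₁ 0 k))
        (k := k) (by omega)
      have e2 := jG_succ (F := F) (c := co) (n := n) (N := T + v * P + 1)
        (a₀ := ⌊(b - ρ) * J⌋₊) (al := nal (T + v * P) aN fun k => alt b η T P w₀ z J k)
        (G := G) (k := k) (by omega)
      have e3 : alt b η T P w₀ z J (ix T₁ 0 k % T₁) =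
          nal (T + v * P) aN (fun k => alt b η T P w₀ z J k) k := by
        rw [nal_lt (by omega), ix_mod (by omega)]
      have e4 : Gs co n (alt b η T P w₀ z J (ix T₁ 0 k % T₁)) (G (ix T₁ 0 k)) =
          Gs co n (nal (T + v * P) aN (fun k => alt b η T P w₀ z J k) k) (G k) := by
        rw [e3, eix]
      exact e1.trans (e4.trans e2.symm)

end Grid

end Pool.STAT.GRD
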