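import Pool.Agent.H40.ISO.IsoN
import Pool.Agent.H40.ISO.NfK
import Pool.Agent.H78.MIC.TopX

/-!
# The facts of the rows of slope one

`nf_S0`: as `nf_S` (helper40), the rows without any bound by the growth. `FctJ`: for every grid of
labels there is a large subevent so that the axioms `Ok2` and the rows hold for all its large events.
`fctJ_of`: from exactness.
-/

set_option autoImplicit false

namespace Pool.STAT

open Finset MvPolynomial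
open Pool.Agent.H49.Ent Pool.Agent.H32.Dense Pool.STK Pool.KS3 Pool.KA Pool.KSAT Pool.PB Pool.GEN
open Pool.K2S Pool.S6C
open Pool.LEV (Law Lv)
open Pool.STR (Affn Nw NfB AffB)
open Pool.CHT (TmH)
open CLO Pool.MIC6

variable {m n₀ : ℕ} {Θ : Type*} {I : ℝ → Θ → Prop} {S : PCl m}

/-- A statement of the class for all subevents of exponential proportion. -/
theorem bas_evx {Φ : Stat m} (h : Bas S Φ) : ∃ τ : ℝ, 0 < τ ∧
    Bas S (fun J F A => ∀ B : F.Ω → Prop, Sub B A → Real.exp (-(τ * J)) * Pe F.p A ≤ Pe F.p B →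
      Φ J F B) := by
  obtain ⟨τ, hτ, J₁, h⟩ := h
  refine ⟨τ / 2, half_pos hτ, τ / 2, half_pos hτ, J₁, fun J hJ F A hA B hB hP => ?_⟩
  refine h J hJ F B ?_
  have h1 := S.res (τ := τ / 2) (τ' := τ / 2) (half_pos hτ).le hA hB hP
  rwa [add_halves] at h1

/-- **Nonfull rows** of the cells of the kit (`nf_S`), without any bound by the growth. -/
theorem nf_S0 (hI : MonoI I)
    (hpos : ∀ (τ : ℝ) (J : ℕ) (F : Fam m J) (A : F.Ω → Prop), S.St τ J F A → 0 < Pe F.p A)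
    (hZ : Bas S (fun _ F _ => Zc F)) (Kt : KitP m Θ n₀) (hinj : ∀ p, Inj (Kt.cs p) (n₀ + 1))
    (hcov : ∀ p, ∀ i : Fin m, i ≠ Kt.cs p n₀ → ∃ l < n₀, Kt.cs p l = i)
    {r : ℝ → ℝ} (hR : ∀ p, Pool.ALL.RateOf S (Kt.cs p n₀) r) {K' s₁ : ℕ} {sh : ℕ → ℕ}
    (hK' : 1 ≤ K') {h : ℝ} (hh : 0 < h) (hh1 : h ≤ 1)
    (frow : ∀ ε' : ℝ, 0 < ε' → EvP I fun p => NfB r h (ε' * Kt.X p)
      (Kt.L p n₀ ((Kt.y p).1 + (Kt.y p).2) (Kt.y p).1 - Kt.X p)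
      (Kt.L p n₀ ((Kt.y p).1 + (Kt.y p).2) (Kt.y p).1 + 2 * Kt.X p)) {T' : ℝ}
    (fcel : ∀ ε' : ℝ, 0 < ε' → EvP I fun p =>
      CellL (n₀ + 1) (Kt.L p) ε' T' (Kt.y p) (Kt.X p) (Kt.la p) (Kt.ml p))
    (fexs : ∀ k : ℝ, 0 < k → ∀ M : ℕ, EvQ I fun N θ p =>
      Kt.FldN S K' s₁ sh M N θ p fun G J F D q => ExS D G.c G.n G.sh G.M (G.gn J)
        (k * up G.ζ J) q)
    (fok : ∃ C₅ : ℝ, ∀ C₁ ≥ C₅, ∀ κ : ℝ, 0 < κ → ∀ M : ℕ, EvQ I fun N θ p =>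
      Kt.FldN S K' s₁ sh M N θ p fun G J F D q => (Kt.nd p N M θ G F D).Ok2 G.n G.K' J
        (up G.α J) (up G.ϖ J) (up G.ζ J) G.M (lamS (n₀ + 1) (Kt.ml p))
        (gamS (n₀ + 1) (Kt.la p) (Kt.ml p)) κ C₁ q) :
    ∃ C₃ : ℝ, ∀ C₁ ≥ C₃, ∃ B : ℕ, 1 ≤ B ∧ ∀ M : ℕ,
    EvQ I fun N θ p => Kt.FldN S K' s₁ sh M N θ p fun G J F D q =>
      NF0 (Kt.nd p N M θ G F D) G.n (up G.ζ J) G.M B h C₁ q := by
  obtain ⟨C₅, fok⟩ := fok
  obtain ⟨C₁', hC₁'⟩ : ∃ C₁', C₁' = max C₅ 1 := ⟨_, rfl⟩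
  have c1 : C₅ ≤ C₁' := by rw [hC₁']; exact le_max_left _ _
  have c3 : 1 ≤ C₁' := by rw [hC₁']; exact le_max_right _ _
  obtain ⟨Λ, hΛ⟩ := exists_nat_ge (T' + 1 + 2 * C₁')
  obtain ⟨B, hB, hnf⟩ := nf_clsS (n₀ + 1) Kt.K K' s₁ sh (by omega) hK' Λ (C₁ := C₁')
    (by linarith only [c3])
  refine ⟨2 * C₁' + 2, fun C₁ hC₁ => ⟨B, hB, fun M => ?_⟩⟩
  obtain ⟨k, hk0, hnf⟩ := hnf B le_rfl M
  obtain ⟨N₁, hN₁⟩ := exists_nat_ge (4 * (T' + 2))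
  have key := (((KitP.cel_evQ fcel M).and hI (EvQ.of_evP fun N =>
    frow (1 / (64 * (N * (M + 4)) + 1)) (by positivity))).and hI
    ((fexs k hk0 M).and hI (fok C₁' c1 1 one_pos M))).and hI
    (EvQ.self I (max N₁ (B + 1)) (θ₀ := 1 / 16) (by norm_num)
      (ε := fun N _ => 1) (fun N _ _ => one_pos))
  refine key.mono ?_
  rintro N θ p ⟨⟨⟨hL, hNf⟩, pexc, pok⟩, hN, hθ, hθ1, -⟩ b e hnear
  obtain ⟨ε, hε⟩ : ∃ ε : ℝ, ε = 1 / (64 * (N * (M + 4)) + 1) := ⟨_, rfl⟩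
  rw [← hε] at hL hNf
  have hNN : N₁ ≤ N := (le_max_left _ _).trans hN
  have hNB : B + 1 ≤ N := (le_max_right _ _).trans hN
  have hN1 : 1 ≤ N := by omega
  have hNT : 4 * (T' + 2) ≤ N := hN₁.trans (by exact_mod_cast hNN)
  have hε0 : 0 < ε := by rw [hε]; positivity
  have hεN : ε * (64 * (N * (M + 4))) ≤ 1 := by
    rw [hε, one_div, inv_mul_le_iff₀ (by positivity)]
    linarith
  have hn1 : 1 ≤ n₀ + 1 := by omega
  have hs := hL.sideE (B := B) hn1 hN1 hNT hNB hB hε0.le hεN hθ hθ1 hnear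
  have hX := hL.pos
  have hζ0 := hs.ζ0
  have e1 : N * ((M + 4) * msh (Kt.X p) N M) = Kt.X p := msh_mul hN1
  have hεX : ε * Kt.X p ≤ msh (Kt.X p) N M / 2 := by
    have h1 : ε * (64 * (N * (M + 4))) * msh (Kt.X p) N M ≤ 1 * msh (Kt.X p) N M :=
      mul_le_mul_of_nonneg_right hεN hζ0.le
    have h2 : ε * (64 * (N * (M + 4))) * msh (Kt.X p) N M =
      64 * (ε * (N * ((M + 4) * msh (Kt.X p) N M))) := by ring
    rw [h2, e1] at h1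
    linarith only [h1, hζ0]
  have hlow0 := hL.low n₀ (by omega) ((Kt.y p).1 + (Kt.y p).2) (Kt.y p).1 hs.win
    (by linarith only [hL.dep, hX]) (by linarith only [hL.top, hX])
  have hup0 := hL.lt n₀ (by omega)
  have hfin := hnf (S := S) (W := Kt.W p N M θ) (c := Kt.cs p)
    (α := (Kt.y p).1 + (Kt.y p).2) (ϖ := (Kt.y p).1) (ζ := msh (Kt.X p) N M) (e := e) (b := b)
    (ρ := fun J F D => Kt.rc p N M θ J F D) (lam := lamS (n₀ + 1) (Kt.ml p))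
    (gam := gamS (n₀ + 1) (Kt.la p) (Kt.ml p)) (k := k) (η := ε * Kt.X p) (r := r)
    (A₀ := Kt.L p n₀ ((Kt.y p).1 + (Kt.y p).2) (Kt.y p).1 - Kt.X p)
    (B₁ := Kt.L p n₀ ((Kt.y p).1 + (Kt.y p).2) (Kt.y p).1 + 2 * Kt.X p)
    hζ0 hk0.le le_rfl (hinj p) (hcov p)
    (fun l _ _ => by
      have := hL.lamS_le hn1 l
      linarith only [this, hΛ]) hnear.e0 hs.pos hs.siz hs.mono
    (by linarith only [hlow0, hL.dep, hL.win, hX]) (by linarith only [hup0, hX])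
    hs.lev hh.le hh1 (by positivity) hεX hNf hpos hZ (hR p)
    (FldW.iff_v.1 (pexc b e hnear)) (FldW.iff_v.1 (pok b e hnear))
  refine (FldW.iff_v.2 hfin).mono 0 fun J _ F D q hq i hi j hj r U h1 => ?_
  refine (hq i hi j hj r U h1).trans ?_
  have h2 : (0 : ℝ) ≤ up (msh (Kt.X p) N M) J := Nat.cast_nonneg _
  exact add_le_add le_rfl (mul_le_mul_of_nonneg_right hC₁ h2)


/-- **The facts of the rows**: for every grid of labels there is a large subevent so that the axioms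
`Ok2` and the rows hold for all its large events. -/
def FctJ (S : PCl m) (I : ℝ → Θ → Prop) (Kt : KitP m Θ n₀) (K' s₁ : ℕ) (sh : ℕ → ℕ) (Bn : ℕ)
    (h C₁ : ℝ) : Prop :=
  ∀ M : ℕ, EvQ I fun N θ p => ∀ (b : ℕ → ℕ → ℕ → ℝ) (e : ℕ → ℕ → ℝ), Kt.Near p N M θ b e →
    ∃ C τ : ℝ, 1 ≤ C ∧ 0 < τ ∧ Bas S fun J F A => ∀ D : GDat F,
      (Kt.grid K' s₁ sh p N M θ b e).Ok F D A →
      ∃ B : F.Ω → Prop, Sub B A ∧ Pe F.p A ≤ C * Pe F.p B ∧ ∀ E : F.Ω → Prop, Sub E B →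
        Real.exp (-(τ * J)) * Pe F.p A ≤ Pe F.p E →
        (Kt.nd p N M θ (Kt.grid K' s₁ sh p N M θ b e) F D).Ok2 (n₀ + 1) K' J
          (up ((Kt.y p).1 + (Kt.y p).2) J) (up (Kt.y p).1 J) (up (msh (Kt.X p) N M) J) M
          (lamS (n₀ + 1) (Kt.ml p)) (gamS (n₀ + 1) (Kt.la p) (Kt.ml p)) 1 C₁
          (Pool.Agent.H49.Ent.cond F.p E True) ∧
        NF0 (Kt.nd p N M θ (Kt.grid K' s₁ sh p N M θ b e) F D) (n₀ + 1)
          (up (msh (Kt.X p) N M) J) M Bn h C₁ (Pool.Agent.H49.Ent.cond F.p E True)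

/-- **The facts of the rows** from exactness. -/
theorem fctJ_of (hI : MonoI I) (hS : TmH S) (hZ : Bas S (fun _ F _ => Zc F)) (Kt : KitP m Θ n₀)
    (hml : ∀ p, ∀ l < n₀ + 1, Kt.ml p l = 1) (hinj : ∀ p, Inj (Kt.cs p) (n₀ + 1))
    (hcov : ∀ p, ∀ i : Fin m, i ≠ Kt.cs p n₀ → ∃ l < n₀, Kt.cs p l = i)
    {r : ℝ → ℝ} (hR : ∀ p, Pool.ALL.RateOf S (Kt.cs p n₀) r) {K' s₁ : ℕ} {sh : ℕ → ℕ}
    (hK' : 1 ≤ K') (hsub : ∀ p N M θ (J : ℕ) (F : Fam m J) (D : GDat F) (i j : ℕ),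
      Subsingleton (Kt.RT p N M θ J F D i j))
    (hcom : ∀ p N M θ (J : ℕ) (F : Fam m J) (D : GDat F) (A : F.Ω → Prop),
      Kt.W p N M θ J F D A → OKI.Cmn D M) {h : ℝ} (hh : 0 < h) (hh1 : h ≤ 1)
    (frow : ∀ ε' : ℝ, 0 < ε' → EvP I fun p => NfB r h (ε' * Kt.X p)
      (Kt.L p n₀ ((Kt.y p).1 + (Kt.y p).2) (Kt.y p).1 - Kt.X p)
      (Kt.L p n₀ ((Kt.y p).1 + (Kt.y p).2) (Kt.y p).1 + 2 * Kt.X p)) {T' : ℝ}
    (fcel : ∀ ε' : ℝ, 0 < ε' → EvP I fun p =>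
      CellL (n₀ + 1) (Kt.L p) ε' T' (Kt.y p) (Kt.X p) (Kt.la p) (Kt.ml p))
    (fexn : ∀ k : ℝ, 0 < k → ∀ M : ℕ, EvQ I fun N θ p =>
      Kt.FldN S K' s₁ sh M N θ p fun G J F D q => OKI.ExN D G.c G.n G.sh (Kt.rc p N M θ J F D)
        (up G.ϖ J) (up G.ζ J) G.M (G.gn J) (k * up G.ζ J) q)
    (fexs : ∀ k : ℝ, 0 < k → ∀ M : ℕ, EvQ I fun N θ p =>
      Kt.FldN S K' s₁ sh M N θ p fun G J F D q => ExS D G.c G.n G.sh G.M (G.gn J)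
        (k * up G.ζ J) q) :
    ∃ (Bn : ℕ) (C₁ : ℝ), 1 ≤ Bn ∧ 1 ≤ C₁ ∧ FctJ S I Kt K' s₁ sh Bn h C₁ := by
  obtain ⟨Bc, hV⟩ := hV_isoN hI hS Kt hml hinj hcom fcel fexn
  obtain ⟨W₂, hW₂⟩ : ∃ W₂ : Θ → ℕ → ℕ → ℝ → GrdP m, W₂ = fun p N M θ J F D A =>
    Kt.W p N M θ J F D A ∧ Kt.Wgd Bc p N M θ J F D A := ⟨_, rfl⟩
  have her₂ : ∀ p N M θ, (W₂ p N M θ).Her := by
    intro p N M θ J F D A B hB hA
    rw [hW₂] at hA ⊢
    exact ⟨Kt.her p N M θ hB hA.1, Kt.wgd_her Bc p N M θ hB hA.2⟩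
  have hW1 : ∀ p N M θ (J : ℕ) (F : Fam m J) (D : GDat F) (A : F.Ω → Prop),
      W₂ p N M θ J F D A → Kt.W p N M θ J F D A := by
    intro p N M θ J F D A hA
    rw [hW₂] at hA
    exact hA.1
  have hok := ok2_isoN hI hS.1 (Kt.setW W₂ her₂) hml hinj hK' hsub
    (fun p N M θ J F D A hA => hcom p N M θ J F D A (hW1 p N M θ J F D A hA))
    (Bc := Bc) (fun p N M θ J F D A hA => by
      have h1 : W₂ p N M θ J F D A := hA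
      rw [hW₂] at h1
      exact h1.2) fcel
    (fun k hk M => (fexn k hk M).mono fun N θ p h1 =>
      h1.setW (fun J F D A => hW1 p N M θ J F D A) fun b e J F D q h2 => h2)
  obtain ⟨C₃, hnf⟩ := nf_S0 hI hS.1 hZ (Kt.setW W₂ her₂) hinj hcov hR hK' hh hh1 frow fcel
    (fun k hk M => (fexs k hk M).mono fun N θ p h1 =>
      h1.setW (fun J F D A => hW1 p N M θ J F D A) fun b e J F D q h2 => h2) hok
  obtain ⟨C₅, hok⟩ := hok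
  obtain ⟨C₁, hC₁⟩ : ∃ C₁, C₁ = max (max C₃ C₅) 1 := ⟨_, rfl⟩
  have c1 : C₃ ≤ C₁ := by rw [hC₁]; exact (le_max_left _ _).trans (le_max_left _ _)
  have c2 : C₅ ≤ C₁ := by rw [hC₁]; exact (le_max_right _ _).trans (le_max_left _ _)
  have c3 : 1 ≤ C₁ := by rw [hC₁]; exact le_max_right _ _
  obtain ⟨Bn, hBn, hnf⟩ := hnf C₁ c1
  refine ⟨Bn, C₁, hBn, c3, fun M => ?_⟩
  have key := (hV M).and hI ((hok C₁ c2 1 one_pos M).and hI (hnf M))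
  refine key.mono ?_
  rintro N θ p ⟨hv, ho, hn⟩ b e hnear
  obtain ⟨C, hC, hv⟩ := hv b e hnear
  obtain ⟨τ, hτ, hon⟩ := bas_evx ((ho b e hnear).and (hn b e hnear))
  refine ⟨C, τ, hC, hτ, Bas.mono 0 (hv.and hon) ?_⟩
  rintro J - F A ⟨h1, h2⟩ D hD
  obtain ⟨B, k1, k2, k3⟩ := h1 D hD
  refine ⟨B, k1, k2, fun E hE hPE => ?_⟩
  have hEA : Sub E A := fun ω hω => k1 ω (hE ω hω)
  have hDE := hD.sub hEA
  have hDW : ((Kt.setW W₂ her₂).grid K' s₁ sh p N M θ b e).Ok F D E := by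
    refine ⟨hDE.1, ?_⟩
    show W₂ p N M θ J F D E
    rw [hW₂]
    exact ⟨hDE.2, Kt.wgd_her Bc p N M θ hE k3⟩
  exact h2 E hEA hPE D hDW

end Pool.STAT
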