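import Pool.Agent.H80.STAT.BalU
import Pool.Agent.H80.STAT.PthC
import Pool.Agent.H82.STAT.Kja
import Pool.Agent.H82.STAT.Kjb

/-!
# The numbers of the grid of the rows of slope one

`CJ`: an affine cell of small size whose levels are the fattest. `CJ.grr`: the numbers of the grid of
`BAL.grd_bas` (helper80); `CJ.near`: the sides are near to the levels. `mch_bg`: the chains of the grid
in the list with further points.
-/

set_option autoImplicit false

namespace Pool.STAT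

open Finset MvPolynomial
open Pool.Agent.H49.Ent Pool.Agent.H32.Dense Pool.STK Pool.KS3 Pool.KA Pool.KSAT Pool.PB Pool.GEN
open Pool.K2S Pool.S6C
open Pool.LEV (Law Lv)
open Pool.STR (Affn Nw NfB AffB)
open Pool.STAT.GRD
open CLO Pool.MIC6

/-- **An affine cell of small size**, the levels are the fattest. `lam`: the margin. -/
structure CJ (L : ℕ → ℝ → ℝ → ℝ) (n : ℕ) (σ : ℕ → ℝ) (s : ℕ) (g E lam b r ε : ℝ) : Prop where
  cel : CellI L n (fun i => σ (i + 1)) s b r ε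
  law : ∀ i, Law (L i)
  ge : ∀ i a w, 0 ≤ w → w ≤ a → a ≤ 1 → a ≤ L i a w
  iso : ∀ l ≤ n, ∀ a w, 0 ≤ w → w ≤ a → a ≤ 1 → L l a w = min 1 (L l w w + (a - w))
  σn : σ (n + 1) = 1
  σ1 : ∀ i, 1 ≤ σ i
  σs : ∀ i ≤ n + 1, σ i ≤ s
  r0 : 0 < r
  bg : |b - g| ≤ r
  g0 : 0 < g
  g1 : g < 1
  E0 : 0 ≤ E
  l0 : 0 < lam
  top : ∀ i ≤ n, L i g g + E + 2 * lam ≤ 1
  ε1 : ε ≤ 1
  rl : (2 * s + 4) * r ≤ lam
  rg : 8 * r ≤ g

namespace CJ

variable {L : ℕ → ℝ → ℝ → ℝ} {n : ℕ} {σ : ℕ → ℝ} {s : ℕ} {g E lam b r ε : ℝ}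

theorem b0 (H : CJ L n σ s g E lam b r ε) : 7 * r ≤ b := by
  have h1 := abs_le.1 H.bg
  linarith [H.rg]

/-- The levels on the diagonal. -/
theorem le_top (H : CJ L n σ s g E lam b r ε) {i : ℕ} (hi : i ≤ n) {a : ℝ} (h1 : b - r ≤ a)
    (h2 : a ≤ b + r) : L i a a + E + lam ≤ 1 := by
  obtain ⟨g1, g2⟩ := abs_le.1 H.bg
  have h3 := (abs_le.1 (H.cel.all H.σn hi (a' := a) (w' := a) h1 le_rfl h2)).2
  have h4 := (abs_le.1 (H.cel.all H.σn hi (a' := g) (w' := g) (by linarith) le_rfl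
    (by linarith))).1
  have h5 := H.σ1 (i + 1)
  have h6 := H.σs (i + 1) (by omega)
  have h7 := H.top i hi
  have h8 := H.rl
  have hr := H.r0
  have h9 : ε * r ≤ 1 * r := mul_le_mul_of_nonneg_right H.ε1 hr.le
  have h10 : σ (i + 1) * (a - g) ≤ s * (2 * r) := by
    rcases le_total 0 (a - g) with h | h
    · exact mul_le_mul h6 (by linarith) h (Nat.cast_nonneg s)
    · have h11 : σ (i + 1) * (a - g) ≤ 0 := mul_nonpos_of_nonneg_of_nonpos (by linarith) h
      have h12 : 0 ≤ (s : ℝ) * (2 * r) := by positivity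
      linarith
  have e1 : σ (i + 1) * (a - g) = (a - b) + (σ (i + 1) - 1) * (a - b) -
    ((g - b) + (σ (i + 1) - 1) * (g - b)) := by ring
  have e2 : (2 * (s : ℝ) + 4) * r = s * (2 * r) + 4 * r := by ring
  rw [e1] at h10
  rw [e2] at h8
  linarith

theorem lt_one (H : CJ L n σ s g E lam b r ε) {i : ℕ} (hi : i ≤ n) {a : ℝ} (h1 : b - r ≤ a)
    (h2 : a ≤ b + r) : L i a a < 1 := by
  have := H.le_top hi h1 h2
  linarith [H.E0, H.l0]

/-- The slope on the diagonal is at least one. -/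
theorem slope (H : CJ L n σ s g E lam b r ε) {i : ℕ} (hi : i ≤ n) {a w : ℝ} (h1 : b - r ≤ w)
    (h2 : w ≤ a) (h3 : a ≤ b + r) : L i w w + (a - w) ≤ L i a a := by
  have hr := H.r0
  have hb := H.b0
  have hw : 0 ≤ w := by linarith
  have ha : a ≤ 1 := by linarith [H.cel.hi]
  have h4 := (H.law i).slope w w (a - w) hw le_rfl (by linarith) (by linarith)
  rw [show w + (a - w) = a by ring] at h4
  have h5 := (H.law i).mono_w a w a hw h2 le_rfl ha
  have h6 := H.lt_one hi (a := a) (by linarith) h3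
  rcases min_le_iff.1 h4 with h7 | h7
  · linarith
  · linarith

/-- The fattest levels. -/
theorem lev (H : CJ L n σ s g E lam b r ε) {i : ℕ} (hi : i ≤ n) {a w : ℝ} (h1 : b - r ≤ w)
    (h2 : w ≤ a) (h3 : a ≤ b + r) : L i a w = L i w w + (a - w) := by
  have hr := H.r0
  have hb := H.b0
  rw [H.iso i hi a w (by linarith) h2 (by linarith [H.cel.hi])]
  have h4 := H.slope hi h1 h2 h3
  have h5 := H.lt_one hi (a := a) (by linarith) h3
  exact min_eq_right (by linarith)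

/-- **The numbers of the grid.** -/
theorem grr (H : CJ L n σ s g E lam b r ε) {M : ℕ} {ω th ε' : ℝ} (hω : 0 < ω)
    (hωM : (M + 2) * ω ≤ 1 / 8) (hε' : 0 ≤ ε') (hth : 0 < th) (hth1 : th ≤ ω * r) :
    BAL.GrR (n + 1) (b - r / 8 + r / 8) (b - r / 8) (ω * r) (g / 4) E ε' th
      (fun l y => L l y y) M := by
  have hr := H.r0
  have hb := H.b0
  have hhi := H.cel.hi
  obtain ⟨g1, g2⟩ := abs_le.1 H.bg
  have hrg := H.rg
  have hωr : 0 < ω * r := mul_pos hω hr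
  have hM : (M + 2) * (ω * r) ≤ r / 8 := by
    have h1 := mul_le_mul_of_nonneg_right hωM hr.le
    have e1 : (M + 2) * ω * r = (M + 2) * (ω * r) := by ring
    rw [e1] at h1
    linarith
  have hM0 : (0 : ℝ) ≤ M := Nat.cast_nonneg M
  have hMω : 0 ≤ (M : ℝ) * (ω * r) := mul_nonneg hM0 hωr.le
  have hj : ∀ j : ℕ, j ≤ M → 0 ≤ (j : ℝ) * (ω * r) ∧ (j : ℝ) * (ω * r) ≤ M * (ω * r) := fun j hj =>
    ⟨by positivity, mul_le_mul_of_nonneg_right (by exact_mod_cast hj) hωr.le⟩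
  have e2 : (M + 2) * (ω * r) = M * (ω * r) + 2 * (ω * r) := by ring
  rw [e2] at hM
  refine ⟨by linarith [H.g0], by linarith, hωr, by linarith, by linarith, H.E0, hε', hth,
    by linarith, fun j hjM l hl => ?_, fun i hi j hjM l hl => ?_⟩
  · obtain ⟨j1, j2⟩ := hj j hjM
    have h1 := H.lt_one (i := l) (by omega) (a := b - r / 8 + j * (ω * r)) (by linarith)
      (by linarith)
    exact ⟨H.ge l _ _ (by linarith) le_rfl (by linarith), h1.le⟩
  · obtain ⟨j1, j2⟩ := hj j hjM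
    obtain ⟨i1, i2⟩ := hj i hi
    have h1 := H.slope (i := l) (by omega) (w := b - r / 8 + j * (ω * r))
      (a := b - r / 8 + r / 8 + i * (ω * r)) (by linarith) (by linarith) (by linarith)
    have h2 := H.le_top (i := l) (by omega) (a := b - r / 8 + r / 8 + i * (ω * r)) (by linarith)
      (by linarith)
    have h3 := H.rl
    have h4 : 4 * r ≤ (2 * s + 4) * r := by
      have : 0 ≤ (s : ℝ) * r := by positivity
      nlinarith
    show E + L l (b - r / 8 + j * (ω * r)) (b - r / 8 + j * (ω * r)) + th +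
      (b - r / 8 + r / 8 + i * (ω * r) - (b - r / 8 + j * (ω * r))) < 1
    linarith

/-- **The sides are near to the levels.** -/
theorem near (H : CJ L n σ s g E lam b r ε) {N M : ℕ} (hN : 1 ≤ N) {θ e₀ : ℝ} {τ : ℕ → ℝ}
    (hωM : (M + 2) * (om N M : ℝ) ≤ 1 / 8) (hθ : θ ≤ 1)
    (hτ0 : ∀ l < n + 1, 0 < τ l) (hτ : ∀ l < n + 1, 2 * τ l ≤ θ * (om N M * r)) (he₀ : 0 ≤ e₀)
    (he₁ : e₀ ≤ θ * (om N M * r)) :
    NearE (n + 1) L (b - r / 8, r / 8) (r / 64) N M θ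
      (fun i j l => L l (b - r / 8 + j * msh (r / 64) N M) (b - r / 8 + j * msh (r / 64) N M) +
        (b - r / 8 + r / 8 + i * msh (r / 64) N M - (b - r / 8 + j * msh (r / 64) N M)) - τ l)
      (fun _ _ => E + e₀) := by
  have hr := H.r0
  have hb := H.b0
  have hω : (0 : ℝ) < om N M := om_pos hN M
  have hhi := H.cel.hi
  obtain ⟨g1, g2⟩ := abs_le.1 H.bg
  have hrg := H.rg
  rw [msh_om hN]
  have hωr : 0 < om N M * r := mul_pos hω hr
  have hM : (M + 2) * (om N M * r) ≤ r / 8 := by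
    have h1 := mul_le_mul_of_nonneg_right hωM hr.le
    have e1 : (M + 2) * (om N M : ℝ) * r = (M + 2) * (om N M * r) := by ring
    rw [e1] at h1
    linarith
  have hM0 : (0 : ℝ) ≤ M := Nat.cast_nonneg M
  have hMω : 0 ≤ (M : ℝ) * (om N M * r) := mul_nonneg hM0 hωr.le
  have hj : ∀ j : ℕ, j ≤ M → 0 ≤ (j : ℝ) * (om N M * r) ∧
      (j : ℝ) * (om N M * r) ≤ M * (om N M * r) := fun j hj =>
    ⟨by positivity, mul_le_mul_of_nonneg_right (by exact_mod_cast hj) hωr.le⟩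
  have e2 : (M + 2) * (om N M * r) = M * (om N M * r) + 2 * (om N M * r) := by ring
  rw [e2] at hM
  have hθω : θ * (om N M * r) ≤ 1 * (om N M * r) := mul_le_mul_of_nonneg_right hθ hωr.le
  have hlv : ∀ i ≤ M, ∀ j ≤ M, ∀ l < n + 1, L l (b - r / 8 + r / 8 + i * (om N M * r))
      (b - r / 8 + j * (om N M * r)) = L l (b - r / 8 + j * (om N M * r))
      (b - r / 8 + j * (om N M * r)) + (b - r / 8 + r / 8 + i * (om N M * r) -
      (b - r / 8 + j * (om N M * r))) := by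
    intro i hi j hjM l hl
    obtain ⟨j1, j2⟩ := hj j hjM
    obtain ⟨i1, i2⟩ := hj i hi
    exact H.lev (by omega) (by linarith) (by linarith) (by linarith)
  refine ⟨fun i hi j hjM l hl => ?_, fun i hi j hjM l hl => ?_, fun _ _ _ _ => by
    linarith [H.E0], fun i hi j hjM l hl => ?_⟩
  · show _ < L l (b - r / 8 + r / 8 + i * msh (r / 64) N M) (b - r / 8 + j * msh (r / 64) N M)
    rw [msh_om hN, hlv i hi j hjM l hl]
    linarith [hτ0 l hl]
  · show L l (b - r / 8 + r / 8 + i * msh (r / 64) N M) (b - r / 8 + j * msh (r / 64) N M) -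
      θ * msh (r / 64) N M ≤ _
    rw [msh_om hN, hlv i hi j hjM l hl]
    linarith [hτ0 l hl, hτ l hl]
  · obtain ⟨j1, j2⟩ := hj j hjM
    obtain ⟨i1, i2⟩ := hj i hi
    have h1 := H.slope (i := l) (by omega) (w := b - r / 8 + j * (om N M * r))
      (a := b - r / 8 + r / 8 + i * (om N M * r)) (by linarith) (by linarith) (by linarith)
    have h2 := H.le_top (i := l) (by omega) (a := b - r / 8 + r / 8 + i * (om N M * r))
      (by linarith) (by linarith)
    have h3 := H.rl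
    have h4 : 4 * r ≤ (2 * s + 4) * r := by
      have : 0 ≤ (s : ℝ) * r := by positivity
      nlinarith
    have h5 := hτ0 l hl
    show L l (b - r / 8 + j * (om N M * r)) (b - r / 8 + j * (om N M * r)) +
      (b - r / 8 + r / 8 + i * (om N M * r) - (b - r / 8 + j * (om N M * r))) - τ l + (E + e₀) +
      r / 64 ≤ 1
    linarith

/-- The steps of the levels. -/
theorem stp (H : CJ L n σ s g E lam b r ε) {w x η δ : ℝ} (hη : 0 ≤ η) (hx : x = w - η)
    (h1 : b - r ≤ b - r / 8 + x) (h2 : b + w ≤ b + r) (hδ : s * η + 2 * (ε * r) ≤ δ) {i : ℕ}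
    (hi : i ≤ n) : L i (b + w) (b - r / 8 + w) ≤ L i (b + x) (b - r / 8 + x) + δ := by
  have hr := H.r0
  have h3 := (abs_le.1 (H.cel.all H.σn hi (a' := b + w) (w' := b - r / 8 + w) (by linarith)
    (by linarith) h2)).2
  have h4 := (abs_le.1 (H.cel.all H.σn hi (a' := b + x) (w' := b - r / 8 + x) h1
    (by linarith) (by linarith))).1
  have h5 := H.σ1 (i + 1)
  have h6 := mul_le_mul_of_nonneg_right (H.σs (i + 1) (by omega)) hη
  have e1 : σ (i + 1) * η = (b + w - b) + (σ (i + 1) - 1) * (b - r / 8 + w - b) -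
    ((b + x - b) + (σ (i + 1) - 1) * (b - r / 8 + x - b)) := by rw [hx]; ring
  rw [e1] at h6
  linarith

end CJ

/-- **The joint property of the labels**: re-centred ball charts. -/
noncomputable def vBal {m : ℕ} (cs : ℕ → Fin m) (n : ℕ) (L : ℕ → ℝ → ℝ → ℝ) (K : ℕ) :
    ℝ × ℝ → ℕ → ℕ → ℝ → GrdP m := fun p N M θ J F D A =>
  wBal cs (n + 1) K M (p.2 - p.1 / 8) (msh (p.1 / 64) N M)
    (fun j l => L l (p.2 - p.1 / 8 + j * msh (p.1 / 64) N M)
      (p.2 - p.1 / 8 + j * msh (p.1 / 64) N M) - θ * msh (p.1 / 64) N M)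
    (fun j l => L l (p.2 - p.1 / 8 + j * msh (p.1 / 64) N M)
      (p.2 - p.1 / 8 + j * msh (p.1 / 64) N M)) J F A D.G D.H

theorem vBal_her {m : ℕ} (cs : ℕ → Fin m) (n : ℕ) (L : ℕ → ℝ → ℝ → ℝ) (K : ℕ) (p : ℝ × ℝ)
    (N M : ℕ) (θ : ℝ) : (vBal cs n L K p N M θ).Her :=
  fun hB hA => wBal_her _ _ _ _ _ _ _ _ hB hA

/-- The labels do not depend on the radius. -/
theorem vBal_com {m : ℕ} {cs : ℕ → Fin m} {n : ℕ} {L : ℕ → ℝ → ℝ → ℝ} {K : ℕ} {p : ℝ × ℝ}
    {N M : ℕ} {θ : ℝ} {J : ℕ} {F : Fam m J} {D : GDat F} {A : F.Ω → Prop}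
    (h : vBal cs n L K p N M θ J F D A) : OKI.Cmn D M := fun i hi j hj => (wBal.com h i hi j hj).2

/-- The chains of the grid in the list with further points. -/
theorem mch_bg {m J : ℕ} {F : Fam m J} {c : ℕ → Fin m} {n K N Nx T T₁ : ℕ} {L : ℕ → ℝ → ℝ → ℝ}
    {W : ℕ → ℝ} {b η : ℝ} {ax wx dl : ℕ → ℝ} {e : ℕ} {δm : ℕ → ℕ} {A : F.Ω → Prop}
    {G : ℕ → PtT F → ℕ → MvPolynomial (Option (Fin m)) ℝ}
    {H : ℕ → LnT F → ℕ → MvPolynomial (Option (Fin m)) ℝ}
    (hM : Pool.CHT.MCh F c n (fun _ => K) (N + Nx)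
      (fun k k' => bga b η T T₁ N ax k ≤ bga b η T T₁ N ax k' ∧
        bgw W η T T₁ N wx k ≤ bgw W η T T₁ N wx k')
      (fun k => ⌊bga b η T T₁ N ax k * J⌋₊) (fun k => ⌊bgw W η T T₁ N wx k * J⌋₊) e
      (fun k l => ⌊(L (l + 1) (bga b η T T₁ N ax k) (bgw W η T T₁ N wx k) - dl l) * J⌋₊) δm A G H) :
    Pool.CHT.MCh F c n (fun _ => K) N
      (fun k k' => gra b η T T₁ k ≤ gra b η T T₁ k' ∧ grw W η T T₁ k ≤ grw W η T T₁ k')
      (fun k => ⌊gra b η T T₁ k * J⌋₊) (fun k => ⌊grw W η T T₁ k * J⌋₊) e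
      (grn L W b η T T₁ J dl) δm A G H := by
  have hbig := fun {k : ℕ} (hk : k < N) =>
    (⟨if_pos hk, if_pos hk⟩ : bga b η T T₁ N ax k = gra b η T T₁ k ∧
      bgw W η T T₁ N wx k = grw W η T T₁ k)
  have hlt : ∀ {k : ℕ}, k < N → k < N + Nx := fun h => by omega
  refine ⟨fun k hk => ?_, fun k' hk' k hk hR l hl ω hω y hy => ?_,
    fun k' hk' k hk hR l hl ω hω y hy => ?_, fun k hk l hl ω hω y hy => ?_⟩
  · have h1 := hM.ok k (hlt hk)
    obtain ⟨e1, e2⟩ := hbig hk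
    simp only [e1, e2] at h1
    exact h1
  · have h1 := hM.uni k' (hlt hk') k (hlt hk)
    obtain ⟨e1, e2⟩ := hbig hk
    obtain ⟨e3, e4⟩ := hbig hk'
    simp only [e1, e2, e3, e4] at h1
    exact h1 hR l hl ω hω y hy
  · have h1 := hM.two k' (hlt hk') k (hlt hk)
    obtain ⟨e1, e2⟩ := hbig hk
    obtain ⟨e3, e4⟩ := hbig hk'
    simp only [e1, e2, e3, e4] at h1
    exact h1 hR l hl ω hω y hy
  · have h1 := hM.siz k (hlt hk)
    obtain ⟨e1, e2⟩ := hbig hk
    simp only [e1, e2] at h1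
    exact h1 l hl ω hω y hy

end Pool.STAT
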